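import Pool.Agent.MVF.C004
import Pool.Agent.MVF.C038

/-! Parts: TWR.St, TWR.CRT, TWR.CST, TWR.EQV, TWR.FRB, TWR.KEY, TWR.SUM, TWR.St2, TWR.TRI, TWR.TRS, TWB.St, TWB.TWB -/

section

/-!
# TWR: rigidity of weight two symbols in the direction of a prime `l = 2, 3` (problem MP_b78433_nt)

Twisted layers. Proof: helper22 (one page), recurrence: helper51 / helper34. A weight two symbol is
given by the function `W x = Φ(∞, x)` on `ℚ` with values in an `R`-module `M` (in the application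
`R = V` a valuation ring of `ℂ` above `p`, `p ≥ 5`, `M = ℂ / {v < 1}`). The final statement is `S_TWR`:
a finite family of even symbols `P i`, depleted at `l` (`∑_{k<l} P i ∞ (x + k/l) = 0`), with values
in a number field, such that for every `N'` some `P i ∞ (h ∞)`, `h ∈ Γ₁(N')`, is not in the maximal
ideal: for infinitely many `n`, for ALL `i`, all `j < a` and ALL even characters `ψ` of conductor
`l^(n+j)` the sum `∑_b ψ(b) P i ∞ (b/l^(n+j))` is not in the maximal ideal.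

NOTATION. `l` prime, `m ≥ 1`, `q = l^m`. `z : ℤ → R` additive character modulo `q`, `z j = ζ^j`.
`Tw q z W e x = ∑_{j<q} ζ^(e j) W(x + j/q)`. `StarAt l m z W n u`: `Tw q z W e (c/l^n) = 0` for all
`c, e` with `e c ≡ u` modulo `q` (`u` prime to `l`, so `c`, `e` are prime to `l`).

Module `XXX`: `theorem t_XXX : S_XXX` (or `M_XXX`: with other statements as hypotheses) in
`Pool/Agent/TWR/XXX.lean`.
-/

set_option autoImplicit false

namespace Pool.Agent.TWR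

open Finset OnePoint

section Defs

variable {R M : Type} [CommRing R] [AddCommGroup M] [Module R M]

/-- `z j = ζ^j`, `ζ^q = 1`, and `1 - ζ^j` is a unit if `q ∤ j`. -/
structure Chr (q : ℕ) (z : ℤ → R) : Prop where
  add : ∀ a b : ℤ, z (a + b) = z a * z b
  per : z q = 1
  un : ∀ j : ℤ, ¬ (q : ℤ) ∣ j → IsUnit (1 - z j)

/-- `W x = Φ(∞, x)` for a weight two symbol `Φ` for `Γ₀(N)` with character `χ`. -/
structure QM (N : ℕ) (χ : ℤ → R) (W : ℚ → M) : Prop where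
  per : ∀ x : ℚ, W (x + 1) = W x
  one : χ 1 = 1
  chi : ∀ d d' : ℤ, (N : ℤ) ∣ d - d' → χ d = χ d'
  eqv : ∀ a b c d : ℤ, a * d - b * c = 1 → (N : ℤ) ∣ c → c ≠ 0 → ∀ x : ℚ, (c : ℚ) * x + d ≠ 0 →
    W ((a * x + b) / (c * x + d)) = W ((a : ℚ) / c) + χ d • W x

/-- `Tw q z W e x = ∑_{j<q} ζ^(e j) W(x + j/q)` -/
def Tw (q : ℕ) (z : ℤ → R) (W : ℚ → M) (e : ℤ) (x : ℚ) : M :=
  ∑ j ∈ range q, z (e * j) • W (x + (j : ℚ) / q)

/-- the relations at level `n` with label `u` -/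
def StarAt (l m : ℕ) (z : ℤ → R) (W : ℚ → M) (n : ℕ) (u : ℤ) : Prop :=
  ∀ c e : ℤ, ((l ^ m : ℕ) : ℤ) ∣ e * c - u → Tw (l ^ m) z W e ((c : ℚ) / (l : ℚ) ^ n) = 0

end Defs

/-! ### 1. The operators `Tw` -/

/-- TWP (80 lines), elementary properties. Proof. `z` is multiplicative with `z 0 = 1` (`z q = z q * z 0`),
so `z (q k) = 1` for `k ∈ ℤ` (`z (-q) * z q = z 0`), so `z` has period `q`. A sum over `range q` of a
`q`-periodic function `F : ℤ → M` does not change under `j ↦ j + 1` and under `j ↦ t j` if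
`IsCoprime t q` (e.g. as a sum over `ZMod q`). (a) `W (x+1) = W x`. (b) `F j = z (e j) • W (x + j/q)` is
periodic; `Tw e (x + 1/q) = ∑ z (e j) • W (x + (j+1)/q) = z (-e) • ∑ z (e (j+1)) • W (x + (j+1)/q)`.
(c) `z (e j) = z (e' j)`. (d) the definition. -/
def S_TWP : Prop := ∀ (R M : Type) [CommRing R] [AddCommGroup M] [Module R M] (q : ℕ) (_ : q ≠ 0)
  (z : ℤ → R) (_ : Chr q z) (W : ℚ → M) (_ : ∀ x, W (x + 1) = W x),
  z 0 = 1 ∧ (∀ a b : ℤ, (q : ℤ) ∣ a - b → z a = z b) ∧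
  (∀ (F : ℤ → M) (_ : ∀ j, F (j + q) = F j) (t : ℤ), IsCoprime t (q : ℤ) →
    ∑ j ∈ range q, F (t * j) = ∑ j ∈ range q, F j) ∧
  (∀ (e n : ℤ) (x : ℚ), Tw q z W e (x + n) = Tw q z W e x) ∧
  (∀ (e : ℤ) (x : ℚ), Tw q z W e (x + 1 / q) = z (-e) • Tw q z W e x) ∧
  (∀ (e e' : ℤ) (x : ℚ), (q : ℤ) ∣ e - e' → Tw q z W e x = Tw q z W e' x) ∧
  (∀ (a e : ℤ) (x : ℚ), Tw q (fun j => z (a * j)) W e x = Tw q z W (a * e) x)

/-- EQV (150 lines). Proof. For `j ∈ ℤ` let `a' = a + j c/q`, `d' = d - c j d²/q`,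
`b' = b + (j d - j d² a)/q - j² d² c/q²` (integers: `q² ∣ c` and `j d (1 - a d) = - j d b c`). Then
`a' d' - b' c = 1`, `N ∣ c`, `d' ≡ d` modulo `N` (`N q ∣ c`), `c (x + j d²/q) + d' = c x + d ≠ 0` and
`(a x + b)/(c x + d) + j/q = (a' (x + j d²/q) + b')/(c (x + j d²/q) + d')`. So by `QM.eqv`
`W (g x + j/q) = W (a/c + j/q) + χ d • W (x + j d²/q)`. Sum with `z (e j)`:
`Tw e (g x) = Tw e (a/c) + χ d • ∑_j z (e j) • W (x + j d²/q)`. In the last sum replace `j` by `a² j`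
(`TWP`, third clause: `a` is prime to `q` because `a d - b c = 1`, `q ∣ c`): `z (e a² j)` and
`W (x + a² d² j/q) = W (x + j/q)` because `a² d² - 1 = (a d - 1)(a d + 1) = b c (a d + 1)` is divisible by
`q`. -/
def S_EQV : Prop := ∀ (R M : Type) [CommRing R] [AddCommGroup M] [Module R M] (q : ℕ) (_ : q ≠ 0)
  (z : ℤ → R) (_ : Chr q z) (N : ℕ) (χ : ℤ → R) (W : ℚ → M) (_ : QM N χ W) (e a b c d : ℤ)
  (x : ℚ), a * d - b * c = 1 → ((N * q * q : ℕ) : ℤ) ∣ c → c ≠ 0 → (c : ℚ) * x + d ≠ 0 →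
  Tw q z W e ((a * x + b) / (c * x + d)) = Tw q z W e ((a : ℚ) / c) + χ d • Tw q z W (e * a ^ 2) x

def M_EQV : Prop := S_TWP → S_EQV

/-- EDG (130 lines), the edges. Proof. `q = l^m`. Choose `b, d` with `A d - b C = 1`, and
`c' = d B - b D`, `x = c'/l^n`. Then `A c' + b l^n = B` and `C c' + d l^n = D` (insert
`l^n = A D - B C`), so `C x + d = D/l^n ≠ 0` and `(A x + b)/(C x + d) = B/D`. By `EQV`:
`Tw e (B/D) = Tw e (A/C) + χ d • Tw (e A²) (c'/l^n)`. Modulo `q`: `A D = l^n + B C ≡ 0` (`n ≥ m`) and `A` is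
a unit, so `D ≡ 0`, `c' ≡ d B`, `e A² c' ≡ e A B (A d) ≡ e A B ≡ u`: the last term is `0` by `StarAt`. -/
def S_EDG : Prop := ∀ (R M : Type) [CommRing R] [AddCommGroup M] [Module R M] (l m : ℕ)
  (_ : l.Prime) (z : ℤ → R) (_ : Chr (l ^ m) z) (N : ℕ) (χ : ℤ → R) (W : ℚ → M) (_ : QM N χ W)
  (n : ℕ) (u : ℤ) (_ : StarAt l m z W n u) (e A B C D : ℤ), m ≤ n →
  ((N * l ^ m * l ^ m : ℕ) : ℤ) ∣ C → C ≠ 0 → D ≠ 0 → IsCoprime A C → A * D - B * C = l ^ n →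
  ((l ^ m : ℕ) : ℤ) ∣ e * A * B - u →
  Tw (l ^ m) z W e ((B : ℚ) / D) = Tw (l ^ m) z W e ((A : ℚ) / C)

def M_EDG : Prop := S_EQV → S_EDG

/-! ### 2. Combinatorics and congruences -/

/-- REC (170 lines), recurrence. Proof. Let `I ≠ ∅` (otherwise the hypothesis is false), `s = card I`,
`w = m + a`. For `n ≥ n0 + s w` and `k ≤ s` choose `j_k < a`, `i_k`, `u_k` with
`T (n - k w + j_k) i_k u_k`. Two of the `i_k` are equal, `k < k'`: with `e = n - k w + j_k`,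
`e' = n - k' w + j_k'`: `e - e' ≥ w - (a - 1) ≥ m`, `e - e' ≤ s w + a`. So every `n ≥ n0 + s w` has a label
`(i, u, u', r, d)` (`r = n + a - e ≤ s w + a`, `m ≤ d ≤ s w + a`) in a finite set with `T (n + a - r) i u` and
`T (n + a - r - d) i u'`. LEMMA: `f : ℕ → α`, `α` finite, `K ∈ ℕ`: there is `n* ≥ K` such that for every
`q ≥ 1` there is `o ≥ 1`, `q ∣ o`, `f (n* + o) = f n*`. [Among all progressions
`P = {n ≥ K : n ≡ c mod t}`, `t ≥ 1`, choose one for which the finite set `V(P)` of the values taken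
infinitely often on `P` has the smallest number of elements; `V(P) ≠ ∅`. Let `n* ∈ P`, `f n* ∈ V(P)`. The
progression `P' = {n ≥ K : n ≡ n* mod t q}` is contained in `P`, so `V(P') ⊆ V(P)`, so equal, so
`f n* ∈ V(P')`.] Apply it to the label (on `n ≥ n0 + s w`), `K` large, and put `E + d = n* + a - r`. -/
def S_REC : Prop := ∀ (I U : Type) [Finite I] [Finite U] (T : ℕ → I → U → Prop) (a m n0 K : ℕ),
  1 ≤ a → (∀ n, n0 ≤ n → ∃ j < a, ∃ i u, T (n + j) i u) →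
  ∃ (E d : ℕ) (i : I) (u u' : U), K ≤ E ∧ m ≤ d ∧ d + m ≤ E ∧ T E i u' ∧ T (E + d) i u ∧
    ∀ q, 1 ≤ q → ∃ o, 1 ≤ o ∧ q ∣ o ∧ T (E + d + o) i u

/-- CRT (90 lines). Proof. The moduli `N0`, `l^m`, `δ` are pairwise coprime. `B0 = β l^E + u' δ` is prime to
`δ` (`β`, `l` are). By the Chinese remainder theorem there is `m1` with `N0 ∣ m1`,
`m1 ≡ u (u'² δ)⁻¹` modulo `l^m` (inverse modulo `l^m`, `u'`, `δ` are prime to `l`) and
`m1 ≡ - l^d B0⁻¹` modulo `δ`. It is prime to `l` because `u` is and `m ≥ 1`. -/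
def S_CRT : Prop := ∀ (l m N0 E d : ℕ) (β δ u u' : ℤ), l.Prime → 1 ≤ m → N0 ≠ 0 →
  IsCoprime (N0 : ℤ) (l : ℤ) → IsCoprime δ ((N0 : ℤ) * l) → IsCoprime β δ →
  IsCoprime u (l : ℤ) → IsCoprime u' (l : ℤ) →
  ∃ m1 : ℤ, (N0 : ℤ) ∣ m1 ∧ ((l ^ m : ℕ) : ℤ) ∣ m1 * (u' ^ 2 * δ) - u ∧
    δ ∣ m1 * (β * l ^ E + u' * δ) + l ^ d ∧ IsCoprime m1 (l : ℤ)

/-- CST (50 lines). Proof. `H : ℤ → M` has the periods `P` and `T`, so all integer combinations of them,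
so `gcd(P, T) = l^s` with `s ≤ r` (`P = l^k`, `T = l^t T0`, `T0` prime to `l`, `s ≤ t`), so `l^r`. So
`H s = H (s + l^r) = ζ • H s`, `(1 - ζ) • H s = 0`. -/
def S_CST : Prop := ∀ (R M : Type) [CommRing R] [AddCommGroup M] [Module R M] (l k t r : ℕ)
  (T0 : ℤ) (y : R) (H : ℤ → M), IsCoprime T0 (l : ℤ) → t ≤ r → IsUnit (1 - y) →
  (∀ s, H (s + l ^ k) = H s) → (∀ s, H (s + l ^ t * T0) = H s) → (∀ s, H (s + l ^ r) = y • H s) →
  ∀ s, H s = 0

/-! ### 3. The main step -/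

/-- KEY (260 lines). Proof. `q = l^m`, `N = l^v N0`. Fix `β`, `δ`. Let `m1` be as in `CRT`,
`B0 = β l^E + u' δ`, `D = δ l^E`, `B s = B0 + s q δ`, so `x_s := β/δ + (u' + s q)/l^E = B s/D`.
`H s := Tw q z W 1 x_s`. Periods: (i) `H (s + l^(E-m)) = H s` because `x_(s + l^(E-m)) = x_s + 1`.
(ii) Let `A s = (m1 B0 + l^d)/δ + m1 s q`, `C = l^E m1 ≠ 0`. `N q q ∣ C` because `E ≥ v + 2m`, `N0 ∣ m1`.
`A s · D - B s · C = l^(E+d)`. `δ A s ≡ m1 B0 ≡ m1 u' δ` modulo `q` (`d ≥ m`, `E ≥ m`), so `A s ≡ m1 u'`,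
`A s · B s ≡ m1 u' · u' δ ≡ u` modulo `q`; `A s` is prime to `l` and (by the determinant) to `C`. `EDG`
(`e = 1`, `n = E + d`): `H s = Tw 1 (A s/C)`. Choose `t ≥ 1` with `δ m1 ∣ l^t - 1` (`δ m1` is prime to
`l`) and (recurrence) `o ≥ 1`, `t ∣ o`, with `StarAt` at `E + d + o`; `T0 = (1 - l^o)/(δ m1)` (an integer,
independent of `s`, prime to `l`), `T = l^(d-m) T0`. Then
`A s · D - B (s + T) · C = l^(E+d) - T q δ l^E m1 = l^(E+d) - l^(E+d) (1 - l^o) = l^(E+d+o)` and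
`B (s + T) ≡ B s` modulo `q`: `EDG` with `n = E + d + o`: `H (s + T) = Tw 1 (A s/C) = H s`.
(iii) `x_(s + l^(E-2m)) = x_s + 1/q`: `H (s + l^(E-2m)) = z (-1) • H s` (`TWP`). As
`d - m ≤ E - 2m` and `1 - z (-1)` is a unit (`m ≥ 1`): `CST`. -/
def S_KEY : Prop := ∀ (R M : Type) [CommRing R] [AddCommGroup M] [Module R M] (l m : ℕ)
  (_ : l.Prime) (_ : 1 ≤ m) (z : ℤ → R) (_ : Chr (l ^ m) z) (N0 v : ℕ) (_ : N0 ≠ 0)
  (_ : IsCoprime (N0 : ℤ) (l : ℤ)) (χ : ℤ → R) (W : ℚ → M) (_ : QM (l ^ v * N0) χ W)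
  (E d : ℕ) (u u' : ℤ) (_ : v + 2 * m ≤ E) (_ : m ≤ d) (_ : d + m ≤ E)
  (_ : IsCoprime u (l : ℤ)) (_ : IsCoprime u' (l : ℤ))
  (_ : StarAt l m z W E u') (_ : StarAt l m z W (E + d) u)
  (_ : ∀ q, 1 ≤ q → ∃ o, 1 ≤ o ∧ q ∣ o ∧ StarAt l m z W (E + d + o) u),
  ∀ β δ s : ℤ, δ ≠ 0 → IsCoprime δ ((N0 : ℤ) * l) → IsCoprime β δ →
    Tw (l ^ m) z W 1 ((β : ℚ) / δ + ((u' : ℚ) + s * (l : ℚ) ^ m) / (l : ℚ) ^ E) = 0

def M_KEY : Prop := S_TWP → S_EDG → S_CRT → S_CST → S_KEY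

/-- CLO (170 lines). Proof. `q = l^m`, `K = E + m`. Let `g = (a b; c d1)`, `l^K N ∣ c`, `l^K N ∣ d1 - 1`,
so `a ≡ 1` modulo `l^K N`. `x = u'/l^E`, `c = l^E c'`, `δ' = c' u' + d1`, `R' = a u' + b l^E`:
`c x + d1 = δ' ≠ 0` (`δ' ≡ 1` modulo `l`), `g x = R'/(l^E δ')`. `δ' ≡ 1` modulo `q` and modulo `N0`, `R' ≡ u'` modulo `q`.
Choose `s` with `(u' + s q) δ' ≡ R'` modulo `l^E` (`R' - u' δ' ≡ 0` modulo `q`, `δ'` is prime to `l`,
`E ≥ m`) and `β' = (R' - (u' + s q) δ')/l^E`: `g x = β'/δ' + (u' + s q)/l^E`.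
`a δ' - c' R' = a d1 - b c = 1`, so `R'` and `δ'` are coprime, so `β'` and `δ'`. `KEY`: `Tw 1 (g x) = 0`.
`EQV` (`e = 1`): `Tw 1 (g x) = Tw 1 (a/c) + χ d1 • Tw (a²) x`, and `Tw (a²) x = 0` by `StarAt` at `E`
(`a² u' ≡ u'` modulo `q`). So `Tw 1 (a/c) = 0`. -/
def S_CLO : Prop := ∀ (R M : Type) [CommRing R] [AddCommGroup M] [Module R M] (l m : ℕ)
  (_ : l.Prime) (_ : 1 ≤ m) (z : ℤ → R) (_ : Chr (l ^ m) z) (N0 v : ℕ) (_ : N0 ≠ 0)
  (_ : IsCoprime (N0 : ℤ) (l : ℤ)) (χ : ℤ → R) (W : ℚ → M) (_ : QM (l ^ v * N0) χ W)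
  (E d : ℕ) (u u' : ℤ) (_ : v + 2 * m ≤ E) (_ : m ≤ d) (_ : d + m ≤ E)
  (_ : IsCoprime u (l : ℤ)) (_ : IsCoprime u' (l : ℤ))
  (_ : StarAt l m z W E u') (_ : StarAt l m z W (E + d) u)
  (_ : ∀ q, 1 ≤ q → ∃ o, 1 ≤ o ∧ q ∣ o ∧ StarAt l m z W (E + d + o) u) (a b c d1 : ℤ),
  a * d1 - b * c = 1 → ((l ^ (E + m) * (l ^ v * N0) : ℕ) : ℤ) ∣ c →
  ((l ^ (E + m) * (l ^ v * N0) : ℕ) : ℤ) ∣ d1 - 1 → c ≠ 0 →
  Tw (l ^ m) z W 1 ((a : ℚ) / c) = 0

def M_CLO : Prop := S_TWP → S_EQV → S_KEY → S_CLO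

/-- SUM (110 lines). Proof. (i) `e = l e'`, `j = j0 + l^(m-1) k`, `j0 < l^(m-1)`, `k < l`:
`z (e j) = z (e j0)` (`q ∣ l l^(m-1) e' k`) and `x + j/q = (x + j0/q) + k/l`: the sum over `k` is `0`.
(ii) `∑_{e<q} Tw e x = ∑_{j<q} (∑_{e<q} z (e j)) • W (x + j/q)`; for `0 < j < q`
`(1 - z j) ∑_{e<q} z (e j) = 1 - z (q j) = 0`, so the inner sum is `0`; for `j = 0` it is `q`. -/
def S_SUM : Prop := ∀ (R M : Type) [CommRing R] [AddCommGroup M] [Module R M] (l m : ℕ)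
  (_ : l.Prime) (_ : 1 ≤ m) (z : ℤ → R) (_ : Chr (l ^ m) z) (W : ℚ → M)
  (_ : ∀ x, W (x + 1) = W x) (_ : ∀ x : ℚ, ∑ k ∈ range l, W (x + (k : ℚ) / l) = 0),
  (∀ (e : ℤ) (x : ℚ), (l : ℤ) ∣ e → Tw (l ^ m) z W e x = 0) ∧
  (∀ x : ℚ, ∑ e ∈ range (l ^ m), Tw (l ^ m) z W e x = ((l ^ m : ℕ) : R) • W x)

def M_SUM : Prop := S_TWP → S_SUM

/-- MOD (100 lines). Proof. Let `a/c` be as in the conclusion. For `e` prime to `l` apply `CLO` to
`z' j = z (e j)` and the labels `f u`, `f u'`, `e f ≡ 1` modulo `q`: `Tw z' g x = Tw z (e g) x` (`TWP`), so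
`StarAt z' n (f u)` follows from `StarAt z n u` (`q ∣ g c - f u` implies `q ∣ (e g) c - u`), and
`Tw z e (a/c) = Tw z' 1 (a/c) = 0`. For `l ∣ e` `SUM` (i). Then `SUM` (ii): `q • W (a/c) = 0`, and `q = l^m` is a
unit of `R`. -/
def S_MOD : Prop := ∀ (R M : Type) [CommRing R] [AddCommGroup M] [Module R M] (l m : ℕ)
  (_ : l.Prime) (_ : 1 ≤ m) (_ : IsUnit (l : R)) (z : ℤ → R) (_ : Chr (l ^ m) z) (N0 v : ℕ)
  (_ : N0 ≠ 0) (_ : IsCoprime (N0 : ℤ) (l : ℤ)) (χ : ℤ → R) (W : ℚ → M)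
  (_ : QM (l ^ v * N0) χ W) (_ : ∀ x : ℚ, ∑ k ∈ range l, W (x + (k : ℚ) / l) = 0)
  (E d : ℕ) (u u' : ℤ) (_ : v + 2 * m ≤ E) (_ : m ≤ d) (_ : d + m ≤ E)
  (_ : IsCoprime u (l : ℤ)) (_ : IsCoprime u' (l : ℤ))
  (_ : StarAt l m z W E u') (_ : StarAt l m z W (E + d) u)
  (_ : ∀ q, 1 ≤ q → ∃ o, 1 ≤ o ∧ q ∣ o ∧ StarAt l m z W (E + d + o) u) (a b c d1 : ℤ),
  a * d1 - b * c = 1 → ((l ^ (E + m) * (l ^ v * N0) : ℕ) : ℤ) ∣ c →
  ((l ^ (E + m) * (l ^ v * N0) : ℕ) : ℤ) ∣ d1 - 1 → c ≠ 0 → W ((a : ℚ) / c) = 0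

def M_MOD : Prop := S_TWP → S_CLO → S_SUM → S_MOD

/-! ### 4. From one character to the relations -/

/-- FRB (220 lines), Frobenius. Proof. `q0 = #(𝓞 K / P)`, `P = m_V ∩ 𝓞 K`, a power of `p`, and `q = q0²`;
`24 ∣ q - 1` because `p ≥ 5`. Let `ξ^n = 1`, `p ∤ n`, `L = K(ξ)`, a Galois number field over `K`, `Q = m_V ∩ 𝓞 L`, and
let `σ ∈ Gal(L/K)` be an arithmetic Frobenius at `Q` (`IsArithFrobAt.exists_of_isInvariant`):
`σ y ≡ y^q0` modulo `Q` for `y ∈ 𝓞 L`. So `σ Q = Q`, and for `y ∈ L`: `v(y) < 1` implies `v(σ y) < 1` (`V ∩ L` is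
the localisation of `𝓞 L` at `Q`: `y = y1/s`, `y1 ∈ Q`, `s ∈ 𝓞 L`, `s ∉ Q`; or: the valuation subrings
`V ∩ L` and `σ⁻¹ (V ∩ L)` have the same centre `Q` on `𝓞 L`). The `n`-th roots of unity are
different modulo `Q` (their differences divide `n`), so `σ ξ = ξ^q0`. Apply `σ` twice to
`∑ x_i ξ^i` (`σ x_i = x_i`). (`P` is a nonzero prime as `V` contains `p` in its maximal ideal;
`#(𝓞 K/P)` is finite, a power of `p`.) -/
def S_FRB : Prop := ∀ (V : ValuationSubring ℂ) (p : ℕ) (_ : p.Prime) (_ : 5 ≤ p)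
  (_ : V.valuation (p : ℂ) < 1) (K : IntermediateField ℚ ℂ) (_ : FiniteDimensional ℚ K),
  ∃ q : ℕ, 1 < q ∧ 24 ∣ q - 1 ∧ ∀ (n : ℕ) (_ : n ≠ 0) (_ : ¬ p ∣ n) (ξ : ℂ) (_ : ξ ^ n = 1)
    (x : ℕ → ℂ) (_ : ∀ i, x i ∈ K), V.valuation (∑ i ∈ range n, x i * ξ ^ i) < 1 →
    V.valuation (∑ i ∈ range n, x i * ξ ^ (q * i)) < 1

/-- TRI (130 lines), the trace of a root of unity. `m` is the exact exponent of `l` in `q - 1`
(`l = 2`: `m ≥ 2`). Proof. If `η^(l^m) = 1` then `η^(q^j) = η` and the sum is `l^r η`. Otherwise let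
`l^s`, `s > m`, be the order of `η`. The order of `q` modulo `l^s` is `l^(s-m)` (lifting the exponent:
`v_l(q^j - 1) = m + v_l(j)`), `s - m ≤ r`, and the powers `η^(q^j)`, `j < l^(s-m)`, are different
elements of `η μ_{l^(s-m)}` (`(η^(q^j - 1))^(l^(s-m)) = 1`), so all of them; the sum over
`j < l^(s-m)` is `η ∑_{μ} = 0`, and the sum over `j < l^r` is a multiple of it (period `l^(s-m)`). -/
def S_TRI : Prop := ∀ (l m r q : ℕ) (_ : l.Prime) (_ : 1 ≤ m) (_ : l = 2 → 2 ≤ m)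
  (_ : l ^ m ∣ q - 1) (_ : ¬ l ^ (m + 1) ∣ q - 1) (_ : 1 ≤ q) (η : ℂ) (_ : η ^ (l ^ (m + r)) = 1),
  ∑ j ∈ range (l ^ r), η ^ (q ^ j) = if η ^ (l ^ m) = 1 then (l : ℂ) ^ r * η else 0

/-- TRS (120 lines). Proof. `n = l^(m+r)`. By `FRB`-property `j` times:
`v(∑_t x_t ξ^(q^j t)) < 1` for all `j` (use `ξ^(q^j)` in place of `ξ`). Multiply by
`ξ^(-q^j t0)` (valuation `1`) and sum over `j < l^r`: `v(∑_t x_t Tr(ξ^(t - t0))) < 1`,
`Tr η = ∑_{j<l^r} η^(q^j)` (`TRI`; for `t < t0` use `ξ^(t + n - t0)`): it is `l^r ξ^(t-t0)` if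
`l^r ∣ t - t0` (`ξ` is primitive of order `l^(m+r)`, so `(ξ^(t-t0))^(l^m) = 1` iff `l^r ∣ t - t0`) and
`0` otherwise. The `t < n` with `l^r ∣ t - t0` are the residues of `t0 + l^r i`, `i < l^m`. Divide by
`l^r` (`v l = 1`). -/
def S_TRS : Prop := ∀ (V : ValuationSubring ℂ) (l m r q : ℕ) (_ : l.Prime) (_ : 1 ≤ m)
  (_ : l = 2 → 2 ≤ m) (_ : l ^ m ∣ q - 1) (_ : ¬ l ^ (m + 1) ∣ q - 1) (_ : 1 ≤ q)
  (_ : V.valuation (l : ℂ) = 1) (K : IntermediateField ℚ ℂ)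
  (_ : ∀ (ξ : ℂ) (_ : ξ ^ (l ^ (m + r)) = 1) (x : ℕ → ℂ) (_ : ∀ i, x i ∈ K),
    V.valuation (∑ i ∈ range (l ^ (m + r)), x i * ξ ^ i) < 1 →
    V.valuation (∑ i ∈ range (l ^ (m + r)), x i * ξ ^ (q * i)) < 1)
  (ξ : ℂ) (_ : IsPrimitiveRoot ξ (l ^ (m + r))) (x : ℕ → ℂ) (_ : ∀ i, x i ∈ K)
  (_ : ∀ i, x (i + l ^ (m + r)) = x i)
  (_ : V.valuation (∑ t ∈ range (l ^ (m + r)), x t * ξ ^ t) < 1) (t0 : ℕ),
  V.valuation (∑ i ∈ range (l ^ m), ξ ^ (l ^ r * i) * x (t0 + l ^ r * i)) < 1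

def M_TRS : Prop := S_TRI → S_TRS

/-- the generator `g = 1 + l^h` of the units modulo `± 1`: `(l, g, h) = (3, 4, 1)` or `(2, 5, 2)` -/
def Gen (l g h : ℕ) : Prop := (l = 3 ∧ g = 4 ∧ h = 1) ∨ (l = 2 ∧ g = 5 ∧ h = 2)

/-- GPW (170 lines), the powers of `g = 1 + l^h`. Proof. (i) By induction on `k` (raise to the power
`l`): `g^(l^k) = 1 + l^(k+h) w`, `w` prime to `l`. (ii) so `g` has order `l^(n-h)` modulo
`l^n` (`n ≥ h`); `g ≡ 1` modulo `l^h`, so no power of `g` is `≡ -1` (modulo `3`, modulo `4`), so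
`± g^t`, `t < l^(n-h)`, are `2 l^(n-h) = φ(l^n)` different units: all of them, once each. (iii) from (i)
with `k = r`, `n = m + r + h`, if `n ≤ 2 (r + h)`: `(1 + l^(r+h) w)^i ≡ 1 + l^(r+h) w i` modulo `l^n`. -/
def S_GPW : Prop := ∀ (l g h : ℕ), Gen l g h →
  (∀ k : ℕ, ∃ w : ℤ, IsCoprime w (l : ℤ) ∧ (g : ℤ) ^ (l ^ k) = 1 + (l : ℤ) ^ (k + h) * w) ∧
  (∀ k : ℕ, (g : ZMod (l ^ (k + h))) ^ (l ^ k) = 1) ∧
  (∀ (k : ℕ) (F : ZMod (l ^ (k + h)) → ℂ) (_ : ∀ c, ¬ IsUnit c → F c = 0),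
    ∑ c ∈ range (l ^ (k + h)), F c = ∑ t ∈ range (l ^ k), (F ((g : ZMod (l ^ (k + h))) ^ t) +
      F (-(g : ZMod (l ^ (k + h))) ^ t))) ∧
  (∀ (k : ℕ) (c : ℤ), IsCoprime c (l : ℤ) → ∃ t : ℕ,
    (c : ZMod (l ^ (k + h))) = (g : ZMod (l ^ (k + h))) ^ t ∨
    (c : ZMod (l ^ (k + h))) = -(g : ZMod (l ^ (k + h))) ^ t) ∧
  (∀ (m r : ℕ) (w : ℤ), (g : ℤ) ^ (l ^ r) = 1 + (l : ℤ) ^ (r + h) * w → m ≤ r + h → ∀ i : ℕ,
    ((l ^ (m + r + h) : ℕ) : ℤ) ∣ (g : ℤ) ^ (l ^ r * i) - (1 + (l : ℤ) ^ (r + h) * w * i))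

/-- STA (230 lines), from one bad character to the relations. `n = m + r + h`, `ζ` = `exp(2 π i/l^m)`.
Proof. `ψ(-1) = 1` and `P` is even and has period `1`: by `GPW` (third clause, `F c = ψ(c) P(c/l^n)`,
well defined on `ZMod (l^n)`) `∑_b ψ(b) P(b/l^n) = 2 ∑_{t<l^(m+r)} ψ(g)^t P(g^t/l^n)`, `v 2 = 1`. `ξ = ψ(g)` is a
primitive root of order `l^(m+r)`: `ξ^(l^(m+r)) = ψ(1) = 1`, and `ξ^(l^(m+r-1)) = ψ(g^(l^(m+r-1))) ≠ 1`, because
`g^(l^(m+r-1)) ≡ 1 + l^(n-1) w` generates the kernel of reduction modulo `l^(n-1)`, as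
`1 + l^(n-1)`: `1 + l^(n-1) = (1 + l^(n-1) w)^i` modulo `l^n`, `i w ≡ 1` modulo `l`. `TRS` with `x_t = P(g^t/l^n)`
(in `K`, periodic in `t` with period `l^(m+r)`): for all `t0`
`v(∑_{i<l^m} ξ^(l^r i) P(g^(t0 + l^r i)/l^n)) < 1`. With `g^(l^r) = 1 + l^(r+h) w` and the last
clause of `GPW` (`m ≤ r + h`): `g^(t0 + l^r i)/l^n ≡ c/l^n + c w i/l^m` modulo `1`, `c = g^t0`. `ξ^(l^r) = ζ^k0`,
`k0` prime to `l`. Substitution `j = c w i` modulo `l^m` (`TWP`, third clause, or `ZMod`): if `e c ≡ u`,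
`u w ≡ k0` modulo `l^m`, then `ζ^(e j) = ζ^(e c w i) = ζ^(k0 i)`: this is
`v(∑_j ζ^(e j) P(c/l^n + j/l^m)) < 1`. The left side depends on `c` modulo `l^n` only (if `e` is
fixed), so this is the claim for all `c ≡ g^t0`; for `c ≡ - g^t0` use `P(-x) = P(x)` and
`j ↦ -j` (`e c = (-e)(-c)`). -/
def S_STA : Prop := ∀ (V : ValuationSubring ℂ) (l g h m r q : ℕ) (_ : Gen l g h) (_ : 1 ≤ m)
  (_ : l = 2 → 2 ≤ m) (_ : 1 ≤ r) (_ : m ≤ r + h) (_ : l ^ m ∣ q - 1)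
  (_ : ¬ l ^ (m + 1) ∣ q - 1) (_ : 1 ≤ q) (_ : V.valuation (l : ℂ) = 1)
  (_ : V.valuation (2 : ℂ) = 1) (K : IntermediateField ℚ ℂ)
  (_ : ∀ (ξ : ℂ) (_ : ξ ^ (l ^ (m + r)) = 1) (x : ℕ → ℂ) (_ : ∀ i, x i ∈ K),
    V.valuation (∑ i ∈ range (l ^ (m + r)), x i * ξ ^ i) < 1 →
    V.valuation (∑ i ∈ range (l ^ (m + r)), x i * ξ ^ (q * i)) < 1)
  (P : ℚ → ℂ) (_ : ∀ x, P (x + 1) = P x) (_ : ∀ x, P (-x) = P x) (_ : ∀ x, P x ∈ K)
  (ψ : DirichletCharacter ℂ (l ^ (m + r + h))) (_ : ψ (-1) = 1)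
  (_ : ψ (1 + (l : ZMod (l ^ (m + r + h))) ^ (m + r + h - 1)) ≠ 1)
  (_ : V.valuation (∑ b ∈ range (l ^ (m + r + h)), ψ b * P ((b : ℚ) / (l : ℚ) ^ (m + r + h))) < 1),
  ∃ u : ℤ, IsCoprime u (l : ℤ) ∧ 0 ≤ u ∧ u < l ^ m ∧ ∀ c e : ℤ, ((l ^ m : ℕ) : ℤ) ∣ e * c - u →
    V.valuation (∑ j ∈ range (l ^ m), Complex.exp (2 * Real.pi * Complex.I / (l ^ m : ℕ)) ^
      (e * (j : ℤ)) * P ((c : ℚ) / (l : ℚ) ^ (m + r + h) + (j : ℚ) / (l ^ m : ℕ))) < 1

def M_STA : Prop := S_GPW → S_TRS → S_STA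

/-- ZCH (90 lines). Proof. `ζ = exp(2 π i/q)`, `q = l^m`, is a root of unity, so in `V`. `1 - ζ^j` for
`q ∤ j` divides `∏_{0<i<q} (1 - ζ^i) = q` in `ℤ[ζ] ⊆ V`, and `v q = 1`, so `v(1 - ζ^j) = 1`. -/
def S_ZCH : Prop := ∀ (V : ValuationSubring ℂ) (l m : ℕ) (_ : l.Prime)
  (_ : V.valuation (l : ℂ) = 1), ∃ z : ℤ → V, Chr (l ^ m) z ∧
  ∀ j : ℤ, (z j : ℂ) = Complex.exp (2 * Real.pi * Complex.I / (l ^ m : ℕ)) ^ j

/-! ### 5. The theorem -/

/-- TWR (250 lines). Proof. Suppose the contrary: there is `n0` such that for all `n ≥ n0` there are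
`j < a`, `i ∈ I` and an even `ψ` of conductor `l^(n+j)` with small sum. Let `q` be as in `FRB`, `m` the exponent
of `l` in `q - 1` (`≥ 1`, `≥ 3` for `l = 2`). `STA` for `n + j = m + r + h` (`n` large): label
`u ∈ U = {0, …, l^m - 1}` prime to `l`. `R = V`, `M = ℂ ⧸ {v < 1}` (a `V`-submodule of `ℂ`), `z` from `ZCH`,
`W i x` = the class of `P i ∞ x`; `T n i u := IsCoprime u l ∧ StarAt l m z (W i) n u` (the sum of
`StarAt` is the class of the sum of `STA`). `REC`: `E`, `d`, `i`, `u`, `u'` (`K = v + 2 m` large). `W i` is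
`QM N χ`, `χ d = ⟨nu i d, _⟩`, by `IsSym` (`mob` at `∞` and at `x`; `c ≠ 0`; `c = 0`: `x + 1`), and
depleted. `MOD`: `v(P i ∞ (a/c)) < 1` for all `(a b; c d1)` in `Γ₁(N')`, `N' = l^(E+m) N`, `c ≠ 0`. Against
the hypothesis for `N'` (there `c ≠ 0`, as `P i ∞ ∞ = 0`). -/
def S_TWR : Prop := ∀ (l g h : ℕ) (_ : Gen l g h) (V : ValuationSubring ℂ) (p : ℕ) (_ : p.Prime)
  (_ : 5 ≤ p) (_ : V.valuation (p : ℂ) < 1) (K : IntermediateField ℚ ℂ)
  (_ : FiniteDimensional ℚ K) (I : Type) [Finite I] (N : ℕ) (_ : N ≠ 0) (nu : I → ℤ → ℂ)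
  (_ : ∀ i d, V.valuation (nu i d) ≤ 1) (_ : ∀ i, nu i 1 = 1)
  (_ : ∀ i (d d' : ℤ), (N : ℤ) ∣ d - d' → nu i d = nu i d')
  (P : I → OnePoint ℚ → OnePoint ℚ → ℂ) (_ : ∀ i, _root_.MU3.IsSym N (nu i) (P i))
  (_ : ∀ i (x : ℚ), P i ∞ (x : OnePoint ℚ) ∈ K)
  (_ : ∀ i (x : ℚ), P i ∞ ((-x : ℚ) : OnePoint ℚ) = P i ∞ (x : OnePoint ℚ))
  (_ : ∀ i (x : ℚ), ∑ k ∈ range l, P i ∞ ((x + (k : ℚ) / l : ℚ) : OnePoint ℚ) = 0)
  (_ : ∀ i (N' : ℕ), N' ≠ 0 → N ∣ N' → ∃ a b c d : ℤ, a * d - b * c = 1 ∧ (N' : ℤ) ∣ c ∧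
    (N' : ℤ) ∣ d - 1 ∧ 1 ≤ V.valuation (P i ∞ (Pool.Agent.MuSym.mob a b c d ∞)))
  (a : ℕ) (_ : 1 ≤ a) (n0 : ℕ), ∃ n ≥ n0, ∀ j < a, ∀ i,
    ∀ ψ : DirichletCharacter ℂ (l ^ (n + j)), ψ (-1) = 1 →
      ψ (1 + (l : ZMod (l ^ (n + j))) ^ (n + j - 1)) ≠ 1 →
      1 ≤ V.valuation (∑ b ∈ range (l ^ (n + j)),
        ψ b * P i ∞ (((b : ℚ) / (l : ℚ) ^ (n + j) : ℚ) : OnePoint ℚ))

def M_TWR : Prop := S_REC → S_MOD → S_FRB → S_STA → S_ZCH → S_TWR

end Pool.Agent.TWR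


end

section

/-! CRT: the congruences. -/

namespace Pool.Agent.TWR

theorem t_CRT : S_CRT := by
  intro l m N0 E d β δ u u' hl hm hN0 hNl hδ hβδ hu hu'
  have hδN : IsCoprime δ (N0 : ℤ) := hδ.of_mul_right_left
  have hδl : IsCoprime δ (l : ℤ) := hδ.of_mul_right_right
  have hlm : ((l ^ m : ℕ) : ℤ) = (l : ℤ) ^ m := by push_cast; rfl
  -- the inverse modulo `l^m`
  have h1 : IsCoprime (u' ^ 2 * δ) ((l : ℤ) ^ m) :=
    ((hu'.pow_left (m := 2)).mul_left hδl).pow_right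
  obtain ⟨a, b, hab⟩ := h1
  -- the inverse modulo `δ`
  have h2 : IsCoprime (β * (l : ℤ) ^ E + u' * δ) δ := by
    have h3 : IsCoprime (β * (l : ℤ) ^ E) δ := hβδ.mul_left (hδl.symm.pow_left)
    have h4 := IsCoprime.add_mul_right_left h3 u'
    simpa [mul_comm] using h4
  obtain ⟨a3, b3, hab3⟩ := h2
  have h5 : IsCoprime ((N0 : ℤ) * δ) ((l : ℤ) ^ m) := (hNl.mul_left hδl).pow_right
  obtain ⟨c, e, hce⟩ := h5
  have h6 : IsCoprime ((N0 : ℤ) * (l : ℤ) ^ m) δ := hδN.symm.mul_left (hδl.symm.pow_left)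
  obtain ⟨f, g, hfg⟩ := h6
  have key2 : (l : ℤ) ^ m ∣
      ((u * a) * (c * ((N0 : ℤ) * δ)) + (-(l : ℤ) ^ d * a3) * (f * ((N0 : ℤ) * (l : ℤ) ^ m))) *
        (u' ^ 2 * δ) - u := by
    refine ⟨-(u * b) - u * a * e * (u' ^ 2 * δ) +
      (-(l : ℤ) ^ d * a3) * (f * (N0 : ℤ)) * (u' ^ 2 * δ), ?_⟩
    have e1 : c * ((N0 : ℤ) * δ) = 1 - e * (l : ℤ) ^ m := by linear_combination hce
    rw [e1]
    linear_combination u * hab
  refine ⟨(u * a) * (c * ((N0 : ℤ) * δ)) + (-(l : ℤ) ^ d * a3) * (f * ((N0 : ℤ) * (l : ℤ) ^ m)),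
    ?_, ?_, ?_, ?_⟩
  · exact ⟨(u * a) * (c * δ) + (-(l : ℤ) ^ d * a3) * (f * (l : ℤ) ^ m), by ring⟩
  · rw [hlm]
    exact key2
  · refine ⟨b3 * (l : ℤ) ^ d + (u * a) * (c * (N0 : ℤ)) * (β * (l : ℤ) ^ E + u' * δ) +
      (l : ℤ) ^ d * a3 * g * (β * (l : ℤ) ^ E + u' * δ), ?_⟩
    have e1 : f * ((N0 : ℤ) * (l : ℤ) ^ m) = 1 - g * δ := by linear_combination hfg
    rw [e1]
    linear_combination (-(l : ℤ) ^ d) * hab3
  · obtain ⟨k, hk⟩ := (dvd_pow_self (l : ℤ) (by omega : m ≠ 0)).trans key2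
    have h7 : IsCoprime (((u * a) * (c * ((N0 : ℤ) * δ)) +
        (-(l : ℤ) ^ d * a3) * (f * ((N0 : ℤ) * (l : ℤ) ^ m))) * (u' ^ 2 * δ)) (l : ℤ) := by
      have h8 := IsCoprime.add_mul_right_left hu k
      have h9 : u + k * (l : ℤ) = ((u * a) * (c * ((N0 : ℤ) * δ)) +
        (-(l : ℤ) ^ d * a3) * (f * ((N0 : ℤ) * (l : ℤ) ^ m))) * (u' ^ 2 * δ) := by
        linear_combination -hk
      rwa [h9] at h8
    exact h7.of_mul_left_left

end Pool.Agent.TWR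


end

section

/-!
# Two periods and a twist
-/

set_option autoImplicit false

namespace Pool.Agent.TWR

/-- Module CST. -/
theorem t_CST : S_CST := by
  intro R M _ _ _ l k t r T0 y H hco htr hy hk hT hr s
  obtain ⟨a, b, hab⟩ := IsCoprime.pow_right (n := k) hco
  have h1 : Function.Periodic H ((l : ℤ) ^ k) := hk
  have h2 : Function.Periodic H ((l : ℤ) ^ t * T0) := hT
  have h3 := (h2.int_mul ((l : ℤ) ^ (r - t) * a)).add_period
    (h1.int_mul ((l : ℤ) ^ (r - t) * (l : ℤ) ^ t * b))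
  have e : (((l : ℤ) ^ (r - t) * a : ℤ) : ℤ) * ((l : ℤ) ^ t * T0) +
      (((l : ℤ) ^ (r - t) * (l : ℤ) ^ t * b : ℤ) : ℤ) * (l : ℤ) ^ k = (l : ℤ) ^ r := by
    have e1 : (l : ℤ) ^ r = (l : ℤ) ^ (r - t) * (l : ℤ) ^ t := by
      rw [← pow_add, Nat.sub_add_cancel htr]
    calc (l : ℤ) ^ (r - t) * a * ((l : ℤ) ^ t * T0) +
          (l : ℤ) ^ (r - t) * (l : ℤ) ^ t * b * (l : ℤ) ^ k
        = (l : ℤ) ^ (r - t) * (l : ℤ) ^ t * (a * T0 + b * (l : ℤ) ^ k) := by ring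
      _ = (l : ℤ) ^ r := by rw [hab, mul_one, e1]
  have h4 : H (s + (l : ℤ) ^ r) = H s := by
    have h5 := h3 s
    simp only [Int.cast_id] at h5
    rw [e] at h5
    exact h5
  have h6 : (1 - y) • H s = 0 := by
    rw [sub_smul, one_smul, ← hr s, h4, sub_self]
  obtain ⟨u, hu⟩ := hy
  rw [← hu] at h6
  have h7 : (u⁻¹ : Rˣ) • (u • H s) = 0 := by
    rw [show u • H s = (u : R) • H s from rfl, h6, smul_zero]
  rwa [inv_smul_smul] at h7

end Pool.Agent.TWR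


end

section

/-!
# TWR, module EQV: equivariance of the twisted sums
-/

set_option autoImplicit false

namespace Pool.Agent.TWR

open Finset OnePoint

namespace EQVAux

variable {R M : Type} [CommRing R] [AddCommGroup M] [Module R M]

theorem per_nat (W : ℚ → M) (hW : ∀ x, W (x + 1) = W x) (n : ℕ) (x : ℚ) :
    W (x + n) = W x := by
  induction n with
  | zero => simp
  | succ n ih =>
    have : x + ((n + 1 : ℕ) : ℚ) = (x + n) + 1 := by push_cast; ring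
    rw [this, hW, ih]

theorem per_int (W : ℚ → M) (hW : ∀ x, W (x + 1) = W x) (n : ℤ) (x : ℚ) :
    W (x + n) = W x := by
  obtain ⟨k, rfl | rfl⟩ := n.eq_nat_or_neg
  · simpa using per_nat W hW k x
  · have h := per_nat W hW k (x + ((-(k : ℤ) : ℤ) : ℚ))
    rw [← h]
    congr 1
    push_cast
    ring

/-- the equivariance of one term -/
theorem term (q : ℕ) (hq : q ≠ 0) (N : ℕ) (χ : ℤ → R) (W : ℚ → M) (hW : QM N χ W)
    (a b c d : ℤ) (x : ℚ) (hdet : a * d - b * c = 1) (k : ℤ) (hk : c = ((N * q * q : ℕ) : ℤ) * k)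
    (hc : c ≠ 0) (hx : (c : ℚ) * x + d ≠ 0) (j : ℤ) :
    W ((a * x + b) / (c * x + d) + (j : ℚ) / q)
      = W ((a : ℚ) / c + (j : ℚ) / q) + χ d • W (x + (j * d ^ 2 : ℤ) / q) := by
  have hqQ : (q : ℚ) ≠ 0 := by exact_mod_cast hq
  have hcQ : (c : ℚ) ≠ 0 := by exact_mod_cast hc
  set c2 : ℤ := N * k with hc2
  set c1 : ℤ := q * c2 with hc1
  have hcc1 : c = q * c1 := by rw [hc1, hc2, hk]; push_cast; ring
  set a' : ℤ := a + j * c1 with ha'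
  set d' : ℤ := d - c1 * j * d ^ 2 with hd'
  set b' : ℤ := b - j * d * b * c1 - j ^ 2 * d ^ 2 * c2 with hb'
  have hdet' : a' * d' - b' * c = 1 := by
    have h1 : c * c2 = c1 * c1 := by rw [hcc1, hc1]; ring
    have h2 : a' * d' - b' * c = (a * d - b * c) + j * c1 * d * (1 - (a * d - b * c))
        + j ^ 2 * d ^ 2 * (c * c2 - c1 * c1) := by
      rw [ha', hd', hb']; ring
    rw [h2, h1, hdet]; ring
  have hNc : (N : ℤ) ∣ c := ⟨q * q * k, by rw [hk]; push_cast; ring⟩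
  have hc1Q : (c : ℚ) = q * c1 := by exact_mod_cast hcc1
  have hc12Q : (c1 : ℚ) = q * c2 := by exact_mod_cast hc1
  have hdetQ : (a : ℚ) * d - b * c = 1 := by exact_mod_cast hdet
  have hden : (c : ℚ) * (x + ((j * d ^ 2 : ℤ) : ℚ) / q) + (d' : ℚ) = c * x + d := by
    rw [hd']
    push_cast
    rw [hc1Q]
    field_simp
    ring
  have hnum : (a' : ℚ) * (x + ((j * d ^ 2 : ℤ) : ℚ) / q) + (b' : ℚ)
      = (a * x + b) + (j : ℚ) / q * (c * x + d) := by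
    have e1 : (b' : ℚ) = b - j * d * b * c1 - j ^ 2 * d ^ 2 * c2 := by
      rw [hb']; push_cast; ring
    have e2 : (a' : ℚ) = a + j * c1 := by rw [ha']; push_cast; ring
    have e3 : (b : ℚ) * c1 * q = a * d - 1 := by rw [← hdetQ, hc1Q]; ring
    have e4 : (j : ℚ) / q * (c * x + d) = j * c1 * x + j * d / q := by
      rw [hc1Q]; field_simp
    rw [e1, e2, e4]
    have e5 : (b : ℚ) * c1 = (a * d - 1) / q := by rw [← e3]; field_simp
    have e6 : (c1 : ℚ) / q = c2 := by rw [hc12Q]; field_simp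
    push_cast
    have e7 : (j : ℚ) * d * b * c1 = j * d * ((a * d - 1) / q) := by rw [← e5]; ring
    rw [e7, ← e6]
    ring
  have hx' : (c : ℚ) * (x + ((j * d ^ 2 : ℤ) : ℚ) / q) + (d' : ℚ) ≠ 0 := by rw [hden]; exact hx
  have key := hW.eqv a' b' c d' hdet' hNc hc (x + ((j * d ^ 2 : ℤ) : ℚ) / q) hx'
  rw [hnum, hden] at key
  have hL : ((a * x + b) + (j : ℚ) / q * (c * x + d)) / (c * x + d)
      = (a * x + b) / (c * x + d) + (j : ℚ) / q := by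
    rw [add_div, mul_div_assoc, div_self hx, mul_one]
  have hA : (a' : ℚ) / c = (a : ℚ) / c + (j : ℚ) / q := by
    rw [ha']
    push_cast
    rw [add_div]
    congr 1
    rw [hc1Q]
    have : (c1 : ℚ) ≠ 0 := by
      intro h
      apply hcQ
      rw [hc1Q, h, mul_zero]
    field_simp
  have hchi : χ d' = χ d := by
    apply hW.chi
    refine ⟨- (q * k * j * d ^ 2), ?_⟩
    rw [hd', hc1, hc2]
    ring
  rw [hL, hA, hchi] at key
  exact key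

end EQVAux

open _root_.Pool.Agent.TWR.EQVAux in
theorem t_EQV : M_EQV := by
  intro hT R M _ _ _ q hq z hz N χ W hW e a b c d x hdet hdvd hc hx
  obtain ⟨-, hper, hre, -, -, -, -⟩ := hT R M q hq z hz W hW.per
  obtain ⟨k, hk⟩ := hdvd
  have hqQ : (q : ℚ) ≠ 0 := by exact_mod_cast hq
  set c1 : ℤ := q * (N * k) with hc1
  have hcc1 : c = q * c1 := by rw [hc1, hk]; push_cast; ring
  have hterm := term q hq N χ W hW a b c d x hdet k hk hc hx
  -- the auxiliary periodic function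
  set F : ℤ → M := fun j => z (e * j) • W (x + ((j * d ^ 2 : ℤ) : ℚ) / q) with hF
  have hFper : ∀ j, F (j + q) = F j := by
    intro j
    simp only [hF]
    have h1 : z (e * (j + q)) = z (e * j) := hper _ _ ⟨e, by ring⟩
    have h2 : x + (((j + q) * d ^ 2 : ℤ) : ℚ) / q = (x + ((j * d ^ 2 : ℤ) : ℚ) / q) + (d ^ 2 : ℤ) := by
      push_cast
      field_simp
      ring
    rw [h1, h2, per_int W hW.per]
  have hcop : IsCoprime (a ^ 2) (q : ℤ) := by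
    have : IsCoprime a (q : ℤ) := ⟨d, - (b * c1), by
      have : a * d - b * (q * c1) = 1 := by rw [← hcc1]; exact hdet
      linarith⟩
    exact this.pow_left
  have hsum := hre F hFper (a ^ 2) hcop
  have hF2 : ∀ j : ℤ, F (a ^ 2 * j) = z (e * a ^ 2 * j) • W (x + (j : ℚ) / q) := by
    intro j
    simp only [hF]
    have h1 : e * (a ^ 2 * j) = e * a ^ 2 * j := by ring
    have h2 : x + (((a ^ 2 * j) * d ^ 2 : ℤ) : ℚ) / q
        = (x + (j : ℚ) / q) + ((j * (b * c1 * (a * d + 1)) : ℤ) : ℚ) := by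
      have h3 : (a : ℚ) ^ 2 * d ^ 2 = 1 + b * (q * c1) * (a * d + 1) := by
        have h4 : (a : ℤ) ^ 2 * d ^ 2 = 1 + b * (q * c1) * (a * d + 1) := by
          rw [← hcc1]
          have h5 : b * c = a * d - 1 := by linarith
          rw [h5]; ring
        exact_mod_cast h4
      have h6 : ((((a ^ 2 * j) * d ^ 2 : ℤ)) : ℚ) = j * ((a : ℚ) ^ 2 * d ^ 2) := by
        push_cast; ring
      rw [h6, h3]
      push_cast
      field_simp
      ring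
    rw [h1, h2, per_int W hW.per]
  -- assemble
  have hL : Tw q z W e ((a * x + b) / (c * x + d))
      = Tw q z W e ((a : ℚ) / c) + χ d • ∑ j ∈ range q, F j := by
    unfold Tw
    rw [Finset.smul_sum, ← Finset.sum_add_distrib]
    refine Finset.sum_congr rfl fun j _ => ?_
    have := hterm (j : ℤ)
    rw [Int.cast_natCast] at this
    rw [this, smul_add]
    congr 1
    simp only [hF]
    rw [smul_comm]
  rw [hL, ← hsum]
  congr 2
  unfold Tw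
  refine Finset.sum_congr rfl fun j _ => ?_
  rw [hF2 (j : ℤ), Int.cast_natCast]

end Pool.Agent.TWR


end

section

/-!
# TWR: module FRB (Frobenius elements and places of `ℂ` above `p`)
-/

set_option autoImplicit false

open NumberField

namespace Pool.Agent.TWR.FRBAux

variable (V : ValuationSubring ℂ)

lemma mem_of_int {L : Type*} [Field L] (i : L →+* ℂ) (x : 𝓞 L) : i (x : L) ∈ V := by
  have h1 : IsIntegral ℤ (x : L) := x.2
  have h2 : IsIntegral ℤ (i (x : L)) := h1.map (i.toIntAlgHom)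
  have h3 : IsIntegral V (i (x : L)) := h2.tower_top
  obtain ⟨y, hy⟩ := (IsIntegrallyClosed.isIntegral_iff (R := V) (K := ℂ)).1 h3
  rw [← hy]
  exact y.2

/-- the integers of `L` are in `V` -/
noncomputable def toV {L : Type*} [Field L] (i : L →+* ℂ) : 𝓞 L →+* V :=
  RingHom.codRestrict (i.comp (algebraMap (𝓞 L) L)) V.toSubring (fun x => mem_of_int V i x)

lemma toV_coe {L : Type*} [Field L] (i : L →+* ℂ) (x : 𝓞 L) : ((toV V i x : V) : ℂ) = i (x : L) := rfl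

/-- the centre of `V` -/
noncomputable def QQ {L : Type*} [Field L] (i : L →+* ℂ) : Ideal (𝓞 L) :=
  (IsLocalRing.maximalIdeal V).comap (toV V i)

instance {L : Type*} [Field L] (i : L →+* ℂ) : (QQ V i).IsPrime := by
  unfold QQ; infer_instance

lemma mem_QQ {L : Type*} [Field L] (i : L →+* ℂ) (x : 𝓞 L) :
    x ∈ QQ V i ↔ V.valuation (i (x : L)) < 1 := by
  rw [QQ, Ideal.mem_comap, ← toV_coe V i x, ValuationSubring.valuation_lt_one_iff]

lemma val_le {L : Type*} [Field L] (i : L →+* ℂ) (x : 𝓞 L) : V.valuation (i (x : L)) ≤ 1 :=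
  (V.valuation_le_one_iff _).2 (mem_of_int V i x)

lemma not_mem_QQ {L : Type*} [Field L] (i : L →+* ℂ) (x : 𝓞 L) :
    x ∉ QQ V i ↔ V.valuation (i (x : L)) = 1 := by
  rw [mem_QQ, not_lt]
  exact ⟨fun h => le_antisymm (val_le V i x) h, fun h => h.ge⟩

variable {p : ℕ} (hV : V.valuation (p : ℂ) < 1) (hp : p.Prime)

include hV in
lemma p_mem {L : Type*} [Field L] (i : L →+* ℂ) : (p : 𝓞 L) ∈ QQ V i := by
  rw [mem_QQ]
  simpa using hV

include hV hp in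
lemma QQ_ne_bot {L : Type*} [Field L] [NumberField L] (i : L →+* ℂ) : QQ V i ≠ ⊥ := by
  intro h
  have := p_mem V hV i
  rw [h, Ideal.mem_bot] at this
  have h2 : (p : 𝓞 L) ≠ 0 := by exact_mod_cast hp.ne_zero
  exact h2 this

include hV hp in
lemma QQ_finite {L : Type*} [Field L] [NumberField L] (i : L →+* ℂ) : Finite (𝓞 L ⧸ QQ V i) :=
  Ideal.finiteQuotientOfFreeOfNeBot _ (QQ_ne_bot V hV hp i)

include hV hp in
lemma card_QQ {L : Type*} [Field L] [NumberField L] (i : L →+* ℂ) :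
    ∃ k : ℕ, 1 ≤ k ∧ Nat.card (𝓞 L ⧸ QQ V i) = p ^ k := by
  have := QQ_finite V hV hp i
  have : (QQ V i).IsMaximal := Ideal.IsPrime.isMaximal inferInstance (QQ_ne_bot V hV hp i)
  let _ := Ideal.Quotient.field (QQ V i)
  have := Fintype.ofFinite (𝓞 L ⧸ QQ V i)
  have : CharP (𝓞 L ⧸ QQ V i) p := by
    obtain ⟨r, hr⟩ := CharP.exists (𝓞 L ⧸ QQ V i)
    have h0 : ((p : ℕ) : 𝓞 L ⧸ QQ V i) = 0 := by
      have := Ideal.Quotient.eq_zero_iff_mem.2 (p_mem V hV i)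
      simpa using this
    have h1 : r ∣ p := (CharP.cast_eq_zero_iff _ r p).1 h0
    rcases (Nat.dvd_prime hp).1 h1 with rfl | rfl
    · exfalso
      have h3 := CharP.cast_eq_zero (𝓞 L ⧸ QQ V i) 1
      rw [Nat.cast_one] at h3
      exact one_ne_zero h3
    · exact hr
  obtain ⟨k, -, hk⟩ := FiniteField.card (𝓞 L ⧸ QQ V i) p
  exact ⟨k, k.2, by rw [Nat.card_eq_fintype_card, hk]⟩

/-- `V ∩ L` is the localisation at the centre -/
lemma frac {L : Type*} [Field L] [NumberField L] (Q : Ideal (𝓞 L)) [Q.IsPrime] (hQ : Q ≠ ⊥)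
    (y : L) : ∃ a s : 𝓞 L, s ∉ Q ∧ (y * s = a ∨ y⁻¹ * s = a) := by
  have hS : Q.primeCompl ≤ nonZeroDivisors (𝓞 L) := Q.primeCompl_le_nonZeroDivisors
  let B := Localization.subalgebra.ofField L Q.primeCompl hS
  have h1 : IsLocalization Q.primeCompl B := inferInstance
  have h2 : IsLocalization.AtPrime B Q := h1
  have h3 : IsDiscreteValuationRing B :=
    IsLocalization.AtPrime.isDiscreteValuationRing_of_dedekind_domain (𝓞 L) hQ B
  have h4 : IsFractionRing B L := inferInstance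
  have key : ∀ z : L, IsLocalization.IsInteger B z → ∃ a s : 𝓞 L, s ∉ Q ∧ z * s = a := by
    rintro z ⟨b, hb⟩
    obtain ⟨⟨a, s⟩, hs⟩ := IsLocalization.surj (M := Q.primeCompl) b
    refine ⟨a, s, s.2, ?_⟩
    have := congrArg (algebraMap B L) hs
    rw [map_mul, hb] at this
    exact this
  rcases ValuationRing.isInteger_or_isInteger B y with h | h
  · obtain ⟨a, s, hs, h⟩ := key _ h
    exact ⟨a, s, hs, Or.inl h⟩
  · obtain ⟨a, s, hs, h⟩ := key _ h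
    exact ⟨a, s, hs, Or.inr h⟩

lemma sq_mod (q : ℕ) (h : Nat.Coprime q 24) : 24 ∣ q ^ 2 - 1 := by
  have h1 : ∀ x : ZMod 24, IsUnit x → x ^ 2 = 1 := by decide
  have h2 := h1 (q : ZMod 24) ((ZMod.isUnit_iff_coprime q 24).2 h)
  have h3 : ((q ^ 2 : ℕ) : ZMod 24) = ((1 : ℕ) : ZMod 24) := by push_cast; exact h2
  rw [ZMod.natCast_eq_natCast_iff] at h3
  exact (Nat.modEq_iff_dvd' (by
    have : q ≠ 0 := by rintro rfl; simp at h
    exact Nat.one_le_pow _ _ (Nat.pos_of_ne_zero this))).1 h3.symm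

include hV hp in
lemma frob {K L : Type*} [Field K] [NumberField K] [Field L] [NumberField L] [Algebra K L]
    [IsGalois K L] (i : L →+* ℂ) : ∃ σ : L ≃ₐ[K] L,
      (∀ y : L, V.valuation (i y) < 1 → V.valuation (i (σ y)) < 1) ∧
      ∀ (n : ℕ) (ζ : L), ¬ p ∣ n → ζ ^ n = 1 →
        σ ζ = ζ ^ Nat.card (𝓞 K ⧸ QQ V (i.comp (algebraMap K L))) := by
  have := QQ_finite V hV hp i
  obtain ⟨σ, hσ⟩ := IsArithFrobAt.exists_of_isInvariant (𝓞 K) (L ≃ₐ[K] L) (QQ V i)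
  have hunder : (QQ V i).under (𝓞 K) = QQ V (i.comp (algebraMap K L)) := by
    ext x
    rw [Ideal.under, Ideal.mem_comap, mem_QQ, mem_QQ]
    rfl
  have hco : ∀ x : 𝓞 L, ((σ • x : 𝓞 L) : L) = σ (x : L) := fun x => rfl
  refine ⟨σ, ?_, ?_⟩
  · intro y hy
    by_cases h0 : y = 0
    · rw [h0, map_zero, map_zero, map_zero]; exact zero_lt_one
    obtain ⟨a, s, hs, h | h⟩ := frac (QQ V i) (QQ_ne_bot V hV hp i) y
    · have h1 : V.valuation (i (a : L)) < 1 := by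
        rw [← h, map_mul, map_mul, (not_mem_QQ V i s).1 hs, mul_one]; exact hy
      have ha : a ∈ QQ V i := (mem_QQ V i a).2 h1
      have h2 : σ • a ∈ QQ V i := hσ.le_comap ha
      have h3 : σ • s ∉ QQ V i := by
        intro h
        apply hs
        rw [← hσ.comap_eq]
        exact h
      rw [mem_QQ, hco, ← h, map_mul, map_mul, map_mul, ← hco s, (not_mem_QQ V i _).1 h3,
        mul_one] at h2
      exact h2
    · exfalso
      have h1 := val_le V i a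
      rw [← h, map_mul, map_mul, (not_mem_QQ V i s).1 hs, mul_one, map_inv₀, map_inv₀] at h1
      have h2 : V.valuation (i y) ≠ 0 := by simpa using h0
      rw [inv_le_one₀ (zero_lt_iff.2 h2)] at h1
      exact absurd hy (not_lt.2 h1)
  · intro n ζ hn hζ
    have hn0 : n ≠ 0 := by rintro rfl; exact hn (dvd_zero p)
    have hint : IsIntegral ℤ ζ := IsIntegral.of_pow (Nat.pos_of_ne_zero hn0) (by
      rw [hζ]; exact isIntegral_one)
    let z : 𝓞 L := ⟨ζ, hint⟩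
    have hz : z ^ n = 1 := by
      apply RingOfIntegers.ext
      change (algebraMap (𝓞 L) L) (z ^ n) = algebraMap (𝓞 L) L 1
      rw [map_pow, map_one]
      exact hζ
    have hnQ : ((n : ℕ) : 𝓞 L) ∉ QQ V i := by
      intro h
      have hc : IsCoprime (n : ℤ) (p : ℤ) :=
        Nat.isCoprime_iff_coprime.2 ((Nat.Prime.coprime_iff_not_dvd hp).2 hn).symm
      obtain ⟨u, w, huw⟩ := hc
      have h5 : (u : 𝓞 L) * (n : 𝓞 L) + (w : 𝓞 L) * (p : 𝓞 L) = 1 := by exact_mod_cast huw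
      apply (inferInstance : (QQ V i).IsPrime).ne_top
      rw [Ideal.eq_top_iff_one, ← h5]
      exact Ideal.add_mem _ (Ideal.mul_mem_left _ _ h) (Ideal.mul_mem_left _ _ (p_mem V hV i))
    have h1 := hσ.apply_of_pow_eq_one hz hnQ
    rw [hunder] at h1
    have h2 := congrArg (algebraMap (𝓞 L) L) h1
    rw [map_pow] at h2
    exact h2

end Pool.Agent.TWR.FRBAux

namespace Pool.Agent.TWR

open Finset Pool.Agent.TWR.FRBAux

theorem t_FRB : S_FRB := by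
  intro V p hp h5 hV K hK
  have : NumberField K := { to_charZero := inferInstance, to_finiteDimensional := hK }
  obtain ⟨k, hk1, hk⟩ := card_QQ V hV hp (algebraMap K ℂ)
  have hcop : Nat.Coprime (p ^ k) 24 := by
    apply Nat.Coprime.pow_left
    rw [Nat.Prime.coprime_iff_not_dvd hp]
    intro h
    have h1 : p ∣ 2 ^ 3 * 3 := h
    rcases (Nat.Prime.dvd_mul hp).1 h1 with h2 | h2
    · have := Nat.le_of_dvd (by norm_num) (hp.dvd_of_dvd_pow h2)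
      omega
    · have := Nat.le_of_dvd (by norm_num) h2
      omega
  refine ⟨(p ^ k) ^ 2, ?_, sq_mod _ hcop, ?_⟩
  · apply Nat.one_lt_pow (by norm_num)
    exact Nat.one_lt_pow (by omega) hp.one_lt
  intro n hn hpn ξ hξ x hx hlt
  have hm : 0 < orderOf ξ := orderOf_pos_iff.2 (isOfFinOrder_iff_pow_eq_one.2 ⟨n, Nat.pos_of_ne_zero hn, hξ⟩)
  have hprim : IsPrimitiveRoot ξ (orderOf ξ) := IsPrimitiveRoot.orderOf ξ
  have : NeZero (orderOf ξ) := ⟨hm.ne'⟩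
  let L := IntermediateField.adjoin K ({ξ} : Set ℂ)
  have hcyc : IsCyclotomicExtension {orderOf ξ} K L := by
    change IsCyclotomicExtension {orderOf ξ} K (IntermediateField.adjoin K {ξ}).toSubalgebra
    rw [IntermediateField.adjoin_simple_toSubalgebra_of_isAlgebraic
      ((hprim.isIntegral hm).tower_top (A := K)).isAlgebraic]
    exact hprim.adjoin_isCyclotomicExtension K
  have hfin : FiniteDimensional K L := IsCyclotomicExtension.finiteDimensional {orderOf ξ} K L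
  have hgal : IsGalois K L := IsCyclotomicExtension.isGalois {orderOf ξ} K L
  have hfin2 : FiniteDimensional ℚ L := FiniteDimensional.trans ℚ K L
  have : NumberField L := { to_charZero := inferInstance, to_finiteDimensional := hfin2 }
  obtain ⟨σ, h1, h2⟩ := frob V hV hp (K := K) (L := L) (algebraMap L ℂ)
  have hcard : Nat.card (𝓞 K ⧸ QQ V ((algebraMap L ℂ).comp (algebraMap K L))) = p ^ k := hk
  rw [hcard] at h2
  let ξ' : L := ⟨ξ, IntermediateField.mem_adjoin_simple_self K ξ⟩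
  have hξ' : ξ' ^ n = 1 := Subtype.ext hξ
  have h3 := h2 n ξ' hpn hξ'
  let y : ℕ → K := fun i => ⟨x i, hx i⟩
  have hy : ∀ (j : ℕ → ℕ), algebraMap L ℂ (∑ i ∈ range n, algebraMap K L (y i) * ξ' ^ (j i)) =
      ∑ i ∈ range n, x i * ξ ^ (j i) := by
    intro j
    rw [map_sum]
    refine Finset.sum_congr rfl fun i _ => ?_
    rw [map_mul, map_pow]
    rfl
  have hσ : ∀ (j : ℕ → ℕ), σ (∑ i ∈ range n, algebraMap K L (y i) * ξ' ^ (j i)) =
      ∑ i ∈ range n, algebraMap K L (y i) * ξ' ^ (p ^ k * j i) := by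
    intro j
    rw [map_sum]
    refine Finset.sum_congr rfl fun i _ => ?_
    rw [map_mul, map_pow, AlgEquiv.commutes, h3, ← pow_mul]
  have e1 := h1 _ (by rw [hy (fun i => i)]; exact hlt)
  rw [hσ] at e1
  have e2 := h1 _ e1
  rw [hσ, hy] at e2
  have e3 : ∀ i, p ^ k * (p ^ k * i) = (p ^ k) ^ 2 * i := fun i => by ring
  simp only [e3] at e2
  exact e2

end Pool.Agent.TWR


end

section

/-!
TWR, module KEY: the main step.
-/

set_option autoImplicit false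

namespace Pool.Agent.TWR

open Finset OnePoint

namespace KEYM

/-- a power of `l` which is one modulo `k` -/
theorem exists_pow {l : ℕ} {k : ℤ} (hk : k ≠ 0) (h : IsCoprime k (l : ℤ)) :
    ∃ t : ℕ, 1 ≤ t ∧ k ∣ (l : ℤ) ^ t - 1 := by
  have h1 : Nat.Coprime l k.natAbs := by
    have := Int.isCoprime_iff_gcd_eq_one.mp h.symm
    rw [Int.gcd] at this
    simpa using this
  have h2 : 0 < k.natAbs := Int.natAbs_pos.mpr hk
  refine ⟨Nat.totient k.natAbs, Nat.totient_pos.mpr h2, ?_⟩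
  have h3 := (Nat.modEq_iff_dvd.mp (Nat.ModEq.pow_totient h1).symm)
  rw [← Int.natAbs_dvd]
  have h4 : ((k.natAbs : ℕ) : ℤ) ∣ ((l ^ Nat.totient k.natAbs : ℕ) : ℤ) - ((1 : ℕ) : ℤ) := h3
  push_cast at h4 ⊢
  exact h4

theorem coprime_of_sub {a b l k : ℤ} (h : IsCoprime a l) (hk : b - a = l * k) :
    IsCoprime b l := by
  obtain ⟨x, y, hxy⟩ := h
  exact ⟨x, y - x * k, by linear_combination hxy + x * hk⟩

end KEYM

theorem t_KEY : M_KEY := by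
  intro hTWP hEDG hCRT hCST R M _ _ _ l m hl hm z hz N0 v hN0 hN0l χ W hW E d u u' hvE hmd hdE hu
    hu' hs' hs hrec β δ s hδ hδN hβδ
  have hq0 : l ^ m ≠ 0 := pow_ne_zero _ hl.ne_zero
  obtain ⟨hz0, hzper, -, hTadd, hTsh, -, -⟩ := hTWP R M (l ^ m) hq0 z hz W hW.per
  obtain ⟨m1, hN0m1, hm1u, hm1δ, hm1l⟩ := hCRT l m N0 E d β δ u u' hl hm hN0 hN0l hδN hβδ hu hu'
  have hlZ : (l : ℤ) ≠ 0 := by exact_mod_cast hl.ne_zero
  have hlQ : (l : ℚ) ≠ 0 := by exact_mod_cast hl.ne_zero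
  have hδQ : (δ : ℚ) ≠ 0 := by exact_mod_cast hδ
  have hδl : IsCoprime δ (l : ℤ) := hδN.of_mul_right_right
  have hm10 : m1 ≠ 0 := by
    rintro rfl
    have h1 : IsUnit (l : ℤ) := isCoprime_zero_left.mp hm1l
    rw [Int.isUnit_iff] at h1
    have := hl.two_le
    omega
  push_cast at hm1u
  obtain ⟨A0, hA0⟩ := hm1δ
  obtain ⟨k1, hk1⟩ := hm1u
  -- the functions
  obtain ⟨B0, hB0⟩ : ∃ B0 : ℤ, B0 = β * (l : ℤ) ^ E + u' * δ := ⟨_, rfl⟩
  rw [← hB0] at hA0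
  let B : ℤ → ℤ := fun s => B0 + s * (l : ℤ) ^ m * δ
  let A : ℤ → ℤ := fun s => A0 + m1 * s * (l : ℤ) ^ m
  let H : ℤ → M := fun s => Tw (l ^ m) z W 1 ((B s : ℚ) / ((δ * (l : ℤ) ^ E : ℤ) : ℚ))
  have hC0 : (l : ℤ) ^ E * m1 ≠ 0 := mul_ne_zero (pow_ne_zero _ hlZ) hm10
  have hD0 : δ * (l : ℤ) ^ E ≠ 0 := mul_ne_zero hδ (pow_ne_zero _ hlZ)
  have hEm : (l : ℤ) ^ E = (l : ℤ) ^ m * (l : ℤ) ^ (E - m) := by
    rw [← pow_add]
    congr 1
    omega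
  have hEmQ : (l : ℚ) ^ E = (l : ℚ) ^ m * (l : ℚ) ^ (E - m) := by exact_mod_cast hEm
  have hdm : (l : ℤ) ^ d = (l : ℤ) ^ m * (l : ℤ) ^ (d - m) := by
    rw [← pow_add]
    congr 1
    omega
  have hAB : ∀ s : ℤ, (l : ℤ) ^ m ∣ A s * B s - u := by
    intro s
    have hcop : IsCoprime ((l : ℤ) ^ m) δ := hδl.symm.pow_left
    apply hcop.dvd_of_dvd_mul_left
    refine ⟨δ * k1 + (m1 * (2 * β * (l : ℤ) ^ (E - m) * (u' * δ) +
      β ^ 2 * (l : ℤ) ^ (E - m) * (l : ℤ) ^ E) + (l : ℤ) ^ (d - m) * B s +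
      m1 * s * δ * B s + m1 * B0 * s * δ), ?_⟩
    have e1 : δ * A s = m1 * B0 + (l : ℤ) ^ d + m1 * s * (l : ℤ) ^ m * δ := by
      show δ * (A0 + m1 * s * (l : ℤ) ^ m) = _
      linear_combination -hA0
    have e2 : B s = B0 + s * (l : ℤ) ^ m * δ := rfl
    have e3 : B0 ^ 2 = (u' * δ) ^ 2 + (l : ℤ) ^ m * (2 * β * (l : ℤ) ^ (E - m) * (u' * δ) +
        β ^ 2 * (l : ℤ) ^ (E - m) * (l : ℤ) ^ E) := by
      rw [hB0]
      linear_combination (2 * β * (u' * δ) + β ^ 2 * (l : ℤ) ^ E) * hEm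
    calc δ * (A s * B s - u) = (δ * A s) * B s - δ * u := by ring
      _ = (m1 * B0 + (l : ℤ) ^ d + m1 * s * (l : ℤ) ^ m * δ) * B s - δ * u := by rw [e1]
      _ = m1 * B0 ^ 2 + m1 * B0 * (s * (l : ℤ) ^ m * δ) + (l : ℤ) ^ d * B s +
          m1 * s * (l : ℤ) ^ m * δ * B s - δ * u := by
        rw [show m1 * B0 ^ 2 + m1 * B0 * (s * (l : ℤ) ^ m * δ) = m1 * B0 * B s by rw [e2]; ring]
        ring
      _ = _ := by
        rw [e3, hdm]
        linear_combination δ * hk1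
  have hAl : ∀ s : ℤ, IsCoprime (A s) (l : ℤ) := by
    intro s
    obtain ⟨k, hk⟩ := hAB s
    have h1 : IsCoprime (A s * B s) (l : ℤ) := by
      apply KEYM.coprime_of_sub hu (k := (l : ℤ) ^ (m - 1) * k)
      rw [hk, ← mul_assoc, ← pow_succ']
      congr 2
      omega
    exact h1.of_mul_left_left
  have hdet : ∀ s : ℤ, A s * (δ * (l : ℤ) ^ E) - B s * ((l : ℤ) ^ E * m1) = (l : ℤ) ^ (E + d) := by
    intro s
    show (A0 + m1 * s * (l : ℤ) ^ m) * (δ * (l : ℤ) ^ E) -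
      (B0 + s * (l : ℤ) ^ m * δ) * ((l : ℤ) ^ E * m1) = _
    rw [pow_add]
    linear_combination -(l : ℤ) ^ E * hA0
  have hNC : ((l ^ v * N0 * l ^ m * l ^ m : ℕ) : ℤ) ∣ (l : ℤ) ^ E * m1 := by
    obtain ⟨k, hk⟩ := hN0m1
    refine ⟨(l : ℤ) ^ (E - (v + 2 * m)) * k, ?_⟩
    have h1 : (l : ℤ) ^ E = (l : ℤ) ^ v * (l : ℤ) ^ m * (l : ℤ) ^ m *
        (l : ℤ) ^ (E - (v + 2 * m)) := by
      rw [← pow_add, ← pow_add, ← pow_add]
      congr 1
      omega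
    rw [h1, hk]
    push_cast
    ring
  have hcopAC : ∀ (s B' : ℤ) (n : ℕ),
      A s * (δ * (l : ℤ) ^ E) - B' * ((l : ℤ) ^ E * m1) = (l : ℤ) ^ n →
      IsCoprime (A s) ((l : ℤ) ^ E * m1) := by
    intro s B' n h
    obtain ⟨x, y, hxy⟩ := (hAl s).pow_right (n := n)
    refine ⟨x + y * (δ * (l : ℤ) ^ E), -(y * B'), ?_⟩
    linear_combination hxy + y * h
  -- the period `T`
  have hδm1 : δ * m1 ≠ 0 := mul_ne_zero hδ hm10
  obtain ⟨t, ht1, ht⟩ := KEYM.exists_pow hδm1 (hδl.mul_left hm1l)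
  obtain ⟨o, ho1, hto, hso⟩ := hrec t ht1
  have hdo : δ * m1 ∣ (l : ℤ) ^ o - 1 := by
    obtain ⟨k, rfl⟩ := hto
    rw [pow_mul]
    exact dvd_trans ht (sub_one_dvd_pow_sub_one _ _)
  obtain ⟨T1, hT1⟩ := hdo
  have hT0l : IsCoprime (-T1) (l : ℤ) := by
    refine ⟨δ * m1, (l : ℤ) ^ (o - 1), ?_⟩
    have h1 : (l : ℤ) ^ (o - 1) * (l : ℤ) = (l : ℤ) ^ o := by
      rw [← pow_succ]
      congr 1
      omega
    linear_combination h1 + hT1
  have hedge : ∀ s, H s = Tw (l ^ m) z W 1 ((A s : ℚ) / (((l : ℤ) ^ E * m1 : ℤ) : ℚ)) := by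
    intro s
    refine hEDG R M l m hl z hz (l ^ v * N0) χ W hW (E + d) u hs 1 (A s) (B s)
      ((l : ℤ) ^ E * m1) (δ * (l : ℤ) ^ E) (by omega) hNC hC0 hD0
      (hcopAC s (B s) (E + d) (hdet s)) (hdet s) ?_
    rw [one_mul]
    push_cast
    exact hAB s
  have hdet2 : ∀ s : ℤ, A s * (δ * (l : ℤ) ^ E) -
      B (s + (l : ℤ) ^ (d - m) * (-T1)) * ((l : ℤ) ^ E * m1) = (l : ℤ) ^ (E + d + o) := by
    intro s
    have h1 : B (s + (l : ℤ) ^ (d - m) * (-T1)) = B s - (l : ℤ) ^ d * (T1 * δ) := by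
      show B0 + (s + (l : ℤ) ^ (d - m) * (-T1)) * (l : ℤ) ^ m * δ =
        B0 + s * (l : ℤ) ^ m * δ - (l : ℤ) ^ d * (T1 * δ)
      rw [hdm]
      ring
    rw [h1]
    have h2 := hdet s
    rw [pow_add _ (E + d) o]
    rw [pow_add] at h2 ⊢
    linear_combination h2 + (l : ℤ) ^ E * (l : ℤ) ^ d * (-1) * hT1
  have hedge2 : ∀ s, H (s + (l : ℤ) ^ (d - m) * (-T1)) =
      Tw (l ^ m) z W 1 ((A s : ℚ) / (((l : ℤ) ^ E * m1 : ℤ) : ℚ)) := by
    intro s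
    refine hEDG R M l m hl z hz (l ^ v * N0) χ W hW (E + d + o) u hso 1 (A s)
      (B (s + (l : ℤ) ^ (d - m) * (-T1)))
      ((l : ℤ) ^ E * m1) (δ * (l : ℤ) ^ E) (by omega) hNC hC0 hD0
      (hcopAC s _ (E + d + o) (hdet2 s)) (hdet2 s) ?_
    rw [one_mul]
    push_cast
    have h1 : B (s + (l : ℤ) ^ (d - m) * (-T1)) = B s - (l : ℤ) ^ m * ((l : ℤ) ^ (d - m) *
        (T1 * δ)) := by
      show B0 + (s + (l : ℤ) ^ (d - m) * (-T1)) * (l : ℤ) ^ m * δ =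
        B0 + s * (l : ℤ) ^ m * δ - (l : ℤ) ^ m * ((l : ℤ) ^ (d - m) * (T1 * δ))
      ring
    rw [h1]
    have h2 : A s * (B s - (l : ℤ) ^ m * ((l : ℤ) ^ (d - m) * (T1 * δ))) - u =
        (A s * B s - u) - (l : ℤ) ^ m * (A s * ((l : ℤ) ^ (d - m) * (T1 * δ))) := by ring
    rw [h2]
    exact dvd_sub (hAB s) (dvd_mul_right _ _)
  have hDQ : ((δ * (l : ℤ) ^ E : ℤ) : ℚ) ≠ 0 := by exact_mod_cast hD0
  have hper : ∀ s, H (s + (l : ℤ) ^ (E - m)) = H s := by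
    intro s
    have h1 : B (s + (l : ℤ) ^ (E - m)) = B s + δ * (l : ℤ) ^ E := by
      show B0 + (s + (l : ℤ) ^ (E - m)) * (l : ℤ) ^ m * δ =
        B0 + s * (l : ℤ) ^ m * δ + δ * (l : ℤ) ^ E
      rw [hEm]
      ring
    show Tw (l ^ m) z W 1 ((B (s + (l : ℤ) ^ (E - m)) : ℚ) / ((δ * (l : ℤ) ^ E : ℤ) : ℚ)) = _
    rw [h1, Int.cast_add, add_div, div_self hDQ]
    have h2 := hTadd 1 1 ((B s : ℚ) / ((δ * (l : ℤ) ^ E : ℤ) : ℚ))
    rw [Int.cast_one] at h2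
    exact h2
  have hshift : ∀ s, H (s + (l : ℤ) ^ (E - 2 * m)) = z (-1) • H s := by
    intro s
    have h0 : (l : ℤ) ^ (E - m) = (l : ℤ) ^ (E - 2 * m) * (l : ℤ) ^ m := by
      rw [← pow_add]
      congr 1
      omega
    have h1 : B (s + (l : ℤ) ^ (E - 2 * m)) = B s + δ * (l : ℤ) ^ (E - m) := by
      show B0 + (s + (l : ℤ) ^ (E - 2 * m)) * (l : ℤ) ^ m * δ =
        B0 + s * (l : ℤ) ^ m * δ + δ * (l : ℤ) ^ (E - m)
      rw [h0]
      ring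
    show Tw (l ^ m) z W 1 ((B (s + (l : ℤ) ^ (E - 2 * m)) : ℚ) / ((δ * (l : ℤ) ^ E : ℤ) : ℚ)) = _
    have h2 : ((B (s + (l : ℤ) ^ (E - 2 * m)) : ℤ) : ℚ) / ((δ * (l : ℤ) ^ E : ℤ) : ℚ) =
        (B s : ℚ) / ((δ * (l : ℤ) ^ E : ℤ) : ℚ) + 1 / ((l ^ m : ℕ) : ℚ) := by
      rw [h1, Int.cast_add, add_div]
      congr 1
      push_cast
      rw [hEmQ]
      have h3 : (l : ℚ) ^ (E - m) ≠ 0 := pow_ne_zero _ hlQ
      have h4 : (l : ℚ) ^ m ≠ 0 := pow_ne_zero _ hlQ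
      field_simp
    rw [h2]
    exact hTsh 1 _
  have hunit : IsUnit (1 - z (-1)) := by
    apply hz.un
    intro hcon
    have h1 := Int.eq_one_of_dvd_one (by positivity) ((Int.dvd_neg).mp hcon)
    have h2 : l ^ m = 1 := by exact_mod_cast h1
    have h3 := Nat.one_lt_pow (by omega : m ≠ 0) hl.one_lt
    omega
  have hfin := hCST R M l (E - m) (d - m) (E - 2 * m) (-T1) (z (-1)) H hT0l (by omega) hunit hper
    (fun s => by rw [hedge2 s, hedge s]) hshift s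
  rw [← hfin]
  show _ = Tw (l ^ m) z W 1 ((B s : ℚ) / ((δ * (l : ℤ) ^ E : ℤ) : ℚ))
  congr 1
  show _ = ((B0 + s * (l : ℤ) ^ m * δ : ℤ) : ℚ) / ((δ * (l : ℤ) ^ E : ℤ) : ℚ)
  rw [hB0]
  have h3 : (l : ℚ) ^ E ≠ 0 := pow_ne_zero _ hlQ
  push_cast
  field_simp
  ring

end Pool.Agent.TWR


end

section

/-!
# TWR, module SUM: the sum over all `e` of the twisted sums, and the layers `l ∣ e`
(problem MP_b78433_nt)
-/

set_option autoImplicit false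

namespace Pool.Agent.TWR

open Finset

namespace SUMAux

variable {R M : Type} [CommRing R] [AddCommGroup M] [Module R M]

/-- `j = j0 + a k` -/
theorem sum_split (a b : ℕ) (f : ℕ → M) :
    ∑ j ∈ range (a * b), f j = ∑ j0 ∈ range a, ∑ k ∈ range b, f (j0 + a * k) := by
  induction b with
  | zero => simp
  | succ b ih =>
    rw [Nat.mul_succ, Finset.sum_range_add, ih]
    simp_rw [Finset.sum_range_succ _ b]
    rw [Finset.sum_add_distrib]
    congr 1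
    refine Finset.sum_congr rfl fun j _ => ?_
    rw [add_comm]

/-- geometric sum -/
theorem geom (q : ℕ) (z : ℤ → R) (hz : Chr q z) (h0 : z 0 = 1) (j : ℤ) (n : ℕ) :
    (1 - z j) * ∑ e ∈ range n, z ((e : ℤ) * j) = 1 - z ((n : ℤ) * j) := by
  induction n with
  | zero => simp [h0]
  | succ n ih =>
    rw [Finset.sum_range_succ, mul_add, ih]
    have h1 : z (((n + 1 : ℕ) : ℤ) * j) = z ((n : ℤ) * j) * z j := by
      rw [← hz.add]
      congr 1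
      push_cast
      ring
    rw [h1]
    ring

end SUMAux

open _root_.Pool.Agent.TWR.SUMAux

theorem t_SUM : M_SUM := by
  intro hTWP R M _ _ _ l m hl hm z hz W hW hW0
  have hq : l ^ m ≠ 0 := pow_ne_zero _ hl.ne_zero
  obtain ⟨h0, hper, -⟩ := hTWP R M (l ^ m) hq z hz W hW
  have hlq : (l : ℚ) ≠ 0 := by exact_mod_cast hl.ne_zero
  have hqm : l ^ m = l ^ (m - 1) * l := by
    rw [← pow_succ]
    congr 1
    omega
  refine ⟨?_, ?_⟩
  · rintro e x ⟨e', rfl⟩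
    unfold Tw
    have h1 : ∀ (f : ℕ → M), ∑ j ∈ range (l ^ m), f j =
        ∑ j0 ∈ range (l ^ (m - 1)), ∑ k ∈ range l, f (j0 + l ^ (m - 1) * k) := by
      intro f
      rw [hqm]
      exact sum_split _ _ f
    rw [h1]
    refine Finset.sum_eq_zero fun j0 _ => ?_
    have h2 : ∀ k : ℕ, z ((l : ℤ) * e' * ((j0 + l ^ (m - 1) * k : ℕ) : ℤ)) •
        W (x + ((j0 + l ^ (m - 1) * k : ℕ) : ℚ) / ((l ^ m : ℕ) : ℚ)) =
        z ((l : ℤ) * e' * (j0 : ℤ)) • W (x + (j0 : ℚ) / ((l ^ m : ℕ) : ℚ) + (k : ℚ) / l) := by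
      intro k
      congr 1
      · apply hper
        refine ⟨e' * k, ?_⟩
        rw [hqm]
        push_cast
        ring
      · congr 1
        rw [hqm]
        push_cast
        field_simp
        ring
    simp_rw [h2]
    rw [← Finset.smul_sum, hW0, smul_zero]
  · intro x
    unfold Tw
    rw [Finset.sum_comm]
    simp_rw [← Finset.sum_smul]
    rw [Finset.sum_eq_single_of_mem 0 (Finset.mem_range.2 (Nat.pos_of_ne_zero hq))]
    · simp [h0]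
    · intro j hj hj0
      have hjq : j < l ^ m := Finset.mem_range.1 hj
      have hnd : ¬ ((l ^ m : ℕ) : ℤ) ∣ (j : ℤ) := by
        intro hd
        have := Nat.le_of_dvd (Nat.pos_of_ne_zero hj0) (Int.natCast_dvd_natCast.1 hd)
        omega
      have hg := geom (l ^ m) z hz h0 (j : ℤ) (l ^ m)
      have h3 : z (((l ^ m : ℕ) : ℤ) * (j : ℤ)) = 1 := by
        rw [← h0]
        apply hper
        exact ⟨j, by ring⟩
      rw [h3, sub_self] at hg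
      have h4 : ∑ e ∈ range (l ^ m), z ((e : ℤ) * (j : ℤ)) = 0 :=
        (hz.un j hnd).mul_right_eq_zero.1 hg
      rw [h4, zero_smul]

end Pool.Agent.TWR


end

section

/-!
# TWR, second file: the rigidity theorem for symbols with algebraic values (problem MP_b78433_nt)

`S_TW2` is `S_TWR` (see `Pool/Agent/TWR/St.lean`) with the hypothesis `P i ∞ x ∈ K`, `K` a number
field, replaced by: `P i ∞ x` is algebraic for all `x`, and the `nu i d` are algebraic.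
-/

set_option autoImplicit false

namespace Pool.Agent.TWR

open Finset OnePoint

/-- NFV (150 lines), the values lie in a number field (Manin). Proof. `mob` is
`Pool.Agent.MuSym.mob`. For `γ = (a b; c d)`, `a d - b c = 1`, let `m γ = P (γ ∞) (γ 0)`. It is
algebraic: `P (γ ∞) (γ 0) = P ∞ (γ 0) - P ∞ (γ ∞)`, `P ∞ ∞ = 0`. If `γ' = (a' b'; c' d')` and
`c' ≡ c`, `d' ≡ d` modulo `N`, then `γ' = g γ` with `g = γ' γ⁻¹` of lower row
`(c' d - d' c, a d' - b c')`, `N ∣ c' d - d' c`, so `m γ' = nu (a d' - b c') * m γ` (`IsSym.equiv` at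
`x = γ ∞`, `y = γ 0`; `mob` is multiplicative: check on `γ ∞`, `γ 0` directly, also if one of them
is `∞`). Choose one `γ` for each pair of residues `(c, d)` modulo `N` that occurs (finitely many;
`N ≠ 0`). Let `K` be generated over `ℚ` by the (finitely many) `nu j`, `0 ≤ j < N`, and the `m γ` of
these `γ`: a finite extension, because they are algebraic, and `m γ ∈ K` for all `γ`. Now
`P ∞ (r/s) ∈ K`, `r`, `s` coprime, `s ≥ 1`, by strong induction on `s`: choose integers `r'`, `s'` with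
`r' s - r s' = 1` and `0 ≤ s' < s`, `γ = (r' r; s' s)`: `γ 0 = r/s`, and `γ ∞ = r'/s'` (`∞` if
`s' = 0`), so `P ∞ (r/s) = P ∞ (γ ∞) + m γ`, and `P ∞ (γ ∞)` is `0` or in `K` by induction (the
denominator of `r'/s'` is `s' < s`, as `r'`, `s'` are coprime). -/
def S_NFV : Prop := ∀ (N : ℕ) (_ : N ≠ 0) (nu : ℤ → ℂ)
  (_ : ∀ d d' : ℤ, (N : ℤ) ∣ d - d' → nu d = nu d') (_ : ∀ d, IsAlgebraic ℚ (nu d))
  (P : OnePoint ℚ → OnePoint ℚ → ℂ) (_ : _root_.MU3.IsSym N nu P)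
  (_ : ∀ x : ℚ, IsAlgebraic ℚ (P ∞ (x : OnePoint ℚ))),
  ∃ K : IntermediateField ℚ ℂ, FiniteDimensional ℚ K ∧ ∀ x : ℚ, P ∞ (x : OnePoint ℚ) ∈ K

/-- TW2: `TWR` with `K` = the compositum of the fields of `NFV`. -/
def S_TW2 : Prop := ∀ (l g h : ℕ) (_ : Gen l g h) (V : ValuationSubring ℂ) (p : ℕ) (_ : p.Prime)
  (_ : 5 ≤ p) (_ : V.valuation (p : ℂ) < 1) (I : Type) [Finite I] (N : ℕ) (_ : N ≠ 0)
  (nu : I → ℤ → ℂ)
  (_ : ∀ i d, V.valuation (nu i d) ≤ 1) (_ : ∀ i, nu i 1 = 1)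
  (_ : ∀ i (d d' : ℤ), (N : ℤ) ∣ d - d' → nu i d = nu i d') (_ : ∀ i d, IsAlgebraic ℚ (nu i d))
  (P : I → OnePoint ℚ → OnePoint ℚ → ℂ) (_ : ∀ i, _root_.MU3.IsSym N (nu i) (P i))
  (_ : ∀ i (x : ℚ), IsAlgebraic ℚ (P i ∞ (x : OnePoint ℚ)))
  (_ : ∀ i (x : ℚ), P i ∞ ((-x : ℚ) : OnePoint ℚ) = P i ∞ (x : OnePoint ℚ))
  (_ : ∀ i (x : ℚ), ∑ k ∈ range l, P i ∞ ((x + (k : ℚ) / l : ℚ) : OnePoint ℚ) = 0)
  (_ : ∀ i (N' : ℕ), N' ≠ 0 → N ∣ N' → ∃ a b c d : ℤ, a * d - b * c = 1 ∧ (N' : ℤ) ∣ c ∧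
    (N' : ℤ) ∣ d - 1 ∧ 1 ≤ V.valuation (P i ∞ (Pool.Agent.MuSym.mob a b c d ∞)))
  (a : ℕ) (_ : 1 ≤ a) (n0 : ℕ), ∃ n ≥ n0, ∀ j < a, ∀ i,
    ∀ ψ : DirichletCharacter ℂ (l ^ (n + j)), ψ (-1) = 1 →
      ψ (1 + (l : ZMod (l ^ (n + j))) ^ (n + j - 1)) ≠ 1 →
      1 ≤ V.valuation (∑ b ∈ range (l ^ (n + j)),
        ψ b * P i ∞ (((b : ℚ) / (l : ℚ) ^ (n + j) : ℚ) : OnePoint ℚ))

theorem t_TW2 (h1 : S_NFV) (h2 : S_TWR) : S_TW2 := by
  intro l g h hG V p hp hp5 hvp I _ N hN nu hnu1 hnu2 hnu3 hnu4 P hsym hPa hPe hPd hND a ha n0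
  choose K hK1 hK2 using fun i => h1 N hN (nu i) (hnu3 i) (hnu4 i) (P i) (hsym i) (hPa i)
  have hfd : FiniteDimensional ℚ (⨆ i, K i : IntermediateField ℚ ℂ) := by
    have := hK1
    exact IntermediateField.finiteDimensional_iSup_of_finite
  exact h2 l g h hG V p hp hp5 hvp (⨆ i, K i) hfd I N hN nu hnu1 hnu2 hnu3 P hsym
    (fun i x => (le_iSup K i) (hK2 i x)) hPe hPd hND a ha n0

end Pool.Agent.TWR


end

section

/-!
# TWR, module TRI: the trace of a root of unity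
-/

set_option autoImplicit false

namespace Pool.Agent.TWR

open Finset OnePoint

namespace TRIAux

/-- Lifting the exponent. -/
theorem lte (l m q : ℕ) (hl : l.Prime) (hm : 1 ≤ m) (h2 : l = 2 → 2 ≤ m) (hd : l ^ m ∣ q - 1)
    (hn : ¬ l ^ (m + 1) ∣ q - 1) (hq : 1 ≤ q) (j : ℕ) :
    ∃ w : ℕ, q ^ (l ^ j) = 1 + l ^ (m + j) * w ∧ ¬ l ∣ w := by
  have : Fact l.Prime := ⟨hl⟩
  have hq1 : q ≠ 1 := by
    rintro rfl
    exact hn (by simp)
  have hq2 : 1 < q := lt_of_le_of_ne hq (Ne.symm hq1)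
  have hne : q - 1 ≠ 0 := by omega
  have hld : l ∣ q - 1 := (dvd_pow_self l (by omega)).trans hd
  have hlq : ¬ l ∣ q := by
    intro h
    have h3 : l ∣ q - (q - 1) := Nat.dvd_sub h hld
    have h4 : q - (q - 1) = 1 := by omega
    rw [h4] at h3
    exact hl.one_lt.ne' (Nat.dvd_one.1 h3)
  have hv : padicValNat l (q - 1) = m := by
    apply le_antisymm
    · by_contra h
      push Not at h
      exact hn ((padicValNat_dvd_iff_le hne).2 h)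
    · exact (padicValNat_dvd_iff_le hne).1 hd
  have hpow1 : 1 < q ^ (l ^ j) := Nat.one_lt_pow (pow_pos hl.pos j).ne' hq2
  have key : padicValNat l (q ^ (l ^ j) - 1) = m + j := by
    rcases hl.eq_two_or_odd' with hl2 | hodd
    · subst hl2
      rcases Nat.eq_zero_or_pos j with hj | hj
      · subst hj
        simpa using hv
      · have h5 := padicValNat.pow_two_sub_pow (x := q) (y := 1) hq2 hld hlq
          (n := 2 ^ j) (by positivity) ((Nat.even_pow).2 ⟨even_two, by omega⟩)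
        rw [one_pow, hv, padicValNat.prime_pow] at h5
        have h6 : padicValNat 2 (q + 1) = 1 := by
          have h7 : 4 ∣ q - 1 := by
            have h8 : 2 ^ 2 ∣ 2 ^ m := pow_dvd_pow 2 (h2 rfl)
            exact h8.trans hd
          have h9 : ¬ 2 ^ 2 ∣ q + 1 := by omega
          have h10 : 2 ^ 1 ∣ q + 1 := by omega
          apply le_antisymm
          · by_contra h
            push Not at h
            exact h9 ((padicValNat_dvd_iff_le (by omega)).2 h)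
          · exact (padicValNat_dvd_iff_le (by omega)).1 h10
        omega
    · have h5 := padicValNat.pow_sub_pow hodd (x := q) (y := 1) hq2 hld hlq
        (n := l ^ j) (pow_pos hl.pos j).ne'
      rw [one_pow, hv, padicValNat.prime_pow] at h5
      exact h5
  have hne2 : q ^ (l ^ j) - 1 ≠ 0 := by omega
  obtain ⟨w, hw⟩ := (padicValNat_dvd_iff_le hne2).2 (le_of_eq key.symm)
  refine ⟨w, by omega, fun h => ?_⟩
  obtain ⟨w', rfl⟩ := h
  have h6 : l ^ (m + j + 1) ∣ q ^ (l ^ j) - 1 := ⟨w', by rw [hw, pow_succ]; ring⟩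
  have h7 := (padicValNat_dvd_iff_le hne2).1 h6
  omega

/-- Reordering of a sum. -/
theorem sum_mul (f : ℕ → ℂ) (a n : ℕ) :
    ∑ j ∈ range (a * n), f j = ∑ j ∈ range a, ∑ i ∈ range n, f (j + a * i) := by
  rw [Finset.sum_comm]
  induction n with
  | zero => simp
  | succ n ih =>
    rw [Nat.mul_succ, Finset.sum_range_add, ih, Finset.sum_range_succ]
    congr 1
    exact Finset.sum_congr rfl fun j _ => by rw [Nat.add_comm]

theorem pow_iter (θ ω : ℂ) (Q : ℕ) (h1 : θ ^ Q = θ * ω) (h2 : ω ^ Q = ω) (i : ℕ) :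
    θ ^ (Q ^ i) = θ * ω ^ i := by
  induction i with
  | zero => simp
  | succ i ih =>
    rw [pow_succ, pow_mul, ih, mul_pow, h1, ← pow_mul, Nat.mul_comm, pow_mul, h2, pow_succ]
    ring

end TRIAux

open _root_.Pool.Agent.TWR.TRIAux in
theorem t_TRI : S_TRI := by
  intro l m r q hl hm h2 hd hn hq η hη
  by_cases h1 : η ^ (l ^ m) = 1
  · rw [if_pos h1]
    obtain ⟨t, ht⟩ := hd
    have hq' : q = 1 + l ^ m * t := by omega
    have h3 : η ^ q = η := by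
      rw [hq', pow_add, pow_one, pow_mul, h1, one_pow, mul_one]
    have h4 : ∀ j, η ^ (q ^ j) = η := by
      intro j
      have := pow_iter η 1 q (by rw [h3, mul_one]) (one_pow q) j
      rwa [one_pow, mul_one] at this
    rw [Finset.sum_congr rfl fun j _ => h4 j, Finset.sum_const, Finset.card_range, nsmul_eq_mul]
    push_cast
    rfl
  · rw [if_neg h1]
    obtain ⟨s, hs, hord⟩ := (Nat.dvd_prime_pow hl).1 (orderOf_dvd_of_pow_eq_one hη)
    have hms : m < s := by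
      by_contra h
      push Not at h
      apply h1
      apply orderOf_dvd_iff_pow_eq_one.1
      rw [hord]
      exact pow_dvd_pow l h
    obtain ⟨k, rfl⟩ : ∃ k, s = m + k + 1 := ⟨s - m - 1, by omega⟩
    obtain ⟨w, hw, hlw⟩ := lte l m q hl hm h2 hd hn hq k
    have hlq : ¬ l ∣ q := by
      intro h
      have hld : l ∣ q - 1 := (dvd_pow_self l (by omega)).trans hd
      have h3 : l ∣ q - (q - 1) := Nat.dvd_sub h hld
      have h4 : q - (q - 1) = 1 := by omega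
      rw [h4] at h3
      exact hl.one_lt.ne' (Nat.dvd_one.1 h3)
    have hr : l ^ r = l ^ k * l ^ (r - k) := by
      rw [← pow_add]
      congr 1
      omega
    rw [hr, sum_mul]
    refine Finset.sum_eq_zero fun j _ => ?_
    set θ : ℂ := η ^ (q ^ j) with hθ
    set ω : ℂ := θ ^ (l ^ (m + k) * w) with hω
    have hθs : θ ^ (l ^ (m + k + 1)) = 1 := by
      rw [hθ, ← pow_mul, Nat.mul_comm, pow_mul, ← hord, pow_orderOf_eq_one, one_pow]
    have hωl : ω ^ l = 1 := by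
      rw [hω, ← pow_mul]
      have h5 : l ^ (m + k) * w * l = l ^ (m + k + 1) * w := by
        rw [pow_succ]
        ring
      rw [h5, pow_mul, hθs, one_pow]
    have hω1 : ω ≠ 1 := by
      intro h
      rw [hω, hθ, ← pow_mul] at h
      have h5 := orderOf_dvd_of_pow_eq_one h
      rw [hord, pow_succ] at h5
      have h6 : l ^ (m + k) * l ∣ l ^ (m + k) * (q ^ j * w) := by
        have h7 : q ^ j * (l ^ (m + k) * w) = l ^ (m + k) * (q ^ j * w) := by ring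
        rwa [h7] at h5
      have h8 := Nat.dvd_of_mul_dvd_mul_left (pow_pos hl.pos _) h6
      rcases hl.dvd_mul.1 h8 with h9 | h9
      · exact hlq (hl.dvd_of_dvd_pow h9)
      · exact hlw h9
    have hθQ : θ ^ (q ^ (l ^ k)) = θ * ω := by
      rw [hw, pow_add, pow_one]
    have hωQ : ω ^ (q ^ (l ^ k)) = ω := by
      rw [hw, pow_add, pow_one]
      have h5 : l ^ (m + k) * w = l * (l ^ (m + k - 1) * w) := by
        rw [← Nat.mul_assoc, ← pow_succ']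
        congr 2
        omega
      rw [h5, pow_mul, hωl, one_pow, mul_one]
    have hterm : ∀ i, η ^ (q ^ (j + l ^ k * i)) = θ * ω ^ i := by
      intro i
      rw [pow_add, pow_mul, pow_mul, ← hθ]
      exact pow_iter θ ω (q ^ (l ^ k)) hθQ hωQ i
    rw [Finset.sum_congr rfl fun i _ => hterm i, ← Finset.mul_sum]
    have hgeom : ∑ i ∈ range (l ^ (r - k)), ω ^ i = 0 := by
      have h5 := geom_sum_mul ω (l ^ (r - k))
      have h6 : ω ^ (l ^ (r - k)) = 1 := by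
        have h7 : r - k = (r - k - 1) + 1 := by omega
        rw [h7, pow_succ', pow_mul, hωl, one_pow]
      rw [h6, sub_self] at h5
      exact (mul_eq_zero.1 h5).resolve_right (sub_ne_zero.2 hω1)
    rw [hgeom, mul_zero]

end Pool.Agent.TWR


end

section

/-!
# TWR, module TRS: the trace relation for a primitive root of unity of order `l^(m+r)`
-/

set_option autoImplicit false

namespace Pool.Agent.TWR.TRSAux

open Finset

/-- the sum of a periodic function over a period does not depend on the start -/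
lemma shift {n : ℕ} (F : ℕ → ℂ) (hF : ∀ t, F (t + n) = F t) (s : ℕ) :
    ∑ t ∈ range n, F (t + s) = ∑ t ∈ range n, F t := by
  induction s with
  | zero => simp
  | succ s ih =>
    rw [← ih]
    have h1 : ∑ t ∈ range (n + 1), F (t + s) = ∑ t ∈ range n, F (t + s) + F (n + s) :=
      Finset.sum_range_succ _ _
    have h2 : ∑ t ∈ range (n + 1), F (t + s) = ∑ t ∈ range n, F (t + 1 + s) + F (0 + s) :=
      Finset.sum_range_succ' _ _
    have h3 : F (n + s) = F (0 + s) := by rw [add_comm n s, hF, Nat.zero_add]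
    have h4 : ∑ t ∈ range n, F (t + 1 + s) = ∑ t ∈ range n, F (t + s) := by
      rw [h2, h3] at h1
      exact add_right_cancel h1
    rw [← h4]
    refine Finset.sum_congr rfl fun t _ => ?_
    congr 1
    omega

/-- the sum over the multiples of `a` below `a * b` -/
lemma mult (a : ℕ) (ha : 0 < a) (G : ℕ → ℂ) (b : ℕ) :
    ∑ t ∈ range (a * b), (if a ∣ t then G t else 0) = ∑ i ∈ range b, G (a * i) := by
  induction b with
  | zero => simp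
  | succ b ih =>
    rw [Nat.mul_succ, Finset.sum_range_add, ih, Finset.sum_range_succ]
    congr 1
    rw [Finset.sum_eq_single_of_mem 0 (Finset.mem_range.2 ha)]
    · simp
    · intro k hk hk0
      rw [if_neg]
      intro h
      have h1 : a ∣ k := (Nat.dvd_add_right (Dvd.intro b rfl)).1 h
      exact absurd (Nat.le_of_dvd (Nat.pos_of_ne_zero hk0) h1) (not_le.2 (Finset.mem_range.1 hk))

lemma val_root (V : ValuationSubring ℂ) (ξ : ℂ) (n : ℕ) (hn : n ≠ 0) (h : ξ ^ n = 1) :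
    V.valuation ξ = 1 := by
  have h1 : (V.valuation ξ) ^ n = 1 := by rw [← map_pow, h, map_one]
  exact (pow_eq_one_iff_of_nonneg zero_le hn).1 h1

end Pool.Agent.TWR.TRSAux

namespace Pool.Agent.TWR

open Finset TRSAux

theorem t_TRS : M_TRS := by
  intro hTRI V l m r q hl hm h2 hq1 hq2 hq vl K hF ξ hξ x hxK hper hsmall t0
  set n : ℕ := l ^ (m + r) with hn
  have hn0 : n ≠ 0 := pow_ne_zero _ hl.ne_zero
  have hξn : ξ ^ n = 1 := hξ.pow_eq_one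
  -- step 1
  have s1 : ∀ j : ℕ, V.valuation (∑ t ∈ range n, x t * ξ ^ (q ^ j * t)) < 1 := by
    intro j
    induction j with
    | zero => simpa using hsmall
    | succ j ih =>
      have h1 : (ξ ^ (q ^ j)) ^ n = 1 := by rw [← pow_mul, mul_comm, pow_mul, hξn, one_pow]
      have h3 := hF (ξ ^ (q ^ j)) h1 x hxK (by
        have : ∑ i ∈ range n, x i * (ξ ^ (q ^ j)) ^ i = ∑ t ∈ range n, x t * ξ ^ (q ^ j * t) :=
          Finset.sum_congr rfl fun t _ => by rw [← pow_mul]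
        rw [this]
        exact ih)
      have : ∑ i ∈ range n, x i * (ξ ^ (q ^ j)) ^ (q * i) =
          ∑ t ∈ range n, x t * ξ ^ (q ^ (j + 1) * t) :=
        Finset.sum_congr rfl fun t _ => by rw [← pow_mul, pow_succ, mul_assoc]
      rw [← this]
      exact h3
  -- step 2
  have vξ : V.valuation ξ = 1 := val_root V ξ n hn0 hξn
  obtain ⟨c, hc⟩ : ∃ c : ℕ, t0 + c = n * t0 :=
    ⟨n * t0 - t0, Nat.add_sub_cancel' (Nat.le_mul_of_pos_left t0 (Nat.pos_of_ne_zero hn0))⟩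
  have s2 : ∀ j : ℕ, V.valuation (∑ t ∈ range n, x t * (ξ ^ (t + c)) ^ (q ^ j)) < 1 := by
    intro j
    have h1 : ∑ t ∈ range n, x t * (ξ ^ (t + c)) ^ (q ^ j) =
        ξ ^ (q ^ j * c) * ∑ t ∈ range n, x t * ξ ^ (q ^ j * t) := by
      rw [Finset.mul_sum]
      refine Finset.sum_congr rfl fun t _ => ?_
      rw [← pow_mul]
      have : (t + c) * q ^ j = q ^ j * c + q ^ j * t := by ring
      rw [this, pow_add]
      ring
    rw [h1, map_mul, map_pow, vξ, one_pow, one_mul]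
    exact s1 j
  have s3 : V.valuation (∑ j ∈ range (l ^ r), ∑ t ∈ range n, x t * (ξ ^ (t + c)) ^ (q ^ j)) < 1 :=
    Valuation.map_sum_lt _ one_ne_zero fun j _ => s2 j
  have s4 : ∑ j ∈ range (l ^ r), ∑ t ∈ range n, x t * (ξ ^ (t + c)) ^ (q ^ j) =
      (l : ℂ) ^ r * ∑ t ∈ range n, (if l ^ r ∣ t + c then x t * ξ ^ (t + c) else 0) := by
    rw [Finset.sum_comm, Finset.mul_sum]
    refine Finset.sum_congr rfl fun t _ => ?_
    have h1 : (ξ ^ (t + c)) ^ (l ^ (m + r)) = 1 := by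
      rw [← hn, ← pow_mul, mul_comm, pow_mul, hξn, one_pow]
    rw [← Finset.mul_sum, hTRI l m r q hl hm h2 hq1 hq2 hq _ h1]
    have h3 : (ξ ^ (t + c)) ^ (l ^ m) = 1 ↔ l ^ r ∣ t + c := by
      rw [← pow_mul, hξ.pow_eq_one_iff_dvd, hn, pow_add, mul_comm (l ^ m) (l ^ r)]
      exact Nat.mul_dvd_mul_iff_right (pow_pos hl.pos m)
    by_cases h4 : l ^ r ∣ t + c
    · rw [if_pos (h3.2 h4), if_pos h4]
      ring
    · rw [if_neg (fun h => h4 (h3.1 h)), if_neg h4]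
      simp
  have s5 : V.valuation (∑ t ∈ range n, (if l ^ r ∣ t + c then x t * ξ ^ (t + c) else 0)) < 1 := by
    rw [s4, map_mul, map_pow, vl, one_pow, one_mul] at s3
    exact s3
  -- step 3
  have hrn : l ^ r ∣ n := by rw [hn, pow_add]; exact Dvd.intro_left _ rfl
  have s6 := shift (n := n) (fun t => if l ^ r ∣ t + c then x t * ξ ^ (t + c) else 0) (by
    intro t
    have h1 : l ^ r ∣ t + n + c ↔ l ^ r ∣ t + c := by
      have : t + n + c = n + (t + c) := by ring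
      rw [this]
      exact Nat.dvd_add_right hrn
    have h3 : ξ ^ (t + n + c) = ξ ^ (t + c) := by
      have : t + n + c = n + (t + c) := by ring
      rw [this, pow_add, hξn, one_mul]
    simp only [h1, h3, hper]) t0
  have s7 : ∑ t ∈ range n, (if l ^ r ∣ t + t0 + c then x (t + t0) * ξ ^ (t + t0 + c) else 0) =
      ∑ i ∈ range (l ^ m), ξ ^ (l ^ r * i) * x (t0 + l ^ r * i) := by
    have h1 : ∀ t ∈ range n, (if l ^ r ∣ t + t0 + c then x (t + t0) * ξ ^ (t + t0 + c) else 0) =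
        if l ^ r ∣ t then (ξ ^ t * x (t0 + t)) else 0 := by
      intro t _
      have h3 : t + t0 + c = n * t0 + t := by rw [add_assoc, hc, add_comm]
      have h4 : l ^ r ∣ n * t0 + t ↔ l ^ r ∣ t := Nat.dvd_add_right (Dvd.dvd.mul_right hrn t0)
      have h6 : ξ ^ (n * t0 + t) = ξ ^ t := by rw [pow_add, pow_mul, hξn, one_pow, one_mul]
      rw [h3, h6, add_comm t t0]
      simp only [h4, mul_comm (ξ ^ t)]
    rw [Finset.sum_congr rfl h1]
    have h5 : n = l ^ r * l ^ m := by rw [hn, pow_add, mul_comm]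
    rw [h5]
    exact mult (l ^ r) (pow_pos hl.pos r) (fun t => ξ ^ t * x (t0 + t)) (l ^ m)
  rw [← s7]
  have s8 : ∑ t ∈ range n, (if l ^ r ∣ t + t0 + c then x (t + t0) * ξ ^ (t + t0 + c) else 0) =
      ∑ t ∈ range n, (if l ^ r ∣ t + c then x t * ξ ^ (t + c) else 0) := s6
  rw [s8]
  exact s5

end Pool.Agent.TWR


end

section

/-!
# TWB: the twist of a CM symbol by an odd character modulo `p` is not zero modulo `p` on closed cycles; sums over characters of `l`-power conductor (MP_b78433_nt, Theorem C)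

Hypotheses: `MUXH.HypA` (`Pool/Agent/MUX/StHX.lean`) with `s = -1`, for a finite family, depleted at `l`.
Final statement `S_TWB`: for infinitely many `n`, for all members `i` of the family and all even `ψ` of
conductor `l^(n+j)`, `j < a`: `v(∑_b ∑_c ψ(b) w(c) P i 0 ∞ (b/l^(n+j) + c/p)) ≥ 1`.

Idea. `Q = P - P(-·)` is the odd part of the symbol, `B x y = ∑_(c mod p) w(c) Q(x + c/p, y + c/p)`, an
even symbol. If `B ∞ (g ∞)` were in the maximal ideal for all `g` in `Γ₁(L)`, then (`S_REL`)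
`(U_p Q)(∞, y) ≡ p Q(∞, y/p)` for these `y = g ∞`, and `U_p^h Q = a Q`, `v a = 1`, would give
`v(Q(∞, y)) < 1`, against Theorem G (`HypA.G`). Then `TWR.S_TW2` for the symbols `B`.

Module `XXX`: `theorem t_XXX : S_XXX` (or `M_XXX`: with other statements as hypotheses) in
`Pool/Agent/TWB/XXX.lean`. `mob` is `Pool.Agent.MuSym.mob`: `mob a b c d x = (a x + b)/(c x + d)`.
-/

set_option autoImplicit false

namespace Pool.Agent.TWB

open _root_.MU3 Pool.Agent.MuSym Pool.Agent.MUXH OnePoint Finset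

noncomputable section

/-- the twist of a symbol by a character modulo `p` -/
def Bt (p : ℕ) (w : DirichletCharacter ℂ p) (Q : OnePoint ℚ → OnePoint ℚ → ℂ)
    (x y : OnePoint ℚ) : ℂ :=
  ∑ c ∈ range p, w (c : ZMod p) * Q (mob p c 0 p x) (mob p c 0 p y)

/-- the points of `Γ₁(L) ∞` different from `∞` -/
def SS (L : ℕ) (x : ℚ) : Prop :=
  ∃ a c : ℤ, IsCoprime a c ∧ (L : ℤ) ∣ c ∧ (L : ℤ) ∣ a - 1 ∧ c ≠ 0 ∧ x = (a : ℚ) / c

/-- SET (110 lines), the points `Γ₁(L) ∞`. Proof. (i) `a d - b c = 1`, `L ∣ c`, `L ∣ d - 1`: `a` and `c` are coprime,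
`a - 1 = b c - a (d - 1)`. (ii) `a`, `c` coprime: `a d - b c = 1` for some `b`, `d`; `d - 1 = b c - d (a - 1)` is
divisible by `L`. (iii) `x = a/c`: `(x + t)/p^j = (a + t c)/(p^j c)`; `a + t c` is prime to `c`, so to `p` (`p ∣ L ∣ c`), so to
`p^j c`; `L ∣ a + t c - 1`. (iv) `x + t/p = (a + t c1 p)/c`, `c = p² c1`, `L ∣ c1`: a prime divisor of `c` and
`a + t c1 p` divides `p c1` (as `c = p · p c1`), so `a`: impossible (or: `IsCoprime (a + t c1 p) (p c1)` and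
`c ∣ (p c1)²`); `L ∣ a + t c1 p - 1`. (v) clear. -/
def S_SET : Prop := ∀ (L : ℕ), L ≠ 0 →
  (∀ a b c d : ℤ, a * d - b * c = 1 → (L : ℤ) ∣ c → (L : ℤ) ∣ d - 1 → c ≠ 0 →
    SS L ((a : ℚ) / c)) ∧
  (∀ x : ℚ, SS L x → ∃ a b c d : ℤ, a * d - b * c = 1 ∧ (L : ℤ) ∣ c ∧ (L : ℤ) ∣ d - 1 ∧ c ≠ 0 ∧
    x = (a : ℚ) / c) ∧
  (∀ (p : ℕ), p.Prime → p ∣ L → ∀ (x : ℚ) (t : ℤ) (j : ℕ), SS L x → SS L ((x + t) / (p : ℚ) ^ j)) ∧
  (∀ (p : ℕ), p.Prime → ∀ (x : ℚ) (t : ℤ), SS (L * p ^ 2) x → SS L (x + (t : ℚ) / p)) ∧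
  (∀ (L' : ℕ) (x : ℚ), L ∣ L' → SS L' x → SS L x)

/-- SYM (130 lines), the twist is a symbol. Proof. `add` is clear. Let `a d - b c = 1`, `N p² ∣ c`. For `t ∈ ℤ`
let `t' = t d²` and `a1 = a + t c/p`, `d1 = d - c t'/p`, `b1 = b + (t d - t' a)/p - t t' c/p²` (integers: `p² ∣ c` and
`t d - t d² a = - t d b c`). Then `a1 d1 - b1 c = 1` and `mob p t 0 p (mob a b c d x) = mob a1 b1 c d1 (mob p t' 0 p x)` for
all `x` in `OnePoint ℚ` (check `∞` (`c = 0` or not) and the points with `c r + d = 0` separately). `N ∣ c` and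
`d1 ≡ d` modulo `N` (`N p ∣ c`), so the term `t` is `w(t) nu(d) Q(x + t'/p, y + t'/p)`. `d` is prime to `p`
(`p ∣ c`), `w(t) = w(t') w⁻¹(d)²`, the function `t' ↦ w(t') Q(mob p t' 0 p x)(mob p t' 0 p y)` has period `p`
(`mob p (t + p) 0 p x = mob 1 1 0 1 (mob p t 0 p x)`, `nu 1 = 1`), and `t ↦ t d²` permutes the classes. -/
def S_SYM : Prop := ∀ (p : ℕ) (_ : p.Prime) (N : ℕ) (_ : N ≠ 0) (nu : ℤ → ℂ) (_ : nu 1 = 1)
  (_ : ∀ d d' : ℤ, (N : ℤ) ∣ d - d' → nu d = nu d') (Q : OnePoint ℚ → OnePoint ℚ → ℂ)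
  (_ : IsSym N nu Q) (w : DirichletCharacter ℂ p),
  IsSym (N * p ^ 2) (fun d => nu d * (w⁻¹ (d : ZMod p)) ^ 2) (Bt p w Q)

/-- REL (120 lines). Proof. Let `F u = W (x + u/p)`, `u ∈ ℤ`: it has period `p`. The left side is
`∑_s w⁻¹(s) ∑_c w(c) F(s + c) = ∑_u (∑_s w⁻¹(s) w(u - s)) F(u)` (sums over `ZMod p`; `F` as a function on `ZMod p`).
For `u = 0`: `w⁻¹(s) w(-s) = w(-1) = -1` for `s ≠ 0`: the inner sum is `-(p - 1)`. For `u ≠ 0`: put `s = u s'`: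
`w⁻¹(s) w(u - s) = w⁻¹(s') w(1 - s') = w(1/s' - 1)` for `s' ≠ 0`, and `1/s' - 1` runs through all classes except
`-1`: the inner sum is `∑_t w(t) - w(-1) = 0 + 1` (`w` is nontrivial: `w(-1) = -1 ≠ 1`;
`MulChar.sum_eq_zero_of_ne_one`). -/
def S_REL : Prop := ∀ (p : ℕ) (_ : p.Prime) (w : DirichletCharacter ℂ p) (_ : w (-1) = -1)
  (W : ℚ → ℂ) (_ : ∀ x, W (x + 1) = W x) (x : ℚ),
  ∑ s ∈ range p, w⁻¹ (s : ZMod p) * ∑ c ∈ range p, w (c : ZMod p) * W (x + (s : ℚ) / p + (c : ℚ) / p) =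
    ∑ u ∈ range p, W (x + (u : ℚ) / p) - p * W x

/-- H1G (90 lines), Theorem G for the part `s`, for every level. Proof. This is the proof of `tx_H1` in
`Pool/Agent/MUX/HX_H1.lean` (copy it), with `N'` in place of `p^(s₀+1) N₀`: let `N'` be a nonzero multiple of
`p^(s₀+1) N₀`, suppose `v(sgnPart s (P 0) ∞ (g ∞)) < 1` for all `g` in `Γ₁(N')`; `q`, `c` from `prj`, `g` from `G` for
`N' q²`; `P 0 ∞ (g ∞) = ∑_t c_t sgnPart s (P 0) (T_t ∞) (T_t g ∞)`, `T_t = mob q t 0 q`, `T_t ∞ = ∞`,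
`T_t g ∞ = g' ∞`, `g' = T_t g T_t⁻¹` in `Γ₁(N')`. -/
def S_H1G : Prop := ∀ (p : ℕ) (V : ValuationSubring ℂ) (N₀ s₀ h : ℕ) (a : ℂ) (nu : ℤ → ℂ)
  (P : ℕ → OnePoint ℚ → OnePoint ℚ → ℂ) (s : ℤ) (_ : HypA p V N₀ s₀ h a nu P s)
  (N' : ℕ) (_ : N' ≠ 0) (_ : p ^ (s₀ + 1) * N₀ ∣ N'),
  ∃ α β γ δ : ℤ, α * δ - β * γ = 1 ∧ (N' : ℤ) ∣ γ ∧ (N' : ℤ) ∣ δ - 1 ∧
    1 ≤ V.valuation (sgnPart (s : ℂ) (P 0) ∞ (mob α β γ δ ∞))

/-- NUA (50 lines). Proof. `nu d ^ k = nu (d ^ k)` (`k ≥ 1`), and `nu` has only finitely many values (period `p N₀`),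
so `nu d ^ k = nu d ^ k'` for some `1 ≤ k < k'`: `nu d` is `0` or a root of unity. -/
def S_NUA : Prop := ∀ (p : ℕ) (V : ValuationSubring ℂ) (N₀ s₀ h : ℕ) (a : ℂ) (nu : ℤ → ℂ)
  (P : ℕ → OnePoint ℚ → OnePoint ℚ → ℂ) (s : ℤ) (_ : HypA p V N₀ s₀ h a nu P s) (d : ℤ),
  IsAlgebraic ℚ (nu d)

/-- UPR (110 lines), the relation for `U_p`. Let `W x = sgnPart (-1) (P 0) ∞ x`, `W1 x = sgnPart (-1) (P 1) ∞ x`.
Proof. By `Sx_HK` (iii) with `hec`, `nup`: `sgnPart (-1) (P (i+1)) ∞ r = ∑_(j<p) sgnPart (-1) (P i) ∞ ((r+j)/p)`. (1) is the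
case `i = 0`. By induction on `k`: `sgnPart (-1) (P (k+1)) ∞ r = ∑_(j < p^k) W1 ((r + j)/p^k)` (`j = j0 + p^(k-1)..`: `r ↦ (r + j0)/p` in
the sum for `k`: `((r + j0)/p + j1)/p^k = (r + j0 + p j1)/p^(k+1)`, `j0 + p j1` runs through `range (p^(k+1))`). Take `k = h - 1` and
`per`: (2). -/
def S_UPR : Prop := ∀ (p : ℕ) (V : ValuationSubring ℂ) (N₀ s₀ h : ℕ) (a : ℂ) (nu : ℤ → ℂ)
  (P : ℕ → OnePoint ℚ → OnePoint ℚ → ℂ) (_ : HypA p V N₀ s₀ h a nu P (-1)),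
  (∀ x : ℚ, ∑ j ∈ range p, sgnPart (-1) (P 0) ∞ (((x + j) / p : ℚ) : OnePoint ℚ) =
    sgnPart (-1) (P 1) ∞ (x : OnePoint ℚ)) ∧
  (∀ x : ℚ, ∑ j ∈ range (p ^ (h - 1)),
    sgnPart (-1) (P 1) ∞ (((x + j) / (p : ℚ) ^ (h - 1) : ℚ) : OnePoint ℚ) =
      a * sgnPart (-1) (P 0) ∞ (x : OnePoint ℚ))

def M_UPR : Prop := Sx_HK → S_UPR

/-- NB (200 lines), the twist is not zero on closed cycles. Proof. Let `W x = sgnPart (-1) (P 0) ∞ x` (period 1: `Sx_HK` (i)), `L = N'`,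
and suppose `v(Bt ∞ (g ∞)) < 1` for all `g` in `Γ₁(L)`: so `v(∑_c w(c) W(y + c/p)) < 1` for `SS L y` (`SET` (ii);
`mob p c 0 p ∞ = ∞`, `mob p c 0 p y = y + c/p`). For `SS (L p²) y`: `SS L (y + s/p)` (`SET` (iv)), so by `REL` (and `v(w⁻¹ s) ≤ 1`, a
root of unity or `0`) `v(∑_(u<p) W(y + u/p) - p W y) < 1`. For `SS (L p²) x`: `y = x/p` has `SS (L p²) y` (`SET` (iii)), so
with `W1 = sgnPart (-1) (P 1) ∞`: `v(W1 x - p W(x/p)) < 1` (`UPR` (1)). `UPR` (2): `a W x = ∑_(j < p^(h-1)) W1 ((x+j)/p^(h-1))`, all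
points `x_j = (x+j)/p^(h-1)` have `SS (L p²) x_j`, so `v(a W x - p ∑_j W(x_j/p)) < 1`, with `SS (L p²) (x_j/p)`. By `Sx_BD` and `Sx_HK`
there is `k` with `v(p^k W x) ≤ 1` for all `x`. Claim: `v(p^e W x) < 1` for all `x` with `SS (L p²) x` and all
`e ≥ 0`. For `e = k + 1` clear (`v p < 1`). If it holds for `e + 1` (for all such `x`) then
`v(p^e a W x) ≤ max(v(p^e) v(a W x - p ∑ ..), v(∑_j p^(e+1) W(x_j/p))) < 1`, and `v a = 1`. So `v(W x) < 1` for all `x` with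
`SS (L p²) x`. Against `H1G` for `L p²` (`γ ≠ 0` there: otherwise the value is `sgnPart ∞ ∞ = 0`; `SET` (i)). -/
def S_NB : Prop := ∀ (p : ℕ) (V : ValuationSubring ℂ) (N₀ s₀ h : ℕ) (a : ℂ) (nu : ℤ → ℂ)
  (P : ℕ → OnePoint ℚ → OnePoint ℚ → ℂ) (_ : HypA p V N₀ s₀ h a nu P (-1))
  (w : DirichletCharacter ℂ p) (_ : w (-1) = -1) (N' : ℕ) (_ : N' ≠ 0)
  (_ : p ^ (s₀ + 1) * N₀ ∣ N'),
  ∃ α β γ δ : ℤ, α * δ - β * γ = 1 ∧ (N' : ℤ) ∣ γ ∧ (N' : ℤ) ∣ δ - 1 ∧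
    1 ≤ V.valuation (Bt p w (sgnPart (-1) (P 0)) ∞ (mob α β γ δ ∞))

def M_NB : Prop := Sx_HK → Sx_BD → S_SET → S_REL → S_H1G → S_UPR → S_NB

/-- TWB (200 lines). Proof. `TWR.S_TW2` for `N = p^(s₀+1) N₀ p²`, `nu' i d = nu i d * (w⁻¹ d)²`, `P' i = Bt p w (sgnPart (-1) (P i 0))`.
`v(nu' i d) ≤ 1`, `nu' i 1 = 1`, period `N` (`p N₀ ∣ N`, `p ∣ N`), algebraic (`NUA`; `w⁻¹ d` is `0` or a root of unity). `IsSym`: `SYM` with
`Sx_HK` (ii). `P' i ∞ x = ∑_c w(c) W(x + c/p)`, `W x = P i 0 ∞ x - P i 0 ∞ (-x)`: algebraic (`HypA.alg`). Even: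
`W(-x + c/p) = - W(x - c/p)`, `w(c) = - w(-c)`, and `c ↦ -c` permutes the classes (`W` has period 1: `Sx_HK` (i)). Depleted: `∑_k W(x + c/p + k/l) = 0`: the
hypothesis at `x + c/p`, and at `-x - c/p - (l-1)/l`.. (`-(x + k/l) = (-x - 1) + (l - k)/l`, period 1: the sum over `k` of
`P i 0 ∞ (-(x + k/l))` is the sum over `k` of `P i 0 ∞ (-x + k/l)`). Closed cycles: `NB`. Conclusion of `TW2` for `ψ`:
`1 ≤ v(∑_b ψ(b) ∑_c w(c) W(b/l^n + c/p))`, and this sum is `S - S'`, `S = ∑_b ∑_c ψ(b) w(c) P i 0 ∞ (b/l^n + c/p)`,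
`S' = ∑_b ∑_c ψ(b) w(c) P i 0 ∞ (-b/l^n - c/p)`. The substitution `b ↦ -b`, `c ↦ -c` (period 1, `ψ(-1) = 1`, `w(-1) = -1`) gives `S' = -S`. So
`1 ≤ v(2 S) ≤ v(S)`. (`2 < p`: `w(-1) = -1` excludes nothing needed; `v 2 ≤ 1` always.) -/
def S_TWB : Prop := ∀ (l g h' : ℕ) (_ : TWR.Gen l g h') (V : ValuationSubring ℂ) (p : ℕ)
  (_ : 5 ≤ p) (I : Type) [Finite I] (N₀ s₀ : ℕ) (h : I → ℕ) (a : I → ℂ) (nu : I → ℤ → ℂ)
  (P : I → ℕ → OnePoint ℚ → OnePoint ℚ → ℂ)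
  (_ : ∀ i, HypA p V N₀ s₀ (h i) (a i) (nu i) (P i) (-1))
  (_ : ∀ i (x : ℚ), ∑ k ∈ range l, P i 0 ∞ ((x + (k : ℚ) / l : ℚ) : OnePoint ℚ) = 0)
  (w : DirichletCharacter ℂ p) (_ : w (-1) = -1) (r : ℕ) (_ : 1 ≤ r) (n0 : ℕ),
  ∃ n ≥ n0, ∀ j < r, ∀ i, ∀ ψ : DirichletCharacter ℂ (l ^ (n + j)), ψ (-1) = 1 →
    ψ (1 + (l : ZMod (l ^ (n + j))) ^ (n + j - 1)) ≠ 1 →
    1 ≤ V.valuation (∑ b ∈ range (l ^ (n + j)), ∑ c ∈ range p, ψ b * w (c : ZMod p) *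
      P i 0 ∞ (((b : ℚ) / (l : ℚ) ^ (n + j) + (c : ℚ) / p : ℚ) : OnePoint ℚ))

def M_TWB : Prop := TWR.S_TW2 → Sx_HK → S_SYM → S_NUA → S_NB → S_TWB

end

end Pool.Agent.TWB


end

section

/-!
# TWB, module TWB (helper88): from `TWR.S_TW2` to the block twist
-/

set_option autoImplicit false

namespace Pool.Agent.TWB

open _root_.MU3 Pool.Agent.MuSym Pool.Agent.MUXH OnePoint Finset

noncomputable section

namespace TWBAux

lemma sum_neg (m : ℕ) (F : ℤ → ℂ) (hF : ∀ x, F (x + m) = F x) :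
    ∑ c ∈ range m, F (-(c : ℤ)) = ∑ c ∈ range m, F (c : ℤ) := by
  cases m with
  | zero => simp
  | succ k =>
    rw [sum_range_succ', sum_range_succ']
    congr 1
    rw [← sum_range_reflect]
    refine sum_congr rfl fun c hc => ?_
    have h1 : c < k := mem_range.1 hc
    have h2 := hF (-((k - 1 - c + 1 : ℕ) : ℤ))
    rw [← h2]
    congr 1
    push_cast
    omega

lemma chi_root (p : ℕ) [NeZero p] (χ : DirichletCharacter ℂ p) (x : ZMod p) :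
    χ x = 0 ∨ ∃ n : ℕ, 0 < n ∧ χ x ^ n = 1 := by
  by_cases hx : IsUnit x
  · right
    obtain ⟨u, rfl⟩ := hx
    refine ⟨Fintype.card (ZMod p)ˣ, Fintype.card_pos, ?_⟩
    rw [← map_pow, ← Units.val_pow_eq_pow_val, pow_card_eq_one, Units.val_one, map_one]
  · left
    exact χ.map_nonunit hx

lemma chi_val (V : ValuationSubring ℂ) (p : ℕ) [NeZero p] (χ : DirichletCharacter ℂ p)
    (x : ZMod p) : V.valuation (χ x) ≤ 1 := by
  rcases chi_root p χ x with h | ⟨n, hn, h⟩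
  · rw [h, map_zero]
    exact zero_le_one
  · by_contra hc
    have hc' : 1 < V.valuation (χ x) := not_le.1 hc
    have h1 := one_lt_pow₀ hc' hn.ne'
    rw [← map_pow, h, map_one] at h1
    exact lt_irrefl _ h1

lemma chi_alg (p : ℕ) [NeZero p] (χ : DirichletCharacter ℂ p) (x : ZMod p) :
    IsAlgebraic ℚ (χ x) := by
  rcases chi_root p χ x with h | ⟨n, hn, h⟩
  · rw [h]
    exact isAlgebraic_zero
  · refine IsAlgebraic.of_pow hn ?_
    rw [h]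
    exact isAlgebraic_one

lemma alg_sum (s : Finset ℕ) (f : ℕ → ℂ) (hf : ∀ c, IsAlgebraic ℚ (f c)) :
    IsAlgebraic ℚ (∑ c ∈ s, f c) := by
  have h : ∑ c ∈ s, f c ∈ Subalgebra.algebraicClosure ℚ ℂ := sum_mem fun c _ => hf c
  exact h

lemma mob_inf (a b d : ℤ) : mob a b 0 d ∞ = ∞ := by
  simp [mob]

lemma mob_tr (p : ℕ) (hp : p ≠ 0) (c : ℕ) (x : ℚ) :
    mob (p : ℤ) (c : ℤ) 0 (p : ℤ) (x : OnePoint ℚ) = ((x + (c : ℚ) / p : ℚ) : OnePoint ℚ) := by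
  have hp' : (p : ℚ) ≠ 0 := Nat.cast_ne_zero.2 hp
  have h1 : mob (p : ℤ) (c : ℤ) 0 (p : ℤ) (x : OnePoint ℚ) =
      ((((p : ℚ) * x + c) / p : ℚ) : OnePoint ℚ) := by
    simp [mob, hp]
  rw [h1]
  congr 1
  field_simp

lemma mob_ng (x : ℚ) : mob (-1) 0 0 1 (x : OnePoint ℚ) = ((-x : ℚ) : OnePoint ℚ) := by
  simp [mob]

/-- the odd part on the paths from infinity -/
lemma sgn_inf (P : OnePoint ℚ → OnePoint ℚ → ℂ) (y : ℚ) :
    sgnPart (-1) P ∞ (y : OnePoint ℚ) = P ∞ (y : OnePoint ℚ) - P ∞ ((-y : ℚ) : OnePoint ℚ) := by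
  unfold sgnPart
  rw [mob_inf, mob_ng]
  ring

lemma Bt_inf (p : ℕ) (hp : p ≠ 0) (w : DirichletCharacter ℂ p)
    (Q : OnePoint ℚ → OnePoint ℚ → ℂ) (x : ℚ) :
    Bt p w Q ∞ (x : OnePoint ℚ) =
      ∑ c ∈ range p, w (c : ZMod p) * Q ∞ ((x + (c : ℚ) / p : ℚ) : OnePoint ℚ) := by
  unfold Bt
  refine sum_congr rfl fun c _ => ?_
  rw [mob_inf, mob_tr p hp]

/-- translations -/
lemma tr_P (hk : Sx_HK) (N' : ℕ) (nu : ℤ → ℂ) (P : OnePoint ℚ → OnePoint ℚ → ℂ)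
    (hs : IsSym N' nu P) (h1 : nu 1 = 1) (r : ℚ) (k : ℤ) :
    P ∞ ((r + k : ℚ) : OnePoint ℚ) = P ∞ (r : OnePoint ℚ) := by
  have h := (hk 1 le_rfl N' nu P P hs h1 0).1 r k
  simpa [sgnPart] using h

/-- the symbol in the direction `-y`: the substitution `c ↦ -c` -/
lemma sum_w (p : ℕ) (hp : p ≠ 0) (w : DirichletCharacter ℂ p) (hw : w (-1) = -1) (U : ℚ → ℂ)
    (hU : ∀ (r : ℚ) (k : ℤ), U (r + k) = U r) (x : ℚ) :
    ∑ c ∈ range p, w (c : ZMod p) * U (x - (c : ℚ) / p) =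
      - ∑ c ∈ range p, w (c : ZMod p) * U (x + (c : ℚ) / p) := by
  have hp' : (p : ℚ) ≠ 0 := Nat.cast_ne_zero.2 hp
  have h := sum_neg p (fun c => w ((c : ℤ) : ZMod p) * U (x + (c : ℚ) / p)) (by
    intro c
    have e1 : (((c + p : ℤ)) : ZMod p) = ((c : ℤ) : ZMod p) := by simp
    have e2 : x + ((c + p : ℤ) : ℚ) / p = (x + (c : ℚ) / p) + ((1 : ℤ) : ℚ) := by
      push_cast
      field_simp
      ring
    simp only [e1, e2, hU])
  have h3 : ∑ c ∈ range p, w (((-(c : ℤ) : ℤ)) : ZMod p) * U (x + ((-(c : ℤ) : ℤ) : ℚ) / p) =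
      - ∑ c ∈ range p, w (c : ZMod p) * U (x - (c : ℚ) / p) := by
    rw [← sum_neg_distrib]
    refine sum_congr rfl fun c _ => ?_
    have e1 : (((-(c : ℤ) : ℤ)) : ZMod p) = (-1) * (c : ZMod p) := by
      push_cast
      ring
    have e2 : x + ((-(c : ℤ) : ℤ) : ℚ) / p = x - (c : ℚ) / p := by
      push_cast
      ring
    rw [e1, map_mul, hw, e2]
    ring
  simp only [Int.cast_natCast] at h
  rw [← h]
  rw [h3]
  ring

end TWBAux

open _root_.Pool.Agent.TWB.TWBAux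

theorem t_TWB : M_TWB := by
  intro tw2 hk hsym hnua hnb l g h' hG V p hp5 I _ N₀ s₀ h a nu P hyp hdep w hw r hr n0
  rcases isEmpty_or_nonempty I with hI | ⟨⟨i₀⟩⟩
  · exact ⟨n0, le_rfl, fun j _ i => (hI.false i).elim⟩
  have hpp : p.Prime := (hyp i₀).pp
  have hp0 : p ≠ 0 := hpp.ne_zero
  have _nz : NeZero p := ⟨hp0⟩
  have hN1 : p ^ (s₀ + 1) * N₀ ≠ 0 := mul_ne_zero (pow_ne_zero _ hp0) (hyp i₀).N0
  have hN : p ^ (s₀ + 1) * N₀ * p ^ 2 ≠ 0 := mul_ne_zero hN1 (pow_ne_zero _ hp0)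
  have hdvd1 : ((p * N₀ : ℕ) : ℤ) ∣ ((p ^ (s₀ + 1) * N₀ : ℕ) : ℤ) := by
    refine Int.natCast_dvd_natCast.2 (Nat.mul_dvd_mul_right (dvd_pow_self p (Nat.succ_ne_zero _)) N₀)
  have hper1 : ∀ i (d d' : ℤ), ((p ^ (s₀ + 1) * N₀ : ℕ) : ℤ) ∣ d - d' → nu i d = nu i d' :=
    fun i d d' hd => (hyp i).nuper d d' (hdvd1.trans hd)
  have hS : ∀ i, IsSym (p ^ (s₀ + 1) * N₀) (nu i) (sgnPart (-1) (P i 0)) := fun i =>
    (hk 1 le_rfl _ (nu i) (P i 0) (P i 0) ((hyp i).sym 0) (hyp i).nu1 (-1)).2.1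
  have hW : ∀ i (y : ℚ) (k : ℤ), sgnPart (-1) (P i 0) ∞ ((y + k : ℚ) : OnePoint ℚ) =
      sgnPart (-1) (P i 0) ∞ (y : OnePoint ℚ) := fun i =>
    (hk 1 le_rfl _ (nu i) (P i 0) (P i 0) ((hyp i).sym 0) (hyp i).nu1 (-1)).1
  have hPt : ∀ i (y : ℚ) (k : ℤ), P i 0 ∞ ((y + k : ℚ) : OnePoint ℚ) =
      P i 0 ∞ (y : OnePoint ℚ) := fun i y k =>
    tr_P hk _ (nu i) (P i 0) ((hyp i).sym 0) (hyp i).nu1 y k
  have hodd : ∀ i (y : ℚ), sgnPart (-1) (P i 0) ∞ ((-y : ℚ) : OnePoint ℚ) =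
      - sgnPart (-1) (P i 0) ∞ (y : OnePoint ℚ) := by
    intro i y
    rw [sgn_inf, sgn_inf, neg_neg]
    ring
  obtain ⟨n, hn, hfin⟩ := tw2 l g h' hG V p hpp hp5 (hyp i₀).vp I (p ^ (s₀ + 1) * N₀ * p ^ 2) hN
    (fun i d => nu i d * (w⁻¹ (d : ZMod p)) ^ 2)
    (by
      intro i d
      rw [map_mul, map_pow]
      exact mul_le_one' ((hyp i).nuv d) (pow_le_one' (chi_val V p w⁻¹ _) 2))
    (by
      intro i
      simp [(hyp i).nu1])
    (by
      intro i d d' hd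
      have e1 : nu i d = nu i d' := hper1 i d d' (Dvd.dvd.trans (by
        push_cast
        exact Dvd.intro _ rfl) hd)
      have e2 : (d : ZMod p) = (d' : ZMod p) := by
        rw [ZMod.intCast_eq_intCast_iff_dvd_sub]
        refine (dvd_sub_comm).1 (Dvd.dvd.trans ?_ hd)
        push_cast
        exact Dvd.dvd.mul_left (dvd_pow_self _ two_ne_zero) _
      simp only [e1, e2])
    (by
      intro i d
      exact (hnua p V N₀ s₀ (h i) (a i) (nu i) (P i) (-1) (hyp i) d).mul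
        ((chi_alg p w⁻¹ _).pow 2))
    (fun i => Bt p w (sgnPart (-1) (P i 0)))
    (fun i => hsym p hpp _ hN1 (nu i) (hyp i).nu1 (hper1 i) _ (hS i) w)
    (by
      intro i x
      rw [Bt_inf p hp0]
      refine alg_sum _ _ fun c => ?_
      rw [sgn_inf]
      exact (chi_alg p w _).mul (((hyp i).alg _ _).sub ((hyp i).alg _ _)))
    (by
      intro i x
      rw [Bt_inf p hp0, Bt_inf p hp0]
      have h1 := sum_w p hp0 w hw (fun y : ℚ => sgnPart (-1) (P i 0) ∞ (y : OnePoint ℚ)) (hW i) x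
      have h2 : ∑ c ∈ range p, w (c : ZMod p) *
          sgnPart (-1) (P i 0) ∞ ((-x + (c : ℚ) / p : ℚ) : OnePoint ℚ) =
          - ∑ c ∈ range p, w (c : ZMod p) *
            sgnPart (-1) (P i 0) ∞ ((x - (c : ℚ) / p : ℚ) : OnePoint ℚ) := by
        rw [← sum_neg_distrib]
        refine sum_congr rfl fun c _ => ?_
        have e : (-x + (c : ℚ) / p : ℚ) = -(x - (c : ℚ) / p) := by ring
        rw [e, hodd]
        ring
      rw [h2, h1, neg_neg])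
    (by
      intro i x
      simp only [Bt_inf p hp0]
      rw [sum_comm]
      refine sum_eq_zero fun c _ => ?_
      rw [← mul_sum]
      have h0 : ∑ k ∈ range l, sgnPart (-1) (P i 0) ∞
          ((x + (k : ℚ) / l + (c : ℚ) / p : ℚ) : OnePoint ℚ) = 0 := by
        simp only [sgn_inf]
        rw [sum_sub_distrib]
        have h1 : ∑ k ∈ range l, P i 0 ∞ ((x + (k : ℚ) / l + (c : ℚ) / p : ℚ) : OnePoint ℚ) = 0 := by
          have := hdep i (x + (c : ℚ) / p)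
          rw [← this]
          refine sum_congr rfl fun k _ => ?_
          rw [show x + (k : ℚ) / l + (c : ℚ) / p = x + (c : ℚ) / p + (k : ℚ) / l by ring]
        have h2 : ∑ k ∈ range l, P i 0 ∞
            ((-(x + (k : ℚ) / l + (c : ℚ) / p) : ℚ) : OnePoint ℚ) = 0 := by
          have := hdep i (-(x + (c : ℚ) / p) - ((l : ℚ) - 1) / l)
          rw [← this, ← sum_range_reflect]
          refine sum_congr rfl fun k hk' => ?_
          have hkl : k < l := mem_range.1 hk'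
          have hc : ((l - 1 - k : ℕ) : ℚ) = (l : ℚ) - 1 - k := by
            rw [Nat.cast_sub (by omega), Nat.cast_sub (by omega)]
            simp
          rw [hc]
          congr 2
          ring
        rw [h1, h2, sub_zero]
      rw [h0, mul_zero])
    (by
      intro i N' hN' hd
      exact hnb p V N₀ s₀ (h i) (a i) (nu i) (P i) (hyp i) w hw N' hN'
        ((Dvd.intro _ rfl).trans hd))
    r hr n0
  refine ⟨n, hn, fun j hj i ψ hψ1 hψ2 => ?_⟩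
  have hv := hfin j hj i ψ hψ1 hψ2
  have hm0 : l ^ (n + j) ≠ 0 := by
    rcases hG with ⟨hl, -, -⟩ | ⟨hl, -, -⟩ <;> rw [hl] <;> positivity
  have hm0' : ((l ^ (n + j) : ℕ) : ℚ) ≠ 0 := Nat.cast_ne_zero.2 hm0
  -- the sum of the odd part
  set S : ℂ := ∑ b ∈ range (l ^ (n + j)), ∑ c ∈ range p, ψ b * w (c : ZMod p) *
      P i 0 ∞ (((b : ℚ) / (l : ℚ) ^ (n + j) + (c : ℚ) / p : ℚ) : OnePoint ℚ) with hSdef
  have hS' : ∑ b ∈ range (l ^ (n + j)), ∑ c ∈ range p, ψ b * w (c : ZMod p) *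
      P i 0 ∞ ((-((b : ℚ) / (l : ℚ) ^ (n + j) + (c : ℚ) / p) : ℚ) : OnePoint ℚ) = - S := by
    have hin : ∀ b : ℕ, ∑ c ∈ range p, ψ b * w (c : ZMod p) *
        P i 0 ∞ ((-((b : ℚ) / (l : ℚ) ^ (n + j) + (c : ℚ) / p) : ℚ) : OnePoint ℚ) =
        - ∑ c ∈ range p, ψ b * w (c : ZMod p) *
          P i 0 ∞ ((-((b : ℚ) / (l : ℚ) ^ (n + j)) + (c : ℚ) / p : ℚ) : OnePoint ℚ) := by
      intro b
      have h1 := sum_w p hp0 w hw (fun y : ℚ => P i 0 ∞ (y : OnePoint ℚ)) (hPt i)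
        (-((b : ℚ) / (l : ℚ) ^ (n + j)))
      have h2 := congrArg (fun z => ψ b * z) h1
      simp only [mul_neg, mul_sum] at h2
      simp only [mul_assoc]
      rw [← h2]
      refine sum_congr rfl fun c _ => ?_
      congr 3
      congr 1
      ring
    rw [sum_congr rfl fun b _ => hin b, sum_neg_distrib, hSdef]
    congr 1
    have h := sum_neg (l ^ (n + j)) (fun b : ℤ => ∑ c ∈ range p,
      ψ ((b : ℤ) : ZMod (l ^ (n + j))) * w (c : ZMod p) *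
      P i 0 ∞ (((b : ℚ) / (l : ℚ) ^ (n + j) + (c : ℚ) / p : ℚ) : OnePoint ℚ)) (by
      intro b
      have e1 : (((b + (l ^ (n + j) : ℕ) : ℤ)) : ZMod (l ^ (n + j))) =
          ((b : ℤ) : ZMod (l ^ (n + j))) := by
        rw [Int.cast_add, Int.cast_natCast, ZMod.natCast_self, add_zero]
      have e2 : ∀ c : ℕ, ((b + (l ^ (n + j) : ℕ) : ℤ) : ℚ) / (l : ℚ) ^ (n + j) + (c : ℚ) / p =
          ((b : ℚ) / (l : ℚ) ^ (n + j) + (c : ℚ) / p) + ((1 : ℤ) : ℚ) := by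
        intro c
        have hl' : (l : ℚ) ^ (n + j) ≠ 0 := by
          have := hm0'
          push_cast at this
          exact this
        have : ((b + (l ^ (n + j) : ℕ) : ℤ) : ℚ) / (l : ℚ) ^ (n + j) =
            (b : ℚ) / (l : ℚ) ^ (n + j) + 1 := by
          push_cast
          rw [add_div, div_self hl']
        rw [this]
        push_cast
        ring
      refine sum_congr rfl fun c _ => ?_
      rw [e1, e2, hPt])
    simp only [Int.cast_natCast] at h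
    rw [← h]
    refine sum_congr rfl fun b _ => ?_
    refine sum_congr rfl fun c _ => ?_
    have e1 : ψ (((-(b : ℤ) : ℤ)) : ZMod (l ^ (n + j))) = ψ (b : ZMod (l ^ (n + j))) := by
      rw [show (((-(b : ℤ) : ℤ)) : ZMod (l ^ (n + j))) = (-1) * (b : ZMod (l ^ (n + j))) by
        push_cast; ring, map_mul, hψ1, one_mul]
    have e2 : ((-(b : ℤ) : ℤ) : ℚ) / (l : ℚ) ^ (n + j) + (c : ℚ) / p =
        -((b : ℚ) / (l : ℚ) ^ (n + j)) + (c : ℚ) / p := by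
      push_cast
      ring
    rw [e1, e2]
  have hsum : ∑ b ∈ range (l ^ (n + j)), ψ b *
      Bt p w (sgnPart (-1) (P i 0)) ∞ (((b : ℚ) / (l : ℚ) ^ (n + j) : ℚ) : OnePoint ℚ) = 2 * S := by
    have h1 : ∀ b : ℕ, ψ b *
        Bt p w (sgnPart (-1) (P i 0)) ∞ (((b : ℚ) / (l : ℚ) ^ (n + j) : ℚ) : OnePoint ℚ) =
        ∑ c ∈ range p, ψ b * w (c : ZMod p) *
          P i 0 ∞ (((b : ℚ) / (l : ℚ) ^ (n + j) + (c : ℚ) / p : ℚ) : OnePoint ℚ) -
        ∑ c ∈ range p, ψ b * w (c : ZMod p) *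
          P i 0 ∞ ((-((b : ℚ) / (l : ℚ) ^ (n + j) + (c : ℚ) / p) : ℚ) : OnePoint ℚ) := by
      intro b
      rw [Bt_inf p hp0, mul_sum, ← sum_sub_distrib]
      refine sum_congr rfl fun c _ => ?_
      rw [sgn_inf]
      ring
    rw [sum_congr rfl fun b _ => h1 b, sum_sub_distrib, hS', hSdef]
    ring
  have hv' : 1 ≤ V.valuation (2 * S) := by
    rw [← hsum]
    exact hv
  rw [map_mul] at hv'
  have hv2 : V.valuation (2 : ℂ) ≤ 1 := by
    rw [ValuationSubring.valuation_le_one_iff]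
    exact ofNat_mem V 2
  calc (1 : _) ≤ V.valuation 2 * V.valuation S := hv'
    _ ≤ 1 * V.valuation S := mul_le_mul_left hv2 _
    _ = V.valuation S := one_mul _

end

end Pool.Agent.TWB


end
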