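import Pool.Agent.OTM.Defs

/-!
# Complex conjugation of characters (not used in the hand-ins)
-/

set_option autoImplicit false

open NumberField

namespace Pool.Agent.MuCyc

/-- `χ' (s') = χ (s)` if `s` is conjugate to `s'` by the complex conjugation `z ↦ z̄` (`K` is stable
under it), `s' = c⁻¹ s c`; that is, `χ'` is the complex conjugate of the character `χ`. -/
def IsConj (p : ℕ) [Fact p.Prime] {k K : IntermediateField ℚ ℂ} (h : k ≤ K) (χ χ' : Chr p h) :
    Prop :=
  ∀ s s' : Gal h, (∀ x y : IntermediateField.extendScalars h, (y : ℂ) = (starRingEnd ℂ) x →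
    ((s y : IntermediateField.extendScalars h) : ℂ) =
      (starRingEnd ℂ) (s' x : IntermediateField.extendScalars h)) → χ' s' = χ s

/-- `K` is stable under the complex conjugation `c`, and `c` inverts `Gal(K/k)`: `c⁻¹ s c = s⁻¹` for all `s`. -/
def ConjInverts {k K : IntermediateField ℚ ℂ} (h : k ≤ K) : Prop :=
  (∀ z ∈ K, (starRingEnd ℂ) z ∈ K) ∧
  ∀ s s' : Gal h, (∀ x y : IntermediateField.extendScalars h, (y : ℂ) = (starRingEnd ℂ) x →
    ((s y : IntermediateField.extendScalars h) : ℂ) =
      (starRingEnd ℂ) (s' x : IntermediateField.extendScalars h)) → s' = s⁻¹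

end Pool.Agent.MuCyc
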