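import Pool.Agent.MVF.C038
import Pool.Agent.OBM.C01
import Pool.Agent.OBM.C06
import Pool.Agent.OBM.C14
import Pool.Agent.OTM.C02

/-! Parts: OB.StF2, TWV.St, OT.Defs, TWV.VST, OT.StH, OT.StI, OT.H_CNG, OT.H_NDR, OT.I_CHK, OT.I_POW, OT.StHB, OT.HB_ND, OT.HB_SGE, OT.H_HT -/

section

/-!
# OB, FINAL (helper60), part 2: inflation; cyclic extensions of degree `2^r` which contain `√5`, `p = 5`

Every `def Sf_X : Prop` is the statement of a module; it is proved as `theorem tf_X (h : Sf_Y) .. : Sf_X` in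
`Pool/Agent/OB/F_X.lean`, namespace `Pool.Agent.OBF`, where the `Sf_Y` are the statements named after USES (or fewer).
-/

set_option autoImplicit false

open NumberField IsDedekindDomain Finset
open scoped nonZeroDivisors Pointwise

namespace Pool.Agent.OBF

open _root_.Pool.Agent.RI _root_.Pool.Agent.RID _root_.Pool.Agent.MU3 _root_.Pool.Agent.MUXK
  _root_.Pool.Agent.MUXZ _root_.Pool.Agent.NSI _root_.Pool.Agent.OB

/-- (INF) inflation of characters from `L` to `K ≥ L`.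

PROOF. `L_n = L B_n ≤ K_n = K B_n`, `K_n/L_n` is Galois of degree `d`, prime to `p` (`K_n/k` is Galois and abelian: GALX; `d` divides `[K : ℚ] p^n / ([L : ℚ] p^n)` by the two `deg`). For `b ∈ J K_n` there is a unique `N b ∈ J L_n` with `ext L_n K_n (N b) = CL.nm L_n K_n b` (`CL.nm_mem`, `ext_injective`); `N` is
multiplicative, `N (prin x) = prin (norm x)` (`CL.nm_prin`), `N (ext c) = c^d` (`CL.nm_ext`). Let `δ ∈ NC (K_n) (B n)`, `s' ∈ Gal(K/k)` its restriction to `K`; `δ` maps `L_n` to itself (`L_n/k` is normal), `δ' ∈ NC (L_n) (B n)` the restriction, `s` the restriction of `s'` to `L`: `N (δ b) = δ' (N b)` (`Gal(K_n/k)` is commutative). So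
`g ∈ EigS .. L .. χ` gives `f = g ∘ N ∈ EigS .. K .. χ'` (every `s'` has a restriction `s`), `f (ext c) = g (c^d) = d g (c)`, `d ≠ 0` in `F`: `g ↦ f` is linear and injective. -/
def Sf_INF : Prop := ∀ (p n : ℕ) [Fact p.Prime] (F : Type) [Field F] [CharP F p]
  (k L K : IntermediateField ℚ ℂ) (B : ℕ → IntermediateField ℚ ℂ) [FiniteDimensional ℚ K]
  [FiniteDimensional ℚ L] [∀ n, FiniteDimensional ℚ ↥(K ⊔ B n)]
  [∀ n, FiniteDimensional ℚ ↥(L ⊔ B n)] (_ : BasX p k K B) (_ : BasX p k L B) (_ : L ≤ K)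
  (hk : k ≤ K ⊔ B n) (hk' : k ≤ L ⊔ B n) (hkK : k ≤ K) (hkL : k ≤ L),
  ¬ p ∣ Module.finrank ℚ K →
  ∀ (χ : (letI := algC hkL; (↥L ≃ₐ[k] ↥L) →* Fˣ)) (χ' : (letI := algC hkK; (↥K ≃ₐ[k] ↥K) →* Fˣ)),
  (letI := algC hkL; letI := algC hkK;
    ∀ (s : ↥L ≃ₐ[k] ↥L) (s' : ↥K ≃ₐ[k] ↥K),
      (∀ (x : ↥L) (x' : ↥K), (x' : ℂ) = x → ((s' x' : ↥K) : ℂ) = (s x : ↥L)) → χ' s' = χ s) →
  Module.Finite F (EigS F k K B n hk hkK χ') →
  Module.Finite F (EigS F k L B n hk' hkL χ) ∧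
    Module.finrank F (EigS F k L B n hk' hkL χ) ≤ Module.finrank F (EigS F k K B n hk hkK χ')

/-- `k` is an imaginary quadratic field, not `ℚ(i)`, `ℚ(√-3)`; `K/k` is abelian of degree prime to `p`. -/
structure Bs (p : ℕ) {k K : IntermediateField ℚ ℂ} (h : k ≤ K) : Prop where
  fin : FiniteDimensional ℚ K
  k2 : Module.finrank ℚ k = 2
  im : ∃ z ∈ k, (starRingEnd ℂ) z ≠ z
  n4 : ∀ z ∈ k, z ^ 2 ≠ -1
  n3 : ∀ z ∈ k, z ^ 2 ≠ -3
  gal : IsGalois k (IntermediateField.extendScalars h)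
  ab : ∀ σ τ : (IntermediateField.extendScalars h) ≃ₐ[k] (IntermediateField.extendScalars h),
    σ * τ = τ * σ
  cop : ¬ p ∣ Module.finrank k (IntermediateField.extendScalars h)

/-- `χω²` is obtained from `χ` by powers with exponent `5^a` and complex conjugation. -/
def Reach (p : ℕ) [Fact p.Prime] {k K : IntermediateField ℚ ℂ} (h : k ≤ K)
    (χ χ₁ : MuCyc.Chr p h) : Prop :=
  ∃ a : ℕ, χ₁ = χ ^ p ^ a ∨
    ((∀ z ∈ K, (starRingEnd ℂ) z ∈ K) ∧ ∃ χ₂ : MuCyc.Chr p h, MuCyc.IsConj p h χ χ₂ ∧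
      χ₁ = χ₂ ^ p ^ a)

/-- (P5) the criterion for `p = 5`. Module of helper60. -/
def Sf_P5 : Prop := ∀ (p : ℕ) [Fact p.Prime], p = 5 → ∀ (k K : IntermediateField ℚ ℂ) (h : k ≤ K),
  Bs p h → (∃ ζ ∈ K, IsPrimitiveRoot ζ p) → ∀ χ χ₁ : MuCyc.Chr p h,
  MuCyc.IsTwist p h χ χ₁ 2 → Reach p h χ χ₁ →
  ∀ (j : ℕ) (χ' : MuCyc.Chr p h), MuCyc.IsTwist p h χ χ' j → MuCyc.MuZeroC p h χ'

/-- (IFM) inflation, for `MuZeroC`. Module of helper60. -/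
def Sf_IFM : Prop := ∀ (p : ℕ) [Fact p.Prime], p ≠ 2 → ∀ (k L K : IntermediateField ℚ ℂ)
  (hL : k ≤ L) (hK : k ≤ K), L ≤ K → FiniteDimensional ℚ K →
  IsGalois k (IntermediateField.extendScalars hK) →
  (∀ σ τ : (IntermediateField.extendScalars hK) ≃ₐ[k] (IntermediateField.extendScalars hK),
    σ * τ = τ * σ) → ¬ p ∣ Module.finrank ℚ K →
  ∀ (χ : MuCyc.Chr p hL) (χ' : MuCyc.Chr p hK),
  (∀ (s : MuCyc.Gal hL) (s' : MuCyc.Gal hK), (∀ (x : IntermediateField.extendScalars hL)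
    (x' : IntermediateField.extendScalars hK), (x' : ℂ) = x →
      ((s' x' : IntermediateField.extendScalars hK) : ℂ) =
        (s x : IntermediateField.extendScalars hL)) → χ' s' = χ s) →
  MuCyc.MuZeroC p hK χ' → MuCyc.MuZeroC p hL χ

/-- (REL) relative class numbers: `rel_bound` (`F_REL.lean`). -/
def Sf_REL : Prop := ∀ (p : ℕ) [Fact p.Prime], p ≠ 2 →
  ∀ (k K' K : IntermediateField ℚ ℂ) (_ : k ≤ K') (_ : K' ≤ K) (h : k ≤ K),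
  FiniteDimensional ℚ K → IsGalois k (IntermediateField.extendScalars h) →
  (∀ σ τ : (IntermediateField.extendScalars h) ≃ₐ[k] (IntermediateField.extendScalars h),
    σ * τ = τ * σ) → ¬ p ∣ Module.finrank ℚ K →
  (∀ χ : MuCyc.Chr p h, (∃ s : MuCyc.Gal h,
    (∀ x : IntermediateField.extendScalars h, (x : ℂ) ∈ K' → s x = x) ∧ χ s ≠ 1) →
    MuCyc.MuZeroC p h χ) →
  ∃ C : ℕ, ∀ (n : ℕ) (Q : IntermediateField ℚ ℂ), MuCyc.IsLayer p n Q →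
    padicValNat p (MuCyc.classNo (K ⊔ Q)) ≤
      padicValNat p (MuCyc.classNo (K' ⊔ Q)) + C * (n + 1) ^ 2

/-- (FLD5) field theory: `K = L(μ_5)`.

PROOF. `ζ` a primitive fifth root of unity, `K = L ⊔ adjoin ℚ {ζ}`. `K/k` is Galois and abelian: `VB.abE_zeta VB.v_NRM` (`VB/VJoin.lean`, `VB/VAll.lean`; `AbE k K`). The degree: `[K : L]` divides `[ℚ(ζ) : ℚ] = 4` (`BCH_thm`, `RI/BCH*.lean`, or `natDegree` of the minimal polynomial; `finrank ≤ 4` is enough), `[K : ℚ] = [K : L] [L : k] 2`. (iii) `w ∈ ℚ(ζ)` with `w² = 5`: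
`w = ± (ζ + ζ⁻¹ - ζ² - ζ⁻²)`, `w² = 5` by `1 + ζ + .. + ζ⁴ = 0`. If `s z = z^c` on `μ_5`: `s w = ζ^c + .. = w` if `c = ± 1 mod 5`, and `- w` if `c = ± 2 mod 5`, and `c² = ± 1` in a field of characteristic `5` accordingly. -/
def Sf_FLD5 : Prop := ∀ (k L : IntermediateField ℚ ℂ) (h : k ≤ L) (r : ℕ), Bs 5 h →
  Module.finrank k (IntermediateField.extendScalars h) = 2 ^ r →
  ∃ (K : IntermediateField ℚ ℂ) (hK : k ≤ K), L ≤ K ∧ Bs 5 hK ∧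
    (∃ ζ ∈ K, IsPrimitiveRoot ζ 5) ∧ ¬ 5 ∣ Module.finrank ℚ K ∧ ¬ 5 ∣ Module.finrank ℚ L ∧
    ((∀ z ∈ L, (starRingEnd ℂ) z ∈ L) → ∀ z ∈ K, (starRingEnd ℂ) z ∈ K) ∧
    ∀ (F : Type) [Field F] [CharP F 5] (w : ℂ), w ^ 2 = 5 → w ∈ K ∧
      ∀ (s : MuCyc.Gal hK) (c : ℕ), (∀ z : IntermediateField.extendScalars hK, z ^ 5 = 1 →
        s z = z ^ c) →
      ∀ x : IntermediateField.extendScalars hK, (x : ℂ) = w →
        (((s x : IntermediateField.extendScalars hK) : ℂ) = w ∧ (c : F) ^ 2 = 1) ∨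
        (((s x : IntermediateField.extendScalars hK) : ℂ) = -w ∧ (c : F) ^ 2 = -1)

/-- (CYC) cyclic extensions `L/k` of degree `2^r` which contain `√5`: comparison with the subfield `L'` of degree `4`, and of degree `2` if
complex conjugation acts on `Gal(L/k)` by inversion (`L/ℚ` is dihedral).

USES P5, IFM, REL, FLD5. PROOF. `w = √5 ∈ L`, `w ∉ k` (`k` would be `ℚ(√5)`, which is real). `Gal(L/k) = ⟨g⟩` of order `2^r`, `g w = - w` (otherwise `w` is fixed by all of `Gal(L/k)`, so `w ∈ k`). `Gal(L/L')` is the subgroup of order `2^r/[L' : k]`, it is `⟨g^[L':k]⟩` (cyclic group; contained in it is enough). REL for `L' ≤ L`: let `χ` be a character of `Gal(L/k)`, nontrivial on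
`Gal(L/L')`: `χ(g)^4 ≠ 1` (or `χ(g)^2 ≠ 1`). `x = χ(g)` has order `2^s`, `s ≥ 3` (or `s ≥ 2`). `K` from FLD5, `χ'` = the inflation of `χ` to `K` (restriction `Gal(K/k) → Gal(L/k)`: `L/k` is normal; `χ' = χ ∘ restriction`, compare `AlgEquiv.restrictNormalHom`, `F_SUB.lean`). IFM: it suffices that `χ'` is good; P5 with `j = 0`, `χ₁ = χ' ω²` (`exists_omega` in `F_TWO.lean`).
`s ≥ 3`: `5^(2^(s-3)) ≡ 1 + 2^(s-1) mod 2^s` (induction, or `Nat`/`Int` lifting the exponent), so for `σ ∈ Gal(K/k)`, `σ|L = g^i`: `χ'(σ)^(5^a) = x^i x^(i 2^(s-1)) = (-1)^i χ'(σ)` (`x^(2^(s-1)) = -1`: its square is `1` and it is not `1`), `a = 2^(s-3)`; `σ w = (-1)^i w`, so `ω(σ)² = (-1)^i` (FLD5). So `χ'^(5^a) = χ' ω²`, `Reach`. `s = 2` (only in the second case): `x² = -1`; let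
`χ₂ = χ'⁻¹`: it is `IsConj` to `χ'` (if `σ y = conj (σ' x)`, `y = conj x`, on `K`, then also on `L`, where `σ' = σ⁻¹`, so `χ'(σ') = χ'(σ)⁻¹`.. read the definition of `IsConj p h χ χ₂`: `χ₂ s' = χ s`, `χ₂ s' = χ'(s')⁻¹ = χ'(s)`). `χ'(σ)⁻¹ = χ'(σ) χ'(σ)⁻² = χ'(σ) (-1)^i`. So `χ' ω² = χ₂^(5^0)`. -/
def Sf_CYC : Prop := ∀ (k L' L : IntermediateField ℚ ℂ) (h1 : k ≤ L') (_ : L' ≤ L) (h : k ≤ L)
  (r : ℕ), FiniteDimensional ℚ L → Module.finrank ℚ k = 2 → (∃ z ∈ k, (starRingEnd ℂ) z ≠ z) →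
  (∀ z ∈ k, z ^ 2 ≠ -1) → (∀ z ∈ k, z ^ 2 ≠ -3) →
  IsGalois k (IntermediateField.extendScalars h) → IsCyclic (MuCyc.Gal h) →
  Module.finrank k (IntermediateField.extendScalars h) = 2 ^ r → (∃ w ∈ L, w ^ 2 = 5) →
  (Module.finrank k (IntermediateField.extendScalars h1) = 4 ∨
    (Module.finrank k (IntermediateField.extendScalars h1) = 2 ∧
      (∀ z ∈ L, (starRingEnd ℂ) z ∈ L) ∧
      ∀ s s' : MuCyc.Gal h, (∀ x y : IntermediateField.extendScalars h,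
        (y : ℂ) = (starRingEnd ℂ) x → ((s y : IntermediateField.extendScalars h) : ℂ) =
          (starRingEnd ℂ) (s' x : IntermediateField.extendScalars h)) → s' = s⁻¹)) →
  ∃ C : ℕ, ∀ (n : ℕ) (Q : IntermediateField ℚ ℂ), MuCyc.IsLayer 5 n Q →
    padicValNat 5 (MuCyc.classNo (L ⊔ Q)) ≤
      padicValNat 5 (MuCyc.classNo (L' ⊔ Q)) + C * (n + 1) ^ 2

end Pool.Agent.OBF


end

section

/-!
# TWV: rigidity in the direction of a prime `l = 2, 3` for VECTORS of symbols (problem MP_b78433_nt)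

Theorem T (helper60, helper59), block [TW]. A vector symbol is a family `P e`, `e ∈ G`, `G` a finite
commutative group, such that a matrix of `Γ₀(N)` with lower right entry `d` permutes the components by
`e ↦ e * s d` (application: `G = (ZMod M)ˣ`, `s d = d ^ (-2)`, `P e x y = Sum_b κ (e b) Q (x + b/M, y + b/M)`).
The final statement is `S_TWV`: for all large `n` and every even character `ψ` of conductor `l^n` SOME
component of the twisted sum is not in the maximal ideal, if for every `N'` some component of some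
`P i e ∞ (h ∞)`, `h ∈ Γ₁(N')`, is not in the maximal ideal.
-/

set_option autoImplicit false

namespace Pool.Agent.TWV

open Finset OnePoint Pool.Agent.TWR

/-- a vector of weight two symbols, permuted by the matrices of `Γ₀(N)` through `s : ℤ → G` -/
structure IsVSym {G : Type} [CommGroup G] (N : ℕ) (nu : ℤ → ℂ) (s : ℤ → G)
    (P : G → OnePoint ℚ → OnePoint ℚ → ℂ) : Prop where
  add : ∀ (e : G) (x y z : OnePoint ℚ), P e x y + P e y z = P e x z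
  equiv : ∀ (e : G) (a b c d : ℤ), a * d - b * c = 1 → (N : ℤ) ∣ c → ∀ x y : OnePoint ℚ,
    P e (Pool.Agent.MuSym.mob a b c d x) (Pool.Agent.MuSym.mob a b c d y) = nu d * P (e * s d) x y

/-- VNF: `S_NFV` for vectors, the values lie in a number field. -/
def S_VNF : Prop := ∀ (G : Type) [CommGroup G] [Finite G] (N : ℕ) (_ : N ≠ 0)
  (s : ℤ → G) (nu : ℤ → ℂ)
  (_ : ∀ d d' : ℤ, (N : ℤ) ∣ d - d' → nu d = nu d') (_ : ∀ d, IsAlgebraic ℚ (nu d))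
  (_ : ∀ d d' : ℤ, (N : ℤ) ∣ d - d' → s d = s d')
  (P : G → OnePoint ℚ → OnePoint ℚ → ℂ) (_ : IsVSym N nu s P)
  (_ : ∀ (e : G) (x : ℚ), IsAlgebraic ℚ (P e ∞ (x : OnePoint ℚ))),
  ∃ K : IntermediateField ℚ ℂ, FiniteDimensional ℚ K ∧ ∀ (e : G) (x : ℚ), P e ∞ (x : OnePoint ℚ) ∈ K

/-- VST: `S_STA` with the label `u` chosen before the function `P`. -/
def S_VST : Prop := ∀ (V : ValuationSubring ℂ) (l g h m r q : ℕ) (_ : Gen l g h) (_ : 1 ≤ m)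
  (_ : l = 2 → 2 ≤ m) (_ : 1 ≤ r) (_ : m ≤ r + h) (_ : l ^ m ∣ q - 1)
  (_ : ¬ l ^ (m + 1) ∣ q - 1) (_ : 1 ≤ q) (_ : V.valuation (l : ℂ) = 1)
  (_ : V.valuation (2 : ℂ) = 1) (K : IntermediateField ℚ ℂ)
  (_ : ∀ (ξ : ℂ) (_ : ξ ^ (l ^ (m + r)) = 1) (x : ℕ → ℂ) (_ : ∀ i, x i ∈ K),
    V.valuation (∑ i ∈ range (l ^ (m + r)), x i * ξ ^ i) < 1 →
    V.valuation (∑ i ∈ range (l ^ (m + r)), x i * ξ ^ (q * i)) < 1)
  (ψ : DirichletCharacter ℂ (l ^ (m + r + h))) (_ : ψ (-1) = 1)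
  (_ : ψ (1 + (l : ZMod (l ^ (m + r + h))) ^ (m + r + h - 1)) ≠ 1),
  ∃ u : ℤ, IsCoprime u (l : ℤ) ∧ 0 ≤ u ∧ u < l ^ m ∧
    ∀ (P : ℚ → ℂ) (_ : ∀ x, P (x + 1) = P x) (_ : ∀ x, P (-x) = P x) (_ : ∀ x, P x ∈ K)
      (_ : V.valuation (∑ b ∈ range (l ^ (m + r + h)),
        ψ b * P ((b : ℚ) / (l : ℚ) ^ (m + r + h))) < 1) (c e : ℤ), ((l ^ m : ℕ) : ℤ) ∣ e * c - u →
    V.valuation (∑ j ∈ range (l ^ m), Complex.exp (2 * Real.pi * Complex.I / (l ^ m : ℕ)) ^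
      (e * (j : ℤ)) * P ((c : ℚ) / (l : ℚ) ^ (m + r + h) + (j : ℚ) / (l ^ m : ℕ))) < 1

/-- TWV: the rigidity theorem for all large levels, for vectors of symbols. -/
def S_TWV : Prop := ∀ (l g h : ℕ) (_ : Gen l g h) (V : ValuationSubring ℂ) (p : ℕ) (_ : p.Prime)
  (_ : 5 ≤ p) (_ : V.valuation (p : ℂ) < 1) (I : Type) [Finite I]
  (G : Type) [CommGroup G] [Finite G] (N : ℕ) (_ : N ≠ 0) (s : ℤ → G) (_ : s 1 = 1)
  (_ : ∀ d d' : ℤ, (N : ℤ) ∣ d - d' → s d = s d') (nu : I → ℤ → ℂ)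
  (_ : ∀ i d, V.valuation (nu i d) ≤ 1) (_ : ∀ i, nu i 1 = 1)
  (_ : ∀ i (d d' : ℤ), (N : ℤ) ∣ d - d' → nu i d = nu i d') (_ : ∀ i d, IsAlgebraic ℚ (nu i d))
  (P : I → G → OnePoint ℚ → OnePoint ℚ → ℂ) (_ : ∀ i, IsVSym N (nu i) s (P i))
  (_ : ∀ i (e : G) (x : ℚ), IsAlgebraic ℚ (P i e ∞ (x : OnePoint ℚ)))
  (_ : ∀ i (e : G) (x : ℚ), P i e ∞ ((-x : ℚ) : OnePoint ℚ) = P i e ∞ (x : OnePoint ℚ))
  (_ : ∀ i (e : G) (x : ℚ), ∑ k ∈ range l, P i e ∞ ((x + (k : ℚ) / l : ℚ) : OnePoint ℚ) = 0)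
  (_ : ∀ i (N' : ℕ), N' ≠ 0 → N ∣ N' → ∃ (a b c d : ℤ) (e : G), a * d - b * c = 1 ∧
    (N' : ℤ) ∣ c ∧ (N' : ℤ) ∣ d - 1 ∧
    1 ≤ V.valuation (P i e ∞ (Pool.Agent.MuSym.mob a b c d ∞))),
  ∃ n0 : ℕ, ∀ n, n0 ≤ n → ∀ i,
    ∀ ψ : DirichletCharacter ℂ (l ^ n), ψ (-1) = 1 →
      ψ (1 + (l : ZMod (l ^ n)) ^ (n - 1)) ≠ 1 →
      ∃ e : G, 1 ≤ V.valuation (∑ b ∈ range (l ^ n),
        ψ b * P i e ∞ (((b : ℚ) / (l : ℚ) ^ n : ℚ) : OnePoint ℚ))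




end Pool.Agent.TWV


end

section

/-!
# OT: Theorem T (all branches, every prime `p ≥ 5`, in the direction of `l = 2, 3`): common definitions and the final statements of the block H

`M = p^(n+1)` is FIXED. `ξ` a primitive `M`-th root of unity, `z₀` an integer with `z₀^(p-1) ≡ 1` modulo `M`, a generator modulo `p`. `Q k`, `k ∈ ℕ` (only `k` modulo `p - 1` matters), is the part of the symbol which is used
for the class `z₀^k` (`er = 1`: `Q k = sgnPart s Φ` for all `k`; `er = 2`: `Q k = Φ_(z₀^k) + s ι^* Φ_(-z₀^k)`, `Φ_d` = the sum over the `i` with `J(d N b_i | p) = 1`; `Q 0 = QR`).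

* `tM M b x = x + b/M`.
* `Yh M ξ Q x y = Σ_(b < M) ξ^b Q(x + b/M, y + b/M)`.
* `PV` : the vector symbol, `c ∈ ℤ` (modulo `M`): `Σ_k t(z₀^k) Σ_(j,r) coT a j r Yh(ξ^(c a^(2r) (1+p)^j z₀^k)) (Q k)`.
* `HypT` : the hypotheses of the abstract theorem `Ot_H` (block H, helper60).
* `RL` : representatives, for the level `f l^r`. `SG` : `Σ_k t(z₀^k) STX (z₀^k c)`.
* `O_HETA` : the result of the blocks H, HB, used by block I.
-/

set_option autoImplicit false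

namespace Pool.Agent.OT

open _root_.MU3 _root_.Pool.Agent.MU3A _root_.Pool.Agent.MU3B _root_.Pool.Agent.MUX
  _root_.Pool.Agent.MuSym _root_.Pool.Agent.OB _root_.Pool.Agent.OBH OnePoint
open _root_.Pool.Agent.TWR (Gen)

noncomputable section

/-! ## The abstract part -/

/-- `x + b/M` -/
def tM (M : ℕ) (b : ℤ) (x : OnePoint ℚ) : OnePoint ℚ := mob (M : ℤ) b 0 (M : ℤ) x

/-- `Σ_(b < M) ζ^b Q(x + b/M, y + b/M)` -/
def Yh (M : ℕ) (ζ : ℂ) (Q : OnePoint ℚ → OnePoint ℚ → ℂ) (x y : OnePoint ℚ) : ℂ :=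
  ∑ b ∈ Finset.range M, ζ ^ b * Q (tM M b x) (tM M b y)

/-- the coefficient of the node `a^(2r) (1+p)^j`, `j, r ∈ {0, 1}` -/
def coT (a : ℤ) (j r : ℕ) : ℂ :=
  if r = 0 then -((-1) ^ (1 - j) * (a : ℂ) ^ 2) else (-1) ^ (1 - j) * (a : ℂ)

/-- the vector symbol; `c` is its index -/
def PV (p n : ℕ) (ξ : ℂ) (a z₀ : ℤ) (t : ℤ → ℂ) (Q : ℕ → OnePoint ℚ → OnePoint ℚ → ℂ) (c : ℤ)
    (x y : OnePoint ℚ) : ℂ :=
  ∑ k ∈ Finset.range (p - 1), t (z₀ ^ k) * ∑ j ∈ Finset.range 2, ∑ r ∈ Finset.range 2,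
    coT a j r * Yh (p ^ (n + 1)) (ξ ^ (c * a ^ (2 * r) * (1 + (p : ℤ)) ^ j * z₀ ^ k)) (Q k) x y

/-- `z₀` is of order `p - 1` modulo `p^(n+1)` and a generator modulo `p` -/
structure IsZ0 (p n : ℕ) (z₀ : ℤ) : Prop where
  one : ((p ^ (n + 1) : ℕ) : ℤ) ∣ z₀ ^ (p - 1) - 1
  gen : ∀ a : ℤ, ¬ (p : ℤ) ∣ a → ∃ k < p - 1, (p : ℤ) ∣ a - z₀ ^ k

/-- `t` is a character modulo `p` with values of order dividing `q` -/
structure IsTw (p q : ℕ) (t : ℤ → ℂ) : Prop where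
  one : t 1 = 1
  mul : ∀ a b : ℤ, t (a * b) = t a * t b
  per : ∀ a b : ℤ, (p : ℤ) ∣ a - b → t a = t b
  pow : ∀ a : ℤ, ¬ (p : ℤ) ∣ a → t a ^ q = 1

/-- the hypotheses of the abstract theorem -/
structure HypT (p n : ℕ) (V : ValuationSubring ℂ) (N : ℕ) (nu : ℤ → ℂ) (s : ℂ) (z₀ : ℤ)
    (t : ℤ → ℂ) (Q : ℕ → OnePoint ℚ → OnePoint ℚ → ℂ) (ξ : ℂ) (l : ℕ) : Prop where
  pp : p.Prime
  p5 : 5 ≤ p
  vp : V.valuation (p : ℂ) < 1
  n5 : 5 ≤ n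
  N0 : N ≠ 0
  nu1 : nu 1 = 1
  nuv : ∀ d, V.valuation (nu d) ≤ 1
  nua : ∀ d, IsAlgebraic ℚ (nu d)
  nuper : ∀ d d', (N : ℤ) ∣ d - d' → nu d = nu d'
  s1 : s = 1 ∨ s = -1
  z0 : IsZ0 p n z₀
  tw : ∃ q : ℕ, ¬ p ∣ q ∧ IsTw p q t
  ts : t (-1) = s
  xi : IsPrimitiveRoot ξ (p ^ (n + 1))
  sym : ∀ k, IsSym N nu (Q k)
  alg : ∀ k x y, IsAlgebraic ℚ (Q k x y)
  bdd : ∃ K : ℕ, ∀ k x y, V.valuation ((p : ℂ) ^ K * Q k x y) ≤ 1
  neg : ∀ k x y, Q k (mob (-1) 0 0 1 x) (mob (-1) 0 0 1 y) = s * Q (k + (p - 1) / 2) x y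
  perk : ∀ k, Q (k + (p - 1)) = Q k
  dep : ∀ k (x : ℚ), ∑ j ∈ Finset.range l, Q k ∞ ((x + (j : ℚ) / l : ℚ) : OnePoint ℚ) = 0
  /-- Theorem G together with the divisibility theorems DVN, DVR -/
  nd : ∀ N' : ℕ, N' ≠ 0 → N ∣ N' → ∃ α β γ δ c : ℤ, α * δ - β * γ = 1 ∧ (N' : ℤ) ∣ γ ∧
    (N' : ℤ) ∣ δ - 1 ∧ ¬ (p : ℤ) ∣ c ∧
    V.valuation (p : ℂ) < V.valuation (Yh (p ^ (n + 1)) (ξ ^ c) (Q 0) ∞ (mob α β γ δ ∞)) *
      V.valuation (1 - ξ) ^ p ^ (n - 2)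

/-- THE ABSTRACT THEOREM (block H, helper60). The number `r₀` does not depend on `a`. -/
def Ot_H : Prop :=
  ∀ (l g h : ℕ) (_ : Gen l g h) (p n : ℕ) (V : ValuationSubring ℂ) (N : ℕ) (nu : ℤ → ℂ) (s : ℂ)
    (z₀ : ℤ) (t : ℤ → ℂ) (Q : ℕ → OnePoint ℚ → OnePoint ℚ → ℂ) (ξ : ℂ),
    HypT p n V N nu s z₀ t Q ξ l →
    ∃ r₀ : ℕ, ∀ r, r₀ ≤ r → ∀ ψ : DirichletCharacter ℂ (l ^ r), ψ (-1) = 1 →
      ψ (1 + (l : ZMod (l ^ r)) ^ (r - 1)) ≠ 1 →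
      ∀ a : ℤ, (p : ℤ) ∣ a - 1 → ¬ (p : ℤ) ^ 2 ∣ a - 1 → ∃ c : ℤ, ¬ (p : ℤ) ∣ c ∧
        V.valuation (p : ℂ) < V.valuation (∑ e ∈ Finset.range (l ^ r), ψ e *
          PV p n ξ a z₀ t Q c ∞ (((e : ℚ) / (l : ℚ) ^ r : ℚ) : OnePoint ℚ))

/-! ## Theta series -/

/-- the representatives for the level `f l^r`, `l ∣ f` -/
def RL {A B : ℤ} {p f : ℕ} {ι : Type} (R : Reps A B (p * f) ι) (l r : ℕ) (hl : l ∣ f) :
    Reps A B (p * (f * l ^ r)) ι :=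
  { R with
    cop := fun i => by
      have h := R.cop i
      have h1 : (nI (R.b i)).Coprime f := Nat.Coprime.coprime_mul_left_right h
      have h2 : (nI (R.b i)).Coprime p := Nat.Coprime.coprime_mul_right_right h
      have h3 : (nI (R.b i)).Coprime l := Nat.Coprime.coprime_dvd_right hl h1
      exact h2.mul_right (h1.mul_right (h3.pow_right r)) }

/-- the weights for the class `d`: all of them if `p` is unramified, the `i` with `J(d N b_i | p) = 1` otherwise -/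
def kkE {A B : ℤ} {n : ℕ} {ι : Type} (er p : ℕ) (R : Reps A B n ι) (kk : ι → ℂ) (d : ℤ) : ι → ℂ :=
  if er = 1 then kk else kkJ p R kk d

/-- the symbols `Q k`, divided by the period `u om_0` -/
def QT {A B : ℤ} {n : ℕ} {ι : Type} [Fintype ι] (er p : ℕ) (R : Reps A B n ι) (e : OO A B → ℂ)
    (kk : ι → ℂ) (s u : ℂ) (z₀ : ℤ) (k : ℕ) (x y : OnePoint ℚ) : ℂ :=
  (PhiK R e (kkE er p R kk (z₀ ^ k)) x y +
    s * PhiK R e (kkE er p R kk (-z₀ ^ k)) (mob (-1) 0 0 1 x) (mob (-1) 0 0 1 y)) /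
      (u * R.om R.i0)

/-- `Σ_k t(z₀^k) STX (z₀^k c)` -/
def SG {A B : ℤ} {n : ℕ} {ι : Type} [Fintype ι] (p : ℕ) (R : Reps A B n ι) (m M a : ℕ)
    (e : OO A B → ℂ) (kk : ι → ℂ) (t : ℤ → ℂ) (z₀ c : ℤ) : ℂ :=
  ∑ k ∈ Finset.range (p - 1), t (z₀ ^ k) * STX R m M a e kk (z₀ ^ k * c)

/-- THE RESULT of the blocks H, HB: for all large `r`, all even primitive `ψ` modulo `l^r`, with `f' = f l^r`, the sums over the group
`μ_(p-1)` are not small at one of the translates `(1+p)^k'`. -/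
def O_HETA : Prop :=
  ∀ (p er : ℕ) (A B : ℤ) (P : Ideal (OO A B)) (V : ValuationSubring ℂ) (f : ℕ),
    SetO p er A B P V f → TorX A B →
    ∀ (ι : Type) [Fintype ι] (R : Reps A B (p * f) ι) (u el lam : ℂ),
    GoodL V (R.L R.i0) u el lam → ∀ w : OO A B → ℂ, IsTeiP p er P V w →
    ∀ e : OO A B → ℂ, IsEI (idl (A := A) (B := B) (p * f)) e → ∀ r₁ : ℕ, ¬ p ∣ r₁ →
    (∀ x, e x ≠ 0 → e x ^ r₁ = 1) → ∀ i : ℕ, er * (nI P - 1) ≤ i * (p - 1) → i ≤ nI P - 2 →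
    (∀ x, x - 1 ∈ gO P f → x ∉ P → e x = w x ^ i) →
    ∀ t : ℤ → ℂ, IsTw p (nI P - 1) t → ∀ kk : ι → ℂ, (∀ i, kk i ^ r₁ = 1) →
    ∀ (l g h : ℕ), Gen l g h → ∀ (hl : l ∣ f) (n : ℕ), 5 ≤ n → ∀ z₀ : ℤ, IsZ0 p n z₀ →
    ∃ r₀ : ℕ, ∀ r, r₀ ≤ r → ∀ ψ : DirichletCharacter ℂ (l ^ r), ψ (-1) = 1 →
      ψ (1 + (l : ZMod (l ^ r)) ^ (r - 1)) ≠ 1 → ∃ k' : ℕ,
        V.valuation (p : ℂ) < V.valuation ((∑ j ∈ Finset.range 2, (-1) ^ (1 - j) *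
          SG p (RL R l r hl) (lvX p (f * l ^ r) n) (p ^ (n + 1)) (aX p (f * l ^ r))
            (fun x => e x * ψ (nm x)) (fun i => kk i * ψ ((nI (R.b i) : ℕ))) t z₀
            ((1 + (p : ℤ)) ^ (k' + j))) / u)

end

end Pool.Agent.OT


end

section

/-!
# TWV, module VST: the label is chosen before the symbol (adapted from `TWR/STA.lean`)
-/

set_option autoImplicit false

namespace Pool.Agent.TWV

open Finset Pool.Agent.TWR Pool.Agent.TWR.STAAux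

theorem t_VST (hGPW : S_GPW) (hTRS : S_TRS) : S_VST := by
  intro V l g h m r q hG hm hl2 hr hmr hq1 hq2 hq0 vl v2 K hK ψ ψneg ψne
  obtain ⟨g1, g2, g3, g4, g5⟩ := hGPW l g h hG
  have lp : l.Prime := by rcases hG with ⟨rfl, _, _⟩ | ⟨rfl, _, _⟩ <;> norm_num
  have hh : 1 ≤ h := by rcases hG with ⟨_, _, rfl⟩ | ⟨_, _, rfl⟩ <;> norm_num
  have hl0 : l ≠ 0 := lp.ne_zero
  have hlq : (l : ℚ) ≠ 0 := by exact_mod_cast hl0
  have hlnq : (l : ℚ) ^ (m + r + h) ≠ 0 := pow_ne_zero _ hlq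
  have hlmq : (l : ℚ) ^ m ≠ 0 := pow_ne_zero _ hlq
  have : NeZero (l ^ (m + r + h)) := ⟨pow_ne_zero _ hl0⟩
  set ξ : ℂ := ψ (g : ZMod (l ^ (m + r + h))) with hξ
  have ξp : IsPrimitiveRoot ξ (l ^ (m + r)) := by
    have e1 : ξ ^ l ^ (m + r) = 1 := by
      rw [hξ, ← map_pow, g2 (m + r), map_one]
    have e2 : ¬ ξ ^ l ^ (m + r - 1) = 1 := by
      obtain ⟨w, hw, hw'⟩ := g1 (m + r - 1)
      have h3 := char_ne l (m + r + h) lp (by omega) ψ ψne w hw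
      intro h4
      apply h3
      rw [hξ, ← map_pow] at h4
      have h5 := congrArg (Int.cast : ℤ → ZMod (l ^ (m + r + h))) hw'
      push_cast at h5
      rw [show m + r - 1 + h = m + r + h - 1 by omega] at h5
      rw [← h5]
      exact h4
    have : Fact l.Prime := ⟨lp⟩
    have e3 := orderOf_eq_prime_pow (p := l) (n := m + r - 1) e2 (by
      rw [show m + r - 1 + 1 = m + r by omega]; exact e1)
    rw [show m + r - 1 + 1 = m + r by omega] at e3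
    rw [← e3]
    exact IsPrimitiveRoot.orderOf ξ
  obtain ⟨w, hw, hw'⟩ := g1 r
  have hg5 := g5 m r w hw' hmr
  -- the root of unity
  have ξr : IsPrimitiveRoot (ξ ^ (l ^ r)) (l ^ m) :=
    ξp.pow (pow_pos lp.pos _) (by rw [← pow_add, add_comm])
  obtain ⟨k0, hk0lt, hk0c, hk0⟩ := (Complex.isPrimitiveRoot_iff _ _ (pow_ne_zero m hl0)).1 ξr
  set ζ : ℂ := Complex.exp (2 * Real.pi * Complex.I / (l ^ m : ℕ)) with hζ
  have ζ0 : ζ ≠ 0 := Complex.exp_ne_zero _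
  have ζk : ζ ^ k0 = ξ ^ (l ^ r) := by
    rw [← hk0, hζ, ← Complex.exp_nat_mul]
    congr 1
    push_cast
    ring
  have ζm : ζ ^ (l ^ m) = 1 := by
    have := (Complex.isPrimitiveRoot_exp (l ^ m) (pow_ne_zero m hl0)).pow_eq_one
    rw [hζ]
    exact this
  have ζz : ∀ a b : ℤ, ((l ^ m : ℕ) : ℤ) ∣ a - b → ζ ^ a = ζ ^ b := by
    intro a b ⟨k, hk⟩
    have : a = b + ((l ^ m : ℕ) : ℤ) * k := by linear_combination hk
    rw [this, zpow_add₀ ζ0, zpow_mul, zpow_natCast, ζm, one_zpow, mul_one]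
  -- the label u
  have hwm : IsCoprime w ((l ^ m : ℕ) : ℤ) := by
    push_cast
    exact hw.pow_right
  obtain ⟨a, b, hab⟩ := hwm
  have hlm' : ((l ^ m : ℕ) : ℤ) ≠ 0 := by exact_mod_cast pow_ne_zero m hl0
  have hlmpos : (0 : ℤ) < ((l ^ m : ℕ) : ℤ) := by exact_mod_cast pow_pos lp.pos m
  have hdiv : (l : ℤ) ∣ ((l ^ m : ℕ) : ℤ) := by
    push_cast
    exact dvd_pow_self _ (by omega)
  have hk0l : IsCoprime (k0 : ℤ) (l : ℤ) := by
    have : IsCoprime (k0 : ℤ) ((l ^ m : ℕ) : ℤ) := Nat.isCoprime_iff_coprime.2 hk0c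
    exact this.of_isCoprime_of_dvd_right hdiv
  obtain ⟨u, hu0, hu1, huw⟩ : ∃ u : ℤ, 0 ≤ u ∧ u < ((l ^ m : ℕ) : ℤ) ∧
      ((l ^ m : ℕ) : ℤ) ∣ u * w - k0 := by
    refine ⟨(a * k0) % ((l ^ m : ℕ) : ℤ), Int.emod_nonneg _ hlm', Int.emod_lt_of_pos _ hlmpos, ?_⟩
    refine ⟨- b * k0 - (a * k0 / ((l ^ m : ℕ) : ℤ)) * w, ?_⟩
    have := Int.emod_add_mul_ediv (a * k0) ((l ^ m : ℕ) : ℤ)
    linear_combination w * this + k0 * hab
  have hul : IsCoprime u (l : ℤ) := by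
    -- a common divisor: u w = k0 + l * _
    obtain ⟨s, hs⟩ := hdiv
    obtain ⟨k, hk⟩ := huw
    have h1 : IsCoprime (u * w) (l : ℤ) := by
      have : u * w = k0 + (l : ℤ) * (s * k) := by rw [hs] at hk; linear_combination hk
      rw [this]
      exact (IsCoprime.add_mul_left_left hk0l _)
    exact h1.of_mul_left_left
  refine ⟨u, hul, hu0, by push_cast at hu1; exact_mod_cast hu1, ?_⟩
  intro P P1 Pneg PK hsum
  have Pz : ∀ (x : ℚ) (k : ℤ), P (x + k) = P x := by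
    intro x k
    have := (show Function.Periodic P (1 : ℚ) from P1).int_mul k x
    simpa using this
  have Pc : ∀ (a b : ℤ), ((l ^ (m + r + h) : ℕ) : ℤ) ∣ a - b → ∀ y : ℚ,
      P ((a : ℚ) / (l : ℚ) ^ (m + r + h) + y) = P ((b : ℚ) / (l : ℚ) ^ (m + r + h) + y) := by
    intro a b ⟨k, hk⟩ y
    rw [← Pz ((b : ℚ) / (l : ℚ) ^ (m + r + h) + y) k]
    congr 1
    have hk' : (a : ℚ) - b = (l : ℚ) ^ (m + r + h) * k := by
      have := congrArg (Int.cast : ℤ → ℚ) hk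
      push_cast at this
      exact this
    field_simp
    linear_combination hk'
  have Pc0 : ∀ (a b : ℤ), ((l ^ (m + r + h) : ℕ) : ℤ) ∣ a - b →
      P ((a : ℚ) / (l : ℚ) ^ (m + r + h)) = P ((b : ℚ) / (l : ℚ) ^ (m + r + h)) := by
    intro a b hab
    simpa using Pc a b hab 0
  set x : ℕ → ℂ := fun t => P (((g : ℚ) ^ t) / (l : ℚ) ^ (m + r + h)) with hx
  have xper : ∀ i, x (i + l ^ (m + r)) = x i := by
    intro i
    simp only [hx]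
    have h1 := Pc0 ((g : ℤ) ^ (i + l ^ (m + r))) ((g : ℤ) ^ i) (by
      rw [← ZMod.intCast_zmod_eq_zero_iff_dvd]
      push_cast
      rw [pow_add (g : ZMod (l ^ (m + r + h))) i (l ^ (m + r)), g2 (m + r)]
      ring)
    push_cast at h1
    exact h1
  have hsum2 : V.valuation (∑ t ∈ range (l ^ (m + r)), x t * ξ ^ t) < 1 := by
    have h1 := g3 (m + r) (fun c => ψ c * P ((c.val : ℚ) / (l : ℚ) ^ (m + r + h))) (by
      intro c hc
      rw [MulChar.map_nonunit ψ hc, zero_mul])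
    have hF : ∀ a : ℤ, (fun c : ZMod (l ^ (m + r + h)) => ψ c * P ((c.val : ℚ) /
        (l : ℚ) ^ (m + r + h))) (a : ZMod (l ^ (m + r + h))) =
        ψ (a : ZMod (l ^ (m + r + h))) * P ((a : ℚ) / (l : ℚ) ^ (m + r + h)) := by
      intro a
      have h2 := Pc0 (((a : ZMod (l ^ (m + r + h))).val : ℕ) : ℤ) a (by
        rw [← ZMod.intCast_zmod_eq_zero_iff_dvd]
        push_cast
        simp)
      rw [Int.cast_natCast] at h2
      show ψ (a : ZMod (l ^ (m + r + h))) * P _ = _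
      rw [h2]
    have h3 : ∑ c ∈ range (l ^ (m + r + h)), (fun c : ZMod (l ^ (m + r + h)) => ψ c *
        P ((c.val : ℚ) / (l : ℚ) ^ (m + r + h))) (c : ZMod (l ^ (m + r + h))) =
        ∑ b ∈ range (l ^ (m + r + h)), ψ b * P ((b : ℚ) / (l : ℚ) ^ (m + r + h)) := by
      apply Finset.sum_congr rfl
      intro b _
      have := hF (b : ℤ)
      rw [Int.cast_natCast] at this
      rw [this]
      push_cast
      rfl
    have h4 : ∑ t ∈ range (l ^ (m + r)), ((fun c : ZMod (l ^ (m + r + h)) => ψ c *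
        P ((c.val : ℚ) / (l : ℚ) ^ (m + r + h))) ((g : ZMod (l ^ (m + r + h))) ^ t) +
        (fun c : ZMod (l ^ (m + r + h)) => ψ c *
        P ((c.val : ℚ) / (l : ℚ) ^ (m + r + h))) (-(g : ZMod (l ^ (m + r + h))) ^ t)) =
        2 * ∑ t ∈ range (l ^ (m + r)), x t * ξ ^ t := by
      rw [Finset.mul_sum]
      apply Finset.sum_congr rfl
      intro t _
      have e1 := hF ((g : ℤ) ^ t)
      have e2 := hF (-(g : ℤ) ^ t)
      have c1 : (((g : ℤ) ^ t : ℤ) : ZMod (l ^ (m + r + h))) = (g : ZMod (l ^ (m + r + h))) ^ t := by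
        push_cast; rfl
      have c2 : ((-(g : ℤ) ^ t : ℤ) : ZMod (l ^ (m + r + h))) = -(g : ZMod (l ^ (m + r + h))) ^ t := by
        push_cast; rfl
      rw [c1] at e1
      rw [c2] at e2
      rw [e1, e2]
      have e3 : ψ (-(g : ZMod (l ^ (m + r + h))) ^ t) = ξ ^ t := by
        rw [show -(g : ZMod (l ^ (m + r + h))) ^ t = (-1) * (g : ZMod (l ^ (m + r + h))) ^ t by ring,
          map_mul, ψneg, one_mul, map_pow]
      have e4 : P (((-(g : ℤ) ^ t : ℤ) : ℚ) / (l : ℚ) ^ (m + r + h)) = x t := by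
        simp only [hx]
        rw [← Pneg]
        congr 1
        push_cast
        ring
      have e5 : P ((((g : ℤ) ^ t : ℤ) : ℚ) / (l : ℚ) ^ (m + r + h)) = x t := by
        simp only [hx]
        congr 1
        push_cast
        ring
      rw [e3, e4, e5, map_pow]
      ring
    rw [← h3, h1, h4, map_mul, v2, one_mul] at hsum
    exact hsum
  have hT := hTRS V l m r q lp hm hl2 hq1 hq2 hq0 vl K hK ξ ξp x (fun i => PK _) xper hsum2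
  -- the main computation
  have main : ∀ (t0 : ℕ) (c e : ℤ), ((l ^ (m + r + h) : ℕ) : ℤ) ∣ c - (g : ℤ) ^ t0 →
      ((l ^ m : ℕ) : ℤ) ∣ e * c - u →
      V.valuation (∑ j ∈ range (l ^ m), ζ ^ (e * (j : ℤ)) *
        P ((c : ℚ) / (l : ℚ) ^ (m + r + h) + (j : ℚ) / (l ^ m : ℕ))) < 1 := by
    intro t0 c e hc hec
    have h1 := hT t0
    set F : ℤ → ℂ := fun j => ζ ^ (e * j) * P ((c : ℚ) / (l : ℚ) ^ (m + r + h) +
      (j : ℚ) / (l ^ m : ℕ)) with hF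
    have hFper : ∀ j : ℤ, F (j + (l ^ m : ℕ)) = F j := by
      intro j
      simp only [hF]
      congr 1
      · apply ζz
        exact ⟨e, by ring⟩
      · rw [← Pz ((c : ℚ) / (l : ℚ) ^ (m + r + h) + (j : ℚ) / (l ^ m : ℕ)) 1]
        congr 1
        push_cast
        rw [add_div (j : ℚ), div_self hlmq]
        ring
    have hcl : IsCoprime c (l : ℤ) := by
      obtain ⟨s, hs⟩ := hdiv
      obtain ⟨k, hk⟩ := hec
      have h1 : IsCoprime (e * c) (l : ℤ) := by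
        have : e * c = u + (l : ℤ) * (s * k) := by rw [hs] at hk; linear_combination hk
        rw [this]
        exact (IsCoprime.add_mul_left_left hul _)
      exact h1.of_mul_left_right
    have hcw : IsCoprime (c * w) ((l ^ m : ℕ) : ℤ) := by
      push_cast
      exact (hcl.mul_left hw).pow_right
    have h2 := sum_perm (l ^ m) (pow_ne_zero m hl0) F hFper (c * w) hcw
    have h3 : ∑ i ∈ range (l ^ m), ξ ^ (l ^ r * i) * x (t0 + l ^ r * i) =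
        ∑ j ∈ range (l ^ m), F (c * w * j) := by
      apply Finset.sum_congr rfl
      intro i _
      simp only [hF]
      congr 1
      · rw [pow_mul, ← ζk, ← pow_mul, ← zpow_natCast ζ (k0 * i)]
        apply ζz
        obtain ⟨k1, hk1⟩ := hec
        obtain ⟨k2, hk2⟩ := huw
        refine ⟨- (k1 * w * i) - k2 * i, ?_⟩
        push_cast at hk1 hk2 ⊢
        linear_combination (- w * i) * hk1 - (i : ℤ) * hk2
      · simp only [hx]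
        have h4 := Pc0 ((g : ℤ) ^ (t0 + l ^ r * i)) (c * (1 + (l : ℤ) ^ (r + h) * w * i)) (by
          obtain ⟨k1, hk1⟩ := hc
          obtain ⟨k2, hk2⟩ := hg5 i
          refine ⟨(g : ℤ) ^ t0 * k2 - k1 * (1 + (l : ℤ) ^ (r + h) * w * i), ?_⟩
          rw [pow_add]
          linear_combination (g : ℤ) ^ t0 * hk2 - (1 + (l : ℤ) ^ (r + h) * w * i) * hk1)
        push_cast at h4
        rw [h4]
        congr 1
        push_cast
        have h5 : (l : ℚ) ^ (m + r + h) = (l : ℚ) ^ m * (l : ℚ) ^ (r + h) := by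
          rw [← pow_add, add_assoc]
        have h6 : (l : ℚ) ^ (r + h) ≠ 0 := pow_ne_zero _ hlq
        rw [h5]
        field_simp
    rw [h3, h2] at h1
    exact h1
  intro c e hec
  have hcl : IsCoprime c (l : ℤ) := by
    obtain ⟨s, hs⟩ := hdiv
    obtain ⟨k, hk⟩ := hec
    have h1 : IsCoprime (e * c) (l : ℤ) := by
      have : e * c = u + (l : ℤ) * (s * k) := by rw [hs] at hk; linear_combination hk
      rw [this]
      exact (IsCoprime.add_mul_left_left hul _)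
    exact h1.of_mul_left_right
  obtain ⟨t, ht⟩ := g4 (m + r) c hcl
  rcases ht with ht | ht
  · apply main t c e _ hec
    rw [← ZMod.intCast_zmod_eq_zero_iff_dvd]
    push_cast
    rw [ht]
    ring
  · have h1 := main t (-c) (-e) (by
      rw [← ZMod.intCast_zmod_eq_zero_iff_dvd]
      push_cast
      rw [ht]
      ring) (by
      have : -e * -c - u = e * c - u := by ring
      rw [this]
      exact hec)
    set F : ℤ → ℂ := fun j => ζ ^ (-e * j) * P (((-c : ℤ) : ℚ) / (l : ℚ) ^ (m + r + h) +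
      (j : ℚ) / (l ^ m : ℕ)) with hF
    have hFper : ∀ j : ℤ, F (j + (l ^ m : ℕ)) = F j := by
      intro j
      simp only [hF]
      congr 1
      · apply ζz
        exact ⟨-e, by ring⟩
      · rw [← Pz (((-c : ℤ) : ℚ) / (l : ℚ) ^ (m + r + h) + (j : ℚ) / (l ^ m : ℕ)) 1]
        congr 1
        push_cast
        rw [add_div (j : ℚ), div_self hlmq]
        ring
    have h2 := sum_perm (l ^ m) (pow_ne_zero m hl0) F hFper (-1) (isCoprime_one_left.neg_left)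
    have h3 : ∑ j ∈ range (l ^ m), ζ ^ (e * (j : ℤ)) *
        P ((c : ℚ) / (l : ℚ) ^ (m + r + h) + (j : ℚ) / (l ^ m : ℕ)) =
        ∑ j ∈ range (l ^ m), F (-1 * j) := by
      apply Finset.sum_congr rfl
      intro j _
      simp only [hF]
      congr 1
      · congr 1
        ring
      · rw [← Pneg]
        congr 1
        push_cast
        ring
    rw [h3, h2]
    exact h1

end Pool.Agent.TWV


end

section

/-!
# OT (Theorem T, problem MP_b78433_nt), block H, abstract part (helper60)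

`M = p^(n+1)`, `ξ` a primitive `M`-th root of unity, `v = V.valuation` (multiplicative), `x = v(1 - ξ)`, `x^((p-1) p^n) = v p` (`S_VX`). `HypT`, `PV`, `Yh`, `tM`, `coT`, `Ot_H`: `OT/Defs.lean`.

PROOF of `Ot_H`. Let `ρ = p/(1 - ξ)`. Only `a` modulo a power of `p` matters (`S_CNG`), so `a` is in a finite set. `P_c = PV c/ρ`, `c ∈ (ZMod M)ˣ`, is a vector symbol
(`S_VSY`), and by `S_LAG` for every level `N'` some `P_c` has `v ≥ 1` on a closed cycle of level `N'`. `TWV.S_TWV` gives `c` with `1 ≤ v(Sum_e ψ(e) P_c(∞, e/l^r))`, so `v p ≤ v(Sum PV c) x < v(Sum PV c)`.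

Every `def S_X : Prop` is the statement of a module, file `Pool/Agent/OT/H_X.lean`, namespace `Pool.Agent.OTH` (private lemmas in `Pool.Agent.OTH.X`), theorem `h_X (uses ..) : S_X`. Files import originals, never `MVF`.
-/

set_option autoImplicit false

namespace Pool.Agent.OTH

open _root_.MU3 Pool.Agent.MuSym Pool.Agent.MUXH OnePoint Pool.Agent.OBH Pool.Agent.OT
open Pool.Agent.TWR (Gen)
open Pool.Agent.TWV (IsVSym)

noncomputable section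

/-- (VX) valuations of `1 - ξ^m`. Module of helper3.

PROOF. `p = Φ_M(1) = ∏ (1 - ξ^i)` over the units `i` modulo `M`, all factors have the same valuation (`(1 - ξ^i)/(1 - ξ)` and its inverse are integral over `ℤ`); see the proof of DVN (`OB/HN_DVN.lean`). `1 - ξ^m = 1 - ξ'` with `ξ' = ξ^m` a primitive `p^(n+1-j)`-th root of unity:
`v(1 - ξ')^((p-1) p^(n-j)) = v p = x^((p-1) p^n)`. -/
def S_VX : Prop := ∀ (p : ℕ) (_ : p.Prime) (V : ValuationSubring ℂ) (_ : V.valuation (p : ℂ) < 1)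
  (n : ℕ) (ξ : ℂ) (_ : IsPrimitiveRoot ξ (p ^ (n + 1))),
  V.valuation (1 - ξ) ^ ((p - 1) * p ^ n) = V.valuation (p : ℂ) ∧
  V.valuation (1 - ξ) < 1 ∧ V.valuation (1 - ξ) ≠ 0 ∧
  ∀ (m : ℤ) (j : ℕ), j ≤ n → (p : ℤ) ^ j ∣ m → ¬ (p : ℤ) ^ (j + 1) ∣ m →
    V.valuation (1 - ξ ^ m) = V.valuation (1 - ξ) ^ p ^ j

/-- (LAG) closed cycles for the vector symbol. Module of helper3.

USES VX. PROOF. `nd` of `HypT` for `N'' = N' M²`: `C = (∞, h ∞)`, `h ∈ Γ₁(N'')`, `c₀`. The translated cycles `C_b = tM M b C = (∞, h_b ∞)`, `h_b = T_b h T_b⁻¹ = (α + bγ/M, β + b(δ - α)/M - b²γ/M²; γ, δ - bγ/M)`, are of level `N'` (`M² N' ∣ γ`, `M² N' ∣ δ - 1`, so also `M² N' ∣ α - 1`). Suppose that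
`v(PV c C') x < v p` for all closed cycles `C'` of level `N'` and all `c` prime to `p`. `Yh z (Q k) (C_b) = z^(-b) Yh z (Q k) C` for `z^M = 1` (reindex the sum; `Q k` is invariant under `x ↦ x + 1`: `sym` for `(1, 1; 0, 1)`, `nu1`). So `PV c (C_b) = Sum_K w_K z_K^(-b) Y_K`, the sum over the `4(p-1)` triples `K = (k, j, r)`,
`w_K = t(z₀^k) coT a j r` (`v(w_K) = 1`), `z_K = ξ^(c e_K)`, `e_K = a^(2r) (1+p)^j z₀^k`, `Y_K = Yh z_K (Q k) C`. Write `a = 1 + p a'`, `p ∤ a'`: `a² ≡ 1 + 2 p a'`, `a² (1 + p) ≡ 1 + p(2a' + 1)`, `a² - (1 + p) ≡ p (2a' - 1)` modulo `p²`. `p` does not divide both `2a' + 1` and `2a' - 1`. If `p ∤ 2a' + 1` let `K₀ = (0, 0, 0)`, otherwise `K₀ = (0, 1, 0)`: the differences of `e_(K₀)` and the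
other `e_K` are prime to `p` for `k ≠ 0` (`z₀^k ≢ 1` modulo `p` for `0 < k < p - 1`: `gen` and the pigeonhole principle), and exactly divisible by `p` for the three others with `k = 0`. Choose `c` with `c e_(K₀) ≡ c₀` modulo `M`. `L(X) = ∏_(K ≠ K₀) (X - z_K⁻¹)`, coefficients in `V`: `Sum_b L_b PV c (C_b) = w_(K₀) L(z_(K₀)⁻¹) Y_(K₀)` (the other `z_K⁻¹` are roots of `L`), so
`v(Y_(K₀)) x^(4(p-2) + 3p) x < v p` by VX. But `v p < v(Y_(K₀)) x^(p^(n-2))` (`nd`) and `7 p - 7 ≤ p^3 ≤ p^(n-2)`, `x < 1`. -/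
def S_LAG : Prop := ∀ (p n : ℕ) (V : ValuationSubring ℂ) (N : ℕ) (nu : ℤ → ℂ) (s : ℂ) (z₀ : ℤ)
  (t : ℤ → ℂ) (Q : ℕ → OnePoint ℚ → OnePoint ℚ → ℂ) (ξ : ℂ) (l : ℕ)
  (_ : HypT p n V N nu s z₀ t Q ξ l) (a : ℤ) (_ : (p : ℤ) ∣ a - 1)
  (_ : ¬ (p : ℤ) ^ 2 ∣ a - 1) (N' : ℕ) (_ : N' ≠ 0) (_ : N ∣ N'),
  ∃ (α β γ δ c : ℤ), ¬ (p : ℤ) ∣ c ∧ α * δ - β * γ = 1 ∧ (N' : ℤ) ∣ γ ∧ (N' : ℤ) ∣ δ - 1 ∧
    V.valuation (p : ℂ) ≤ V.valuation (PV p n ξ a z₀ t Q c ∞ (mob α β γ δ ∞)) *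
      V.valuation (1 - ξ)

/-- the permutation of the components: `d ↦ d⁻²` in `(ZMod m)ˣ` -/
def sE (m : ℕ) (d : ℤ) : (ZMod m)ˣ :=
  letI := Classical.propDecidable (IsUnit (d : ZMod m))
  if h : IsUnit (d : ZMod m) then (h.unit ^ 2)⁻¹ else 1

/-- the vector symbol, `ρ = p/(1 - ξ)` -/
def PE (p n : ℕ) (ξ : ℂ) (a z₀ : ℤ) (t : ℤ → ℂ) (Q : ℕ → OnePoint ℚ → OnePoint ℚ → ℂ)
    (e : (ZMod (p ^ (n + 1)))ˣ) (x y : OnePoint ℚ) : ℂ :=
  (1 - ξ) / p * PV p n ξ a z₀ t Q ((e : ZMod (p ^ (n + 1))).val : ℤ) x y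

/-- (VSY) the hypotheses of `TWV.S_TWV`. Module of helper34.

PROOF. `PV` depends only on `c` modulo `M`. Equivariance: `g = (α β; γ δ)`, `N M² ∣ γ`: `T_b g = g' T_(b')`, `b' = b δ²`, `g' = (α + bγ/M, β + (bδ - b'α)/M - b b' γ/M²; γ, δ - b'γ/M)` is integral (`α δ ≡ 1` modulo `M`), of level `N`, with `nu(δ - b'γ/M) = nu δ`. So `Yh (ξ^m) (Q k) (g x) (g y) = nu δ * Yh (ξ^(m f)) (Q k) x y`, `f δ² ≡ 1` modulo `M`. Evenness: `-x + b/M = -(x - b/M)`,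
`Q k (-(..)) = s Q (k + (p-1)/2)(..)`, so `Yh (ξ^m) (Q k) (-x) (-y) = s Yh (ξ^(-m)) (Q (k + (p-1)/2)) x y`; `z₀^((p-1)/2) ≡ -1` modulo `M` (its square is `1` modulo `M`, and it is not `1` modulo `p`), `t(z₀^((p-1)/2)) = s`; reindex `k`. -/
def S_VSY : Prop := ∀ (p n : ℕ) (V : ValuationSubring ℂ) (N : ℕ) (nu : ℤ → ℂ) (s : ℂ) (z₀ : ℤ)
  (t : ℤ → ℂ) (Q : ℕ → OnePoint ℚ → OnePoint ℚ → ℂ) (ξ : ℂ) (l : ℕ)
  (_ : HypT p n V N nu s z₀ t Q ξ l) (a : ℤ),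
  IsVSym (N * p ^ (2 * (n + 1))) nu (sE (p ^ (n + 1))) (PE p n ξ a z₀ t Q) ∧
  (∀ e x y, IsAlgebraic ℚ (PE p n ξ a z₀ t Q e x y)) ∧
  (∀ e (x : ℚ), PE p n ξ a z₀ t Q e ∞ ((-x : ℚ) : OnePoint ℚ) =
    PE p n ξ a z₀ t Q e ∞ (x : OnePoint ℚ)) ∧
  (∀ e (x : ℚ), ∑ k ∈ Finset.range l,
    PE p n ξ a z₀ t Q e ∞ ((x + (k : ℚ) / l : ℚ) : OnePoint ℚ) = 0) ∧
  sE (p ^ (n + 1)) 1 = 1 ∧
  (∀ d d' : ℤ, ((N * p ^ (2 * (n + 1)) : ℕ) : ℤ) ∣ d - d' →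
    sE (p ^ (n + 1)) d = sE (p ^ (n + 1)) d') ∧
  (∀ c : ℤ, ¬ (p : ℤ) ∣ c → ∃ e, ∀ x y, PE p n ξ a z₀ t Q e x y =
    (1 - ξ) / p * PV p n ξ a z₀ t Q c x y) ∧
  ∀ e : (ZMod (p ^ (n + 1)))ˣ, ¬ (p : ℤ) ∣ ((e : ZMod (p ^ (n + 1))).val : ℤ)

/-- (CNG) only `a` modulo a power of `p` matters. Module of helper51.

PROOF. `K₁` from `bdd`, `K = K₁ + n + 2`. `p^(n+1) ∣ a - a'`, so the roots of unity are the same; the coefficients `coT a j r` and `coT a' j r` differ by multiples of `p^(K₁+1)`, and `v(p^(K₁+1) Q k x y) ≤ v p`. -/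
def S_CNG : Prop := ∀ (p n : ℕ) (V : ValuationSubring ℂ) (N : ℕ) (nu : ℤ → ℂ) (s : ℂ) (z₀ : ℤ)
  (t : ℤ → ℂ) (Q : ℕ → OnePoint ℚ → OnePoint ℚ → ℂ) (ξ : ℂ) (l : ℕ)
  (_ : HypT p n V N nu s z₀ t Q ξ l), ∃ K : ℕ, 2 ≤ K ∧ ∀ a a' : ℤ, (p : ℤ) ^ K ∣ a - a' →
  ∀ (c : ℤ) (x y : OnePoint ℚ), V.valuation (PV p n ξ a z₀ t Q c x y - PV p n ξ a' z₀ t Q c x y) ≤
    V.valuation (p : ℂ)

/-! (HT) THE RESULT: `Ot_H`. Module of helper51, file `H_HT.lean`: `theorem h_HT (h1 : S_LAG) (h2 : S_VSY) (h3 : S_CNG) (h4 : S_VX) (h5 : TWV.S_TWV) : Ot_H` (`I` = the classes `a` modulo `p^K` with `p ∣ a - 1`, `¬ p^2 ∣ a - 1`,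
`K ≥ 2`; `(N M²)` for `N`; `p^(2 (n+1)) N ∣ N'` gives `N ∣ N'`). -/

/-! ## The field `nd` of `HypT` from `HypQ` (Theorem G, DVN, DVR) -/

/-- ND: closed cycles of all levels on which the Fourier coefficient of `Q` is not too small. -/
def ND (p n : ℕ) (V : ValuationSubring ℂ) (N : ℕ) (ξ : ℂ) (Q : OnePoint ℚ → OnePoint ℚ → ℂ) : Prop :=
  ∀ N' : ℕ, N' ≠ 0 → N ∣ N' → ∃ α β γ δ c : ℤ, α * δ - β * γ = 1 ∧ (N' : ℤ) ∣ γ ∧
    (N' : ℤ) ∣ δ - 1 ∧ ¬ (p : ℤ) ∣ c ∧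
    V.valuation (p : ℂ) < V.valuation (Yh (p ^ (n + 1)) (ξ ^ c) Q ∞ (mob α β γ δ ∞)) *
      V.valuation (1 - ξ) ^ p ^ (n - 2)

/-- (NDN) `er = 1`.

USES VX, `So_DVN` (`OB/HN_DVN.lean`), `So_TYP` (`OB/HN_TYP.lean`). PROOF. `c = 1`, `ζ = ξ^c`. `G` for `N'`: `h ∈ Γ₁(N')`, `C = (∞, h ∞)`, `y b = PT p Q (tM M b ∞) (tM M b (h ∞))`. `y` has period `M` (`sym` for `(1, 1; 0, 1)`, `nu1`), `Sum_j y(b + j p^n) = 0` (depletion: `Q x y = Q ∞ y - Q ∞ x`, `tM M (b + j p^n) x = tM M b x + j/p`, and the hypothesis for `p x'` in place of `x`),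
values in `pi KI` (`typ`), `v p ≤ v(y 0)^((p-1) p²)`, so `1 ≤ v(y 0)` (`gap`) and `1 ≤ v(y 0)^(p-1) v p` (TYP (b), `e = 1`; as in `OB/HN_HN.lean`). DVN: `v p < v(Sum_b ζ^b y b)`. `Sum_b ζ^b y b = (1 - ζ^(-p^(n-2))) Yh M ζ Q C` (`1/p³ = p^(n-2)/M`), `v(1 - ζ^(-p^(n-2))) = x^(p^(n-2))` (VX). -/
def S_NDN : Prop :=
  ∀ (p : ℕ) (V : ValuationSubring ℂ) (N₀ s₀ q' i : ℕ) (nu : ℤ → ℂ)
    (Q : OnePoint ℚ → OnePoint ℚ → ℂ) (pi : ℂ) (KI : Subfield ℂ),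
    HypQ p V N₀ s₀ nu Q pi KI →
    (∀ x : ℚ, ∑ j ∈ Finset.range p, Q ∞ (((x + j) / p : ℚ) : OnePoint ℚ) = 0) →
    (∀ w ∈ KI, V.valuation w < 1 → V.valuation w ≤ V.valuation (p : ℂ)) →
    q' ≤ i * (p - 1) → i < q' → q' < (p - 1) * p ^ 2 →
    V.valuation pi ^ q' * V.valuation (p : ℂ) ^ i = 1 → ∀ (n : ℕ), 2 ≤ n → ∀ ξ : ℂ,
    IsPrimitiveRoot ξ (p ^ (n + 1)) → ND p n V (p ^ (s₀ + 1) * N₀) ξ Q

/-- (NDR) `er = 2`.

USES VX, `So_DVR`, `So_FAC`, `So_TYP` (`OB/HN_DVR.lean`, `HN_FAC.lean`, `HN_TYP.lean`). PROOF. As NDN with DVR, as in `OB/HN_HR.lean`: `c` with `(ξ^c)^(p^n) om = 1` (`ξ^(p^n)` is a primitive `p`-th root of unity; `c` is prime to `p`). `y b` as in NDN, `Sum_j J(j | p) y(b + j p^n) = G y b` (the relation for `Q ∞ x`, differences), so FAC gives `F`, `H` and the relation for DVR. -/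
def S_NDR : Prop :=
  ∀ (p : ℕ) (V : ValuationSubring ℂ) (N₀ s₀ i : ℕ) (nu : ℤ → ℂ)
    (Q : OnePoint ℚ → OnePoint ℚ → ℂ) (pi : ℂ) (KI : Subfield ℂ) (om : ℂ),
    HypQ p V N₀ s₀ nu Q pi KI → IsPrimitiveRoot om p →
    (∀ x : ℚ, ∑ j ∈ Finset.range p, (jacobiSym (j : ℤ) p : ℂ) *
      Q ∞ ((x + (j : ℚ) / p : ℚ) : OnePoint ℚ) =
      (∑ j ∈ Finset.range p, (jacobiSym (j : ℤ) p : ℂ) * om ^ j) * Q ∞ (x : OnePoint ℚ)) →
    (∀ w ∈ KI, V.valuation w < 1 → V.valuation w ^ 2 ≤ V.valuation (p : ℂ)) →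
    2 ≤ i → i < p - 1 → V.valuation pi ^ (2 * (p - 1)) * V.valuation (p : ℂ) ^ i = 1 →
    ∀ (n : ℕ), 2 ≤ n → ∀ ξ : ℂ, IsPrimitiveRoot ξ (p ^ (n + 1)) → ND p n V (p ^ (s₀ + 1) * N₀) ξ Q

end

end Pool.Agent.OTH


end

section

/-!
# OT (Theorem T, problem MP_b78433_nt), block I (helper79): from `O_HETA` (blocks H, HB) and `EInpO` (block E) to the input (I3) of block K, all branches

Every statement is a `def Ti_X : Prop`; the module X proves `theorem ti_X (h : ..) ... : Ti_X` in the file `Pool/Agent/OT/I_X.lean`, namespace `Pool.Agent.OTI`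
(private lemmas in `Pool.Agent.OTI.Xx`); the hypotheses are the statements named under USES (fewer is fine). Models: `OB/I_*.lean` (statements `OB/StI.lean`).

THE ARGUMENT. `K' = K B_(m+1)`, level `f' = f l^(m+1+h)`, `n = 5`, `D = K' B_5 ∋ ζ` of order `M = p^(n+1)`. `Δ = NC h Bn ≅ Gal(K'/k)`, all of it: `τ ∈ γ^j Δ` iff `N(τ)^(p-1) ≡ (1+p)^(j(p-1))` modulo `M` iff `N(τ) ≡ z₀^k (1+p)^j` for one `k < p - 1` (NCB, ZAR, XMF). So the sums over `Δ` are the sums `SG` of `O_HETA` (THF).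
The characters `X` of `Gal(K'/k)` which are not trivial on `Gal(K'/K B_m)` come from a finite family and a primitive even `ψ` modulo `l^(m+1+h)` (`S_E0L`), so `O_HETA` gives one `r₀` for all of them. If the product were a `p`-th power, the estimate of block E at the translate `γ^k'` (POW) contradicts `O_HETA`.
-/

set_option autoImplicit false

open NumberField

namespace Pool.Agent.OTI

open _root_.MU3 Pool.Agent.MU3 Pool.Agent.MU3A Pool.Agent.MU3B Pool.Agent.RI Pool.Agent.RID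
  Pool.Agent.MUX Pool.Agent.MUXK Pool.Agent.MUXI Pool.Agent.NS Pool.Agent.NSI Pool.Agent.OB
  Pool.Agent.OBI Pool.Agent.OT
open Pool.Agent.MU3I (zt)
open Pool.Agent.TWR (Gen)

noncomputable section

/-- the sets `XX`, as `XM` (`MUX/StIX.lean`), for a group `Δ` which contains the elements of order prime to `p` -/
structure XMF {A B : ℤ} {n₀ : ℕ} {ι : Type} (R : Reps A B n₀ ι) (p f n : ℕ) (z₀ : ℤ) {G : Type}
    [Group G] (γ : G) (Δ : Subgroup G)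
    (X : G → Set (ι × (OO A B ⧸ idl (A := A) (B := B) (lvX p f n)))) : Prop where
  comm : ∀ σ τ : G, σ * τ = τ * σ
  cop : ∀ τ, ∀ q ∈ X τ, IsCoprime (Quotient.out q.2 : OO A B) ((lvX p f n : ℕ) : OO A B)
  ex : ∀ q : ι × (OO A B ⧸ idl (A := A) (B := B) (lvX p f n)),
    IsCoprime (Quotient.out q.2 : OO A B) ((lvX p f n : ℕ) : OO A B) → ∃ τ, q ∈ X τ
  uniq : ∀ q τ τ', q ∈ X τ → q ∈ X τ' → τ = τ'
  nrm : ∀ q τ, q ∈ X τ → ∀ j : ℕ, (τ * (γ ^ j)⁻¹ ∈ Δ ↔ ∃ k < p - 1,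
    ((p ^ (n + 1) : ℕ) : ℤ) ∣ nm (Quotient.out q.2) * nI (R.b q.1) - z₀ ^ k * (1 + (p : ℤ)) ^ j)

/-- (Z0) existence of `z₀`.

PROOF. `g` a generator modulo `p` (`(ZMod p)ˣ` is cyclic: Mathlib), `z₀ = g^(p^n)`. `z₀ ≡ g` modulo `p` (Fermat), so `gen`. `g^(p-1) ≡ 1` modulo `p`, so `z₀^(p-1) = (g^(p-1))^(p^n) ≡ 1` modulo `p^(n+1)` (`dvd_sub_pow_of_dvd_sub`). -/
def Ti_Z0 : Prop := ∀ p : ℕ, p.Prime → p ≠ 2 → ∀ n : ℕ, ∃ z₀ : ℤ, IsZ0 p n z₀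

/-- (ZAR) arithmetic of `z₀`.

PROOF. `p ∤ z₀`: `p ∣ z₀^(p-1) - 1`, `p - 1 ≠ 0`. Injectivity: `k ↦ z₀^k`, from `Fin (p-1)` to `(ZMod p)ˣ`, is surjective (`gen`), both have `p - 1` elements. The equivalence: (←) `z₀^(p-1) ≡ 1` modulo `p^(n+1)`. (→) `gen`: `p ∣ N - z₀^k`, `k < p - 1`. In `ZMod (p^(n+1))`: `u = N (z₀^k (1+p)^j)⁻¹` has `u^(p-1) = 1` and `u ≡ 1` modulo `p`, so
`u^(p^n) = 1` (`dvd_sub_pow_of_dvd_sub`) and `u = 1` (`p - 1` is prime to `p^n`). Or without inverses: `x = N`, `y = z₀^k (1+p)^j`: `p^(n+1) ∣ x^(p-1) - y^(p-1) = (x - y) Σ x^i y^(p-2-i)`, and `Σ x^i y^(p-2-i) ≡ (p-1) y^(p-2)` modulo `p` is prime to `p`. -/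
def Ti_ZAR : Prop := ∀ (p n : ℕ), p.Prime → p ≠ 2 → ∀ z₀ : ℤ, IsZ0 p n z₀ →
  ¬ (p : ℤ) ∣ z₀ ∧
  (∀ k k' : ℕ, k < p - 1 → k' < p - 1 → (p : ℤ) ∣ z₀ ^ k - z₀ ^ k' → k = k') ∧
  ∀ (N : ℤ) (j : ℕ), ¬ (p : ℤ) ∣ N →
    (((p ^ (n + 1) : ℕ) : ℤ) ∣ N ^ (p - 1) - ((1 + (p : ℤ)) ^ j) ^ (p - 1) ↔
      ∃ k < p - 1, ((p ^ (n + 1) : ℕ) : ℤ) ∣ N - z₀ ^ k * (1 + (p : ℤ)) ^ j)

/-- (NCB) two embeddings of `D ⊇ RB p n = ℚ(ζ + ζ⁻¹)` agree on the layer `Bn` iff `a^(p-1) ≡ b^(p-1)` modulo `M = p^(n+1)`. MODEL: `OB/I_NCR.lean` (lemmas of `NCRx`).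

PROOF. `E = ℚ(ζ)`, `Bn ≤ RB p n ≤ E`. `Gal(E/ℚ) ≅ (ZMod M)ˣ` is cyclic of order `p^n (p-1)`, and `Gal(E/Bn)` is of order `p - 1` (`[Bn : ℚ] = p^n`), so it is the group of ALL `σ` with `σ^(p-1) = 1` (these are `p - 1` elements since the group is cyclic). Let `s`, `t ∈ Gal(E/ℚ)`, `s ζ = ζ^a`, `t ζ = ζ^b`. `φ` and `s` agree on
`ζ + ζ⁻¹`, so on `RB p n ≥ Bn` (as `XMXx.eqB` in `OB/I_XMX.lean`), the same for `ψ`, `t`. So `φ = ψ` on `Bn` iff `s = t` on `Bn` iff `s t⁻¹ ∈ Gal(E/Bn)` iff `s^(p-1) = t^(p-1)` (abelian) iff `ζ^(a^(p-1)) = ζ^(b^(p-1))`. -/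
def Ti_NCB : Prop :=
  ∀ (p : ℕ) [Fact p.Prime] (_ : p ≠ 2) (n : ℕ) (Bn : IntermediateField ℚ ℂ), IsLayer p n Bn →
    Bn ≤ RB p n → ∀ D : IntermediateField ℚ ℂ, RB p n ≤ D →
    ∀ (φ ψ : ↥D →+* ℂ) (a b : ℕ), ¬ p ∣ a → ¬ p ∣ b →
    ∀ y : ↥D, (y : ℂ) = zt (p ^ (n + 1)) + (zt (p ^ (n + 1)))⁻¹ →
    φ y = zt (p ^ (n + 1)) ^ a + (zt (p ^ (n + 1)) ^ a)⁻¹ →
    ψ y = zt (p ^ (n + 1)) ^ b + (zt (p ^ (n + 1)) ^ b)⁻¹ →
    ((∀ z : ↥D, (z : ℂ) ∈ Bn → φ z = ψ z) ↔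
      ((p ^ (n + 1) : ℕ) : ℤ) ∣ (a : ℤ) ^ (p - 1) - (b : ℤ) ^ (p - 1))

/-- (XMF) the sets `XX` satisfy `XMF` for the group `NC h Bn`. MODEL: `OB/I_XMX.lean` (the same proof; at the end NCB for `a = nI (sp x * cjI b)`, `b = nI (c^j)` with `nI c ≡ ± (1 + p)` modulo `M`, and ZAR, in place of `eqB`, `pm_iff`; `p - 1` is even).

USES Si_XXF, Si_ARF, NCB, ZAR. -/
def Ti_XMF : Prop :=
  ∀ (p : ℕ) [Fact p.Prime] (A B : ℤ) (f : ℕ),
    SetQ p A B f → TorX A B → ∀ (ι : Type) (R : Reps A B (p * f) ι)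
    (D : IntermediateField ℚ ℂ) (n : ℕ) (h : kk A B ≤ D) (Bn : IntermediateField ℚ ℂ),
    IsLayer p n Bn → Bn ≤ RB p n → RB p n ≤ D →
    (∀ y ∈ D, y ∈ RF (idl (A := A) (B := B) (lvX p f n))) → letI := algC h
    ∀ (_ : IsGalois (kk A B) ↥D) (γ : ↥D ≃ₐ[kk A B] ↥D),
    (∀ x : ↥D, (x : ℂ) = zt (p ^ (n + 1)) + (zt (p ^ (n + 1)))⁻¹ →
        ((γ x : ↥D) : ℂ) =
          zt (p ^ (n + 1)) ^ (1 + p) + (zt (p ^ (n + 1)) ^ (1 + p))⁻¹) →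
    ∀ z₀ : ℤ, IsZ0 p n z₀ →
    XMF R p f n z₀ γ (NC h Bn) (fun τ => XX R (lvX p f n) h τ)

/-- (THF) the sums over `Δ` are the sums `SG`. MODEL: `OB/I_TH.lean`.

USES Oi_TSH (`OB/StI.lean`), ZAR. PROOF. As there. `T = (1+p)^j ≡ 1` modulo `p`. For `x` prime to the level: `∃ δ, q ∈ X (γ^j δ)` iff `∃ k < p - 1, M ∣ nm x N - z₀^k T` (`N = nI (b i)`), with at most one `k` (ZAR), and then `t(nm x) t(N) = t(z₀^k)`. If `x` is not prime to the level then `e x = 0` or none of the congruences holds (`THx.cop_lv`, `cop_f`).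
So the indicator function is the sum over `k < p - 1` of the indicator functions, with the factor `t(z₀^k) t(N)⁻¹`; for every `k` TSH with `z₀^k T`. -/
def Ti_THF : Prop :=
  ∀ (p : ℕ) (A B : ℤ) (f : ℕ),
    SetQ p A B f → ∀ g : Ideal (OO A B), idl (A := A) (B := B) (lvX p f 0) ≤ g → g ≤ idl f →
    ∀ (ι : Type) [Fintype ι] (R : Reps A B (p * f) ι) (n : ℕ) (z₀ : ℤ), IsZ0 p n z₀ →
    ∀ (G : Type) [Group G] [Finite G] (γ : G) (Δ : Subgroup G) [Fintype Δ]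
    (X : G → Set (ι × (OO A B ⧸ idl (A := A) (B := B) (lvX p f n)))), XMF R p f n z₀ γ Δ X →
    ∀ (χ : Δ →* ℂˣ) (e0 : OO A B → ℂ) (kp c : ι → ℂ) (w e : OO A B → ℂ) (t : ℤ → ℂ) (q₁ : ℕ),
    q₁ ≠ 0 → IsTw p q₁ t → IsEI g e →
    (∀ x, IsCoprime x ((lvX p f 0 : ℕ) : OO A B) → e0 x * w x = e x * t (nm x)) →
    (∀ (δ : Δ) (j : ℕ), ∀ q ∈ X (γ ^ j * (δ : G)),
      (((χ δ)⁻¹ : ℂˣ) : ℂ) = kp q.1 * e0 (Quotient.out q.2)) →
    ∀ j : ℕ,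
    ∑ δ : Δ, (((χ δ)⁻¹ : ℂˣ) : ℂ) * ∑ᶠ q ∈ X (γ ^ j * (δ : G)), w (Quotient.out q.2) *
        c q.1 * dlX (R.L q.1) (aX p f) (pt R (lvX p f n) q.1 (Quotient.out q.2)) =
      SG p R (lvX p f n) (p ^ (n + 1)) (aX p f) e (kkT R kp c t) t z₀ ((1 + (p : ℤ)) ^ j)

/-- (POW) if the product is a `p`-th power then the sum is small, with the translate `γ^k'`. MODEL: `I31.pows` in `OB/I_I31.lean`.

USES Sn_FOU, MU3I.St_ITG. PROOF. As there, FOU for `T τ = TTN .. (γ^k' τ)` (`EInpO.ew` holds for all `τ'`; the group is commutative). -/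
def Ti_POW : Prop :=
  ∀ (p er : ℕ) (A B : ℤ) (P : Ideal (OO A B)) (V : ValuationSubring ℂ) (f : ℕ)
    (ι : Type) (R : Reps A B (p * f) ι) (u : ℂ)
    (n : ℕ) (D : IntermediateField ℚ ℂ) [FiniteDimensional ℚ D] (h : kk A B ≤ D)
    (C : (letI := algC h; D ≃ₐ[kk A B] D) → ℂ) (_ : EInpO p er P V f R u n h C)
    (w : OO A B → ℂ) (_ : IsTeiP p er P V w),
    letI := algC h
    ∀ (_ : ∀ σ τ : D ≃ₐ[kk A B] D, σ * τ = τ * σ) (c₁ : ℂ) (hc : c₁ ∈ D) (_ : c₁ = C 1)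
      (γ : D ≃ₐ[kk A B] D) (Δ : Subgroup (D ≃ₐ[kk A B] D)) [Fintype Δ] (N k' : ℕ) (b : Δ → ℕ)
      (X : Δ →* ℂˣ) (_ : (∑ δ : Δ, (b δ : ℂ) * (X δ : ℂ)) ∉ V.nonunits) (y : D)
      (_ : y ^ p = ∏ δ : Δ, ((δ : D ≃ₐ[kk A B] D) ((Tg γ)^[N] ⟨c₁, hc⟩)) ^ b δ),
      V.valuation ((∑ j ∈ Finset.range (N + 1),
        (((-1 : ℤ) ^ (N - j) * (N.choose j : ℤ) : ℤ) : ℂ) *
        ∑ δ : Δ, (((X δ)⁻¹ : ℂˣ) : ℂ) * TTN R w (lvX p f n)
          (aX p f) h (γ ^ (k' + j) * (δ : D ≃ₐ[kk A B] D))) / u) ≤ V.valuation (p : ℂ)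

/-- (CHK) `χ` not trivial on `H` implies that its lift `X` (`Oi_CHI`) is not trivial on `H`.

PROOF. Otherwise `X = 1` on `H`; `Δ' = H`, `j` the inclusion: the sum is the integer `Σ_(h ∈ H) θ((χ h)⁻¹).val`, which is modulo `p` equal to `θ(Σ_(h ∈ H) (χ h)⁻¹) = θ(0) = 0` (`χ` is not trivial on `H`), so it is in `V.nonunits`. -/
def Ti_CHK : Prop :=
  ∀ (p : ℕ) [Fact p.Prime] (V : ValuationSubring ℂ) (_ : (p : ℂ) ∈ V.nonunits)
    (Δ : Type) [Group Δ] [Finite Δ] (χ : Δ →* (IsLocalRing.ResidueField V)ˣ) (X : Δ →* ℂˣ)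
    (_ : ∀ (Δ' : Type) [Group Δ'] [Fintype Δ'] (j : Δ' →* Δ), Function.Injective j →
      ∃ θ : IsLocalRing.ResidueField V →+ ZMod p,
        (∑ δ : Δ', ((θ ((χ (j δ))⁻¹ : (IsLocalRing.ResidueField V)ˣ)).val : ℂ) *
          (X (j δ) : ℂ)) ∉ V.nonunits)
    (H : Subgroup Δ), (∃ g ∈ H, χ g ≠ 1) → ∃ g ∈ H, X g ≠ 1

/-- (EIX) the character `e ψ(N x)`.

PROOF. `x - y ∈ idl (p f l^r)` implies `p f l^r ∣ nm x - nm y` (`nm x - nm y = x star x - y star y` is in the ideal, and an integer in `idl m` is divisible by `m`; see how `OB/I_EPS.lean`, `OT/L_E0L.lean` do it). Support: `e x ≠ 0` iff `x` is prime to `p f`, iff prime to `p f l^r` (`l ∣ f`); then `nm x = x star x` is prime to `l` and `ψ (nm x) ≠ 0`. `nm (-1) = 1`. -/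
def Ti_EIX : Prop :=
  ∀ (p : ℕ) (A B : ℤ) (f : ℕ), SetQ p A B f → ∀ (l r : ℕ), l.Prime → l ∣ f →
    ∀ e : OO A B → ℂ, IsEI (idl (A := A) (B := B) (p * f)) e →
    ∀ ψ : DirichletCharacter ℂ (l ^ r),
    IsEI (idl (A := A) (B := B) (p * (f * l ^ r))) (fun x => e x * ψ (nm x))

/-- THE RESULT of block I: for all large `m`, the input (I3) of block K for `K' = K B_(m+1)`, `N = 1`, `n = 5`, and every `χ` which is not trivial on
`Gal(K B_(m+1)/K B_m)`. Module of helper79. -/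
def O_IT : Prop :=
  ∀ (l g h : ℕ), Gen l g h →
    ∀ (p er : ℕ) [Fact p.Prime] (A B : ℤ) (P : Ideal (OO A B)) (V : ValuationSubring ℂ) (f : ℕ),
    SetO p er A B P V f → l ^ h ∣ f → ∀ (hl : l ∣ f), TorX A B →
    ∀ (ι : Type) [Fintype ι] (R : Reps A B (p * f) ι) (u el lam : ℂ),
    GoodL V (R.L R.i0) u el lam →
    ∀ (K : IntermediateField ℚ ℂ) [FiniteDimensional ℚ K], kk A B ≤ K →
    (∃ ω ∈ K, IsPrimitiveRoot ω p) →
    (∀ y ∈ K, y ∈ RF (idl (A := A) (B := B) (lvX p f 0))) →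
    ∀ (Bl : ℕ → IntermediateField ℚ ℂ), (∀ m, IsLayer l m (Bl m)) → Monotone Bl →
    ∃ r₀ : ℕ, ∀ m, r₀ ≤ m → ∀ (Bn : ℕ → IntermediateField ℚ ℂ)
    [FiniteDimensional ℚ ↥(K ⊔ Bl (m + 1))]
    [∀ n, FiniteDimensional ℚ ↥((K ⊔ Bl (m + 1)) ⊔ Bn n)]
    (hB : BasX p (kk A B) (K ⊔ Bl (m + 1)) Bn)
    (_ : ¬ p ∣ Module.finrank (kk A B) (IntermediateField.extendScalars hB.hk))
    (hk : kk A B ≤ (K ⊔ Bl (m + 1)) ⊔ Bn 5) (hkK : kk A B ≤ K ⊔ Bl (m + 1))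
    (C : (letI := algC hk; ↥((K ⊔ Bl (m + 1)) ⊔ Bn 5) ≃ₐ[kk A B]
      ↥((K ⊔ Bl (m + 1)) ⊔ Bn 5)) → ℂ)
    (_ : EInpO p er P V (f * l ^ (m + 1 + h)) (RL R l (m + 1 + h) hl) u 5 hk C) (c₀ : ℂ)
    (mem : c₀ ∈ (K ⊔ Bl (m + 1)) ⊔ Bn 5) (_ : c₀ = C (letI := algC hk; 1))
    (χ : (letI := algC hkK; (↥(K ⊔ Bl (m + 1)) ≃ₐ[kk A B] ↥(K ⊔ Bl (m + 1))) →*
      (IsLocalRing.ResidueField V)ˣ)),
    (letI := algC hkK; ∃ s : ↥(K ⊔ Bl (m + 1)) ≃ₐ[kk A B] ↥(K ⊔ Bl (m + 1)),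
      (∀ x : ↥(K ⊔ Bl (m + 1)), (x : ℂ) ∈ K ⊔ Bl m → s x = x) ∧ χ s ≠ 1) →
    I3At (IsLocalRing.ResidueField V) p (kk A B) (K ⊔ Bl (m + 1)) Bn hkK χ 1 5 hk c₀ mem

end

end Pool.Agent.OTI


end

section

/-!
# OT, block H: module CNG (helper51)

Only the class of `a` modulo a power of `p` matters for the vector symbol `PV`: `h_CNG : S_CNG`.
-/

set_option autoImplicit false

namespace Pool.Agent.OTH

open _root_.MU3 Pool.Agent.MuSym Pool.Agent.MUXH OnePoint Pool.Agent.OBH Pool.Agent.OT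
open Pool.Agent.TWR (Gen)
open Pool.Agent.TWV (IsVSym)

noncomputable section

namespace CNG

open Pool.Agent.MUXH.Hz (val_int val_int_p val_root val_p)

section

variable {p n : ℕ} {V : ValuationSubring ℂ} {N : ℕ} {nu : ℤ → ℂ} {s : ℂ} {z₀ : ℤ} {t : ℤ → ℂ}
  {Q : ℕ → OnePoint ℚ → OnePoint ℚ → ℂ} {ξ : ℂ} {l : ℕ}

/-- `v(1 - ξ) < 1` -/
theorem v_xi (H : HypT p n V N nu s z₀ t Q ξ l) : V.valuation (1 - ξ) < 1 := by
  have h1 := val_p p H.pp V n ξ H.xi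
  rw [← neg_sub, Valuation.map_neg]
  by_contra h
  have h2 : (1 : V.ValueGroup) ≤ V.valuation (ξ - 1) ^ (p ^ n * (p - 1)) := one_le_pow₀ (not_lt.1 h)
  rw [h1] at h2
  exact absurd H.vp (not_lt.2 h2)

theorem xi_ne (H : HypT p n V N nu s z₀ t Q ξ l) : (1 : ℂ) - ξ ≠ 0 := by
  intro h
  have h1 : ξ = 1 := by linear_combination -h
  have h2 : p ^ (n + 1) = 1 := by
    have := H.xi
    rw [h1] at this
    exact this.unique IsPrimitiveRoot.one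
  have h3 : 1 < p ^ (n + 1) := Nat.one_lt_pow (by omega) H.pp.one_lt
  omega

theorem p_ne (H : HypT p n V N nu s z₀ t Q ξ l) : (p : ℂ) ≠ 0 := Nat.cast_ne_zero.2 H.pp.ne_zero

theorem v_p0 (H : HypT p n V N nu s z₀ t Q ξ l) : (0 : V.ValueGroup) < V.valuation (p : ℂ) :=
  lt_of_le_of_ne zero_le ((Valuation.ne_zero_iff _).2 (p_ne H)).symm

/-- `v p < v ρ` -/
theorem v_rho (H : HypT p n V N nu s z₀ t Q ξ l) :
    V.valuation (p : ℂ) < V.valuation ((p : ℂ) / (1 - ξ)) := by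
  have h0 : (0 : V.ValueGroup) < V.valuation (1 - ξ) :=
    lt_of_le_of_ne zero_le ((Valuation.ne_zero_iff _).2 (xi_ne H)).symm
  rw [map_div₀, lt_div_iff₀ h0]
  calc V.valuation (p : ℂ) * V.valuation (1 - ξ) < V.valuation (p : ℂ) * 1 :=
        mul_lt_mul_of_pos_left (v_xi H) (v_p0 H)
    _ = V.valuation (p : ℂ) := mul_one _

/-- `z₀` is prime to `p` -/
theorem z0_cop (H : HypT p n V N nu s z₀ t Q ξ l) (k : ℕ) : ¬ (p : ℤ) ∣ z₀ ^ k := by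
  intro h
  have hp : Prime (p : ℤ) := Nat.prime_iff_prime_int.1 H.pp
  have h1 : (p : ℤ) ∣ z₀ := hp.dvd_of_dvd_pow h
  have h2 : (p : ℤ) ∣ z₀ ^ (p - 1) := dvd_pow h1 (by have := H.p5; omega)
  have h3 : (p : ℤ) ∣ z₀ ^ (p - 1) - 1 :=
    dvd_trans (Int.natCast_dvd_natCast.2 (dvd_pow_self p (by omega))) H.z0.one
  have h4 : (p : ℤ) ∣ 1 := by
    have := dvd_sub h2 h3
    rwa [sub_sub_cancel] at this
  exact hp.not_dvd_one h4

theorem v_t (H : HypT p n V N nu s z₀ t Q ξ l) (k : ℕ) : V.valuation (t (z₀ ^ k)) ≤ 1 := by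
  obtain ⟨q, hq, ht⟩ := H.tw
  have hq0 : q ≠ 0 := by
    rintro rfl
    exact hq (dvd_zero _)
  exact (val_root V q hq0 _ (ht.pow _ (z0_cop H k))).le

/-- the powers of `ξ` with congruent exponents -/
theorem xi_zpow (H : HypT p n V N nu s z₀ t Q ξ l) (a b : ℤ)
    (h : ((p ^ (n + 1) : ℕ) : ℤ) ∣ a - b) : ξ ^ a = ξ ^ b := by
  have h0 : ξ ≠ 0 := H.xi.ne_zero (pow_ne_zero _ H.pp.ne_zero)
  have h1 : ξ ^ (a - b) = 1 := (H.xi.zpow_eq_one_iff_dvd _).2 h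
  rw [zpow_sub₀ h0] at h1
  exact (div_eq_one_iff_eq (zpow_ne_zero _ h0)).1 h1

/-- the sums `Yh` multiplied by `p^K m` -/
theorem v_yh (H : HypT p n V N nu s z₀ t Q ξ l) (K : ℕ)
    (hK : ∀ k x y, V.valuation ((p : ℂ) ^ K * Q k x y) ≤ 1) (c : ℤ) (k : ℕ) (x y : OnePoint ℚ) :
    V.valuation ((p : ℂ) ^ (K + 1) * Yh (p ^ (n + 1)) (ξ ^ c) (Q k) x y) ≤
      V.valuation (p : ℂ) := by
  have hM : p ^ (n + 1) ≠ 0 := pow_ne_zero _ H.pp.ne_zero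
  have e : (p : ℂ) ^ (K + 1) * Yh (p ^ (n + 1)) (ξ ^ c) (Q k) x y =
      p * ∑ b ∈ Finset.range (p ^ (n + 1)), (ξ ^ c) ^ b *
        ((p : ℂ) ^ K * Q k (tM (p ^ (n + 1)) b x) (tM (p ^ (n + 1)) b y)) := by
    unfold Yh
    rw [Finset.mul_sum, Finset.mul_sum]
    refine Finset.sum_congr rfl fun b _ => ?_
    ring
  rw [e, map_mul]
  refine mul_le_of_le_one_right' ?_
  refine Valuation.map_sum_le _ fun b _ => ?_
  rw [map_mul]
  have h1 : V.valuation ((ξ ^ c) ^ b) = 1 := by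
    refine val_root V (p ^ (n + 1)) hM _ ?_
    have h2 : (ξ ^ c) ^ (p ^ (n + 1)) = 1 := by
      rw [← zpow_natCast, ← zpow_mul, mul_comm, zpow_mul, zpow_natCast, H.xi.pow_eq_one, one_zpow]
    rw [← pow_mul, mul_comm, pow_mul, h2, one_pow]
  rw [h1, one_mul]
  exact hK _ _ _

/-- the coefficients for congruent `a`, `a'` -/
theorem coT_sub (a a' : ℤ) (m : ℕ) (h : ((p ^ m : ℕ) : ℤ) ∣ a - a') (j r : ℕ) :
    ∃ w : ℤ, coT a j r - coT a' j r = (p : ℂ) ^ m * w := by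
  obtain ⟨w, hw⟩ := h
  have hw' : (a : ℂ) - a' = (p : ℂ) ^ m * w := by
    have := congrArg (Int.cast (R := ℂ)) hw
    push_cast at this
    exact this
  unfold coT
  by_cases hr : r = 0
  · rw [if_pos hr, if_pos hr]
    refine ⟨-((-1) ^ (1 - j) * w * (a + a')), ?_⟩
    push_cast
    linear_combination -((-1) ^ (1 - j) * ((a : ℂ) + a')) * hw'
  · rw [if_neg hr, if_neg hr]
    refine ⟨(-1) ^ (1 - j) * w, ?_⟩
    push_cast
    linear_combination (-1) ^ (1 - j) * hw'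

/-- only the class of `a` modulo `p^(K + n + 1)` matters -/
theorem v_diff (H : HypT p n V N nu s z₀ t Q ξ l) (K : ℕ)
    (hK : ∀ k x y, V.valuation ((p : ℂ) ^ K * Q k x y) ≤ 1) (a a' : ℤ)
    (h : ((p ^ (K + n + 1) : ℕ) : ℤ) ∣ a - a') (c : ℤ) (x y : OnePoint ℚ) :
    V.valuation (PV p n ξ a z₀ t Q c x y - PV p n ξ a' z₀ t Q c x y) ≤
      V.valuation (p : ℂ) := by
  have hM : ((p ^ (n + 1) : ℕ) : ℤ) ∣ a - a' :=
    dvd_trans (Int.natCast_dvd_natCast.2 (pow_dvd_pow p (by omega))) h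
  have hK1 : ((p ^ (K + 1) : ℕ) : ℤ) ∣ a - a' :=
    dvd_trans (Int.natCast_dvd_natCast.2 (pow_dvd_pow p (by omega))) h
  have e : PV p n ξ a z₀ t Q c x y - PV p n ξ a' z₀ t Q c x y =
      ∑ k ∈ Finset.range (p - 1), t (z₀ ^ k) * ∑ j ∈ Finset.range 2, ∑ r ∈ Finset.range 2,
        (coT a j r - coT a' j r) *
          Yh (p ^ (n + 1)) (ξ ^ (c * a ^ (2 * r) * (1 + (p : ℤ)) ^ j * z₀ ^ k)) (Q k) x y := by
    unfold PV
    rw [← Finset.sum_sub_distrib]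
    refine Finset.sum_congr rfl fun k _ => ?_
    rw [← mul_sub, ← Finset.sum_sub_distrib]
    congr 1
    refine Finset.sum_congr rfl fun j _ => ?_
    rw [← Finset.sum_sub_distrib]
    refine Finset.sum_congr rfl fun r _ => ?_
    have h1 : ξ ^ (c * a ^ (2 * r) * (1 + (p : ℤ)) ^ j * z₀ ^ k) =
        ξ ^ (c * a' ^ (2 * r) * (1 + (p : ℤ)) ^ j * z₀ ^ k) := by
      refine xi_zpow H _ _ ?_
      have h2 : ((p ^ (n + 1) : ℕ) : ℤ) ∣ a ^ (2 * r) - a' ^ (2 * r) :=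
        dvd_trans hM (sub_dvd_pow_sub_pow _ _ _)
      have h3 : c * a ^ (2 * r) * (1 + (p : ℤ)) ^ j * z₀ ^ k -
          c * a' ^ (2 * r) * (1 + (p : ℤ)) ^ j * z₀ ^ k =
          (a ^ (2 * r) - a' ^ (2 * r)) * (c * (1 + (p : ℤ)) ^ j * z₀ ^ k) := by ring
      rw [h3]
      exact Dvd.dvd.mul_right h2 _
    rw [h1]
    ring
  rw [e]
  refine Valuation.map_sum_le _ fun k _ => ?_
  rw [map_mul]
  refine (mul_le_of_le_one_left' (v_t H k)).trans ?_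
  refine Valuation.map_sum_le _ fun j _ => ?_
  refine Valuation.map_sum_le _ fun r _ => ?_
  obtain ⟨w, hw⟩ := coT_sub a a' (K + 1) hK1 j r
  rw [hw]
  have e2 : (p : ℂ) ^ (K + 1) * (w : ℂ) *
      Yh (p ^ (n + 1)) (ξ ^ (c * a ^ (2 * r) * (1 + (p : ℤ)) ^ j * z₀ ^ k)) (Q k) x y =
      (w : ℂ) * ((p : ℂ) ^ (K + 1) *
        Yh (p ^ (n + 1)) (ξ ^ (c * a ^ (2 * r) * (1 + (p : ℤ)) ^ j * z₀ ^ k)) (Q k) x y) := by
    ring
  rw [e2, map_mul]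
  exact (mul_le_of_le_one_left' (val_int V w)).trans (v_yh H K hK _ k x y)

end

end CNG

open _root_.Pool.Agent.OTH.CNG in
/-- (CNG) -/
theorem h_CNG : S_CNG := by
  intro p n V N nu s z₀ t Q ξ l H
  obtain ⟨K, hK⟩ := H.bdd
  refine ⟨K + n + 2, by omega, fun a a' h c x y => v_diff H K hK a a' ?_ c x y⟩
  refine dvd_trans ?_ h
  push_cast
  exact pow_dvd_pow _ (by omega)

end

end Pool.Agent.OTH


end

section

/-!
# OT, block H: module NDR (helper11)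
-/

set_option autoImplicit false

namespace Pool.Agent.OTH

open _root_.MU3 Pool.Agent.MuSym Pool.Agent.MUXH OnePoint Pool.Agent.OBH Pool.Agent.OT

noncomputable section

namespace NDR

lemma mob_inf (a b d : ℤ) : mob a b 0 d (∞ : OnePoint ℚ) = ∞ := by
  unfold mob
  rw [OnePoint.elim_infty]
  simp

lemma mob_coe (M b : ℤ) (hM : M ≠ 0) (x : ℚ) :
    mob M b 0 M (x : OnePoint ℚ) = ((x + (b : ℚ) / (M : ℚ) : ℚ) : OnePoint ℚ) := by
  have hM' : (M : ℚ) ≠ 0 := by exact_mod_cast hM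
  unfold mob
  rw [OnePoint.elim_some]
  have h1 : ¬ (((0 : ℤ) : ℚ) * x + (M : ℚ) = 0) := by simpa using hM'
  rw [if_neg h1]
  congr 1
  rw [show ((0 : ℤ) : ℚ) * x + (M : ℚ) = M by simp, add_div, mul_div_cancel_left₀ _ hM']

lemma mob_one (t : ℤ) (x : ℚ) : mob 1 t 0 1 (x : OnePoint ℚ) = ((x + t : ℚ) : OnePoint ℚ) := by
  rw [mob_coe 1 t one_ne_zero]
  congr 1
  push_cast
  ring

lemma sym_per {N : ℕ} {nu : ℤ → ℂ} {Q : OnePoint ℚ → OnePoint ℚ → ℂ} (h : IsSym N nu Q)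
    (h1 : nu 1 = 1) (x : ℚ) (t : ℤ) : Q ∞ ((x + t : ℚ) : OnePoint ℚ) = Q ∞ (x : OnePoint ℚ) := by
  have e := h.equiv 1 t 0 1 (by ring) (dvd_zero _) ∞ (x : OnePoint ℚ)
  rw [mob_inf, mob_one, h1, one_mul] at e
  exact e

/-- shift of a sum over a period -/
lemma shift (M : ℕ) (F : ℤ → ℂ) (h : ∀ b, F (b + M) = F b) (k : ℕ) :
    ∑ b ∈ Finset.range M, F (b + k) = ∑ b ∈ Finset.range M, F b := by
  induction k with
  | zero => simp
  | succ k ih =>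
    rw [← ih]
    have h1 := Finset.sum_range_succ (fun b : ℕ => F ((b : ℤ) + k)) M
    have h2 := Finset.sum_range_succ' (fun b : ℕ => F ((b : ℤ) + k)) M
    rw [h1] at h2
    have h3 : F ((M : ℤ) + k) = F (((0 : ℕ) : ℤ) + k) := by
      have h5 := h k
      rw [add_comm (M : ℤ), h5]
      congr 1
      push_cast
      ring
    rw [h3] at h2
    have h4 := add_right_cancel h2
    rw [h4]
    refine Finset.sum_congr rfl fun b _ => ?_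
    congr 1
    push_cast
    ring

end NDR

open _root_.Pool.Agent.OTH.NDR in
/-- (NDR) -/
theorem h_NDR (h1 : S_VX) (h2 : So_DVR) (h4 : So_FAC) (h3 : So_TYP) : S_NDR := by
  intro p V N₀ s₀ i nu Q pi KI om H hom hrel hunr hi1 hi2 hvpi n hn ξ hξ N' hN' hNN'
  have hp := H.pp
  have hp3 : 3 ≤ p := by
    have := hp.two_le
    have := H.p2
    omega
  have hp0 : p ≠ 0 := hp.ne_zero
  have hpq : (p : ℚ) ≠ 0 := by exact_mod_cast hp0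
  have hpC : (p : ℂ) ≠ 0 := by exact_mod_cast hp0
  have hvp0 : V.valuation (p : ℂ) ≠ 0 := (V.valuation.ne_zero_iff).2 hpC
  obtain ⟨α, β, γ, δ, hdet, hγ, hδ, hv⟩ := H.G N' hN' hNN'
  -- the end of the cycle is finite
  obtain ⟨x₀, hx₀⟩ : ∃ x₀ : ℚ, mob α β γ δ ∞ = (x₀ : OnePoint ℚ) := by
    have hne : mob α β γ δ ∞ ≠ ∞ := by
      intro hcon
      rw [hcon] at hv
      have e1 : PT p Q ∞ ∞ = 0 := by
        unfold PT
        rw [mob_inf, sub_self]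
      have hpos : (p - 1) * p ^ 2 ≠ 0 := by
        have := pow_pos hp.pos 2
        have : 0 < p - 1 := by omega
        positivity
      rw [e1, map_zero, zero_pow hpos] at hv
      exact hvp0 (le_zero_iff.1 hv)
    obtain ⟨x, hx⟩ := OnePoint.ne_infty_iff_exists.1 hne
    exact ⟨x, hx.symm⟩
  rw [hx₀] at hv
  have hp3Z : ((p : ℤ) ^ 3) ≠ 0 := pow_ne_zero _ (by exact_mod_cast hp0)
  have hMZ : ((p ^ (n + 1) : ℕ) : ℤ) ≠ 0 := by exact_mod_cast pow_ne_zero (n + 1) hp0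
  have hMq : ((p : ℚ) ^ (n + 1)) ≠ 0 := pow_ne_zero _ hpq
  let z : ℤ → ℂ := fun b => Q ∞ ((x₀ + (b : ℚ) / (p : ℚ) ^ (n + 1) : ℚ) : OnePoint ℚ)
  obtain ⟨k, hk⟩ : ∃ k : ℕ, k = p ^ (n - 2) := ⟨_, rfl⟩
  let y : ℤ → ℂ := fun b => z b - z (b + k)
  have hn3 : (p : ℚ) ^ (n + 1) = (p : ℚ) ^ 3 * (k : ℚ) := by
    rw [hk]
    push_cast
    rw [← pow_add]
    congr 1
    omega
  have hkq : (k : ℚ) ≠ 0 := by
    rw [hk]
    exact_mod_cast pow_ne_zero (n - 2) hp0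
  have hy0 : PT p Q ∞ (x₀ : OnePoint ℚ) = y 0 := by
    unfold PT
    rw [mob_inf, mob_coe _ _ hp3Z]
    show _ = Q ∞ ((x₀ + ((0 : ℤ) : ℚ) / (p : ℚ) ^ (n + 1) : ℚ) : OnePoint ℚ) -
      Q ∞ ((x₀ + ((0 + (k : ℤ) : ℤ) : ℚ) / (p : ℚ) ^ (n + 1) : ℚ) : OnePoint ℚ)
    have e1 : (x₀ + ((0 : ℤ) : ℚ) / (p : ℚ) ^ (n + 1) : ℚ) = x₀ := by simp
    have e2 : (x₀ + ((0 + (k : ℤ) : ℤ) : ℚ) / (p : ℚ) ^ (n + 1) : ℚ) =
        x₀ + ((1 : ℤ) : ℚ) / (((p : ℤ) ^ 3 : ℤ) : ℚ) := by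
      rw [hn3]
      push_cast
      rw [zero_add]
      congr 1
      field_simp
    rw [e1, e2]
  rw [hy0] at hv
  have hzper : ∀ b c : ℤ, (p : ℤ) ^ (n + 1) ∣ b - c → z b = z c := by
    rintro b c ⟨t, ht⟩
    have e : (x₀ + (b : ℚ) / (p : ℚ) ^ (n + 1) : ℚ) = x₀ + (c : ℚ) / (p : ℚ) ^ (n + 1) + t := by
      have : (b : ℚ) = c + (p : ℚ) ^ (n + 1) * t := by
        have : (b : ℤ) = c + (p : ℤ) ^ (n + 1) * t := by linear_combination ht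
        exact_mod_cast this
      rw [this, add_div, mul_div_cancel_left₀ _ hMq]
      ring
    change Q ∞ ((x₀ + (b : ℚ) / (p : ℚ) ^ (n + 1) : ℚ) : OnePoint ℚ) =
      Q ∞ ((x₀ + (c : ℚ) / (p : ℚ) ^ (n + 1) : ℚ) : OnePoint ℚ)
    rw [e]
    exact sym_per H.sym H.nu1 _ t
  have hyper : ∀ b c : ℤ, (p : ℤ) ^ (n + 1) ∣ b - c → y b = y c := by
    intro b c hbc
    show z b - z (b + k) = z c - z (c + k)
    rw [hzper b c hbc, hzper (b + k) (c + k) (by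
      have : b + (k : ℤ) - (c + k) = b - c := by ring
      rwa [this])]
  have hytyp : ∀ b, ∃ w ∈ KI, y b = pi * w := by
    intro b
    obtain ⟨w, hw, ew⟩ := H.typ ∞ ((x₀ + (b : ℚ) / (p : ℚ) ^ (n + 1) : ℚ) : OnePoint ℚ)
    obtain ⟨w', hw', ew'⟩ := H.typ ∞
      ((x₀ + ((b + k : ℤ) : ℚ) / (p : ℚ) ^ (n + 1) : ℚ) : OnePoint ℚ)
    refine ⟨w - w', sub_mem hw hw', ?_⟩
    show z b - z (b + k) = _
    rw [mul_sub, ← ew, ← ew']
  -- the value at `0`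
  obtain ⟨w₀, hw₀, ew₀⟩ := hytyp 0
  have hv1 : 1 ≤ V.valuation (y 0) := by
    rw [ew₀] at hv ⊢
    exact H.gap w₀ hw₀ hv
  have hy00 : y 0 ≠ 0 := by
    intro h
    rw [h, map_zero] at hv1
    exact absurd hv1 (not_le.2 zero_lt_one)
  -- the Gauss sum
  obtain ⟨G, hG⟩ : ∃ G : ℂ, G = ∑ j ∈ Finset.range p, (jacobiSym (j : ℤ) p : ℂ) * om ^ j :=
    ⟨_, rfl⟩
  rw [← hG] at hrel
  have hGK : G ∈ KI := by
    obtain ⟨x, hx⟩ : ∃ x : ℚ, Q ∞ (x : OnePoint ℚ) ≠ 0 := by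
      by_contra hcon
      push Not at hcon
      apply hy00
      show Q ∞ _ - Q ∞ _ = 0
      rw [hcon, hcon, sub_zero]
    have ht := hrel x
    obtain ⟨w, hw, ew⟩ := H.typ ∞ (x : OnePoint ℚ)
    have hw' : ∀ j : ℕ, ∃ w ∈ KI, Q ∞ ((x + (j : ℚ) / p : ℚ) : OnePoint ℚ) = pi * w :=
      fun j => H.typ _ _
    choose w' hwK ew' using hw'
    have e2 : ∑ j ∈ Finset.range p, (jacobiSym (j : ℤ) p : ℂ) *
        Q ∞ ((x + (j : ℚ) / p : ℚ) : OnePoint ℚ) =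
        pi * ∑ j ∈ Finset.range p, (jacobiSym (j : ℤ) p : ℂ) * w' j := by
      rw [Finset.mul_sum]
      refine Finset.sum_congr rfl fun j _ => ?_
      rw [ew']
      ring
    rw [e2, ew] at ht
    have hw0 : w ≠ 0 := by
      rintro rfl
      rw [ew, mul_zero] at hx
      exact hx rfl
    have e3 : G = (∑ j ∈ Finset.range p, (jacobiSym (j : ℤ) p : ℂ) * w' j) / w := by
      rw [eq_div_iff hw0]
      refine mul_left_cancel₀ H.pi0 ?_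
      linear_combination -ht
    rw [e3]
    exact div_mem (sum_mem fun j _ => mul_mem (intCast_mem KI _) (hwK j)) hw
  obtain ⟨F, Hh, hF, hH, hFK, hHK, hdeg, hFH, hFe, hFf⟩ := h4 p hp H.p2 om hom KI (hG ▸ hGK)
  have hzrel : ∀ b : ℤ, ∑ j ∈ Finset.range p, (jacobiSym (j : ℤ) p : ℂ) *
      z (b + j * (p : ℤ) ^ n) = G * z b := by
    intro b
    have e1 : z b = Q ∞ ((x₀ + (b : ℚ) / (p : ℚ) ^ (n + 1) : ℚ) : OnePoint ℚ) := rfl
    rw [e1, ← hrel]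
    refine Finset.sum_congr rfl fun j _ => ?_
    congr 1
    change Q ∞ ((x₀ + ((b + j * (p : ℤ) ^ n : ℤ) : ℚ) / (p : ℚ) ^ (n + 1) : ℚ) : OnePoint ℚ) = _
    congr 2
    have h5 : ((p : ℚ) ^ n) ≠ 0 := pow_ne_zero _ hpq
    push_cast
    rw [pow_succ, add_div, add_assoc]
    congr 2
    rw [mul_comm ((p : ℚ) ^ n) (p : ℚ), mul_div_mul_right _ _ h5]
  have hyrel : ∀ b : ℤ, ∑ j ∈ Finset.range p, (jacobiSym (j : ℤ) p : ℂ) *
      y (b + j * (p : ℤ) ^ n) = G * y b := by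
    intro b
    have e1 := hzrel b
    have e2 := hzrel (b + k)
    show ∑ j ∈ Finset.range p, (jacobiSym (j : ℤ) p : ℂ) *
      (z (b + j * (p : ℤ) ^ n) - z (b + j * (p : ℤ) ^ n + k)) = G * (z b - z (b + k))
    rw [mul_sub, ← e1, ← e2, ← Finset.sum_sub_distrib]
    refine Finset.sum_congr rfl fun j _ => ?_
    have e3 : b + (j : ℤ) * (p : ℤ) ^ n + k = b + k + j * (p : ℤ) ^ n := by ring
    rw [e3]
    ring
  -- the relation for the coefficients of `F`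
  have hyF : ∀ b : ℤ, ∑ l ∈ Finset.range p, F.coeff l * y (b - l * (p : ℤ) ^ n) = 0 := by
    intro b
    have h5 := hFf (fun l => y (b + l * (p : ℤ) ^ n)) (by
      rintro l l' ⟨t, ht⟩
      apply hyper
      refine ⟨t, ?_⟩
      have : l = l' + p * t := by linear_combination ht
      rw [this]
      ring) (by
      intro b'
      have h6 := hyrel (b + b' * (p : ℤ) ^ n)
      rw [← hG, ← h6]
      refine Finset.sum_congr rfl fun j _ => ?_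
      have e : b + (b' + (j : ℤ)) * (p : ℤ) ^ n = b + b' * (p : ℤ) ^ n + j * (p : ℤ) ^ n := by ring
      rw [e]) 0
    rw [← h5]
    refine Finset.sum_congr rfl fun l _ => ?_
    have e : b + (0 - (l : ℤ)) * (p : ℤ) ^ n = b - l * (p : ℤ) ^ n := by ring
    rw [e]
  -- the type
  have hpp : 0 < p - 1 := by omega
  have hb : 1 ≤ V.valuation (y 0) ^ (p - 1) * V.valuation (p : ℂ) := by
    have h5 := h3 p hp V H.vp KI 2 (p - 1) i (by norm_num) hi2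
      (Nat.mul_le_mul_right _ hi1) (by
        rw [mul_comm]
        exact Nat.mul_lt_mul_of_pos_left (by nlinarith) hpp) hunr pi hvpi w₀ hw₀
    rw [← ew₀] at h5
    exact h5.2 hv1
  -- the exponent `c`
  have : NeZero p := ⟨hp0⟩
  have hξ' : IsPrimitiveRoot (ξ ^ p ^ n) p :=
    hξ.pow (pow_pos hp.pos _) (by rw [pow_succ])
  obtain ⟨c, hcp, hc⟩ : ∃ c < p, (ξ ^ p ^ n) ^ c = om⁻¹ :=
    hξ'.eq_pow_of_pow_eq_one (by rw [inv_pow, hom.pow_eq_one, inv_one])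
  have hcn : ¬ p ∣ c := by
    rintro ⟨t, rfl⟩
    rw [pow_mul, hξ'.pow_eq_one, one_pow] at hc
    have h6 : om = 1 := by
      have := congrArg (fun x => x⁻¹) hc
      simpa using this.symm
    exact hom.ne_one hp.one_lt h6
  have hcop : Nat.Coprime c (p ^ (n + 1)) :=
    Nat.Coprime.pow_right _ ((Nat.Prime.coprime_iff_not_dvd hp).2 hcn).symm
  have hζ : IsPrimitiveRoot (ξ ^ c) (p ^ (n + 1)) := hξ.pow_of_coprime c hcop
  have hkey := h2 p hp H.p2 V H.vp KI hunr n y hyper F Hh hF hH hFK hHK hdeg hFH hyF (by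
    intro b b' hb'
    obtain ⟨w, hw, e⟩ := hytyp b
    obtain ⟨w', hw', e'⟩ := hytyp b'
    rw [e, e', mul_div_mul_left _ _ H.pi0]
    exact div_mem hw hw') 0 hb (ξ ^ c) hζ (by
    rw [← pow_mul, mul_comm c, pow_mul, hc]
    exact hFe)
  refine ⟨α, β, γ, δ, c, hdet, hγ, hδ, by exact_mod_cast hcn, ?_⟩
  rw [hx₀, zpow_natCast]
  have hζ0 : ξ ^ c ≠ 0 := hζ.ne_zero (pow_ne_zero _ hp0)
  -- the sum
  have hY : Yh (p ^ (n + 1)) (ξ ^ c) Q ∞ (x₀ : OnePoint ℚ) =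
      ∑ b ∈ Finset.range (p ^ (n + 1)), (ξ ^ c) ^ b * z b := by
    unfold Yh tM
    refine Finset.sum_congr rfl fun b _ => ?_
    rw [mob_inf, mob_coe _ _ hMZ]
    congr 3
    push_cast
    rfl
  have hper2 : ∀ b : ℤ, (ξ ^ c) ^ (b + ((p ^ (n + 1) : ℕ) : ℤ)) * z (b + ((p ^ (n + 1) : ℕ) : ℤ)) =
      (ξ ^ c) ^ b * z b := by
    intro b
    rw [hzper (b + ((p ^ (n + 1) : ℕ) : ℤ)) b ⟨1, by push_cast; ring⟩, zpow_add₀ hζ0,
      zpow_natCast _ (p ^ (n + 1)), hζ.pow_eq_one, mul_one]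
  have hsh := shift (p ^ (n + 1)) (fun b => (ξ ^ c) ^ b * z b) hper2 k
  have hS : ∑ b ∈ Finset.range (p ^ (n + 1)), (ξ ^ c) ^ b * y b =
      (1 - ξ ^ (-((c : ℤ) * k))) * Yh (p ^ (n + 1)) (ξ ^ c) Q ∞ (x₀ : OnePoint ℚ) := by
    rw [sub_mul, one_mul, hY]
    have e1 : ∑ b ∈ Finset.range (p ^ (n + 1)), (ξ ^ c) ^ b * y b =
        ∑ b ∈ Finset.range (p ^ (n + 1)), (ξ ^ c) ^ b * z b -
        ∑ b ∈ Finset.range (p ^ (n + 1)), (ξ ^ c) ^ b * z (b + k) := by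
      rw [← Finset.sum_sub_distrib]
      refine Finset.sum_congr rfl fun b _ => ?_
      show (ξ ^ c) ^ b * (z b - z (b + k)) = _
      rw [mul_sub]
    rw [e1]
    congr 1
    have e2 : ∑ b ∈ Finset.range (p ^ (n + 1)), (ξ ^ c) ^ b * z b =
        ∑ b ∈ Finset.range (p ^ (n + 1)), (ξ ^ c) ^ ((b : ℤ) + k) * z (b + k) := by
      rw [hsh]
      refine Finset.sum_congr rfl fun b _ => ?_
      rw [zpow_natCast]
    rw [e2, Finset.mul_sum]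
    refine Finset.sum_congr rfl fun b _ => ?_
    rw [← mul_assoc]
    congr 1
    have hξ0 : ξ ≠ 0 := hξ.ne_zero (pow_ne_zero _ hp0)
    rw [zpow_neg, eq_inv_mul_iff_mul_eq₀ (zpow_ne_zero _ hξ0), ← zpow_natCast (ξ ^ c) b,
      ← zpow_natCast ξ c, ← zpow_mul, ← zpow_mul, ← zpow_add₀ hξ0]
    congr 1
    ring
  have hvx := (h1 p hp V H.vp n ξ hξ).2.2.2 (-((c : ℤ) * k)) (n - 2) (by omega)
    (by
      rw [hk, dvd_neg]
      push_cast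
      exact Dvd.intro_left _ rfl)
    (by
      intro hd
      rw [dvd_neg, hk] at hd
      have h7 : p ^ (n - 2 + 1) ∣ c * p ^ (n - 2) := by exact_mod_cast hd
      rw [pow_succ, mul_comm (p ^ (n - 2)) p] at h7
      exact hcn (Nat.dvd_of_mul_dvd_mul_right (pow_pos hp.pos _) h7))
  rw [hS, map_mul, hvx, mul_comm] at hkey
  exact hkey

end

end Pool.Agent.OTH


end

section

/-!
# OT, block I, module CHK (problem MP_b78433_nt)

If a character with values in the residue field is not trivial on `H` then its lift is not trivial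
on `H`.
-/

set_option autoImplicit false

namespace Pool.Agent.OTI

namespace CHKx

/-- the core of (CHK) -/
theorem core (p : ℕ) [Fact p.Prime] (V : ValuationSubring ℂ) (hp : (p : ℂ) ∈ V.nonunits)
    (Δ : Type) [Group Δ] [Finite Δ] (χ : Δ →* (IsLocalRing.ResidueField V)ˣ) (X : Δ →* ℂˣ)
    (hX : ∀ (Δ' : Type) [Group Δ'] [Fintype Δ'] (j : Δ' →* Δ), Function.Injective j →
      ∃ θ : IsLocalRing.ResidueField V →+ ZMod p,
        (∑ δ : Δ', ((θ ((χ (j δ))⁻¹ : (IsLocalRing.ResidueField V)ˣ)).val : ℂ) *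
          (X (j δ) : ℂ)) ∉ V.nonunits)
    (H : Subgroup Δ) (hH : ∃ g ∈ H, χ g ≠ 1) : ∃ g ∈ H, X g ≠ 1 := by
  classical
  by_contra hc
  push Not at hc
  have : Fintype H := Fintype.ofFinite H
  obtain ⟨θ, hθ⟩ := hX H H.subtype H.subtype_injective
  apply hθ
  have e1 : (∑ δ : H, ((θ ((χ (H.subtype δ))⁻¹ : (IsLocalRing.ResidueField V)ˣ)).val : ℂ) *
      (X (H.subtype δ) : ℂ)) =
      ((∑ δ : H, (θ ((χ (H.subtype δ))⁻¹ : (IsLocalRing.ResidueField V)ˣ)).val : ℕ) : ℂ) := by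
    rw [Nat.cast_sum]
    refine Finset.sum_congr rfl fun δ _ => ?_
    have : X (H.subtype δ) = 1 := hc _ δ.2
    rw [this, Units.val_one, mul_one]
  rw [e1]
  have e2 : (∑ δ : H, (((χ (H.subtype δ))⁻¹ : (IsLocalRing.ResidueField V)ˣ) :
      IsLocalRing.ResidueField V)) = 0 := by
    obtain ⟨g, hg, hg1⟩ := hH
    have := sum_hom_units_eq_zero ((Units.coeHom (IsLocalRing.ResidueField V)).comp
      (χ.comp H.subtype)⁻¹) (by
        intro h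
        apply hg1
        have h2 := DFunLike.congr_fun h (⟨g, hg⟩ : H)
        simp only [MonoidHom.comp_apply, MonoidHom.inv_apply, Units.coeHom_apply,
          MonoidHom.one_apply, Subgroup.subtype_apply] at h2
        have h3 : (χ g)⁻¹ = 1 := Units.ext h2
        exact inv_eq_one.1 h3)
    simpa using this
  have e3 : ((∑ δ : H, (θ ((χ (H.subtype δ))⁻¹ :
      (IsLocalRing.ResidueField V)ˣ)).val : ℕ) : ZMod p) = 0 := by
    rw [Nat.cast_sum]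
    simp only [ZMod.natCast_val, ZMod.cast_id', id]
    rw [← map_sum, e2, map_zero]
  obtain ⟨m, hm⟩ := (ZMod.natCast_eq_zero_iff _ _).1 e3
  rw [hm, Nat.cast_mul]
  rw [ValuationSubring.mem_nonunits_iff] at hp ⊢
  rw [map_mul]
  have h2 : V.valuation (m : ℂ) ≤ 1 := V.valuation_le_one ⟨(m : ℂ), natCast_mem V m⟩
  calc V.valuation (p : ℂ) * V.valuation (m : ℂ) ≤ V.valuation (p : ℂ) * 1 :=
        mul_le_mul_right h2 _
    _ = V.valuation (p : ℂ) := mul_one _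
    _ < 1 := hp

end CHKx

open _root_.Pool.Agent.OTI.CHKx

/-- (CHK) -/
theorem ti_CHK : Ti_CHK := by
  intro p _ V hp Δ _ _ χ X hX H hH
  exact CHKx.core p V hp Δ χ X hX H hH

end Pool.Agent.OTI


end

section

/-!
# OT (Theorem T), block I, module POW (helper79); model: `I31.pows` (`OB/I_I31.lean`)
-/

set_option autoImplicit false

namespace Pool.Agent.OTI

open _root_.MU3 Pool.Agent.MU3 Pool.Agent.MU3A Pool.Agent.MU3B Pool.Agent.RI Pool.Agent.RID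
  Pool.Agent.MUX Pool.Agent.MUXK Pool.Agent.MUXI Pool.Agent.NS Pool.Agent.NSI Pool.Agent.OB
  Pool.Agent.OBI Pool.Agent.OT
open Pool.Agent.MU3I (zt St_ITG)

noncomputable section

/-- (POW) if the product is a `p`-th power, then the sums, translated by `γ^k'`, are small -/
theorem ti_POW (hFOU : Sn_FOU) (hTG : St_ITG) : Ti_POW := by
  classical
  intro p er A B P V f ι R u n D iD h C hE w hw
  let akL : Algebra (kk A B) D := algC h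
  intro comm c₁ hc hc1 γ Δ iΔ N k' b X hX y hy
  have fdk : FiniteDimensional (kk A B) D := Module.Finite.of_restrictScalars_finite ℚ (kk A B) D
  have iG : Fintype (D ≃ₐ[kk A B] D) := Fintype.ofFinite _
  let e : ℕ → ℤ := fun j => (-1 : ℤ) ^ (N - j) * (N.choose j : ℤ)
  let g : (D ≃ₐ[kk A B] D) → ℤ := fun τ => ∑ δ : Δ, ∑ j ∈ Finset.range (N + 1),
      if (δ : D ≃ₐ[kk A B] D) * γ ^ j = τ then (b δ : ℤ) * e j else 0
  have hcτ : ∀ τ : D ≃ₐ[kk A B] D, ((τ ⟨c₁, hc⟩ : D) : ℂ) = C τ := by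
    intro τ
    obtain ⟨y', hy1, hy2⟩ := hE.conj τ
    have h3 : y' = ⟨c₁, hc⟩ := Subtype.ext (hy1.trans hc1.symm)
    rw [← h3]
    exact hy2
  have hcne : (⟨c₁, hc⟩ : D) ≠ 0 := by
    intro h0
    apply hE.ne
    have h1 : c₁ = 0 := congrArg Subtype.val h0
    rw [hc1] at h1
    exact h1
  have hu : ∀ τ : D ≃ₐ[kk A B] D, C τ ≠ 0 := by
    intro τ h0
    rw [← hcτ τ] at h0
    have h1 : τ (⟨c₁, hc⟩ : D) = 0 := Subtype.ext h0
    exact hcne ((map_eq_zero_iff τ τ.injective).1 h1)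
  have e1 : (y : ℂ) ^ p = ∏ᶠ τ : D ≃ₐ[kk A B] D, C τ ^ g τ := by
    rw [MU3I.I3F.prod_exp γ Δ _ hu (fun δ => (b δ : ℤ)) N e g (fun τ => rfl)]
    have h1 : (y : ℂ) ^ p = D.val (y ^ p) := rfl
    rw [h1, hy, map_prod]
    refine Finset.prod_congr rfl fun δ _ => ?_
    rw [MU3I.I3F.tg_pow hTG _ _ γ δ _ hcne N (b δ), map_prod]
    refine Finset.prod_congr rfl fun j _ => ?_
    rw [map_zpow₀]
    exact congrArg (fun w : ℂ => w ^ ((b δ : ℤ) * e j)) (hcτ ((δ : D ≃ₐ[kk A B] D) * γ ^ j))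
  have e2 := hE.ew w hw g ⟨y, y.2, e1⟩
  obtain ⟨q1, q2, q3, q4⟩ := I31.val_prop V u (p : ℂ)
  have key := hFOU V (fun x => V.valuation (x / u) ≤ V.valuation (p : ℂ)) q1 q2 q3 q4
    (D ≃ₐ[kk A B] D) comm γ Δ
    (fun τ => TTN R w (lvX p f n) (aX p f) h (γ ^ k' * τ)) (fun δ => (b δ : ℤ)) N e X
    (by simpa using hX) (by
      intro τ'
      have e3 := e2 (γ ^ k' * τ')
      rw [MU3I.I3F.sum_exp γ Δ (fun τ => TTN R w (lvX p f n) (aX p f) h τ)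
        (fun δ => (b δ : ℤ)) N e g (fun τ => rfl) (γ ^ k' * τ')] at e3
      have e4 : ∀ (δ : Δ) (j : ℕ), γ ^ k' * ((δ : D ≃ₐ[kk A B] D) * γ ^ j * τ') =
          (δ : D ≃ₐ[kk A B] D) * γ ^ j * (γ ^ k' * τ') := by
        intro δ j
        rw [← mul_assoc, comm (γ ^ k') ((δ : D ≃ₐ[kk A B] D) * γ ^ j), mul_assoc]
      simp only [e4]
      exact e3)
  have e5 : ∀ (δ : Δ) (j : ℕ), γ ^ k' * (γ ^ j * (δ : D ≃ₐ[kk A B] D)) =
      γ ^ (k' + j) * (δ : D ≃ₐ[kk A B] D) := by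
    intro δ j
    rw [← mul_assoc, ← pow_add]
  simp only [e5] at key
  exact key

end

end Pool.Agent.OTI


end

section

/-!
# OT, block HB (helper59): the bridge from theta series to the abstract theorem `Ot_H`, and `O_HETA`

Every statement is a `def Ob_X : Prop`; a module proves `theorem ob_X (h : ..) ... : Ob_X` in `Pool/Agent/OT/HB_X.lean`, namespace `Pool.Agent.OT` (private lemmas in `Pool.Agent.OT.X`), with the statements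
named under USES as hypotheses (fewer is fine). Proved and usable without hypotheses: `Pool.Agent.OBH.to_X : So_X` (`OB/HN_X.lean`, `OB/HB_X.lean`; how to compose: `OB/HAll.lean`, `o_RAM`, `o_VAL`, `o_CHR`, `o_QBO`, `o_SAF`, `o_UAL`, `o_DVN`,
`o_DVR`, `o_TYP`, `o_FAC`, `o_BDN`; import only the files you need), `Pool.Agent.MUXF.xf_X` (`MUX/XFAll.lean`), `TWB.t_DPL` (`TWB/DPL.lean`), `TWG.Gau` (`TWG/GAU.lean`), the lemmas of `MUX/HY_QSX.lean` (`MUXHY.Qsx`).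
`v = V.valuation`, `M = p^(n+1)`, `ξ₀ = ex (-1/M)`.
-/

set_option autoImplicit false

namespace Pool.Agent.OT

open _root_.MU3 _root_.Pool.Agent.MU3A _root_.Pool.Agent.MU3B _root_.Pool.Agent.MU3F
  _root_.Pool.Agent.MUX _root_.Pool.Agent.MuSym _root_.Pool.Agent.OB _root_.Pool.Agent.OBH OnePoint
open _root_.Pool.Agent.TWR (Gen)

noncomputable section

/-- the weights `kk_i / e(N b_i)` -/
def kk0 {A B : ℤ} {n : ℕ} {ι : Type} (R : Reps A B n ι) (e : OO A B → ℂ) (kk : ι → ℂ) (i : ι) : ℂ :=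
  kk i / e ((nI (R.b i) : ℕ) : OO A B)

/-! ## Elementary -/

/-- (ZC) the integer `z₀`.

PROOF. (1) clear (`p ∣ z₀` would give `M ∣ 1`, or use `gen 1`). (2) `y = z₀^((p-1)/2)`, `M ∣ y² - 1 = (y - 1)(y + 1)`, `p` divides only one of the factors. If `M ∣ y - 1`: the map `k ↦ z₀^k` from `range (p-1)` to the nonzero classes modulo `p` is onto (`gen`), so one to one (`Finset.card`: `p - 1` classes), but `k = 0` and
`k = (p-1)/2` give the same class (`p ≥ 3`). So `p ∤ y - 1`, `M ∣ y + 1`. (3) `gen`: `p ∣ c - z₀^m`; `c z₀^(p-1-m) ≡ 1` modulo `p` up to `z₀^(p-1) ≡ 1`. Claim: for `u ≡ 1` modulo `p` and every `n` there is `k'` with `p^(n+1) ∣ u - (1+p)^k'`. Induction on `n`: `n = 0` clear; step: `u ≡ (1+p)^k'` modulo `p^(n+1)`,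
`u = (1+p)^k' + p^(n+1) w`, `(1+p)^(p^n j) ≡ 1 + j p^(n+1)` modulo `p^(n+2)` (`p` odd), take `j ≡ w` modulo `p`. (4) from (2): `p ∣ z₀^((p-1)/2) + 1`. (Search the tree first, e.g. `TWR/GPW.lean`.) -/
def Ob_ZC : Prop :=
  ∀ (p n : ℕ) (z₀ : ℤ), p.Prime → p ≠ 2 → IsZ0 p n z₀ →
    ¬ (p : ℤ) ∣ z₀ ∧ ((p ^ (n + 1) : ℕ) : ℤ) ∣ z₀ ^ ((p - 1) / 2) + 1 ∧
    ∀ c : ℤ, ¬ (p : ℤ) ∣ c → ∃ m k' : ℕ, ((p ^ (n + 1) : ℕ) : ℤ) ∣ c - z₀ ^ m * (1 + (p : ℤ)) ^ k'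

/-- (SGE) `SG` depends on `c` modulo `M`, and `SG (z₀^m c) = t(z₀)^(-m) SG c`, so the valuations agree.

PROOF. (1) `SnX R m M e i c` depends only on `c` modulo `M` (the condition `M ∣ nm x * nI b - c`), so does `STX`, so does `SG`. (2) `SG(z₀ c) = Σ_(k < p-1) t(z₀^k) STX(z₀^(k+1) c)`; `t(z₀) t(z₀^k) = t(z₀^(k+1))`, and the term `k + 1 = p - 1` is the term `0` (`M ∣ z₀^(p-1) - 1`, `t(z₀^(p-1)) = 1` by `per`): `t(z₀) SG(z₀ c) = SG(c)`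
(`Finset.sum_range_succ'`). Induction on `m`. (`¬ p ∣ z₀` from `IsZ0`: `p ∣ z₀` would give `p ∣ 1`; `t(z₀)^q = 1`, `q ≠ 0` because `¬ p ∣ q`.) -/
def Ob_SGE : Prop :=
  ∀ (p n : ℕ) (z₀ : ℤ) (t : ℤ → ℂ) (q : ℕ) (A B : ℤ) (n' : ℕ) (ι : Type) [Fintype ι]
    (R : Reps A B n' ι) (m a : ℕ) (e : OO A B → ℂ) (kk : ι → ℂ), p.Prime → IsZ0 p n z₀ →
    IsTw p q t → ¬ p ∣ q →
    (∀ c c' : ℤ, ((p ^ (n + 1) : ℕ) : ℤ) ∣ c - c' →
      SG p R m (p ^ (n + 1)) a e kk t z₀ c = SG p R m (p ^ (n + 1)) a e kk t z₀ c') ∧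
    t z₀ ^ q = 1 ∧
    ∀ (c : ℤ) (j : ℕ), t z₀ ^ j * SG p R m (p ^ (n + 1)) a e kk t z₀ (z₀ ^ j * c) =
      SG p R m (p ^ (n + 1)) a e kk t z₀ c

/-- (EPS) the twist of `e` by a character of the norm.

PROOF. `nm` is multiplicative, `nm 1 = nm (-1) = 1`; `idl (p f l^r) ≤ idl (p f)`, and `nm x ≡ nm y` modulo `l^r` if `x - y ∈ idl (p (f l^r))` (`x = y + l^r z`). `supp`: if `IsCoprime (sp x) (idl (p f))` then, as `l ∣ f`, `IsCoprime (sp x) (idl l)`, so `IsCoprime (sp x) (idl (l^r))` and `IsCoprime (sp x) (idl (p (f l^r)))`; also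
`nm x = x star x` is a unit modulo `l` (the argument of `So_QBO`, `OB/HB_QBO.lean`), so `ψ (nm x) ≠ 0`. Conversely `e x ≠ 0` is enough. -/
def Ob_EPS : Prop :=
  ∀ (A B : ℤ), CQ A B → ∀ (p f l r : ℕ), p.Prime → f ≠ 0 → l.Prime → l ∣ f →
    ∀ e : OO A B → ℂ, IsEI (idl (A := A) (B := B) (p * f)) e →
    ∀ ψ : DirichletCharacter ℂ (l ^ r),
      IsEI (idl (A := A) (B := B) (p * (f * l ^ r))) (fun x => e x * ψ (nm x))

/-! ## From Theorem G to the symbols `Yh` -/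

/-- (ND) the field `nd` of `HypT` for `QT`.

USES `OTH.S_NDN`, `OTH.S_NDR` (`OT/StH.lean`), `So_HQ1`, `So_HQ2` (as hypotheses of the module), `o_REL`, `o_RAM`. PROOF. `er = 1`: `QT 1 p R e kk s u z₀ 0 = sgnPart s (PhiK R e kk / (u om_0))` (`kkE 1 .. = kk`; ring), HQ1 and NDN with `q' = nI P - 1` (`nI P = p` or `p²` by RAM, so `q' ≤ p² - 1 < (p-1) p²`; `i ≤ nI P - 2` gives `i < q'`), `s₀ = 1`.
`er = 2`: `QT 2 p R e kk s u z₀ 0 = QR p R e kk s u` (`z₀^0 = 1`), `nI P = p`, `2 ≤ i` from `2 (p-1) ≤ i (p-1)`, `i < p - 1`; HQ2, `o_REL`, NDR with `om = exp(2πi/p)` (`Complex.isPrimitiveRoot_exp`), `s₀ = 2`. -/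
def Ob_ND : Prop :=
  ∀ (p er : ℕ) (A B : ℤ) (P : Ideal (OO A B)) (V : ValuationSubring ℂ) (f : ℕ),
    SetO p er A B P V f → TorX A B →
    ∀ (ι : Type) [Fintype ι] (R : Reps A B (p * f) ι) (u el lam : ℂ),
    GoodL V (R.L R.i0) u el lam → ∀ w : OO A B → ℂ, IsTeiP p er P V w →
    ∀ e : OO A B → ℂ, IsEI (idl (A := A) (B := B) (p * f)) e → ∀ r : ℕ, ¬ p ∣ r →
    (∀ x, e x ≠ 0 → e x ^ r = 1) → ∀ i : ℕ, er * (nI P - 1) ≤ i * (p - 1) → i ≤ nI P - 2 →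
    (∀ x, x - 1 ∈ gO P f → x ∉ P → e x = w x ^ i) →
    ∀ s : ℂ, s = 1 ∨ s = -1 → ∀ kk : ι → ℂ, (∀ i, kk i ^ r = 1) → ∀ (z₀ : ℤ) (n : ℕ), 2 ≤ n →
    ∀ ξ : ℂ, IsPrimitiveRoot ξ (p ^ (n + 1)) →
    OTH.ND p n V (p ^ (er + 1) * N0O p er A B f) ξ (QT er p R e kk s u z₀ 0)

/-! ## The other hypotheses of `Ot_H` -/

/-- (HT1) symbols, algebraic, bounded.

USES `o_SAF`, `o_BDN`, `o_VAL`. PROOF. `kkE er p R kk d i` is `0` or `kk i`, so SAF applies to the families `kkE er p R kk d` (`0` or a root of unity). `QT k = Φ + s ι^* Φ'`, `Φ = PhiK R e (kkE er p R kk (z₀^k))/(u om_0)`, `Φ' = PhiK R e (kkE er p R kk (-z₀^k))/(u om_0)`. Symbol: `isSym_neg`, `isSym_add` of `NS/HGR.lean` (or copy them). Bounded: BDN for each family;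
`kkE er p R kk d` depends only on `er` and on `J(d | p) ∈ {0, 1, -1}` (`kkJ p R kk d = kkJ p R kk d'` if `J(d | p) = J(d' | p)`: `jacobiSym.mul_left`), so there are only finitely many families (or: only finitely many `d` modulo `p`): take the maximum of the exponents; `v s ≤ 1`. -/
def Ob_HT1 : Prop :=
  ∀ (p er : ℕ) (A B : ℤ) (P : Ideal (OO A B)) (V : ValuationSubring ℂ) (f : ℕ),
    SetO p er A B P V f → TorX A B → ∀ (ι : Type) [Fintype ι] (R : Reps A B (p * f) ι)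
    (e : OO A B → ℂ), IsEI (idl (A := A) (B := B) (p * f)) e → ∀ r : ℕ, r ≠ 0 →
    (∀ x, e x ≠ 0 → e x ^ r = 1) → ∀ kk : ι → ℂ, (∀ i, kk i ^ r = 1) →
    ∀ u : ℂ, u ≠ 0 → IsAlgebraic ℚ u → ∀ s : ℂ, s = 1 ∨ s = -1 → ∀ z₀ : ℤ,
    (∀ k, IsSym (p ^ (er + 1) * N0O p er A B f) (nuX e) (QT er p R e kk s u z₀ k)) ∧
    (∀ k x y, IsAlgebraic ℚ (QT er p R e kk s u z₀ k x y)) ∧
    ∃ K : ℕ, ∀ k x y, V.valuation ((p : ℂ) ^ K * QT er p R e kk s u z₀ k x y) ≤ 1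

/-- (HT2) `ι^*` and the period in `k`.

USES ZC (2). PROOF. `z₀^(k + (p-1)/2) ≡ -z₀^k` and `z₀^(k + (p-1)) ≡ z₀^k` modulo `p` (`p ∣ M`), and `kkE er p R kk d` depends only on `d` modulo `p` (`jacobiSym.mod_left`); `ι ι = 1` (`mob (-1) 0 0 1 (mob (-1) 0 0 1 x) = x`), `s² = 1`. -/
def Ob_HT2 : Prop :=
  ∀ (p er n : ℕ) (z₀ : ℤ), p.Prime → p ≠ 2 → IsZ0 p n z₀ → ∀ (A B : ℤ) (n' : ℕ) (ι : Type)
    [Fintype ι] (R : Reps A B n' ι) (e : OO A B → ℂ) (kk : ι → ℂ) (s u : ℂ), s = 1 ∨ s = -1 →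
    (∀ k x y, QT er p R e kk s u z₀ k (mob (-1) 0 0 1 x) (mob (-1) 0 0 1 y) =
      s * QT er p R e kk s u z₀ (k + (p - 1) / 2) x y) ∧
    ∀ k, QT er p R e kk s u z₀ (k + (p - 1)) = QT er p R e kk s u z₀ k

/-- (HT3) depletion at `l`.

PROOF. `TWB.t_DPL` for `PhiI (R.b i) e` (`idl (p f) ≤ sp l`, as `l ∣ f`); linear combination. Second part: `mob (-1) 0 0 1 ∞ = ∞`, `mob (-1) 0 0 1 (x + j/l) = -x - j/l`, and by the period 1 (`MUXHY.Qsx.PhiI_per`) the value at `-x - j/l` is the value at `-x + (l - j)/l`; `j ↦ l - j` (`Finset.sum_range_reflect`, the term `j = l` is the term `j = 0`). MODEL: `TWB/TWB.lean`. -/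
def Ob_HT3 : Prop :=
  ∀ (A B : ℤ), CQ A B → ∀ (p er f l : ℕ), p ≠ 0 → f ≠ 0 → l.Prime → l ∣ f → ∀ (ι : Type)
    [Fintype ι] (R : Reps A B (p * f) ι) (e : OO A B → ℂ),
    IsEI (idl (A := A) (B := B) (p * f)) e → ∀ (kk : ι → ℂ) (s u : ℂ) (z₀ : ℤ) (k : ℕ) (x : ℚ),
    ∑ j ∈ Finset.range l,
      QT er p R e kk s u z₀ k ∞ ((x + (j : ℚ) / l : ℚ) : OnePoint ℚ) = 0

/-- (HT) the hypotheses of the abstract theorem.

USES ZC, ND, HT1, HT2, HT3, `o_RAM`, `o_VAL`, `o_CHR`, `o_UAL`. PROOF. `s = t(-1) = ±1` (`t(-1)² = t 1 = 1`), `tw` with `q = nI P - 1` (`nI P = p` or `p²`, so `p ∤ q`). `nuper` from CHR (`p N₀ ∣ p^(er+1) N₀`). `nua`: `nuX e d = chiX A B d * e d`, an integer times `0` or a root of unity. `l ≠ 0`: `l` is prime (`Gen`). -/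
def Ob_HT : Prop :=
  ∀ (p er : ℕ) (A B : ℤ) (P : Ideal (OO A B)) (V : ValuationSubring ℂ) (f : ℕ),
    SetO p er A B P V f → TorX A B →
    ∀ (ι : Type) [Fintype ι] (R : Reps A B (p * f) ι) (u el lam : ℂ),
    GoodL V (R.L R.i0) u el lam → ∀ w : OO A B → ℂ, IsTeiP p er P V w →
    ∀ e : OO A B → ℂ, IsEI (idl (A := A) (B := B) (p * f)) e → ∀ r : ℕ, ¬ p ∣ r →
    (∀ x, e x ≠ 0 → e x ^ r = 1) → ∀ i : ℕ, er * (nI P - 1) ≤ i * (p - 1) → i ≤ nI P - 2 →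
    (∀ x, x - 1 ∈ gO P f → x ∉ P → e x = w x ^ i) →
    ∀ t : ℤ → ℂ, IsTw p (nI P - 1) t → ∀ kk : ι → ℂ, (∀ i, kk i ^ r = 1) →
    ∀ l : ℕ, l.Prime → l ∣ f → ∀ n : ℕ, 5 ≤ n → ∀ z₀ : ℤ, IsZ0 p n z₀ →
    ∀ ξ : ℂ, IsPrimitiveRoot ξ (p ^ (n + 1)) →
    HypT p n V (p ^ (er + 1) * N0O p er A B f) (nuX e) (t (-1)) z₀ t
      (QT er p R e kk (t (-1)) u z₀) ξ l

/-! ## Theta series -/

/-- (SGP) the sums of the final statement as values of `PV`.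

USES `MUXF.xf_F5` (`MUXHY.Qsx.SnX_eq MUXF.xf_F5`). PROOF. `q0 p * p^n = p^(n+1)` (`p ≠ 2`). `Qsx.SnX_eq`: `Σ_i kk_i SnX i c = (2 f/om_0) Σ_(β < M) ex(-β c/M) PhiK R e (kk0 R e kk) ∞ (β/M) = (2 f/om_0) Yh M (ξ₀^c) (PhiK R e (kk0 R e kk)) ∞ 0` (`tM M β ∞ = ∞`, `tM M β 0 = β/M`; the part `hSn` of the proof of `ty_QSX`). So
`STX c = (2 f/om_0) (a Yh(ξ₀^(a² c)) - a² Yh(ξ₀^c))`; insert in `SG`, compare term by term with `PV`, `coT` (`r = 0, 1`). -/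
def Ob_SGP : Prop :=
  ∀ (p : ℕ), p.Prime → p ≠ 2 → ∀ (A B : ℤ), CQ A B → ∀ f : ℕ, f ≠ 0 → ∀ (ι : Type) [Fintype ι]
    (R : Reps A B (p * f) ι) (e : OO A B → ℂ), IsEI (idl (A := A) (B := B) (p * f)) e →
    ∀ (kk : ι → ℂ) (t : ℤ → ℂ) (z₀ : ℤ) (n : ℕ) (c : ℤ),
    ∑ j ∈ Finset.range 2, (-1 : ℂ) ^ (1 - j) *
        SG p R (lvX p f n) (p ^ (n + 1)) (aX p f) e kk t z₀ (c * (1 + (p : ℤ)) ^ j) =
      2 * f / R.om R.i0 * PV p n (ex (-1 / ((p ^ (n + 1) : ℕ) : ℚ))) (aX p f : ℕ) z₀ t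
        (fun _ => PhiK R e (kk0 R e kk)) c ∞ ((0 : ℚ) : OnePoint ℚ)

/-- (BIR) Birch's formula: the twist of the symbol by a character of the norm.

PROOF. `qb b x = nm x / nI b` for `x ∈ b` (`MUXF.xf_QB`), `ψ (nm x) = ψ (nI b) ψ (qb b x)`, `gaussSum ψ⁻¹ * ψ (qb) = Σ_(c < N) ψ⁻¹ c ex (c qb/N)` (`TWG.Gau.shift` for `ψ⁻¹`, `Gau.prim_inv`), `exp(2πi qb (z + c/N)) = exp(2πi qb z) ex(c qb/N)`: term by term `gaussSum ψ⁻¹ thetaI b e' z = ψ (nI b) Σ_c ψ⁻¹ c thetaI b e (z + c/N)`, `e' = e ψ(nm)`; then integrate.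
MODEL: `theta0`, `iv0`, `t_DPL` in `TWB/DPL.lean` (summability `xf_TSM`, integrability `xf_ITG`; `thetaI b e'` needs `IsEI g' e'`: hypothesis), `PhiI b e ∞ r = - IvI b e r`. -/
def Ob_BIR : Prop :=
  ∀ (A B : ℤ), CQ A B → ∀ (b g g' : Ideal (OO A B)) (e : OO A B → ℂ), b ≠ ⊥ → g ≠ ⊥ → g' ≠ ⊥ →
    IsEI g e → ∀ (N : ℕ) [NeZero N] (ψ : DirichletCharacter ℂ N), ψ.IsPrimitive →
    IsEI g' (fun x => e x * ψ (nm x)) → ∀ x : ℚ,
    gaussSum ψ⁻¹ ZMod.stdAddChar *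
        PhiI b (fun x => e x * ψ (nm x)) ∞ ((x : ℚ) : OnePoint ℚ) =
      ψ ((nI b : ℕ)) * ∑ c ∈ Finset.range N, ψ⁻¹ (c : ZMod N) *
        PhiI b e ∞ ((x + (c : ℚ) / N : ℚ) : OnePoint ℚ)

/-- (GEN) the wrong genus, ramified case.

USES `o_QBO`. PROOF. `ξ₀^m = ex(-m/M)`, `tM M b' ∞ = ∞`, `tM M b' x = x + b'/M`. `Σ_(b' < M) ex(-m b'/M) thetaI b e (z + b'/M)`: the term of `x` has the factor `Σ_(b' < M) ex((qb b x - m) b'/M)`, which is `0` unless `M ∣ qb b x - m`; then `p ∣ qb b x - m`, so if `e x ≠ 0`: `J(m | p) = J(qb b x | p) = J(nI b | p)` (QBO), `≠ 0` (`p ∤ m`), so `J(m nI b | p) = 1`,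
excluded. Integrate as in `TWB/DPL.lean` (`theta0`, `iv0`). -/
def Ob_GEN : Prop :=
  ∀ (p : ℕ) (A B : ℤ) (P : Ideal (OO A B)) (V : ValuationSubring ℂ) (f : ℕ),
    SetO p 2 A B P V f → ∀ e : OO A B → ℂ, IsEI (idl (A := A) (B := B) (p * f)) e →
    ∀ b : Ideal (OO A B), b ≠ ⊥ → ∀ (n : ℕ) (m : ℤ), ¬ (p : ℤ) ∣ m →
    jacobiSym (m * (nI b : ℤ)) p ≠ 1 → ∀ x : ℚ,
    Yh (p ^ (n + 1)) (ex (-1 / ((p ^ (n + 1) : ℕ) : ℚ)) ^ m) (PhiI b e) ∞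
      ((x : ℚ) : OnePoint ℚ) = 0

/-- (SYE) the symbol `PV` of `QT` and of the whole `PhiK`.

USES ZC, GEN. PROOF. `Y k c x = Yh M (ξ₀^c) (PhiK R e k) ∞ x = Σ_b ξ₀^(c b) PhiK R e k ∞ (x + b/M)`. (0) `Yh M (ξ₀^c) (ι^* PhiK R e k) ∞ x = Y k (-c) (-x)` (`b ↦ -b`, period `M`: `Qsx.PhiI_per`). (1) `er = 1`: `QT k = (Φ + s ι^* Φ)/(u om_0)`, `Φ = PhiK R e kk`. `PV (QT) c ∞ x = (u om_0)⁻¹ Σ_k t(z₀^k) Σ_(j,r) coT (Y(m z₀^k, x) + s Y(-m z₀^k, -x))`, `m = c a^(2r) (1+p)^j`.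
`-z₀^k ≡ z₀^(k + (p-1)/2)` modulo `M` (ZC), `s t(z₀^k) = t(-z₀^k) = t(z₀^(k + (p-1)/2))` (`ts : t (-1) = s`), and the sum over `k` modulo `p - 1` is shifted: the second part is `Σ_k t(z₀^k) Σ coT Y(m z₀^k, -x)`. (2) `er = 2`: the same with the families `kkJ p R kk (z₀^k)` (`kkJ p R kk (-z₀^k) = kkJ p R kk (z₀^(k + (p-1)/2))`):
`PV (QT) c ∞ x = (u om_0)⁻¹ Σ_k t(z₀^k) Σ coT (Y (kkJ (z₀^k)) (m z₀^k) x + Y (kkJ (z₀^k)) (m z₀^k) (-x))`. `J(m | p) = J(c | p)` (`a ≡ 1 + p ≡ 1` modulo `p`). GEN: the part of `b_i` in `Y kk (m z₀^k)` is `0` unless `J(c z₀^k nI b_i | p) = 1`. If `J(c | p) = 1` this says that `Y (kkJ (z₀^k)) (m z₀^k) = Y kk (m z₀^k)`; if `J(c | p) = -1`: the `i` in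
`kkJ (z₀^k)` have `J(z₀^k nI b_i | p) = 1`, so `Y (kkJ (z₀^k)) (m z₀^k) = 0`. (`¬ p ∣ m z₀^k`: ZC (1).) -/
def Ob_SYE : Prop :=
  ∀ (p er : ℕ) (A B : ℤ) (P : Ideal (OO A B)) (V : ValuationSubring ℂ) (f : ℕ),
    SetO p er A B P V f → ∀ (ι : Type) [Fintype ι] (R : Reps A B (p * f) ι) (e : OO A B → ℂ),
    IsEI (idl (A := A) (B := B) (p * f)) e → ∀ (kk : ι → ℂ) (u : ℂ) (t : ℤ → ℂ) (q n : ℕ),
    IsTw p q t → ∀ z₀ : ℤ, IsZ0 p n z₀ → ∀ a : ℤ, (p : ℤ) ∣ a - 1 → ∀ c : ℤ, ¬ (p : ℤ) ∣ c →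
    ∀ x : ℚ,
    ((er = 1 ∨ jacobiSym c p = 1) →
      PV p n (ex (-1 / ((p ^ (n + 1) : ℕ) : ℚ))) a z₀ t (QT er p R e kk (t (-1)) u z₀) c ∞
          ((x : ℚ) : OnePoint ℚ) =
        (PV p n (ex (-1 / ((p ^ (n + 1) : ℕ) : ℚ))) a z₀ t (fun _ => PhiK R e kk) c ∞
            ((x : ℚ) : OnePoint ℚ) +
          PV p n (ex (-1 / ((p ^ (n + 1) : ℕ) : ℚ))) a z₀ t (fun _ => PhiK R e kk) c ∞
            ((-x : ℚ) : OnePoint ℚ)) / (u * R.om R.i0)) ∧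
    (er = 2 → jacobiSym c p ≠ 1 →
      PV p n (ex (-1 / ((p ^ (n + 1) : ℕ) : ℚ))) a z₀ t (QT er p R e kk (t (-1)) u z₀) c ∞
        ((x : ℚ) : OnePoint ℚ) = 0)

/-! ## The result -/

/-- (HETA) assembly: module `theorem ob_HETA (hH : Ot_H) (h1 : Ob_HT) (h2 : Ob_SGP) (h3 : Ob_BIR) (h4 : Ob_EPS) (h5 : Ob_SYE) (h6 : Ob_ZC) (h7 : Ob_SGE) : O_HETA`, `OT/HB_HETA.lean`.

PROOF. `κ = kk0 R e kk`, `κ_i^r₁ = 1`. HT for `κ`, `ξ₀`; `Ot_H`: `r₀`; take `max r₀ 2`. Let `r ≥ max r₀ 2`, `ψ` even with `ψ(1 + l^(r-1)) ≠ 1`; `ψ⁻¹` has the same properties, `ψ` is primitive (`TWG.Gau.prim`). `q = l^r`, `f' = f q`, `a = aX p f' = 1 + 2 p f'`: `p ∣ a - 1`, `p² ∤ a - 1`. `Ot_H` for `ψ⁻¹`, `a`: `c`, `p ∤ c`, `v p < v S`, `S = Σ_(e < q) ψ⁻¹ e PV (QT κ) c ∞ (e/q)`.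
SYE: `er = 2`, `J(c | p) ≠ 1` is excluded (`S = 0`), so `S = (u om_0)⁻¹ Σ_e ψ⁻¹ e (G(e/q) + G(-e/q))`, `G x = PV (PhiK R e κ) c ∞ x`, of period 1 (`Qsx.PhiI_per`), so (`ψ⁻¹` even, `e ↦ -e`) `S = (2/(u om_0)) Σ_e ψ⁻¹ e G(e/q)`. Let `e' = e ψ(nm)` (EPS), `R' = RL R l r hl` (same `b`, `om`), `kk'_i = kk_i ψ(nI b_i)`: `kk0 R' e' kk' i = κ_i ψ(nI b_i)⁻¹` (`ψ(nI b_i) ≠ 0`: `nI b_i` is
prime to `l`; `e'(nI b_i) = e(nI b_i) ψ(nI b_i)²`). BIR, summed with these weights: `τ PhiK R' e' (kk0 R' e' kk') ∞ x = Σ_c ψ⁻¹ c PhiK R e κ ∞ (x + c/q)`, `τ = gaussSum ψ⁻¹`, for all `x ∈ ℚ`, hence `τ PV (PhiK R' e' (kk0 ..)) c ∞ 0 = Σ_e ψ⁻¹ e G(e/q)`. SGP for `f'`, `R'`, `e'`, `kk'`: `Σ_j ± SG(c (1+p)^j) = (2 f'/om_0) PV (PhiK R' e' (kk0 ..)) c ∞ 0`. Together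
`S = τ/(u f') Σ_j ± SG(c (1+p)^j)`, `v τ = 1` (`TWG.Gau.gone`, `v q = 1`), `v f' = 1`. ZC: `c ≡ z₀^m (1+p)^k'`, SGE: `SG(c (1+p)^j) = t(z₀)^(-m) SG((1+p)^(k'+j))`, `v t(z₀) = 1`. -/
def Ob_HETA : Prop := Ot_H → O_HETA

end

end Pool.Agent.OT


end

section

/-!
# OT, block HB: the field `nd` of `HypT` for `QT` (module ND, helper52)
-/

set_option autoImplicit false

namespace Pool.Agent.OT

open _root_.MU3 _root_.Pool.Agent.MU3A _root_.Pool.Agent.MU3B _root_.Pool.Agent.MU3F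
  _root_.Pool.Agent.MUX _root_.Pool.Agent.MuSym _root_.Pool.Agent.OB _root_.Pool.Agent.OBH OnePoint

noncomputable section

namespace ND

lemma QT_one {A B : ℤ} {n : ℕ} {ι : Type} [Fintype ι] (p : ℕ) (R : Reps A B n ι)
    (e : OO A B → ℂ) (kk : ι → ℂ) (s u : ℂ) (z₀ : ℤ) :
    QT 1 p R e kk s u z₀ 0 = sgnPart s (fun x y => PhiK R e kk x y / (u * R.om R.i0)) := by
  funext x y
  have h : ∀ d : ℤ, kkE 1 p R kk d = kk := fun d => if_pos rfl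
  unfold QT sgnPart
  rw [h, h]
  ring

lemma QT_two {A B : ℤ} {n : ℕ} {ι : Type} [Fintype ι] (p : ℕ) (R : Reps A B n ι)
    (e : OO A B → ℂ) (kk : ι → ℂ) (s u : ℂ) (z₀ : ℤ) :
    QT 2 p R e kk s u z₀ 0 = QR p R e kk s u := by
  funext x y
  have h : ∀ d : ℤ, kkE 2 p R kk d = kkJ p R kk d := fun d => if_neg (by norm_num)
  unfold QT QR
  rw [h, h, pow_zero]

end ND

open _root_.Pool.Agent.OT.ND in
/-- (ND) closed cycles of all levels on which the Fourier coefficients of `QT 0` are not small -/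
theorem ob_ND (h1 : OTH.S_NDN) (h2 : OTH.S_NDR) (h3 : So_HQ1) (h4 : So_HQ2) (h5 : So_REL)
    (h6 : So_RAM) : Ob_ND := by
  intro p er A B P V f hS hT ι _ R u el lam hg w hw e he r hrp her i hi1 hi2 hty s hs kk hkk z₀ n
    hn ξ hξ
  obtain ⟨s', hs', rfl⟩ : ∃ s' : ℤ, (s' = 1 ∨ s' = -1) ∧ (s' : ℂ) = s := by
    rcases hs with rfl | rfl
    · exact ⟨1, Or.inl rfl, by norm_num⟩
    · exact ⟨-1, Or.inr rfl, by norm_num⟩
  have pp : p.Prime := hS.pp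
  have p5 : 5 ≤ p := hS.p5
  obtain ⟨r1, -, r3⟩ := h6 p er A B P V hS.toCaseO
  rcases hS.ram with ⟨rfl, -⟩ | ⟨rfl, -⟩
  · rw [one_mul] at hi1
    obtain ⟨pi, KI, hyp, hdep, hKI, hpi⟩ := h3 p A B P V f hS hT ι R u el lam hg w hw e he r hrp
      her i hi1 hi2 hty s' hs' kk hkk
    rw [QT_one]
    have hle : nI P ≤ p ^ 2 := by
      rcases r1 with h | h
      · rw [h, pow_two]
        exact Nat.le_mul_self p
      · exact h.le
    have hge : p ≤ nI P := by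
      rcases r1 with h | h
      · exact h.ge
      · rw [h, pow_two]
        exact Nat.le_mul_self p
    refine h1 p V (N0O p 1 A B f) 1 (nI P - 1) i (nuX e) _ pi KI hyp hdep hKI hi1 (by omega) ?_
      hpi n hn ξ hξ
    have h7 : p ^ 2 ≤ (p - 1) * p ^ 2 := Nat.le_mul_of_pos_left _ (by omega)
    omega
  · obtain ⟨hP, -, -⟩ := r3 rfl
    rw [hP] at hi1 hi2
    have hi3 : 2 ≤ i := Nat.le_of_mul_le_mul_right hi1 (by omega)
    have hi4 : i < p - 1 := by omega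
    obtain ⟨pi, KI, hyp, hKI, hpi⟩ := h4 p A B P V f hS hT ι R u el lam hg w hw e he r hrp
      her i hi3 hi4 hty s' hs' kk hkk
    rw [QT_two]
    exact h2 p V (N0O p 2 A B f) 2 i (nuX e) _ pi KI (Complex.exp (2 * Real.pi * Complex.I / p)) hyp
      (Complex.isPrimitiveRoot_exp p pp.ne_zero)
      (fun x => h5 p A B P V f hS ι R e he kk (s' : ℂ) u x) hKI hi3 hi4 hpi n hn ξ hξ

end

end Pool.Agent.OT


end

section

/-!
# OT, block HB (helper31): `Ob_SGE`, the sums `SG` under `c ↦ z₀ c`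
-/

set_option autoImplicit false

namespace Pool.Agent.OT

open _root_.MU3 _root_.Pool.Agent.MU3A _root_.Pool.Agent.MU3B _root_.Pool.Agent.MU3F
  _root_.Pool.Agent.MUX _root_.Pool.Agent.MuSym _root_.Pool.Agent.OB _root_.Pool.Agent.OBH OnePoint

namespace SGE

variable {A B : ℤ} {n' : ℕ} {ι : Type}

lemma SnX_per (R : Reps A B n' ι) (m M : ℕ) (e : OO A B → ℂ) (i : ι) (c c' : ℤ)
    (h : (M : ℤ) ∣ c - c') : SnX R m M e i c = SnX R m M e i c' := by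
  unfold SnX
  congr 2
  funext x
  have h1 : ((M : ℤ) ∣ nm x * nI (R.b i) - c) ↔ ((M : ℤ) ∣ nm x * nI (R.b i) - c') := by
    constructor
    · intro h2
      have := dvd_add h2 h
      rwa [show nm x * (nI (R.b i) : ℤ) - c + (c - c') = nm x * nI (R.b i) - c' by ring] at this
    · intro h2
      have := dvd_sub h2 h
      rwa [show nm x * (nI (R.b i) : ℤ) - c' - (c - c') = nm x * nI (R.b i) - c by ring] at this
  simp only [h1]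

lemma STX_per [Fintype ι] (R : Reps A B n' ι) (m M a : ℕ) (e : OO A B → ℂ) (kk : ι → ℂ) (c c' : ℤ)
    (h : (M : ℤ) ∣ c - c') : STX R m M a e kk c = STX R m M a e kk c' := by
  unfold STX
  refine Finset.sum_congr rfl fun i _ => ?_
  rw [SnX_per R m M e i c c' h, SnX_per R m M e i ((a : ℤ) ^ 2 * c) ((a : ℤ) ^ 2 * c') (by
    rw [← mul_sub]
    exact Dvd.dvd.mul_left h _)]

lemma SG_per [Fintype ι] (p : ℕ) (R : Reps A B n' ι) (m M a : ℕ) (e : OO A B → ℂ) (kk : ι → ℂ)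
    (t : ℤ → ℂ) (z₀ c c' : ℤ) (h : (M : ℤ) ∣ c - c') :
    SG p R m M a e kk t z₀ c = SG p R m M a e kk t z₀ c' := by
  unfold SG
  refine Finset.sum_congr rfl fun k _ => ?_
  rw [STX_per R m M a e kk (z₀ ^ k * c) (z₀ ^ k * c') (by
    rw [← mul_sub]
    exact Dvd.dvd.mul_left h _)]

end SGE

open _root_.Pool.Agent.OT.SGE in
/-- (SGE) the sums `SG` under `c ↦ z₀ c` -/
theorem ob_SGE : Ob_SGE := by
  intro p n z₀ t q A B n' ι _ R m a e kk hp hz ht hq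
  have hp1 : 1 ≤ p - 1 := by have := hp.two_le; omega
  have hq0 : q ≠ 0 := by
    rintro rfl
    exact hq (dvd_zero p)
  have hzp : ¬ (p : ℤ) ∣ z₀ := by
    intro h1
    have h2 : (p : ℤ) ∣ ((p ^ (n + 1) : ℕ) : ℤ) := by
      push_cast
      exact dvd_pow_self _ (Nat.succ_ne_zero n)
    have h3 := h2.trans hz.one
    have h4 : (p : ℤ) ∣ z₀ ^ (p - 1) := dvd_pow h1 (by omega)
    have h5 : (p : ℤ) ∣ 1 := by
      have := dvd_sub h4 h3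
      rwa [sub_sub_cancel] at this
    have h6 : p ∣ 1 := by exact_mod_cast h5
    exact hp.one_lt.ne' (Nat.dvd_one.1 h6)
  have htpow : ∀ k : ℕ, t (z₀ ^ k) = t z₀ ^ k := by
    intro k
    induction k with
    | zero => rw [pow_zero, pow_zero, ht.one]
    | succ k ih => rw [pow_succ, ht.mul, ih, pow_succ]
  have hlast : t z₀ ^ (p - 1) = 1 := by
    rw [← htpow, ht.per (z₀ ^ (p - 1)) 1 ?_, ht.one]
    refine dvd_trans ?_ hz.one
    push_cast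
    exact dvd_pow_self _ (Nat.succ_ne_zero n)
  have step : ∀ c : ℤ, t z₀ * SG p R m (p ^ (n + 1)) a e kk t z₀ (z₀ * c) =
      SG p R m (p ^ (n + 1)) a e kk t z₀ c := by
    intro c
    unfold SG
    rw [Finset.mul_sum]
    have h1 : ∀ k ∈ Finset.range (p - 1),
        t z₀ * (t (z₀ ^ k) * STX R m (p ^ (n + 1)) a e kk (z₀ ^ k * (z₀ * c))) =
          t (z₀ ^ (k + 1)) * STX R m (p ^ (n + 1)) a e kk (z₀ ^ (k + 1) * c) := by
      intro k _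
      rw [htpow, htpow, pow_succ (t z₀) k, pow_succ z₀ k, mul_assoc (z₀ ^ k) z₀ c]
      ring
    rw [Finset.sum_congr rfl h1]
    have h2 := Finset.sum_range_succ' (fun k => t (z₀ ^ k) *
      STX R m (p ^ (n + 1)) a e kk (z₀ ^ k * c)) (p - 1)
    have h3 := Finset.sum_range_succ (fun k => t (z₀ ^ k) *
      STX R m (p ^ (n + 1)) a e kk (z₀ ^ k * c)) (p - 1)
    have h4 : STX R m (p ^ (n + 1)) a e kk (z₀ ^ (p - 1) * c) =
        STX R m (p ^ (n + 1)) a e kk (z₀ ^ 0 * c) := by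
      apply STX_per
      rw [← sub_mul, pow_zero]
      exact Dvd.dvd.mul_right hz.one _
    have h5 : t (z₀ ^ (p - 1)) = t (z₀ ^ 0) := by rw [htpow, htpow, hlast, pow_zero]
    rw [h3] at h2
    rw [h4, h5] at h2
    exact (add_right_cancel h2).symm
  refine ⟨fun c c' h => SG_per p R m _ a e kk t z₀ c c' h, ?_, ?_⟩
  · exact ht.pow z₀ hzp
  · intro c j
    induction j with
    | zero => rw [pow_zero, pow_zero, one_mul, one_mul]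
    | succ j ih =>
      rw [pow_succ (t z₀), mul_assoc]
      have := step (z₀ ^ j * c)
      rw [show z₀ ^ (j + 1) * c = z₀ * (z₀ ^ j * c) by ring]
      rw [this]
      exact ih

end Pool.Agent.OT


end

section

/-!
# OT, block H: module HT (helper51)

The abstract theorem `Ot_H` from the vector version `TWV.S_TWV` of the rigidity theorem. The family `I` = the classes of
`a` modulo `p^K` with `p ∣ a - 1`, `p² ∤ a - 1`.
-/

set_option autoImplicit false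

namespace Pool.Agent.OTH

open _root_.MU3 Pool.Agent.MuSym Pool.Agent.MUXH OnePoint Pool.Agent.OBH Pool.Agent.OT
open Pool.Agent.TWR (Gen)
open Pool.Agent.TWV (IsVSym)

noncomputable section

namespace HT

open Pool.Agent.MUXH.Hz (val_int val_int_p val_root val_p)

/-- the values of `ψ` -/
theorem v_psi (V : ValuationSubring ℂ) (m : ℕ) (hm : m ≠ 0) (ψ : DirichletCharacter ℂ m)
    (x : ZMod m) : V.valuation (ψ x) ≤ 1 := by
  have : NeZero m := ⟨hm⟩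
  by_cases hx : IsUnit x
  · obtain ⟨u, rfl⟩ := hx
    have h1 : ψ (u : ZMod m) ^ Nat.card (ZMod m)ˣ = 1 := by
      rw [← map_pow, ← Units.val_pow_eq_pow_val, pow_card_eq_one', Units.val_one, map_one]
    exact (val_root V _ Nat.card_pos.ne' _ h1).le
  · rw [MulChar.map_nonunit _ hx, map_zero]
    exact zero_le

end HT

open _root_.Pool.Agent.OTH.HT CNG in
/-- The abstract theorem. -/
theorem h_HT (h1 : S_LAG) (h2 : S_VSY) (h3 : S_CNG) (h5 : Pool.Agent.TWV.S_TWV) : Ot_H := by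
  intro l g h hG p n V N nu s z₀ t Q ξ H
  have hl : l.Prime := by rcases hG with ⟨rfl, _, _⟩ | ⟨rfl, _, _⟩ <;> norm_num
  obtain ⟨K, hK2, hK⟩ := h3 p n V N nu s z₀ t Q ξ l H
  have hE0 : p ^ K ≠ 0 := pow_ne_zero _ H.pp.ne_zero
  have : NeZero (p ^ K) := ⟨hE0⟩
  have hMne : p ^ (n + 1) ≠ 0 := pow_ne_zero _ H.pp.ne_zero
  have : NeZero (p ^ (n + 1)) := ⟨hMne⟩
  -- the classes of `a`
  let I : Type := {i : ZMod (p ^ K) //
    ∃ a : ℤ, (a : ZMod (p ^ K)) = i ∧ (p : ℤ) ∣ a - 1 ∧ ¬ (p : ℤ) ^ 2 ∣ a - 1}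
  have hI : Finite I := Subtype.finite
  choose rep hrep using fun i : I => i.2
  have hvp0 : (0 : V.ValueGroup) < V.valuation (p : ℂ) := v_p0 H
  have hvx0 : (0 : V.ValueGroup) < V.valuation (1 - ξ) :=
    lt_of_le_of_ne zero_le ((Valuation.ne_zero_iff _).2 (xi_ne H)).symm
  have hNM : N * p ^ (2 * (n + 1)) ≠ 0 := mul_ne_zero H.N0 (pow_ne_zero _ H.pp.ne_zero)
  have hNdvd : N ∣ N * p ^ (2 * (n + 1)) := Dvd.intro _ rfl
  obtain ⟨-, -, -, -, hsg1, hsgp, -, hval⟩ := h2 p n V N nu s z₀ t Q ξ l H 1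
  obtain ⟨r₀, hr₀⟩ := h5 l g h hG V p H.pp H.p5 H.vp I (ZMod (p ^ (n + 1)))ˣ
    (N * p ^ (2 * (n + 1))) hNM (sE (p ^ (n + 1))) hsg1 hsgp (fun _ => nu) (fun _ => H.nuv)
    (fun _ => H.nu1)
    (fun _ d d' hd => H.nuper d d' (dvd_trans (Int.natCast_dvd_natCast.2 hNdvd) hd))
    (fun _ => H.nua) (fun i => PE p n ξ (rep i) z₀ t Q)
    (fun i => (h2 p n V N nu s z₀ t Q ξ l H (rep i)).1)
    (fun i e x => (h2 p n V N nu s z₀ t Q ξ l H (rep i)).2.1 e _ _)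
    (fun i e x => (h2 p n V N nu s z₀ t Q ξ l H (rep i)).2.2.1 e x)
    (fun i e x => (h2 p n V N nu s z₀ t Q ξ l H (rep i)).2.2.2.1 e x)
    (fun i N' hN' hd => by
      obtain ⟨al, be, ga, de, c, hc, hdet, hga, hde, hv⟩ := h1 p n V N nu s z₀ t Q ξ l H (rep i)
        (hrep i).2.1 (hrep i).2.2 N' hN' (hNdvd.trans hd)
      obtain ⟨e, he⟩ := (h2 p n V N nu s z₀ t Q ξ l H (rep i)).2.2.2.2.2.2.1 c hc
      refine ⟨al, be, ga, de, e, hdet, hga, hde, ?_⟩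
      rw [he, map_mul, map_div₀, div_mul_eq_mul_div, le_div_iff₀ hvp0, one_mul, mul_comm]
      exact hv)
  refine ⟨r₀, fun r hr ψ hψ1 hψ2 a ha ha2 => ?_⟩
  -- the class of `a`
  let i : I := ⟨(a : ZMod (p ^ K)), a, rfl, ha, ha2⟩
  have hai : (p : ℤ) ^ K ∣ rep i - a := by
    have h6 : ((p ^ K : ℕ) : ℤ) ∣ rep i - a := by
      rw [← ZMod.intCast_zmod_eq_zero_iff_dvd, Int.cast_sub, (hrep i).1]
      exact sub_self _
    exact_mod_cast h6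
  obtain ⟨e, he⟩ := hr₀ r hr i ψ hψ1 hψ2
  refine ⟨((e : ZMod (p ^ (n + 1))).val : ℤ), hval e, ?_⟩
  set c : ℤ := ((e : ZMod (p ^ (n + 1))).val : ℤ) with hc
  have h4 : V.valuation (p : ℂ) < V.valuation (∑ b ∈ Finset.range (l ^ r), ψ b *
      PV p n ξ (rep i) z₀ t Q c ∞ (((b : ℚ) / (l : ℚ) ^ r : ℚ) : OnePoint ℚ)) := by
    have e1 : (∑ b ∈ Finset.range (l ^ r), ψ b *
        PE p n ξ (rep i) z₀ t Q e ∞ (((b : ℚ) / (l : ℚ) ^ r : ℚ) : OnePoint ℚ)) =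
        (1 - ξ) / p * (∑ b ∈ Finset.range (l ^ r), ψ b *
          PV p n ξ (rep i) z₀ t Q c ∞ (((b : ℚ) / (l : ℚ) ^ r : ℚ) : OnePoint ℚ)) := by
      rw [Finset.mul_sum]
      refine Finset.sum_congr rfl fun b _ => ?_
      unfold PE
      ring
    rw [e1, map_mul, map_div₀, div_mul_eq_mul_div, le_div_iff₀ hvp0, one_mul] at he
    refine lt_of_le_of_lt he ?_
    set w := V.valuation (∑ b ∈ Finset.range (l ^ r), ψ b *
      PV p n ξ (rep i) z₀ t Q c ∞ (((b : ℚ) / (l : ℚ) ^ r : ℚ) : OnePoint ℚ)) with hw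
    have hw0 : (0 : V.ValueGroup) < w := by
      rcases eq_or_ne w 0 with h7 | h7
      · rw [h7, mul_zero] at he
        exact absurd he (not_le.2 hvp0)
      · exact lt_of_le_of_ne zero_le h7.symm
    calc V.valuation (1 - ξ) * w < 1 * w := mul_lt_mul_of_pos_right (v_xi H) hw0
      _ = w := one_mul w
  have h5' : V.valuation ((∑ b ∈ Finset.range (l ^ r), ψ b *
      PV p n ξ (rep i) z₀ t Q c ∞ (((b : ℚ) / (l : ℚ) ^ r : ℚ) : OnePoint ℚ)) -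
      ∑ b ∈ Finset.range (l ^ r), ψ b *
        PV p n ξ a z₀ t Q c ∞ (((b : ℚ) / (l : ℚ) ^ r : ℚ) : OnePoint ℚ)) ≤
      V.valuation (p : ℂ) := by
    rw [← Finset.sum_sub_distrib]
    refine Valuation.map_sum_le _ fun b _ => ?_
    rw [← mul_sub, map_mul]
    exact (mul_le_of_le_one_left' (v_psi V _ (pow_ne_zero _ hl.ne_zero) ψ _)).trans
      (hK (rep i) a hai c _ _)
  by_contra hcon
  have h6 := not_lt.1 hcon
  have h7 : V.valuation (∑ b ∈ Finset.range (l ^ r), ψ b *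
      PV p n ξ (rep i) z₀ t Q c ∞ (((b : ℚ) / (l : ℚ) ^ r : ℚ) : OnePoint ℚ)) ≤
      V.valuation (p : ℂ) := by
    have e2 := Valuation.map_add V.valuation ((∑ b ∈ Finset.range (l ^ r), ψ b *
      PV p n ξ (rep i) z₀ t Q c ∞ (((b : ℚ) / (l : ℚ) ^ r : ℚ) : OnePoint ℚ)) -
      ∑ b ∈ Finset.range (l ^ r), ψ b *
        PV p n ξ a z₀ t Q c ∞ (((b : ℚ) / (l : ℚ) ^ r : ℚ) : OnePoint ℚ))
      (∑ b ∈ Finset.range (l ^ r), ψ b *
        PV p n ξ a z₀ t Q c ∞ (((b : ℚ) / (l : ℚ) ^ r : ℚ) : OnePoint ℚ))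
    rw [sub_add_cancel] at e2
    exact e2.trans (max_le h5' h6)
  exact absurd h4 (not_lt.2 h7)

end

end Pool.Agent.OTH


end
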