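import Pool.Agent.MVF.C048
import Pool.Agent.MVF.C060
import Pool.Agent.MVF.C078
import Pool.Agent.MVF.C106
import Pool.Agent.MVF.C117
import Pool.Agent.OBM.C01
import Pool.Agent.OBM.C02
import Pool.Agent.OBM.C06
import Pool.Agent.OTM.C03

/-! Parts: OB.F_RAG, OB.F_RIX, OB.F_RRK, OB.F_RST, OB.F_SUB, OB.F_INF -/

section

/-!
# OB, FINAL: the rank of the kernel of a norm element and eigenspaces (RAG)
-/

set_option autoImplicit false

open Finset

namespace Pool.Agent.OBF

namespace RAGx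

/-- additive functions -/
def AddF (F : Type) [Field F] (B : Type) [AddCommGroup B] : Submodule F (B → F) where
  carrier := {f | ∀ x y, f (x + y) = f x + f y}
  add_mem' := by
    intro f g h1 h2 x y
    show f (x + y) + g (x + y) = (f x + g x) + (f y + g y)
    rw [h1, h2]; ring
  zero_mem' := by
    intro x y
    show (0 : F) = 0 + 0
    rw [add_zero]
  smul_mem' := by
    intro c f h1 x y
    show c * f (x + y) = c * f x + c * f y
    rw [h1]; ring

theorem hom_ge_vec (p : ℕ) [hp : Fact p.Prime] (F : Type) [Field F] [CharP F p] (B : Type)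
    [AddCommGroup B] [Module (ZMod p) B] [Finite B] :
    padicValNat p (Nat.card B) ≤ Module.finrank F (AddF F B) := by
  classical
  have hfin : Module.Finite (ZMod p) B := Module.Finite.of_finite
  set r := Module.finrank (ZMod p) B with hr
  have hcard : p ^ r = Nat.card B := by
    have h2 := Module.natCard_eq_pow_finrank (K := ZMod p) (V := B)
    rw [Nat.card_zmod] at h2
    exact h2.symm
  have hle : padicValNat p (Nat.card B) = r := by
    rw [← hcard, padicValNat.prime_pow]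
  rw [hle]
  let b := Module.finBasis (ZMod p) B
  let ψ : ZMod p →+* F := ZMod.castHom (dvd_refl p) F
  let Φ : (Fin r → F) →ₗ[F] AddF F B :=
    { toFun := fun c => ⟨fun x => ∑ i, c i * ψ (b.repr x i), by
        intro x y
        simp only [map_add, Finsupp.coe_add, Pi.add_apply, mul_add, sum_add_distrib]⟩
      map_add' := fun c c' => by
        apply Subtype.ext
        funext x
        show ∑ i, (c i + c' i) * ψ (b.repr x i) =
          ∑ i, c i * ψ (b.repr x i) + ∑ i, c' i * ψ (b.repr x i)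
        rw [← sum_add_distrib]
        exact sum_congr rfl fun i _ => by ring
      map_smul' := fun a c => by
        apply Subtype.ext
        funext x
        show ∑ i, (a * c i) * ψ (b.repr x i) = a * ∑ i, c i * ψ (b.repr x i)
        rw [mul_sum]
        exact sum_congr rfl fun i _ => by ring }
  have hΦ : Function.Injective Φ := by
    rw [← LinearMap.ker_eq_bot, LinearMap.ker_eq_bot']
    intro c hc
    funext j
    have h1 : (Φ c).1 (b j) = 0 := by rw [hc]; rfl
    have h2 : (Φ c).1 (b j) = ∑ i, c i * ψ (b.repr (b j) i) := rfl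
    rw [h2, Finset.sum_eq_single j] at h1
    · rw [b.repr_self, Finsupp.single_eq_same, map_one, mul_one] at h1
      exact h1
    · intro i _ hij
      rw [b.repr_self, Finsupp.single_eq_of_ne hij, map_zero, mul_zero]
    · intro h
      exact absurd (mem_univ _) h
  have h9 := LinearMap.finrank_le_finrank_of_injective hΦ
  rwa [Module.finrank_fin_fun] at h9

theorem hom_ge (p : ℕ) [hp : Fact p.Prime] (F : Type) [Field F] [CharP F p] (B : Type)
    [AddCommGroup B] [Finite B] (hB : ∀ x : B, p • x = 0) :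
    padicValNat p (Nat.card B) ≤ Module.finrank F (AddF F B) :=
  letI : Module (ZMod p) B := AddCommGroup.zmodModule hB
  hom_ge_vec p F B

/-- the kernel and the cokernel of an endomorphism of a finite group have the same order -/
theorem card_coker (A : Type) [AddCommGroup A] [Finite A] (t : A →+ A) :
    Nat.card (A ⧸ t.range) = Nat.card t.ker := by
  have e1 := AddSubgroup.card_eq_card_quotient_mul_card_addSubgroup t.range
  have e2 := AddSubgroup.card_eq_card_quotient_mul_card_addSubgroup t.ker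
  have e3 : Nat.card (A ⧸ t.ker) = Nat.card t.range :=
    Nat.card_congr (QuotientAddGroup.quotientKerEquivRange t).toEquiv
  rw [e3] at e2
  have hpos : 0 < Nat.card t.range := Nat.card_pos
  rw [e2, mul_comm] at e1
  exact (Nat.eq_of_mul_eq_mul_right hpos e1).symm

section act

variable {A D : Type} [AddCommGroup A] [CommGroup D] (ρ : D →* AddMonoid.End A)
  (H : Subgroup D) [Fintype H]

/-- the norm element of `H` -/
def NN : A →+ A := AddMonoidHom.mk' (fun x => ∑ δ : H, ρ (δ : D) x) (by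
  intro x y
  simp only [map_add, sum_add_distrib])

theorem NN_apply (x : A) : NN ρ H x = ∑ δ : H, ρ (δ : D) x := rfl

theorem act_mul (δ ε : D) (x : A) : ρ (δ * ε) x = ρ δ (ρ ε x) := by
  rw [map_mul]; rfl

theorem NN_act (δ : D) (x : A) : NN ρ H (ρ δ x) = ρ δ (NN ρ H x) := by
  rw [NN_apply, NN_apply, map_sum]
  refine sum_congr rfl fun ε _ => ?_
  rw [← act_mul, ← act_mul, mul_comm]

theorem NN_NN (x : A) : NN ρ H (NN ρ H x) = Fintype.card H • NN ρ H x := by
  rw [NN_apply ρ H (NN ρ H x)]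
  have h1 : ∀ δ : H, ρ (δ : D) (NN ρ H x) = NN ρ H x := by
    intro δ
    rw [NN_apply, map_sum]
    have h2 : ∀ ε : H, ρ (δ : D) (ρ (ε : D) x) = ρ ((δ * ε : H) : D) x := by
      intro ε
      rw [Subgroup.coe_mul, act_mul]
    simp only [h2]
    exact Fintype.sum_equiv (Equiv.mulLeft δ) _ _ fun _ => rfl
  simp only [h1, sum_const, card_univ]

end act

end RAGx

open _root_.Pool.Agent.OBF.RAGx in
theorem tf_RAG : Sf_RAG := by
  intro p hp F _ _ _ A D _ _ _ _ ρ H _ hD R hR
  classical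
  have : Fintype D := Fintype.ofFinite D
  -- numbers
  have hc : (Nat.card D).Coprime p := ((Nat.Prime.coprime_iff_not_dvd hp.out).2 hD).symm
  have hh : ((Fintype.card H : ℕ) : F) ≠ 0 := by
    refine MUXK.EIGX.natCast_ne p F _ (Nat.Coprime.coprime_dvd_left ?_ hc)
    rw [← Nat.card_eq_fintype_card]
    exact Subgroup.card_subgroup_dvd_card H
  have hexp : ((Monoid.exponent D : ℕ) : F) ≠ 0 := by
    refine MUXK.EIGX.natCast_ne p F _ (Nat.Coprime.coprime_dvd_left ?_ hc)
    exact Group.exponent_dvd_nat_card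
  have : NeZero ((Monoid.exponent D : ℕ) : F) := ⟨hexp⟩
  have : HasEnoughRootsOfUnity F (Monoid.exponent D) := inferInstance
  have hfin : Finite (D →* Fˣ) :=
    Finite.of_equiv D (CommGroup.monoidHom_mulEquiv_of_hasEnoughRootsOfUnity D F).some.symm.toEquiv
  have : Fintype (D →* Fˣ) := Fintype.ofFinite _
  have hcardD : Fintype.card (D →* Fˣ) = Nat.card D := by
    rw [← Nat.card_eq_fintype_card, CommGroup.card_monoidHom_of_hasEnoughRootsOfUnity]
  have hcard : (Fintype.card (D →* Fˣ) : F) ≠ 0 := by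
    rw [hcardD]
    exact MUXK.EIGX.natCast_ne p F _ hc
  have horth : ∀ δ : D, δ ≠ 1 → ∑ χ : D →* Fˣ, (((χ δ)⁻¹ : Fˣ) : F) = 0 := by
    intro δ hδ
    obtain ⟨φ, hφ⟩ := CommGroup.exists_apply_ne_one_of_hasEnoughRootsOfUnity D F hδ
    have h1 : ∑ χ : D →* Fˣ, (((χ δ)⁻¹ : Fˣ) : F) =
        ∑ χ : D →* Fˣ, ((((φ * χ) δ)⁻¹ : Fˣ) : F) :=
      (Fintype.sum_equiv (Equiv.mulLeft φ) _ _ (fun _ => rfl)).symm
    have h2 : ∑ χ : D →* Fˣ, ((((φ * χ) δ)⁻¹ : Fˣ) : F) =
        (((φ δ)⁻¹ : Fˣ) : F) * ∑ χ : D →* Fˣ, (((χ δ)⁻¹ : Fˣ) : F) := by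
      rw [Finset.mul_sum]
      refine Finset.sum_congr rfl fun χ _ => ?_
      rw [MonoidHom.mul_apply, mul_inv, Units.val_mul]
    have h3 : (1 - (((φ δ)⁻¹ : Fˣ) : F)) * ∑ χ : D →* Fˣ, (((χ δ)⁻¹ : Fˣ) : F) = 0 := by
      rw [sub_mul, one_mul, ← h2, ← h1, sub_self]
    rcases mul_eq_zero.mp h3 with h | h
    · exfalso
      apply hφ
      have h4 : (((φ δ)⁻¹ : Fˣ) : F) = ((1 : Fˣ) : F) := by
        rw [Units.val_one]
        linear_combination -h
      have h5 := Units.ext h4
      exact inv_eq_one.mp h5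
    · exact h
  -- the kernel of the norm element
  set N : A →+ A := NN ρ H with hN
  let A' : AddSubgroup A := N.ker
  let t : A' →+ A' := nsmulAddMonoidHom p
  have ht : ∀ x : A', t x = p • x := fun x => rfl
  have hS : Nat.card {x : A // ∑ δ : H, ρ (δ : D) x = 0 ∧ p • x = 0} = Nat.card t.ker := by
    refine Nat.card_congr
      { toFun := fun x => ⟨⟨x.1, x.2.1⟩, ?_⟩
        invFun := fun x => ⟨x.1.1, x.1.2, ?_⟩
        left_inv := fun x => rfl
        right_inv := fun x => rfl }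
    · rw [AddMonoidHom.mem_ker, ht]
      exact Subtype.ext x.2.2
    · have h1 := x.2
      rw [AddMonoidHom.mem_ker, ht] at h1
      exact congrArg Subtype.val h1
  rw [hS, ← card_coker A' t]
  have hB : ∀ x : A' ⧸ t.range, p • x = 0 := by
    intro x
    obtain ⟨a, rfl⟩ := QuotientAddGroup.mk_surjective x
    have : (p : ℕ) • (QuotientAddGroup.mk a : A' ⧸ t.range) = QuotientAddGroup.mk (p • a) := rfl
    rw [this, QuotientAddGroup.eq_zero_iff]
    exact ⟨a, rfl⟩
  refine (hom_ge p F (A' ⧸ t.range) hB).trans ?_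
  -- functions on `A` which vanish on the image of `N`
  let W : Submodule F (A → F) :=
    { carrier := {f | (∀ x y, f (x + y) = f x + f y) ∧ ∀ x, f (N x) = 0}
      add_mem' := by
        rintro f g ⟨h1, h2⟩ ⟨h3, h4⟩
        refine ⟨fun x y => ?_, fun x => ?_⟩
        · show f (x + y) + g (x + y) = (f x + g x) + (f y + g y)
          rw [h1, h3]; ring
        · show f _ + g _ = 0
          rw [h2, h4, add_zero]
      zero_mem' := ⟨fun x y => by
        show (0 : F) = 0 + 0
        rw [add_zero], fun x => rfl⟩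
      smul_mem' := by
        rintro c f ⟨h1, h2⟩
        refine ⟨fun x y => ?_, fun x => ?_⟩
        · show c * f (x + y) = c * f x + c * f y
          rw [h1]; ring
        · show c * f _ = 0
          rw [h2, mul_zero] }
  have hmem : ∀ x : A, Fintype.card H • x - N x ∈ A' := by
    intro x
    show N (Fintype.card H • x - N x) = 0
    rw [map_sub, map_nsmul, hN, NN_NN, sub_self]
  let q : A → A' ⧸ t.range := fun x => QuotientAddGroup.mk ⟨Fintype.card H • x - N x, hmem x⟩
  have hq : ∀ x y, q (x + y) = q x + q y := by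
    intro x y
    have h1 : (⟨Fintype.card H • (x + y) - N (x + y), hmem (x + y)⟩ : A') =
        ⟨Fintype.card H • x - N x, hmem x⟩ + ⟨Fintype.card H • y - N y, hmem y⟩ := by
      apply Subtype.ext
      show Fintype.card H • (x + y) - N (x + y) =
        (Fintype.card H • x - N x) + (Fintype.card H • y - N y)
      rw [smul_add, map_add]
      abel
    show QuotientAddGroup.mk _ = QuotientAddGroup.mk _ + QuotientAddGroup.mk _
    rw [h1]
    rfl
  have hq0 : ∀ x, q (N x) = 0 := by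
    intro x
    have h1 : (⟨Fintype.card H • N x - N (N x), hmem (N x)⟩ : A') = 0 := by
      apply Subtype.ext
      show Fintype.card H • N x - N (N x) = 0
      rw [hN, NN_NN, sub_self]
    show QuotientAddGroup.mk _ = _
    rw [h1]
    rfl
  let Ψ : AddF F (A' ⧸ t.range) →ₗ[F] W :=
    { toFun := fun f => ⟨fun x => f.1 (q x), fun x y => by
          show f.1 (q (x + y)) = f.1 (q x) + f.1 (q y)
          rw [hq, f.2], fun x => by
        have h0 : f.1 0 = 0 := by
          have := f.2 0 0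
          rw [add_zero] at this
          linear_combination -this
        show f.1 (q (N x)) = 0
        rw [hq0, h0]⟩
      map_add' := fun _ _ => rfl
      map_smul' := fun _ _ => rfl }
  have hΨ : Function.Injective Ψ := by
    rw [← LinearMap.ker_eq_bot, LinearMap.ker_eq_bot']
    intro f hf
    apply Subtype.ext
    funext z
    obtain ⟨a, rfl⟩ := QuotientAddGroup.mk_surjective z
    have h1 : (Ψ f).1 (a : A) = 0 := by rw [hf]; rfl
    have h2 : (Ψ f).1 (a : A) = f.1 (q a) := rfl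
    have h3 : q (a : A) = Fintype.card H • (QuotientAddGroup.mk a : A' ⧸ t.range) := by
      have h4 : (⟨Fintype.card H • (a : A) - N a, hmem a⟩ : A') = Fintype.card H • a := by
        apply Subtype.ext
        show Fintype.card H • (a : A) - N a = ((Fintype.card H • a : A') : A)
        have h5 : N (a : A) = 0 := a.2
        rw [h5, sub_zero]
        rfl
      show QuotientAddGroup.mk _ = _
      rw [h4]
      rfl
    let fh : (A' ⧸ t.range) →+ F := AddMonoidHom.mk' f.1 f.2
    have h6 : fh (Fintype.card H • (QuotientAddGroup.mk a : A' ⧸ t.range)) = 0 := by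
      rw [← h3]
      exact h2.symm.trans h1
    rw [map_nsmul, nsmul_eq_mul] at h6
    exact (mul_eq_zero.1 h6).resolve_left hh
  refine (LinearMap.finrank_le_finrank_of_injective hΨ).trans ?_
  -- the eigenspaces
  let T : Type := {χ : D →* Fˣ // ∃ δ ∈ H, χ δ ≠ 1}
  have : Fintype T := Fintype.ofFinite _
  let e : (D →* Fˣ) → (A → F) → (A → F) := fun χ f x => ∑ δ : D, (((χ δ)⁻¹ : Fˣ) : F) * f (ρ δ x)
  have he : ∀ (χ : D →* Fˣ) (f : A → F), (∀ x y, f (x + y) = f x + f y) → e χ f ∈ EA F ρ χ := by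
    intro χ f hf
    refine ⟨fun x y => ?_, fun δ x => ?_⟩
    · show ∑ δ : D, _ = ∑ δ : D, _ + ∑ δ : D, _
      rw [← sum_add_distrib]
      refine sum_congr rfl fun δ _ => ?_
      rw [map_add, hf, mul_add]
    · show ∑ ε : D, (((χ ε)⁻¹ : Fˣ) : F) * f (ρ ε (ρ δ x)) =
        (χ δ : F) * ∑ ε : D, (((χ ε)⁻¹ : Fˣ) : F) * f (ρ ε x)
      rw [Finset.mul_sum]
      refine Fintype.sum_equiv (Equiv.mulRight δ) _ _ fun ε => ?_
      simp only [Equiv.coe_mulRight, map_mul, mul_inv, Units.val_mul]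
      have h1 : ((χ δ : Fˣ) : F) * (((χ δ)⁻¹ : Fˣ) : F) = 1 := Units.mul_inv _
      have h2 : (ρ ε * ρ δ) x = ρ ε (ρ δ x) := rfl
      rw [h2]
      linear_combination -((((χ ε)⁻¹ : Fˣ) : F) * f (ρ ε (ρ δ x))) * h1
  have hsum : ∀ (f : A → F) (x : A), ∑ χ : D →* Fˣ, e χ f x =
      (Fintype.card (D →* Fˣ) : F) * f x := by
    intro f x
    show ∑ χ : D →* Fˣ, ∑ δ : D, (((χ δ)⁻¹ : Fˣ) : F) * f (ρ δ x) = _
    rw [Finset.sum_comm, Finset.sum_eq_single (1 : D)]
    · simp only [map_one, inv_one, Units.val_one, one_mul, Finset.sum_const, nsmul_eq_mul,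
        Finset.card_univ]
      rfl
    · intro δ _ hδ
      rw [← Finset.sum_mul, horth δ hδ, zero_mul]
    · intro h
      exact absurd (Finset.mem_univ _) h
  let E : W →ₗ[F] ((χ : T) → EA F ρ χ.1) :=
    { toFun := fun f χ => ⟨e χ.1 f.1, he χ.1 f.1 f.2.1⟩
      map_add' := fun f g => by
        funext χ
        apply Subtype.ext
        funext x
        show ∑ δ : D, (((χ.1 δ)⁻¹ : Fˣ) : F) * (f.1 (ρ δ x) + g.1 (ρ δ x)) =
          ∑ δ : D, (((χ.1 δ)⁻¹ : Fˣ) : F) * f.1 (ρ δ x) +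
            ∑ δ : D, (((χ.1 δ)⁻¹ : Fˣ) : F) * g.1 (ρ δ x)
        rw [← sum_add_distrib]
        exact sum_congr rfl fun δ _ => by ring
      map_smul' := fun c f => by
        funext χ
        apply Subtype.ext
        funext x
        show ∑ δ : D, (((χ.1 δ)⁻¹ : Fˣ) : F) * (c * f.1 (ρ δ x)) =
          c * ∑ δ : D, (((χ.1 δ)⁻¹ : Fˣ) : F) * f.1 (ρ δ x)
        rw [mul_sum]
        exact sum_congr rfl fun δ _ => by ring }
  have hE : Function.Injective E := by
    rw [← LinearMap.ker_eq_bot, LinearMap.ker_eq_bot']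
    intro f hf
    apply Subtype.ext
    funext x
    have h1 : ∀ χ : D →* Fˣ, e χ f.1 x = 0 := by
      intro χ
      by_cases hχ : ∃ δ ∈ H, χ δ ≠ 1
      · have h2 : (E f ⟨χ, hχ⟩).1 x = 0 := by rw [hf]; rfl
        exact h2
      · push Not at hχ
        have h3 := (he χ f.1 f.2.1)
        have h4 : e χ f.1 (N x) = (Fintype.card H : F) * e χ f.1 x := by
          let g : A →+ F := AddMonoidHom.mk' (e χ f.1) h3.1
          have h5 : g (N x) = ∑ δ : H, g (ρ (δ : D) x) := by
            rw [hN, NN_apply, map_sum]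
          have h6 : ∀ δ : H, g (ρ (δ : D) x) = g x := by
            intro δ
            have h7 : g (ρ (δ : D) x) = (χ (δ : D) : F) * g x := h3.2 δ x
            rw [h7, hχ δ δ.2, Units.val_one, one_mul]
          have h8 : g (N x) = (Fintype.card H : F) * g x := by
            rw [h5]
            simp only [h6, sum_const, card_univ, nsmul_eq_mul]
          exact h8
        have h9 : e χ f.1 (N x) = 0 := by
          show ∑ δ : D, (((χ δ)⁻¹ : Fˣ) : F) * f.1 (ρ δ (N x)) = 0
          refine sum_eq_zero fun δ _ => ?_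
          rw [hN, ← NN_act, f.2.2, mul_zero]
        rw [h9] at h4
        exact (mul_eq_zero.1 h4.symm).resolve_left hh
    have h2 := hsum f.1 x
    simp only [h1, sum_const_zero] at h2
    exact (mul_eq_zero.1 h2.symm).resolve_left hcard
  refine (LinearMap.finrank_le_finrank_of_injective hE).trans ?_
  rw [Module.finrank_pi_fintype]
  have h1 : ∑ χ : T, Module.finrank F (EA F ρ χ.1) ≤ ∑ _χ : T, R :=
    sum_le_sum fun χ _ => hR χ.1 χ.2
  refine h1.trans ?_
  rw [sum_const, card_univ, smul_eq_mul]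
  refine Nat.mul_le_mul_right R ?_
  rw [← hcardD]
  exact Fintype.card_subtype_le _

end Pool.Agent.OBF


end

section

/-!
# OB, FINAL, module RIX (helper92): the index of the norm kernel
-/

set_option autoImplicit false

open NumberField IsDedekindDomain Finset
open scoped nonZeroDivisors Pointwise

namespace Pool.Agent.OBF

open _root_.Pool.Agent.RI

namespace RIXx

theorem padic_mono (p : ℕ) [Fact p.Prime] {a b : ℕ} (hb : b ≠ 0) (h : a ∣ b) :
    padicValNat p a ≤ padicValNat p b := by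
  obtain ⟨c, rfl⟩ := h
  have ha : a ≠ 0 := by rintro rfl; simp at hb
  have hc : c ≠ 0 := by rintro rfl; simp at hb
  rw [padicValNat.mul ha hc]
  omega

variable (L' L : Type) [Field L'] [NumberField L'] [Field L] [NumberField L] [Algebra L' L]

theorem PI_le [IsGalois L' L] : _root_.MU3.PI L ≤ RJ L' L := by
  rintro _ ⟨x, rfl⟩
  unfold RJ
  rw [Subgroup.mem_comap, CL.nm_prin, ext_prin]
  exact ⟨_, rfl⟩

/-- the norm on ideal classes -/
noncomputable def nC [IsGalois L' L] :
    (J L ⧸ _root_.MU3.PI L) →* (J L ⧸ _root_.MU3.PI L) :=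
  QuotientGroup.map (_root_.MU3.PI L) (_root_.MU3.PI L) (CL.nm L' L) (PI_le L' L)

/-- extension of ideal classes -/
noncomputable def eC : (J L' ⧸ _root_.MU3.PI L') →* (J L ⧸ _root_.MU3.PI L) :=
  QuotientGroup.map (_root_.MU3.PI L') (_root_.MU3.PI L) (ext L' L) (by
    rintro _ ⟨x, rfl⟩
    rw [Subgroup.mem_comap, ext_prin]
    exact ⟨_, rfl⟩)

theorem card_ker [IsGalois L' L] :
    Nat.card (nC L' L).ker = (_root_.MU3.PI L).relIndex (RJ L' L) := by
  have h1 : (nC L' L).ker = (RJ L' L).map (QuotientGroup.mk' (_root_.MU3.PI L)) :=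
    QuotientGroup.ker_map _ _ _ _
  rw [h1, ← Subgroup.relIndex_bot_left, ← Subgroup.map_bot (QuotientGroup.mk' (_root_.MU3.PI L)),
    Subgroup.relIndex_map_map, QuotientGroup.ker_mk', bot_sup_eq, sup_eq_left.2 (PI_le L' L)]

theorem range_le [IsGalois L' L] : (nC L' L).range ≤ (eC L' L).range := by
  rintro _ ⟨c, rfl⟩
  obtain ⟨b, rfl⟩ := QuotientGroup.mk_surjective c
  obtain ⟨b', hb'⟩ := CL.nm_mem (F := L') b
  refine ⟨QuotientGroup.mk b', ?_⟩
  show (QuotientGroup.mk (ext L' L b') : J L ⧸ _root_.MU3.PI L) = QuotientGroup.mk (CL.nm L' L b)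
  rw [hb']

end RIXx

open _root_.Pool.Agent.OBF.RIXx in
theorem tf_RIX : Sf_RIX := by
  intro p _ L' L _ _ _ _ _ _
  have hfin : Finite (J L ⧸ _root_.MU3.PI L) := CL.finite_quot L
  have h1 : Nat.card (nC L' L).ker * Nat.card (nC L' L).range =
      NumberField.classNumber L := by
    rw [← Subgroup.index_ker, Subgroup.card_mul_index, CL.classNumber_eq L]
  have hk : Nat.card (nC L' L).ker ≠ 0 := Nat.card_pos.ne'
  have hr : Nat.card (nC L' L).range ≠ 0 := Nat.card_pos.ne'
  rw [← h1, padicValNat.mul hk hr, card_ker]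
  refine Nat.add_le_add_left (padic_mono p ?_ ?_) _
  · rw [NumberField.classNumber]
    exact Fintype.card_ne_zero
  · rw [CL.classNumber_eq L']
    exact (Subgroup.card_dvd_of_le (range_le L' L)).trans (Subgroup.card_range_dvd (eC L' L))

end Pool.Agent.OBF


end

section

/-!
# OB, FINAL, module RRK (helper90): the rank of the norm kernel and the `χ`-parts
-/

set_option autoImplicit false

open NumberField IsDedekindDomain Finset
open scoped nonZeroDivisors Pointwise

namespace Pool.Agent.OBF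

open _root_.Pool.Agent.RI _root_.Pool.Agent.RID _root_.Pool.Agent.MU3 _root_.Pool.Agent.MUXK
  _root_.Pool.Agent.MUXZ _root_.Pool.Agent.NSI _root_.Pool.Agent.OB

namespace RRKx

open _root_.MU3.NQ

section gen

variable {F L : Type} [Field F] [Field L] [NumberField L] [Algebra F L]

lemma cl_prod {ι : Type} (s : Finset ι) (f : ι → J L) :
    (cl (∏ i ∈ s, f i) : ClA L) = ∑ i ∈ s, cl (f i) := by
  classical
  induction s using Finset.induction_on with
  | empty => rw [prod_empty, sum_empty, cl_one]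
  | insert a s ha ih => rw [prod_insert ha, sum_insert ha, cl_mul, ih]

/-- the action on the class group as a homomorphism -/
noncomputable def gH : (L ≃ₐ[F] L) →* AddMonoid.End (ClA L) where
  toFun := gA
  map_one' := by
    refine AddMonoidHom.ext fun x => ?_
    obtain ⟨b, rfl⟩ := cl_surj x
    show (cl ((1 : L ≃ₐ[F] L) • b) : ClA L) = cl b
    rw [one_smul]
  map_mul' a b := by
    refine AddMonoidHom.ext fun x => ?_
    obtain ⟨c, rfl⟩ := cl_surj x
    show (cl ((a * b) • c) : ClA L) = cl (a • b • c)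
    rw [mul_smul]

lemma gH_cl (g : L ≃ₐ[F] L) (b : J L) : gH g (cl b) = cl (g • b) := rfl

end gen

/-- The fixed points of an automorphism, as an intermediate field of `ℂ`. -/
lemma fixsup {k L E M : IntermediateField ℚ ℂ} (h : k ≤ L) (hE : E ≤ L) (hM : M ≤ L) :
    letI := algC h
    ∀ σ : L ≃ₐ[k] L, (∀ x : L, (x : ℂ) ∈ E → σ x = x) → (∀ x : L, (x : ℂ) ∈ M → σ x = x) →
      ∀ x : L, (x : ℂ) ∈ E ⊔ M → σ x = x := by
  let _ := algC h
  intro σ h1 h2
  let G : IntermediateField ℚ ℂ := IntermediateField.mk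
    { carrier := {x | ∃ hx : x ∈ L, σ ⟨x, hx⟩ = ⟨x, hx⟩}
      mul_mem' := by
        rintro x y ⟨hx, ex⟩ ⟨hy, ey⟩
        refine ⟨mul_mem hx hy, ?_⟩
        have : (⟨x * y, mul_mem hx hy⟩ : L) = ⟨x, hx⟩ * ⟨y, hy⟩ := rfl
        rw [this, map_mul, ex, ey]
      add_mem' := by
        rintro x y ⟨hx, ex⟩ ⟨hy, ey⟩
        refine ⟨add_mem hx hy, ?_⟩
        have : (⟨x + y, add_mem hx hy⟩ : L) = ⟨x, hx⟩ + ⟨y, hy⟩ := rfl
        rw [this, map_add, ex, ey]
      algebraMap_mem' := by
        intro q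
        refine ⟨L.algebraMap_mem q, ?_⟩
        have : (⟨algebraMap ℚ ℂ q, L.algebraMap_mem q⟩ : L) = algebraMap ℚ L q := rfl
        rw [this, eq_ratCast, map_ratCast] }
    (by
      rintro x ⟨hx, ex⟩
      refine ⟨inv_mem hx, ?_⟩
      have : (⟨x⁻¹, inv_mem hx⟩ : L) = (⟨x, hx⟩ : L)⁻¹ := rfl
      rw [this, map_inv₀, ex])
  have hG : E ⊔ M ≤ G := by
    refine sup_le (fun x hx => ⟨hE hx, h1 _ hx⟩) (fun x hx => ⟨hM hx, h2 _ hx⟩)
  intro x hx
  obtain ⟨_, e⟩ := hG hx
  exact e

end RRKx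

open _root_.Pool.Agent.OBF.RRKx _root_.MU3.NQ in
theorem tf_RRK (h1 : Sf_RAG) : Sf_RRK := by
  intro p n _ F _ _ _ k K' K B _ _ _ _ hB hB' hB'' hL hk₀ hkK hcop R hR
  let akL := algC hk₀
  let akK := algC hkK
  let aL := algC hL
  have hkL' : k ≤ K' ⊔ B n := hB'.hk.trans le_sup_left
  let akL' := algC hkL'
  have tow : IsScalarTower k ↥(K' ⊔ B n) ↥(K ⊔ B n) := towerC hkL' hL
  have comm := (k_GALX p k K B hB n hk₀).2
  obtain ⟨r, hr⟩ := I3X19.restr k_RSX p k K B hB hcop hkK n hk₀
  have fdkL : FiniteDimensional k ↥(K ⊔ B n) := Module.Finite.of_restrictScalars_finite ℚ k _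
  let icD : CommGroup (NC hk₀ (B n)) :=
    { (inferInstance : Group (NC hk₀ (B n))) with
      mul_comm := fun a b => Subtype.ext (comm _ _) }
  let H : Subgroup (NC hk₀ (B n)) :=
    { carrier := {δ | ∀ x : ↥(K ⊔ B n), (x : ℂ) ∈ K' →
        (δ : ↥(K ⊔ B n) ≃ₐ[k] ↥(K ⊔ B n)) x = x}
      mul_mem' := by
        intro a b ha hb x hx
        show (a : ↥(K ⊔ B n) ≃ₐ[k] ↥(K ⊔ B n)) ((b : ↥(K ⊔ B n) ≃ₐ[k] ↥(K ⊔ B n)) x) = x
        rw [hb x hx, ha x hx]
      one_mem' := fun x _ => rfl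
      inv_mem' := by
        intro a ha x hx
        have e := ha x hx
        show (a : ↥(K ⊔ B n) ≃ₐ[k] ↥(K ⊔ B n)).symm x = x
        rw [AlgEquiv.symm_apply_eq, e] }
  let ρ : (NC hk₀ (B n)) →* AddMonoid.End (ClA ↥(K ⊔ B n)) := gH.comp (NC hk₀ (B n)).subtype
  have hρ : ∀ (δ : NC hk₀ (B n)) (b : J ↥(K ⊔ B n)),
      ρ δ (cl b) = cl ((δ : ↥(K ⊔ B n) ≃ₐ[k] ↥(K ⊔ B n)) • b) := fun δ b => rfl
  -- the order of `D`
  have hcard : Nat.card (NC hk₀ (B n)) =
      Module.finrank k (IntermediateField.extendScalars hB.hk) := by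
    have gK : IsGalois k K := (isGalois_algC hkK).2 hB.gal
    have fdK : FiniteDimensional k K := Module.Finite.of_restrictScalars_finite ℚ k _
    rw [Nat.card_congr r.toEquiv, IsGalois.card_aut_eq_finrank, finrank_algC hkK]
  have hfD : Finite (NC hk₀ (B n)) := inferInstance
  have hfH : Fintype H := Fintype.ofFinite _
  -- the algebraic statement
  have hmain := h1 p F (ClA ↥(K ⊔ B n)) (NC hk₀ (B n)) ρ H (by rw [hcard]; exact hcop) R (by
    rintro χ ⟨δ, hδ, hχ⟩
    have hs1 : ∀ x : ↥K, (x : ℂ) ∈ K' → r δ x = x := by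
      intro x hx
      have hxL : (x : ℂ) ∈ K ⊔ B n := (le_sup_left : K ≤ K ⊔ B n) x.2
      apply Subtype.ext
      rw [← hr δ x ⟨x, hxL⟩ rfl, hδ ⟨x, hxL⟩ hx]
    have hs2 : (χ.comp r.symm.toMonoidHom) (r δ) ≠ 1 := by
      show χ (r.symm (r δ)) ≠ 1
      rw [MulEquiv.symm_apply_apply]
      exact hχ
    obtain ⟨hfin, hle⟩ := hR (χ.comp r.symm.toMonoidHom) ⟨r δ, hs1, hs2⟩
    refine le_trans ?_ hle
    let φ : (ClA ↥(K ⊔ B n) → F) →ₗ[F] (J ↥(K ⊔ B n) → F) :=
      LinearMap.funLeft F F (cl : J ↥(K ⊔ B n) → ClA ↥(K ⊔ B n))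
    have hφ : ∀ f ∈ EA F ρ χ, φ f ∈ EigS F k K B n hk₀ hkK (χ.comp r.symm.toMonoidHom) := by
      rintro f ⟨f1, f2⟩
      refine ⟨fun x y => ?_, fun x hx => ?_, fun ε s hs x => ?_⟩
      · show f (cl (x * y)) = f (cl x) + f (cl y)
        rw [cl_mul, f1]
      · obtain ⟨y, rfl⟩ := hx
        show f (cl (prin y)) = 0
        have h0 := f1 0 0
        rw [add_zero] at h0
        rw [cl_prin]
        linear_combination -h0
      · have hs' : s = r ε := by
          ext x
          have hx : (x : ℂ) ∈ K ⊔ B n := (le_sup_left : K ≤ K ⊔ B n) x.2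
          rw [← hs x ⟨x, hx⟩ rfl, ← hr ε x ⟨x, hx⟩ rfl]
        have e1 := f2 ε (cl x)
        rw [hρ] at e1
        have e2 : (χ.comp r.symm.toMonoidHom) s = χ ε := by
          rw [hs']
          show χ (r.symm (r ε)) = χ ε
          rw [MulEquiv.symm_apply_apply]
        rw [e2]
        exact e1
    let ψ : EA F ρ χ →ₗ[F] EigS F k K B n hk₀ hkK (χ.comp r.symm.toMonoidHom) :=
      (φ.comp (EA F ρ χ).subtype).codRestrict _ (fun f => hφ f.1 f.2)
    have hψ : Function.Injective ψ := by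
      intro f g hfg
      apply Subtype.ext
      funext x
      obtain ⟨b, rfl⟩ := cl_surj x
      have e := congrArg (fun q => (q : J ↥(K ⊔ B n) → F) b) (congrArg Subtype.val hfg)
      exact e
    have := hfin
    exact LinearMap.finrank_le_finrank_of_injective hψ)
  rw [hcard] at hmain
  refine le_trans (le_of_eq ?_) hmain
  -- the norm
  have hK'L : K' ≤ K ⊔ B n := (le_sup_left : K' ≤ K' ⊔ B n).trans hL
  have hBL : B n ≤ K ⊔ B n := le_sup_right
  let φ : (↥(K ⊔ B n) ≃ₐ[↥(K' ⊔ B n)] ↥(K ⊔ B n)) → H := fun σ =>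
    ⟨⟨σ.restrictScalars k, fun x hx => σ.commutes ⟨x, (le_sup_right : B n ≤ K' ⊔ B n) hx⟩⟩,
      fun x hx => σ.commutes ⟨x, (le_sup_left : K' ≤ K' ⊔ B n) hx⟩⟩
  have hφv : ∀ (σ : ↥(K ⊔ B n) ≃ₐ[↥(K' ⊔ B n)] ↥(K ⊔ B n)) (x : ↥(K ⊔ B n)),
      (((φ σ : H) : NC hk₀ (B n)) : ↥(K ⊔ B n) ≃ₐ[k] ↥(K ⊔ B n)) x = σ x := fun σ x => rfl
  have hφb : Function.Bijective φ := by
    constructor
    · intro σ τ h
      ext x
      rw [← hφv σ x, ← hφv τ x, h]
    · rintro ⟨⟨δ, hδ1⟩, hδ2⟩
      refine ⟨AlgEquiv.ofRingEquiv (f := (δ : ↥(K ⊔ B n) ≃+* ↥(K ⊔ B n))) (fun x => ?_), ?_⟩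
      · exact fixsup hk₀ hK'L hBL δ hδ2 hδ1 (algebraMap ↥(K' ⊔ B n) ↥(K ⊔ B n) x) x.2
      · apply Subtype.ext
        apply Subtype.ext
        ext x
        rfl
  have hnm : ∀ b : J ↥(K ⊔ B n), ∑ δ : H, ρ (δ : NC hk₀ (B n)) (cl b) =
      cl (CL.nm ↥(K' ⊔ B n) ↥(K ⊔ B n) b) := by
    intro b
    rw [CL.nm_apply, cl_prod]
    symm
    refine Fintype.sum_bijective φ hφb _ _ fun σ => ?_
    rw [hρ]
    rfl
  unfold rR
  congr 1
  refine Nat.card_congr (Equiv.subtypeEquiv (Additive.ofMul) fun c => ?_)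
  obtain ⟨b, rfl⟩ := QuotientGroup.mk_surjective c
  show _ ↔ (∑ δ : H, ρ (δ : NC hk₀ (B n)) (cl b) = 0 ∧ p • (cl b : ClA ↥(K ⊔ B n)) = 0)
  rw [hnm, cl_eq_zero, ← cl_pow, cl_eq_zero]
  have e2 : ((b : J ↥(K ⊔ B n) ⧸ _root_.MU3.PI ↥(K ⊔ B n)) ^ p = 1) ↔
      b ^ p ∈ _root_.MU3.PI ↥(K ⊔ B n) := by
    rw [← QuotientGroup.mk_pow, QuotientGroup.eq_one_iff]
  rw [e2]
  refine and_congr_left fun _ => ⟨?_, fun h => ⟨b, h, rfl⟩⟩
  rintro ⟨b', hb', e⟩
  have e3 : (cl b' : ClA ↥(K ⊔ B n)) = cl b := congrArg Additive.ofMul e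
  have e4 : (cl (CL.nm ↥(K' ⊔ B n) ↥(K ⊔ B n) b') : ClA ↥(K ⊔ B n)) = 0 := (cl_eq_zero _).2 hb'
  rw [← hnm, e3, hnm] at e4
  exact (cl_eq_zero _).1 e4

end Pool.Agent.OBF


end

section

/-!
# OB, FINAL, module RST: one step of the tower for the norm kernels
-/

set_option autoImplicit false

open NumberField IsDedekindDomain Finset
open scoped nonZeroDivisors Pointwise

namespace Pool.Agent.OBF

open _root_.Pool.Agent.RI _root_.Pool.Agent.RID _root_.Pool.Agent.MU3 _root_.Pool.Agent.MUXK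
  _root_.Pool.Agent.MUXZ _root_.Pool.Agent.NSI _root_.Pool.Agent.OB

namespace RSTx

open _root_.MU3 _root_.MU3.NQ _root_.MU3.NStep

/-! ### Classes of a subgroup -/

section cls

variable {L : Type} [Field L] [NumberField L]

/-- the classes of the elements of `X` -/
noncomputable def clS (X : Subgroup (J L)) : AddSubgroup (ClA L) where
  carrier := {x | ∃ b ∈ X, cl b = x}
  add_mem' := by
    rintro _ _ ⟨b, hb, rfl⟩ ⟨c, hc, rfl⟩
    exact ⟨b * c, mul_mem hb hc, cl_mul b c⟩
  zero_mem' := ⟨1, one_mem _, cl_one⟩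
  neg_mem' := by
    rintro _ ⟨b, hb, rfl⟩
    exact ⟨b⁻¹, inv_mem hb, cl_inv b⟩

lemma mem_clS {X : Subgroup (J L)} {x : ClA L} : x ∈ clS X ↔ ∃ b ∈ X, cl b = x := Iff.rfl

lemma card_clS (X : Subgroup (J L)) (hX : _root_.MU3.PI L ≤ X) :
    Nat.card (clS X) = (_root_.MU3.PI L).relIndex X := by
  have h1 : Nat.card ↥(X.map (QuotientGroup.mk' (_root_.MU3.PI L))) =
      (_root_.MU3.PI L).relIndex X := by
    rw [← Subgroup.relIndex_bot_left, ← Subgroup.map_bot (QuotientGroup.mk' (_root_.MU3.PI L)),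
      Subgroup.relIndex_map_map, QuotientGroup.ker_mk', bot_sup_eq, sup_eq_left.2 hX]
  rw [← h1]
  apply Nat.card_congr
  refine Equiv.subtypeEquiv Additive.toMul ?_
  intro a
  constructor
  · rintro ⟨b, hb, rfl⟩
    exact ⟨b, hb, rfl⟩
  · rintro ⟨b, hb, h⟩
    exact ⟨b, hb, h⟩

lemma card_torS (X : Subgroup (J L)) (p : ℕ) :
    Nat.card {x : clS X // p • x = 0} =
      Nat.card {c : J L ⧸ _root_.MU3.PI L // (∃ b ∈ X, (b : J L ⧸ _root_.MU3.PI L) = c) ∧
        c ^ p = 1} := by
  apply Nat.card_congr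
  refine
    { toFun := fun x => ⟨Additive.toMul (x.1.1), ?_, ?_⟩
      invFun := fun c => ⟨⟨Additive.ofMul c.1, ?_⟩, ?_⟩
      left_inv := fun x => rfl
      right_inv := fun c => rfl }
  · obtain ⟨b, hb, h⟩ := x.1.2
    exact ⟨b, hb, h⟩
  · exact congrArg Subtype.val x.2
  · obtain ⟨b, hb, h⟩ := c.2.1
    exact ⟨b, hb, h⟩
  · exact Subtype.ext c.2.2

end cls

section step

variable {k M L L' M' : Type} [Field k] [NumberField k] [Field M] [NumberField M] [Field L]
  [NumberField L] [Field L'] [NumberField L'] [Field M'] [NumberField M'] [Algebra k M]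
  [Algebra k L] [Algebra M L] [IsScalarTower k M L] [Algebra L' L] [Algebra M' M]

lemma PI_le_RJ (L' L : Type) [Field L'] [NumberField L'] [Field L] [NumberField L]
    [Algebra L' L] [IsGalois L' L] : _root_.MU3.PI L ≤ RJ L' L := by
  rintro _ ⟨x, rfl⟩
  show CL.nm L' L (prin x) ∈ _root_.MU3.PI L
  rw [CL.nm_prin, ext_prin]
  exact ⟨_, rfl⟩

/-- the operator on the classes -/
noncomputable def gS (g : L ≃ₐ[k] L) (X : Subgroup (J L)) (hX : ∀ b ∈ X, g • b ∈ X) :
    AddMonoid.End (clS X) where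
  toFun x := ⟨gA g x, by
    obtain ⟨b, hb, h⟩ := x.2
    exact ⟨g • b, hX b hb, by rw [← h, gA_cl]⟩⟩
  map_zero' := Subtype.ext (map_zero _)
  map_add' a b := Subtype.ext (map_add _ _ _)

lemma gS_pow (g : L ≃ₐ[k] L) (X : Subgroup (J L)) (hX : ∀ b ∈ X, g • b ∈ X) (n : ℕ)
    (x : clS X) : (((gS g X hX ^ n : AddMonoid.End (clS X)) x : clS X) : ClA L) =
      (gA g ^ n : AddMonoid.End (ClA L)) x := by
  induction n generalizing x with
  | zero => rfl
  | succ n ih =>
    have h1 : (gS g X hX ^ (n + 1) : AddMonoid.End (clS X)) x =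
        (gS g X hX ^ n : AddMonoid.End (clS X)) (gS g X hX x) := by rw [pow_succ]; rfl
    have h2 : (gA g ^ (n + 1) : AddMonoid.End (ClA L)) x =
        (gA g ^ n : AddMonoid.End (ClA L)) (gA g x) := by rw [pow_succ]; rfl
    rw [h1, ih, h2]
    rfl

lemma coe_sum {X : Subgroup (J L)} (s : Finset ℕ) (f : ℕ → clS X) :
    ((∑ j ∈ s, f j : clS X) : ClA L) = ∑ j ∈ s, (f j : ClA L) := by
  exact map_sum (clS X).subtype f s

/-- One step, abstract form. -/
theorem step (p m : ℕ) [Fact p.Prime] [IsGalois L' L] [IsGalois M' M] (g : L ≃ₐ[k] L)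
    (hg : g ^ (p ^ (m + 1)) = 1) (hcyc : CycExt k M L (g ^ (p ^ m)) p)
    (hc1 : ∀ (σ : L ≃ₐ[L'] L) (b : J L), g • σ • b = σ • g • b)
    (hc2 : ∀ (σ : L ≃ₐ[L'] L) (τ : L ≃ₐ[M] L) (b : J L), σ • τ • b = τ • σ • b)
    (hkey : ∀ c : J M, ext M L (CL.nm M' M c) = CL.nm L' L (ext M L c))
    (hlt : rR p L' L < p ^ m * (p - 1)) : vR p L' L ≤ vR p M' M + rR p L' L := by
  classical
  obtain ⟨hgal, -, -, -, -, -, hng, -, -, -, -⟩ := t_CYC k M L (g ^ (p ^ m)) p hcyc
  have hX : ∀ b ∈ RJ L' L, g • b ∈ RJ L' L := by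
    intro b hb
    have h1 : CL.nm L' L (g • b) = g • CL.nm L' L b := by
      rw [CL.nm_apply, CL.nm_apply, Finset.smul_prod']
      exact Finset.prod_congr rfl fun σ _ => (hc1 σ b).symm
    show CL.nm L' L (g • b) ∈ _root_.MU3.PI L
    rw [h1]
    obtain ⟨x, hx⟩ := hb
    rw [← hx]
    exact ⟨g • x, (smul_prin g x).symm⟩
  set X := RJ L' L with hXdef
  set γ : AddMonoid.End (clS X) := gS g X hX with hγdef
  have hγ : γ ^ (p ^ (m + 1)) = 1 := by
    apply AddMonoidHom.ext
    intro x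
    apply Subtype.ext
    have h0 := gS_pow g X hX (p ^ (m + 1)) x
    obtain ⟨b, hb, h⟩ := x.2
    have h1 := gA_pow_cl g (p ^ (m + 1)) b
    rw [hg, one_smul, h] at h1
    exact h0.trans h1
  have hr : padicValNat p (Nat.card {x : clS X // p • x = 0}) = rR p L' L := by
    rw [card_torS]
    rfl
  have h2 := t_ALG2 p m (clS X) γ hγ (by rw [hr]; exact hlt)
  rw [hr, card_clS X (PI_le_RJ L' L)] at h2
  set R := AddMonoidHom.range (∑ j ∈ range p, γ ^ (p ^ m * j) : AddMonoid.End (clS X)) with hR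
  have hle : R.map (clS X).subtype ≤ (clS (RJ M' M)).map (eA M L) := by
    rintro _ ⟨_, ⟨x, rfl⟩, rfl⟩
    obtain ⟨b, hb, h⟩ := x.2
    obtain ⟨c, hc⟩ := CL.nm_mem (F := M) b
    refine ⟨cl c, ⟨c, ?_, rfl⟩, ?_⟩
    · -- `c ∈ RJ M' M`
      have h3 : CL.nm L' L (CL.nm M L b) = CL.nm M L (CL.nm L' L b) := by
        rw [CL.nm_apply (F := M), CL.nm_apply (F := M), map_prod]
        refine Finset.prod_congr rfl fun τ _ => ?_
        rw [CL.nm_apply, CL.nm_apply, Finset.smul_prod']
        exact Finset.prod_congr rfl fun σ _ => hc2 σ τ b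
      obtain ⟨y, hy⟩ := hb
      have h4 : ext M L (CL.nm M' M c) =
          ext M L (prin (Units.map (Algebra.norm M : L →* M) y)) := by
        rw [hkey, hc, h3, ← hy, CL.nm_prin]
      have h5 := ext_injective M L h4
      show CL.nm M' M c ∈ _root_.MU3.PI M
      rw [h5]
      exact ⟨_, rfl⟩
    · -- the class
      have h3 : (∑ j ∈ range p, gA g ^ (p ^ m * j) : AddMonoid.End (ClA L)) (cl b) =
          cl (ng (g ^ (p ^ m)) p b) := by
        rw [NStep.sum_apply, ng_apply, cl_prod]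
        apply Finset.sum_congr rfl
        intro j _
        rw [gA_pow_cl, pow_mul]
      have h4 : eA M L (cl c) = cl (ng (g ^ (p ^ m)) p b) := by
        rw [hng b, eA_cl, hc]
        rfl
      have h5 : (((∑ j ∈ range p, γ ^ (p ^ m * j) : AddMonoid.End (clS X)) x : clS X) : ClA L) =
          (∑ j ∈ range p, gA g ^ (p ^ m * j) : AddMonoid.End (ClA L)) (x : ClA L) := by
        rw [NStep.sum_apply, NStep.sum_apply, coe_sum]
        exact Finset.sum_congr rfl fun j _ => gS_pow g X hX _ x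
      rw [h4, ← h3, h]
      exact h5.symm
  have hd1 : Nat.card R = Nat.card (R.map (clS X).subtype) :=
    Nat.card_congr (R.equivMapOfInjective (clS X).subtype Subtype.val_injective).toEquiv
  have hd2 : Nat.card R ∣ Nat.card (clS (RJ M' M)) := by
    rw [hd1]
    exact (AddSubgroup.card_dvd_of_le hle).trans (AddSubgroup.card_map_dvd _ _)
  have hne : Nat.card (clS (RJ M' M)) ≠ 0 := Nat.card_pos.ne'
  have h3 := padic_mono p hne hd2
  rw [card_clS _ (PI_le_RJ M' M)] at h3
  exact h2.trans (Nat.add_le_add_right h3 _)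

end step

section act

variable {k L' L : Type} [Field k] [Field L'] [Field L] [NumberField L] [Algebra k L']
  [Algebra k L] [Algebra L' L] [IsScalarTower k L' L]

lemma smul_res (σ : L ≃ₐ[L'] L) (b : J L) : σ.restrictScalars k • b = σ • b := by
  apply Units.ext
  ext x
  rw [RI.mem_smul, RI.mem_smul]
  rfl

lemma comm_act (hab : ∀ σ τ : L ≃ₐ[k] L, σ * τ = τ * σ) (g : L ≃ₐ[k] L) (σ : L ≃ₐ[L'] L)
    (b : J L) : g • σ • b = σ • g • b := by
  rw [← smul_res (k := k) σ, ← smul_res (k := k) σ, ← mul_smul, ← mul_smul, hab]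

end act

/-- the degrees -/
lemma deg_eq {p n : ℕ} (hp : p ≠ 0) {K' K D' D : IntermediateField ℚ ℂ}
    [FiniteDimensional ℚ K'] [FiniteDimensional ℚ D'] [FiniteDimensional ℚ D] (h : D' ≤ D)
    (h' : Module.finrank ℚ D' = Module.finrank ℚ K' * p ^ n)
    (h'' : Module.finrank ℚ D = Module.finrank ℚ K * p ^ n) :
    (letI := algC h; Module.finrank ℚ K' * Module.finrank D' D) = Module.finrank ℚ K := by
  let _ := algC h
  have t : IsScalarTower ℚ D' D := IsScalarTower.of_algebraMap_eq fun _ => rfl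
  have h1 : Module.finrank ℚ D' * Module.finrank D' D = Module.finrank ℚ D :=
    Module.finrank_mul_finrank _ _ _
  rw [h', h''] at h1
  have h2 : 0 < p ^ n := pow_pos (Nat.pos_of_ne_zero hp) n
  apply Nat.eq_of_mul_eq_mul_right h2
  rw [← h1]
  ring

end RSTx

open _root_.Pool.Agent.OBF.RSTx in
/-- Module RST. -/
theorem tf_RST : Sf_RST := by
  intro p m _ k K' K B _ _ _ _ hB hB' hB'' h1 h0
  have hp0 : p ≠ 0 := (Fact.out : p.Prime).ne_zero
  have hk : k ≤ K := hB.hk
  have hk' : k ≤ K' := hB'.hk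
  have hle : K ⊔ B m ≤ K ⊔ B (m + 1) := sup_le_sup_left (hB.mono (Nat.le_succ m)) K
  have hle' : K' ⊔ B m ≤ K' ⊔ B (m + 1) := sup_le_sup_left (hB.mono (Nat.le_succ m)) K'
  have hkM : k ≤ K ⊔ B m := hk.trans le_sup_left
  have hkL : k ≤ K ⊔ B (m + 1) := hk.trans le_sup_left
  have hkM' : k ≤ K' ⊔ B m := hk'.trans le_sup_left
  have hkL' : k ≤ K' ⊔ B (m + 1) := hk'.trans le_sup_left
  have : FiniteDimensional ℚ k :=
    FiniteDimensional.of_injective (IntermediateField.inclusion hk).toLinearMap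
      (IntermediateField.inclusion hk).injective
  let aL'L := algC h1
  let aM'M := algC h0
  let akM := algC hkM
  let akL := algC hkL
  let akM' := algC hkM'
  let akL' := algC hkL'
  let aML := algC hle
  have tkML : IsScalarTower k ↥(K ⊔ B m) ↥(K ⊔ B (m + 1)) := towerC hkM hle
  have tkL'L : IsScalarTower k ↥(K' ⊔ B (m + 1)) ↥(K ⊔ B (m + 1)) := towerC hkL' h1
  have tkM'M : IsScalarTower k ↥(K' ⊔ B m) ↥(K ⊔ B m) := towerC hkM' h0
  obtain ⟨galL, abL⟩ := k_GALX p k K B hB (m + 1) hkL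
  obtain ⟨galM, -⟩ := k_GALX p k K B hB m hkM
  have fdL : FiniteDimensional k ↥(K ⊔ B (m + 1)) :=
    Module.Finite.of_restrictScalars_finite ℚ k _
  have galLL : IsGalois ↥(K' ⊔ B (m + 1)) ↥(K ⊔ B (m + 1)) :=
    IsGalois.tower_top_of_isGalois k _ _
  have galMM : IsGalois ↥(K' ⊔ B m) ↥(K ⊔ B m) := IsGalois.tower_top_of_isGalois k _ _
  obtain ⟨g, ord, -, hm⟩ := k_GENX p k K B hk hB.deg hB.lay hB.mono (m + 1) hkL
  obtain ⟨ord', fix'⟩ := hm m (Nat.le_succ m)
  have hcyc : CycExt k ↥(K ⊔ B m) ↥(K ⊔ B (m + 1)) (g ^ (p ^ m)) p := by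
    refine ⟨by rw [ord']; simp, fun x => ?_⟩
    rw [fix' x]
    constructor
    · intro hx
      exact ⟨⟨(x : ℂ), hx⟩, rfl⟩
    · rintro ⟨y, rfl⟩
      exact y.2
  have hg1 : g ^ (p ^ (m + 1)) = 1 := by
    rw [← ord]
    exact pow_orderOf_eq_one g
  intro hlt
  refine RSTx.step p m g hg1 hcyc (fun σ b => RSTx.comm_act abL g σ b) (fun σ τ b => ?_) ?_ hlt
  · have h2 := RSTx.comm_act abL (τ.restrictScalars k) σ b
    rw [RSTx.smul_res, RSTx.smul_res] at h2
    exact h2.symm
  · -- restriction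
    have hres : ∀ (σ : ↥(K ⊔ B (m + 1)) ≃ₐ[k] ↥(K ⊔ B (m + 1))) (x : ↥(K ⊔ B m)),
        ((AlgEquiv.restrictNormalHom ↥(K ⊔ B m) σ x : ↥(K ⊔ B m)) : ℂ) =
          (σ ⟨x, hle x.2⟩ : ↥(K ⊔ B (m + 1))) := by
      intro σ x
      have h2 := AlgEquiv.restrictNormal_commutes σ ↥(K ⊔ B m) x
      exact congrArg Subtype.val h2
    let r : (↥(K ⊔ B (m + 1)) ≃ₐ[↥(K' ⊔ B (m + 1))] ↥(K ⊔ B (m + 1))) →
        (↥(K ⊔ B m) ≃ₐ[↥(K' ⊔ B m)] ↥(K ⊔ B m)) := fun σ =>
      AlgEquiv.ofRingEquiv
        (f := (AlgEquiv.restrictNormalHom ↥(K ⊔ B m) (σ.restrictScalars k)).toRingEquiv)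
        (fun y => by
          apply Subtype.ext
          refine (hres (σ.restrictScalars k) _).trans ?_
          have h2 := σ.commutes ⟨(y : ℂ), hle' y.2⟩
          exact congrArg Subtype.val h2)
    have hr : ∀ (σ : ↥(K ⊔ B (m + 1)) ≃ₐ[↥(K' ⊔ B (m + 1))] ↥(K ⊔ B (m + 1)))
        (x : ↥(K ⊔ B m)), algebraMap ↥(K ⊔ B m) ↥(K ⊔ B (m + 1)) (r σ x) =
          σ (algebraMap ↥(K ⊔ B m) ↥(K ⊔ B (m + 1)) x) := by
      intro σ x
      exact Subtype.ext (hres (σ.restrictScalars k) x)
    have hinj : Function.Injective r := by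
      intro σ τ hστ
      have h2 : (τ.restrictScalars k)⁻¹ * (σ.restrictScalars k) = 1 := by
        apply GCC.triv hkL
        · intro x hx
          have e1 : σ x = τ x := by
            have e2 := hr σ ⟨x, (le_sup_left : K ≤ K ⊔ B m) hx⟩
            have e3 := hr τ ⟨x, (le_sup_left : K ≤ K ⊔ B m) hx⟩
            rw [hστ] at e2
            exact e2.symm.trans e3
          change τ.symm (σ x) = x
          rw [e1, AlgEquiv.symm_apply_apply]
        · intro x hx
          have hx' : (x : ℂ) ∈ K' ⊔ B (m + 1) := (le_sup_right : B (m + 1) ≤ _) hx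
          have e1 : σ x = x := σ.commutes ⟨(x : ℂ), hx'⟩
          have e2 : τ x = x := τ.commutes ⟨(x : ℂ), hx'⟩
          change τ.symm (σ x) = x
          rw [e1]
          exact (AlgEquiv.symm_apply_eq τ).2 e2.symm
      apply AlgEquiv.ext
      intro x
      have h3 : σ.restrictScalars k = τ.restrictScalars k := (inv_mul_eq_one.1 h2).symm
      exact congrArg (fun f : ↥(K ⊔ B (m + 1)) ≃ₐ[k] ↥(K ⊔ B (m + 1)) => f x) h3
    have hbij : Function.Bijective r := by
      refine hinj.bijective_of_nat_card_le ?_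
      rw [IsGalois.card_aut_eq_finrank, IsGalois.card_aut_eq_finrank]
      have d1 := RSTx.deg_eq (K := K) hp0 h1 (hB'.deg (m + 1)) (hB.deg (m + 1))
      have d0 := RSTx.deg_eq (K := K) hp0 h0 (hB'.deg m) (hB.deg m)
      exact (Nat.eq_of_mul_eq_mul_left Module.finrank_pos (d0.trans d1.symm)).le
    intro c
    rw [CL.nm_apply, CL.nm_apply, map_prod, ← hbij.prod_comp]
    exact Finset.prod_congr rfl fun σ _ => EXTACT_thm _ _ _ _ σ (r σ) (hr σ) c

end Pool.Agent.OBF


end

section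

/-!
# OB, FINAL (helper60): subextensions of abelian extensions
-/

set_option autoImplicit false

open NumberField

namespace Pool.Agent.OBF

open _root_.Pool.Agent.RI

/-- Subextensions of abelian extensions are abelian. -/
theorem sub_ab {k K' K : IntermediateField ℚ ℂ} [FiniteDimensional ℚ K] (h1 : k ≤ K')
    (h2 : K' ≤ K) (h : k ≤ K) (hG : IsGalois k (IntermediateField.extendScalars h))
    (hc : ∀ σ τ : (IntermediateField.extendScalars h) ≃ₐ[k] (IntermediateField.extendScalars h),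
      σ * τ = τ * σ) :
    IsGalois k (IntermediateField.extendScalars h1) ∧
    ∀ σ τ : (IntermediateField.extendScalars h1) ≃ₐ[k] (IntermediateField.extendScalars h1),
      σ * τ = τ * σ := by
  have fdk : FiniteDimensional k (IntermediateField.extendScalars h) := by
    have h1 : FiniteDimensional ℚ (IntermediateField.extendScalars h) :=
      inferInstanceAs (FiniteDimensional ℚ K)
    exact Module.Finite.of_restrictScalars_finite ℚ k _
  have hE : IntermediateField.extendScalars h1 ≤ IntermediateField.extendScalars h :=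
    fun x hx => h2 hx
  let L₀ : IntermediateField k (IntermediateField.extendScalars h) :=
    IntermediateField.restrict hE
  have hnorm : L₀.fixingSubgroup.Normal := by
    constructor
    intro n hn g
    rw [hc g n, mul_assoc, mul_inv_cancel, mul_one]
    exact hn
  have hg₀ : IsGalois k L₀ := by
    have h3 := IsGalois.of_fixedField_normal_subgroup L₀.fixingSubgroup
    rwa [IsGalois.fixedField_fixingSubgroup] at h3
  let e : IntermediateField.extendScalars h1 ≃ₐ[k] L₀ := IntermediateField.restrictAlgEquiv hE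
  have hg : IsGalois k (IntermediateField.extendScalars h1) := IsGalois.of_algEquiv e.symm
  refine ⟨hg, fun σ τ => ?_⟩
  -- lift to `K`
  have hlift : ∀ s : (IntermediateField.extendScalars h1) ≃ₐ[k]
      (IntermediateField.extendScalars h1), ∃ s' : (IntermediateField.extendScalars h) ≃ₐ[k]
      (IntermediateField.extendScalars h), ∀ x : IntermediateField.extendScalars h1,
      ((s' ⟨x, hE x.2⟩ : IntermediateField.extendScalars h) : ℂ) =
        (s x : IntermediateField.extendScalars h1) := by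
    intro s
    obtain ⟨s', hs'⟩ := AlgEquiv.restrictNormalHom_surjective (F := k) (K₁ := L₀)
      (E := IntermediateField.extendScalars h) (AlgEquiv.autCongr e s)
    refine ⟨s', fun x => ?_⟩
    have h3 := AlgEquiv.restrictNormal_commutes s' L₀ (e x)
    have h4 : (AlgEquiv.restrictNormal s' L₀) (e x) = e (s x) := by
      have h5 : AlgEquiv.restrictNormal s' L₀ = AlgEquiv.autCongr e s := hs'
      rw [h5]
      show e (s (e.symm (e x))) = e (s x)
      rw [e.symm_apply_apply]
    rw [h4] at h3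
    exact (congrArg (fun y : IntermediateField.extendScalars h => (y : ℂ)) h3).symm
  obtain ⟨σ', hσ⟩ := hlift σ
  obtain ⟨τ', hτ⟩ := hlift τ
  apply AlgEquiv.ext
  intro x
  apply Subtype.ext
  have e1 : ((σ (τ x) : IntermediateField.extendScalars h1) : ℂ) =
      (σ' (τ' ⟨x, hE x.2⟩) : IntermediateField.extendScalars h) := by
    rw [← hσ]
    congr 2
    exact Subtype.ext (hτ x).symm
  have e2 : ((τ (σ x) : IntermediateField.extendScalars h1) : ℂ) =
      (τ' (σ' ⟨x, hE x.2⟩) : IntermediateField.extendScalars h) := by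
    rw [← hτ]
    congr 2
    exact Subtype.ext (hσ x).symm
  show ((σ (τ x) : IntermediateField.extendScalars h1) : ℂ) =
    ((τ (σ x) : IntermediateField.extendScalars h1) : ℂ)
  rw [e1, e2]
  exact congrArg (fun s : (IntermediateField.extendScalars h) ≃ₐ[k]
    (IntermediateField.extendScalars h) => ((s ⟨x, hE x.2⟩ : _) : ℂ)) (hc σ' τ')

/-- The upper part of an abelian extension is abelian. -/
theorem top_ab {k K' K : IntermediateField ℚ ℂ} (h1 : k ≤ K')
    (h2 : K' ≤ K) (h : k ≤ K) (hG : IsGalois k (IntermediateField.extendScalars h))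
    (hc : ∀ σ τ : (IntermediateField.extendScalars h) ≃ₐ[k] (IntermediateField.extendScalars h),
      σ * τ = τ * σ) :
    IsGalois K' (IntermediateField.extendScalars h2) ∧
    ∀ σ τ : (IntermediateField.extendScalars h2) ≃ₐ[K'] (IntermediateField.extendScalars h2),
      σ * τ = τ * σ := by
  constructor
  · rw [← isGalois_algC] at hG ⊢
    let _ := algC h1
    let _ := algC h2
    let _ := algC h
    have : IsScalarTower k K' K := towerC h1 h2
    exact IsGalois.tower_top_of_isGalois k K' K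
  · intro σ τ
    have hr : ∀ s : (IntermediateField.extendScalars h2) ≃ₐ[K']
        (IntermediateField.extendScalars h2), ∃ s' : (IntermediateField.extendScalars h) ≃ₐ[k]
        (IntermediateField.extendScalars h), ∀ x : ℂ, ∀ (hx : x ∈ K), 
        ((s' ⟨x, hx⟩ : IntermediateField.extendScalars h) : ℂ) =
          (s ⟨x, hx⟩ : IntermediateField.extendScalars h2) := by
      intro s
      refine ⟨AlgEquiv.ofRingEquiv (f :=
        { toFun := fun x => ⟨(s ⟨x, x.2⟩ : IntermediateField.extendScalars h2), (s ⟨x, x.2⟩).2⟩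
          invFun := fun x => ⟨(s.symm ⟨x, x.2⟩ : IntermediateField.extendScalars h2),
            (s.symm ⟨x, x.2⟩).2⟩
          left_inv := fun x => Subtype.ext (congrArg Subtype.val (s.symm_apply_apply ⟨x, x.2⟩))
          right_inv := fun x => Subtype.ext (congrArg Subtype.val (s.apply_symm_apply ⟨x, x.2⟩))
          map_mul' := fun x y => Subtype.ext (congrArg Subtype.val
            (map_mul s (⟨x, x.2⟩ : IntermediateField.extendScalars h2) ⟨y, y.2⟩))
          map_add' := fun x y => Subtype.ext (congrArg Subtype.val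
            (map_add s (⟨x, x.2⟩ : IntermediateField.extendScalars h2) ⟨y, y.2⟩)) }) ?_,
        fun x hx => rfl⟩
      intro a
      apply Subtype.ext
      exact congrArg Subtype.val (s.commutes ⟨a, h1 a.2⟩)
    obtain ⟨σ', hσ⟩ := hr σ
    obtain ⟨τ', hτ⟩ := hr τ
    apply AlgEquiv.ext
    intro x
    apply Subtype.ext
    have e1 : ((σ (τ x) : IntermediateField.extendScalars h2) : ℂ) =
        (σ' (τ' ⟨x, x.2⟩) : IntermediateField.extendScalars h) := by
      have h5 : (τ' ⟨x, x.2⟩ : IntermediateField.extendScalars h) =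
          ⟨(τ x : IntermediateField.extendScalars h2), (τ x).2⟩ := Subtype.ext (hτ x x.2)
      rw [h5, hσ _ (τ x).2]
    have e2 : ((τ (σ x) : IntermediateField.extendScalars h2) : ℂ) =
        (τ' (σ' ⟨x, x.2⟩) : IntermediateField.extendScalars h) := by
      have h5 : (σ' ⟨x, x.2⟩ : IntermediateField.extendScalars h) =
          ⟨(σ x : IntermediateField.extendScalars h2), (σ x).2⟩ := Subtype.ext (hσ x x.2)
      rw [h5, hτ _ (σ x).2]
    show ((σ (τ x) : IntermediateField.extendScalars h2) : ℂ) =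
      ((τ (σ x) : IntermediateField.extendScalars h2) : ℂ)
    rw [e1, e2]
    exact congrArg (fun s : (IntermediateField.extendScalars h) ≃ₐ[k]
      (IntermediateField.extendScalars h) => ((s ⟨x, x.2⟩ : _) : ℂ)) (hc σ' τ')

end Pool.Agent.OBF


end

section

/-!
# OB, FINAL, module INF: inflation of characters for the eigenfunctionals
-/

set_option autoImplicit false

open NumberField IsDedekindDomain Finset
open scoped nonZeroDivisors Pointwise

namespace Pool.Agent.OBF

open _root_.Pool.Agent.RI _root_.Pool.Agent.RID _root_.Pool.Agent.MU3 _root_.Pool.Agent.MUXK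
  _root_.Pool.Agent.MUXZ _root_.Pool.Agent.NSI _root_.Pool.Agent.OB

namespace INFx

section norm

variable (F K : Type) [Field F] [NumberField F] [Field K] [NumberField K] [Algebra F K]
  [IsGalois F K]

/-- The norm of fractional ideals for a Galois extension. -/
noncomputable def NN : J K →* J F where
  toFun b := Classical.choose (CL.nm_mem (F := F) b)
  map_one' := by
    apply ext_injective F K
    rw [Classical.choose_spec (CL.nm_mem (F := F) (1 : J K)), map_one, map_one]
  map_mul' a b := by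
    apply ext_injective F K
    rw [Classical.choose_spec (CL.nm_mem (F := F) (a * b)), map_mul, map_mul,
      Classical.choose_spec (CL.nm_mem (F := F) a), Classical.choose_spec (CL.nm_mem (F := F) b)]

theorem ext_NN (b : J K) : ext F K (NN F K b) = CL.nm F K b :=
  Classical.choose_spec (CL.nm_mem (F := F) b)

theorem NN_prin (x : Kˣ) : NN F K (prin x) = prin (Units.map (Algebra.norm F : K →* F) x) := by
  apply ext_injective F K
  rw [ext_NN, CL.nm_prin]

theorem NN_ext (c : J F) : NN F K (ext F K c) = c ^ Module.finrank F K := by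
  apply ext_injective F K
  rw [ext_NN, CL.nm_ext, map_pow]

end norm

section act

variable {k L' L : Type} [Field k] [Field L'] [NumberField L'] [Field L] [NumberField L]
  [Algebra k L'] [Algebra k L] [Algebra L' L] [IsScalarTower k L' L]

omit [NumberField L'] in
lemma smul_res (σ : L ≃ₐ[L'] L) (b : J L) : σ.restrictScalars k • b = σ • b := by
  apply Units.ext
  ext x
  rw [RI.mem_smul, RI.mem_smul]
  rfl

omit [NumberField L'] in
lemma comm_act (hab : ∀ σ τ : L ≃ₐ[k] L, σ * τ = τ * σ) (g : L ≃ₐ[k] L) (σ : L ≃ₐ[L'] L)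
    (b : J L) : g • σ • b = σ • g • b := by
  rw [← smul_res (k := k) σ, ← smul_res (k := k) σ, ← mul_smul, ← mul_smul, hab]

/-- The norm commutes with the action of the commutative group. -/
theorem NN_smul [IsGalois L' L] (hab : ∀ σ τ : L ≃ₐ[k] L, σ * τ = τ * σ) (δ : L ≃ₐ[k] L)
    (δ' : L' ≃ₐ[k] L') (h : ∀ x : L', algebraMap L' L (δ' x) = δ (algebraMap L' L x)) (b : J L) :
    NN L' L (δ • b) = δ' • NN L' L b := by
  apply ext_injective L' L
  rw [ext_NN, EXTACT_thm k L' k L δ δ' h, ext_NN, CL.nm_apply, CL.nm_apply, Finset.smul_prod']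
  exact Finset.prod_congr rfl fun σ _ => (comm_act hab δ σ b).symm

end act

/-- the degrees -/
lemma deg_eq {p n : ℕ} (hp : p ≠ 0) {K' K D' D : IntermediateField ℚ ℂ}
    [FiniteDimensional ℚ K'] [FiniteDimensional ℚ D'] [FiniteDimensional ℚ D] (h : D' ≤ D)
    (h' : Module.finrank ℚ D' = Module.finrank ℚ K' * p ^ n)
    (h'' : Module.finrank ℚ D = Module.finrank ℚ K * p ^ n) :
    (letI := algC h; Module.finrank ℚ K' * Module.finrank D' D) = Module.finrank ℚ K := by
  let _ := algC h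
  have t : IsScalarTower ℚ D' D := IsScalarTower.of_algebraMap_eq fun _ => rfl
  have h1 : Module.finrank ℚ D' * Module.finrank D' D = Module.finrank ℚ D :=
    Module.finrank_mul_finrank _ _ _
  rw [h', h''] at h1
  have h2 : 0 < p ^ n := pow_pos (Nat.pos_of_ne_zero hp) n
  apply Nat.eq_of_mul_eq_mul_right h2
  rw [← h1]
  ring

lemma map_pow' {G F : Type} [Group G] [Ring F] (g : G → F) (h : ∀ x y, g (x * y) = g x + g y)
    (c : G) (d : ℕ) : g (c ^ d) = (d : F) * g c := by
  have h1 : g 1 = 0 := by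
    have := h 1 1
    rw [mul_one] at this
    exact left_eq_add.1 this
  induction d with
  | zero => rw [pow_zero, h1, Nat.cast_zero, zero_mul]
  | succ d ih => rw [pow_succ, h, ih, Nat.cast_succ, add_mul, one_mul]

end INFx

open _root_.Pool.Agent.OBF.INFx in
/-- Module INF. -/
theorem tf_INF : Sf_INF := by
  intro p n _ F _ _ k L K B _ _ _ _ hBK hBL hLK hk hk' hkK hkL hp χ χ' hχ hfin
  have hp0 : p ≠ 0 := (Fact.out : p.Prime).ne_zero
  have hle : L ⊔ B n ≤ K ⊔ B n := sup_le_sup_right hLK (B n)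
  have : FiniteDimensional ℚ k :=
    FiniteDimensional.of_injective (IntermediateField.inclusion hkK).toLinearMap
      (IntermediateField.inclusion hkK).injective
  let akK := algC hkK
  let akL := algC hkL
  let aLK := algC hLK
  let akKn := algC hk
  let akLn := algC hk'
  let aLnKn := algC hle
  have tkLK : IsScalarTower k L K := towerC hkL hLK
  have tkLKn : IsScalarTower k ↥(L ⊔ B n) ↥(K ⊔ B n) := towerC hk' hle
  obtain ⟨galK, abK⟩ := t_GALX p k K B hBK n hk
  obtain ⟨galL, -⟩ := t_GALX p k L B hBL n hk'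
  have fdK : FiniteDimensional k ↥(K ⊔ B n) := Module.Finite.of_restrictScalars_finite ℚ k _
  have galLK : IsGalois ↥(L ⊔ B n) ↥(K ⊔ B n) := IsGalois.tower_top_of_isGalois k _ _
  have galL0 : IsGalois k L := (isGalois_algC hkL).mpr hBL.gal
  -- the degree
  set d : ℕ := Module.finrank ↥(L ⊔ B n) ↥(K ⊔ B n) with hd
  have hdeg : Module.finrank ℚ L * d = Module.finrank ℚ K :=
    deg_eq hp0 hle (hBL.deg n) (hBK.deg n)
  have hdF : (d : F) ≠ 0 := by
    intro h0
    rw [CharP.cast_eq_zero_iff F p] at h0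
    exact hp (hdeg ▸ h0.mul_left _)
  -- restrictions
  have hres : ∀ (σ : ↥(K ⊔ B n) ≃ₐ[k] ↥(K ⊔ B n)) (x : ↥(L ⊔ B n)),
      ((AlgEquiv.restrictNormalHom ↥(L ⊔ B n) σ x : ↥(L ⊔ B n)) : ℂ) =
        (σ ⟨x, hle x.2⟩ : ↥(K ⊔ B n)) := by
    intro σ x
    have h2 := AlgEquiv.restrictNormal_commutes σ ↥(L ⊔ B n) x
    exact congrArg Subtype.val h2
  have hres0 : ∀ (σ : ↥K ≃ₐ[k] ↥K) (x : ↥L),
      ((AlgEquiv.restrictNormalHom ↥L σ x : ↥L) : ℂ) = (σ ⟨x, hLK x.2⟩ : ↥K) := by
    intro σ x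
    have h2 := AlgEquiv.restrictNormal_commutes σ ↥L x
    exact congrArg Subtype.val h2
  have key : ∀ g : J ↥(L ⊔ B n) → F, EigF F k L B n hk' hkL χ g →
      EigF F k K B n hk hkK χ' (fun b => g (NN ↥(L ⊔ B n) ↥(K ⊔ B n) b)) := by
    rintro g ⟨g1, g2, g3⟩
    refine ⟨fun x y => ?_, ?_, fun δ s' hs x => ?_⟩
    · show g (NN ↥(L ⊔ B n) ↥(K ⊔ B n) (x * y)) = _
      rw [map_mul, g1]
    · rintro _ ⟨x, rfl⟩
      show g (NN ↥(L ⊔ B n) ↥(K ⊔ B n) (prin x)) = 0
      rw [NN_prin]
      exact g2 _ ⟨_, rfl⟩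
    · let δ' : NC hk' (B n) := ⟨AlgEquiv.restrictNormalHom ↥(L ⊔ B n)
        (δ : ↥(K ⊔ B n) ≃ₐ[k] ↥(K ⊔ B n)), by
          intro y hy
          apply Subtype.ext
          rw [hres]
          have h3 := δ.2 ⟨(y : ℂ), hle y.2⟩ hy
          exact congrArg Subtype.val h3⟩
      have hs1 : χ' s' = χ (AlgEquiv.restrictNormalHom ↥L s') := by
        apply hχ
        intro y y' hy
        rw [hres0]
        congr 2
        exact Subtype.ext hy
      show g (NN ↥(L ⊔ B n) ↥(K ⊔ B n) ((δ : ↥(K ⊔ B n) ≃ₐ[k] ↥(K ⊔ B n)) • x)) =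
        (χ' s' : F) * g (NN ↥(L ⊔ B n) ↥(K ⊔ B n) x)
      rw [hs1, ← g3 δ' (AlgEquiv.restrictNormalHom ↥L s')]
      · congr 1
        apply NN_smul abK
        intro y
        exact Subtype.ext (hres _ y)
      · intro y y' hy
        rw [hres0]
        refine (hres _ y').trans ?_
        refine hs ⟨(y : ℂ), hLK y.2⟩ ⟨(y' : ℂ), hle y'.2⟩ hy
  let Φ : EigS F k L B n hk' hkL χ →ₗ[F] EigS F k K B n hk hkK χ' :=
    { toFun := fun g => ⟨fun b => g.1 (NN ↥(L ⊔ B n) ↥(K ⊔ B n) b), key g.1 g.2⟩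
      map_add' := fun g g' => rfl
      map_smul' := fun a g => rfl }
  have hinj : Function.Injective Φ := by
    rw [injective_iff_map_eq_zero]
    intro g hg
    apply Subtype.ext
    funext c
    have h1 : g.1 (NN ↥(L ⊔ B n) ↥(K ⊔ B n) (ext ↥(L ⊔ B n) ↥(K ⊔ B n) c)) = 0 :=
      congrFun (congrArg Subtype.val hg) (ext ↥(L ⊔ B n) ↥(K ⊔ B n) c)
    rw [NN_ext, map_pow' g.1 g.2.1] at h1
    exact (mul_eq_zero.1 h1).resolve_left hdF
  exact ⟨Module.Finite.of_injective Φ hinj, LinearMap.finrank_le_finrank_of_injective hinj⟩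

end Pool.Agent.OBF


end
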