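import Mathlib
import Pool.Agent.MVF.C025
import Pool.Agent.MVF.C029
import Pool.Agent.MVF.C030
import Pool.Agent.MVF.C031
import Pool.Agent.MVF.C033
import Pool.Agent.MVF.C036
import Pool.Agent.MVF.C037
import Pool.Agent.MVF.C038
import Pool.Agent.MVF.C061
import Pool.Agent.MVF.C066
import Pool.Agent.MVF.C071
import Pool.Agent.MVF.C078
import Pool.Agent.MVF.C105
import Pool.Agent.MVF.C118
import Pool.Agent.OBM.C11
import Pool.Agent.OBM.C12
import Pool.Agent.OBM.C13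
import Pool.Agent.OBM.C27
import Pool.Agent.OTM.C01
import Pool.Agent.OTM.C02
import Pool.Agent.OTM.C03
import Pool.Agent.OTM.C04

/-! Parts: TWF.CHA, TWF.Defs, TWF.LVL, OT.J_LLV, TWF.CYC, TWF.GAL, OT.J_ABL, OT.StF, TWF.CHR, OT.F_T1, OT.L_E0L, TWF.COR, OT.L_NEWK, OT.I_NCB, OT.HB_HT1 -/

section

/-!
# TWF: characters of `Gal(K B_n / k)`, group theory and cyclotomic part
-/

set_option autoImplicit false

open NumberField

namespace Pool.Agent.TWF

/-- Factorization of a character of a subgroup of a product. -/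
theorem factor {G G₁ G₂ : Type} [Group G] [Group G₁] [Group G₂] [Finite G₁] [Finite G₂]
    (h1 : ∀ a b : G₁, a * b = b * a) (h2 : ∀ a b : G₂, a * b = b * a) (r₁ : G →* G₁)
    (r₂ : G →* G₂) (hinj : ∀ g, r₁ g = 1 → r₂ g = 1 → g = 1) (X : G →* ℂˣ) :
    ∃ (X₁ : G₁ →* ℂˣ) (X₂ : G₂ →* ℂˣ), ∀ g, X g = X₁ (r₁ g) * X₂ (r₂ g) := by
  let i1 : CommGroup G₁ := { ‹Group G₁› with mul_comm := h1 }
  let i2 : CommGroup G₂ := { ‹Group G₂› with mul_comm := h2 }
  let r : G →* G₁ × G₂ := r₁.prod r₂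
  have hr : Function.Injective r := by
    rw [injective_iff_map_eq_one]
    intro g hg
    exact hinj g (congrArg Prod.fst hg) (congrArg Prod.snd hg)
  let e : G ≃* r.range := MonoidHom.ofInjective hr
  obtain ⟨Y, hY⟩ := MonoidHom.domRestrict_surjective ℂ r.range (X.comp e.symm.toMonoidHom)
  refine ⟨Y.comp (MonoidHom.inl G₁ G₂), Y.comp (MonoidHom.inr G₁ G₂), fun g => ?_⟩
  have h3 : Y (r g) = X g := by
    have h4 := DFunLike.congr_fun hY (e g)
    have h5 : (X.comp e.symm.toMonoidHom) (e g) = X g := by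
      show X (e.symm (e g)) = X g
      rw [e.symm_apply_apply]
    rw [h5] at h4
    exact h4
  rw [← h3]
  show Y (r g) = Y (r₁ g, 1) * Y (1, r₂ g)
  rw [← map_mul]
  congr 1
  show (r₁ g, r₂ g) = (r₁ g, 1) * (1, r₂ g)
  rw [Prod.mk_mul_mk, mul_one, one_mul]

/-- The automorphisms of a Galois subfield `B` of `ℚ(ζ)`. -/
theorem alpha (M : ℕ) [NeZero M] (ζ : ℂ) (hζ : IsPrimitiveRoot ζ M) (B : IntermediateField ℚ ℂ)
    [FiniteDimensional ℚ B] [IsGalois ℚ B] (hB : B ≤ IntermediateField.adjoin ℚ {ζ}) :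
    ∃ α : (ZMod M)ˣ →* (B ≃ₐ[ℚ] B), (∀ (σ : ℂ →+* ℂ) (c : ℕ) (u : (ZMod M)ˣ),
      (u : ZMod M) = (c : ZMod M) → σ ζ = ζ ^ c → ∀ y : B, σ (y : ℂ) = (α u y : B)) ∧
      ∀ (u : (ZMod M)ˣ) (y : B), (y : ℂ) = ζ + ζ⁻¹ →
        ((α u y : B) : ℂ) = ζ ^ (u : ZMod M).val + (ζ ^ (u : ZMod M).val)⁻¹ := by
  have hC : IsCyclotomicExtension {M} ℚ (IntermediateField.adjoin ℚ {ζ}) := by
    change IsCyclotomicExtension {M} ℚ (IntermediateField.adjoin ℚ {ζ}).toSubalgebra
    have hi : IsIntegral ℚ ζ := (hζ.isIntegral (NeZero.pos M)).tower_top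
    rw [IntermediateField.adjoin_simple_toSubalgebra_of_isAlgebraic hi.isAlgebraic]
    exact hζ.adjoin_isCyclotomicExtension ℚ
  set C := IntermediateField.adjoin ℚ {ζ} with hCdef
  have hfd : FiniteDimensional ℚ C := IsCyclotomicExtension.finiteDimensional {M} ℚ C
  have hnf : NumberField C := NumberField.mk
  let aB : Algebra B C := (IntermediateField.inclusion hB).toRingHom.toAlgebra
  have tow : IsScalarTower ℚ B C := IsScalarTower.of_algebraMap_eq (fun _ => rfl)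
  let E := (IsCyclotomicExtension.Rat.galEquivZMod M C)
  let α : (ZMod M)ˣ →* (B ≃ₐ[ℚ] B) :=
    (AlgEquiv.restrictNormalHom (F := ℚ) (K₁ := C) B).comp E.symm.toMonoidHom
  have hζC : ζ ∈ C := IntermediateField.mem_adjoin_simple_self ℚ ζ
  have hval : ∀ u : (ZMod M)ˣ, ((E.symm u ⟨ζ, hζC⟩ : C) : ℂ) = ζ ^ (u : ZMod M).val := by
    intro u
    have h3 : (⟨ζ, hζC⟩ : C) ^ M = 1 := by
      apply Subtype.ext
      exact hζ.pow_eq_one
    have h4 := IsCyclotomicExtension.Rat.galEquivZMod_apply_of_pow_eq M C (E.symm u) h3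
    rw [h4]
    have h5 : IsCyclotomicExtension.Rat.galEquivZMod M C (E.symm u) = u := E.apply_symm_apply u
    rw [h5]
    rfl
  have hres : ∀ (u : (ZMod M)ˣ) (y : B), ((α u y : B) : ℂ) =
      ((E.symm u (algebraMap B C y) : C) : ℂ) := by
    intro u y
    have h2 : algebraMap B C (α u y) = E.symm u (algebraMap B C y) :=
      AlgEquiv.restrictNormal_commutes (E.symm u) B y
    rw [← h2]
    rfl
  refine ⟨α, fun σ c u hu hσ y => ?_, fun u y hy => ?_⟩
  · have h2 : ((E.symm u ⟨ζ, hζC⟩ : C) : ℂ) = ζ ^ c := by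
      rw [hval]
      have h7 : (u : ZMod M).val ≡ c [MOD M] := by
        rw [← ZMod.natCast_eq_natCast_iff, ZMod.natCast_zmod_val, hu]
      rw [← Nat.mod_add_div (u : ZMod M).val M, ← Nat.mod_add_div c M, h7, pow_add, pow_add,
        pow_mul, pow_mul, hζ.pow_eq_one, one_pow, one_pow]
    let f : C →ₐ[ℚ] ℂ := (σ.comp (algebraMap C ℂ)).toRatAlgHom
    let g : C →ₐ[ℚ] ℂ := C.val.comp ((E.symm u : C ≃ₐ[ℚ] C) : C →ₐ[ℚ] C)
    have h6 : f = g := by
      refine IntermediateField.adjoin_algHom_ext ℚ ?_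
      intro x hx
      have hx' : x = ζ := hx
      subst hx'
      show σ x = ((E.symm u ⟨x, _⟩ : C) : ℂ)
      rw [hσ]
      exact h2.symm
    rw [hres]
    exact DFunLike.congr_fun h6 (algebraMap B C y)
  · have h1 : algebraMap B C y = (⟨ζ, hζC⟩ : C) + (⟨ζ, hζC⟩ : C)⁻¹ := by
      apply Subtype.ext
      exact hy
    rw [hres, h1, map_add, map_inv₀]
    show ((E.symm u ⟨ζ, hζC⟩ : C) : ℂ) + ((E.symm u ⟨ζ, hζC⟩ : C) : ℂ)⁻¹ = _
    rw [hval]

end Pool.Agent.TWF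


end

section

/-!
# TWF: the fields of the theorem on twisted layers

All fields are subfields of `ℂ`, `B n` is the `n`-th layer of the cyclotomic `ℤ_l`-extension of `ℚ`.
-/

set_option autoImplicit false

open NumberField

namespace Pool.Agent.TWF

open Pool.Agent.RI

/-- `K / k` is Galois with abelian group, `B n` the layers of the cyclotomic `ℤ_l`-extension of `ℚ`. -/
structure Twr (l : ℕ) (k K : IntermediateField ℚ ℂ) (B : ℕ → IntermediateField ℚ ℂ) : Prop where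
  hk : k ≤ K
  gal : IsGalois k (IntermediateField.extendScalars hk)
  ab : ∀ σ τ : (IntermediateField.extendScalars hk) ≃ₐ[k] (IntermediateField.extendScalars hk),
    σ * τ = τ * σ
  lay : ∀ n, IsLayer l n (B n)
  mono : Monotone B

end Pool.Agent.TWF


end

section

/-!
# TWF: `K B_n` is contained in the ray class field of level `f l^(n+s)`
-/

set_option autoImplicit false

namespace Pool.Agent.TWF

open _root_.MU3 Pool.Agent.MU3 Pool.Agent.MU3A Pool.Agent.MU3B Pool.Agent.RI Pool.Agent.RID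
  Pool.Agent.MUX Pool.Agent.MUXE Pool.Agent.MUXK Pool.Agent.MUXI
open Pool.Agent.MU3I (w3 zt)

theorem lvl (hLAY : Si_LAY) (hIAF : Si_IAF) (l s : ℕ) (hls : (l = 3 ∧ s = 1) ∨ (l = 2 ∧ s = 2))
    (A B : ℤ) (hc : CQ A B) (T : TorX A B)
    (hNL : ∃ (b : Ideal (OO A B)) (L : PeriodPair) (om : ℂ), IsNL b L om) (f : ℕ) (hf : f ≠ 0)
    (K : IntermediateField ℚ ℂ) (hK : ∀ y ∈ K, y ∈ RF (idl (A := A) (B := B) f)) (n : ℕ)
    (Bn : IntermediateField ℚ ℂ) (hB : IsLayer l n Bn) :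
    ∀ y ∈ K ⊔ Bn, y ∈ RF (idl (A := A) (B := B) (f * l ^ (n + s))) := by
  have hl0 : l ≠ 0 := by rcases hls with ⟨rfl, -⟩ | ⟨rfl, -⟩ <;> norm_num
  set M : ℕ := l ^ (n + s) with hM
  have hM0 : M ≠ 0 := pow_ne_zero _ hl0
  have hm0 : idl (A := A) (B := B) (f * M) ≠ ⊥ := by
    rw [Ne, Ideal.span_singleton_eq_bot]
    exact natCast_ne_zero' hc (mul_ne_zero hf hM0)
  have hmf : idl (A := A) (B := B) (f * M) ≤ idl f := by
    rw [Ideal.span_singleton_le_span_singleton]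
    push_cast
    exact dvd_mul_right _ _
  have hmM : idl (A := A) (B := B) (f * M) ≤ idl M := by
    rw [Ideal.span_singleton_le_span_singleton]
    push_cast
    exact dvd_mul_left _ _
  obtain ⟨i1, -, -, -, -, -, -, i8⟩ := hIAF A B hc T hNL _ hm0
  obtain ⟨a₀, ha₀⟩ := i1 (RingEquiv.refl ℂ) rfl
  have hq0 : q0 l * l ^ n = M := by
    rcases hls with ⟨rfl, rfl⟩ | ⟨rfl, rfl⟩
    · have h3 : q0 3 = 3 := by simp [q0]
      rw [h3, hM]
      ring
    · have h3 : q0 2 = 4 := by simp [q0]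
      rw [h3, hM]
      ring
  have hζ : IsPrimitiveRoot (zt M) M := Complex.isPrimitiveRoot_exp M hM0
  have hz := (i8 M (RingEquiv.refl ℂ) a₀ (zt M) hM0 hmM ha₀ hζ.pow_eq_one).1
  have hBeq := hLAY l n (by rcases hls with ⟨h, -⟩ | ⟨h, -⟩ <;> tauto) Bn hB
  rw [hq0] at hBeq
  have hBn : Bn ≤ IntermediateField.restrictScalars ℚ (RF (idl (A := A) (B := B) (f * M))) := by
    rw [hBeq, IntermediateField.adjoin_le_iff]
    intro x hx
    rw [Set.mem_singleton_iff] at hx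
    rw [hx]
    exact add_mem hz (inv_mem hz)
  have hK' : K ≤ IntermediateField.restrictScalars ℚ (RF (idl (A := A) (B := B) (f * M))) := by
    intro x hx
    exact T.mono _ _ hmf (hK x hx)
  intro y hy
  exact (sup_le hK' hBn) hy

end Pool.Agent.TWF


end

section

/-!
# OT, block J, modules LLV and ABL (helper88)

LLV: the composite of a subfield of `RF (f q0)` and of the `r`-th layer of the cyclotomic `ℤ_l`-extension, `l = 2, 3`, is contained in
the ray class field of level `f l^(r+h) q0`. ABL: it is abelian over `k`, of degree prime to `p`.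
-/

set_option autoImplicit false

namespace Pool.Agent.OT

open _root_.MU3 Pool.Agent.MU3 Pool.Agent.MU3A Pool.Agent.MU3B Pool.Agent.RI Pool.Agent.RID
  Pool.Agent.MUX Pool.Agent.MUXE Pool.Agent.MUXK Pool.Agent.MUXJ
open Pool.Agent.MU3I (zt)
open Pool.Agent.TWR (Gen)

namespace JLLV

theorem zt_pow (M : ℕ) (h : M ≠ 0) : zt M ^ M = 1 := by
  unfold Pool.Agent.MU3I.zt
  exact (Complex.isPrimitiveRoot_exp M h).pow_eq_one

theorem idl_ne {A B : ℤ} {M : ℕ} (h : M ≠ 0) : idl (A := A) (B := B) M ≠ ⊥ := by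
  rw [ne_eq, Ideal.span_singleton_eq_bot]
  exact_mod_cast h

theorem idl_le {A B : ℤ} {M N : ℕ} (h : M ∣ N) : idl (A := A) (B := B) N ≤ idl M := by
  rw [Ideal.span_singleton_le_span_singleton]
  obtain ⟨c, rfl⟩ := h
  exact ⟨c, by push_cast; ring⟩

/-- roots of unity in ray class fields -/
theorem zeta_mem {A B : ℤ} (T : TorX A B) (hN : NLex A B) {M m : ℕ} (hM : M ≠ 0) (hm : m ≠ 0)
    (h : M ∣ m) {z : ℂ} (hz : z ^ M = 1) : z ∈ RF (idl (A := A) (B := B) m) := by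
  obtain ⟨b, L, om, hL⟩ := hN
  obtain ⟨a, -, ha⟩ := T.act _ (idl_ne hm) (RingEquiv.refl ℂ) rfl
  obtain ⟨b', L', om', mu, hL', hact⟩ := ha b L om hL
  exact (T.zeta M _ a (RingEquiv.refl ℂ) b L L' om mu (idl_ne hm) rfl hM (idl_le h) hL hact z
    hz).1

theorem gen_cases {l g h : ℕ} (hG : Gen l g h) : l = 2 ∨ l = 3 := by
  rcases hG with ⟨rfl, -, -⟩ | ⟨rfl, -, -⟩
  · exact Or.inr rfl
  · exact Or.inl rfl

theorem gen_q0 {l g h : ℕ} (hG : Gen l g h) (r : ℕ) : q0 l * l ^ r = l ^ (r + h) := by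
  rcases hG with ⟨rfl, -, rfl⟩ | ⟨rfl, -, rfl⟩
  · have h3 : q0 3 = 3 := by simp [q0]
    rw [h3, pow_succ, mul_comm]
  · have h3 : q0 2 = 4 := by simp [q0]
    rw [h3, pow_add]
    ring

end JLLV

open _root_.Pool.Agent.OT.JLLV

/-- Module LLV. -/
theorem t_LLV (l g h : ℕ) (hG : Gen l g h) (A B : ℤ) (T : TorX A B) (hN : NLex A B) (p f : ℕ)
    (hp : p ≠ 0) (hf : f ≠ 0) (K₀ : IntermediateField ℚ ℂ)
    (hK : ∀ y ∈ K₀, y ∈ RF (idl (A := A) (B := B) (lvX p f 0))) (r : ℕ)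
    (L : IntermediateField ℚ ℂ) (hL : IsLayer l r L) :
    ∀ y ∈ K₀ ⊔ L, y ∈ RF (idl (A := A) (B := B) (lvX p (f * l ^ (r + h)) 0)) := by
  have hl := gen_cases hG
  have hl0 : l ≠ 0 := by rcases hl with rfl | rfl <;> norm_num
  have hq : q0 p ≠ 0 := by
    unfold q0
    split_ifs with h2
    · norm_num
    · exact hp
  have hlv : lvX p (f * l ^ (r + h)) 0 = lvX p f 0 * l ^ (r + h) := by unfold lvX; ring
  have hM : l ^ (r + h) ≠ 0 := pow_ne_zero _ hl0
  have hlv0 : lvX p (f * l ^ (r + h)) 0 ≠ 0 := by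
    unfold lvX
    exact mul_ne_zero (mul_ne_zero (mul_ne_zero hf hM) hq) (pow_ne_zero _ hp)
  have hd1 : lvX p f 0 ∣ lvX p (f * l ^ (r + h)) 0 := ⟨_, hlv⟩
  have hd2 : l ^ (r + h) ∣ lvX p (f * l ^ (r + h)) 0 := ⟨lvX p f 0, by rw [hlv, mul_comm]⟩
  have hz : zt (l ^ (r + h)) ∈ RF (idl (A := A) (B := B) (lvX p (f * l ^ (r + h)) 0)) :=
    zeta_mem T hN hM hlv0 hd2 (zt_pow _ hM)
  have hL' : L ≤ IntermediateField.restrictScalars ℚ
      (RF (idl (A := A) (B := B) (lvX p (f * l ^ (r + h)) 0))) := by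
    rw [Pool.Agent.MUXI.ti_LAY l r hl L hL, gen_q0 hG, IntermediateField.adjoin_le_iff]
    intro x hx
    rw [Set.mem_singleton_iff] at hx
    rw [hx]
    exact add_mem hz (inv_mem hz)
  have hK' : K₀ ≤ IntermediateField.restrictScalars ℚ
      (RF (idl (A := A) (B := B) (lvX p (f * l ^ (r + h)) 0))) := by
    intro x hx
    exact T.mono _ _ (idl_le hd1) (hK x hx)
  intro y hy
  exact (sup_le hK' hL') hy

end Pool.Agent.OT


end

section

/-!
# TWF: Dirichlet characters attached to the characters of the layers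
-/

set_option autoImplicit false

open NumberField

namespace Pool.Agent.TWF

open _root_.MU3 Pool.Agent.MU3 Pool.Agent.RI Pool.Agent.RID Pool.Agent.MUX Pool.Agent.MUXI
open Pool.Agent.MU3I (w3 zt)

/-- in a cyclic group the elements killed by a prime `l` are the powers of an element of order `l` -/
theorem cyc_mem {G : Type} [Group G] [Finite G] [IsCyclic G] (l : ℕ) (hl : l.Prime) (ρ g : G)
    (hρ : ρ ^ l = 1) (hρ1 : ρ ≠ 1) (hg : g ^ l = 1) : g ∈ Subgroup.zpowers ρ := by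
  classical
  have : Fintype G := Fintype.ofFinite G
  have ho : orderOf ρ = l := by
    have : Fact l.Prime := ⟨hl⟩
    exact orderOf_eq_prime hρ hρ1
  have hle := IsCyclic.card_pow_eq_one_le (α := G) (n := l) hl.pos
  have hsub : (Finset.univ.filter fun a : G => a ∈ Subgroup.zpowers ρ) ⊆
      (Finset.univ.filter fun a : G => a ^ l = 1) := by
    intro a ha
    rw [Finset.mem_filter] at ha ⊢
    obtain ⟨k, rfl⟩ := ha.2
    refine ⟨Finset.mem_univ _, ?_⟩
    show (ρ ^ k) ^ l = 1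
    rw [← zpow_natCast, ← zpow_mul, mul_comm, zpow_mul, zpow_natCast, hρ, one_zpow]
  have hcard : (Finset.univ.filter fun a : G => a ∈ Subgroup.zpowers ρ).card = l := by
    rw [← ho, ← Nat.card_zpowers, Nat.card_eq_fintype_card, Fintype.card_subtype]
  have heq := Finset.eq_of_subset_of_card_le hsub (by rw [hcard]; exact hle)
  have h1 : g ∈ (Finset.univ.filter fun a : G => a ^ l = 1) := by
    rw [Finset.mem_filter]
    exact ⟨Finset.mem_univ _, hg⟩
  rw [← heq, Finset.mem_filter] at h1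
  exact h1.2

/-- an automorphism of `B'` which is trivial on `B` is killed by the degree -/
theorem pow_deg {B B' : IntermediateField ℚ ℂ} (hle : B ≤ B') [FiniteDimensional ℚ B']
    (hG : IsGalois ℚ B') (l : ℕ) (hd : Module.finrank ℚ B' = Module.finrank ℚ B * l)
    (g : B' ≃ₐ[ℚ] B') (hg : ∀ x : B', (x : ℂ) ∈ B → g x = x) : g ^ l = 1 := by
  let _ : Algebra B B' := (IntermediateField.inclusion hle).toRingHom.toAlgebra
  have tow : IsScalarTower ℚ B B' := IsScalarTower.of_algebraMap_eq (fun _ => rfl)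
  have hB : FiniteDimensional ℚ B := FiniteDimensional.of_injective
    (IntermediateField.inclusion hle).toLinearMap
    (IntermediateField.inclusion hle).toRingHom.injective
  have hf : FiniteDimensional B B' := Module.Finite.of_restrictScalars_finite ℚ B B'
  have hG' : IsGalois B B' := IsGalois.tower_top_of_isGalois ℚ B B'
  have hfr : Module.finrank B B' = l := by
    have h1 := Module.finrank_mul_finrank ℚ B B'
    rw [hd] at h1
    exact Nat.eq_of_mul_eq_mul_left (Module.finrank_pos) h1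
  let g' : B' ≃ₐ[B] B' := AlgEquiv.ofRingEquiv (f := g.toRingEquiv) (by
    intro x
    exact hg (algebraMap B B' x) x.2)
  have hc : Nat.card (B' ≃ₐ[B] B') = l := by
    rw [IsGalois.card_aut_eq_finrank, hfr]
  have h1 : g' ^ l = 1 := by
    rw [← hc]
    exact pow_card_eq_one'
  have h2 : ∀ (j : ℕ) (x : B'), (g ^ j) x = (g' ^ j) x := by
    intro j
    induction j with
    | zero => intro x; rfl
    | succ j ih =>
      intro x
      rw [pow_succ, pow_succ, AlgEquiv.mul_apply, AlgEquiv.mul_apply, ih]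
      rfl
  ext x
  rw [h2, h1]
  rfl

/-- the Dirichlet character attached to a character of `Gal(B_(n+1)/ℚ)` -/
theorem cyc (hLAY : Si_LAY) (l s n : ℕ) [hl : Fact l.Prime]
    (hls : (l = 3 ∧ s = 1) ∨ (l = 2 ∧ s = 2)) (B B' : IntermediateField ℚ ℂ)
    (hB : IsLayer l n B) (hB' : IsLayer l (n + 1) B') (hle : B ≤ B') :
    ∀ X : (B' ≃ₐ[ℚ] B') →* ℂˣ, ∃ ψ : DirichletCharacter ℂ (l ^ (n + 1 + s)), ψ (-1) = 1 ∧
      ((∃ g : B' ≃ₐ[ℚ] B', (∀ x : B', (x : ℂ) ∈ B → g x = x) ∧ X g ≠ 1) →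
        ψ (1 + (l : ZMod (l ^ (n + 1 + s))) ^ (n + 1 + s - 1)) ≠ 1) ∧
      ∀ (σ : ℂ →+* ℂ) (c : ℕ) (g : B' ≃ₐ[ℚ] B'), c.Coprime l →
        (∀ z : ℂ, z ^ (l ^ (n + 1 + s)) = 1 → σ z = z ^ c) →
        (∀ y : B', σ (y : ℂ) = (g y : B')) →
        ψ (c : ZMod (l ^ (n + 1 + s))) = (((X g)⁻¹ : ℂˣ) : ℂ) := by
  classical
  intro X
  have hl1 : 1 < l := hl.out.one_lt
  have hs1 : 1 ≤ s := by rcases hls with ⟨-, h⟩ | ⟨-, h⟩ <;> omega
  set M : ℕ := l ^ (n + 1 + s) with hMdef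
  have hM0 : M ≠ 0 := pow_ne_zero _ hl.out.ne_zero
  have : NeZero M := ⟨hM0⟩
  have hq : q0 l * l ^ (n + 1) = M := by
    rcases hls with ⟨rfl, rfl⟩ | ⟨rfl, rfl⟩
    · have h3 : q0 3 = 3 := by simp [q0]
      rw [h3, hMdef]
      ring
    · have h3 : q0 2 = 4 := by simp [q0]
      rw [h3, hMdef]
      ring
  have hζ : IsPrimitiveRoot (zt M) M := Complex.isPrimitiveRoot_exp M hM0
  set ζ := zt M with hζdef
  have hBeq : B' = IntermediateField.adjoin ℚ {ζ + ζ⁻¹} := by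
    have h1 := hLAY l (n + 1) (by rcases hls with ⟨h, -⟩ | ⟨h, -⟩ <;> tauto) B' hB'
    rw [hq] at h1
    exact h1
  obtain ⟨fdB, hGB, -⟩ := LAY_thm l (n + 1) B' hB'
  have hcyc : IsCyclic (B' ≃ₐ[ℚ] B') := t_LAYC l (n + 1) B' hB'
  have hfin : Finite (B' ≃ₐ[ℚ] B') := inferInstance
  have hBC : B' ≤ IntermediateField.adjoin ℚ {ζ} := by
    rw [hBeq, IntermediateField.adjoin_le_iff]
    intro x hx
    rw [Set.mem_singleton_iff] at hx
    rw [hx]
    have h1 := IntermediateField.mem_adjoin_simple_self ℚ ζ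
    exact add_mem h1 (inv_mem h1)
  obtain ⟨α, hα1, hα2⟩ := alpha M ζ hζ B' hBC
  refine ⟨MulChar.ofUnitHom ((X.comp α)⁻¹), ?_, ?_, ?_⟩
  · -- complex conjugation
    have hM1 : 1 ≤ M := Nat.one_le_iff_ne_zero.2 hM0
    have h1 : α (-1) = 1 := by
      ext y
      have h2 := hα1 (starRingEnd ℂ) (M - 1) (-1) ?_ ?_ y
      · have h3 : (starRingEnd ℂ) (y : ℂ) = y := hB'.2.1 _ y.2
        rw [h3] at h2
        exact h2.symm
      · rw [Units.val_neg, Units.val_one, Nat.cast_sub hM1, ZMod.natCast_self, Nat.cast_one,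
          zero_sub]
      · have h3 : (starRingEnd ℂ) ζ * ζ = 1 := by
          have h4 : ‖ζ‖ = 1 := hζ.norm'_eq_one hM0
          rw [mul_comm, Complex.mul_conj, Complex.normSq_eq_norm_sq, h4]
          norm_num
        have h4 : ζ ^ (M - 1) * ζ = 1 := by
          rw [← pow_succ, Nat.sub_add_cancel hM1]
          exact hζ.pow_eq_one
        exact mul_right_cancel₀ (hζ.ne_zero hM0) (h3.trans h4.symm)
    have h2 : ((-1 : (ZMod M)ˣ) : ZMod M) = -1 := by rw [Units.val_neg, Units.val_one]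
    rw [← h2, MulChar.ofUnitHom_coe]
    show ((((X.comp α)⁻¹) (-1 : (ZMod M)ˣ) : ℂˣ) : ℂ) = 1
    rw [MonoidHom.inv_apply, MonoidHom.comp_apply, h1, map_one, inv_one, Units.val_one]
  · rintro ⟨g₀, hg1, hg2⟩
    have he : n + 1 + s - 1 = n + s := by omega
    rw [he]
    have hMl : M = l ^ (n + s) * l := by
      rw [hMdef, ← pow_succ]
      congr 1
      omega
    have hsq : ((l : ZMod M) ^ (n + s)) * ((l : ZMod M) ^ (n + s)) = 0 := by
      rw [← pow_add]
      have h1 : ((l ^ (n + s + (n + s)) : ℕ) : ZMod M) = 0 := by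
        rw [ZMod.natCast_eq_zero_iff, hMdef]
        exact pow_dvd_pow l (by omega)
      push_cast at h1
      exact h1
    let u₁ : (ZMod M)ˣ := ⟨1 + (l : ZMod M) ^ (n + s), 1 - (l : ZMod M) ^ (n + s), by
      linear_combination -hsq, by linear_combination -hsq⟩
    have hu1 : (1 + (l : ZMod M) ^ (n + s)) = (u₁ : ZMod M) := rfl
    have hul : u₁ ^ l = 1 := by
      apply Units.ext
      rw [Units.val_pow_eq_pow_val, ← hu1, Units.val_one]
      have h1 : ∀ j : ℕ, (1 + (l : ZMod M) ^ (n + s)) ^ j = 1 + (j : ZMod M) * (l : ZMod M) ^ (n + s) := by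
        intro j
        induction j with
        | zero => simp
        | succ j ih =>
          rw [pow_succ, ih]
          push_cast
          linear_combination (j : ZMod M) * hsq
      rw [h1]
      have h2 : ((l : ZMod M) * (l : ZMod M) ^ (n + s)) = 0 := by
        have h3 : ((l ^ (n + s) * l : ℕ) : ZMod M) = 0 := by
          rw [← hMl, ZMod.natCast_self]
        push_cast at h3
        rw [mul_comm]
        exact h3
      rw [h2, add_zero]
    have hl4 : 4 ≤ l ^ (n + s) ∨ (l = 3 ∧ 3 ≤ l ^ (n + s)) := by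
      rcases hls with ⟨rfl, rfl⟩ | ⟨rfl, rfl⟩
      · right
        refine ⟨rfl, ?_⟩
        calc 3 = 3 ^ 1 := by norm_num
          _ ≤ 3 ^ (n + 1) := Nat.pow_le_pow_right (by norm_num) (by omega)
      · left
        calc 4 = 2 ^ 2 := by norm_num
          _ ≤ 2 ^ (n + 2) := Nat.pow_le_pow_right (by norm_num) (by omega)
    have hlt : 2 + l ^ (n + s) < M := by
      rw [hMl]
      rcases hl4 with h | ⟨h, h'⟩
      · nlinarith
      · subst h
        omega
    have hρ1 : α u₁ ≠ 1 := by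
      intro h1
      have hy : ζ + ζ⁻¹ ∈ B' := by
        rw [hBeq]
        exact IntermediateField.mem_adjoin_simple_self ℚ _
      have h2 := hα2 u₁ ⟨ζ + ζ⁻¹, hy⟩ rfl
      rw [h1] at h2
      have h3 : (u₁ : ZMod M).val = 1 + l ^ (n + s) := by
        have h4 : (u₁ : ZMod M) = ((1 + l ^ (n + s) : ℕ) : ZMod M) := by
          rw [← hu1]
          push_cast
          rfl
        rw [h4, ZMod.val_natCast, Nat.mod_eq_of_lt (by omega)]
      rw [h3] at h2
      have h5 : ζ ^ (1 + l ^ (n + s)) + (ζ ^ (1 + l ^ (n + s)))⁻¹ = ζ ^ 1 + (ζ ^ 1)⁻¹ := by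
        rw [← h2, pow_one]
        rfl
      have hpos : 0 < l ^ (n + s) := pow_pos hl.out.pos _
      rcases (Pool.Agent.NSI.Xmx.pm hM0 hζ _ _).1 h5 with h6 | h6
      · have h7 : (M : ℤ) ∣ (l ^ (n + s) : ℕ) := by
          have h8 : ((1 + l ^ (n + s) : ℕ) : ℤ) - ((1 : ℕ) : ℤ) = ((l ^ (n + s) : ℕ) : ℤ) := by
            push_cast
            ring
          rw [h8] at h6
          exact h6
        have h8 := Nat.le_of_dvd hpos (Int.natCast_dvd_natCast.1 h7)
        omega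
      · have h7 : (M : ℤ) ∣ ((2 + l ^ (n + s) : ℕ) : ℤ) := by
          have h8 : ((1 + l ^ (n + s) : ℕ) : ℤ) + ((1 : ℕ) : ℤ) = ((2 + l ^ (n + s) : ℕ) : ℤ) := by
            push_cast
            ring
          rw [h8] at h6
          exact h6
        have h8 := Nat.le_of_dvd (by omega) (Int.natCast_dvd_natCast.1 h7)
        omega
    have hρl : (α u₁) ^ l = 1 := by rw [← map_pow, hul, map_one]
    have hgl : g₀ ^ l = 1 := by
      refine pow_deg hle hGB l ?_ g₀ hg1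
      rw [hB.1, hB'.1, pow_succ]
    obtain ⟨j, hj⟩ := cyc_mem l hl.out (α u₁) g₀ hρl hρ1 hgl
    have hX : X (α u₁) ≠ 1 := by
      intro h1
      apply hg2
      rw [← hj]
      show X ((α u₁) ^ j) = 1
      rw [map_zpow, h1, one_zpow]
    rw [hu1, MulChar.ofUnitHom_coe]
    intro h1
    apply hX
    have h2 : ((X.comp α)⁻¹) u₁ = 1 := Units.ext h1
    rw [MonoidHom.inv_apply, MonoidHom.comp_apply, inv_eq_one] at h2
    exact h2
  · intro σ c g hc hσ hg
    have hcM : c.Coprime M := by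
      rw [hMdef]
      exact Nat.Coprime.pow_right _ hc
    have h1 : ∀ y : B', σ (y : ℂ) = (α (ZMod.unitOfCoprime c hcM) y : B') :=
      hα1 σ c (ZMod.unitOfCoprime c hcM) (ZMod.coe_unitOfCoprime c hcM)
        (hσ ζ hζ.pow_eq_one)
    have h2 : g = α (ZMod.unitOfCoprime c hcM) := by
      ext y
      rw [← hg y, h1 y]
    rw [← ZMod.coe_unitOfCoprime c hcM, MulChar.ofUnitHom_coe, MonoidHom.inv_apply,
      MonoidHom.comp_apply, ← h2]

end Pool.Agent.TWF


end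

section

/-!
# TWF: `K B_n / k` is Galois with abelian group and unramified outside a finite set

The proofs of `MUX/K_GALX.lean` and `MUX/K_RAMX.lean` without linear disjointness.
-/

set_option autoImplicit false

open NumberField IsDedekindDomain Finset
open scoped nonZeroDivisors Pointwise

namespace Pool.Agent.TWF

open Pool.Agent.MU3 Pool.Agent.RI Pool.Agent.RID Pool.Agent.MU3.P_RAMK
open Pool.Agent.MU3.P_GALK

/-- `K B_n / k` is Galois with abelian group. -/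
theorem gal_ab (p : ℕ) [Fact p.Prime] (k K : IntermediateField ℚ ℂ)
    (B : ℕ → IntermediateField ℚ ℂ)
    [FiniteDimensional ℚ K] [∀ n, FiniteDimensional ℚ ↥(K ⊔ B n)] (hB : Twr p k K B)
    (n : ℕ) (h : k ≤ K ⊔ B n) : letI := algC h
    IsGalois k ↥(K ⊔ B n) ∧ ∀ σ τ : ↥(K ⊔ B n) ≃ₐ[k] ↥(K ⊔ B n), σ * τ = τ * σ := by
  letI aL : Algebra k ↥(K ⊔ B n) := algC h
  obtain ⟨fdB, hGB, -⟩ := LAY_thm p n (B n) (hB.lay n)
  have hcyc : IsCyclic (B n ≃ₐ[ℚ] B n) := t_LAYC p n (B n) (hB.lay n)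
  have fdk : FiniteDimensional ℚ k := FiniteDimensional.of_injective
    (IntermediateField.inclusion hB.hk).toLinearMap
    (IntermediateField.inclusion hB.hk).toRingHom.injective
  refine ⟨?_, ?_⟩
  · have h1 := BCH_thm.1 ⊥ (B n) k k (k ⊔ B n) bot_le le_sup_left (bot_sup_eq k).symm
      (sup_comm k (B n)) (bot_gal hGB)
    have hfM : FiniteDimensional ℚ ↥(k ⊔ B n) := IntermediateField.finiteDimensional_sup k (B n)
    have h2 := BCH_thm.2 k K (k ⊔ B n) hB.hk le_sup_left (hB.hk.trans le_sup_left) hB.gal h1.1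
    have e : K ⊔ (k ⊔ B n) = K ⊔ B n := by
      rw [← sup_assoc, sup_eq_left.2 hB.hk]
    exact (isGalois_algC h).2 (transp e _ h h2)
  · intro σ τ
    refine comm_of h σ τ ?_ ?_
    · intro x hx
      letI aK : Algebra k K := algC hB.hk
      letI aKL : Algebra K ↥(K ⊔ B n) := algC le_sup_left
      haveI : IsScalarTower k K ↥(K ⊔ B n) := towerC hB.hk le_sup_left
      haveI : IsGalois k K := (isGalois_algC hB.hk).2 hB.gal
      have hab : ∀ a b : K ≃ₐ[k] K, a * b = b * a := by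
        intro a b
        have h1 := hB.ab ((extEquiv hB.hk).symm.autCongr a) ((extEquiv hB.hk).symm.autCongr b)
        rw [← map_mul, ← map_mul] at h1
        exact (extEquiv hB.hk).symm.autCongr.injective h1
      exact comm_on hab σ τ (⟨(x : ℂ), hx⟩ : K)
    · intro x hx
      letI aBL : Algebra (B n) ↥(K ⊔ B n) := algC le_sup_right
      haveI : IsScalarTower ℚ (B n) ↥(K ⊔ B n) := IsScalarTower.of_algebraMap_eq (fun _ => rfl)
      haveI : IsScalarTower ℚ k ↥(K ⊔ B n) := IsScalarTower.of_algebraMap_eq (fun _ => rfl)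
      have hab : ∀ a b : B n ≃ₐ[ℚ] B n, a * b = b * a := by
        intro a b
        obtain ⟨g, hg⟩ := hcyc.exists_generator
        obtain ⟨i, rfl⟩ := hg a
        obtain ⟨j, rfl⟩ := hg b
        exact zpow_mul_comm g i j
      exact comm_on hab (σ.restrictScalars ℚ) (τ.restrictScalars ℚ) (⟨(x : ℂ), hx⟩ : B n)

/-- `K B_n / k` is unramified outside a finite set independent of `n`. -/
theorem ram_out (p : ℕ) [hp : Fact p.Prime] (k K : IntermediateField ℚ ℂ)
    (B : ℕ → IntermediateField ℚ ℂ)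
    [FiniteDimensional ℚ k] [FiniteDimensional ℚ K] [∀ n, FiniteDimensional ℚ ↥(K ⊔ B n)]
    (hB : Twr p k K B) : ∃ S' : Finset ℕ, 2 ∈ S' ∧ p ∈ S' ∧ (∀ ℓ ∈ S', ℓ.Prime) ∧
    ∀ S : Finset ℕ, S' ⊆ S → ∀ (n : ℕ) (h : k ≤ K ⊔ B n), letI := algC h
    ∀ v : HeightOneSpectrum (𝓞 ↥(K ⊔ B n)), ¬ Above S v →
      v.asIdeal.ramificationIdx (𝓞 k) = 1 := by
  classical
  have h1 : _root_.MU3.N_RAMP := _root_.MU3.n_RAMP
  let a1 : Algebra k K := algC hB.hk
  have hfin := fin_ram k K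
  choose f hf using exists_prime K
  refine ⟨insert 2 (insert p (hfin.toFinset.image f)), by simp, by simp, ?_, ?_⟩
  · intro q hq
    rcases Finset.mem_insert.1 hq with rfl | hq
    · exact Nat.prime_two
    · rcases Finset.mem_insert.1 hq with rfl | hq
      · exact hp.out
      · obtain ⟨v, -, rfl⟩ := Finset.mem_image.1 hq
        exact (hf v).1
  · intro S hS n h v hv
    let a2 : Algebra K ↥(K ⊔ B n) := algC (le_sup_left : K ≤ K ⊔ B n)
    let a3 : Algebra k ↥(K ⊔ B n) := algC h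
    have tow : IsScalarTower k K ↥(K ⊔ B n) := towerC hB.hk le_sup_left
    have hprime : v.asIdeal.IsPrime := v.isPrime
    have hvne : v.asIdeal.under (𝓞 K) ≠ ⊥ := by
      intro h0
      exact v.ne_bot (Ideal.eq_bot_of_comap_eq_bot h0)
    let w : HeightOneSpectrum (𝓞 K) := ⟨v.asIdeal.under (𝓞 K), inferInstance, hvne⟩
    have hdown : ∀ q : ℕ, (q : 𝓞 K) ∈ w.asIdeal → (q : 𝓞 ↥(K ⊔ B n)) ∈ v.asIdeal := by
      intro q hq
      have h2 : algebraMap (𝓞 K) (𝓞 ↥(K ⊔ B n)) (q : 𝓞 K) ∈ v.asIdeal := hq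
      rwa [map_natCast] at h2
    have e1 : v.asIdeal.ramificationIdx (𝓞 K) = 1 := by
      by_contra hne
      have h3 := h1 p n K (B n) (hB.lay n) v hne
      exact hv ⟨p, hS (by simp), hdown p h3⟩
    have e2 : w.asIdeal.ramificationIdx (𝓞 k) = 1 := by
      by_contra hne
      refine hv ⟨f w, hS ?_, hdown _ (hf w).2⟩
      exact Finset.mem_insert_of_mem (Finset.mem_insert_of_mem
        (Finset.mem_image_of_mem f (hfin.mem_toFinset.2 hne)))
    have e3 := tower k K ↥(K ⊔ B n) v w rfl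
    rw [e1, e2] at e3
    exact e3

end Pool.Agent.TWF


end

section

/-!
# OT, block J, module ABL (helper88)

The composite of `K₀` and of the `r`-th layer of the cyclotomic `ℤ_l`-extension is abelian over `k`, of degree prime to `p`.
-/

set_option autoImplicit false

namespace Pool.Agent.OT

open _root_.MU3 Pool.Agent.MU3 Pool.Agent.MU3A Pool.Agent.MU3B Pool.Agent.RI Pool.Agent.RID
  Pool.Agent.MUX Pool.Agent.MUXE Pool.Agent.MUXK Pool.Agent.MUXJ
open Pool.Agent.TWR (Gen)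

namespace JABL

/-- an element of order `p` of a group with a homomorphism to a group of order prime to `p` -/
theorem hom_one {G H : Type*} [Group G] [Group H] (φ : G →* H) {p m : ℕ} (hp : p.Prime)
    (hm : ∀ h : H, h ^ m = 1) (hpm : ¬ p ∣ m) {σ : G} (h1 : σ ^ p = 1) : φ σ = 1 := by
  have h2 : (φ σ) ^ p = 1 := by rw [← map_pow, h1, map_one]
  have h3 := hm (φ σ)
  have hc : Nat.Coprime p m := (Nat.Prime.coprime_iff_not_dvd hp).2 hpm
  have h4 : orderOf (φ σ) ∣ Nat.gcd p m :=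
    Nat.dvd_gcd (orderOf_dvd_of_pow_eq_one h2) (orderOf_dvd_of_pow_eq_one h3)
  rw [hc] at h4
  exact orderOf_eq_one_iff.1 (Nat.dvd_one.1 h4)

/-- degree of the composite with a Galois extension of `ℚ` -/
theorem deg {k K₀ L : IntermediateField ℚ ℂ} (hk : k ≤ K₀) (hk' : k ≤ K₀ ⊔ L)
    [IsGalois k (IntermediateField.extendScalars hk)]
    [FiniteDimensional k (IntermediateField.extendScalars hk)]
    [IsGalois k (IntermediateField.extendScalars hk')]
    [FiniteDimensional k (IntermediateField.extendScalars hk')]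
    [FiniteDimensional ℚ L] [IsGalois ℚ L] {p : ℕ} (hp : p.Prime)
    (h1 : ¬ p ∣ Module.finrank k (IntermediateField.extendScalars hk))
    (h2 : ¬ p ∣ Module.finrank ℚ L) :
    ¬ p ∣ Module.finrank k (IntermediateField.extendScalars hk') := by
  intro hd
  set S := IntermediateField.extendScalars hk' with hS
  set E0 := IntermediateField.extendScalars hk with hE0
  have hle : E0 ≤ S := fun x hx => (le_sup_left : K₀ ≤ K₀ ⊔ L) hx
  rw [← IsGalois.card_aut_eq_finrank] at hd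
  have : Fact p.Prime := ⟨hp⟩
  obtain ⟨σ, hσ⟩ := exists_prime_orderOf_dvd_card' p hd
  have hσp : σ ^ p = 1 := by rw [← hσ]; exact pow_orderOf_eq_one σ
  have hσ1 : σ ≠ 1 := by
    intro h
    rw [h, orderOf_one] at hσ
    exact hp.one_lt.ne hσ
  -- `σ` is trivial on `K₀`
  have hK : ∀ (x : ℂ) (hx : x ∈ K₀), σ ⟨x, hle hx⟩ = ⟨x, hle hx⟩ := by
    intro x hx
    let _ : Algebra E0 S := (IntermediateField.inclusion hle).toRingHom.toAlgebra
    have : IsScalarTower k E0 S := IsScalarTower.of_algebraMap_eq fun x => rfl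
    have h3 := hom_one (AlgEquiv.restrictNormalHom (F := k) (K₁ := S) E0) hp
      (m := Module.finrank k E0) (fun h => by
        rw [← IsGalois.card_aut_eq_finrank]
        exact pow_card_eq_one') h1 hσp
    have h4 := AlgEquiv.restrictNormal_commutes σ E0 (⟨x, hx⟩ : E0)
    have h5 : AlgEquiv.restrictNormal σ E0 = 1 := h3
    rw [h5] at h4
    exact h4.symm
  have hL : ∀ (x : ℂ) (hx : x ∈ L), σ ⟨x, (le_sup_right : L ≤ K₀ ⊔ L) hx⟩ =
      ⟨x, (le_sup_right : L ≤ K₀ ⊔ L) hx⟩ := by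
    intro x hx
    let j : L →+* S := { toFun := fun y => ⟨y, (le_sup_right : L ≤ K₀ ⊔ L) y.2⟩
                         map_one' := rfl
                         map_mul' := fun _ _ => rfl
                         map_zero' := rfl
                         map_add' := fun _ _ => rfl }
    let _ : Algebra L S := j.toAlgebra
    have : IsScalarTower ℚ L S := inferInstance
    have hσq : (AlgEquiv.restrictScalars ℚ σ) ^ p = 1 := by
      have h6 : ∀ n : ℕ, ∀ y : S, ((AlgEquiv.restrictScalars ℚ σ) ^ n) y = (σ ^ n) y := by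
        intro n
        induction n with
        | zero => intro y; rfl
        | succ n ih =>
          intro y
          rw [pow_succ, pow_succ, AlgEquiv.mul_apply, AlgEquiv.mul_apply, ih]
          rfl
      ext y
      rw [h6, hσp]
      rfl
    have h3 := hom_one (AlgEquiv.restrictNormalHom (F := ℚ) (K₁ := S) L) hp
      (m := Module.finrank ℚ L) (fun h => by
        rw [← IsGalois.card_aut_eq_finrank]
        exact pow_card_eq_one') h2 hσq
    have h4 := AlgEquiv.restrictNormal_commutes (AlgEquiv.restrictScalars ℚ σ) L (⟨x, hx⟩ : L)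
    have h5 : AlgEquiv.restrictNormal (AlgEquiv.restrictScalars ℚ σ) L = 1 := h3
    rw [h5] at h4
    exact h4.symm
  -- the fixed field
  set F' : IntermediateField k S := IntermediateField.fixedField (Subgroup.zpowers σ) with hF'
  have hmem : ∀ y : S, σ y = y → y ∈ F' := by
    intro y hy
    rw [hF', IntermediateField.mem_fixedField_iff]
    intro f hf
    obtain ⟨n, rfl⟩ := Subgroup.mem_zpowers_iff.1 hf
    have h6 : σ ∈ MulAction.stabilizer (S ≃ₐ[k] S) y := hy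
    exact Subgroup.zpow_mem _ h6 n
  have hsup : K₀ ⊔ L ≤ (IntermediateField.lift F').restrictScalars ℚ := by
    refine sup_le ?_ ?_
    · intro x hx
      exact (IntermediateField.mem_lift (⟨x, hle hx⟩ : S)).2 (hmem _ (hK x hx))
    · intro x hx
      exact (IntermediateField.mem_lift (⟨x, (le_sup_right : L ≤ K₀ ⊔ L) hx⟩ : S)).2
        (hmem _ (hL x hx))
  apply hσ1
  ext y
  have h6 : y ∈ F' := (IntermediateField.mem_lift y).1 (hsup y.2)
  rw [hF', IntermediateField.mem_fixedField_iff] at h6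
  rw [h6 σ (Subgroup.mem_zpowers σ)]
  rfl

end JABL

open _root_.Pool.Agent.OT.JABL

/-- Module ABL. -/
theorem t_ABL (l g h : ℕ) (hG : Gen l g h) (A B : ℤ) (T : TorX A B) (hN : NLex A B) (p f : ℕ)
    (hp : p.Prime) (hp5 : 5 ≤ p) (hf : f ≠ 0) (K₀ : IntermediateField ℚ ℂ) (hk : kk A B ≤ K₀)
    (hK : ∀ y ∈ K₀, y ∈ RF (idl (A := A) (B := B) (lvX p f 0)))
    (hcop : ¬ p ∣ Module.finrank (kk A B) (IntermediateField.extendScalars hk)) (r : ℕ)
    (L : IntermediateField ℚ ℂ) (hL : IsLayer l r L) (hk' : kk A B ≤ K₀ ⊔ L) :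
    IsGalois (kk A B) (IntermediateField.extendScalars hk') ∧
    (∀ σ τ : (IntermediateField.extendScalars hk') ≃ₐ[kk A B]
      (IntermediateField.extendScalars hk'), σ * τ = τ * σ) ∧
    ¬ p ∣ Module.finrank (kk A B) (IntermediateField.extendScalars hk') := by
  have hl := JLLV.gen_cases hG
  have hl0 : l ≠ 0 := by rcases hl with rfl | rfl <;> norm_num
  have hlp : Fact l.Prime := ⟨by rcases hl with rfl | rfl <;> norm_num⟩
  have hq : ∀ f', f' ≠ 0 → lvX p f' 0 ≠ 0 := by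
    intro f' hf'
    unfold lvX q0
    split_ifs with h2
    · exact mul_ne_zero (mul_ne_zero hf' (by norm_num)) (pow_ne_zero _ hp.ne_zero)
    · exact mul_ne_zero (mul_ne_zero hf' hp.ne_zero) (pow_ne_zero _ hp.ne_zero)
  obtain ⟨g1, g2, -⟩ := t_GAL A B T _ (JLLV.idl_ne (hq f hf)) K₀ hk hK
  obtain ⟨g3, g4, g5⟩ := t_GAL A B T _
    (JLLV.idl_ne (hq (f * l ^ (r + h)) (mul_ne_zero hf (pow_ne_zero _ hl0)))) (K₀ ⊔ L) hk'
    (t_LLV l g h hG A B T hN p f hp.ne_zero hf K₀ hK r L hL)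
  obtain ⟨h1, h2, -⟩ := LAY_thm l r L hL
  have hdeg : ¬ p ∣ Module.finrank ℚ L := by
    rw [hL.1]
    intro h3
    have h4 := hp.dvd_of_dvd_pow h3
    have h5 := Nat.le_of_dvd (Nat.pos_of_ne_zero hl0) h4
    rcases hl with rfl | rfl <;> omega
  exact ⟨g3, g5, deg hk hk' hp hcop hdeg⟩

end Pool.Agent.OT


end

section

/-!
# OT (Theorem T, problem MP_b78433_nt), FINAL (helper60): the input for the final statement, the final statement

`S_NEW` : the characters of `Gal(K B_(r+1)/k)` which are not trivial on `Gal(K B_(r+1)/K B_r)`, `r ≥ r₀`, `μ_p ⊂ K`; from the result of block J (`NilC`) by `OBF.nil_mu`. `S_NEWK` : the same without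
the hypothesis `μ_p ⊂ K` (for `K(μ_p)` and inflation). The final statement is `FinalT`.
-/

set_option autoImplicit false

open NumberField

namespace Pool.Agent.OTF

open _root_.Pool.Agent.MuCyc

noncomputable section

/-- NEW: the new characters of the fields `K B_(r+1)`, `r` large. -/
def S_NEW : Prop := ∀ (p : ℕ) [Fact p.Prime], 5 ≤ p → ∀ (k K : IntermediateField ℚ ℂ) (h : k ≤ K),
  ImQuad k → Abelian p h → (∃ ζ ∈ K, IsPrimitiveRoot ζ p) → ∀ l : ℕ, l = 2 ∨ l = 3 →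
  ∃ r₀ : ℕ, ∀ r, r₀ ≤ r → ∀ B B' : IntermediateField ℚ ℂ, IsLayer l r B → IsLayer l (r + 1) B' →
    ∀ (h' : k ≤ K ⊔ B') (χ : Chr p h'),
      (∃ s : Gal h', (∀ x : IntermediateField.extendScalars h', (x : ℂ) ∈ K ⊔ B → s x = x) ∧
        χ s ≠ 1) → MuZeroC p h' χ

/-- NEWK: the same for all `K`. Module of helper60. -/
def S_NEWK : Prop := ∀ (p : ℕ) [Fact p.Prime], 5 ≤ p → ∀ (k K : IntermediateField ℚ ℂ)
  (h : k ≤ K), ImQuad k → Abelian p h → ∀ l : ℕ, l = 2 ∨ l = 3 →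
  ∃ r₀ : ℕ, ∀ r, r₀ ≤ r → ∀ B B' : IntermediateField ℚ ℂ, IsLayer l r B → IsLayer l (r + 1) B' →
    ∀ (h' : k ≤ K ⊔ B') (χ : Chr p h'),
      (∃ s : Gal h', (∀ x : IntermediateField.extendScalars h', (x : ℂ) ∈ K ⊔ B → s x = x) ∧
        χ s ≠ 1) → MuZeroC p h' χ

/-- THE FINAL STATEMENT. -/
def FinalT : Prop := ∀ (p : ℕ) [Fact p.Prime], 5 ≤ p → ∀ (k K : IntermediateField ℚ ℂ)
  (h : k ≤ K), ImQuad k → Abelian p h → ∀ l : ℕ, l = 2 ∨ l = 3 →
  ∃ (r₀ : ℕ) (B₀ : IntermediateField ℚ ℂ), IsLayer l r₀ B₀ ∧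
    ∀ (r : ℕ) (B : IntermediateField ℚ ℂ), IsLayer l r B →
      (∀ (hB : k ≤ K ⊔ B) (χ : Chr p hB),
        (∃ s : Gal hB, (∀ x : IntermediateField.extendScalars hB, (x : ℂ) ∈ K ⊔ B₀ → s x = x) ∧
          χ s ≠ 1) → MuZeroC p hB χ) ∧
      ∀ L : IntermediateField ℚ ℂ, k ≤ L → L ≤ K ⊔ B → MuLE p L (L ⊓ (K ⊔ B₀))

end

end Pool.Agent.OTF


end

section

/-!
# TWF: the characters of `Gal(K B_n / k)` are products of characters of `Gal(K / k)` and `Gal(B_n / ℚ)`
-/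

set_option autoImplicit false

open NumberField IsDedekindDomain Finset
open scoped nonZeroDivisors Pointwise

namespace Pool.Agent.TWF

open Pool.Agent.MU3 Pool.Agent.RI Pool.Agent.RID

/-- The abelian group `Gal(K/k)`. -/
theorem comm_algC {k K : IntermediateField ℚ ℂ} (h : k ≤ K)
    (hab : ∀ σ τ : (IntermediateField.extendScalars h) ≃ₐ[k] (IntermediateField.extendScalars h),
      σ * τ = τ * σ) : letI := algC h
    ∀ a b : K ≃ₐ[k] K, a * b = b * a := by
  letI := algC h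
  intro a b
  have h1 := hab ((extEquiv h).symm.autCongr a) ((extEquiv h).symm.autCongr b)
  rw [← map_mul, ← map_mul] at h1
  exact (extEquiv h).symm.autCongr.injective h1

/-- An automorphism of `K B / k` which is trivial on `K` and on `B` is trivial. -/
theorem eq_one_of {k K B : IntermediateField ℚ ℂ} (h : k ≤ K ⊔ B) :
    letI := algC h
    ∀ τ : ↥(K ⊔ B) ≃ₐ[k] ↥(K ⊔ B),
      (∀ x : ↥(K ⊔ B), (x : ℂ) ∈ K → τ x = x) →
      (∀ x : ↥(K ⊔ B), (x : ℂ) ∈ B → τ x = x) → τ = 1 := by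
  letI := algC h
  intro τ h1 h2
  have hQ : ∀ (r : ℚ), τ (r : ↥(K ⊔ B)) = r := fun r => map_ratCast τ r
  let T : IntermediateField ℚ ℂ :=
    { carrier := {z | ∃ hz : z ∈ K ⊔ B, τ ⟨z, hz⟩ = ⟨z, hz⟩}
      mul_mem' := by
        rintro a b ⟨ha, ha'⟩ ⟨hb, hb'⟩
        refine ⟨mul_mem ha hb, ?_⟩
        have e : (⟨a * b, mul_mem ha hb⟩ : ↥(K ⊔ B)) = ⟨a, ha⟩ * ⟨b, hb⟩ := rfl
        rw [e, map_mul, ha', hb']
      add_mem' := by
        rintro a b ⟨ha, ha'⟩ ⟨hb, hb'⟩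
        refine ⟨add_mem ha hb, ?_⟩
        have e : (⟨a + b, add_mem ha hb⟩ : ↥(K ⊔ B)) = ⟨a, ha⟩ + ⟨b, hb⟩ := rfl
        rw [e, map_add, ha', hb']
      algebraMap_mem' := by
        intro r
        refine ⟨algebraMap_mem _ r, ?_⟩
        have e : (⟨algebraMap ℚ ℂ r, algebraMap_mem _ r⟩ : ↥(K ⊔ B)) = (r : ↥(K ⊔ B)) := by
          apply Subtype.ext
          simp
        rw [e, hQ]
      inv_mem' := by
        rintro a ⟨ha, ha'⟩
        refine ⟨inv_mem ha, ?_⟩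
        have e : (⟨a⁻¹, inv_mem ha⟩ : ↥(K ⊔ B)) = (⟨a, ha⟩)⁻¹ := rfl
        rw [e, map_inv₀, ha'] }
  have hT : K ⊔ B ≤ T := by
    apply sup_le
    · intro a ha
      exact ⟨(le_sup_left : K ≤ K ⊔ B) ha, h1 _ ha⟩
    · intro b hb
      exact ⟨(le_sup_right : B ≤ K ⊔ B) hb, h2 _ hb⟩
  ext x
  obtain ⟨hz, hx⟩ := hT x.2
  exact congrArg Subtype.val hx

/-- Restrictions of the automorphisms of `K B_n / k`, factorization of the characters. -/
theorem chr_split (l : ℕ) [Fact l.Prime] (k K : IntermediateField ℚ ℂ)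
    (B : ℕ → IntermediateField ℚ ℂ) [FiniteDimensional ℚ K]
    [∀ n, FiniteDimensional ℚ ↥(K ⊔ B n)] (hB : Twr l k K B) (n : ℕ) (h : k ≤ K ⊔ B n) :
    letI := algC h
    letI := algC hB.hk
    ∃ (r₁ : (↥(K ⊔ B n) ≃ₐ[k] ↥(K ⊔ B n)) →* (↥K ≃ₐ[k] ↥K))
      (r₂ : (↥(K ⊔ B n) ≃ₐ[k] ↥(K ⊔ B n)) →* (↥(B n) ≃ₐ[ℚ] ↥(B n))),
      (∀ (τ : ↥(K ⊔ B n) ≃ₐ[k] ↥(K ⊔ B n)) (x : K) (x' : ↥(K ⊔ B n)), (x' : ℂ) = x →
        ((τ x' : ↥(K ⊔ B n)) : ℂ) = (r₁ τ x : K)) ∧
      (∀ (τ : ↥(K ⊔ B n) ≃ₐ[k] ↥(K ⊔ B n)) (x : ↥(B n)) (x' : ↥(K ⊔ B n)), (x' : ℂ) = x →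
        ((τ x' : ↥(K ⊔ B n)) : ℂ) = (r₂ τ x : ↥(B n))) ∧
      ∀ X : (↥(K ⊔ B n) ≃ₐ[k] ↥(K ⊔ B n)) →* ℂˣ, ∃ (X₁ : (↥K ≃ₐ[k] ↥K) →* ℂˣ)
        (X₂ : (↥(B n) ≃ₐ[ℚ] ↥(B n)) →* ℂˣ), ∀ τ, X τ = X₁ (r₁ τ) * X₂ (r₂ τ) := by
  letI aL : Algebra k ↥(K ⊔ B n) := algC h
  letI aK : Algebra k K := algC hB.hk
  letI aKL : Algebra K ↥(K ⊔ B n) := algC le_sup_left
  letI aBL : Algebra (B n) ↥(K ⊔ B n) := algC le_sup_right
  obtain ⟨fdB, hGB, -⟩ := LAY_thm l n (B n) (hB.lay n)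
  have hcyc : IsCyclic (B n ≃ₐ[ℚ] B n) := t_LAYC l n (B n) (hB.lay n)
  have fdk : FiniteDimensional ℚ k := FiniteDimensional.of_injective
    (IntermediateField.inclusion hB.hk).toLinearMap
    (IntermediateField.inclusion hB.hk).toRingHom.injective
  haveI : IsScalarTower k K ↥(K ⊔ B n) := towerC hB.hk le_sup_left
  haveI : IsGalois k K := (isGalois_algC hB.hk).2 hB.gal
  haveI : IsScalarTower ℚ (B n) ↥(K ⊔ B n) := IsScalarTower.of_algebraMap_eq (fun _ => rfl)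
  haveI : IsScalarTower ℚ k ↥(K ⊔ B n) := IsScalarTower.of_algebraMap_eq (fun _ => rfl)
  have hfK : FiniteDimensional k K := Module.Finite.of_restrictScalars_finite ℚ k K
  have habB : ∀ a b : B n ≃ₐ[ℚ] B n, a * b = b * a := by
    intro a b
    obtain ⟨g, hg⟩ := hcyc.exists_generator
    obtain ⟨i, rfl⟩ := hg a
    obtain ⟨j, rfl⟩ := hg b
    exact zpow_mul_comm g i j
  let r₁ : (↥(K ⊔ B n) ≃ₐ[k] ↥(K ⊔ B n)) →* (↥K ≃ₐ[k] ↥K) := AlgEquiv.restrictNormalHom K
  let r₂ : (↥(K ⊔ B n) ≃ₐ[k] ↥(K ⊔ B n)) →* (↥(B n) ≃ₐ[ℚ] ↥(B n)) :=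
    { toFun := fun τ => (τ.restrictScalars ℚ).restrictNormal (B n)
      map_one' := by
        ext x
        apply congrArg Subtype.val
        apply (algebraMap (B n) ↥(K ⊔ B n)).injective
        rw [AlgEquiv.restrictNormal_commutes]
        rfl
      map_mul' := fun σ τ => by
        ext x
        apply congrArg Subtype.val
        apply (algebraMap (B n) ↥(K ⊔ B n)).injective
        rw [AlgEquiv.restrictNormal_commutes, AlgEquiv.mul_apply, AlgEquiv.restrictNormal_commutes,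
          AlgEquiv.restrictNormal_commutes]
        rfl }
  have p1 : ∀ (τ : ↥(K ⊔ B n) ≃ₐ[k] ↥(K ⊔ B n)) (x : K) (x' : ↥(K ⊔ B n)), (x' : ℂ) = x →
      ((τ x' : ↥(K ⊔ B n)) : ℂ) = (r₁ τ x : K) := by
    intro τ x x' hx
    have h1 : algebraMap K ↥(K ⊔ B n) (r₁ τ x) = τ (algebraMap K ↥(K ⊔ B n) x) :=
      AlgEquiv.restrictNormal_commutes τ K x
    have h2 : algebraMap K ↥(K ⊔ B n) x = x' := Subtype.ext hx.symm
    rw [h2] at h1
    rw [← h1]
    rfl
  have p2 : ∀ (τ : ↥(K ⊔ B n) ≃ₐ[k] ↥(K ⊔ B n)) (x : ↥(B n)) (x' : ↥(K ⊔ B n)), (x' : ℂ) = x →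
      ((τ x' : ↥(K ⊔ B n)) : ℂ) = (r₂ τ x : ↥(B n)) := by
    intro τ x x' hx
    have h1 : algebraMap (B n) ↥(K ⊔ B n) (r₂ τ x) = τ (algebraMap (B n) ↥(K ⊔ B n) x) :=
      AlgEquiv.restrictNormal_commutes (τ.restrictScalars ℚ) (B n) x
    have h2 : algebraMap (B n) ↥(K ⊔ B n) x = x' := Subtype.ext hx.symm
    rw [h2] at h1
    rw [← h1]
    rfl
  refine ⟨r₁, r₂, p1, p2, fun X => ?_⟩
  refine factor (comm_algC hB.hk hB.ab) habB r₁ r₂ ?_ X
  intro g h1 h2
  refine eq_one_of h g ?_ ?_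
  · intro x hx
    have h3 := p1 g ⟨(x : ℂ), hx⟩ x rfl
    rw [h1] at h3
    exact Subtype.ext h3
  · intro x hx
    have h3 := p2 g ⟨(x : ℂ), hx⟩ x rfl
    rw [h2] at h3
    exact Subtype.ext h3

end Pool.Agent.TWF


end

section

/-!
# OT, FINAL (helper60): field theory for the final statement

`ab_sup`: the composite of `K` and a layer for `l` is abelian over `k`. `exists_res`, `factor`: restriction and factorisation of characters. `two_fields`: a character which is trivial on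
`Gal(M/A)` and on `Gal(M/C)` is trivial on `Gal(M/A ∩ C)`.
-/

set_option autoImplicit false

open NumberField

namespace Pool.Agent.OTF

open _root_.Pool.Agent.MuCyc Pool.Agent.OBF

theorem prime_l {l : ℕ} (hl : l = 2 ∨ l = 3) : l.Prime := by
  rcases hl with rfl | rfl <;> norm_num

theorem lay_fin {l r : ℕ} (hl : l = 2 ∨ l = 3) {B : IntermediateField ℚ ℂ} (hB : IsLayer l r B) :
    FiniteDimensional ℚ B :=
  Module.finite_of_finrank_pos (by rw [hB.1]; exact pow_pos (prime_l hl).pos r)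

theorem nrm_lay {l r : ℕ} (hl : l = 2 ∨ l = 3) {B : IntermediateField ℚ ℂ} (hB : IsLayer l r B)
    (k : IntermediateField ℚ ℂ) : VB.Nrm k B := by
  have : Fact l.Prime := ⟨prime_l hl⟩
  obtain ⟨h1, h2, -⟩ := RI.LAY_thm l r B hB
  have h4 : Normal ℚ B := h2.to_normal
  intro σ _ x hx
  let σ' : ℂ →ₐ[ℚ] ℂ := { (σ : ℂ →+* ℂ) with commutes' := fun q => by simp }
  have h5 := @RI.LAY.mem_of_normal ℚ ℂ _ _ _ B h4
  exact h5 (σ'.comp B.val) ⟨x, hx⟩

theorem cmt_lay {l r : ℕ} (hl : l = 2 ∨ l = 3) {B : IntermediateField ℚ ℂ} (hB : IsLayer l r B)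
    (k : IntermediateField ℚ ℂ) : VB.Cmt k B := by
  obtain ⟨-, -, m, hm⟩ := hB
  have h1 : VB.Cmt k (IntermediateField.adjoin ℚ {z : ℂ | z ^ (l ^ m) = 1}) := by
    apply VB.cmt_adj
    intro σ τ x hx
    have hpos : 0 < l ^ m := pow_pos (prime_l hl).pos m
    obtain ⟨n, hn⟩ : ∃ n, orderOf x = n := ⟨_, rfl⟩
    have hn0 : 0 < n := by
      rw [← hn]
      exact orderOf_pos_iff.2 (isOfFinOrder_iff_pow_eq_one.2 ⟨l ^ m, hpos, hx⟩)
    exact VB.zeta_cmt n σ τ x (by rw [← hn]; exact IsPrimitiveRoot.orderOf x) hn0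
  exact fun σ τ hσ hτ x hx => h1 σ τ hσ hτ x (hm hx)

/-- The composite with a layer is abelian over `k`, of degree prime to `p`. -/
theorem ab_sup (p : ℕ) [Fact p.Prime] (hp : 5 ≤ p) {k K B : IntermediateField ℚ ℂ} (h : k ≤ K)
    (hK : Abelian p h) {l r : ℕ} (hl : l = 2 ∨ l = 3) (hB : IsLayer l r B) (h' : k ≤ K ⊔ B) :
    Abelian p h' := by
  have hpp : p.Prime := Fact.out
  have hfK := hK.fin
  have hfB := lay_fin hl hB
  have hfKB : FiniteDimensional ℚ ↥(K ⊔ B) := IntermediateField.finiteDimensional_sup K B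
  have h1 : VB.AbE k K := ⟨h, hK.gal, hK.comm⟩
  obtain ⟨hN, hC⟩ := (VB.abE_iff VB.tb_NRM h inferInstance).1 h1
  have h2 : VB.AbE k (K ⊔ B) := by
    rw [VB.abE_iff VB.tb_NRM h' inferInstance]
    exact ⟨VB.nrm_sup hN (nrm_lay hl hB k), VB.cmt_sup hC (cmt_lay hl hB k)⟩
  obtain ⟨h3, hG, hc⟩ := h2
  refine ⟨hfKB, hG, hc, ?_⟩
  have : Fact l.Prime := ⟨prime_l hl⟩
  obtain ⟨-, hgB, -⟩ := RI.LAY_thm l r B hB
  have := hgB
  have := hK.gal
  have := hG
  have hfk : FiniteDimensional ℚ k :=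
    FiniteDimensional.of_injective (IntermediateField.inclusion h).toLinearMap
      (IntermediateField.inclusion h).injective
  have f1 : FiniteDimensional k (IntermediateField.extendScalars h) := by
    have h1 : FiniteDimensional ℚ (IntermediateField.extendScalars h) :=
      inferInstanceAs (FiniteDimensional ℚ K)
    exact Module.Finite.of_restrictScalars_finite ℚ k _
  have f2 : FiniteDimensional k (IntermediateField.extendScalars h') := by
    have h1 : FiniteDimensional ℚ (IntermediateField.extendScalars h') :=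
      inferInstanceAs (FiniteDimensional ℚ ↥(K ⊔ B))
    exact Module.Finite.of_restrictScalars_finite ℚ k _
  refine OT.JABL.deg h h' hpp hK.prime_to ?_
  rw [hB.1]
  intro h4
  have h5 := hpp.dvd_of_dvd_pow h4
  rw [Nat.prime_dvd_prime_iff_eq hpp (prime_l hl)] at h5
  omega

theorem mul_deg {E F : IntermediateField ℚ ℂ} (hEF : E ≤ F) [FiniteDimensional ℚ F] :
    Module.finrank ℚ E * Module.finrank E (IntermediateField.extendScalars hEF) =
      Module.finrank ℚ F := by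
  let _ := RI.algC hEF
  have : FiniteDimensional ℚ E :=
    FiniteDimensional.of_injective (IntermediateField.inclusion hEF).toLinearMap
      (IntermediateField.inclusion hEF).injective
  have : IsScalarTower ℚ E F := IsScalarTower.of_algebraMap_eq fun _ => rfl
  rw [← RI.finrank_algC hEF]
  exact Module.finrank_mul_finrank ℚ E F

theorem deg_Q (p : ℕ) [Fact p.Prime] (hp : 5 ≤ p) {k K : IntermediateField ℚ ℂ} (h : k ≤ K)
    (hk : ImQuad k) (hK : Abelian p h) : ¬ p ∣ Module.finrank ℚ K := by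
  have hpp : p.Prime := Fact.out
  have := hK.fin
  rw [← mul_deg h, hk.deg, hpp.dvd_mul, not_or]
  refine ⟨fun h0 => ?_, hK.prime_to⟩
  have := Nat.le_of_dvd (by norm_num) h0
  omega

/-- Restriction of automorphisms. -/
theorem exists_res {k L K : IntermediateField ℚ ℂ} [FiniteDimensional ℚ K] (hL : k ≤ L)
    (hLK : L ≤ K) (hK : k ≤ K) (hG : IsGalois k (IntermediateField.extendScalars hL))
    (hGK : IsGalois k (IntermediateField.extendScalars hK)) :
    ∃ res : Gal hK →* Gal hL, Function.Surjective res ∧ ∀ (s : Gal hK)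
      (x : IntermediateField.extendScalars hL) (x' : IntermediateField.extendScalars hK),
      (x' : ℂ) = x → ((s x' : IntermediateField.extendScalars hK) : ℂ) =
        (res s x : IntermediateField.extendScalars hL) := by
  have hE : IntermediateField.extendScalars hL ≤ IntermediateField.extendScalars hK :=
    fun x hx => hLK hx
  let L₀ : IntermediateField k (IntermediateField.extendScalars hK) :=
    IntermediateField.restrict hE
  let e : IntermediateField.extendScalars hL ≃ₐ[k] L₀ := IntermediateField.restrictAlgEquiv hE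
  have hg₀ : IsGalois k L₀ := IsGalois.of_algEquiv e
  refine ⟨((AlgEquiv.autCongr e.symm).toMonoidHom).comp
    (AlgEquiv.restrictNormalHom (F := k) (K₁ := IntermediateField.extendScalars hK) L₀), ?_, ?_⟩
  · exact (AlgEquiv.autCongr e.symm).surjective.comp (AlgEquiv.restrictNormalHom_surjective _)
  intro s x x' hx
  have h3 := AlgEquiv.restrictNormal_commutes s L₀ (e x)
  have h4 : (algebraMap L₀ (IntermediateField.extendScalars hK)) (e x) = x' := by
    apply Subtype.ext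
    rw [hx]
    rfl
  rw [h4] at h3
  rw [← h3]
  show _ = ((e.symm ((AlgEquiv.restrictNormal s L₀) (e x)) : IntermediateField.extendScalars hL) :
    ℂ)
  have h5 : ∀ y : L₀, ((e.symm y : IntermediateField.extendScalars hL) : ℂ) =
      ((algebraMap L₀ (IntermediateField.extendScalars hK)) y :
        IntermediateField.extendScalars hK) := by
    intro y
    obtain ⟨z, rfl⟩ := e.surjective y
    rw [e.symm_apply_apply]
    rfl
  rw [h5]

theorem res_unique {k L K : IntermediateField ℚ ℂ} {hL : k ≤ L} (hLK : L ≤ K) {hK : k ≤ K}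
    {res : Gal hK →* Gal hL} (hres : ∀ (s : Gal hK)
      (x : IntermediateField.extendScalars hL) (x' : IntermediateField.extendScalars hK),
      (x' : ℂ) = x → ((s x' : IntermediateField.extendScalars hK) : ℂ) =
        (res s x : IntermediateField.extendScalars hL)) (s : Gal hL) (s' : Gal hK)
    (h : ∀ (x : IntermediateField.extendScalars hL) (x' : IntermediateField.extendScalars hK),
      (x' : ℂ) = x → ((s' x' : IntermediateField.extendScalars hK) : ℂ) =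
        (s x : IntermediateField.extendScalars hL)) : res s' = s := by
  apply AlgEquiv.ext
  intro x
  apply Subtype.ext
  rw [← hres s' x ⟨x, hLK x.2⟩ rfl, h x ⟨x, hLK x.2⟩ rfl]

/-- A character which is trivial on `Gal(K/L)` comes from `Gal(L/k)`. -/
theorem factor (p : ℕ) [Fact p.Prime] {k L K : IntermediateField ℚ ℂ} [FiniteDimensional ℚ K]
    (hL : k ≤ L) (hLK : L ≤ K) (hK : k ≤ K)
    (hG : IsGalois k (IntermediateField.extendScalars hL))
    (hGK : IsGalois k (IntermediateField.extendScalars hK)) (χ : Chr p hK)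
    (hχ : ∀ s : Gal hK, (∀ x : IntermediateField.extendScalars hK, (x : ℂ) ∈ L → s x = x) →
      χ s = 1) :
    ∃ χ₁ : Chr p hL, ∀ (s : Gal hL) (s' : Gal hK),
      (∀ (x : IntermediateField.extendScalars hL) (x' : IntermediateField.extendScalars hK),
        (x' : ℂ) = x → ((s' x' : IntermediateField.extendScalars hK) : ℂ) =
          (s x : IntermediateField.extendScalars hL)) → χ s' = χ₁ s := by
  obtain ⟨res, hsur, hres⟩ := exists_res hL hLK hK hG hGK
  have hker : res.ker ≤ χ.ker := by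
    intro s hs
    rw [MonoidHom.mem_ker] at hs ⊢
    apply hχ
    intro x hx
    apply Subtype.ext
    rw [hres s ⟨x, hx⟩ x rfl, hs]
    rfl
  refine ⟨res.liftOfRightInverse (Function.surjInv hsur) (Function.rightInverse_surjInv hsur)
    ⟨χ, hker⟩, ?_⟩
  intro s s' h
  rw [← res_unique hLK hres s s' h]
  exact (MonoidHom.liftOfRightInverse_comp_apply res (Function.surjInv hsur)
    (Function.rightInverse_surjInv hsur) ⟨χ, hker⟩ s').symm

/-- Galois theory: a homomorphism which is trivial on `Gal(M/A)` and on `Gal(M/C)` is trivial on `Gal(M/A ∩ C)`. -/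
theorem two_fields {k A C M : IntermediateField ℚ ℂ} [FiniteDimensional ℚ M] (hA : k ≤ A)
    (hC : k ≤ C) (hAM : A ≤ M) (hCM : C ≤ M) (hM : k ≤ M)
    (hGM : IsGalois k (IntermediateField.extendScalars hM)) {X : Type} [Group X]
    (χ : Gal hM →* X)
    (h1 : ∀ s : Gal hM, (∀ x : IntermediateField.extendScalars hM, (x : ℂ) ∈ A → s x = x) →
      χ s = 1)
    (h2 : ∀ s : Gal hM, (∀ x : IntermediateField.extendScalars hM, (x : ℂ) ∈ C → s x = x) →
      χ s = 1)
    (s : Gal hM) (hs : ∀ x : IntermediateField.extendScalars hM, (x : ℂ) ∈ A ⊓ C → s x = x) :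
    χ s = 1 := by
  have fdk : FiniteDimensional k (IntermediateField.extendScalars hM) := by
    have h1 : FiniteDimensional ℚ (IntermediateField.extendScalars hM) :=
      inferInstanceAs (FiniteDimensional ℚ M)
    exact Module.Finite.of_restrictScalars_finite ℚ k _
  have key : ∀ (D : IntermediateField ℚ ℂ) (hD : k ≤ D) (_ : D ≤ M)
      (_ : ∀ s : Gal hM, (∀ x : IntermediateField.extendScalars hM, (x : ℂ) ∈ D → s x = x) →
        χ s = 1), ∀ x ∈ IntermediateField.fixedField χ.ker, ((x :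
          IntermediateField.extendScalars hM) : ℂ) ∈ D := by
    intro D hD hDM hχ x hx
    have hE : IntermediateField.extendScalars hD ≤ IntermediateField.extendScalars hM :=
      fun x hx => hDM hx
    have h3 : (IntermediateField.restrict hE).fixingSubgroup ≤ χ.ker := by
      intro s hs
      rw [MonoidHom.mem_ker]
      apply hχ
      intro y hy
      exact (IntermediateField.mem_fixingSubgroup_iff _ _).1 hs y
        ((IntermediateField.mem_restrict hE y).2 hy)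
    have h4 : IntermediateField.fixedField χ.ker ≤ IntermediateField.restrict hE := by
      have h5 := IntermediateField.fixedField_antitone h3
      rwa [IsGalois.fixedField_fixingSubgroup] at h5
    exact (IntermediateField.mem_restrict hE x).1 (h4 hx)
  rw [← MonoidHom.mem_ker, ← IntermediateField.fixingSubgroup_fixedField χ.ker,
    IntermediateField.mem_fixingSubgroup_iff]
  intro x hx
  exact hs x ⟨key A hA hAM h1 x hx, key C hC hCM h2 x hx⟩

end Pool.Agent.OTF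


end

section

/-!
# OT, modules LVT and E0L (helper84); model: `TWF/FACT.lean`, `TWQ/FACQ.lean` (helper51)
-/

set_option autoImplicit false

open NumberField IsDedekindDomain Finset
open scoped nonZeroDivisors Pointwise

namespace Pool.Agent.OT

open _root_.MU3 Pool.Agent.MU3 Pool.Agent.MU3A Pool.Agent.MU3B Pool.Agent.RI Pool.Agent.RID
  Pool.Agent.MUX Pool.Agent.MUXK Pool.Agent.MUXI Pool.Agent.NS Pool.Agent.NSI Pool.Agent.OB
  Pool.Agent.OBI
open Pool.Agent.MU3I (zt)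
open Pool.Agent.TWF (Twr lvl cyc chr_split gal_ab)

theorem gen_ls {l g h : ℕ} (hGen : Pool.Agent.TWR.Gen l g h) :
    (l = 3 ∧ h = 1) ∨ (l = 2 ∧ h = 2) := by
  rcases hGen with ⟨h1, -, h2⟩ | ⟨h1, -, h2⟩
  · exact Or.inl ⟨h1, h2⟩
  · exact Or.inr ⟨h1, h2⟩

/-- LVT -/
theorem t_LVT (hLAY : Si_LAY) (hIAF : Si_IAF) : S_LVT := by
  intro l g h hGen p er A B P V f hS T hNL K hK m Bm hB
  have hp2 : p ≠ 2 := by have := hS.p5; omega
  have h1 := lvl hLAY hIAF l h (gen_ls hGen) A B hS.cq T hNL (lvX p f 0)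
    (by
      rw [lvX_odd hp2]
      exact Nat.mul_ne_zero hS.f0 (pow_ne_zero _ hS.pp.ne_zero)) K hK m Bm hB
  have h2 : lvX p f 0 * l ^ (m + h) = lvX p (f * l ^ (m + h)) 0 := by
    rw [lvX_odd hp2, lvX_odd hp2]
    ring
  rw [h2] at h1
  exact h1

namespace E0Lx

theorem natCast_ne {A B : ℤ} (hc : CQ A B) {n : ℕ} (h : n ≠ 0) : ((n : ℕ) : OO A B) ≠ 0 :=
  natCast_ne_zero' hc h

/-- the characters of a finite group with values in the `r`-th roots of unity -/
theorem fin_chr {G : Type} [Group G] [Finite G] (r : ℕ) (hr : r ≠ 0) :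
    Finite {X : G →* ℂˣ // ∀ g, X g ^ r = 1} := by
  have : NeZero r := ⟨hr⟩
  have h1 : Finite (G → rootsOfUnity r ℂ) := inferInstance
  refine Finite.of_injective
    (fun (X : {X : G →* ℂˣ // ∀ g, X g ^ r = 1}) (g : G) => (⟨X.1 g, X.2 g⟩ : rootsOfUnity r ℂ)) ?_
  intro X Y hXY
  apply Subtype.ext
  ext g
  have h2 := congrArg Subtype.val (congrFun hXY g)
  exact congrArg Units.val h2

/-- correction of the first factor to order prime to `p` -/
theorem fix_ord {G G₁ G₂ : Type} [Group G] [Group G₁] [Group G₂] [Finite G₁] (p a r t s : ℕ)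
    (hp : p.Prime) (hc : Nat.card G₁ = p ^ a * r) (r₁ : G →* G₁) (r₂ : G →* G₂)
    (X : G →* ℂˣ) (X₁ : G₁ →* ℂˣ) (X₂ : G₂ →* ℂˣ) (hX : ∀ g, X g = X₁ (r₁ g) * X₂ (r₂ g))
    (ht : ¬ p ∣ t) (hXt : ∀ g, X g ^ t = 1) (hs : ¬ p ∣ s) (hXs : ∀ g, X₂ g ^ s = 1) :
    ∃ Y : G₁ →* ℂˣ, (∀ g, Y g ^ r = 1) ∧ ∀ g, X g = Y (r₁ g) * X₂ (r₂ g) := by
  have hcop : Nat.Coprime (p ^ a) (t * s) := by
    refine Nat.Coprime.pow_left _ ?_
    rw [Nat.Prime.coprime_iff_not_dvd hp]
    intro h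
    rcases (Nat.Prime.dvd_mul hp).1 h with h | h
    · exact ht h
    · exact hs h
  obtain ⟨e, he1, he2⟩ := Nat.chineseRemainder hcop 0 1
  have he1' : p ^ a ∣ e := (Nat.modEq_zero_iff_dvd).1 he1
  obtain ⟨e', rfl⟩ := he1'
  refine ⟨(powMonoidHom (p ^ a * e')).comp X₁, ?_, ?_⟩
  · intro g
    show (X₁ g ^ (p ^ a * e')) ^ r = 1
    have h1 : X₁ g ^ (p ^ a * r) = 1 := by
      rw [← hc, ← map_pow, pow_card_eq_one', map_one]
    calc (X₁ g ^ (p ^ a * e')) ^ r = (X₁ g ^ (p ^ a * r)) ^ e' := by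
          rw [← pow_mul, ← pow_mul]
          congr 1
          ring
      _ = 1 := by rw [h1, one_pow]
  · intro g
    show X g = X₁ (r₁ g) ^ (p ^ a * e') * X₂ (r₂ g)
    have h1 : X₁ (r₁ g) = X g * (X₂ (r₂ g))⁻¹ := by
      rw [hX g, mul_inv_cancel_right]
    have h2 : (X g * (X₂ (r₂ g))⁻¹) ^ (t * s) = 1 := by
      rw [mul_pow, pow_mul, hXt, one_pow, one_mul, inv_pow, mul_comm t s, pow_mul, hXs, one_pow,
        inv_one]
    have h3 : (X g * (X₂ (r₂ g))⁻¹) ^ (p ^ a * e') = X g * (X₂ (r₂ g))⁻¹ := by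
      have h4 : (X g * (X₂ (r₂ g))⁻¹) ^ (p ^ a * e') = (X g * (X₂ (r₂ g))⁻¹) ^ 1 := by
        rw [pow_eq_pow_iff_modEq]
        exact he2.of_dvd (orderOf_dvd_of_pow_eq_one h2)
      rw [h4, pow_one]
    rw [h1, h3, inv_mul_cancel_right]

end E0Lx

open _root_.Pool.Agent.OT.E0Lx in
/-- E0L -/
theorem t_E0L (hARF : Si_ARF) (hIAF : Si_IAF) (hLAY : Si_LAY)
    (hNIM : Pool.Agent.MUXF.Sx_NIM) (hGAL : Pool.Agent.MUXJ.Sj_GAL) : S_E0L := by
  classical
  intro l g s hGen p er A B P V f hS hlf T ι _ R K _ hK hSub Bl hlay hmono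
  have hc : CQ A B := hS.cq
  have hpp : p.Prime := hS.pp
  have hp2 : p ≠ 2 := by have := hS.p5; omega
  have hls := gen_ls hGen
  have hlp : l.Prime := by
    rcases hls with ⟨rfl, -⟩ | ⟨rfl, -⟩
    · exact Nat.prime_three
    · exact Nat.prime_two
  have : Fact l.Prime := ⟨hlp⟩
  have hs1 : 1 ≤ s := by rcases hls with ⟨-, h⟩ | ⟨-, h⟩ <;> omega
  have hlf1 : l ∣ f := (dvd_pow_self l (by omega)).trans hlf
  have hpl : ¬ p ∣ l := by
    intro h
    exact hS.fp (h.trans hlf1)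
  have hlv : ∀ f' : ℕ, lvX p f' 0 = f' * p := fun f' => by
    rw [lvX_odd hp2, zero_add, pow_one]
  have hfm : (idl (lvX p f 0) : Ideal (OO A B)) ≠ ⊥ := by
    rw [Ne, Ideal.span_singleton_eq_bot, hlv]
    exact natCast_ne_zero' hc (mul_ne_zero hS.f0 hpp.ne_zero)
  have fdk : FiniteDimensional ℚ (kk A B) := FiniteDimensional.of_injective
    (IntermediateField.inclusion hK).toLinearMap
    (IntermediateField.inclusion hK).toRingHom.injective
  obtain ⟨gK, -, cK⟩ := hGAL A B T (idl (lvX p f 0)) hfm K hK hSub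
  have hB : Twr l (kk A B) K Bl := ⟨hK, gK, cK, hlay, hmono⟩
  let aK : Algebra (kk A B) K := algC hK
  have galK : IsGalois (kk A B) K := (isGalois_algC hK).2 gK
  have tK : IsScalarTower ℚ (kk A B) K := IsScalarTower.of_algebraMap_eq (fun _ => rfl)
  have fdK : FiniteDimensional (kk A B) K := Module.Finite.of_restrictScalars_finite ℚ (kk A B) K
  have hfB : ∀ n, FiniteDimensional ℚ (Bl n) := fun n => (LAY_thm l n (Bl n) (hlay n)).1
  have hfL : ∀ n, FiniteDimensional ℚ ↥(K ⊔ Bl n) := fun n =>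
    IntermediateField.finiteDimensional_sup K (Bl n)
  have hc0 : Nat.card (K ≃ₐ[kk A B] K) ≠ 0 := Nat.card_pos.ne'
  obtain ⟨a, r, hr, hcr⟩ := Nat.exists_eq_pow_mul_and_not_dvd hc0 p hpp.ne_one
  have hr0 : r ≠ 0 := by
    rintro rfl
    exact hr (dvd_zero p)
  have hcopf : ∀ i, (nI (R.b i)).Coprime f := fun i => (R.cop i).coprime_mul_left_right
  have hcopp : ∀ i, (nI (R.b i)).Coprime p := fun i => (R.cop i).coprime_mul_right_right
  -- the characters of `Gal(K/k)`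
  have hE := fun (j : {X : (K ≃ₐ[kk A B] K) →* ℂˣ // ∀ g, X g ^ r = 1}) =>
    oi_E0 hARF hNIM p A B f (setQ_O hS) T ι R K hK hSub galK j.1 r j.2
  choose e0 kp e1 e2 e3 e4 e5 e6 e7 e8 using hE
  refine ⟨{X : (K ≃ₐ[kk A B] K) →* ℂˣ // ∀ g, X g ^ r = 1}, fin_chr r hr0, r, e0, kp, hr,
    fun j => ⟨e1 j, e2 j, e3 j, e4 j, e5 j, e6 j, e7 j⟩, ?_⟩
  intro n hn
  let aL : Algebra (kk A B) ↥(K ⊔ Bl (n + 1)) := algC hn
  intro X t ht hXt hg₀
  obtain ⟨g₀, hg1, hg2⟩ := hg₀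
  obtain ⟨galL, comL⟩ := gal_ab l (kk A B) K Bl hB (n + 1) hn
  have tL : IsScalarTower ℚ (kk A B) ↥(K ⊔ Bl (n + 1)) :=
    IsScalarTower.of_algebraMap_eq (fun _ => rfl)
  have fdL : FiniteDimensional (kk A B) ↥(K ⊔ Bl (n + 1)) :=
    Module.Finite.of_restrictScalars_finite ℚ (kk A B) _
  obtain ⟨r₁, r₂, hr1, hr2, hsplit⟩ := chr_split l (kk A B) K Bl hB (n + 1) hn
  obtain ⟨X₁, X₂, hX12⟩ := hsplit X
  have hX2 : ∀ g : Bl (n + 1) ≃ₐ[ℚ] Bl (n + 1), X₂ g ^ (l ^ (n + 1)) = 1 := by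
    intro g
    have hGB : IsGalois ℚ (Bl (n + 1)) := (LAY_thm l (n + 1) (Bl (n + 1)) (hlay (n + 1))).2.1
    have h1 : Nat.card (Bl (n + 1) ≃ₐ[ℚ] Bl (n + 1)) = l ^ (n + 1) := by
      rw [IsGalois.card_aut_eq_finrank, (hlay (n + 1)).1]
    rw [← h1, ← map_pow, pow_card_eq_one', map_one]
  have hpl' : ¬ p ∣ l ^ (n + 1) := fun h => hpl (hpp.dvd_of_dvd_pow h)
  obtain ⟨Y, hYr, hXY⟩ := fix_ord p a r t (l ^ (n + 1)) hpp hcr r₁ r₂ X X₁ X₂ hX12 ht hXt
    hpl' hX2
  obtain ⟨ψ, hψ1, hψ2, hψ3⟩ := cyc hLAY l s n hls (Bl n) (Bl (n + 1)) (hlay n) (hlay (n + 1))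
    (hmono (Nat.le_succ n)) X₂
  refine ⟨⟨Y, hYr⟩, ψ, hψ1, hψ2 ?_, ?_⟩
  · -- the ramified part
    refine ⟨r₂ g₀, ?_, ?_⟩
    · intro x hx
      have h1 := hr2 g₀ x ⟨(x : ℂ), (le_sup_right : Bl (n + 1) ≤ K ⊔ Bl (n + 1)) x.2⟩ rfl
      have h2 := hg1 ⟨(x : ℂ), (le_sup_right : Bl (n + 1) ≤ K ⊔ Bl (n + 1)) x.2⟩
        ((le_sup_right : Bl n ≤ K ⊔ Bl n) hx)
      rw [h2] at h1
      exact Subtype.ext h1.symm
    · intro h1
      have h2 : r₁ g₀ = 1 := by
        ext x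
        have h3 := hr1 g₀ x ⟨(x : ℂ), (le_sup_left : K ≤ K ⊔ Bl (n + 1)) x.2⟩ rfl
        have h4 := hg1 ⟨(x : ℂ), (le_sup_left : K ≤ K ⊔ Bl (n + 1)) x.2⟩
          ((le_sup_left : K ≤ K ⊔ Bl n) x.2)
        rw [h4] at h3
        exact h3.symm
      have h3 : X g₀ = 1 := by rw [hXY g₀, h1, h2, map_one, mul_one]
      exact hg2 h3
  · intro τ i x hxc hAR
    have hM0 : (l ^ (n + 1 + s)) ≠ 0 := pow_ne_zero _ hlp.ne_zero
    have hm2 : 2 ≤ lvX p (f * l ^ (n + 1 + s)) 0 := by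
      rw [hlv]
      calc 2 ≤ p := hpp.two_le
        _ = 1 * p := (one_mul p).symm
        _ ≤ f * l ^ (n + 1 + s) * p := Nat.mul_le_mul_right _
          (Nat.pos_of_ne_zero (mul_ne_zero hS.f0 hM0))
    have hm0 : idl (A := A) (B := B) (lvX p (f * l ^ (n + 1 + s)) 0) ≠ ⊥ := by
      rw [Ne, Ideal.span_singleton_eq_bot]
      exact natCast_ne_zero' hc (by omega)
    have hNL : ∃ (b : Ideal (OO A B)) (L : PeriodPair) (om : ℂ), IsNL b L om :=
      ⟨_, _, _, R.nl R.i0⟩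
    have hmf : idl (A := A) (B := B) (lvX p (f * l ^ (n + 1 + s)) 0) ≤ idl (lvX p f 0) := by
      rw [hlv, hlv, Ideal.span_singleton_le_span_singleton]
      push_cast
      exact mul_dvd_mul_right (dvd_mul_right _ _) _
    have hmM : idl (A := A) (B := B) (lvX p (f * l ^ (n + 1 + s)) 0) ≤
        idl (l ^ (n + 1 + s)) := by
      rw [hlv, Ideal.span_singleton_le_span_singleton]
      push_cast
      exact (dvd_mul_left _ _).mul_right _
    -- the field is contained in the ray class field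
    obtain ⟨i1, -, -, -, -, -, -, i8⟩ := hIAF A B hc T hNL _ hm0
    have hD := t_LVT hLAY hIAF l g s hGen p er A B P V f hS T hNL K hSub (n + 1) (Bl (n + 1))
      (hlay (n + 1))
    obtain ⟨a1, -, a3, a4, a5, a6, a7⟩ := hARF A B hc T hNL
      (idl (lvX p (f * l ^ (n + 1 + s)) 0)) hm0 (K ⊔ Bl (n + 1)) hn hD galL
    have hx0 : x ≠ 0 := by
      intro h0
      rw [h0, isCoprime_zero_left] at hxc
      obtain ⟨z, hz⟩ := hxc.exists_right_inv
      have h := congrArg QuadraticAlgebra.re hz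
      rw [QuadraticAlgebra.re_mul] at h
      simp only [QuadraticAlgebra.re_natCast, QuadraticAlgebra.im_natCast,
        QuadraticAlgebra.re_one, mul_zero, zero_mul, add_zero] at h
      have h' : ((lvX p (f * l ^ (n + 1 + s)) 0 : ℕ) : ℤ) ∣ 1 := ⟨_, h.symm⟩
      have h'' := Int.le_of_dvd one_pos h'
      omega
    have hb0 : R.b i ≠ ⊥ := (R.nl i).b_ne
    have hspx : sp x ≠ ⊥ := by
      rwa [Ne, Ideal.span_singleton_eq_bot]
    obtain ⟨N, hNdef⟩ : ∃ N : ℕ, N = nI (sp x * cjI (R.b i)) := ⟨_, rfl⟩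
    have hN : ((N : ℕ) : ℤ) = nm x * nI (R.b i) := by
      rw [hNdef, nI_mul hc hspx (cjI_ne_bot hc hb0), nI_sp hc hx0, nI_cjI hc hb0]
      push_cast
      rw [abs_of_nonneg (nm_nonneg hc x)]
    -- the automorphism of `ℂ`
    obtain ⟨σ, hσ, hσe⟩ := hAR
    have hσz : ∀ z : ℂ, z ^ (l ^ (n + 1 + s)) = 1 → σ z = z ^ N := fun z hz => by
      rw [hNdef]
      exact (i8 (l ^ (n + 1 + s)) σ _ z hM0 hmM hσ hz).2
    have hNl : N.Coprime l := by
      have hζ : IsPrimitiveRoot (zt (l ^ (n + 1 + s))) (l ^ (n + 1 + s)) :=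
        Complex.isPrimitiveRoot_exp (l ^ (n + 1 + s)) hM0
      have h1 : IsPrimitiveRoot (σ (zt (l ^ (n + 1 + s)))) (l ^ (n + 1 + s)) :=
        hζ.map_of_injective (f := σ) σ.injective
      rw [hσz _ hζ.pow_eq_one] at h1
      have h2 := (hζ.pow_iff_coprime (Nat.pos_of_ne_zero hM0) N).1 h1
      exact h2.coprime_dvd_right (dvd_pow_self l (by omega))
    have hσB : ∀ y : Bl (n + 1), (σ : ℂ →+* ℂ) (y : ℂ) = (r₂ τ y : Bl (n + 1)) := by
      intro y
      have h1 := hσe ⟨(y : ℂ), (le_sup_right : Bl (n + 1) ≤ K ⊔ Bl (n + 1)) y.2⟩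
      have h2 := hr2 τ y ⟨(y : ℂ), (le_sup_right : Bl (n + 1) ≤ K ⊔ Bl (n + 1)) y.2⟩ rfl
      rw [h2] at h1
      exact h1
    have hψN := hψ3 (σ : ℂ →+* ℂ) N (r₂ τ) hNl hσz hσB
    have hARK : AR hK (idl (lvX p f 0)) (r₁ τ) (sp x * cjI (R.b i)) :=
      a6 K hK (idl (lvX p f 0)) hmf le_sup_left τ (r₁ τ) _ (fun y y' h => hr1 τ y y' h)
        ⟨σ, hσ, hσe⟩
    have hxfp : IsCoprime x ((lvX p f 0 : ℕ) : OO A B) := by
      refine IsCoprime.of_isCoprime_of_dvd_right hxc ?_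
      rw [hlv, hlv]
      push_cast
      exact mul_dvd_mul_right (dvd_mul_right _ _) _
    have hΨ := e8 ⟨Y, hYr⟩ (r₁ τ) i x hxfp hARK
    have hcast : ((nI (R.b i) : ℕ) : ZMod (l ^ (n + 1 + s))) *
        ((nm x : ℤ) : ZMod (l ^ (n + 1 + s))) = ((N : ℕ) : ZMod (l ^ (n + 1 + s))) := by
      have h1 := congrArg (Int.cast : ℤ → ZMod (l ^ (n + 1 + s))) hN
      push_cast at h1
      rw [h1, mul_comm]
    have h2 : kp ⟨Y, hYr⟩ i * ψ ((nI (R.b i) : ℕ) : ZMod (l ^ (n + 1 + s))) *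
        (e0 ⟨Y, hYr⟩ x * ψ ((nm x : ℤ) : ZMod (l ^ (n + 1 + s)))) =
        (kp ⟨Y, hYr⟩ i * e0 ⟨Y, hYr⟩ x) * (ψ ((nI (R.b i) : ℕ) : ZMod (l ^ (n + 1 + s))) *
          ψ ((nm x : ℤ) : ZMod (l ^ (n + 1 + s)))) := by ring
    rw [h2, ← map_mul, hcast, hψN, ← hΨ, ← Units.val_mul, ← mul_inv, ← hXY τ]

end Pool.Agent.OT


end

section

/-!
# TWF: the intersection of a cyclic extension `L / k`, `L ≤ K B_n`, with `K B_(n₀)`
-/

set_option autoImplicit false

open NumberField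

namespace Pool.Agent.TWF

open Pool.Agent.MU3 Pool.Agent.RI Pool.Agent.RID

/-- in a finite cyclic group a subgroup contains all elements killed by its order -/
theorem mem_of_pow {G : Type} [Group G] [Finite G] [IsCyclic G] (H : Subgroup G) (g : G)
    (hg : g ^ Nat.card H = 1) : g ∈ H := by
  classical
  have : Fintype G := Fintype.ofFinite G
  have hle := IsCyclic.card_pow_eq_one_le (α := G) (n := Nat.card H) Nat.card_pos
  have hsub : (Finset.univ.filter fun a : G => a ∈ H) ⊆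
      (Finset.univ.filter fun a : G => a ^ Nat.card H = 1) := by
    intro a ha
    rw [Finset.mem_filter] at ha ⊢
    refine ⟨Finset.mem_univ _, ?_⟩
    have h1 : (⟨a, ha.2⟩ : H) ^ Nat.card H = 1 := pow_card_eq_one'
    exact congrArg Subtype.val h1
  have hcard : (Finset.univ.filter fun a : G => a ∈ H).card = Nat.card H := by
    rw [Nat.card_eq_fintype_card, Fintype.card_subtype]
  have heq := Finset.eq_of_subset_of_card_le hsub (by rw [hcard]; exact hle)
  have h1 : g ∈ (Finset.univ.filter fun a : G => a ^ Nat.card H = 1) := by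
    rw [Finset.mem_filter]
    exact ⟨Finset.mem_univ _, hg⟩
  rw [← heq, Finset.mem_filter] at h1
  exact h1.2

/-- an element of the larger field which is fixed by the automorphisms over `E` is in `E` -/
theorem fix_mem {k E C : IntermediateField ℚ ℂ} (hkE : k ≤ E) (hEC : E ≤ C) (hkC : k ≤ C)
    [FiniteDimensional ℚ C] : letI := algC hkC
    IsGalois k C → ∀ x : C, (∀ σ : C ≃ₐ[k] C, (∀ y : C, (y : ℂ) ∈ E → σ y = y) → σ x = x) →
      (x : ℂ) ∈ E := by
  let i1 : Algebra k C := algC hkC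
  let i2 : Algebra k E := algC hkE
  let i3 : Algebra E C := algC hEC
  have t1 : IsScalarTower k E C := towerC hkE hEC
  intro hG x hx
  have hG' : IsGalois E C := IsGalois.tower_top_of_isGalois k E C
  have t2 : IsScalarTower ℚ E C := IsScalarTower.of_algebraMap_eq (fun _ => rfl)
  have hf : FiniteDimensional E C := Module.Finite.of_restrictScalars_finite ℚ E C
  obtain ⟨y, hy⟩ := (IsGalois.mem_range_algebraMap_iff_fixed (F := E) x).2 (fun σ =>
    hx (σ.restrictScalars k) (fun y hy => σ.commutes (⟨(y : ℂ), hy⟩ : E)))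
  rw [← hy]
  exact y.2

section

variable {k C : IntermediateField ℚ ℂ} (hkC : k ≤ C)

/-- the automorphisms of `C / k` which are trivial on `E` -/
def Fix (E : IntermediateField ℚ ℂ) : letI := algC hkC
    Subgroup (C ≃ₐ[k] C) :=
  letI := algC hkC
  { carrier := {σ | ∀ y : C, (y : ℂ) ∈ E → σ y = y}
    mul_mem' := fun {σ τ} hσ hτ y hy => by
      show σ (τ y) = y
      rw [hτ y hy, hσ y hy]
    one_mem' := fun y _ => rfl
    inv_mem' := fun {σ} hσ y hy => by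
      have h1 := congrArg (σ⁻¹ : C ≃ₐ[k] C) (hσ y hy)
      rw [← AlgEquiv.mul_apply, inv_mul_cancel, AlgEquiv.one_apply] at h1
      exact h1.symm }

end

/-- two subfields of a cyclic extension of degree a power of `l` are comparable -/
theorem comparable {k L : IntermediateField ℚ ℂ} (hkL : k ≤ L) [FiniteDimensional ℚ L] (l e : ℕ)
    (hl : l.Prime) (E F : IntermediateField ℚ ℂ) (hkE : k ≤ E) (hkF : k ≤ F) (hE : E ≤ L)
    (hF : F ≤ L) : letI := algC hkL
    IsGalois k L → IsCyclic (L ≃ₐ[k] L) → Nat.card (L ≃ₐ[k] L) ∣ l ^ e → E ≤ F ∨ F ≤ E := by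
  let i1 : Algebra k L := algC hkL
  intro hG hc hd
  have t2 : IsScalarTower ℚ k L := IsScalarTower.of_algebraMap_eq (fun _ => rfl)
  have hf : FiniteDimensional k L := Module.Finite.of_restrictScalars_finite ℚ k L
  have key : ∀ E F : IntermediateField ℚ ℂ, k ≤ F → E ≤ L → F ≤ L →
      Nat.card (Fix hkL F) ∣ Nat.card (Fix hkL E) → E ≤ F := by
    intro E F hkF hE hF hdvd x hx
    refine fix_mem hkF hF hkL hG ⟨x, hE hx⟩ fun σ hσ => ?_
    have h1 : σ ∈ Fix hkL E := by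
      refine mem_of_pow _ σ ?_
      obtain ⟨c, hc⟩ := hdvd
      have h2 : (⟨σ, hσ⟩ : Fix hkL F) ^ Nat.card (Fix hkL F) = 1 := pow_card_eq_one'
      have h3 : σ ^ Nat.card (Fix hkL F) = 1 := congrArg Subtype.val h2
      rw [hc, pow_mul, h3, one_pow]
    exact h1 _ hx
  obtain ⟨i, -, hi⟩ := (Nat.dvd_prime_pow hl).1 ((Subgroup.card_subgroup_dvd_card (Fix hkL E)).trans hd)
  obtain ⟨j, -, hj⟩ := (Nat.dvd_prime_pow hl).1 ((Subgroup.card_subgroup_dvd_card (Fix hkL F)).trans hd)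
  rcases le_total i j with h | h
  · right
    refine key F E hkE hF hE ?_
    rw [hi, hj]
    exact pow_dvd_pow l h
  · left
    refine key E F hkF hE hF ?_
    rw [hi, hj]
    exact pow_dvd_pow l h

/-- the automorphisms of `B_n` killed by `l^a` are trivial on `B_(n-a)` -/
theorem lay_fix (l n a : ℕ) [Fact l.Prime] (ha : a ≤ n) (B B' : IntermediateField ℚ ℂ)
    (hB : IsLayer l (n - a) B) (hB' : IsLayer l n B') (hle : B ≤ B') (g : B' ≃ₐ[ℚ] B')
    (hg : g ^ (l ^ a) = 1) : ∀ x : B', (x : ℂ) ∈ B → g x = x := by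
  obtain ⟨fdB, hGB, -⟩ := LAY_thm l n B' hB'
  have hcyc : IsCyclic (B' ≃ₐ[ℚ] B') := t_LAYC l n B' hB'
  let i1 : Algebra B B' := (IntermediateField.inclusion hle).toRingHom.toAlgebra
  have tow : IsScalarTower ℚ B B' := IsScalarTower.of_algebraMap_eq (fun _ => rfl)
  have hBf : FiniteDimensional ℚ B := FiniteDimensional.of_injective
    (IntermediateField.inclusion hle).toLinearMap
    (IntermediateField.inclusion hle).toRingHom.injective
  have hf : FiniteDimensional B B' := Module.Finite.of_restrictScalars_finite ℚ B B'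
  have hG' : IsGalois B B' := IsGalois.tower_top_of_isGalois ℚ B B'
  have hfr : Module.finrank B B' = l ^ a := by
    have h1 := Module.finrank_mul_finrank ℚ B B'
    rw [hB.1, hB'.1] at h1
    have h2 : l ^ n = l ^ (n - a) * l ^ a := by
      rw [← pow_add, Nat.sub_add_cancel ha]
    rw [h2] at h1
    exact Nat.eq_of_mul_eq_mul_left (pow_pos (Fact.out : l.Prime).pos _) h1
  let r : (B' ≃ₐ[B] B') →* (B' ≃ₐ[ℚ] B') := AlgEquiv.restrictScalarsHom ℚ
  let H : Subgroup (B' ≃ₐ[ℚ] B') := r.range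
  have hc : Nat.card H = l ^ a := by
    have h1 : Function.Injective r := AlgEquiv.restrictScalarsHom_injective ℚ
    rw [← hfr, ← IsGalois.card_aut_eq_finrank]
    exact (Nat.card_congr (MonoidHom.ofInjective h1).toEquiv).symm
  have h1 : g ∈ H := mem_of_pow H g (by rw [hc]; exact hg)
  obtain ⟨τ, rfl⟩ := h1
  intro x hx
  exact τ.commutes (⟨(x : ℂ), hx⟩ : B)

/-- degrees of subfields of `ℂ` -/
theorem deg_mul {E F : IntermediateField ℚ ℂ} (h : E ≤ F) [FiniteDimensional ℚ F] :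
    Module.finrank ℚ E * Module.finrank E (IntermediateField.extendScalars h) =
      Module.finrank ℚ F := by
  let i1 : Algebra E F := algC h
  have t1 : IsScalarTower ℚ E F := IsScalarTower.of_algebraMap_eq (fun _ => rfl)
  have hE : FiniteDimensional ℚ E := FiniteDimensional.of_injective
    (IntermediateField.inclusion h).toLinearMap
    (IntermediateField.inclusion h).toRingHom.injective
  have hf : FiniteDimensional E F := Module.Finite.of_restrictScalars_finite ℚ E F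
  have h1 := finrank_algC h
  rw [← h1]
  exact Module.finrank_mul_finrank ℚ E F

/-- a field between `k B_n` and `k B_(n+1)` is one of the two -/
theorem between (l n : ℕ) [Fact l.Prime] (k : IntermediateField ℚ ℂ) [FiniteDimensional ℚ k]
    (B : ℕ → IntermediateField ℚ ℂ) (hB : ∀ n, IsLayer l n (B n)) (hm : Monotone B)
    (F : IntermediateField ℚ ℂ) (h1 : k ⊔ B n ≤ F) (h2 : F ≤ k ⊔ B (n + 1))
    (hne : F ≠ k ⊔ B (n + 1)) : F = k ⊔ B n := by
  obtain ⟨fdB, hGB, -⟩ := LAY_thm l (n + 1) (B (n + 1)) (hB (n + 1))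
  obtain ⟨fdB', -, -⟩ := LAY_thm l n (B n) (hB n)
  have hle : B n ≤ B (n + 1) := hm (Nat.le_succ n)
  have hE : FiniteDimensional ℚ ↥(k ⊔ B (n + 1)) := IntermediateField.finiteDimensional_sup _ _
  have hD : FiniteDimensional ℚ ↥(k ⊔ B n) := IntermediateField.finiteDimensional_sup _ _
  have hF : FiniteDimensional ℚ F := FiniteDimensional.of_injective
    (IntermediateField.inclusion h2).toLinearMap
    (IntermediateField.inclusion h2).toRingHom.injective
  have hGal : IsGalois (B n) (IntermediateField.extendScalars hle) := by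
    let i1 : Algebra (B n) (B (n + 1)) := algC hle
    have t1 : IsScalarTower ℚ (B n) (B (n + 1)) := IsScalarTower.of_algebraMap_eq (fun _ => rfl)
    have h3 : IsGalois (B n) (B (n + 1)) := IsGalois.tower_top_of_isGalois ℚ _ _
    exact (isGalois_algC hle).1 h3
  have hDE : k ⊔ B n ≤ k ⊔ B (n + 1) := sup_le_sup_left hle k
  have hd := (BCH_thm.1 (B n) (B (n + 1)) k (k ⊔ B n) (k ⊔ B (n + 1)) hle hDE
    (sup_comm _ _) (sup_comm _ _) hGal).2
  have e1 := deg_mul hle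
  rw [(hB n).1, (hB (n + 1)).1, pow_succ] at e1
  have e2 : Module.finrank (B n) (IntermediateField.extendScalars hle) = l :=
    Nat.eq_of_mul_eq_mul_left (pow_pos (Fact.out : l.Prime).pos n) e1
  rw [e2] at hd
  have e3 := deg_mul hDE
  have e4 := deg_mul h1
  have e5 := deg_mul h2
  have hDpos : 0 < Module.finrank ℚ ↥(k ⊔ B n) := Module.finrank_pos
  have e6 : Module.finrank ↥(k ⊔ B n) (IntermediateField.extendScalars h1) *
      Module.finrank F (IntermediateField.extendScalars h2) =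
      Module.finrank ↥(k ⊔ B n) (IntermediateField.extendScalars hDE) := by
    apply Nat.eq_of_mul_eq_mul_left hDpos
    rw [← mul_assoc, e4, e5, e3]
  have e7 : Module.finrank ↥(k ⊔ B n) (IntermediateField.extendScalars h1) ∣ l :=
    (Dvd.intro _ e6).trans hd
  rcases (Nat.dvd_prime (Fact.out : l.Prime)).1 e7 with h | h
  · rw [h, mul_one] at e4
    exact (IntermediateField.eq_of_le_of_finrank_eq h1 e4).symm
  · exfalso
    have e8 : l ∣ Module.finrank ↥(k ⊔ B n) (IntermediateField.extendScalars hDE) := by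
      rw [← h]
      exact Dvd.intro _ e6
    have e9 : Module.finrank ↥(k ⊔ B n) (IntermediateField.extendScalars hDE) = l :=
      Nat.dvd_antisymm hd e8
    rw [h, e9] at e6
    have e10 : Module.finrank F (IntermediateField.extendScalars h2) = 1 := by
      apply Nat.eq_of_mul_eq_mul_left (Fact.out : l.Prime).pos
      rw [e6, mul_one]
    rw [e10, mul_one] at e5
    exact hne (IntermediateField.eq_of_le_of_finrank_eq h2 e5)

theorem cor (l a n₀ : ℕ) [Fact l.Prime] (k K : IntermediateField ℚ ℂ)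
    (B : ℕ → IntermediateField ℚ ℂ)
    [FiniteDimensional ℚ K] [∀ n, FiniteDimensional ℚ ↥(K ⊔ B n)] (hB : Twr l k K B)
    (hdeg : Module.finrank k (IntermediateField.extendScalars hB.hk) ∣ l ^ a)
    (hn₀ : ¬ B (n₀ + 1) ≤ K ⊔ B n₀) (n : ℕ) (hn : n₀ + a < n) (L : IntermediateField ℚ ℂ)
    (hkL : k ≤ L) (hL : L ≤ K ⊔ B n)
    (hcyc : IsCyclic ((IntermediateField.extendScalars hkL) ≃ₐ[k]
      (IntermediateField.extendScalars hkL)))
    (hnot : ¬ L ≤ K ⊔ B (n - 1)) :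
    L ⊓ (K ⊔ B n₀) = k ⊔ B n₀ := by
  classical
  have hlp : l.Prime := Fact.out
  have hkC : k ≤ K ⊔ B n := hB.hk.trans le_sup_left
  let aC : Algebra k ↥(K ⊔ B n) := algC hkC
  let aK : Algebra k K := algC hB.hk
  obtain ⟨galC, comC⟩ := gal_ab l k K B hB n hkC
  obtain ⟨r₁, r₂, p1, p2, -⟩ := chr_split l k K B hB n hkC
  obtain ⟨fdB, hGB, -⟩ := LAY_thm l n (B n) (hB.lay n)
  have hcycB : IsCyclic (B n ≃ₐ[ℚ] B n) := t_LAYC l n (B n) (hB.lay n)
  have fdk : FiniteDimensional ℚ k := FiniteDimensional.of_injective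
    (IntermediateField.inclusion hB.hk).toLinearMap
    (IntermediateField.inclusion hB.hk).toRingHom.injective
  have fdL : FiniteDimensional ℚ L := FiniteDimensional.of_injective
    (IntermediateField.inclusion hL).toLinearMap
    (IntermediateField.inclusion hL).toRingHom.injective
  have tC : IsScalarTower ℚ k ↥(K ⊔ B n) := IsScalarTower.of_algebraMap_eq (fun _ => rfl)
  have tK : IsScalarTower ℚ k K := IsScalarTower.of_algebraMap_eq (fun _ => rfl)
  have ffC : FiniteDimensional k ↥(K ⊔ B n) := Module.Finite.of_restrictScalars_finite ℚ k _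
  have ffK : FiniteDimensional k K := Module.Finite.of_restrictScalars_finite ℚ k _
  have galK : IsGalois k K := (isGalois_algC hB.hk).2 hB.gal
  have hone : ∀ τ : ↥(K ⊔ B n) ≃ₐ[k] ↥(K ⊔ B n), r₁ τ = 1 → r₂ τ = 1 → τ = 1 := by
    intro τ h1 h2
    refine eq_one_of hkC τ ?_ ?_
    · intro x hx
      have h3 := p1 τ ⟨(x : ℂ), hx⟩ x rfl
      rw [h1] at h3
      exact Subtype.ext h3
    · intro x hx
      have h3 := p2 τ ⟨(x : ℂ), hx⟩ x rfl
      rw [h2] at h3
      exact Subtype.ext h3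
  have hr1 : ∀ τ : ↥(K ⊔ B n) ≃ₐ[k] ↥(K ⊔ B n), (∀ y : ↥(K ⊔ B n), (y : ℂ) ∈ K → τ y = y) →
      r₁ τ = 1 := by
    intro τ h
    ext x
    have h3 := p1 τ x ⟨(x : ℂ), (le_sup_left : K ≤ K ⊔ B n) x.2⟩ rfl
    rw [h _ x.2] at h3
    exact h3.symm
  have hr2 : ∀ (τ : ↥(K ⊔ B n) ≃ₐ[k] ↥(K ⊔ B n)) (x : B n),
      τ ⟨(x : ℂ), (le_sup_right : B n ≤ K ⊔ B n) x.2⟩ =
        ⟨(x : ℂ), (le_sup_right : B n ≤ K ⊔ B n) x.2⟩ → r₂ τ x = x := by
    intro τ x h
    have h3 := p2 τ x ⟨(x : ℂ), (le_sup_right : B n ≤ K ⊔ B n) x.2⟩ rfl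
    rw [h] at h3
    exact Subtype.ext h3.symm
  have hcardB : Nat.card (B n ≃ₐ[ℚ] B n) = l ^ n := by
    rw [IsGalois.card_aut_eq_finrank, (hB.lay n).1]
  have hcardK : Nat.card (K ≃ₐ[k] K) ∣ l ^ a := by
    rw [IsGalois.card_aut_eq_finrank]
    have h1 := finrank_algC hB.hk
    rw [h1]
    exact hdeg
  -- step 1: an automorphism over `K B_(n-1)` which moves `L`
  have hle1 : K ⊔ B (n - 1) ≤ K ⊔ B n := sup_le_sup_left (hB.mono (Nat.sub_le n 1)) K
  obtain ⟨σ₁, hσ1, hσ2⟩ : ∃ σ₁ : ↥(K ⊔ B n) ≃ₐ[k] ↥(K ⊔ B n),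
      (∀ y : ↥(K ⊔ B n), (y : ℂ) ∈ K ⊔ B (n - 1) → σ₁ y = y) ∧
      ¬ ∀ y : ↥(K ⊔ B n), (y : ℂ) ∈ L → σ₁ y = y := by
    by_contra hall
    push Not at hall
    apply hnot
    intro x hx
    exact fix_mem (hB.hk.trans le_sup_left) hle1 hkC galC ⟨x, hL hx⟩
      (fun σ hσ => hall σ hσ _ hx)
  have hσl : (r₂ σ₁) ^ l = 1 := by
    refine pow_deg (B := B (n - 1)) (B' := B n) (hB.mono (Nat.sub_le n 1)) hGB l ?_ _ ?_
    · rw [(hB.lay n).1, (hB.lay (n - 1)).1, ← pow_succ]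
      congr 1
      omega
    · intro x hx
      exact hr2 σ₁ x (hσ1 _ ((le_sup_right : B (n - 1) ≤ K ⊔ B (n - 1)) hx))
  have hσK : r₁ σ₁ = 1 := hr1 σ₁ fun y hy => hσ1 y ((le_sup_left : K ≤ K ⊔ B (n - 1)) hy)
  -- step 2: the automorphisms over `L` and over `K` meet trivially
  have hmeet : ∀ τ : ↥(K ⊔ B n) ≃ₐ[k] ↥(K ⊔ B n), (∀ y : ↥(K ⊔ B n), (y : ℂ) ∈ L → τ y = y) →
      r₁ τ = 1 → τ = 1 := by
    intro τ hτL hτK
    by_contra hne
    have h1 : r₂ τ ≠ 1 := fun h => hne (hone τ hτK h)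
    obtain ⟨e, -, he⟩ := (Nat.dvd_prime_pow hlp).1 ((orderOf_dvd_natCard (r₂ τ)).trans
      (dvd_of_eq hcardB))
    have he0 : e ≠ 0 := by
      rintro rfl
      rw [pow_zero, orderOf_eq_one_iff] at he
      exact h1 he
    obtain ⟨e', rfl⟩ := Nat.exists_eq_succ_of_ne_zero he0
    have h2 : (r₂ (τ ^ l ^ e')) ^ l = 1 := by
      rw [map_pow, ← pow_mul, ← pow_succ, ← he, pow_orderOf_eq_one]
    have h3 : r₂ (τ ^ l ^ e') ≠ 1 := by
      intro h
      rw [map_pow] at h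
      have h4 := orderOf_dvd_of_pow_eq_one h
      rw [he] at h4
      have h5 := (Nat.pow_dvd_pow_iff_le_right hlp.one_lt).1 h4
      omega
    obtain ⟨j, hj⟩ := cyc_mem l hlp (r₂ (τ ^ l ^ e')) (r₂ σ₁) h2 h3 hσl
    have hj' : (r₂ (τ ^ l ^ e')) ^ j = r₂ σ₁ := hj
    have h4 : σ₁ * ((τ ^ l ^ e') ^ j)⁻¹ = 1 := by
      refine hone _ ?_ ?_
      · rw [map_mul, map_inv, map_zpow, map_pow, hσK, hτK, one_pow, one_zpow, inv_one, mul_one]
      · rw [map_mul, map_inv, map_zpow, hj', mul_inv_cancel]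
    have h5 : σ₁ = (τ ^ l ^ e') ^ j := mul_inv_eq_one.1 h4
    apply hσ2
    have h6 : τ ∈ Fix hkC L := hτL
    have h7 : σ₁ ∈ Fix hkC L := by
      rw [h5]
      exact Subgroup.zpow_mem _ (Subgroup.pow_mem _ h6 _) _
    exact h7
  -- step 3: `B_(n-a) ≤ L`
  have ha : a ≤ n := by omega
  have hBL : B (n - a) ≤ L := by
    intro x hx
    have hxn : x ∈ B n := hB.mono (Nat.sub_le n a) hx
    refine fix_mem hkL hL hkC galC ⟨x, (le_sup_right : B n ≤ K ⊔ B n) hxn⟩ fun τ hτ => ?_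
    have h6 : τ ∈ Fix hkC L := hτ
    have h7 : τ ^ l ^ a ∈ Fix hkC L := Subgroup.pow_mem _ h6 _
    have h8 : r₁ (τ ^ l ^ a) = 1 := by
      obtain ⟨c, hc⟩ := hcardK
      rw [map_pow, hc, pow_mul, pow_card_eq_one', one_pow]
    have h9 := hmeet _ h7 h8
    have h10 : (r₂ τ) ^ l ^ a = 1 := by rw [← map_pow, h9, map_one]
    have h11 := lay_fix l n a ha (B (n - a)) (B n) (hB.lay (n - a)) (hB.lay n)
      (hB.mono (Nat.sub_le n a)) (r₂ τ) h10 ⟨x, hxn⟩ hx
    have h12 := p2 τ ⟨x, hxn⟩ ⟨x, (le_sup_right : B n ≤ K ⊔ B n) hxn⟩ rfl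
    rw [h11] at h12
    exact Subtype.ext h12
  -- the fields
  have hEL : k ⊔ B (n₀ + 1) ≤ L := sup_le hkL ((hB.mono (by omega)).trans hBL)
  have hFL : L ⊓ (K ⊔ B n₀) ≤ L := inf_le_left
  have hkF : k ≤ L ⊓ (K ⊔ B n₀) := le_inf hkL (hB.hk.trans le_sup_left)
  have hDF : k ⊔ B n₀ ≤ L ⊓ (K ⊔ B n₀) :=
    le_inf ((sup_le_sup_left (hB.mono (Nat.le_succ n₀)) k).trans hEL)
      (sup_le_sup_right hB.hk (B n₀))
  -- `L / k` is cyclic of degree a power of `l`
  let aL : Algebra k L := algC hkL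
  have tL : IsScalarTower ℚ k L := IsScalarTower.of_algebraMap_eq (fun _ => rfl)
  have ffL : FiniteDimensional k L := Module.Finite.of_restrictScalars_finite ℚ k _
  have abC : IsAbelianGalois k ↥(K ⊔ B n) :=
    { toIsGalois := galC
      is_comm := ⟨comC⟩ }
  let iLC : Algebra L ↥(K ⊔ B n) := algC hL
  have tLC : IsScalarTower k L ↥(K ⊔ B n) := towerC hkL hL
  have abL : IsAbelianGalois k L := IsAbelianGalois.of_algHom (IsScalarTower.toAlgHom k L ↥(K ⊔ B n))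
  have galL : IsGalois k L := abL.toIsGalois
  have cycL : IsCyclic (L ≃ₐ[k] L) :=
    (extEquiv hkL).autCongr.isCyclic.1 hcyc
  have hcardL : Nat.card (L ≃ₐ[k] L) ∣ l ^ (a + n) := by
    have h1 : Nat.card (L ≃ₐ[k] L) ∣ Nat.card (↥(K ⊔ B n) ≃ₐ[k] ↥(K ⊔ B n)) :=
      Subgroup.card_dvd_of_surjective (AlgEquiv.restrictNormalHom L)
        (AlgEquiv.restrictNormalHom_surjective ↥(K ⊔ B n))
    have h2 : Nat.card (↥(K ⊔ B n) ≃ₐ[k] ↥(K ⊔ B n)) ∣
        Nat.card ((K ≃ₐ[k] K) × (B n ≃ₐ[ℚ] B n)) := by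
      refine Subgroup.card_dvd_of_injective (r₁.prod r₂) ?_
      rw [injective_iff_map_eq_one]
      intro g hg
      exact hone g (congrArg Prod.fst hg) (congrArg Prod.snd hg)
    rw [Nat.card_prod, hcardB] at h2
    rw [pow_add]
    exact h1.trans (h2.trans (Nat.mul_dvd_mul_right hcardK _))
  have hcomp := comparable hkL l (a + n) hlp (k ⊔ B (n₀ + 1)) (L ⊓ (K ⊔ B n₀)) le_sup_left hkF
    hEL hFL galL cycL hcardL
  have hnE : ¬ k ⊔ B (n₀ + 1) ≤ L ⊓ (K ⊔ B n₀) := fun h =>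
    hn₀ (le_sup_right.trans (h.trans inf_le_right))
  have hFE : L ⊓ (K ⊔ B n₀) ≤ k ⊔ B (n₀ + 1) := hcomp.resolve_left hnE
  exact between l n₀ k B hB.lay hB.mono _ hDF hFE fun h => hnE h.ge

end Pool.Agent.TWF


end

section

/-!
# OT, module NEWK (helper84): the new characters for all `K`, from `K(μ_p)`

`K' = K(μ_p)`. If `B' = Ln (r+1)` is not contained in `K'` then there is a `t ∈ Gal(K'B'/K'B)` which is not trivial on `B'`; `Gal(B'/B)` has
prime order, so every `s ∈ Gal(K B'/K B)` is the restriction of a power of `t`. So the inflation `χ'` of a new character `χ` is new, and `μ = 0` for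
`χ'` gives `μ = 0` for `χ` (`Sf_IFM`).
-/

set_option autoImplicit false

open NumberField

namespace Pool.Agent.OTF

open _root_.Pool.Agent.RI _root_.Pool.Agent.RID _root_.Pool.Agent.MU3

namespace NEWKx

/-- two maps on `C` which agree on `K` and on `B` agree on `K ⊔ B` -/
theorem ext_sup {K B C : IntermediateField ℚ ℂ} (φ ψ : ↥C →+* ℂ)
    (h1 : ∀ x : ↥C, (x : ℂ) ∈ K → φ x = ψ x) (h2 : ∀ x : ↥C, (x : ℂ) ∈ B → φ x = ψ x)
    (hK : K ≤ C) (hB : B ≤ C) (x : ↥C) (hx : (x : ℂ) ∈ K ⊔ B) : φ x = ψ x := by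
  let T : IntermediateField ℚ ℂ :=
    { carrier := {z | ∃ hz : z ∈ C, φ ⟨z, hz⟩ = ψ ⟨z, hz⟩}
      mul_mem' := by
        rintro a b ⟨ha, ha'⟩ ⟨hb, hb'⟩
        refine ⟨mul_mem ha hb, ?_⟩
        have e : (⟨a * b, mul_mem ha hb⟩ : ↥C) = ⟨a, ha⟩ * ⟨b, hb⟩ := rfl
        rw [e, map_mul, map_mul, ha', hb']
      add_mem' := by
        rintro a b ⟨ha, ha'⟩ ⟨hb, hb'⟩
        refine ⟨add_mem ha hb, ?_⟩
        have e : (⟨a + b, add_mem ha hb⟩ : ↥C) = ⟨a, ha⟩ + ⟨b, hb⟩ := rfl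
        rw [e, map_add, map_add, ha', hb']
      algebraMap_mem' := by
        intro r
        refine ⟨algebraMap_mem _ r, ?_⟩
        have e : (⟨algebraMap ℚ ℂ r, algebraMap_mem _ r⟩ : ↥C) = (r : ↥C) := by
          apply Subtype.ext
          simp
        rw [e, map_ratCast, map_ratCast]
      inv_mem' := by
        rintro a ⟨ha, ha'⟩
        refine ⟨inv_mem ha, ?_⟩
        have e : (⟨a⁻¹, inv_mem ha⟩ : ↥C) = (⟨a, ha⟩)⁻¹ := rfl
        rw [e, map_inv₀, map_inv₀, ha'] }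
  have hT : K ⊔ B ≤ T := by
    apply sup_le
    · intro a ha
      exact ⟨hK ha, h1 _ ha⟩
    · intro b hb
      exact ⟨hB hb, h2 _ hb⟩
  obtain ⟨hz, hx'⟩ := hT hx
  exact hx'

/-- the automorphisms of `B_(r+1)` over `B_r` are the powers of each nontrivial one -/
theorem lay_pow (l r : ℕ) [hl : Fact l.Prime] (B B' : IntermediateField ℚ ℂ)
    (hB : RI.IsLayer l r B) (hB' : RI.IsLayer l (r + 1) B') (hle : B ≤ B')
    (g₁ g₂ : ↥B' ≃ₐ[ℚ] ↥B') (h1 : ∀ x : ↥B', (x : ℂ) ∈ B → g₁ x = x)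
    (h2 : ∀ x : ↥B', (x : ℂ) ∈ B → g₂ x = x) (h3 : g₂ ≠ 1) : ∃ m : ℕ, g₁ = g₂ ^ m := by
  obtain ⟨fdB, hGB, -⟩ := LAY_thm l (r + 1) B' hB'
  let i1 : Algebra B B' := (IntermediateField.inclusion hle).toRingHom.toAlgebra
  have tow : IsScalarTower ℚ B B' := IsScalarTower.of_algebraMap_eq (fun _ => rfl)
  have hBf : FiniteDimensional ℚ B := FiniteDimensional.of_injective
    (IntermediateField.inclusion hle).toLinearMap
    (IntermediateField.inclusion hle).toRingHom.injective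
  have hf : FiniteDimensional B B' := Module.Finite.of_restrictScalars_finite ℚ B B'
  have hG' : IsGalois B B' := IsGalois.tower_top_of_isGalois ℚ B B'
  have hfr : Module.finrank B B' = l := by
    have h1 := Module.finrank_mul_finrank ℚ B B'
    rw [hB.1, hB'.1, pow_succ] at h1
    exact Nat.eq_of_mul_eq_mul_left (pow_pos hl.out.pos _) h1
  have hc : Nat.card (B' ≃ₐ[B] B') = l := by rw [IsGalois.card_aut_eq_finrank, hfr]
  let τ₁ : B' ≃ₐ[B] B' := AlgEquiv.ofRingEquiv (f := g₁.toRingEquiv)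
    (fun x => h1 _ x.2)
  let τ₂ : B' ≃ₐ[B] B' := AlgEquiv.ofRingEquiv (f := g₂.toRingEquiv)
    (fun x => h2 _ x.2)
  have h4 : τ₂ ≠ 1 := by
    intro h
    apply h3
    apply AlgEquiv.ext
    intro x
    exact congrArg (fun t : B' ≃ₐ[B] B' => t x) h
  have h5 : τ₁ ∈ Submonoid.powers τ₂ := by
    have := isOfFinOrder_of_finite τ₂
    rw [mem_powers_iff_mem_zpowers]
    exact mem_zpowers_of_prime_card hc h4
  obtain ⟨m, hm⟩ := h5
  refine ⟨m, ?_⟩
  have h6 : ∀ (n : ℕ) (x : ↥B'), (τ₂ ^ n) x = (g₂ ^ n) x := by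
    intro n
    induction n with
    | zero => intro x; rfl
    | succ n ih =>
      intro x
      rw [pow_succ, pow_succ, AlgEquiv.mul_apply, AlgEquiv.mul_apply, ih]
      rfl
  apply AlgEquiv.ext
  intro x
  have hm' : τ₂ ^ m = τ₁ := hm
  rw [← h6 m x, hm']
  rfl

/-- an automorphism over `K ⊔ B` which is not trivial on `B'` -/
theorem exists_t (l r : ℕ) [hl : Fact l.Prime] {k K : IntermediateField ℚ ℂ}
    (B B' : IntermediateField ℚ ℂ) (hB : RI.IsLayer l r B) (hB' : RI.IsLayer l (r + 1) B')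
    (hle : B ≤ B') (hK : k ≤ K) (hC : k ≤ K ⊔ B') [FiniteDimensional ℚ ↥(K ⊔ B')]
    (hG : letI := algC hC; IsGalois k ↥(K ⊔ B')) (hn : ¬ B' ≤ K) :
    letI := algC hC
    ∃ (t : ↥(K ⊔ B') ≃ₐ[k] ↥(K ⊔ B')) (g : ↥B' ≃ₐ[ℚ] ↥B'),
      (∀ x : ↥(K ⊔ B'), (x : ℂ) ∈ K → t x = x) ∧
      (∀ (x : ↥(K ⊔ B')) (y : ↥B'), (x : ℂ) = y → ((t x : ↥(K ⊔ B')) : ℂ) = (g y : ↥B')) ∧
      g ≠ 1 ∧ ∀ x : ↥B', (x : ℂ) ∈ B → g x = x := by
  let _ := algC hC
  let _ := algC (le_sup_right : B' ≤ K ⊔ B')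
  obtain ⟨fdB, hGB, -⟩ := LAY_thm l (r + 1) B' hB'
  have tB : IsScalarTower ℚ B' ↥(K ⊔ B') := IsScalarTower.of_algebraMap_eq (fun _ => rfl)
  have tk : IsScalarTower ℚ k ↥(K ⊔ B') := IsScalarTower.of_algebraMap_eq (fun _ => rfl)
  obtain ⟨x, hxB, hxK⟩ := Set.not_subset.1 hn
  have h1 : ∃ σ : ↥(K ⊔ B') ≃ₐ[k] ↥(K ⊔ B'), (∀ y : ↥(K ⊔ B'), (y : ℂ) ∈ K → σ y = y) ∧
      σ ⟨x, (le_sup_right : B' ≤ K ⊔ B') hxB⟩ ≠ ⟨x, (le_sup_right : B' ≤ K ⊔ B') hxB⟩ := by
    by_contra hcon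
    apply hxK
    refine TWF.fix_mem hK (le_sup_left : K ≤ K ⊔ B') hC hG
      ⟨x, (le_sup_right : B' ≤ K ⊔ B') hxB⟩ fun σ hσ => ?_
    by_contra h2
    exact hcon ⟨σ, hσ, h2⟩
  obtain ⟨σ, hσK, hσx⟩ := h1
  -- the restriction to `B'`
  let res : (↥(K ⊔ B') ≃ₐ[ℚ] ↥(K ⊔ B')) →* (↥B' ≃ₐ[ℚ] ↥B') :=
    AlgEquiv.restrictNormalHom ↥B'
  have hres : ∀ (τ : ↥(K ⊔ B') ≃ₐ[ℚ] ↥(K ⊔ B')) (x : ↥(K ⊔ B')) (y : ↥B'), (x : ℂ) = y →
      ((τ x : ↥(K ⊔ B')) : ℂ) = (res τ y : ↥B') := by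
    intro τ x y hxy
    have h2 := AlgEquiv.restrictNormal_commutes τ ↥B' y
    have h3 : x = algebraMap ↥B' ↥(K ⊔ B') y := Subtype.ext hxy
    rw [h3, ← h2]
    rfl
  let σQ : ↥(K ⊔ B') ≃ₐ[ℚ] ↥(K ⊔ B') := σ.restrictScalars ℚ
  have hg1 : res σQ ≠ 1 := by
    intro h2
    apply hσx
    apply Subtype.ext
    have h3 := hres σQ ⟨x, (le_sup_right : B' ≤ K ⊔ B') hxB⟩ ⟨x, hxB⟩ rfl
    rw [h2] at h3
    exact h3
  have hcard : Nat.card (↥B' ≃ₐ[ℚ] ↥B') = l ^ (r + 1) := by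
    rw [IsGalois.card_aut_eq_finrank, hB'.1]
  have hdvd : orderOf (res σQ) ∣ l ^ (r + 1) := hcard ▸ orderOf_dvd_natCard _
  obtain ⟨e, he, hoe⟩ := (Nat.dvd_prime_pow hl.out).1 hdvd
  have he0 : e ≠ 0 := by
    rintro rfl
    rw [pow_zero, orderOf_eq_one_iff] at hoe
    exact hg1 hoe
  obtain ⟨e, rfl⟩ := Nat.exists_eq_succ_of_ne_zero he0
  set g : ↥B' ≃ₐ[ℚ] ↥B' := (res σQ) ^ (l ^ e) with hgdef
  have hgl : g ^ l = 1 := by
    rw [hgdef, ← pow_mul, ← pow_succ, ← hoe, pow_orderOf_eq_one]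
  have hgne : g ≠ 1 := by
    intro h2
    have h3 := orderOf_dvd_of_pow_eq_one h2
    rw [hoe] at h3
    have h4 := (Nat.pow_dvd_pow_iff_le_right hl.out.one_lt).1 h3
    omega
  have hσn : ∀ (n : ℕ) (y : ↥(K ⊔ B')), (y : ℂ) ∈ K → (σ ^ n) y = y := by
    intro n
    induction n with
    | zero => intro y _; rfl
    | succ n ih =>
      intro y hy
      rw [pow_succ, AlgEquiv.mul_apply, hσK y hy, ih y hy]
  refine ⟨σ ^ (l ^ e), g, hσn _, ?_, hgne, ?_⟩
  · intro x y hxy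
    have h2 : ((σ ^ (l ^ e)) x : ↥(K ⊔ B')) = (σQ ^ (l ^ e)) x := by
      have h3 : ∀ (n : ℕ) (z : ↥(K ⊔ B')), (σ ^ n) z = (σQ ^ n) z := by
        intro n
        induction n with
        | zero => intro z; rfl
        | succ n ih =>
          intro z
          rw [pow_succ, pow_succ, AlgEquiv.mul_apply, AlgEquiv.mul_apply, ih]
          rfl
      exact h3 _ x
    rw [h2, hres (σQ ^ (l ^ e)) x y hxy, map_pow]
  · have h2 := TWF.lay_fix l (r + 1) 1 (by omega) B B' hB hB' hle g (by rw [pow_one]; exact hgl)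
    exact h2

end NEWKx

open _root_.Pool.Agent.OTF.NEWKx in
/-- NEWK -/
theorem t_NEWK (hLAY : _root_.Pool.Agent.MUXJ.Sj_LAY) (hIFM : _root_.Pool.Agent.OBF.Sf_IFM)
    (hNEW : S_NEW) : S_NEWK := by
  intro p _ hp k K h hk hK l hl
  have hpp : p.Prime := Fact.out
  have hfK := hK.fin
  have hlp : Fact l.Prime := ⟨prime_l hl⟩
  have hfk : FiniteDimensional ℚ k :=
    FiniteDimensional.of_injective (IntermediateField.inclusion h).toLinearMap
      (IntermediateField.inclusion h).injective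
  -- the field `K' = K(ζ)`
  obtain ⟨ζ, hζ⟩ : ∃ ζ : ℂ, IsPrimitiveRoot ζ p :=
    ⟨_, Complex.isPrimitiveRoot_exp p hpp.ne_zero⟩
  obtain ⟨hfK', hK'⟩ := VB.abE_zeta VB.tb_NRM p hpp.pos (⟨h, hK.gal, hK.comm⟩ : VB.AbE k K) ζ hζ
  set K' : IntermediateField ℚ ℂ := K ⊔ IntermediateField.adjoin ℚ {ζ} with hK'def
  obtain ⟨hkK', hG', hc'⟩ := hK'
  have hKK' : K ≤ K' := le_sup_left
  have hζK' : ζ ∈ K' := (le_sup_right : _ ≤ K') (IntermediateField.mem_adjoin_simple_self ℚ ζ)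
  -- the degree
  have hdeg : ¬ p ∣ Module.finrank k (IntermediateField.extendScalars hkK') := by
    have e1 : IntermediateField.extendScalars hKK' = IntermediateField.adjoin K {ζ} := by
      apply le_antisymm
      · have h2 : K' ≤ (IntermediateField.adjoin K {ζ}).restrictScalars ℚ := by
          refine sup_le ?_ ?_
          · intro x hx
            exact (IntermediateField.adjoin K {ζ}).algebraMap_mem ⟨x, hx⟩
          · rw [IntermediateField.adjoin_simple_le_iff]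
            exact IntermediateField.mem_adjoin_simple_self K ζ
        exact fun x hx => h2 hx
      · rw [IntermediateField.adjoin_simple_le_iff]
        exact hζK'
    have hint : IsIntegral K ζ := (hζ.isIntegral hpp.pos).tower_top
    have e2 : Module.finrank K (IntermediateField.extendScalars hKK') < p := by
      rw [e1, IntermediateField.adjoin.finrank hint]
      have h3 : minpoly K ζ ∣ Polynomial.cyclotomic p K := by
        apply minpoly.dvd
        rw [Polynomial.aeval_def, Polynomial.eval₂_eq_eval_map, Polynomial.map_cyclotomic]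
        exact hζ.isRoot_cyclotomic hpp.pos
      have h5 := Polynomial.natDegree_le_of_dvd h3 (Polynomial.cyclotomic_ne_zero p K)
      rw [Polynomial.natDegree_cyclotomic, Nat.totient_prime hpp] at h5
      have := hpp.one_lt
      omega
    have e3 : Module.finrank k (IntermediateField.extendScalars h) *
        Module.finrank K (IntermediateField.extendScalars hKK') =
        Module.finrank k (IntermediateField.extendScalars hkK') := by
      let _ := algC h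
      let _ := algC hKK'
      let _ := algC hkK'
      have : IsScalarTower k K K' := towerC h hKK'
      rw [← finrank_algC h, ← finrank_algC hKK', ← finrank_algC hkK']
      exact Module.finrank_mul_finrank k K K'
    rw [← e3, hpp.dvd_mul, not_or]
    refine ⟨hK.prime_to, fun h0 => ?_⟩
    have h6 : 0 < Module.finrank K (IntermediateField.extendScalars hKK') := by
      have f1 : FiniteDimensional K (IntermediateField.extendScalars hKK') := by
        have h1 : FiniteDimensional ℚ (IntermediateField.extendScalars hKK') :=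
          inferInstanceAs (FiniteDimensional ℚ K')
        exact Module.Finite.of_restrictScalars_finite ℚ K _
      exact Module.finrank_pos
    have := Nat.le_of_dvd h6 h0
    omega
  have hAb : MuCyc.Abelian p hkK' := ⟨hfK', hG', hc', hdeg⟩
  obtain ⟨r₀, hr₀⟩ := hNEW p hp k K' hkK' hk hAb ⟨ζ, hζK', hζ⟩ l hl
  -- the layers
  obtain ⟨Ln, hlay, hmono, huniq⟩ := hLAY l hl
  have hex : ∃ j : ℕ, ∀ r, j ≤ r → ¬ Ln (r + 1) ≤ K' := by
    refine ⟨Module.finrank ℚ K', fun r hr hle => ?_⟩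
    have h1 : Module.finrank ℚ (Ln (r + 1)) ∣ Module.finrank ℚ K' := by
      rw [← mul_deg hle]
      exact Dvd.intro _ rfl
    rw [(hlay (r + 1)).1] at h1
    have h2 := Nat.le_of_dvd Module.finrank_pos h1
    have h3 : r + 1 < l ^ (r + 1) := Nat.lt_pow_self hlp.out.one_lt
    omega
  obtain ⟨j, hj⟩ := hex
  refine ⟨max r₀ j, fun r hr B B' hB hB' h' χ hχ => ?_⟩
  obtain rfl : B = Ln r := huniq r B hB
  obtain rfl : B' = Ln (r + 1) := huniq (r + 1) B' hB'
  have hle : Ln r ≤ Ln (r + 1) := hmono (Nat.le_succ r)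
  have hnot := hj r (le_trans (le_max_right _ _) hr)
  have h'' : k ≤ K' ⊔ Ln (r + 1) := hkK'.trans le_sup_left
  have hA1 : MuCyc.Abelian p h' := ab_sup p hp h hK hl (hlay (r + 1)) h'
  have hA2 : MuCyc.Abelian p h'' := ab_sup p hp hkK' hAb hl (hlay (r + 1)) h''
  have hf1 := hA1.fin
  have hf2 := hA2.fin
  have hLL : K ⊔ Ln (r + 1) ≤ K' ⊔ Ln (r + 1) := sup_le_sup_right hKK' _
  obtain ⟨res, -, hres⟩ := exists_res h' hLL h'' hA1.gal hA2.gal
  refine hIFM p (by omega) k (K ⊔ Ln (r + 1)) (K' ⊔ Ln (r + 1)) h' h'' hLL hf2 hA2.gal hA2.comm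
    (deg_Q p hp h'' hk hA2) χ (χ.comp res) ?_ ?_
  · intro s s' hs
    show χ (res s') = χ s
    congr 1
    apply AlgEquiv.ext
    intro x
    apply Subtype.ext
    rw [← hres s' x ⟨(x : ℂ), hLL x.2⟩ rfl]
    exact hs x ⟨(x : ℂ), hLL x.2⟩ rfl
  · refine hr₀ r (le_trans (le_max_left _ _) hr) (Ln r) (Ln (r + 1)) hB hB' h'' (χ.comp res) ?_
    obtain ⟨s, hs, hχs⟩ := hχ
    -- `s` on `B'`
    let aC := algC h'
    let aC' := algC h''
    have g1 : IsGalois k ↥(K ⊔ Ln (r + 1)) := (isGalois_algC h').2 hA1.gal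
    have g2 : IsGalois k ↥(K' ⊔ Ln (r + 1)) := (isGalois_algC h'').2 hA2.gal
    obtain ⟨t, g, ht1, ht2, hgne, hgB⟩ := exists_t l r (Ln r) (Ln (r + 1)) hB hB' hle hkK' h'' g2
      hnot
    let s₁ : ↥(K ⊔ Ln (r + 1)) ≃ₐ[k] ↥(K ⊔ Ln (r + 1)) := AlgEquiv.autCongr (extEquiv h') s
    have hs₁ : ∀ x : ↥(K ⊔ Ln (r + 1)), ((s₁ x : ↥(K ⊔ Ln (r + 1))) : ℂ) =
        (s ⟨(x : ℂ), x.2⟩ : IntermediateField.extendScalars h') := fun x => rfl
    let _ := algC (le_sup_right : Ln (r + 1) ≤ K ⊔ Ln (r + 1))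
    obtain ⟨fdB, hGB, -⟩ := LAY_thm l (r + 1) (Ln (r + 1)) (hlay (r + 1))
    have tB : IsScalarTower ℚ (Ln (r + 1)) ↥(K ⊔ Ln (r + 1)) :=
      IsScalarTower.of_algebraMap_eq (fun _ => rfl)
    let g₁ : ↥(Ln (r + 1)) ≃ₐ[ℚ] ↥(Ln (r + 1)) :=
      AlgEquiv.restrictNormalHom ↥(Ln (r + 1)) (s₁.restrictScalars ℚ)
    have hg₁ : ∀ (x : ↥(K ⊔ Ln (r + 1))) (y : ↥(Ln (r + 1))), (x : ℂ) = y →
        ((s₁ x : ↥(K ⊔ Ln (r + 1))) : ℂ) = (g₁ y : ↥(Ln (r + 1))) := by
      intro x y hxy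
      have h2 := AlgEquiv.restrictNormal_commutes (s₁.restrictScalars ℚ) ↥(Ln (r + 1)) y
      have h3 : x = algebraMap ↥(Ln (r + 1)) ↥(K ⊔ Ln (r + 1)) y := Subtype.ext hxy
      rw [h3]
      exact (congrArg Subtype.val h2).symm
    have hg₁B : ∀ x : ↥(Ln (r + 1)), (x : ℂ) ∈ Ln r → g₁ x = x := by
      intro x hx
      apply Subtype.ext
      rw [← hg₁ ⟨(x : ℂ), (le_sup_right : Ln (r + 1) ≤ K ⊔ Ln (r + 1)) x.2⟩ x rfl, hs₁]
      exact congrArg Subtype.val (hs ⟨(x : ℂ), (le_sup_right : Ln (r + 1) ≤ K ⊔ Ln (r + 1)) x.2⟩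
        ((le_sup_right : Ln r ≤ K ⊔ Ln r) hx))
    obtain ⟨m, hm⟩ := lay_pow l r (Ln r) (Ln (r + 1)) hB hB' hle g₁ g hg₁B hgB hgne
    -- the power of `t`
    have htm : ∀ (n : ℕ), (∀ x : ↥(K' ⊔ Ln (r + 1)), (x : ℂ) ∈ K' → (t ^ n) x = x) ∧
        ∀ (x : ↥(K' ⊔ Ln (r + 1))) (y : ↥(Ln (r + 1))), (x : ℂ) = y →
          (((t ^ n) x : ↥(K' ⊔ Ln (r + 1))) : ℂ) = ((g ^ n) y : ↥(Ln (r + 1))) := by
      intro n
      induction n with
      | zero => exact ⟨fun x _ => rfl, fun x y hxy => hxy⟩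
      | succ n ih =>
        obtain ⟨i1, i2⟩ := ih
        refine ⟨fun x hx => ?_, fun x y hxy => ?_⟩
        · rw [pow_succ, AlgEquiv.mul_apply, ht1 x hx, i1 x hx]
        · rw [pow_succ, pow_succ, AlgEquiv.mul_apply, AlgEquiv.mul_apply]
          exact i2 _ _ (ht2 x y hxy)
    obtain ⟨w1, w2⟩ := htm m
    let u : MuCyc.Gal h'' := (AlgEquiv.autCongr (extEquiv h'')).symm (t ^ m)
    have hu : ∀ x : IntermediateField.extendScalars h'',
        ((u x : IntermediateField.extendScalars h'') : ℂ) =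
          ((t ^ m) ⟨(x : ℂ), x.2⟩ : ↥(K' ⊔ Ln (r + 1))) := fun x => rfl
    refine ⟨u, ?_, ?_⟩
    · intro x hx
      apply Subtype.ext
      rw [hu]
      have h3 := ext_sup (K := K') (B := Ln r) (C := K' ⊔ Ln (r + 1))
        (((K' ⊔ Ln (r + 1)).val : ↥(K' ⊔ Ln (r + 1)) →+* ℂ).comp
          ((t ^ m : ↥(K' ⊔ Ln (r + 1)) ≃ₐ[k] ↥(K' ⊔ Ln (r + 1))) :
            ↥(K' ⊔ Ln (r + 1)) →+* ↥(K' ⊔ Ln (r + 1))))
        ((K' ⊔ Ln (r + 1)).val : ↥(K' ⊔ Ln (r + 1)) →+* ℂ)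
        (fun y hy => congrArg Subtype.val (w1 y hy))
        (fun y hy => by
          have h4 := w2 y ⟨(y : ℂ), hle hy⟩ rfl
          rw [← hm, hg₁B ⟨(y : ℂ), hle hy⟩ hy] at h4
          exact h4)
        le_sup_left (hle.trans le_sup_right) ⟨(x : ℂ), x.2⟩ hx
      exact h3
    · have h3 : res u = s := by
        apply AlgEquiv.ext
        intro x
        apply Subtype.ext
        rw [← hres u x ⟨(x : ℂ), hLL x.2⟩ rfl, hu]
        have h4 := ext_sup (K := K) (B := Ln (r + 1)) (C := K ⊔ Ln (r + 1))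
          ((((K' ⊔ Ln (r + 1)).val : ↥(K' ⊔ Ln (r + 1)) →+* ℂ).comp
            ((t ^ m : ↥(K' ⊔ Ln (r + 1)) ≃ₐ[k] ↥(K' ⊔ Ln (r + 1))) :
              ↥(K' ⊔ Ln (r + 1)) →+* ↥(K' ⊔ Ln (r + 1)))).comp
            (IntermediateField.inclusion hLL : ↥(K ⊔ Ln (r + 1)) →+* ↥(K' ⊔ Ln (r + 1))))
          (((K ⊔ Ln (r + 1)).val : ↥(K ⊔ Ln (r + 1)) →+* ℂ).comp
            ((s₁ : ↥(K ⊔ Ln (r + 1)) ≃ₐ[k] ↥(K ⊔ Ln (r + 1))) :
              ↥(K ⊔ Ln (r + 1)) →+* ↥(K ⊔ Ln (r + 1))))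
          (fun y hy => by
            have h5 : (t ^ m) ⟨(y : ℂ), hLL y.2⟩ = ⟨(y : ℂ), hLL y.2⟩ := w1 _ (hKK' hy)
            have h6 : s ⟨(y : ℂ), y.2⟩ = ⟨(y : ℂ), y.2⟩ :=
              hs ⟨(y : ℂ), y.2⟩ ((le_sup_left : K ≤ K ⊔ Ln r) hy)
            show (((t ^ m) ⟨(y : ℂ), hLL y.2⟩ : ↥(K' ⊔ Ln (r + 1))) : ℂ) =
              ((s₁ y : ↥(K ⊔ Ln (r + 1))) : ℂ)
            rw [h5, hs₁, h6])
          (fun y hy => by
            have h5 := w2 ⟨(y : ℂ), hLL y.2⟩ ⟨(y : ℂ), hy⟩ rfl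
            have h6 := hg₁ y ⟨(y : ℂ), hy⟩ rfl
            show (((t ^ m) ⟨(y : ℂ), hLL y.2⟩ : ↥(K' ⊔ Ln (r + 1))) : ℂ) =
              ((s₁ y : ↥(K ⊔ Ln (r + 1))) : ℂ)
            rw [h5, h6, hm])
          le_sup_left le_sup_right ⟨(x : ℂ), x.2⟩ x.2
        exact h4
      show χ (res u) ≠ 1
      rw [h3]
      exact hχs

end Pool.Agent.OTF


end

section

/-!
# OT, block I, module NCB (helper7): two embeddings agree on the layer iff `a^(p-1) = b^(p-1)` modulo `p^(n+1)`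
-/

set_option autoImplicit false

open NumberField Polynomial

namespace Pool.Agent.OTI

namespace NCBx

open _root_.MU3 Pool.Agent.MU3 Pool.Agent.RI Pool.Agent.RID Pool.Agent.OB Pool.Agent.OB.Lay
  Pool.Agent.MU3I Pool.Agent.MU3I.Ilay Pool.Agent.OBI Pool.Agent.OBI.NCRx

/-- in a finite cyclic group a subgroup of order `d` is the set of the elements with `x^d = 1` -/
lemma mem_iff {G : Type*} [Group G] [Finite G] [IsCyclic G] (H : Subgroup G) (d : ℕ) (hd : 0 < d)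
    (hH : Nat.card H = d) (x : G) : x ∈ H ↔ x ^ d = 1 := by
  classical
  have : Fintype G := Fintype.ofFinite G
  constructor
  · intro hx
    have h1 : (⟨x, hx⟩ : H) ^ Nat.card H = 1 := pow_card_eq_one'
    rw [hH] at h1
    exact congrArg Subtype.val h1
  · intro hx
    have h1 : (Finset.univ.filter (fun a : G => a ∈ H)) ⊆
        Finset.univ.filter (fun a : G => a ^ d = 1) := by
      intro a ha
      rw [Finset.mem_filter] at ha ⊢
      refine ⟨ha.1, ?_⟩
      have h2 : (⟨a, ha.2⟩ : H) ^ Nat.card H = 1 := pow_card_eq_one'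
      rw [hH] at h2
      exact congrArg Subtype.val h2
    have h3 : (Finset.univ.filter (fun a : G => a ∈ H)).card = d := by
      rw [← hH, Nat.card_eq_fintype_card, Fintype.card_subtype]
    have h4 := IsCyclic.card_pow_eq_one_le (α := G) hd
    have h5 := Finset.eq_of_subset_of_card_le h1 (by rw [h3]; exact h4)
    have h6 : x ∈ Finset.univ.filter (fun a : G => a ^ d = 1) := by
      rw [Finset.mem_filter]
      exact ⟨Finset.mem_univ _, hx⟩
    rw [← h5, Finset.mem_filter] at h6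
    exact h6.2

/-- the automorphisms of the cyclotomic field -/
lemma auts (p m : ℕ) [hp : Fact p.Prime] :
    ∃ e : ((CCf p m) ≃ₐ[ℚ] (CCf p m)) ≃* (ZMod (p ^ m))ˣ,
      ∀ (σ : (CCf p m) ≃ₐ[ℚ] (CCf p m)) (z : CCf p m), z ^ (p ^ m) = 1 →
        σ z = z ^ ((e σ : ZMod (p ^ m)).val) := by
  have hN : p ^ m ≠ 0 := pow_ne_zero m hp.out.ne_zero
  have : NeZero (p ^ m) := ⟨hN⟩
  have hirr : Irreducible (cyclotomic (p ^ m) ℚ) :=
    cyclotomic.irreducible_rat (Nat.pos_of_ne_zero hN)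
  have hcyc : IsCyclotomicExtension {p ^ m} ℚ (CCf p m) := by
    have h := IntermediateField.isCyclotomicExtension_adjoin_of_exists_isPrimitiveRoot
      ({p ^ m} : Set ℕ) ℚ ℂ (fun n hn _ => by
        rw [Set.mem_singleton_iff] at hn
        rw [hn]
        exact ⟨_, Complex.isPrimitiveRoot_exp _ hN⟩)
    have hset : {x : ℂ | ∃ n ∈ ({p ^ m} : Set ℕ), n ≠ 0 ∧ x ^ n = 1} =
        {z : ℂ | z ^ (p ^ m) = 1} := by
      ext x
      simp [hp.out.ne_zero]
    rw [hset] at h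
    exact h
  refine ⟨IsCyclotomicExtension.autEquivPow (CCf p m) hirr, ?_⟩
  intro σ z hz
  have hζ := IsCyclotomicExtension.zeta_spec (p ^ m) ℚ (CCf p m)
  obtain ⟨i, -, hi⟩ := hζ.eq_pow_of_pow_eq_one hz
  have h1 : σ (IsCyclotomicExtension.zeta (p ^ m) ℚ (CCf p m)) =
      (IsCyclotomicExtension.zeta (p ^ m) ℚ (CCf p m)) ^
        (((IsCyclotomicExtension.autEquivPow (CCf p m) hirr) σ : ZMod (p ^ m)).val) :=
    (hζ.autToPow_spec ℚ σ).symm
  rw [← hi, map_pow, h1, ← pow_mul, ← pow_mul, mul_comm]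

/-- the automorphisms of a cyclic extension which fix a subfield -/
lemma fixG {F E : Type} [Field F] [Field E] [Algebra F E] (B C : IntermediateField F E)
    (hBC : B ≤ C) [FiniteDimensional F C] [IsGalois F C] [IsCyclic (C ≃ₐ[F] C)] (m d : ℕ)
    (hm : 0 < m) (hd : 0 < d) (hB : Module.finrank F B = m) (hC : Module.finrank F C = m * d)
    (σ : C ≃ₐ[F] C) : (∀ z : C, (z : E) ∈ B → σ z = z) ↔ σ ^ d = 1 := by
  set B' := IntermediateField.restrict hBC with hB'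
  have hb : Module.finrank F B' = m := by
    rw [← hB]
    exact (IntermediateField.restrictAlgEquiv hBC).toLinearEquiv.finrank_eq.symm
  have h7 := Module.finrank_mul_finrank F B' C
  rw [hb, hC] at h7
  have h8 : Module.finrank B' C = d := Nat.eq_of_mul_eq_mul_left hm h7
  rw [← IsGalois.card_fixingSubgroup_eq_finrank] at h8
  rw [← mem_iff _ d hd h8 σ, IntermediateField.mem_fixingSubgroup_iff]
  constructor
  · intro h x hx
    exact h x ((IntermediateField.mem_restrict hBC x).1 hx)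
  · intro h z hz
    exact h z ((IntermediateField.mem_restrict hBC z).2 hz)

/-- the automorphisms which fix the layer -/
lemma fixB (p : ℕ) [hp : Fact p.Prime] (h2 : p ≠ 2) (n : ℕ) (B : IntermediateField ℚ ℂ)
    (hB : IsLayer p n B) (hBC : B ≤ CCf p (n + 1))
    (σ : (CCf p (n + 1)) ≃ₐ[ℚ] (CCf p (n + 1))) :
    (∀ z : CCf p (n + 1), (z : ℂ) ∈ B → σ z = z) ↔ σ ^ (p - 1) = 1 := by
  have hN : p ^ (n + 1) ≠ 0 := pow_ne_zero _ hp.out.ne_zero
  have hirr : Irreducible (cyclotomic (p ^ (n + 1)) ℚ) :=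
    cyclotomic.irreducible_rat (Nat.pos_of_ne_zero hN)
  obtain ⟨h3, h4, h5, h6⟩ :=
    cycC (F := ℚ) (E := ℂ) p (n + 1) h2 hirr (Complex.isPrimitiveRoot_exp _ hN)
  have hpos : 0 < p - 1 := by
    have := hp.out.two_le
    omega
  rw [Nat.totient_prime_pow_succ hp.out] at h6
  exact fixG (F := ℚ) (E := ℂ) B (IntermediateField.adjoin ℚ {z : ℂ | z ^ (p ^ (n + 1)) = 1}) hBC
    (p ^ n) (p - 1) (pow_pos hp.out.pos n) hpos hB.1 h6 σ

/-- an embedding of `D ⊇ RB p n` agrees with an automorphism of the cyclotomic field -/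
lemma agree (p : ℕ) [hp : Fact p.Prime] (n : ℕ) (D : IntermediateField ℚ ℂ) (hD : RB p n ≤ D)
    (φ : ↥D →+* ℂ) (a : ℕ) (y : ↥D)
    (hy : (y : ℂ) = zt (p ^ (n + 1)) + (zt (p ^ (n + 1)))⁻¹)
    (hφ : φ y = zt (p ^ (n + 1)) ^ a + (zt (p ^ (n + 1)) ^ a)⁻¹)
    (s : (CCf p (n + 1)) ≃ₐ[ℚ] (CCf p (n + 1)))
    (hs : ∀ z : CCf p (n + 1), z ^ (p ^ (n + 1)) = 1 → s z = z ^ a)
    (x : ℂ) (hx : x ∈ RB p n) (hxD : x ∈ D) (hxC : x ∈ CCf p (n + 1)) :
    φ ⟨x, hxD⟩ = (s ⟨x, hxC⟩ : ℂ) := by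
  have hM : p ^ (n + 1) ≠ 0 := pow_ne_zero _ hp.out.ne_zero
  have hC : RB p n ≤ CCf p (n + 1) := rb_cc p n
  let φ' : ↥(RB p n) →+* ℂ := φ.comp (IntermediateField.inclusion hD : ↥(RB p n) →+* ↥D)
  let ψ' : ↥(RB p n) →+* ℂ := ((CCf p (n + 1)).val : ↥(CCf p (n + 1)) →+* ℂ).comp
    ((s : ↥(CCf p (n + 1)) →+* ↥(CCf p (n + 1))).comp
      (IntermediateField.inclusion hC : ↥(RB p n) →+* ↥(CCf p (n + 1))))
  have hyR : zt (p ^ (n + 1)) + (zt (p ^ (n + 1)))⁻¹ ∈ RB p n := by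
    unfold RB
    exact IntermediateField.mem_adjoin_simple_self ℚ _
  have hzC : zt (p ^ (n + 1)) ∈ CCf p (n + 1) :=
    IntermediateField.subset_adjoin _ _ (zt_prim _ hM).pow_eq_one
  have h1 : φ' ⟨_, hyR⟩ = ψ' ⟨_, hyR⟩ := by
    have e1 : φ' ⟨_, hyR⟩ = φ y := congrArg φ (Subtype.ext hy.symm)
    have e2 : ψ' ⟨_, hyR⟩ = (s (⟨_, hzC⟩ + ⟨_, hzC⟩⁻¹) : ℂ) := rfl
    rw [e1, e2, hφ, map_add, map_inv₀, hs ⟨_, hzC⟩ (Subtype.ext (by
      rw [SubmonoidClass.coe_pow]
      exact (zt_prim _ hM).pow_eq_one))]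
    rfl
  have h2 := Pool.Agent.OBI.XMXx.eqB (B := RB p n) (D := RB p n) (by unfold RB; rfl) φ' ψ' hyR h1
    ⟨x, hx⟩ hx
  exact h2

end NCBx

open _root_.MU3 Pool.Agent.MU3 Pool.Agent.RI Pool.Agent.RID Pool.Agent.OB Pool.Agent.OB.Lay
  Pool.Agent.MU3I Pool.Agent.MU3I.Ilay Pool.Agent.OBI Pool.Agent.OBI.NCRx NCBx in
theorem ti_NCB : Ti_NCB := by
  intro p hp h2 n Bn hB hBR D hD φ ψ a b ha hb y hy hφ hψ
  have hM : p ^ (n + 1) ≠ 0 := pow_ne_zero _ hp.out.ne_zero
  have hNZ : NeZero (p ^ (n + 1)) := ⟨hM⟩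
  have hBC : Bn ≤ CCf p (n + 1) := hBR.trans (rb_cc p n)
  obtain ⟨e, he⟩ := auts p (n + 1)
  have cop : ∀ c : ℕ, ¬ p ∣ c → Nat.Coprime c (p ^ (n + 1)) := fun c hc =>
    Nat.Coprime.pow_right _ ((Nat.Prime.coprime_iff_not_dvd hp.out).2 hc).symm
  -- the automorphism of a unit
  have ex : ∀ (c : ℕ) (hc : ¬ p ∣ c), ∀ z : CCf p (n + 1), z ^ (p ^ (n + 1)) = 1 →
      (e.symm (ZMod.unitOfCoprime c (cop c hc))) z = z ^ c := by
    intro c hc z hz
    rw [he _ z hz, MulEquiv.apply_symm_apply, ZMod.coe_unitOfCoprime, ZMod.val_natCast]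
    conv_rhs => rw [← Nat.mod_add_div c (p ^ (n + 1)), pow_add, pow_mul, hz, one_pow, mul_one]
  set s := e.symm (ZMod.unitOfCoprime a (cop a ha)) with hs
  set t := e.symm (ZMod.unitOfCoprime b (cop b hb)) with ht
  have hsφ := agree p n D hD φ a y hy hφ s (ex a ha)
  have htψ := agree p n D hD ψ b y hy hψ t (ex b hb)
  have h1 : (∀ z : ↥D, (z : ℂ) ∈ Bn → φ z = ψ z) ↔
      (∀ z : CCf p (n + 1), (z : ℂ) ∈ Bn → (t⁻¹ * s) z = z) := by
    constructor
    · intro h z hz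
      have hzR : (z : ℂ) ∈ RB p n := hBR hz
      have h3 := h ⟨z, hD hzR⟩ hz
      rw [hsφ z hzR (hD hzR) z.2, htψ z hzR (hD hzR) z.2] at h3
      have h4 : s z = t z := Subtype.ext h3
      rw [AlgEquiv.mul_apply, h4, ← AlgEquiv.mul_apply, inv_mul_cancel]
      rfl
    · intro h z hz
      have hzR : (z : ℂ) ∈ RB p n := hBR hz
      have hzC : (z : ℂ) ∈ CCf p (n + 1) := hBC hz
      have h3 := h ⟨z, hzC⟩ hz
      have h4 : s ⟨z, hzC⟩ = t ⟨z, hzC⟩ := by
        conv_rhs => rw [← h3]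
        rw [← AlgEquiv.mul_apply, mul_inv_cancel_left]
      have e1 : φ z = (s ⟨z, hzC⟩ : ℂ) := hsφ z hzR z.2 hzC
      have e2 : ψ z = (t ⟨z, hzC⟩ : ℂ) := htψ z hzR z.2 hzC
      rw [e1, e2, h4]
  rw [h1, fixB p h2 n Bn hB hBC (t⁻¹ * s)]
  have h5 : (t⁻¹ * s) ^ (p - 1) = 1 ↔
      (ZMod.unitOfCoprime a (cop a ha)) ^ (p - 1) = (ZMod.unitOfCoprime b (cop b hb)) ^ (p - 1) := by
    rw [hs, ht, ← map_inv, ← map_mul, ← map_pow, EmbeddingLike.map_eq_one_iff, mul_pow, inv_pow,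
      inv_mul_eq_one, eq_comm]
  rw [h5, Units.ext_iff, Units.val_pow_eq_pow_val, Units.val_pow_eq_pow_val,
    ZMod.coe_unitOfCoprime, ZMod.coe_unitOfCoprime]
  have h6 : ((a : ZMod (p ^ (n + 1))) ^ (p - 1) = (b : ZMod (p ^ (n + 1))) ^ (p - 1)) ↔
      (((b : ℤ) ^ (p - 1) : ℤ) : ZMod (p ^ (n + 1))) = (((a : ℤ) ^ (p - 1) : ℤ) : ZMod (p ^ (n + 1))) := by
    push_cast
    exact eq_comm
  rw [h6, ZMod.intCast_eq_intCast_iff_dvd_sub]

end Pool.Agent.OTI


end

section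

/-!
# OT, block HB, module HT1 (helper53): the symbols `QT` are symbols, algebraic, bounded

No hypothesis: `to_SAF`, `to_VAL`, `to_RAM`, `to_BDN` are used. The weights `kkE er p R kk d` are the restriction of `kk` to
a subset of `ι`, so there are only finitely many families.
-/

set_option autoImplicit false

namespace Pool.Agent.OT

open _root_.MU3 _root_.Pool.Agent.MU3A _root_.Pool.Agent.MU3B _root_.Pool.Agent.MU3F
  _root_.Pool.Agent.MUX _root_.Pool.Agent.MUXH _root_.Pool.Agent.MuSym _root_.Pool.Agent.OB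
  _root_.Pool.Agent.OBH OnePoint

noncomputable section

namespace HT1

/-- the symbol `ι^* P` -/
theorem isSym_neg {N : ℕ} {nu : ℤ → ℂ} {P : OnePoint ℚ → OnePoint ℚ → ℂ} (h : IsSym N nu P) :
    IsSym N nu (fun x y => P (mob (-1) 0 0 1 x) (mob (-1) 0 0 1 y)) := by
  constructor
  · intro x y z
    exact h.add _ _ _
  · intro a b c d hd hc x y
    show P (mob (-1) 0 0 1 (mob a b c d x)) (mob (-1) 0 0 1 (mob a b c d y)) = _
    rw [Hk.mob_conj, Hk.mob_conj]
    exact h.equiv a (-b) (-c) d (by linear_combination hd) (hc.neg_right) _ _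

theorem isSym_add {N : ℕ} {nu : ℤ → ℂ} {P Q : OnePoint ℚ → OnePoint ℚ → ℂ} (h : IsSym N nu P)
    (h' : IsSym N nu Q) (s : ℂ) : IsSym N nu (fun x y => P x y + s * Q x y) := by
  constructor
  · intro x y z
    rw [← h.add x y z, ← h'.add x y z]
    ring
  · intro a b c d hd hc x y
    show P (mob a b c d x) (mob a b c d y) + s * Q (mob a b c d x) (mob a b c d y) = _
    rw [h.equiv a b c d hd hc, h'.equiv a b c d hd hc]
    ring

/-- the weights are a restriction of `kk` -/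
theorem kkE_eq {A B : ℤ} {n : ℕ} {ι : Type} (er p : ℕ) (R : Reps A B n ι) (kk : ι → ℂ)
    (d : ℤ) : kkE er p R kk d =
      Set.indicator {i | er = 1 ∨ jacobiSym (d * (nI (R.b i) : ℤ)) p = 1} kk := by
  classical
  funext i
  rw [Set.indicator_apply]
  unfold kkE
  by_cases h1 : er = 1
  · rw [if_pos h1, if_pos (show i ∈ {i | er = 1 ∨ jacobiSym (d * (nI (R.b i) : ℤ)) p = 1} from
      Or.inl h1)]
  · rw [if_neg h1]
    unfold kkJ
    by_cases h2 : jacobiSym (d * (nI (R.b i) : ℤ)) p = 1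
    · rw [if_pos h2, if_pos (show i ∈ {i | er = 1 ∨ jacobiSym (d * (nI (R.b i) : ℤ)) p = 1} from
        Or.inr h2)]
    · rw [if_neg h2, if_neg (show i ∉ {i | er = 1 ∨ jacobiSym (d * (nI (R.b i) : ℤ)) p = 1} from
        fun h => h.elim h1 h2)]

theorem QT_eq {A B : ℤ} {n : ℕ} {ι : Type} [Fintype ι] (er p : ℕ) (R : Reps A B n ι)
    (e : OO A B → ℂ) (kk : ι → ℂ) (s u : ℂ) (z₀ : ℤ) (k : ℕ) (x y : OnePoint ℚ) :
    QT er p R e kk s u z₀ k x y =
      PhiK R e (kkE er p R kk (z₀ ^ k)) x y / (u * R.om R.i0) +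
      s * (PhiK R e (kkE er p R kk (-z₀ ^ k)) (mob (-1) 0 0 1 x) (mob (-1) 0 0 1 y) /
        (u * R.om R.i0)) := by
  unfold QT
  rw [add_div, mul_div_assoc]

theorem mono (V : ValuationSubring ℂ) (p : ℕ) (vp : V.valuation (p : ℂ) ≤ 1) (K K' : ℕ)
    (h : K' ≤ K) (z : ℂ) (hz : V.valuation ((p : ℂ) ^ K' * z) ≤ 1) :
    V.valuation ((p : ℂ) ^ K * z) ≤ 1 := by
  obtain ⟨m, rfl⟩ := Nat.exists_eq_add_of_le h
  rw [show (p : ℂ) ^ (K' + m) * z = (p : ℂ) ^ m * ((p : ℂ) ^ K' * z) by rw [pow_add]; ring,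
    map_mul, map_pow]
  exact mul_le_one' (pow_le_one' vp m) hz

end HT1

/-- (HT1) symbols, algebraic, bounded -/
theorem ob_HT1 : Ob_HT1 := by
  intro p er A B P V f hS hT ι _ R e he r hr0 her kk hkk u hu hua s hs z₀
  have h2 : So_VAL := to_VAL to_RAM
  have h6 : So_SAF := to_SAF h2
  have hpp : p.Prime := hS.pp
  obtain ⟨vp, vZ, -⟩ := h2 p er A B P V f hS
  have hk0 : ∀ (S : Set ι) (j : ι), S.indicator kk j = 0 ∨ S.indicator kk j ^ r = 1 := by
    intro S j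
    by_cases hj : j ∈ S
    · rw [Set.indicator_of_mem hj]
      exact Or.inr (hkk j)
    · rw [Set.indicator_of_notMem hj]
      exact Or.inl rfl
  have key := fun S : Set ι => h6 p er A B P V f hS hT ι R e he r hr0 her (S.indicator kk)
    (hk0 S) u hu hua
  have bd : ∀ S : Set ι, ∃ K : ℕ, ∀ x y,
      V.valuation ((p : ℂ) ^ K * (PhiK R e (S.indicator kk) x y / (u * R.om R.i0))) ≤ 1 :=
    fun S => to_BDN p hpp V vp _ (key S).2.1 (key S).2.2
  choose K' hK' using bd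
  obtain ⟨K, hK⟩ := (Set.finite_range K').bddAbove
  have hK1 : ∀ S : Set ι, K' S ≤ K := fun S => hK (Set.mem_range_self S)
  have sA : IsAlgebraic ℚ s := by
    rcases hs with rfl | rfl
    · exact isAlgebraic_one
    · exact isAlgebraic_one.neg
  have sv : V.valuation s ≤ 1 := by
    rcases hs with rfl | rfl
    · rw [map_one]
    · rw [Valuation.map_neg, map_one]
  refine ⟨fun k => ?_, fun k x y => ?_, K, fun k x y => ?_⟩
  · have h9 := HT1.isSym_add (key {i | er = 1 ∨ jacobiSym (z₀ ^ k * (nI (R.b i) : ℤ)) p = 1}).1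
      (HT1.isSym_neg (key {i | er = 1 ∨ jacobiSym (-z₀ ^ k * (nI (R.b i) : ℤ)) p = 1}).1) s
    have h12 : (fun x y => (fun x y => PhiK R e
          (Set.indicator {i | er = 1 ∨ jacobiSym (z₀ ^ k * (nI (R.b i) : ℤ)) p = 1} kk) x y /
            (u * R.om R.i0)) x y +
          s * (fun x y => (fun x y => PhiK R e
            (Set.indicator {i | er = 1 ∨ jacobiSym (-z₀ ^ k * (nI (R.b i) : ℤ)) p = 1} kk) x y /
            (u * R.om R.i0)) (mob (-1) 0 0 1 x) (mob (-1) 0 0 1 y)) x y) =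
        QT er p R e kk s u z₀ k := by
      funext x y
      rw [HT1.QT_eq, HT1.kkE_eq, HT1.kkE_eq]
    rw [← h12]
    exact h9
  · rw [HT1.QT_eq, HT1.kkE_eq, HT1.kkE_eq]
    exact ((key _).2.1 x y).add (sA.mul ((key _).2.1 _ _))
  · rw [HT1.QT_eq, HT1.kkE_eq, HT1.kkE_eq, mul_add]
    refine (Valuation.map_add V.valuation _ _).trans (max_le ?_ ?_)
    · exact HT1.mono V p vp.le K _ (hK1 _) _ (hK' _ x y)
    · rw [mul_left_comm, map_mul]
      exact mul_le_one' sv (HT1.mono V p vp.le K _ (hK1 _) _ (hK' _ _ _))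

end

end Pool.Agent.OT


end
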