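import Pool.Agent.OBM.C19
import Pool.Agent.OTM.C03
import Pool.Agent.OTM.C04

/-! Parts: OB.F_CNJ, OB.F_FRB, OB.F_REL, OB.F_P5 -/

section

/-!
# OB, FINAL (helper60): complex conjugation; `p = 5`
-/

set_option autoImplicit false

open NumberField IsDedekindDomain Finset
open scoped nonZeroDivisors Pointwise

namespace Pool.Agent.OBF

open _root_.Pool.Agent.RI _root_.Pool.Agent.RID _root_.Pool.Agent.MU3 _root_.Pool.Agent.MUXK
  _root_.Pool.Agent.MUXZ _root_.Pool.Agent.NSI _root_.Pool.Agent.OB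

open CHIx OB.CNJ

namespace CNJx

lemma mulEquiv_comp {L : Type} [Field L] [NumberField L] (τ₁ τ₂ : L ≃+* L)
    (a : ClassGroup (𝓞 L)) :
    ClassGroup.mulEquiv (RingOfIntegers.mapRingEquiv τ₁)
      (ClassGroup.mulEquiv (RingOfIntegers.mapRingEquiv τ₂) a) =
      ClassGroup.mulEquiv (RingOfIntegers.mapRingEquiv (τ₂.trans τ₁)) a := by
  refine ClassGroup.induction (R := 𝓞 L) L (P := fun a =>
    ClassGroup.mulEquiv (RingOfIntegers.mapRingEquiv τ₁)
      (ClassGroup.mulEquiv (RingOfIntegers.mapRingEquiv τ₂) a) =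
      ClassGroup.mulEquiv (RingOfIntegers.mapRingEquiv (τ₂.trans τ₁)) a) (fun x => ?_) a
  rw [mulEquiv_mk, mulEquiv_mk, mulEquiv_mk, actU_comp]

/-- complex conjugation -/
noncomputable def cc : ℂ ≃+* ℂ := (Complex.conjAe : ℂ ≃ₐ[ℝ] ℂ).toRingEquiv

lemma cc_apply (z : ℂ) : cc z = (starRingEnd ℂ) z := rfl

lemma cc_cc (z : ℂ) : cc (cc z) = z := Complex.conj_conj z

lemma quad_stable (k : IntermediateField ℚ ℂ) (h2 : Module.finrank ℚ k = 2) :
    ∀ x, x ∈ k ↔ cc x ∈ k := by
  have : FiniteDimensional ℚ k := Module.finite_of_finrank_pos (by rw [h2]; norm_num)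
  have : Algebra.IsQuadraticExtension ℚ k := ⟨h2⟩
  have hn : @Normal ℚ k _ _ (IntermediateField.algebra' k) := by
    have h3 : Normal ℚ k := Algebra.IsQuadraticExtension.normal ℚ k
    convert h3
    exact Subsingleton.elim _ _
  let c : ℂ →ₐ[ℚ] ℂ := (Complex.conjAe.toAlgHom).restrictScalars ℚ
  have h1 : ∀ x ∈ k, cc x ∈ k := by
    intro x hx
    have h3 : (c.comp k.val).fieldRange = k := @AlgHom.fieldRange_of_normal ℚ ℂ _ _ _ k hn _
    rw [← h3]
    exact ⟨⟨x, hx⟩, rfl⟩
  intro x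
  exact ⟨h1 x, fun hx => by simpa [cc_cc] using h1 _ hx⟩

end CNJx

open _root_.Pool.Agent.OBF.CNJx

/-- The complex conjugate of a good character is good. -/
theorem conj_mu (p : ℕ) [Fact p.Prime] {k K : IntermediateField ℚ ℂ} [FiniteDimensional ℚ K]
    (h : k ≤ K) (h2 : Module.finrank ℚ k = 2) (hK : ∀ z ∈ K, (starRingEnd ℂ) z ∈ K)
    (χ χ' : MuCyc.Chr p h) (hχ : MuCyc.IsConj p h χ χ') (hm : MuCyc.MuZeroC p h χ) :
    MuCyc.MuZeroC p h χ' := by
  obtain ⟨C, hC⟩ := hm
  refine ⟨C, fun n Q hQ => le_trans ?_ (hC n Q hQ)⟩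
  have hpp : p.Prime := Fact.out
  have hfQ : FiniteDimensional ℚ Q :=
    Module.finite_of_finrank_pos (by rw [hQ.1]; exact pow_pos hpp.pos n)
  have hfL : FiniteDimensional ℚ ↥(K ⊔ Q) := IntermediateField.finiteDimensional_sup K Q
  have hKc : ∀ x, x ∈ K ↔ cc x ∈ K := fun x =>
    ⟨hK x, fun hx => by simpa [← cc_apply, cc_cc] using hK _ hx⟩
  have hQc : ∀ x, x ∈ Q ↔ cc x ∈ Q := by
    intro x
    constructor
    · intro hx
      rw [cc_apply, hQ.2.1 x hx]
      exact hx
    · intro hx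
      have h5 := hQ.2.1 _ hx
      rw [← cc_apply, cc_cc] at h5
      rw [h5]
      exact hx
  obtain ⟨κ, hκ⟩ := restr_ring cc (K ⊔ Q) (sup_iff cc K Q hKc hQc)
  have hκκ : ∀ x, κ (κ x) = x := by
    intro x
    apply Subtype.ext
    rw [hκ, hκ, cc_cc]
  let φ : (ClassGroup (𝓞 ↥(K ⊔ Q)) → AlgebraicClosure (ZMod p)) →ₗ[AlgebraicClosure (ZMod p)]
      (ClassGroup (𝓞 ↥(K ⊔ Q)) → AlgebraicClosure (ZMod p)) :=
    LinearMap.funLeft _ _ (fun a => ClassGroup.mulEquiv (RingOfIntegers.mapRingEquiv κ) a)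
  have hinj : Function.Injective φ := by
    apply LinearMap.funLeft_injective_of_surjective
    exact (ClassGroup.mulEquiv (RingOfIntegers.mapRingEquiv κ)).surjective
  have hmap : (MuCyc.chiPart p h χ' Q).map φ ≤ MuCyc.chiPart p h χ Q := by
    rintro _ ⟨f, ⟨h3, h4⟩, rfl⟩
    refine ⟨fun a b => ?_, fun τ s hτ hs a => ?_⟩
    · show f (ClassGroup.mulEquiv _ (a * b)) = f (ClassGroup.mulEquiv _ a) +
        f (ClassGroup.mulEquiv _ b)
      rw [map_mul, h3]
    · show f (ClassGroup.mulEquiv (RingOfIntegers.mapRingEquiv κ)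
        (ClassGroup.mulEquiv (RingOfIntegers.mapRingEquiv τ) a)) =
        (χ s : AlgebraicClosure (ZMod p)) *
          f (ClassGroup.mulEquiv (RingOfIntegers.mapRingEquiv κ) a)
      -- the conjugate of `s`
      obtain ⟨κK, hκK⟩ := restr_ring cc K hKc
      let eS : IntermediateField.extendScalars h ≃+* IntermediateField.extendScalars h :=
        { toFun := fun x => ⟨cc x, (hKc _).1 x.2⟩
          invFun := fun x => ⟨cc x, (hKc _).1 x.2⟩
          left_inv := fun x => Subtype.ext (cc_cc _)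
          right_inv := fun x => Subtype.ext (cc_cc _)
          map_mul' := fun x y => Subtype.ext (map_mul cc _ _)
          map_add' := fun x y => Subtype.ext (map_add cc _ _) }
      have heS : ∀ x : IntermediateField.extendScalars h,
          ((eS x : IntermediateField.extendScalars h) : ℂ) = cc x := fun _ => rfl
      have heS2 : ∀ x : IntermediateField.extendScalars h, eS (eS x) = x := fun x =>
        Subtype.ext (cc_cc _)
      let s' : MuCyc.Gal h := AlgEquiv.ofRingEquiv (f := (eS.trans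
        (s : IntermediateField.extendScalars h ≃+* IntermediateField.extendScalars h)).trans eS)
        (by
          intro a
          have ha : cc (a : ℂ) ∈ k := (quad_stable k h2 _).1 a.2
          have e1 : eS (algebraMap k (IntermediateField.extendScalars h) a) =
              algebraMap k (IntermediateField.extendScalars h) ⟨cc a, ha⟩ := Subtype.ext rfl
          show eS (s (eS (algebraMap k (IntermediateField.extendScalars h) a))) = _
          rw [e1, s.commutes, ← e1, heS2])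
      have hs' : ∀ x, s' x = eS (s (eS x)) := fun _ => rfl
      have e1 : χ' s' = χ s := by
        apply hχ s s'
        intro x y hxy
        have hy : y = eS x := Subtype.ext hxy
        rw [hs', heS, hy, ← cc_apply, cc_cc]
      rw [mulEquiv_comp, ← e1]
      have e2 := h4 ((κ.trans τ).trans κ) s' (by
          intro x hx
          show κ (τ (κ x)) = x
          have h5 : ((κ x : ↥(K ⊔ Q)) : ℂ) ∈ Q := by
            rw [hκ]
            exact (hQc _).1 hx
          rw [hτ _ h5, hκκ]) (by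
          intro x y hxy
          show ((κ (τ (κ x)) : ↥(K ⊔ Q)) : ℂ) = (s' y : IntermediateField.extendScalars h)
          rw [hκ, hs', heS]
          congr 1
          apply hs (κ x) (eS y)
          rw [hκ, heS, hxy]) (ClassGroup.mulEquiv (RingOfIntegers.mapRingEquiv κ) a)
      rw [mulEquiv_comp] at e2
      rw [← e2]
      have e3 : τ.trans κ = κ.trans ((κ.trans τ).trans κ) := by
        apply RingEquiv.ext
        intro x
        show κ (τ x) = κ (τ (κ (κ x)))
        rw [hκκ]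
      rw [← e3]
  have hfin : Finite (ClassGroup (𝓞 ↥(K ⊔ Q))) := inferInstance
  calc Module.finrank (AlgebraicClosure (ZMod p)) (MuCyc.chiPart p h χ' Q)
      = Module.finrank (AlgebraicClosure (ZMod p)) ((MuCyc.chiPart p h χ' Q).map φ) :=
        (Submodule.equivMapOfInjective φ hinj _).finrank_eq
    _ ≤ _ := Submodule.finrank_mono hmap

/-- `p = 5`: if the complex conjugate of `χ` is `χ ω²` then all twists of `χ` are good. -/
theorem five (hLAY : Sf_LAY) (hBAX : Sq_BAX) (hNIL : O_NIL) (p : ℕ) [Fact p.Prime] (hp5 : p = 5)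
    (k K : IntermediateField ℚ ℂ) [FiniteDimensional ℚ K] (h : k ≤ K)
    (hG : IsGalois k (IntermediateField.extendScalars h))
    (hc : ∀ σ τ : (IntermediateField.extendScalars h) ≃ₐ[k] (IntermediateField.extendScalars h),
      σ * τ = τ * σ)
    (h2 : Module.finrank ℚ k = 2) (hi : ∃ z ∈ k, (starRingEnd ℂ) z ≠ z)
    (h4 : ∀ z ∈ k, z ^ 2 ≠ -1) (h3 : ∀ z ∈ k, z ^ 2 ≠ -3)
    (hd : ¬ p ∣ Module.finrank k (IntermediateField.extendScalars h))
    (hz : ∃ ζ ∈ K, IsPrimitiveRoot ζ p) (hK : ∀ z ∈ K, (starRingEnd ℂ) z ∈ K)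
    (χ χ₁ : MuCyc.Chr p h) (h1 : MuCyc.IsTwist p h χ χ₁ 2) (h1c : MuCyc.IsConj p h χ χ₁)
    (j : ℕ) (χ' : MuCyc.Chr p h) (hj : MuCyc.IsTwist p h χ χ' j) : MuCyc.MuZeroC p h χ' := by
  obtain ⟨ω, hω, hω1, hω4⟩ := exists_omega p h hz
  rw [hω] at h1 hj
  subst h1 hj
  -- `ω (s') = ω (s)` for conjugate `s`, `s'`
  have hωc : ∀ s s' : MuCyc.Gal h, (∀ x y : IntermediateField.extendScalars h,
      (y : ℂ) = (starRingEnd ℂ) x → ((s y : IntermediateField.extendScalars h) : ℂ) =
        (starRingEnd ℂ) (s' x : IntermediateField.extendScalars h)) → ω s' = ω s := by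
    intro s s' hss
    obtain ⟨c, hc1, hc2⟩ := hω1 s
    have h5 : MuCyc.IsTwist p h 1 ω 1 := (hω 1 ω 1).2 (by
      apply MonoidHom.ext
      intro s
      show ω s = 1 * (ω s) ^ 1
      rw [one_mul, pow_one])
    apply Units.ext
    rw [hc2]
    have h6 := h5 s' c (by
      intro z hz
      -- the conjugate of `z`
      have hy : (starRingEnd ℂ) (z : ℂ) ∈ IntermediateField.extendScalars h := hK _ z.2
      have h7 := hss z ⟨_, hy⟩ rfl
      have h8 : (⟨_, hy⟩ : IntermediateField.extendScalars h) ^ p = 1 := by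
        apply Subtype.ext
        show ((starRingEnd ℂ) (z : ℂ)) ^ p = 1
        rw [← map_pow]
        have h9 : (z : ℂ) ^ p = 1 := congrArg Subtype.val hz
        rw [h9, map_one]
      rw [hc1 _ h8] at h7
      apply Subtype.ext
      have h9 : ((starRingEnd ℂ) (z : ℂ)) ^ c = (starRingEnd ℂ) ((s' z : _) : ℂ) := h7
      rw [← map_pow] at h9
      exact ((starRingEnd ℂ).injective h9).symm)
    rw [h6]
    simp
  have hcj : ∀ i : ℕ, MuCyc.IsConj p h (χ * ω ^ i) (χ * ω ^ 2 * ω ^ i) := by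
    intro i s s' hss
    have h5 := h1c s s' hss
    have h6 := hωc s s' hss
    show χ s' * (ω s') ^ 2 * (ω s') ^ i = χ s * (ω s) ^ i
    have h7 : χ s' * (ω s') ^ 2 = χ s := h5
    rw [h7, h6]
  have hper : ∀ i : ℕ, χ * ω ^ (i + 4) = χ * ω ^ i := by
    intro i
    apply MonoidHom.ext
    intro s
    show χ s * (ω s) ^ (i + 4) = χ s * (ω s) ^ i
    have h5 : (ω s) ^ 4 = 1 := by
      have h6 : (ω s) ^ (p - 1) = 1 := congrArg (fun f : MuCyc.Chr p h => f s) hω4
      have h7 : p - 1 = 4 := by omega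
      rwa [h7] at h6
    rw [pow_add, h5, mul_one]
  have hadd : ∀ i : ℕ, χ * ω ^ 2 * ω ^ i = χ * ω ^ (i + 2) := by
    intro i
    apply MonoidHom.ext
    intro s
    show χ s * (ω s) ^ 2 * (ω s) ^ i = χ s * (ω s) ^ (i + 2)
    rw [pow_add, mul_assoc, mul_comm ((ω s) ^ 2)]
  -- one of `χ ω ^ i`, `χ ω ^ (i + 2)` is good, hence both
  have hstep : ∀ i : ℕ, MuCyc.MuZeroC p h (χ * ω ^ i) → MuCyc.MuZeroC p h (χ * ω ^ (i + 2)) := by
    intro i hi'
    rw [← hadd]
    exact conj_mu p h h2 hK _ _ (hcj i) hi'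
  have hstep' : ∀ i : ℕ, MuCyc.MuZeroC p h (χ * ω ^ (i + 2)) →
      MuCyc.MuZeroC p h (χ * ω ^ i) := by
    intro i hi'
    have := hstep (i + 2) hi'
    rwa [show i + 2 + 2 = i + 4 from rfl, hper] at this
  have hgood : ∀ i : ℕ, MuCyc.MuZeroC p h (χ * ω ^ i) := by
    intro i
    obtain ⟨e, χ₂, he, hev, htw, hmu⟩ := one_even hLAY hBAX hNIL p (by omega) k K h hG hc h2 hi
      h4 h3 hd hz (χ * ω ^ i)
    rw [hω] at htw
    subst htw
    have e1 : χ * ω ^ i * ω ^ e = χ * ω ^ (i + e) := by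
      apply MonoidHom.ext
      intro s
      show χ s * (ω s) ^ i * (ω s) ^ e = χ s * (ω s) ^ (i + e)
      rw [pow_add, mul_assoc]
    rw [e1] at hmu
    have : e = 0 ∨ e = 2 := by
      obtain ⟨a, ha⟩ := hev
      omega
    rcases this with rfl | rfl
    · exact hmu
    · exact hstep' i hmu
  exact hgood j

end Pool.Agent.OBF


end

section

/-!
# OB, FINAL (helper60): Frobenius
-/

set_option autoImplicit false

open NumberField IsDedekindDomain Finset
open scoped nonZeroDivisors Pointwise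

namespace Pool.Agent.OBF

open _root_.Pool.Agent.RI _root_.Pool.Agent.RID _root_.Pool.Agent.MU3 _root_.Pool.Agent.MUXK
  _root_.Pool.Agent.MUXZ _root_.Pool.Agent.NSI _root_.Pool.Agent.OB

namespace FRBx

/-- Semilinear injections do not decrease the dimension. -/
lemma finrank_le_semi {F V W : Type} [Field F] [AddCommGroup V] [Module F V] [AddCommGroup W]
    [Module F W] [Module.Finite F V] [Module.Finite F W] (σ : F ≃+* F) (φ : V → W)
    (hadd : ∀ x y, φ (x + y) = φ x + φ y) (hs : ∀ (c : F) x, φ (c • x) = σ c • φ x)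
    (hinj : Function.Injective φ) : Module.finrank F V ≤ Module.finrank F W := by
  let b := Module.finBasis F V
  have h0 : φ 0 = 0 := by
    have := hadd 0 0
    rw [add_zero] at this
    exact left_eq_add.1 this
  have hsum : ∀ (s : Finset (Fin (Module.finrank F V))) (c : Fin (Module.finrank F V) → F),
      φ (∑ i ∈ s, c i • b i) = ∑ i ∈ s, σ (c i) • φ (b i) := by
    classical
    intro s c
    induction s using Finset.induction_on with
    | empty => rw [Finset.sum_empty, Finset.sum_empty, h0]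
    | insert a s ha ih => rw [Finset.sum_insert ha, Finset.sum_insert ha, hadd, hs, ih]
  have hli : LinearIndependent F (fun i => φ (b i)) := by
    rw [Fintype.linearIndependent_iff]
    intro c hc i
    have h1 : φ (∑ i, σ.symm (c i) • b i) = 0 := by
      rw [hsum]
      simpa using hc
    have h2 : ∑ i, σ.symm (c i) • b i = 0 := hinj (h1.trans h0.symm)
    have h3 := (Fintype.linearIndependent_iff.1 b.linearIndependent) _ h2 i
    rw [← σ.apply_symm_apply (c i), h3, map_zero]
  have := hli.fintype_card_le_finrank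
  rwa [Fintype.card_fin] at this

end FRBx

open _root_.Pool.Agent.OBF.FRBx

/-- The power of a good character is good. -/
theorem frob_mu (p : ℕ) [Fact p.Prime] {k K : IntermediateField ℚ ℂ} [FiniteDimensional ℚ K]
    (h : k ≤ K) (χ : MuCyc.Chr p h) (hm : MuCyc.MuZeroC p h χ) :
    MuCyc.MuZeroC p h (χ ^ p) := by
  obtain ⟨C, hC⟩ := hm
  refine ⟨C, fun n Q hQ => le_trans ?_ (hC n Q hQ)⟩
  have hpp : p.Prime := Fact.out
  have hfQ : FiniteDimensional ℚ Q :=
    Module.finite_of_finrank_pos (by rw [hQ.1]; exact pow_pos hpp.pos n)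
  have hfL : FiniteDimensional ℚ ↥(K ⊔ Q) := IntermediateField.finiteDimensional_sup K Q
  have hfin : Finite (ClassGroup (𝓞 ↥(K ⊔ Q))) := inferInstance
  let σ : AlgebraicClosure (ZMod p) ≃+* AlgebraicClosure (ZMod p) :=
    frobeniusEquiv (AlgebraicClosure (ZMod p)) p
  have hσ : ∀ x, σ x = x ^ p := fun x => rfl
  have hσp : ∀ x, (σ.symm x) ^ p = x := fun x => by rw [← hσ, RingEquiv.apply_symm_apply]
  let φ : MuCyc.chiPart p h (χ ^ p) Q → MuCyc.chiPart p h χ Q := fun f =>
    ⟨fun a => σ.symm (f.1 a), by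
      refine ⟨fun a b => ?_, fun τ s hτ hs a => ?_⟩
      · show σ.symm (f.1 (a * b)) = σ.symm (f.1 a) + σ.symm (f.1 b)
        rw [f.2.1, map_add]
      · show σ.symm (f.1 _) = (χ s : AlgebraicClosure (ZMod p)) * σ.symm (f.1 a)
        rw [f.2.2 τ s hτ hs, map_mul]
        congr 1
        rw [RingEquiv.symm_apply_eq, hσ]
        rfl⟩
  have hinj : Function.Injective φ := by
    intro f g hfg
    apply Subtype.ext
    funext a
    have h1 := congrArg (fun q : MuCyc.chiPart p h χ Q => q.1 a) hfg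
    exact σ.symm.injective h1
  exact finrank_le_semi σ.symm φ
    (fun x y => Subtype.ext (funext fun a => map_add σ.symm _ _))
    (fun c x => Subtype.ext (funext fun a => map_mul σ.symm _ _)) hinj

end Pool.Agent.OBF


end

section

/-!
# OB, FINAL (helper60): relative class numbers
-/

set_option autoImplicit false

open NumberField IsDedekindDomain Finset
open scoped nonZeroDivisors Pointwise

namespace Pool.Agent.OBF

open _root_.Pool.Agent.RI _root_.Pool.Agent.RID _root_.Pool.Agent.MU3 _root_.Pool.Agent.MUXK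
  _root_.Pool.Agent.MUXZ _root_.Pool.Agent.NSI _root_.Pool.Agent.OB

open CHIx OB.CNJ

/-- The dimension of `EigS` is at most that of `chiPart`. -/
theorem eig_chi (p : ℕ) [Fact p.Prime] (k K : IntermediateField ℚ ℂ) (h : k ≤ K)
    (B : ℕ → IntermediateField ℚ ℂ) (n : ℕ) [FiniteDimensional ℚ ↥(K ⊔ B n)]
    (hk : k ≤ K ⊔ B n) (χ : MuCyc.Chr p h) :
    Module.Finite (AlgebraicClosure (ZMod p))
      (EigS (AlgebraicClosure (ZMod p)) k K B n hk h (toC h χ)) ∧
    Module.finrank (AlgebraicClosure (ZMod p))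
        (EigS (AlgebraicClosure (ZMod p)) k K B n hk h (toC h χ)) ≤
      Module.finrank (AlgebraicClosure (ZMod p)) (MuCyc.chiPart p h χ (B n)) := by
  let _ := algC h
  let _ := algC hk
  let φ : (ClassGroup (𝓞 ↥(K ⊔ B n)) → AlgebraicClosure (ZMod p)) →ₗ[AlgebraicClosure (ZMod p)]
      (J ↥(K ⊔ B n) → AlgebraicClosure (ZMod p)) :=
    LinearMap.funLeft _ _ (fun x => ClassGroup.mk ↥(K ⊔ B n) x)
  have hmap : EigS (AlgebraicClosure (ZMod p)) k K B n hk h (toC h χ) ≤
      (MuCyc.chiPart p h χ (B n)).map φ := by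
    rintro f ⟨h1, h2, h3⟩
    have hsurj : ∀ c : ClassGroup (𝓞 ↥(K ⊔ B n)), ∃ x : J ↥(K ⊔ B n),
        ClassGroup.mk ↥(K ⊔ B n) x = c := fun c =>
      ClassGroup.induction (R := 𝓞 ↥(K ⊔ B n)) ↥(K ⊔ B n)
        (P := fun c => ∃ x : J ↥(K ⊔ B n), ClassGroup.mk ↥(K ⊔ B n) x = c) (fun I => ⟨I, rfl⟩) c
    choose o ho using hsurj
    have hwd : ∀ x y : J ↥(K ⊔ B n), ClassGroup.mk ↥(K ⊔ B n) x = ClassGroup.mk ↥(K ⊔ B n) y →
        f x = f y := by
      intro x y hxy
      have h4 : ClassGroup.mk ↥(K ⊔ B n) (x * y⁻¹) = 1 := by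
        rw [map_mul, map_inv, hxy, mul_inv_cancel]
      have h5 : x * y⁻¹ ∈ (prin : (↥(K ⊔ B n))ˣ →* J ↥(K ⊔ B n)).range := by
        rw [ClassGroup.mk_eq_one_iff] at h4
        obtain ⟨a, ha⟩ := h4.principal
        have ha0 : a ≠ 0 := by
          rintro rfl
          have h6 : ((x * y⁻¹ : J ↥(K ⊔ B n)) : FractionalIdeal (𝓞 ↥(K ⊔ B n))⁰ ↥(K ⊔ B n)) = 0 := by
            apply FractionalIdeal.coeToSubmodule_injective
            beta_reduce
            rw [ha, Submodule.span_zero_singleton, FractionalIdeal.coe_zero]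
          exact (x * y⁻¹).ne_zero h6
        refine ⟨Units.mk0 a ha0, ?_⟩
        apply Units.ext
        rw [coe_toPrincipalIdeal]
        apply FractionalIdeal.coeToSubmodule_injective
        beta_reduce
        rw [ FractionalIdeal.coe_spanSingleton, ha]
        rfl
      have h6 := h2 _ h5
      have h7 : f (x * y⁻¹ * y) = f (x * y⁻¹) + f y := h1 _ _
      rw [inv_mul_cancel_right, h6, zero_add] at h7
      exact h7
    refine ⟨fun c => f (o c), ⟨fun a b => ?_, fun τ s hτ hs a => ?_⟩, ?_⟩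
    · show f (o (a * b)) = f (o a) + f (o b)
      rw [← h1]
      apply hwd
      rw [map_mul, ho, ho, ho]
    · show f (o (ClassGroup.mulEquiv (RingOfIntegers.mapRingEquiv τ) a)) =
        (χ s : AlgebraicClosure (ZMod p)) * f (o a)
      have e0 : ClassGroup.mulEquiv (RingOfIntegers.mapRingEquiv τ) a =
          ClassGroup.mk ↥(K ⊔ B n) (actU τ (o a)) := by
        rw [← mulEquiv_mk, ho]
      let τ' : ↥(K ⊔ B n) ≃ₐ[k] ↥(K ⊔ B n) := AlgEquiv.ofRingEquiv (f := τ) (by
        intro x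
        apply Subtype.ext
        have h4 := hs (algebraMap k ↥(K ⊔ B n) x)
          (algebraMap k (IntermediateField.extendScalars h) x) rfl
        rw [h4, s.commutes]
        rfl)
      let δ : NC hk (B n) := ⟨τ', fun x hx => hτ x hx⟩
      let s₁ : ↥K ≃ₐ[k] ↥K := AlgEquiv.autCongr (extEquiv h) s
      have e1 : toC h χ s₁ = χ s := toC_apply h χ s₁ s (by
        intro x x' hx
        obtain rfl : x' = ⟨(x : ℂ), x.2⟩ := Subtype.ext hx
        rfl)
      have e2 := h3 δ s₁ (by
        intro x x' hx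
        exact hs x' ⟨(x : ℂ), x.2⟩ hx) (o a)
      rw [e1] at e2
      rw [← e2]
      apply hwd
      rw [ho, e0]
      rfl
    · funext x
      exact hwd _ _ (ho _)
  have hfin : Finite (ClassGroup (𝓞 ↥(K ⊔ B n))) := inferInstance
  have hf1 : Module.Finite (AlgebraicClosure (ZMod p)) ((MuCyc.chiPart p h χ (B n)).map φ) :=
    Module.Finite.map _ _
  constructor
  · exact Submodule.finiteDimensional_of_le hmap
  · exact (Submodule.finrank_mono hmap).trans (Submodule.finrank_map_le φ _)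

/-- Relative class numbers: all `χ` which are not trivial on `Gal(K/K')` are good. -/
theorem rel_bound (hLAY : Sf_LAY) (hBAX : Sq_BAX) (hRRK : Sf_RRK) (p : ℕ) [Fact p.Prime]
    (hp2 : p ≠ 2) (k K' K : IntermediateField ℚ ℂ) [FiniteDimensional ℚ K] (h1 : k ≤ K')
    (h2 : K' ≤ K) (h : k ≤ K) (hG : IsGalois k (IntermediateField.extendScalars h))
    (hc : ∀ σ τ : (IntermediateField.extendScalars h) ≃ₐ[k] (IntermediateField.extendScalars h),
      σ * τ = τ * σ) (hd : ¬ p ∣ Module.finrank ℚ K)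
    (hχ : ∀ χ : MuCyc.Chr p h, (∃ s : MuCyc.Gal h,
      (∀ x : IntermediateField.extendScalars h, (x : ℂ) ∈ K' → s x = x) ∧ χ s ≠ 1) →
      MuCyc.MuZeroC p h χ) :
    ∃ C : ℕ, ∀ (n : ℕ) (Q : IntermediateField ℚ ℂ), MuCyc.IsLayer p n Q →
      padicValNat p (MuCyc.classNo (K ⊔ Q)) ≤
        padicValNat p (MuCyc.classNo (K' ⊔ Q)) + C * (n + 1) ^ 2 := by
  have hpp : p.Prime := Fact.out
  obtain ⟨B, hlay, hmono, hu⟩ := hLAY p hp2
  have hfK' : FiniteDimensional ℚ K' :=
    FiniteDimensional.of_injective (IntermediateField.inclusion h2).toLinearMap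
      (IntermediateField.inclusion h2).injective
  have hfB : ∀ n, FiniteDimensional ℚ (B n) := fun n =>
    Module.finite_of_finrank_pos (by rw [(hlay n).1]; exact pow_pos hpp.pos n)
  have hfL : ∀ n, FiniteDimensional ℚ ↥(K ⊔ B n) := fun n =>
    IntermediateField.finiteDimensional_sup K (B n)
  have hfL' : ∀ n, FiniteDimensional ℚ ↥(K' ⊔ B n) := fun n =>
    IntermediateField.finiteDimensional_sup K' (B n)
  have hmul : ∀ {E F : IntermediateField ℚ ℂ} (hEF : E ≤ F) [FiniteDimensional ℚ F],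
      Module.finrank ℚ E * Module.finrank E (IntermediateField.extendScalars hEF) =
        Module.finrank ℚ F := by
    intro E F hEF _
    let _ := algC hEF
    have : FiniteDimensional ℚ E :=
      FiniteDimensional.of_injective (IntermediateField.inclusion hEF).toLinearMap
        (IntermediateField.inclusion hEF).injective
    have : IsScalarTower ℚ E F := IsScalarTower.of_algebraMap_eq fun _ => rfl
    rw [← finrank_algC hEF]
    exact Module.finrank_mul_finrank ℚ E F
  have hd' : ¬ p ∣ Module.finrank ℚ K' := fun h0 => hd ((hmul h2) ▸ h0.mul_right _)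
  have hdk : ¬ p ∣ Module.finrank k (IntermediateField.extendScalars h) :=
    fun h0 => hd ((hmul h) ▸ h0.mul_left _)
  obtain ⟨hG', hc'⟩ := sub_ab h1 h2 h hG hc
  obtain ⟨hG'', hc''⟩ := top_ab h1 h2 h hG hc
  have hB : BasX p k K B := hBAX p k K B h hG hc hd hlay hmono
  have hB' : BasX p k K' B := hBAX p k K' B h1 hG' hc' hd' hlay hmono
  have hB'' : BasX p K' K B := hBAX p K' K B h2 hG'' hc'' hd hlay hmono
  -- one constant for all characters
  have hex : ∀ χ : MuCyc.Chr p h, ∃ C : ℕ, (∃ s : MuCyc.Gal h,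
      (∀ x : IntermediateField.extendScalars h, (x : ℂ) ∈ K' → s x = x) ∧ χ s ≠ 1) →
      ∀ n : ℕ, Module.finrank (AlgebraicClosure (ZMod p)) (MuCyc.chiPart p h χ (B n)) ≤
        C * (n + 1) := by
    intro χ
    by_cases h0 : ∃ s : MuCyc.Gal h,
      (∀ x : IntermediateField.extendScalars h, (x : ℂ) ∈ K' → s x = x) ∧ χ s ≠ 1
    · obtain ⟨C, hC⟩ := hχ χ h0
      exact ⟨C, fun _ n => hC n (B n) (hlay n)⟩
    · exact ⟨0, fun h5 => absurd h5 h0⟩
  choose Cf hCf using hex
  have hfC : Finite (MuCyc.Chr p h) := by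
    have fdk : FiniteDimensional k (IntermediateField.extendScalars h) := by
      have h1 : FiniteDimensional ℚ (IntermediateField.extendScalars h) :=
        inferInstanceAs (FiniteDimensional ℚ K)
      exact Module.Finite.of_restrictScalars_finite ℚ k _
    have : Finite (MuCyc.Gal h) := inferInstance
    infer_instance
  have := Fintype.ofFinite (MuCyc.Chr p h)
  set C₀ : ℕ := ∑ χ : MuCyc.Chr p h, Cf χ with hC₀
  have hle : ∀ χ : MuCyc.Chr p h, Cf χ ≤ C₀ := fun χ =>
    Finset.single_le_sum (f := fun χ => Cf χ) (fun _ _ => Nat.zero_le _) (Finset.mem_univ χ)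
  have hLn : ∀ n, K' ⊔ B n ≤ K ⊔ B n := fun n => sup_le_sup_right h2 _
  let v : ℕ → ℕ := fun n =>
    letI := algC (hLn n)
    vR p ↥(K' ⊔ B n) ↥(K ⊔ B n)
  let r : ℕ → ℕ := fun n =>
    letI := algC (hLn n)
    rR p ↥(K' ⊔ B n) ↥(K ⊔ B n)
  have hr : ∀ n, r n ≤ (Module.finrank k (IntermediateField.extendScalars h) * C₀) *
      (1 + n * 1) := by
    intro n
    have h5 := hRRK p n (AlgebraicClosure (ZMod p)) k K' K B hB hB' hB'' (hLn n)
      (h.trans le_sup_left) h hdk (C₀ * (n + 1)) (by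
        intro χ hs
        obtain ⟨e1, e2⟩ := eig_chi p k K h B n (h.trans le_sup_left) (ofC h χ)
        rw [toC_ofC] at e1 e2
        refine ⟨e1, e2.trans ?_⟩
        have h6 := hCf (ofC h χ) (by
          obtain ⟨s, hs1, hs2⟩ := hs
          let _ := algC h
          refine ⟨(AlgEquiv.autCongr (extEquiv h)).symm s, ?_, ?_⟩
          · intro x hx
            apply Subtype.ext
            exact congrArg Subtype.val (hs1 ⟨(x : ℂ), x.2⟩ hx)
          · intro h7
            apply hs2
            have h8 : toC h (ofC h χ) s = χ s := by rw [toC_ofC]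
            rw [← h8]
            exact h7) n
        exact h6.trans (Nat.mul_le_mul_right _ (hle _)))
    show r n ≤ _
    refine h5.trans (le_of_eq ?_)
    ring
  have hstep : ∀ m, r (m + 1) < p ^ m * (p - 1) → v (m + 1) ≤ v m + r (m + 1) := by
    intro m hm
    exact tf_RST p m k K' K B hB hB' hB'' (hLn (m + 1)) (hLn m) hm
  obtain ⟨C, hC⟩ := _root_.MU3.n_NUM p
    (Module.finrank k (IntermediateField.extendScalars h) * C₀) 1 1 v r hr hstep
  refine ⟨C, fun n Q hQ => ?_⟩
  obtain rfl : Q = B n := hu n Q hQ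
  let aL := algC (hLn n)
  have hGn : IsGalois ↥(K' ⊔ B n) ↥(K ⊔ B n) := by
    have h5 := (k_GALX p K' K B hB'' n (h2.trans le_sup_left)).1
    let _ := algC (h2.trans le_sup_left : K' ≤ K ⊔ B n)
    let _ := algC (le_sup_left : K' ≤ K' ⊔ B n)
    have : IsScalarTower K' ↥(K' ⊔ B n) ↥(K ⊔ B n) := towerC le_sup_left (hLn n)
    exact IsGalois.tower_top_of_isGalois K' ↥(K' ⊔ B n) ↥(K ⊔ B n)
  have h6 := tf_RIX p ↥(K' ⊔ B n) ↥(K ⊔ B n)
  have e1 : MuCyc.classNo (K ⊔ B n) = NumberField.classNumber ↥(K ⊔ B n) :=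
    Finx.classNo_eq (K ⊔ B n)
  have e2 : MuCyc.classNo (K' ⊔ B n) = NumberField.classNumber ↥(K' ⊔ B n) :=
    Finx.classNo_eq (K' ⊔ B n)
  rw [e1, e2]
  have h7 : vR p ↥(K' ⊔ B n) ↥(K ⊔ B n) ≤ C * (n + 1) ^ 2 := hC n
  omega

end Pool.Agent.OBF


end

section

/-!
# OB, FINAL (helper60): the criterion for `p = 5`; inflation
-/

set_option autoImplicit false

open NumberField IsDedekindDomain Finset
open scoped nonZeroDivisors Pointwise

namespace Pool.Agent.OBF

open _root_.Pool.Agent.RI _root_.Pool.Agent.RID _root_.Pool.Agent.MU3 _root_.Pool.Agent.MUXK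
  _root_.Pool.Agent.MUXZ _root_.Pool.Agent.NSI _root_.Pool.Agent.OB

open CHIx

/-- Iterated powers. -/
theorem frob_iter (p : ℕ) [Fact p.Prime] {k K : IntermediateField ℚ ℂ} [FiniteDimensional ℚ K]
    (h : k ≤ K) (χ : MuCyc.Chr p h) (hm : MuCyc.MuZeroC p h χ) (a : ℕ) :
    MuCyc.MuZeroC p h (χ ^ p ^ a) := by
  induction a with
  | zero =>
    have : χ ^ p ^ 0 = χ := by
      rw [Nat.pow_zero]
      exact pow_one χ
    rw [this]
    exact hm
  | succ a ih =>
    have : χ ^ p ^ (a + 1) = (χ ^ p ^ a) ^ p := by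
      rw [Nat.pow_succ]
      exact pow_mul χ (p ^ a) p
    rw [this]
    exact frob_mu p h _ ih

theorem tf_P5 (hLAY : Sf_LAY) (hBAX : Sq_BAX) (hNIL : O_NIL) : Sf_P5 := by
  intro p _ hp5 k K h hb hz χ χ₁ h1 hR j χ' hj
  have := hb.fin
  obtain ⟨ω, hω, hω1, hω4⟩ := exists_omega p h hz
  rw [hω] at h1 hj
  subst hj
  have hω4' : ∀ s : MuCyc.Gal h, (ω s) ^ 4 = 1 := by
    intro s
    have h6 : (ω s) ^ (p - 1) = 1 := congrArg (fun f : MuCyc.Chr p h => f s) hω4
    have h7 : p - 1 = 4 := by omega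
    rwa [h7] at h6
  have hωp : ∀ (s : MuCyc.Gal h) (a : ℕ), (ω s) ^ p ^ a = ω s := by
    intro s a
    induction a with
    | zero => rw [Nat.pow_zero, pow_one]
    | succ a ih =>
      rw [Nat.pow_succ, pow_mul, ih]
      have h7 : p = 4 + 1 := by omega
      have h8 : (ω s) ^ p = (ω s) ^ (4 + 1) := congrArg (fun n => (ω s) ^ n) h7
      rw [h8, pow_succ, hω4', one_mul]
  -- the values of `χ₁`
  have hv : ∀ s : MuCyc.Gal h, χ₁ s = χ s * (ω s) ^ 2 := fun s =>
    congrArg (fun f : MuCyc.Chr p h => f s) h1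
  have hper : ∀ i : ℕ, χ * ω ^ (i + 4) = χ * ω ^ i := by
    intro i
    apply MonoidHom.ext
    intro s
    show χ s * (ω s) ^ (i + 4) = χ s * (ω s) ^ i
    rw [pow_add, hω4', mul_one]
  have hstep : ∀ i : ℕ, MuCyc.MuZeroC p h (χ * ω ^ i) → MuCyc.MuZeroC p h (χ * ω ^ (i + 2)) := by
    intro i hi
    obtain ⟨a, hR⟩ := hR
    rcases hR with hR | ⟨hK, χ₂, hc2, hR⟩
    · have h5 := frob_iter p h _ hi a
      have h6 : (χ * ω ^ i) ^ p ^ a = χ * ω ^ (i + 2) := by
        apply MonoidHom.ext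
        intro s
        show (χ s * (ω s) ^ i) ^ p ^ a = χ s * (ω s) ^ (i + 2)
        have h7 : (χ s) ^ p ^ a = χ s * (ω s) ^ 2 := by
          rw [← hv, hR]
          rfl
        rw [mul_pow, h7, ← pow_mul, mul_comm i, pow_mul, hωp, pow_add, mul_assoc,
          mul_comm ((ω s) ^ 2)]
      rwa [h6] at h5
    · -- `ω (s') = ω (s)` for conjugate `s`, `s'`
      have hωc : ∀ s s' : MuCyc.Gal h, (∀ x y : IntermediateField.extendScalars h,
          (y : ℂ) = (starRingEnd ℂ) x → ((s y : IntermediateField.extendScalars h) : ℂ) =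
            (starRingEnd ℂ) (s' x : IntermediateField.extendScalars h)) → ω s' = ω s := by
        intro s s' hss
        obtain ⟨c, hc1, hc2⟩ := hω1 s
        have h5 : MuCyc.IsTwist p h 1 ω 1 := (hω 1 ω 1).2 (by
          apply MonoidHom.ext
          intro s
          show ω s = 1 * (ω s) ^ 1
          rw [one_mul, pow_one])
        apply Units.ext
        rw [hc2]
        have h6 := h5 s' c (by
          intro z hz
          have hy : (starRingEnd ℂ) (z : ℂ) ∈ IntermediateField.extendScalars h := hK _ z.2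
          have h7 := hss z ⟨_, hy⟩ rfl
          have h8 : (⟨_, hy⟩ : IntermediateField.extendScalars h) ^ p = 1 := by
            apply Subtype.ext
            show ((starRingEnd ℂ) (z : ℂ)) ^ p = 1
            rw [← map_pow]
            have h9 : (z : ℂ) ^ p = 1 := congrArg Subtype.val hz
            rw [h9, map_one]
          rw [hc1 _ h8] at h7
          apply Subtype.ext
          have h9 : ((starRingEnd ℂ) (z : ℂ)) ^ c = (starRingEnd ℂ) ((s' z : _) : ℂ) := h7
          rw [← map_pow] at h9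
          exact ((starRingEnd ℂ).injective h9).symm)
        rw [h6]
        simp
      have hcj : MuCyc.IsConj p h (χ * ω ^ i) (χ₂ * ω ^ i) := by
        intro s s' hss
        show χ₂ s' * (ω s') ^ i = χ s * (ω s) ^ i
        rw [hc2 s s' hss, hωc s s' hss]
      have h5 := frob_iter p h _ (conj_mu p h hb.k2 hK _ _ hcj hi) a
      have h6 : (χ₂ * ω ^ i) ^ p ^ a = χ * ω ^ (i + 2) := by
        apply MonoidHom.ext
        intro s
        show (χ₂ s * (ω s) ^ i) ^ p ^ a = χ s * (ω s) ^ (i + 2)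
        have h7 : (χ₂ s) ^ p ^ a = χ s * (ω s) ^ 2 := by
          rw [← hv, hR]
          rfl
        rw [mul_pow, h7, ← pow_mul, mul_comm i, pow_mul, hωp, pow_add, mul_assoc,
          mul_comm ((ω s) ^ 2)]
      rwa [h6] at h5
  have hstep' : ∀ i : ℕ, MuCyc.MuZeroC p h (χ * ω ^ (i + 2)) →
      MuCyc.MuZeroC p h (χ * ω ^ i) := by
    intro i hi'
    have := hstep (i + 2) hi'
    rwa [show i + 2 + 2 = i + 4 from rfl, hper] at this
  obtain ⟨e, χ₂, he, hev, htw, hmu⟩ := one_even hLAY hBAX hNIL p (by omega) k K h hb.gal hb.ab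
    hb.k2 hb.im hb.n4 hb.n3 hb.cop hz (χ * ω ^ j)
  rw [hω] at htw
  subst htw
  have e1 : χ * ω ^ j * ω ^ e = χ * ω ^ (j + e) := by
    apply MonoidHom.ext
    intro s
    show χ s * (ω s) ^ j * (ω s) ^ e = χ s * (ω s) ^ (j + e)
    rw [pow_add, mul_assoc]
  rw [e1] at hmu
  have : e = 0 ∨ e = 2 := by
    obtain ⟨a, ha⟩ := hev
    omega
  rcases this with rfl | rfl
  · exact hmu
  · exact hstep' j hmu

theorem tf_REL (hLAY : Sf_LAY) (hBAX : Sq_BAX) (hRRK : Sf_RRK) : Sf_REL := by
  intro p _ hp2 k K' K h1 h2 h hf hG hc hd hχ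
  exact rel_bound hLAY hBAX hRRK p hp2 k K' K h1 h2 h hG hc hd hχ

theorem tf_IFM (hLAY : Sf_LAY) (hBAX : Sq_BAX) (hINF : Sf_INF) : Sf_IFM := by
  intro p _ hp2 k L K hL hK hLK hf hG hc hd χ χ' hχ hm
  have hpp : p.Prime := Fact.out
  obtain ⟨B, hlay, hmono, hu⟩ := hLAY p hp2
  have hfL : FiniteDimensional ℚ L :=
    FiniteDimensional.of_injective (IntermediateField.inclusion hLK).toLinearMap
      (IntermediateField.inclusion hLK).injective
  have hfB : ∀ n, FiniteDimensional ℚ (B n) := fun n =>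
    Module.finite_of_finrank_pos (by rw [(hlay n).1]; exact pow_pos hpp.pos n)
  have hfKn : ∀ n, FiniteDimensional ℚ ↥(K ⊔ B n) := fun n =>
    IntermediateField.finiteDimensional_sup K (B n)
  have hfLn : ∀ n, FiniteDimensional ℚ ↥(L ⊔ B n) := fun n =>
    IntermediateField.finiteDimensional_sup L (B n)
  have hd' : ¬ p ∣ Module.finrank ℚ L := by
    intro h0
    apply hd
    let _ := algC hLK
    have : IsScalarTower ℚ L K := IsScalarTower.of_algebraMap_eq fun _ => rfl
    have e1 : Module.finrank ℚ L * Module.finrank L K = Module.finrank ℚ K :=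
      Module.finrank_mul_finrank ℚ L K
    rw [← e1]
    exact h0.mul_right _
  obtain ⟨hG', hc'⟩ := sub_ab hL hLK hK hG hc
  have hB : BasX p k K B := hBAX p k K B hK hG hc hd hlay hmono
  have hB' : BasX p k L B := hBAX p k L B hL hG' hc' hd' hlay hmono
  obtain ⟨C, hC⟩ := hm
  refine ⟨C, fun n Q hQ => ?_⟩
  obtain rfl : Q = B n := hu n Q hQ
  obtain ⟨e1, e2⟩ := eig_chi p k K hK B n (hK.trans le_sup_left) χ'
  obtain ⟨e3, e4⟩ := hINF p n (AlgebraicClosure (ZMod p)) k L K B hB hB' hLK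
    (hK.trans le_sup_left) (hL.trans le_sup_left) hK hL hd (toC hL χ) (toC hK χ') (by
      let _ := algC hL
      let _ := algC hK
      intro s s' hs
      have h1 : toC hL χ s = χ ((AlgEquiv.autCongr (extEquiv hL)).symm s) := rfl
      have h2 : toC hK χ' s' = χ' ((AlgEquiv.autCongr (extEquiv hK)).symm s') := rfl
      rw [h1, h2]
      apply hχ
      intro x x' hx
      exact hs ⟨(x : ℂ), x.2⟩ ⟨(x' : ℂ), x'.2⟩ hx) e1
  exact ((chi_eig p k L hL B n (hL.trans le_sup_left) χ e3).trans e4).trans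
    (e2.trans (hC n (B n) (hlay n)))

end Pool.Agent.OBF


end
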