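import Pool.Agent.MVF.C037
import Pool.Agent.MVF.C071
import Pool.Agent.MVF.C078
import Pool.Agent.MVF.C092
import Pool.Agent.MVF.C110
import Pool.Agent.MVF.C134
import Pool.Agent.OBM.C01
import Pool.Agent.OBM.C19
import Pool.Agent.OBM.C21
import Pool.Agent.OBM.C22
import Pool.Agent.OBM.C24
import Pool.Agent.OTM.C03
import Pool.Agent.OTM.C06
import Pool.Agent.OTM.C07

/-! Parts: OT.J_CONV, OT.J_INPT, OT.J_LEM1S, OT.J_MAINT, OT.J_NBT, OT.J_PIGS, OT.J_SETF, OT.L_NEW, OT.JAll -/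

section

/-!
# OT, block J (helper19): the results of helper79 (block I) and helper88 (LLV, ABL) in the form of `StJ.lean`
-/

set_option autoImplicit false

open NumberField IsDedekindDomain

namespace Pool.Agent.OTJ

open _root_.MU3 Pool.Agent.MU3 Pool.Agent.MU3A Pool.Agent.MU3B Pool.Agent.RI Pool.Agent.RID
  Pool.Agent.MUX Pool.Agent.MUXK Pool.Agent.MUXE Pool.Agent.MUXJ Pool.Agent.MUXZ Pool.Agent.NSI
  Pool.Agent.OB
open _root_.Pool.Agent.TWR (Gen)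

/-- LLV -/
theorem t_LLV : S_LLV := by
  intro p l g h A B _ T hN hp _ hG f hf K₀ hK r L hL
  exact OT.t_LLV l g h hG A B T hN p f hp.ne_zero hf K₀ hK r L hL

/-- ABL -/
theorem t_ABL : S_ABL := by
  intro p l g h hp h5 hG A B T hN f hf K₀ _ hk hK hA Ln hL r h'
  obtain ⟨h1, h2, h3⟩ := OT.t_ABL l g h hG A B T hN p f hp h5 hf K₀ hk hK hA.cop r (Ln r)
    (hL.lay r) h'
  obtain ⟨ω, hω, hω1⟩ := hA.om
  exact ⟨h1, h2, h3, ω, (le_sup_left : K₀ ≤ K₀ ⊔ Ln r) hω, hω1⟩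

/-- the result of block I -/
theorem t_IT (hI : OTI.O_IT) : O_IT := by
  intro p er _ A B P V f hS T ι _ R u el lam hGL l g h hG hl K₀ _ hk hA hK₀ Ln hL
  have hlh : l ^ h ∣ f := by
    refine Dvd.dvd.trans ?_ hS.f12
    rcases hG with ⟨rfl, -, rfl⟩ | ⟨rfl, -, rfl⟩ <;> norm_num
  obtain ⟨r₀, hr₀⟩ := hI l g h hG p er A B P V f hS hlh hl T ι R u el lam hGL K₀ hk hA.om hK₀
    Ln hL.lay hL.mono
  refine ⟨r₀, fun r hr K' hKeq Bn _ _ hB hkn hkK hAK _ C hE c₀ mem hc χ hχ => ?_⟩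
  subst hKeq
  exact hr₀ r hr Bn hB hAK.cop hkn hkK C hE c₀ mem hc χ hχ

end Pool.Agent.OTJ


end

section

/-!
# OT, block J, module INPT (helper19): the inputs of block K for the fields `K₀ ⊔ Ln (r + 1)`

After `OB/Z_INPO.lean`.
-/

set_option autoImplicit false

open NumberField IsDedekindDomain

namespace Pool.Agent.OTJ

open _root_.MU3 Pool.Agent.MU3 Pool.Agent.MU3A Pool.Agent.MU3B Pool.Agent.RI Pool.Agent.RID
  Pool.Agent.MUX Pool.Agent.MUXK Pool.Agent.MUXE Pool.Agent.MUXJ Pool.Agent.MUXZ Pool.Agent.NSI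
  Pool.Agent.OB Pool.Agent.MUXW
open Pool.Agent.OT (RL)
open _root_.Pool.Agent.TWR (Gen)
open Pool.Agent.NSZ (cX_sq idl_ne_bot)
open Pool.Agent.OBI (Oi_SUB)
open Pool.Agent.OBZ (Zl_LVX Zl_INW eInpO setQ_O)

noncomputable section

theorem gen_dvd {l g h : ℕ} (H : Gen l g h) : l ∣ 12 := by
  rcases H with ⟨rfl, -, -⟩ | ⟨rfl, -, -⟩ <;> norm_num

theorem gen_ne {l g h : ℕ} (H : Gen l g h) : l ≠ 0 := by
  rcases H with ⟨rfl, -, -⟩ | ⟨rfl, -, -⟩ <;> norm_num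

theorem gen_p {l g h p : ℕ} (H : Gen l g h) (h5 : 5 ≤ p) : ¬ p ∣ l := by
  intro hd
  have := Nat.le_of_dvd (Nat.pos_of_ne_zero (gen_ne H)) hd
  rcases H with ⟨rfl, -, -⟩ | ⟨rfl, -, -⟩ <;> omega

/-- the level `f l^m` -/
theorem setO_up {p er : ℕ} {A B : ℤ} {P : Ideal (OO A B)} {V : ValuationSubring ℂ} {f : ℕ}
    (hS : SetO p er A B P V f) {l g h : ℕ} (H : Gen l g h) (m : ℕ) :
    SetO p er A B P V (f * l ^ m) :=
  { hS.toCaseO with
    f0 := Nat.mul_ne_zero hS.f0 (pow_ne_zero _ (gen_ne H))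
    fp := fun hd => (hS.pp.dvd_mul.1 hd).elim hS.fp fun h1 =>
      gen_p H hS.p5 (hS.pp.dvd_of_dvd_pow h1)
    f12 := hS.f12.mul_right _
    fD := by
      refine hS.fD.trans ?_
      push_cast
      rw [← mul_assoc]
      exact dvd_mul_right _ _ }

/-- (INPT) -/
theorem t_INPT (hIT : O_IT) (hABL : S_ABL) (hRF : O_RFIN) (hEF : O_EFIN) (hSUB : Oi_SUB)
    (hLV : Zl_LVX) (hIW : Zl_INW) (hTH : Sz_THN) (hME : Sy_MEM) (hCX : Sy_CXS)
    (hRX : MUXY.Sy_REX) : S_INPT := by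
  intro p er A B P V hC hT l g h hG f hf0 hfp hf12 hfD K₀ _ hk hA hK₀ Ln hL
  have hCQ : CQ A B := hC.cq
  have hS : SetO p er A B P V f := { hC with f0 := hf0, fp := hfp, f12 := hf12, fD := hfD }
  have : Fact (Nat.Prime p) := ⟨hC.pp⟩
  have hl : l ∣ f := (gen_dvd hG).trans hf12
  obtain ⟨ι, hι, ⟨R⟩⟩ := hRX A B hCQ hC.ex3 hC.ex4 (p * f) (Nat.mul_ne_zero hC.pp.ne_zero hf0)
  obtain ⟨u, e, lam, hGL, -, -, -⟩ := (hRF p er A B P V hC hT).1 _ _ _ (R.nl R.i0)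
  obtain ⟨r₀, hr₀⟩ := hIT p er A B P V f hS hT ι R u e lam hGL l g h hG hl K₀ hk hA hK₀ Ln hL
  refine ⟨r₀, fun r hr K' K Bn _ _ _ _ _ hKeq hX hK hH hkn hk₀ hkK => ?_⟩
  have hS' := setO_up hS hG (r + 1 + h)
  have hQ' := setQ_O hS'
  have hodd := (hLV p A B _ hQ' 0).2.2.2.2.2.1
  obtain ⟨H, hHalf, hθ⟩ := hTH A B hCQ hT (p * (f * l ^ (r + 1 + h))) ι
    (RL R l (r + 1 + h) hl) (aX p (f * l ^ (r + 1 + h))) hodd
  have hθ' : ∀ n : ℕ, ∃ θ : (RF (idl (A := A) (B := B) (lvX p (f * l ^ (r + 1 + h)) n)) :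
      IntermediateField (kk A B) ℂ),
      (θ : ℂ) = ThetaH ((RL R l (r + 1 + h) hl).L (RL R l (r + 1 + h) hl).i0)
        (H (RL R l (r + 1 + h) hl).i0)
        (pt (RL R l (r + 1 + h) hl) (lvX p (f * l ^ (r + 1 + h)) n)
          (RL R l (r + 1 + h) hl).i0 1) ∧
      (θ : ℂ) = ThetaH ((RL R l (r + 1 + h) hl).L (RL R l (r + 1 + h) hl).i0)
        (H (RL R l (r + 1 + h) hl).i0)
        ((RL R l (r + 1 + h) hl).om (RL R l (r + 1 + h) hl).i0 /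
          emb ((lvX p (f * l ^ (r + 1 + h)) n : ℕ) : OO A B)) ∧
      θ ≠ 0 := fun n =>
    hθ (lvX p (f * l ^ (r + 1 + h)) n) (hLV p A B _ hQ' n).1 (hLV p A B _ hQ' n).2.2.2.2.1
      (hLV p A B _ hQ' n).2.2.2.2.2.2.1
  choose θ hθ1 hθ2 hθ3 using hθ'
  have hth : ThN p (f * l ^ (r + 1 + h)) (RL R l (r + 1 + h) hl) H θ :=
    ⟨hHalf, hθ1, hθ2, hθ3⟩
  obtain ⟨S, hW⟩ := hIW p A B (f * l ^ (r + 1 + h)) hQ' hT ι (RL R l (r + 1 + h) hl) H θ hth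
    K' K Bn hX hK hH hkn hk₀
  have hNL : ∃ (b : Ideal (OO A B)) (L : PeriodPair) (om : ℂ), IsNL b L om :=
    ⟨_, _, _, R.nl R.i0⟩
  have hK'f : ∀ y ∈ K', y ∈ RF (idl (A := A) (B := B) (lvX p (f * l ^ (r + 1 + h)) 0)) :=
    fun y hy => hK y (hX.le hy)
  have hInR : InRF er P p (f * l ^ (r + 1 + h)) 5 (K' ⊔ Bn 5) :=
    hSUB p er A B P V _ hS' hT hNL K' hK'f 5 (Bn 5) (by norm_num) (hX.b0.lay 5)
  have hAK : AbK p hkK := by
    subst hKeq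
    exact hABL p l g h hC.pp hC.p5 hG A B hT hNL f hf0 K₀ hk hK₀ hA Ln hL (r + 1) hkK
  refine ⟨S, fun n => cW (hkn n) (θ n), fun n => cW (hk₀ n) (θ n), 0, hW, fun χ hχ =>
    ⟨5, by norm_num, ?_⟩⟩
  refine hr₀ r hr K' hKeq Bn hX.b0 (hk₀ 5) hkK hAK hK'f
    (fun τ => cWt (hk₀ 5) (θ 5) τ) ?_ _ _ ?_ χ hχ
  · exact eInpO hME hCX hEF hS' hT hLV (RL R l (r + 1 + h) hl) hGL hth 5 (by norm_num)
      (K' ⊔ Bn 5) (hk₀ 5) hInR
  · have hb : (idl (A := A) (B := B) (lvX p (f * l ^ (r + 1 + h)) 5)) ≠ ⊥ :=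
      idl_ne_bot (hLV p A B _ hQ' 5).1
    exact (hME A B _ (hT.fin _ hb) (hT.gal _ hb) (hT.comm _ hb) _ (hk₀ 5) hInR.1 (θ 5)
      (hth.ne 5)).1

end

end Pool.Agent.OTJ


end

section

/-!
# OT, block J, module LEM1S: one level is enough

The proof of `tn_LEM1` (`NS/I_LEM1.lean`, helper36).
-/

set_option autoImplicit false

open NumberField IsDedekindDomain Finset
open scoped nonZeroDivisors Pointwise

namespace Pool.Agent.OTJ

open Pool.Agent.MU3 Pool.Agent.RI Pool.Agent.RID Pool.Agent.MUXK Pool.Agent.NSI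

/-- LEM1S -/
theorem t_LEM1S (h1 : S_GALX) (h2 : S_RSX) : S_LEM1S := by
  intro F _ p hp k K B _ _ hB hcop hom hk hkK c₀ mem hne n₁ hN χ m hm1 hm2 N n₀
  have hpos : 0 < p := hp.out.pos
  obtain ⟨n, hn⟩ : ∃ n, n = m + (N + n₀) := ⟨_, rfl⟩
  refine ⟨n, by omega, ?_⟩
  have hmn : m ≤ n := by omega
  have hQ : N ≤ p ^ n - p ^ m := by
    have e1 : p ^ n - p ^ m = p ^ m * (p ^ (N + n₀) - 1) := by
      rw [hn, pow_add, Nat.mul_sub, mul_one]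
    have e2 : 1 ≤ p ^ m := Nat.one_le_pow _ _ hpos
    have e3 : N + n₀ < p ^ (N + n₀) := Nat.lt_pow_self hp.out.one_lt
    rw [e1]
    calc N ≤ 1 * (p ^ (N + n₀) - 1) := by omega
      _ ≤ p ^ m * (p ^ (N + n₀) - 1) := Nat.mul_le_mul_right _ e2
  let _ := algC (hk n)
  let _ := algC (hk m)
  let _ := algC hkK
  intro γ hγ _ r hr
  have hsub : K ⊔ B m ≤ K ⊔ B n := sup_le_sup_left (hB.mono hmn) K
  obtain ⟨r', hr', hrγ, e, he⟩ := h2 p k K B hB hcop m n hmn (hk n) (hk m) hsub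
  obtain ⟨ρm, hρm⟩ := I3X19.restr h2 p k K B hB hcop hkK m (hk m)
  obtain ⟨hr1, hr2⟩ := hrγ γ hγ
  let _ : Fintype (NC (hk m) (B m)) := Fintype.ofEquiv _ e.toEquiv
  obtain ⟨θ, hθ⟩ := hm2 (r' γ) hr1 (fun δ => ρm δ) hρm
  have hρ : ∀ δ, ρm (e δ) = r δ := by
    intro δ
    refine AlgEquiv.ext fun x => Subtype.ext ?_
    have hx1 : (x : ℂ) ∈ K ⊔ B m := le_sup_left (a := K) x.2
    rw [← hρm (e δ) x ⟨x, hx1⟩ rfl, ← hr δ x ⟨x, hsub hx1⟩ rfl, he]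
    exact hr' _ ⟨x, hx1⟩
  refine ⟨θ, fun y hy => ?_⟩
  obtain ⟨ω, hωK, hω1⟩ := hom
  obtain ⟨C, hCk, hC0, hC⟩ := hN m n hm1 hmn γ hγ
  have hKn : K ≤ K ⊔ B n := le_sup_left
  obtain ⟨j, hj⟩ := LEM1.incl hsub
  have hj' : ∀ z : ↥(K ⊔ B m), j z = ⟨z, hsub z.2⟩ := fun z => Subtype.ext (hj z)
  have b1 : ∀ (σ : ↥(K ⊔ B n) ≃ₐ[k] ↥(K ⊔ B n)) (x : ↥(K ⊔ B m)), j (r' σ x) = σ (j x) := by
    intro σ x
    apply Subtype.ext
    rw [hj, hr', hj']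
  have b2 : ∀ x : ↥(K ⊔ B n), (γ ^ (p ^ m)) x = x ↔ ∃ z : ↥(K ⊔ B m), j z = x := by
    intro x
    rw [hr2 x]
    constructor
    · intro hx
      exact ⟨⟨x, hx⟩, Subtype.ext (hj _)⟩
    · rintro ⟨z, rfl⟩
      rw [hj]
      exact z.2
  have b3 : (⟨C, hKn hCk⟩ : ↥(K ⊔ B n)) ≠ 0 := by
    intro h; exact hC0 (congrArg Subtype.val h)
  have b4 : γ (⟨C, hKn hCk⟩ : ↥(K ⊔ B n)) = ⟨C, hKn hCk⟩ := (hγ _).2 hCk
  have b5 : ∏ i ∈ range (p ^ (n - m)), (γ ^ (p ^ m * i)) ⟨c₀ n, mem n⟩ =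
      ⟨C, hKn hCk⟩ * j ⟨c₀ m, mem m⟩ := by
    apply Subtype.ext
    rw [hC, hj']
    rfl
  have b6 : ∀ w : ↥(K ⊔ B n), w ^ p = 1 → γ w = w := by
    intro w hw
    rw [hγ w]
    have hw' : (w : ℂ) ^ p = 1 := congrArg Subtype.val hw
    have : NeZero p := ⟨hpos.ne'⟩
    obtain ⟨i, _, hi⟩ := hω1.eq_pow_of_pow_eq_one hw'
    rw [← hi]
    exact K.pow_mem hωK i
  have b7 : (⟨c₀ n, mem n⟩ : ↥(K ⊔ B n)) ≠ 0 := by
    intro h; exact hne n (congrArg Subtype.val h)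
  have b8 : (⟨c₀ m, mem m⟩ : ↥(K ⊔ B m)) ≠ 0 := by
    intro h; exact hne m (congrArg Subtype.val h)
  obtain ⟨t, ht⟩ := LEM1.core (M := ↥(K ⊔ B m)) p
    j r' b1
    (h1 p k K B hB n (hk n)).2 γ m n N hmn hQ b2 (NC (hk n) (B n)) (NC (hk m) (B m)) e he
    ⟨c₀ n, mem n⟩ b7 ⟨c₀ m, mem m⟩ b8 ⟨C, hKn hCk⟩ b3 b4 b5 b6
    (fun δ => (θ ((χ (r δ))⁻¹ : Fˣ)).val) (fun δ => (θ ((χ (ρm δ))⁻¹ : Fˣ)).val)
    (fun δ => by rw [hρ]) y hy
  refine hθ t (ht.trans ?_)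
  refine prod_congr rfl fun δ _ => ?_
  rw [Function.iterate_one]

end Pool.Agent.OTJ


end

section

/-!
# OT, block J, module MAINT (helper19): nilpotency for the new characters, for the fields `kk A B`

After `OB/J_MAIN.lean`.
-/

set_option autoImplicit false

open NumberField IsDedekindDomain

namespace Pool.Agent.OTJ

open _root_.MU3 Pool.Agent.MU3 Pool.Agent.MU3A Pool.Agent.MU3B Pool.Agent.RI Pool.Agent.RID
  Pool.Agent.MUX Pool.Agent.MUXK Pool.Agent.MUXE Pool.Agent.MUXJ Pool.Agent.MUXZ Pool.Agent.NSI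
  Pool.Agent.OB
open _root_.Pool.Agent.TWR (Gen)

noncomputable section

/-- a new character stays new if the field of values is enlarged -/
theorem newC_mp {F F' : Type} [Field F] [Field F'] (io : F' →+* F)
    {k K : IntermediateField ℚ ℂ} (h : k ≤ K) (E : IntermediateField ℚ ℂ)
    (χ : (letI := algC h; (↥K ≃ₐ[k] ↥K) →* F'ˣ)) (hχ : NewC h E χ) :
    NewC h E (mpO io h χ) := by
  let _ := algC h
  obtain ⟨s, hs, h1⟩ := hχ
  refine ⟨s, hs, fun h2 => h1 ?_⟩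
  have h3 : Units.map (io : F' →* F) (χ s) = 1 := h2
  have h4 : io ((χ s : F'ˣ) : F') = 1 := congrArg Units.val h3
  apply Units.ext
  apply io.injective
  rw [h4, Units.val_one, map_one]

/-- (MAINT) -/
theorem t_MAINT (hRF : O_RFIN) (hIN : S_INPT) (hLLV : S_LLV) (hABL : S_ABL) (hSETF : S_SETF)
    (hPIG : S_PIGS) : S_MAINT := by
  intro p hpf h5 A B hCQ hd3 hd4 l g h hG K₀ _ hk hA Ln hL
  have hp : p.Prime := hpf.out
  have hp2 : p ≠ 2 := by omega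
  obtain ⟨er, P, V, hC⟩ := t_VEXO p A B hCQ hd3 hd4 hp h5
  obtain ⟨d, hd0, hpd, hd⟩ := t_DO hC
  have hTor := MUXC.c_TOR A B hCQ
  have hNL : NLex A B := by
    obtain ⟨L, w, hL⟩ := MUXY.z_NLE A B hCQ hd3 hd4 ⊤ (by
      have := (MUXE.te_RNG A B hCQ).ded
      exact bot_ne_top.symm)
    exact ⟨⊤, L, w, hL⟩
  have hU : UnrH A B V := t_UNHO hRF hC hTor
  have hTU : TorU A B K₀ :=
    JT.tj_JTR (JT.tj_JTC (JT.tj_JTA Pool.Agent.HB.h_JT1) JT.tj_PHJ (JT.tj_FRJ JT.tj_FRQ)) A B hCQ hTor hNL K₀ hk hA.gal hA.ab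
  obtain ⟨M, hM, hKM⟩ := t_DIR A B hCQ hTor K₀ hTU
  obtain ⟨f, hf0, hfp, hfd, hKf⟩ := t_LEVO p d A B hCQ hp hd0 hpd hTor hNL K₀ hk hA.cop M hM hKM
  have hS := hd f hf0 hfp hfd
  obtain ⟨r₀, hr₀⟩ := hIN p er A B P V hC hTor l g h hG f hS.f0 hS.fp hS.f12 hS.fD K₀ hk hA hKf
    Ln hL
  refine ⟨r₀, fun r hr K' Bn _ hKeq hlay hmono hk₀ hkK χ hχ => ?_⟩
  have hK'A : FiniteDimensional ℚ K' ∧ AbK p hkK := by
    subst hKeq
    exact ⟨fd_LL hG hL K₀ (r + 1), hABL p l g h hp h5 hG A B hTor hNL f hf0 K₀ hk hKf hA Ln hL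
      (r + 1) hkK⟩
  obtain ⟨hK'fd, hAK⟩ := hK'A
  have hK'f : ∀ y ∈ K', y ∈ RF (idl (A := A) (B := B) (lvX p (f * l ^ (r + 1 + h)) 0)) := by
    rw [hKeq]
    exact hLLV p l g h A B hCQ hTor hNL hp hp2 hG f hf0 K₀ hKf (r + 1) (Ln (r + 1))
      (hL.lay (r + 1))
  have hl0 : l ≠ 0 := by
    rcases hG with ⟨rfl, -, -⟩ | ⟨rfl, -, -⟩ <;> norm_num
  have hf'0 : f * l ^ (r + 1 + h) ≠ 0 := Nat.mul_ne_zero hf0 (pow_ne_zero _ hl0)
  obtain ⟨K, hKfd, hSX, hKR, hHK⟩ := hSETF p er A B P V hC hU hTor K' hkK hAK.cop hAK.om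
    (f * l ^ (r + 1 + h)) hf'0 hK'f Bn hlay hmono
  have hfk : FiniteDimensional ℚ (kk A B) :=
    Module.Finite.of_injective (IntermediateField.inclusion hk).toLinearMap
      (IntermediateField.inclusion hk).injective
  have hfB : ∀ n, FiniteDimensional ℚ ↥(K ⊔ Bn n) := fun n => by
    obtain ⟨h1, -, -⟩ := LAY_thm p n (Bn n) (hlay n)
    exact IntermediateField.finiteDimensional_sup K (Bn n)
  have hkn : ∀ n, kk A B ≤ K ⊔ Bn n := fun n => (hkK.trans hSX.le).trans le_sup_left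
  obtain ⟨S, c, c₀, n₁, hW, hI⟩ := hr₀ r hr K' K Bn hKeq hSX hKR hHK hkn hk₀ hkK
  obtain ⟨hchar, halg⟩ := t_RES p V (caseO_hp hC)
  obtain ⟨io⟩ := ex_io p (IsLocalRing.ResidueField V)
  obtain ⟨m, hm, hI3⟩ := hI (mpO io hkK χ) (newC_mp io hkK _ χ hχ)
  have hI3A := I3At_mp io p (kk A B) K' Bn hkK χ 1 m (hk₀ m) (c₀ m) (hW.mem₀ m) hI3
  have hI3C := hPIG (AlgebraicClosure (ZMod p)) p (kk A B) K' K Bn hSX hkn hk₀ hkK S c c₀ n₁ hW χ
    m hm hI3A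
  exact ⟨hSX.b0, o_MAINO (AlgebraicClosure (ZMod p)) p (kk A B) K' K Bn hSX hkn hk₀ hkK S c c₀ n₁
    hW χ hI3C⟩

end

end Pool.Agent.OTJ


end

section

/-!
# OT, block J, module NBT (helper19): the result of the block, for all imaginary quadratic fields except `ℚ(i)`, `ℚ(√-3)`

After `OB/J_NIL.lean` and `OB/F_ONE.lean`.
-/

set_option autoImplicit false

open NumberField IsDedekindDomain

namespace Pool.Agent.OTJ

open _root_.MU3 Pool.Agent.MU3 Pool.Agent.MU3A Pool.Agent.MU3B Pool.Agent.RI Pool.Agent.RID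
  Pool.Agent.MUX Pool.Agent.MUXK Pool.Agent.MUXE Pool.Agent.MUXJ Pool.Agent.MUXZ Pool.Agent.NSI
  Pool.Agent.OB
open _root_.Pool.Agent.TWR (Gen)
open Pool.Agent.OBF.CHIx

/-- (NBT) -/
theorem t_NBT (hM : S_MAINT) (hLAY : OBF.Sf_LAY) : O_TJ := by
  intro p hpf h5 l g h hG k K₀ _ hk h2 hi h4 h3 hA Ln hL
  obtain ⟨d, hd, rfl, -⟩ := JT.tj_JQF k h2 hi
  have hd1 : d ≠ 1 := by
    rintro rfl
    exact h4 _ JT.kk_one Complex.I_sq
  have hd3 : d ≠ 3 := by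
    rintro rfl
    obtain ⟨z, hz, hz3⟩ := JT.kk_three
    exact h3 z hz hz3
  have hCQ : MUX.CQ (MUXZ.pA d) (MUXZ.pB d) := MUXZ.cq_p hd
  have ha3 : absD (MUXZ.pA d) (MUXZ.pB d) ≠ 3 := by
    rw [MUXZ.absD_p]
    split_ifs <;> omega
  have ha4 : absD (MUXZ.pA d) (MUXZ.pB d) ≠ 4 := by
    rw [MUXZ.absD_p]
    split_ifs <;> omega
  obtain ⟨r₀, hr₀⟩ := hM p h5 (MUXZ.pA d) (MUXZ.pB d) hCQ ha3 ha4 l g h hG K₀ hk hA Ln hL
  refine ⟨r₀, fun r hr h' χ hχ => ?_⟩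
  obtain ⟨B, hlay, hmono, hu⟩ := hLAY p (by omega)
  have hfd := fd_LL hG hL K₀ (r + 1)
  have hfL : ∀ n, FiniteDimensional ℚ ↥(K₀ ⊔ Ln (r + 1) ⊔ B n) := fun n => by
    obtain ⟨h1, -, -⟩ := LAY_thm p n (B n) (hlay n)
    exact IntermediateField.finiteDimensional_sup (K₀ ⊔ Ln (r + 1)) (B n)
  have hk₀ : ∀ n, kk (MUXZ.pA d) (MUXZ.pB d) ≤ K₀ ⊔ Ln (r + 1) ⊔ B n := fun n =>
    h'.trans le_sup_left
  obtain ⟨hBX, m, hm⟩ := hr₀ r hr (K₀ ⊔ Ln (r + 1)) B rfl hlay hmono hk₀ h' (toC h' χ) (by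
    let _ := algC h'
    obtain ⟨s', hs', h1⟩ := hχ
    refine ⟨AlgEquiv.autCongr (extEquiv h') s', fun x hx => ?_, fun h6 => h1 ?_⟩
    · have h7 := hs' ⟨(x : ℂ), x.2⟩ hx
      exact Subtype.ext (congrArg Subtype.val h7)
    · have e1 : toC h' χ (AlgEquiv.autCongr (extEquiv h') s') = χ s' :=
        toC_apply h' χ (AlgEquiv.autCongr (extEquiv h') s') s' (by
          intro x x' hx
          obtain rfl : x' = ⟨(x : ℂ), x.2⟩ := Subtype.ext hx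
          rfl)
      rw [← e1]
      exact h6)
  exact OBF.nil_mu p _ _ B hBX hu hk₀ h' χ m hm

end Pool.Agent.OTJ


end

section

/-!
# OT, block J: from one level and one character to `I3C` (helper14)

After `Pool/Agent/OB/K_PIG.lean`.
-/

set_option autoImplicit false

open NumberField IsDedekindDomain
open scoped nonZeroDivisors Pointwise

namespace Pool.Agent.OTJ

open _root_.Pool.Agent.MU3 _root_.Pool.Agent.RI _root_.Pool.Agent.RID _root_.Pool.Agent.MUXK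
  _root_.Pool.Agent.MUXZ _root_.Pool.Agent.NSI

/-- **PIGS.** -/
theorem t_PIGS (h1 : S_LEM1S) (h2 : Sn_NRX) : S_PIGS := by
  intro F _ p _ k K₀ K B _ _ _ _ hX hk hk₀ hkK S c c₀ n₁ hI χ m hm h
  have hfd₀ : FiniteDimensional ℚ K₀ :=
    FiniteDimensional.of_injective (IntermediateField.inclusion hX.le).toLinearMap
      (IntermediateField.inclusion hX.le).injective
  have hNr := h2 p k K₀ K B hX hk hk₀ S c c₀ n₁ hI
  exact fun N n₀ => h1 F p k K₀ B hX.b0 hX.cop hX.om hk₀ hkK c₀ hI.mem₀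
    (_root_.Pool.Agent.NSI.INP.c_ne hI) n₁ hNr χ m hm h N n₀

end Pool.Agent.OTJ


end

section

/-!
# OT, block J: the large field `K = K₀ RF(1)` for a given level `f` (helper14)

After `Pool/Agent/OB/J_SETO.lean`: the level `f` with `K₀ ≤ RF (f p)` is given.
-/

set_option autoImplicit false

open NumberField IsDedekindDomain
open scoped nonZeroDivisors Pointwise

namespace Pool.Agent.OTJ

open _root_.MU3 Pool.Agent.MU3 Pool.Agent.MU3A Pool.Agent.MU3B Pool.Agent.RI Pool.Agent.RID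
  Pool.Agent.MUX Pool.Agent.MUXK Pool.Agent.MUXE Pool.Agent.MUXJ Pool.Agent.OB

open JSET in
/-- SETF: the large field `K`, the level `f` is given. -/
theorem setf (p er : ℕ) (A B : ℤ) (P : Ideal (OO A B)) (V : ValuationSubring ℂ)
    (hX : CaseO p er A B P V)
    (hU : UnrH A B V) (T : TorX A B) (f : ℕ) (hf0 : f ≠ 0) (K₀ : IntermediateField ℚ ℂ)
    [FiniteDimensional ℚ K₀] (hk : kk A B ≤ K₀)
    (hcop : ¬ p ∣ Module.finrank (kk A B) (IntermediateField.extendScalars hk))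
    (hKf : ∀ y ∈ K₀, y ∈ RF (idl (A := A) (B := B) (lvX p f 0)))
    (hom : ∃ ω ∈ K₀, IsPrimitiveRoot ω p)
    (Bn : ℕ → IntermediateField ℚ ℂ) (hlay : ∀ n, IsLayer p n (Bn n)) (hmono : Monotone Bn) :
    ∃ (K : IntermediateField ℚ ℂ) (_ : FiniteDimensional ℚ K),
      SetX p (kk A B) K₀ K Bn ∧
      (∀ y ∈ K, y ∈ RF (idl (A := A) (B := B) (lvX p f 0))) ∧
      ∀ y ∈ RF (⊤ : Ideal (OO A B)), y ∈ K := by
  have hp : p.Prime := hX.pp
  have : Fact p.Prime := ⟨hp⟩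
  have hp2 : p ≠ 2 := by have := hX.p5; omega
  have hp3 : p ≠ 3 := by have := hX.p5; omega
  have hq0 : q0 p = p := if_neg hp2
  have hodd : Odd p := hp.odd_of_ne_two hp2
  have hlv0 : lvX p f 0 ≠ 0 := by
    unfold lvX
    rw [hq0]
    exact mul_ne_zero (mul_ne_zero hf0 hp.ne_zero) (pow_ne_zero _ hp.ne_zero)
  set m₀ : Ideal (OO A B) := idl (lvX p f 0) with hm₀
  have hm₀b : m₀ ≠ ⊥ := idl_ne _ hlv0
  -- the root of unity
  obtain ⟨ω, hω, hωp⟩ := hom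
  have hζ : IsPrimitiveRoot (-ω) (2 * p) := by
    have h1 : orderOf (-ω) = 2 * p := by
      rw [neg_eq_neg_one_mul, (Commute.all _ _).orderOf_mul_eq_mul_orderOf_of_coprime]
      · simp [hωp.eq_orderOf]
      · simp [← hωp.eq_orderOf, hodd]
    rw [← h1]
    exact IsPrimitiveRoot.orderOf _
  -- the fields
  have hkfd : FiniteDimensional ℚ (kk A B) :=
    FiniteDimensional.of_injective (IntermediateField.inclusion hk).toLinearMap
      (IntermediateField.inclusion hk).injective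
  set E₀ : IntermediateField (kk A B) ℂ := IntermediateField.extendScalars hk with hE₀
  have hE₀m : E₀ ≤ RF m₀ := fun x hx => hKf x hx
  set KK : IntermediateField (kk A B) ℂ := E₀ ⊔ RF (⊤ : Ideal (OO A B)) with hKK
  have hHm : RF (⊤ : Ideal (OO A B)) ≤ RF m₀ := T.mono ⊤ m₀ le_top
  have hKKm : KK ≤ RF m₀ := sup_le hE₀m hHm
  have hmfd := T.fin m₀ hm₀b
  have hfdE₀ : FiniteDimensional (kk A B) E₀ :=
    FiniteDimensional.of_injective (IntermediateField.inclusion hE₀m).toLinearMap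
      (IntermediateField.inclusion hE₀m).injective
  have hfdKK : FiniteDimensional (kk A B) KK :=
    FiniteDimensional.of_injective (IntermediateField.inclusion hKKm).toLinearMap
      (IntermediateField.inclusion hKKm).injective
  set K : IntermediateField ℚ ℂ := KK.restrictScalars ℚ with hK
  have hkK : kk A B ≤ K := fun x hx => KK.algebraMap_mem ⟨x, hx⟩
  have hKK' : IntermediateField.extendScalars hkK = KK := SetLike.ext fun x => Iff.rfl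
  have hfdK : FiniteDimensional ℚ K := by
    have : FiniteDimensional ℚ KK := FiniteDimensional.trans ℚ (kk A B) KK
    exact this
  have hK0K : K₀ ≤ K := fun x hx => (le_sup_left : E₀ ≤ KK) (show x ∈ E₀ from hx)
  obtain ⟨hgal0, -, hab0⟩ := t_GAL A B T m₀ hm₀b K₀ hk hKf
  obtain ⟨hgal, -, hab⟩ := t_GAL A B T m₀ hm₀b K hkK (fun x hx => hKKm hx)
  have hgalKK : IsGalois (kk A B) KK := by rw [← hKK']; exact hgal
  have hgalE₀ : IsGalois (kk A B) E₀ := hgal0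
  -- the first layer
  have hB1 : ¬ Bn 1 ≤ K := by
    intro hB
    obtain ⟨-, h8⟩ := t_CYCO p hp2 1 (Bn 1) (hlay 1)
    have hpp0 : p ^ (1 + 1) ≠ 0 := pow_ne_zero _ hp.ne_zero
    have hz := Complex.isPrimitiveRoot_exp (p ^ (1 + 1)) hpp0
    have hz1 := h8 K hB ⟨ω, hK0K hω, hωp⟩ _ hz.pow_eq_one
    have h9 := t_RAMO p A B P V hX.cq hp hX.prime hX.mem hX.hV KK ⟨_, hz1, by
      have e : p * p = p ^ (1 + 1) := by rw [pow_succ, pow_one]
      rw [e]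
      exact hz⟩
    have h10 := t_INJ A B V hU T E₀ KK rfl
    have h11 := (h9.trans (mul_dvd_mul_left 2 h10))
    have h12 : p ∣ 2 * Module.finrank (kk A B) E₀ := (Dvd.intro _ rfl).trans h11
    rcases (Nat.Prime.dvd_mul hp).mp h12 with h13 | h13
    · have := Nat.le_of_dvd (by norm_num) h13
      have := hX.p5
      omega
    · exact hcop h13
  have hB10 : ¬ Bn 1 ≤ K₀ := fun h => hB1 (h.trans hK0K)
  refine ⟨K, hfdK, ?_, ?_, ?_⟩
  · exact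
      { b0 := ⟨hk, hgal0, hab0, t_LDX p K₀ Bn hlay hmono hB10, hlay, hmono⟩
        b := ⟨hkK, hgal, hab, t_LDX p K Bn hlay hmono hB1, hlay, hmono⟩
        le := hK0K
        cop := hcop
        om := ⟨ω, hω, hωp⟩
        ze := ⟨-ω, neg_mem (hK0K hω), hζ⟩ }
  · exact fun y hy => hKKm hy
  · exact fun y hy => (le_sup_right : RF (⊤ : Ideal (OO A B)) ≤ KK) hy

/-- **SETF.** -/
theorem t_SETF : S_SETF := by
  intro p er A B P V hX hU T K₀ _ hk hcop hom f hf0 hKf Bn hlay hmono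
  exact setf p er A B P V hX hU T f hf0 K₀ hk hcop hKf hom Bn hlay hmono

end Pool.Agent.OTJ


end

section

/-!
# OT, module NEW (helper84): the new characters, from the result of block J
-/

set_option autoImplicit false

open NumberField

namespace Pool.Agent.OTF

open _root_.Pool.Agent.MuCyc

/-- NEW -/
theorem t_NEW (hLAY : _root_.Pool.Agent.MUXJ.Sj_LAY) (hTJ : _root_.Pool.Agent.OTJ.O_TJ) :
    S_NEW := by
  intro p _ hp k K h hk hK hz l hl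
  have hfK := hK.fin
  obtain ⟨Ln, hlay, hmono, huniq⟩ := hLAY l hl
  have hGen : ∃ g e : ℕ, _root_.Pool.Agent.TWR.Gen l g e := by
    rcases hl with rfl | rfl
    · exact ⟨5, 2, Or.inr ⟨rfl, rfl, rfl⟩⟩
    · exact ⟨4, 1, Or.inl ⟨rfl, rfl, rfl⟩⟩
  obtain ⟨g, e, hG⟩ := hGen
  obtain ⟨r₀, hr₀⟩ := hTJ p hp l g e hG k K h hk.deg hk.imag hk.no_i hk.no_w
    ⟨hK.gal, hK.comm, hK.prime_to, hz⟩ Ln ⟨hlay, hmono⟩
  refine ⟨r₀, fun r hr B B' hB hB' => ?_⟩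
  obtain rfl : B = Ln r := huniq r B hB
  obtain rfl : B' = Ln (r + 1) := huniq (r + 1) B' hB'
  exact hr₀ r hr

end Pool.Agent.OTF


end

section

/-!
# OT, block J (helper19): the result of the block from the results of the blocks GR, E, I
-/

set_option autoImplicit false

namespace Pool.Agent.OTJ

open _root_.MU3 Pool.Agent.MU3 Pool.Agent.MU3A Pool.Agent.MU3B Pool.Agent.RI Pool.Agent.RID
  Pool.Agent.MUX Pool.Agent.MUXK Pool.Agent.MUXE Pool.Agent.MUXJ Pool.Agent.MUXW Pool.Agent.MUXZ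
  Pool.Agent.OB

/-- THE RESULT of block J -/
theorem o_TJ (hR : O_RFIN) (hE : O_EFIN) (hI : O_IT) : O_TJ :=
  t_NBT
    (t_MAINT hR
      (t_INPT hI t_ABL hR hE OBI.o_SUB OBZ.tl_LVX
        (OBZ.tl_INW OBZ.tl_LVX (OBZ.o_SUB MUXI.i_IAF) z_MEM z_TOW z_SUC z_I1 z_KOL)
        (tz_THN z_THG) z_MEM z_CXS MUXY.z_REX)
      t_LLV t_ABL t_SETF (t_PIGS (t_LEM1S k_GALX k_RSX) OB.o_NRX))
    OBF.tf_LAY

end Pool.Agent.OTJ


end
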