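import Pool.Agent.MVF.C006
import Pool.Agent.MVF.C038
import Pool.Agent.MVF.C039
import Pool.Agent.MVF.C076
import Pool.Agent.MVF.C088
import Pool.Agent.MVF.C109
import Pool.Agent.OBM.C02
import Pool.Agent.OBM.C06
import Pool.Agent.OBM.C14
import Pool.Agent.OTM.C01
import Pool.Agent.OTM.C02
import Pool.Agent.OTM.C03

/-! Parts: OT.H2L, TWB.DPL, TWG.GAU, TWV.VNF, OT.H2P, TWV.TWV, OT.I_I31T, OT.HB_BIR, OT.HB_GEN, OT.HB_HETA -/

section

/-!
# OT, block H2 (helper3): valuations of differences of roots of unity and isolation of a node (Lagrange)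

`lag`: if all the sums `∑_k w_k z_k^b` are small then so is `w_{k₀} ∏_{k ≠ k₀} (z_{k₀} - z_k)` (the other `z_k` may coincide).
`val_d0`, `val_d1`: for a primitive root `ξ` of order `p^(n+1)`, `v(ξ^a - ξ^b)` is `v(1 - ξ)` if `p ∤ a - b`, and `v(1 - ξ)^p` if `p` divides `a - b`
exactly once.
-/

set_option autoImplicit false

namespace Pool.Agent.OT.L

open Finset

noncomputable section

/-- Isolation of one node. -/
theorem lag (V : ValuationSubring ℂ) {ι : Type} [DecidableEq ι] (S : Finset ι) (w z : ι → ℂ)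
    (k0 : ι) (hk0 : k0 ∈ S) (R : V.ValueGroup) (hR : R ≠ 0)
    (hz : ∀ k ∈ S, V.valuation (z k) ≤ 1)
    (hf : ∀ b : ℕ, V.valuation (∑ k ∈ S, w k * z k ^ b) < R) :
    V.valuation (w k0) * ∏ k ∈ S.erase k0, V.valuation (z k0 - z k) < R := by
  obtain ⟨L, hL⟩ : ∃ L : Polynomial ℂ, L = ∏ k ∈ S.erase k0, (Polynomial.X - Polynomial.C (z k)) :=
    ⟨_, rfl⟩
  have hco : ∀ i, V.valuation (L.coeff i) ≤ 1 := by
    obtain ⟨L', hL'⟩ : ∃ L' : Polynomial V, L'.map (algebraMap V ℂ) = L := by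
      refine ⟨∏ k ∈ (S.erase k0).attach, (Polynomial.X - Polynomial.C (⟨z k.1,
        (V.valuation_le_one_iff _).1 (hz k.1 (Finset.mem_of_mem_erase k.2))⟩ : V)), ?_⟩
      rw [Polynomial.map_prod, hL, ← Finset.prod_attach (S.erase k0)]
      refine Finset.prod_congr rfl fun k _ => ?_
      rw [Polynomial.map_sub, Polynomial.map_X, Polynomial.map_C]
      rfl
    intro i
    rw [← hL', Polynomial.coeff_map]
    exact (V.valuation_le_one_iff _).2 (L'.coeff i).2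
  have hev : ∀ k ∈ S, k ≠ k0 → L.eval (z k) = 0 := by
    intro k hk hkk
    rw [hL, Polynomial.eval_prod]
    refine Finset.prod_eq_zero (Finset.mem_erase.2 ⟨hkk, hk⟩) ?_
    simp
  have h0 : L.eval (z k0) = ∏ k ∈ S.erase k0, (z k0 - z k) := by
    rw [hL, Polynomial.eval_prod]
    refine Finset.prod_congr rfl fun k _ => ?_
    simp
  have h1 : ∑ i ∈ Finset.range (L.natDegree + 1), L.coeff i * (∑ k ∈ S, w k * z k ^ i) =
      w k0 * L.eval (z k0) := by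
    have h2 : ∑ k ∈ S, w k * L.eval (z k) = w k0 * L.eval (z k0) := by
      refine Finset.sum_eq_single_of_mem k0 hk0 fun k hk hkk => ?_
      rw [hev k hk hkk, mul_zero]
    rw [← h2]
    simp_rw [Finset.mul_sum]
    rw [Finset.sum_comm]
    refine Finset.sum_congr rfl fun k _ => ?_
    rw [Polynomial.eval_eq_sum_range, Finset.mul_sum]
    refine Finset.sum_congr rfl fun i _ => ?_
    ring
  have h3 : V.valuation (w k0 * L.eval (z k0)) < R := by
    rw [← h1]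
    refine Valuation.map_sum_lt _ hR fun i _ => ?_
    rw [map_mul]
    exact lt_of_le_of_lt (mul_le_of_le_one_left' (hco i)) (hf i)
  rwa [map_mul, h0, map_prod] at h3

variable {p : ℕ} {V : ValuationSubring ℂ} {n : ℕ} {ξ : ℂ}

theorem pos_p (hp : p.Prime) : (0 : V.ValueGroup) < V.valuation (p : ℂ) :=
  lt_of_le_of_ne zero_le ((Valuation.ne_zero_iff _).2 (by exact_mod_cast hp.ne_zero)).symm

theorem xi_pow (hp : p.Prime) (hξ : IsPrimitiveRoot ξ (p ^ (n + 1))) :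
    V.valuation (1 - ξ) ^ (p ^ n * (p - 1)) = V.valuation (p : ℂ) := by
  have h := Pool.Agent.MUXH.Hz.val_p p hp V n ξ hξ
  rwa [← neg_sub, Valuation.map_neg] at h

theorem xi_pos (hp : p.Prime) (hξ : IsPrimitiveRoot ξ (p ^ (n + 1))) :
    0 < V.valuation (1 - ξ) := by
  refine lt_of_le_of_ne zero_le fun h => ?_
  have h1 := xi_pow (V := V) hp hξ
  have h2 : p ^ n * (p - 1) ≠ 0 := by
    have := hp.two_le
    exact (Nat.mul_pos (pow_pos hp.pos _) (by omega)).ne'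
  rw [← h, zero_pow h2] at h1
  exact (pos_p (V := V) hp).ne h1

theorem xi_lt (hp : p.Prime) (hV : V.valuation (p : ℂ) < 1)
    (hξ : IsPrimitiveRoot ξ (p ^ (n + 1))) : V.valuation (1 - ξ) < 1 := by
  by_contra h
  have h1 : 1 ≤ V.valuation (1 - ξ) := not_lt.1 h
  have : 1 ≤ V.valuation (1 - ξ) ^ (p ^ n * (p - 1)) := one_le_pow₀ h1
  rw [xi_pow hp hξ] at this
  exact absurd this (not_le.2 hV)

theorem val_xi (hp : p.Prime) (hξ : IsPrimitiveRoot ξ (p ^ (n + 1))) : V.valuation ξ = 1 :=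
  Pool.Agent.MUXH.Hz.val_root V _ (pow_ne_zero _ hp.ne_zero) ξ hξ.pow_eq_one

theorem val_xi_zpow (hp : p.Prime) (hξ : IsPrimitiveRoot ξ (p ^ (n + 1))) (a : ℤ) :
    V.valuation (ξ ^ a) = 1 := by
  rw [map_zpow₀, val_xi hp hξ, one_zpow]

/-- `ξ^(c p^j)`, `p ∤ c`: the valuation of `1 - ·` is `v(1 - ξ)^(p^j)` -/
theorem val_one_sub (hp : p.Prime) (hξ : IsPrimitiveRoot ξ (p ^ (n + 1))) (j : ℕ) (hj : j ≤ n)
    (c : ℤ) (hc : ¬ (p : ℤ) ∣ c) :
    V.valuation (1 - ξ ^ (c * (p : ℤ) ^ j)) = V.valuation (1 - ξ) ^ (p ^ j) := by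
  obtain ⟨m, rfl⟩ : ∃ m, n = j + m := ⟨n - j, by omega⟩
  have h1 : IsPrimitiveRoot (ξ ^ p ^ j) (p ^ (m + 1)) := by
    refine hξ.pow (pow_pos hp.pos _) ?_
    rw [← pow_add]
    congr 1
  have h2 : IsPrimitiveRoot (ξ ^ (c * (p : ℤ) ^ j)) (p ^ (m + 1)) := by
    have e : ξ ^ (c * (p : ℤ) ^ j) = (ξ ^ p ^ j) ^ c := by
      have : ((p : ℤ) ^ j) = ((p ^ j : ℕ) : ℤ) := by push_cast; rfl
      rw [mul_comm, zpow_mul, this, zpow_natCast]
    rw [e]
    refine h1.zpow_of_gcd_eq_one c ?_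
    have h3 : IsCoprime c ((p ^ (m + 1) : ℕ) : ℤ) := by
      push_cast
      refine IsCoprime.pow_right ?_
      exact ((Prime.coprime_iff_not_dvd (Nat.prime_iff_prime_int.1 hp)).2 hc).symm
    exact Int.isCoprime_iff_gcd_eq_one.1 h3
  have h3 := xi_pow (V := V) hp h2
  have h4 := xi_pow (V := V) hp hξ
  have h5 : (V.valuation (1 - ξ) ^ (p ^ j)) ^ (p ^ m * (p - 1)) = V.valuation (p : ℂ) := by
    rw [← pow_mul, ← mul_assoc, ← pow_add]
    exact h4
  have h6 : p ^ m * (p - 1) ≠ 0 := by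
    have := hp.two_le
    exact (Nat.mul_pos (pow_pos hp.pos _) (by omega)).ne'
  exact (pow_left_inj₀ zero_le zero_le h6).1 (h3.trans h5.symm)

theorem val_d (hp : p.Prime) (hξ : IsPrimitiveRoot ξ (p ^ (n + 1))) (j : ℕ) (hj : j ≤ n)
    (a b : ℤ) (h1 : (p : ℤ) ^ j ∣ a - b) (h2 : ¬ (p : ℤ) ^ (j + 1) ∣ a - b) :
    V.valuation (ξ ^ a - ξ ^ b) = V.valuation (1 - ξ) ^ (p ^ j) := by
  obtain ⟨c, hc⟩ := h1
  have hc' : ¬ (p : ℤ) ∣ c := by
    rintro ⟨d, rfl⟩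
    exact h2 ⟨d, by rw [hc]; ring⟩
  have hξ0 : ξ ≠ 0 := hξ.ne_zero (pow_ne_zero _ hp.ne_zero)
  have e : ξ ^ a - ξ ^ b = - (ξ ^ b * (1 - ξ ^ (c * (p : ℤ) ^ j))) := by
    rw [mul_sub, mul_one, ← zpow_add₀ hξ0]
    have : b + c * (p : ℤ) ^ j = a := by linear_combination -hc
    rw [this]
    ring
  rw [e, Valuation.map_neg, map_mul, val_xi_zpow hp hξ, one_mul,
    val_one_sub hp hξ j hj c hc']

end

end Pool.Agent.OT.L


end

section

/-!
# TWB, module DPL (helper34): depletion of the symbols of theta series at a prime `l` dividing the level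

If `e` is zero at all `x` which are not prime to `l`, then `∑_(k<l) θ_b(z + k/l) = 0`, because
`l ∣ N x/N b` implies that `x` is not prime to `l`. So `∑_(k<l) Φ_b(∞, x + k/l) = 0`.
-/

set_option autoImplicit false

namespace Pool.Agent.TWB

open _root_.MU3 Pool.Agent.MU3A Pool.Agent.MU3B Pool.Agent.MU3F Pool.Agent.MuSym OnePoint
open Pool.Agent.MUXF (Sx_ALG Sx_QB Sx_BDD Sx_TSM Sx_ITG xf_ALG xf_QB xf_BDD xf_TSM xf_ITG)
open scoped ComplexConjugate

noncomputable section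

namespace DPL

open Pool.Agent.MUXF

/-- a point `x` with `l ∣ N x / N b` is not prime to `l` -/
lemma ezero (A B : ℤ) (hc : MUXF.CQ A B) (b g : Ideal (OO A B)) (e : OO A B → ℂ) (l : ℕ)
    (hb : b ≠ ⊥) (he : MUXF.IsEI g e) (hl : l.Prime) (hgl : g ≤ Ideal.span {((l : ℕ) : OO A B)})
    (x : OO A B) (hx : x ∈ b) (hd : (l : ℤ) ∣ MUXF.qb b x) : e x = 0 := by
  by_contra hne
  obtain ⟨_, h2, h3, _, hdom⟩ := xf_ALG A B hc
  obtain ⟨hQ1, -, -⟩ := xf_QB A B hc b hb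
  have h4 := (he.supp x).1 hne
  have h5 : (l : ℤ) ∣ nm x := by
    rw [(hQ1 x hx).1]
    exact hd.mul_left _
  have h6 : IsCoprime (Ideal.span {x}) (Ideal.span {((l : ℕ) : OO A B)}) := by
    rw [Ideal.isCoprime_iff_sup_eq] at h4 ⊢
    rw [eq_top_iff, ← h4]
    exact sup_le_sup_left hgl _
  rw [Ideal.isCoprime_span_singleton_iff] at h6
  have h7 : IsCoprime (star x) ((l : ℕ) : OO A B) := by
    obtain ⟨u, v, huv⟩ := h6
    refine ⟨star u, star v, ?_⟩
    have := congrArg star huv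
    simpa [mul_comm] using this
  have h8 : IsCoprime (x * star x) ((l : ℕ) : OO A B) := h6.mul_left h7
  rw [(h2 x).2.2.2.2.1] at h8
  obtain ⟨t, ht⟩ := h5
  rw [ht] at h8
  obtain ⟨u, v, huv⟩ := h8
  have h9 : ((l : ℕ) : OO A B) * (u * (t : OO A B) + v) = 1 := by
    rw [← huv]
    push_cast
    ring
  have h10 := congrArg nm h9
  rw [(xf_ALG A B hc).1 _ _ |>.2.2] at h10
  have h11 : nm (((l : ℕ) : ℤ) : OO A B) = (l : ℤ) ^ 2 := (h3 l).2
  have h12 : nm (1 : OO A B) = 1 := by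
    have := (h3 1).2
    simpa using this
  rw [Int.cast_natCast] at h11
  rw [h11, h12] at h10
  have h13 : (l : ℤ) ∣ 1 := ⟨l * nm (u * (t : OO A B) + v), by rw [← h10]; ring⟩
  have h14 := Int.eq_one_of_dvd_one (by positivity) h13
  have := hl.one_lt
  omega

/-- the sum of the exponentials -/
lemma geom0 {l : ℕ} (hl : l ≠ 0) (n : ℤ) (h : ¬ (l : ℤ) ∣ n) (z : ℂ) :
    ∑ j ∈ Finset.range l, Complex.exp (2 * Real.pi * Complex.I * (n : ℂ) * (z + (j : ℂ) / l)) = 0 := by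
  have h1 := FUL.geom hl n (l * z)
  rw [if_neg h] at h1
  rw [← h1]
  refine Finset.sum_congr rfl fun j _ => ?_
  congr 2
  have hl0 : (l : ℂ) ≠ 0 := Nat.cast_ne_zero.2 hl
  field_simp

lemma theta0 (A B : ℤ) (hc : MUXF.CQ A B) (b g : Ideal (OO A B)) (e : OO A B → ℂ) (l : ℕ)
    (hb : b ≠ ⊥) (hg : g ≠ ⊥) (he : MUXF.IsEI g e) (hl : l.Prime)
    (hgl : g ≤ Ideal.span {((l : ℕ) : OO A B)}) (z : ℂ) (hz : 0 < z.im) :
    ∑ j ∈ Finset.range l, MUXF.thetaI b e (z + (j : ℂ) / l) = 0 := by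
  obtain ⟨-, -, -, hfin, -⟩ := xf_ALG A B hc
  obtain ⟨hQ1, -, -⟩ := xf_QB A B hc b hb
  obtain ⟨-, C, -, hC⟩ := xf_BDD A B hc g e hg he
  have hS := xf_TSM A B hc b hb e C hC
  have hnb : nI b ≠ 0 := by
    have := hfin b hb
    exact (Nat.card_pos (α := OO A B ⧸ b)).ne'
  have hnb0 : (nI b : ℂ) ≠ 0 := Nat.cast_ne_zero.2 hnb
  have him : ∀ j : ℕ, 0 < (z + (j : ℂ) / l).im := by
    intro j
    have : ((j : ℂ) / l).im = 0 := by
      rw [show ((j : ℂ) / l) = (((j : ℝ) / l : ℝ) : ℂ) by push_cast; rfl]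
      exact Complex.ofReal_im _
    rw [Complex.add_im, this, add_zero]
    exact hz
  have hnm : ∀ x : b, ((nm (x : OO A B) : ℂ) / nI b) = ((qb b (x : OO A B) : ℤ) : ℂ) := by
    intro x
    rw [(hQ1 x x.2).1]
    push_cast
    field_simp
  unfold MUXF.thetaI
  rw [← Finset.mul_sum, ← Summable.tsum_finsetSum (fun j _ => hS _ (him j))]
  have h0 : ∀ x : b, ∑ j ∈ Finset.range l, e x * conj (emb (x : OO A B)) *
      Complex.exp (2 * Real.pi * Complex.I * ((nm (x : OO A B) : ℂ) / nI b) * (z + (j : ℂ) / l)) = 0 := by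
    intro x
    by_cases hd : (l : ℤ) ∣ qb b (x : OO A B)
    · rw [ezero A B hc b g e l hb he hl hgl x x.2 hd]
      simp
    · rw [← Finset.mul_sum]
      simp only [hnm]
      rw [geom0 hl.ne_zero _ hd, mul_zero]
  simp only [h0, tsum_zero, mul_zero]

lemma iv0 (A B : ℤ) (hc : MUXF.CQ A B) (b g : Ideal (OO A B)) (e : OO A B → ℂ) (l : ℕ)
    (hb : b ≠ ⊥) (hg : g ≠ ⊥) (he : MUXF.IsEI g e) (hl : l.Prime)
    (hgl : g ≤ Ideal.span {((l : ℕ) : OO A B)}) (r : ℚ) :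
    ∑ j ∈ Finset.range l, MUXF.IvI b e (r + (j : ℚ) / l) = 0 := by
  have h1 : ∀ j ∈ Finset.range l, MeasureTheory.IntegrableOn
      (fun t : ℝ => thetaI b e (((r + (j : ℚ) / l : ℚ) : ℂ) + t * Complex.I)) (Set.Ioi 0) :=
    fun j _ => xf_ITG A B hc b g e hb hg he _
  unfold MUXF.IvI
  rw [← Finset.mul_sum, ← MeasureTheory.integral_finsetSum _ h1]
  have h2 : ∫ t in Set.Ioi (0 : ℝ), ∑ j ∈ Finset.range l,
      thetaI b e (((r + (j : ℚ) / l : ℚ) : ℂ) + t * Complex.I) =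
      ∫ t in Set.Ioi (0 : ℝ), (0 : ℂ) := by
    refine MeasureTheory.setIntegral_congr_fun measurableSet_Ioi fun t ht => ?_
    have ht0 : (0 : ℝ) < t := ht
    have hz : 0 < ((r : ℂ) + t * Complex.I).im := by
      simpa using ht0
    have h3 := theta0 A B hc b g e l hb hg he hl hgl _ hz
    show ∑ j ∈ Finset.range l, thetaI b e (((r + (j : ℚ) / l : ℚ) : ℂ) + t * Complex.I) = 0
    rw [← h3]
    refine Finset.sum_congr rfl fun j _ => ?_
    congr 1
    push_cast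
    ring
  rw [h2]
  simp

end DPL

/-- DPL: the symbols `Φ_b` are depleted at `l` if `l` divides the conductor ideal `g` -/
theorem t_DPL (A B : ℤ) (hc : MUX.CQ A B) (b g : Ideal (OO A B)) (e : OO A B → ℂ) (l : ℕ)
    (hb : b ≠ ⊥) (hg : g ≠ ⊥) (he : MUX.IsEI g e) (hl : l.Prime)
    (hgl : g ≤ Ideal.span {((l : ℕ) : OO A B)}) (x : ℚ) :
    ∑ k ∈ Finset.range l, MUX.PhiI b e ∞ ((x + (k : ℚ) / l : ℚ) : OnePoint ℚ) = 0 := by
  have h1 := DPL.iv0 A B (MUXHY.toCQ hc) b g e l hb hg (MUXHY.toEI he) hl hgl x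
  have h2 : ∀ q : ℚ, MUX.PhiI b e ∞ (q : OnePoint ℚ) = - MUXF.IvI b e q := by
    intro q
    change MUX.IcI b e ∞ - MUX.IcI b e (q : OnePoint ℚ) = _
    change (0 : ℂ) - MUXF.IvI b e q = _
    rw [zero_sub]
  simp only [h2]
  rw [Finset.sum_neg_distrib, h1, neg_zero]

/-- DPP: the symbols `PP R P e kk i` are depleted at `l` if `l` divides the conductor ideal -/
theorem t_DPP (A B : ℤ) (hc : MUX.CQ A B) (n : ℕ) (ι : Type) [Fintype ι] (R : MUX.Reps A B n ι)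
    (P : Ideal (OO A B)) (hP : P ≠ ⊥) (g : Ideal (OO A B)) (e : OO A B → ℂ) (hg : g ≠ ⊥)
    (he : MUX.IsEI g e) (l : ℕ) (hl : l.Prime) (hgl : g ≤ Ideal.span {((l : ℕ) : OO A B)})
    (kk : ι → ℂ) (i : ℕ) (x : ℚ) :
    ∑ k ∈ Finset.range l, MUXHY.PP R P e kk i ∞ ((x + (k : ℚ) / l : ℚ) : OnePoint ℚ) = 0 := by
  have hdom : IsDomain (OO A B) := (xf_ALG A B (MUXHY.toCQ hc)).2.2.2.2
  unfold MUXHY.PP
  rw [← Finset.sum_div, Finset.sum_comm]
  have h0 : ∀ c : ι, ∑ k ∈ Finset.range l, kk c / e ((MUX.nI (R.b c) : ℕ) : OO A B) *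
      MUX.PhiI (R.b c * P ^ i) e ∞ ((x + (k : ℚ) / l : ℚ) : OnePoint ℚ) = 0 := by
    intro c
    rw [← Finset.mul_sum, t_DPL A B hc _ g e l (mul_ne_zero (R.nl c).b_ne (pow_ne_zero _ hP)) hg he
      hl hgl x, mul_zero]
  rw [Finset.sum_eq_zero (fun c _ => h0 c), zero_div]

end

end Pool.Agent.TWB


end

section

/-!
# TWG, module GAU (helper19): Gauss sums of primitive characters and their valuations
-/

set_option autoImplicit false

namespace Pool.Agent.TWG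

open Pool.Agent.MU3F (ex)
open Finset

noncomputable section

namespace Gau

lemma ex_int (N : ℕ) [NeZero N] (j : ℤ) :
    ex ((j : ℚ) / N) = ZMod.stdAddChar ((j : ℤ) : ZMod N) := by
  rw [ZMod.stdAddChar_coe]
  unfold ex
  congr 1
  push_cast
  ring

/-- the shifted Gauss sum of a primitive character -/
theorem shift {N : ℕ} [NeZero N] (χ : DirichletCharacter ℂ N) (hχ : χ.IsPrimitive) (k : ℤ) :
    ∑ b ∈ range N, χ (b : ZMod N) * ex (((b * k : ℤ) : ℚ) / N) =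
      χ⁻¹ (k : ZMod N) * gaussSum χ ZMod.stdAddChar := by
  rw [← gaussSum_mulShift_of_isPrimitive _ hχ, gaussSum, ← TWR.STAAux.sum_zmod]
  refine sum_congr rfl fun b _ => ?_
  rw [ex_int, AddChar.mulShift_apply]
  push_cast
  rw [mul_comm (k : ZMod N)]

lemma one_sub_dvd (l n : ℕ) (hn : 2 ≤ n) :
    ((l : ZMod (l ^ n)) ^ (n - 1)) * ((l : ZMod (l ^ n)) ^ (n - 1)) = 0 := by
  rw [← pow_add]
  have h1 : n - 1 + (n - 1) = n + (n - 2) := by omega
  rw [h1, pow_add]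
  have h2 : (l : ZMod (l ^ n)) ^ n = 0 := by
    have := ZMod.natCast_self (l ^ n)
    push_cast at this
    exact this
  rw [h2, zero_mul]

/-- a character modulo `l ^ n` which is not trivial at `1 + l ^ (n - 1)` is primitive -/
theorem prim {l n : ℕ} (hl : l.Prime) (hn : 2 ≤ n) (χ : DirichletCharacter ℂ (l ^ n))
    (h : χ (1 + (l : ZMod (l ^ n)) ^ (n - 1)) ≠ 1) : χ.IsPrimitive := by
  have _nz : NeZero (l ^ n) := ⟨pow_ne_zero _ hl.ne_zero⟩
  obtain ⟨k, hk, hk'⟩ := (Nat.dvd_prime_pow hl).1 χ.conductor_dvd_level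
  by_contra hne
  have hkn : k ≤ n - 1 := by
    rcases Nat.lt_or_ge k n with h1 | h1
    · omega
    · exfalso
      apply hne
      show χ.conductor = l ^ n
      rw [hk', le_antisymm hk h1]
  obtain ⟨hdv, χ0, hχ0⟩ := χ.factorsThrough_conductor
  have hx := one_sub_dvd l n hn
  set x : ZMod (l ^ n) := (l : ZMod (l ^ n)) ^ (n - 1) with hxd
  have h3 : (1 + x) * (1 - x) = 1 := by linear_combination -hx
  let u : (ZMod (l ^ n))ˣ := ⟨1 + x, 1 - x, h3, by rw [mul_comm]; exact h3⟩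
  have h4 : χ (u : ZMod (l ^ n)) = χ0 ((u : ZMod (l ^ n)).cast : ZMod χ.conductor) := by
    conv_lhs => rw [hχ0]
    exact DirichletCharacter.changeLevel_eq_cast_of_dvd χ0 hdv u
  have h5 : ((u : ZMod (l ^ n)).cast : ZMod χ.conductor) = 1 := by
    show (((1 + x : ZMod (l ^ n))).cast : ZMod χ.conductor) = 1
    have h6 : (1 + x : ZMod (l ^ n)) = ((1 + l ^ (n - 1) : ℕ) : ZMod (l ^ n)) := by
      rw [hxd]
      push_cast
      ring
    rw [h6, ZMod.cast_natCast hdv]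
    have h7 : ((l ^ (n - 1) : ℕ) : ZMod χ.conductor) = 0 := by
      rw [ZMod.natCast_eq_zero_iff, hk']
      exact pow_dvd_pow l hkn
    push_cast at h7
    push_cast
    rw [h7, add_zero]
  apply h
  show χ (u : ZMod (l ^ n)) = 1
  rw [h4, h5, map_one]

/-- a nontrivial character modulo a prime number is primitive -/
theorem prim1 {p : ℕ} (hp : p.Prime) (χ : DirichletCharacter ℂ p) (h : χ ≠ 1) :
    χ.IsPrimitive := by
  have _nz : NeZero p := ⟨hp.ne_zero⟩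
  rcases (Nat.dvd_prime hp).1 χ.conductor_dvd_level with h1 | h1
  · exfalso
    apply h
    rw [← DirichletCharacter.factorsThrough_one_iff, ← h1]
    exact χ.factorsThrough_conductor
  · exact h1

theorem prim_inv {N : ℕ} {χ : DirichletCharacter ℂ N} (h : χ.IsPrimitive) :
    χ⁻¹.IsPrimitive := by
  show χ⁻¹.conductor = N
  rw [DirichletCharacter.conductor_inv]
  exact h

/-- the product of the Gauss sums of `χ` and `χ⁻¹` -/
theorem gmul {N : ℕ} [NeZero N] (χ : DirichletCharacter ℂ N) (hχ : χ.IsPrimitive) :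
    gaussSum χ ZMod.stdAddChar * gaussSum χ⁻¹ ZMod.stdAddChar = χ (-1) * N := by
  have h1 : gaussSum χ ZMod.stdAddChar * gaussSum χ⁻¹ ZMod.stdAddChar =
      ∑ k : ZMod N, (∑ b : ZMod N, χ b * ZMod.stdAddChar (k * b)) * ZMod.stdAddChar k := by
    conv_lhs => rw [gaussSum.eq_1 χ⁻¹]
    rw [mul_sum]
    refine sum_congr rfl fun k _ => ?_
    have h2 := gaussSum_mulShift_of_isPrimitive (ZMod.stdAddChar (N := N)) hχ k
    rw [gaussSum.eq_1 χ (AddChar.mulShift _ _)] at h2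
    simp only [AddChar.mulShift_apply] at h2
    rw [h2]
    ring
  have h3 : ∀ t : ZMod N, ∑ i : ZMod N, (ZMod.stdAddChar (t * i) : ℂ) =
      if t = 0 then (N : ℂ) else 0 := by
    intro t
    have := AddChar.sum_mulShift t (ZMod.isPrimitive_stdAddChar N)
    simp only [ZMod.card] at this
    have h4 : ∀ i : ZMod N, (ZMod.stdAddChar (t * i) : ℂ) = ZMod.stdAddChar (i * t) := by
      intro i; rw [mul_comm]
    simp only [h4]
    exact_mod_cast this
  rw [h1]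
  simp only [sum_mul]
  rw [sum_comm]
  have h5 : ∀ b : ZMod N, ∑ k : ZMod N, χ b * ZMod.stdAddChar (k * b) * ZMod.stdAddChar k =
      χ b * if b + 1 = 0 then (N : ℂ) else 0 := by
    intro b
    rw [← h3 (b + 1), mul_sum]
    refine sum_congr rfl fun k _ => ?_
    rw [mul_assoc, ← AddChar.map_add_eq_mul]
    congr 2
    ring
  rw [sum_congr rfl fun b _ => h5 b, sum_eq_single (-1)]
  · simp
  · intro b _ hb
    rw [if_neg, mul_zero]
    intro h6
    exact hb (eq_neg_of_add_eq_zero_left h6)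
  · intro h6
    exact absurd (mem_univ _) h6

lemma std_pow {N : ℕ} [NeZero N] (a : ZMod N) : (ZMod.stdAddChar a : ℂ) ^ N = 1 := by
  rw [← AddChar.map_nsmul_eq_pow, nsmul_eq_mul, ZMod.natCast_self, zero_mul,
    AddChar.map_zero_eq_one]

lemma root_one (V : ValuationSubring ℂ) {N : ℕ} (hN : N ≠ 0) {z : ℂ} (h : z ^ N = 1) :
    V.valuation z = 1 := by
  have h1 : V.valuation z ^ N = 1 := by rw [← map_pow, h, map_one]
  rcases lt_trichotomy (V.valuation z) 1 with h2 | h2 | h2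
  · have := pow_lt_one₀ (zero_le) h2 hN
    exact absurd h1 this.ne
  · exact h2
  · have := one_lt_pow₀ h2 hN
    exact absurd h1 this.ne'

/-- Gauss sums are integral -/
theorem gle (V : ValuationSubring ℂ) {N : ℕ} [NeZero N] (χ : DirichletCharacter ℂ N) :
    V.valuation (gaussSum χ ZMod.stdAddChar) ≤ 1 := by
  rw [gaussSum]
  refine V.valuation.map_sum_le fun a _ => ?_
  rw [map_mul, root_one V (NeZero.ne N) (std_pow a), mul_one]
  exact Pool.Agent.TWB.TWBAux.chi_val V N χ a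

/-- `v (g χ) = 1` if `v N = 1` -/
theorem gone (V : ValuationSubring ℂ) {N : ℕ} [NeZero N] (χ : DirichletCharacter ℂ N)
    (hχ : χ.IsPrimitive) (hN : V.valuation (N : ℂ) = 1) :
    V.valuation (gaussSum χ ZMod.stdAddChar) = 1 := by
  have h1 := congrArg V.valuation (gmul χ hχ)
  have h2 : V.valuation (χ (-1)) = 1 := by
    refine root_one V two_ne_zero ?_
    rw [← map_pow]
    simp
  rw [map_mul, map_mul, h2, hN, one_mul] at h1
  refine le_antisymm (gle V χ) ?_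
  calc (1 : _) = V.valuation (gaussSum χ ZMod.stdAddChar) *
        V.valuation (gaussSum χ⁻¹ ZMod.stdAddChar) := h1.symm
    _ ≤ V.valuation (gaussSum χ ZMod.stdAddChar) * 1 := mul_le_mul_right (gle V χ⁻¹) _
    _ = _ := mul_one _

/-- `v (g χ) ^ (p - 1) ≤ v p` for a nontrivial character modulo `p` -/
theorem gpi (V : ValuationSubring ℂ) {p : ℕ} (hp : p.Prime) (χ : DirichletCharacter ℂ p)
    (hχ : χ ≠ 1) [NeZero p] :
    V.valuation (gaussSum χ ZMod.stdAddChar) ^ (p - 1) ≤ V.valuation (p : ℂ) := by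
  set ζ : ℂ := ZMod.stdAddChar (1 : ZMod p) with hζ
  have hpr : IsPrimitiveRoot ζ p := by
    rw [IsPrimitiveRoot.iff_def]
    refine ⟨std_pow 1, fun k hk => ?_⟩
    rw [hζ, ← AddChar.map_nsmul_eq_pow, nsmul_eq_mul, mul_one] at hk
    have h1 : ZMod.stdAddChar ((k : ℕ) : ZMod p) = ZMod.stdAddChar (0 : ZMod p) := by
      rw [hk, AddChar.map_zero_eq_one]
    exact (ZMod.natCast_eq_zero_iff _ _).1 (ZMod.injective_stdAddChar h1)
  have hv : V.valuation ζ = 1 := root_one V hp.ne_zero (std_pow 1)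
  have hpow : ∀ k : ℕ, V.valuation (ζ ^ k - 1) ≤ V.valuation (ζ - 1) := by
    intro k
    induction k with
    | zero => simp
    | succ k ih =>
      have h1 : ζ ^ (k + 1) - 1 = ζ * (ζ ^ k - 1) + (ζ - 1) := by ring
      rw [h1]
      refine (V.valuation.map_add _ _).trans (max_le ?_ le_rfl)
      rw [map_mul, hv, one_mul]
      exact ih
  have h2 : V.valuation (gaussSum χ ZMod.stdAddChar) ≤ V.valuation (ζ - 1) := by
    have h3 : gaussSum χ ZMod.stdAddChar =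
        ∑ a : ZMod p, χ a * (ζ ^ (a.val) - 1) := by
      have h4 : ∑ a : ZMod p, χ a = 0 := MulChar.sum_eq_zero_of_ne_one hχ
      have h5 : ∀ a : ZMod p, ζ ^ a.val = ZMod.stdAddChar a := by
        intro a
        rw [hζ, ← AddChar.map_nsmul_eq_pow, nsmul_eq_mul, mul_one, ZMod.natCast_val,
          ZMod.cast_id]
      rw [gaussSum]
      simp only [mul_sub, mul_one, sum_sub_distrib, h5]
      rw [h4, sub_zero]
    rw [h3]
    refine V.valuation.map_sum_le fun a _ => ?_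
    rw [map_mul]
    calc V.valuation (χ a) * V.valuation (ζ ^ a.val - 1) ≤ 1 * V.valuation (ζ ^ a.val - 1) :=
          mul_le_mul_left (Pool.Agent.TWB.TWBAux.chi_val V p χ a) _
      _ = V.valuation (ζ ^ a.val - 1) := one_mul _
      _ ≤ _ := hpow _
  have h6 : V.valuation (ζ - 1) ^ (p - 1) ≤ V.valuation (p : ℂ) := by
    obtain ⟨n, hn⟩ : ∃ n, p = n + 1 := ⟨p - 1, by have := hp.pos; omega⟩
    have h7 : ∏ k ∈ range n, (1 - ζ ^ (k + 1)) = (p : ℂ) := by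
      have h8 : IsPrimitiveRoot ζ (n + 1) := by rw [← hn]; exact hpr
      rw [h8.prod_one_sub_pow_eq_order, hn]
      push_cast
      ring
    rw [← h7, map_prod]
    have h9 : V.valuation (ζ - 1) ^ (p - 1) = ∏ _k ∈ range n, V.valuation (ζ - 1) := by
      rw [prod_const, card_range]
      congr 1
      omega
    rw [h9]
    refine prod_le_prod' fun k hk => ?_
    have hk1 : k + 1 < p := by
      rw [mem_range] at hk
      omega
    have hcop : Nat.Coprime (k + 1) p := by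
      rw [Nat.coprime_comm, hp.coprime_iff_not_dvd]
      intro hd
      exact absurd (Nat.le_of_dvd (Nat.succ_pos k) hd) (by omega)
    obtain ⟨j, hj⟩ : ∃ j : ℕ, (ζ ^ (k + 1)) ^ j = ζ := by
      obtain ⟨j, hj⟩ := Nat.exists_mul_mod_eq_one_of_coprime hcop hp.one_lt
      refine ⟨j, ?_⟩
      rw [← pow_mul]
      have h11 := Nat.div_add_mod ((k + 1) * j) p
      rw [hj.2] at h11
      rw [← h11, pow_add, pow_mul, hpr.pow_eq_one, one_pow, one_mul, pow_one]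
    have hpow2 : ∀ (z : ℂ) (_ : V.valuation z = 1) (i : ℕ),
        V.valuation (z ^ i - 1) ≤ V.valuation (z - 1) := by
      intro z hz i
      induction i with
      | zero => simp
      | succ i ih =>
        have h1 : z ^ (i + 1) - 1 = z * (z ^ i - 1) + (z - 1) := by ring
        rw [h1]
        refine (V.valuation.map_add _ _).trans (max_le ?_ le_rfl)
        rw [map_mul, hz, one_mul]
        exact ih
    have h10 := hpow2 (ζ ^ (k + 1)) (by rw [map_pow, hv, one_pow]) j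
    rw [hj] at h10
    refine h10.trans (le_of_eq ?_)
    rw [← Valuation.map_neg]
    congr 1
    ring
  calc V.valuation (gaussSum χ ZMod.stdAddChar) ^ (p - 1) ≤ V.valuation (ζ - 1) ^ (p - 1) :=
        pow_le_pow_left₀ zero_le h2 _
    _ ≤ _ := h6

end Gau

end

end Pool.Agent.TWG


end

section

/-!
# TWV, module VNF: the values of a vector of symbols lie in a number field
(adapted from `TWR/NFV.lean`)
-/

set_option autoImplicit false

namespace Pool.Agent.TWV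

open Finset OnePoint Pool.Agent.TWR Pool.Agent.TWR.NFVAux Pool.Agent.MuSym

/-- equivariance of `m γ = P (γ ∞) (γ 0)` -/
theorem equiV {G : Type} [CommGroup G] (N : ℕ) (nu : ℤ → ℂ) (s : ℤ → G)
    (P : G → OnePoint ℚ → OnePoint ℚ → ℂ) (hP : IsVSym N nu s P) (e : G)
    (a b c d a' b' c' d' : ℤ) (h : a * d - b * c = 1) (h' : a' * d' - b' * c' = 1)
    (hc : (N : ℤ) ∣ c' - c) (hd : (N : ℤ) ∣ d' - d) :
    P e (pt a' c') (pt b' d') = nu (a * d' - b * c') *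
      P (e * s (a * d' - b * c')) (pt a c) (pt b d) := by
  have h1 := hP.equiv e (a' * d - b' * c) (a * b' - a' * b) (c' * d - d' * c) (a * d' - b * c')
    (by linear_combination (a * d - b * c) * h' + h) (by
      have h2 : c' * d - d' * c = (c' - c) * d - (d' - d) * c := by ring
      rw [h2]
      exact (hc.mul_right _).sub (hd.mul_right _)) (pt a c) (pt b d)
  have e1 : mob (a' * d - b' * c) (a * b' - a' * b) (c' * d - d' * c) (a * d' - b * c') (pt a c) =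
      pt a' c' := by
    rw [mob_pt _ _ _ _ _ _ (by
      by_contra hh
      push Not at hh
      rw [hh.1, hh.2] at h
      simp at h)]
    congr 1
    · linear_combination a' * h
    · linear_combination c' * h
  have e2 : mob (a' * d - b' * c) (a * b' - a' * b) (c' * d - d' * c) (a * d' - b * c') (pt b d) =
      pt b' d' := by
    rw [mob_pt _ _ _ _ _ _ (by
      by_contra hh
      push Not at hh
      rw [hh.1, hh.2] at h
      simp at h)]
    congr 1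
    · linear_combination b' * h
    · linear_combination d' * h
  rw [e1, e2] at h1
  exact h1

theorem t_VNF : S_VNF := by
  intro G _ _ N hN s nu hnu hnua hs P hP hPa
  have hNpos : (0 : ℤ) < N := by exact_mod_cast Nat.pos_of_ne_zero hN
  have hii : ∀ e, P e ∞ ∞ = 0 := fun e => pp (P e) (hP.add e)
  -- all values are algebraic
  have halg0 : ∀ (e : G) (x : OnePoint ℚ), IsAlgebraic ℚ (P e ∞ x) := by
    intro e x
    induction x using OnePoint.rec with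
    | infty => rw [hii]; exact isAlgebraic_zero
    | coe x => exact hPa e x
  have halg : ∀ (e : G) (x y : OnePoint ℚ), IsAlgebraic ℚ (P e x y) := by
    intro e x y
    have h1 : P e x y = P e ∞ y - P e ∞ x := by
      rw [← hP.add e ∞ x y]
      ring
    rw [h1]
    exact (halg0 e y).sub (halg0 e x)
  -- the chosen values
  have hf : ∀ cd : ℤ × ℤ, ∃ v : G → ℂ, (∀ e, IsAlgebraic ℚ (v e)) ∧
      ∀ a b c d : ℤ, a * d - b * c = 1 →
      (N : ℤ) ∣ c - cd.1 → (N : ℤ) ∣ d - cd.2 → ∀ e : G, ∃ (k : ℤ) (e' : G),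
        P e (pt a c) (pt b d) = nu k * v e' := by
    intro cd
    by_cases h : ∃ a b c d : ℤ, a * d - b * c = 1 ∧ (N : ℤ) ∣ c - cd.1 ∧ (N : ℤ) ∣ d - cd.2
    · obtain ⟨a, b, c, d, h1, h2, h3⟩ := h
      refine ⟨fun e => P e (pt a c) (pt b d), fun e => halg _ _ _, fun a' b' c' d' h1' h2' h3' e => ?_⟩
      refine ⟨a * d' - b * c', e * s (a * d' - b * c'),
        equiV N nu s P hP e a b c d a' b' c' d' h1 h1' ?_ ?_⟩
      · have := h2'.sub h2
        have e : c' - c = c' - cd.1 - (c - cd.1) := by ring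
        rw [e]
        exact this
      · have := h3'.sub h3
        have e : d' - d = d' - cd.2 - (d - cd.2) := by ring
        rw [e]
        exact this
    · exact ⟨0, fun e => isAlgebraic_zero, fun a b c d h1 h2 h3 => absurd ⟨a, b, c, d, h1, h2, h3⟩ h⟩
  choose f hfa hf using hf
  -- the field
  set S : Set ℂ := nu '' (Set.Ico 0 (N : ℤ)) ∪
    (fun x : (ℤ × ℤ) × G => f x.1 x.2) '' ((Set.Ico 0 (N : ℤ) ×ˢ Set.Ico 0 (N : ℤ)) ×ˢ Set.univ)
    with hS
  have hSfin : S.Finite :=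
    ((Set.finite_Ico 0 (N : ℤ)).image _).union
      ((((Set.finite_Ico 0 (N : ℤ)).prod (Set.finite_Ico 0 (N : ℤ))).prod Set.finite_univ).image _)
  have hSalg : ∀ x ∈ S, IsIntegral ℚ x := by
    rintro x (⟨j, -, rfl⟩ | ⟨j, -, rfl⟩)
    · exact (hnua j).isIntegral
    · exact (hfa j.1 j.2).isIntegral
  have hfd : FiniteDimensional ℚ (IntermediateField.adjoin ℚ S) := by
    have : Finite S := hSfin
    exact IntermediateField.finiteDimensional_adjoin hSalg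
  set K : IntermediateField ℚ ℂ := IntermediateField.adjoin ℚ S with hK
  have hSK : ∀ x ∈ S, x ∈ K := fun x hx => IntermediateField.subset_adjoin ℚ S hx
  have hmod : ∀ d : ℤ, d % N ∈ Set.Ico 0 (N : ℤ) := fun d =>
    ⟨Int.emod_nonneg _ hNpos.ne', Int.emod_lt_of_pos _ hNpos⟩
  have hdvd : ∀ d : ℤ, (N : ℤ) ∣ d - d % N := fun d => Int.dvd_self_sub_emod
  have hnuK : ∀ d : ℤ, nu d ∈ K := by
    intro d
    rw [hnu d (d % N) (hdvd d)]
    exact hSK _ (Or.inl ⟨_, hmod d, rfl⟩)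
  have hmK : ∀ (e : G) (a b c d : ℤ), a * d - b * c = 1 → P e (pt a c) (pt b d) ∈ K := by
    intro e a b c d h
    obtain ⟨k, e', he⟩ := hf (c % N, d % N) a b c d h (hdvd c) (hdvd d) e
    rw [he]
    exact mul_mem (hnuK k) (hSK _ (Or.inr ⟨((c % N, d % N), e'), ⟨⟨hmod c, hmod d⟩, trivial⟩, rfl⟩))
  -- induction on the denominator
  have hind : ∀ (e : G) (n : ℕ), ∀ r s : ℤ, 0 ≤ s → s.toNat = n → IsCoprime r s →
      P e ∞ (pt r s) ∈ K := by
    intro e n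
    induction n using Nat.strong_induction_on with
    | _ n ih =>
      intro r s hs hsn hrs
      rcases hs.eq_or_lt with h0 | h0
      · rw [← h0, pt_zero, hii]
        exact zero_mem _
      · obtain ⟨u, v, huv⟩ := hrs
        set s' : ℤ := (-u) % s with hs'
        set r' : ℤ := v - r * ((-u) / s) with hr'
        have hdm : s' = -u - s * ((-u) / s) := by
          have := Int.emod_add_mul_ediv (-u) s
          rw [hs']
          linarith
        have hdet : r' * s - r * s' = 1 := by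
          rw [hdm, hr']
          linear_combination huv
        have h1 : 0 ≤ s' := Int.emod_nonneg _ h0.ne'
        have h2 : s' < s := Int.emod_lt_of_pos _ h0
        have h3 : P e ∞ (pt r' s') ∈ K := by
          refine ih s'.toNat ?_ r' s' h1 rfl ⟨s, -r, by linear_combination hdet⟩
          omega
        rw [← hP.add e ∞ (pt r' s') (pt r s)]
        exact add_mem h3 (hmK e r' r s' s hdet)
  refine ⟨K, hfd, fun e x => ?_⟩
  have hx : (x : OnePoint ℚ) = pt x.num x.den := by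
    rw [pt_ne _ _ (by exact_mod_cast x.den_nz)]
    congr 1
    exact_mod_cast (Rat.num_div_den x).symm
  rw [hx]
  refine hind _ _ _ _ (by positivity) rfl ?_
  rw [Int.isCoprime_iff_gcd_eq_one]
  exact x.reduced

end Pool.Agent.TWV


end

section

/-!
# OT, block H2 (helper3): the vector symbol is not small on the closed cycles

`nd_PV`: if the vector symbol `PV` were small (`v(PV) v(1 - ξ) < v p`) on all closed cycles of a level `N'`, for all indices `c` prime to `p`, then (the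
translates of a closed cycle by `b/M` are closed cycles, and the node `ζ` is multiplied by `ζ^b`) every node would be small: `v(Yh) v(1 - ξ)^(7p-7) < v p`;
against `HypT.nd`, as `p^(n-2) ≥ 7 p - 7`.
-/

set_option autoImplicit false

namespace Pool.Agent.OT

open _root_.MU3 _root_.Pool.Agent.MU3A _root_.Pool.Agent.MU3B _root_.Pool.Agent.MUX
  _root_.Pool.Agent.MuSym _root_.Pool.Agent.OB _root_.Pool.Agent.OBH OnePoint

noncomputable section

namespace H2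

open Finset

/-! ### Elementary facts -/

theorem sum_shift (M : ℕ) (G : ℤ → ℂ) (hG : ∀ j, G (j + M) = G j) (b : ℕ) :
    ∑ i ∈ range M, G ((i : ℤ) + b) = ∑ i ∈ range M, G (i : ℤ) := by
  induction b with
  | zero => simp
  | succ b ih =>
    rw [← ih]
    have h1 := Finset.sum_range_succ (fun i : ℕ => G ((i : ℤ) + b)) M
    have h2 := Finset.sum_range_succ' (fun i : ℕ => G ((i : ℤ) + b)) M
    rw [h1] at h2
    have h3 : G (((M : ℕ) : ℤ) + b) = G (((0 : ℕ) : ℤ) + b) := by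
      have := hG b
      rw [add_comm] at this
      simpa using this
    rw [h3] at h2
    have h4 := add_right_cancel h2
    rw [h4]
    refine Finset.sum_congr rfl fun i _ => ?_
    congr 1
    push_cast
    ring

theorem tM_inf (M : ℕ) (b : ℤ) : tM M b ∞ = ∞ := by
  unfold tM mob
  rw [OnePoint.elim_infty, if_pos rfl]

theorem tM_coe (M : ℕ) (hM : M ≠ 0) (b : ℤ) (x : ℚ) :
    tM M b (x : OnePoint ℚ) = ((x + (b : ℚ) / M : ℚ) : OnePoint ℚ) := by
  have h : (M : ℚ) ≠ 0 := by exact_mod_cast hM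
  unfold tM mob
  rw [OnePoint.elim_some, if_neg (by push_cast; simpa using hM)]
  congr 1
  push_cast
  rw [zero_mul, zero_add, add_div, mul_div_cancel_left₀ _ h]

theorem mob_inf_ne (α β γ δ : ℤ) (h : γ ≠ 0) :
    mob α β γ δ ∞ = (((α : ℚ) / γ : ℚ) : OnePoint ℚ) := by
  unfold mob
  rw [OnePoint.elim_infty, if_neg h]

theorem mob_inf_zero (α β δ : ℤ) : mob α β 0 δ ∞ = ∞ := by
  unfold mob
  rw [OnePoint.elim_infty, if_pos rfl]

variable {N : ℕ} {nu : ℤ → ℂ} {Q : OnePoint ℚ → OnePoint ℚ → ℂ}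

theorem sym_inf (h : IsSym N nu Q) : Q ∞ ∞ = 0 := by
  have := h.add ∞ ∞ ∞
  simpa using this

theorem sym_per (h : IsSym N nu Q) (h1 : nu 1 = 1) (x : ℚ) :
    Q ∞ ((x + 1 : ℚ) : OnePoint ℚ) = Q ∞ (x : OnePoint ℚ) := by
  have e := h.equiv 1 1 0 1 (by ring) (dvd_zero _) ∞ (x : OnePoint ℚ)
  have h2 : mob 1 1 0 1 (x : OnePoint ℚ) = ((x + 1 : ℚ) : OnePoint ℚ) := by
    unfold mob
    rw [OnePoint.elim_some]
    simp
  rw [mob_inf_zero, h2, h1, one_mul] at e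
  exact e

theorem Yh_coe (M : ℕ) (hM : M ≠ 0) (ζ : ℂ) (x : ℚ) :
    Yh M ζ Q ∞ (x : OnePoint ℚ) =
      ∑ b ∈ range M, ζ ^ b * Q ∞ ((x + (b : ℚ) / M : ℚ) : OnePoint ℚ) := by
  unfold Yh
  refine Finset.sum_congr rfl fun b _ => ?_
  rw [tM_inf, tM_coe M hM]
  push_cast
  rfl

theorem Yh_inf (h : IsSym N nu Q) (M : ℕ) (ζ : ℂ) : Yh M ζ Q ∞ ∞ = 0 := by
  unfold Yh
  refine Finset.sum_eq_zero fun b _ => ?_
  rw [tM_inf, sym_inf h, mul_zero]

/-- the translation by `-b/M` multiplies the node `ζ` by `ζ^b` -/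
theorem Yh_shift (h : IsSym N nu Q) (h1 : nu 1 = 1) (M : ℕ) (hM : M ≠ 0) (ζ : ℂ)
    (hζ : ζ ^ M = 1) (x : ℚ) (b : ℕ) :
    Yh M ζ Q ∞ ((x - (b : ℚ) / M : ℚ) : OnePoint ℚ) = ζ ^ b * Yh M ζ Q ∞ (x : OnePoint ℚ) := by
  have hM' : (M : ℚ) ≠ 0 := by exact_mod_cast hM
  have hζ0 : ζ ≠ 0 := by
    rintro rfl
    rw [zero_pow hM] at hζ
    exact zero_ne_one hζ
  rw [Yh_coe M hM, Yh_coe M hM]
  have e := sum_shift M (fun j : ℤ => ζ ^ j *
    Q ∞ ((x - (b : ℚ) / M + (j : ℚ) / M : ℚ) : OnePoint ℚ)) (fun j => by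
      rw [zpow_add₀ hζ0, zpow_natCast, hζ, mul_one]
      congr 1
      have : (x - (b : ℚ) / M + ((j + (M : ℤ) : ℤ) : ℚ) / M : ℚ) =
          (x - (b : ℚ) / M + (j : ℚ) / M) + 1 := by
        push_cast
        field_simp
        ring
      rw [this, sym_per h h1]) b
  have e1 : ∑ j ∈ range M, ζ ^ j * Q ∞ ((x - (b : ℚ) / M + (j : ℚ) / M : ℚ) : OnePoint ℚ) =
      ∑ j ∈ range M, ζ ^ (j : ℤ) *
        Q ∞ ((x - (b : ℚ) / M + (((j : ℤ)) : ℚ) / M : ℚ) : OnePoint ℚ) := by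
    refine Finset.sum_congr rfl fun j _ => ?_
    rw [zpow_natCast, Int.cast_natCast]
  rw [e1, ← e, Finset.mul_sum]
  refine Finset.sum_congr rfl fun j _ => ?_
  have e2 : (x - (b : ℚ) / M + (((j : ℤ) + (b : ℤ) : ℤ) : ℚ) / M : ℚ) = x + (j : ℚ) / M := by
    push_cast
    field_simp
    ring
  rw [e2, zpow_add₀ hζ0, zpow_natCast, zpow_natCast]
  ring

/-! ### The generator `z₀` -/

theorem z0_inj {p n : ℕ} (hp : p.Prime) {z₀ : ℤ} (h : IsZ0 p n z₀) (k : ℕ) (hk : k < p - 1)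
    (hd : (p : ℤ) ∣ z₀ ^ k - 1) : k = 0 := by
  have : Fact p.Prime := ⟨hp⟩
  have h0 : (z₀ : ZMod p) ^ (p - 1) = 1 := by
    have h1 : ((z₀ ^ (p - 1) - 1 : ℤ) : ZMod p) = 0 := by
      rw [ZMod.intCast_zmod_eq_zero_iff_dvd]
      refine dvd_trans ?_ h.one
      push_cast
      exact dvd_pow_self _ (by omega)
    push_cast at h1
    exact sub_eq_zero.1 h1
  have hz : IsUnit (z₀ : ZMod p) := by
    refine IsUnit.of_pow_eq_one h0 ?_
    have := hp.two_le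
    omega
  obtain ⟨u, hu⟩ := hz
  have h2 : ∀ v : (ZMod p)ˣ, v ∈ Subgroup.zpowers u := by
    intro v
    obtain ⟨a, ha⟩ : ∃ a : ℤ, (a : ZMod p) = v := ZMod.intCast_surjective _
    obtain ⟨j, -, hj⟩ := h.gen a (by
      intro hpa
      have h3 : ((a : ℤ) : ZMod p) = 0 := (ZMod.intCast_zmod_eq_zero_iff_dvd a p).2 hpa
      rw [h3] at ha
      exact v.ne_zero ha.symm)
    refine ⟨j, ?_⟩
    simp only [zpow_natCast]
    apply Units.ext
    rw [Units.val_pow_eq_pow_val, hu, ← ha]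
    have h3 : ((a - z₀ ^ j : ℤ) : ZMod p) = 0 := (ZMod.intCast_zmod_eq_zero_iff_dvd _ p).2 hj
    push_cast at h3
    exact (sub_eq_zero.1 h3).symm
  have h3 : orderOf u = p - 1 := by
    rw [orderOf_eq_card_of_forall_mem_zpowers h2, Nat.card_eq_fintype_card, ZMod.card_units]
  have h4 : u ^ k = 1 := by
    apply Units.ext
    rw [Units.val_pow_eq_pow_val, hu, Units.val_one]
    have h5 : ((z₀ ^ k - 1 : ℤ) : ZMod p) = 0 := (ZMod.intCast_zmod_eq_zero_iff_dvd _ p).2 hd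
    push_cast at h5
    exact sub_eq_zero.1 h5
  have h5 := orderOf_dvd_of_pow_eq_one h4
  rw [h3] at h5
  exact Nat.eq_zero_of_dvd_of_lt h5 hk

/-- the exponent of the node -/
def nE (p : ℕ) (a z₀ c : ℤ) (x : ℕ × ℕ × ℕ) : ℤ :=
  c * a ^ (2 * x.2.2) * (1 + (p : ℤ)) ^ x.2.1 * z₀ ^ x.1

theorem dvd_pow_sub_one {p : ℕ} {a : ℤ} (h : (p : ℤ) ∣ a - 1) (m : ℕ) : (p : ℤ) ∣ a ^ m - 1 := by
  have := sub_dvd_pow_sub_pow a 1 m
  rw [one_pow] at this
  exact h.trans this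

theorem nE_ne {p n : ℕ} (hp : p.Prime) {z₀ : ℤ} (h : IsZ0 p n z₀) {a c : ℤ}
    (ha : (p : ℤ) ∣ a - 1) (hc : ¬ (p : ℤ) ∣ c) (r₀ : ℕ) (x : ℕ × ℕ × ℕ) (hx : x.1 < p - 1)
    (hx0 : x.1 ≠ 0) : ¬ (p : ℤ) ∣ nE p a z₀ c (0, 0, r₀) - nE p a z₀ c x := by
  intro hd
  have hpi : Prime (p : ℤ) := Nat.prime_iff_prime_int.1 hp
  unfold nE at hd
  simp only [pow_zero, mul_one] at hd
  obtain ⟨w1, hw1⟩ := dvd_pow_sub_one ha (2 * r₀)
  obtain ⟨w2, hw2⟩ := dvd_pow_sub_one ha (2 * x.2.2)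
  obtain ⟨w3, hw3⟩ := dvd_pow_sub_one (p := p) (a := 1 + (p : ℤ)) (by simp) x.2.1
  obtain ⟨w, hw⟩ := hd
  have h1 : (p : ℤ) ∣ c * (z₀ ^ x.1 - 1) := by
    have e1 : a ^ (2 * r₀) = 1 + p * w1 := by linear_combination hw1
    have e2 : a ^ (2 * x.2.2) = 1 + p * w2 := by linear_combination hw2
    have e3 : (1 + (p : ℤ)) ^ x.2.1 = 1 + p * w3 := by linear_combination hw3
    rw [e1, e2, e3] at hw
    refine ⟨c * w1 - c * z₀ ^ x.1 * (w2 + w3 + p * w2 * w3) - w, ?_⟩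
    linear_combination -hw
  rcases hpi.dvd_or_dvd h1 with h2 | h2
  · exact hc h2
  · exact hx0 (z0_inj hp h x.1 hx h2)

/-- for one of the two nodes `1`, `a²` all differences to the other nodes with the same `k` are divisible by `p` exactly once -/
theorem exists_r0 {p : ℕ} (hp : p.Prime) (hp5 : 5 ≤ p) {a : ℤ} (ha : (p : ℤ) ∣ a - 1)
    (ha2 : ¬ (p : ℤ) ^ 2 ∣ a - 1) : ∃ r₀ < 2, ∀ c z₀ : ℤ, ¬ (p : ℤ) ∣ c → ∀ j < 2, ∀ r < 2,
      (j, r) ≠ (0, r₀) →
      (p : ℤ) ∣ nE p a z₀ c (0, 0, r₀) - nE p a z₀ c (0, j, r) ∧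
      ¬ (p : ℤ) ^ 2 ∣ nE p a z₀ c (0, 0, r₀) - nE p a z₀ c (0, j, r) := by
  have hpi : Prime (p : ℤ) := Nat.prime_iff_prime_int.1 hp
  obtain ⟨m, hm⟩ := ha
  have ha' : a = 1 + p * m := by linear_combination hm
  have hpm : ¬ (p : ℤ) ∣ m := by
    rintro ⟨w, rfl⟩
    exact ha2 ⟨w, by rw [hm]; ring⟩
  have h2m : ¬ (p : ℤ) ∣ 2 * m := by
    intro h
    rcases hpi.dvd_or_dvd h with h | h
    · have := Int.le_of_dvd (by norm_num) h
      omega
    · exact hpm h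
  -- a number `p w` with `p ∤ w`
  have key : ∀ c z w : ℤ, ¬ (p : ℤ) ∣ c → z = c * (p * w) → ¬ (p : ℤ) ∣ w →
      (p : ℤ) ∣ z ∧ ¬ (p : ℤ) ^ 2 ∣ z := by
    rintro c z w hc rfl hw
    refine ⟨⟨c * w, by ring⟩, ?_⟩
    rintro ⟨v, hv⟩
    have h1 : (p : ℤ) * (c * w) = p * (p * v) := by linear_combination hv
    have h2 := mul_left_cancel₀ hpi.ne_zero h1
    rcases hpi.dvd_or_dvd ⟨v, h2⟩ with h | h
    · exact hc h
    · exact hw h
  have hadd : ∀ w v : ℤ, ¬ (p : ℤ) ∣ w → ¬ (p : ℤ) ∣ w + p * v := by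
    intro w v hw h
    exact hw ((Int.dvd_add_left (Dvd.intro _ rfl)).1 h)
  have hone : ¬ (p : ℤ) ∣ 1 := fun h => by
    have := Int.le_of_dvd (by norm_num) h
    omega
  have hneg : ∀ w : ℤ, ¬ (p : ℤ) ∣ w → ¬ (p : ℤ) ∣ -w := fun w hw h => hw ((dvd_neg).1 h)
  by_cases h : (p : ℤ) ∣ 2 * m + 1
  · -- then `p ∤ 2 m - 1`
    have h' : ¬ (p : ℤ) ∣ 2 * m - 1 := by
      intro h3
      have h4 := dvd_sub h h3
      have e : 2 * m + 1 - (2 * m - 1) = 2 := by ring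
      rw [e] at h4
      have := Int.le_of_dvd (by norm_num) h4
      omega
    refine ⟨1, by norm_num, fun c z₀ hc j hj r hr hjr => ?_⟩
    have hj' : j = 0 ∨ j = 1 := by omega
    have hr' : r = 0 ∨ r = 1 := by omega
    rcases hj' with rfl | rfl <;> rcases hr' with rfl | rfl
    · -- `a² - 1`
      refine key c _ (2 * m + p * m ^ 2) hc ?_ (hadd _ _ h2m)
      unfold nE
      simp only [mul_zero, pow_zero, mul_one]
      rw [ha']
      ring
    · exact absurd rfl hjr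
    · -- `a² - (1 + p)`
      refine key c _ (2 * m - 1 + p * m ^ 2) hc ?_ (hadd _ _ h')
      unfold nE
      simp only [mul_zero, pow_zero, mul_one, pow_one]
      rw [ha']
      ring
    · -- `a² - a² (1 + p)`
      refine key c _ (-1 + p * (-(2 * m + p * m ^ 2))) hc ?_ (hadd _ _ (hneg _ hone))
      unfold nE
      simp only [pow_zero, mul_one, pow_one]
      rw [ha']
      ring
  · refine ⟨0, by norm_num, fun c z₀ hc j hj r hr hjr => ?_⟩
    have hj' : j = 0 ∨ j = 1 := by omega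
    have hr' : r = 0 ∨ r = 1 := by omega
    rcases hj' with rfl | rfl <;> rcases hr' with rfl | rfl
    · exact absurd rfl hjr
    · -- `1 - a²`
      refine key c _ (-(2 * m) + p * (-m ^ 2)) hc ?_ (hadd _ _ (hneg _ h2m))
      unfold nE
      simp only [mul_zero, pow_zero, mul_one]
      rw [ha']
      ring
    · -- `1 - (1 + p)`
      refine key c _ (-1) hc ?_ (hneg _ hone)
      unfold nE
      simp only [mul_zero, pow_zero, mul_one, pow_one]
      ring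
    · -- `1 - a² (1 + p)`
      refine key c _ (-(2 * m + 1) + p * (-(m ^ 2 + 2 * m + p * m ^ 2))) hc ?_
        (hadd _ _ (hneg _ h))
      unfold nE
      simp only [mul_zero, pow_zero, mul_one, pow_one]
      rw [ha']
      ring

/-- the weight of a node -/
def nW (p n : ℕ) (ξ : ℂ) (a z₀ : ℤ) (t : ℤ → ℂ) (Q : ℕ → OnePoint ℚ → OnePoint ℚ → ℂ) (c : ℤ)
    (x : OnePoint ℚ) (y : ℕ × ℕ × ℕ) : ℂ :=
  t (z₀ ^ y.1) * coT a y.2.1 y.2.2 * Yh (p ^ (n + 1)) (ξ ^ nE p a z₀ c y) (Q y.1) ∞ x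

theorem PV_nodes (p n : ℕ) (ξ : ℂ) (a z₀ : ℤ) (t : ℤ → ℂ)
    (Q : ℕ → OnePoint ℚ → OnePoint ℚ → ℂ) (c : ℤ) (x : OnePoint ℚ) :
    PV p n ξ a z₀ t Q c ∞ x =
      ∑ y ∈ range (p - 1) ×ˢ range 2 ×ˢ range 2, nW p n ξ a z₀ t Q c x y := by
  unfold PV
  rw [Finset.sum_product]
  refine Finset.sum_congr rfl fun k _ => ?_
  rw [Finset.sum_product, Finset.mul_sum]
  refine Finset.sum_congr rfl fun j _ => ?_
  rw [Finset.mul_sum]
  refine Finset.sum_congr rfl fun r _ => ?_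
  unfold nW nE
  ring

/-- the number of the nodes with `k = 0` and with `k ≠ 0` -/
theorem sum_exp (p : ℕ) (hp : 2 ≤ p) : ∑ y ∈ range (p - 1) ×ˢ range 2 ×ˢ range 2,
    (if y.1 = 0 then p else 1) = 4 * p + 4 * (p - 2) := by
  rw [Finset.sum_product]
  have h1 : ∀ k : ℕ, ∑ y ∈ range 2 ×ˢ range 2, (if ((k, y) : ℕ × ℕ × ℕ).1 = 0 then p else 1) =
      4 * (if k = 0 then p else 1) := by
    intro k
    show ∑ _y ∈ range 2 ×ˢ range 2, (if k = 0 then p else 1) = _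
    rw [Finset.sum_const, smul_eq_mul]
    rfl
  simp_rw [h1]
  rw [← Finset.mul_sum]
  obtain ⟨m, rfl⟩ : ∃ m, p = m + 2 := ⟨p - 2, by omega⟩
  have h2 : m + 2 - 1 = m + 1 := by omega
  rw [h2, Finset.sum_range_succ']
  simp
  ring

end H2

open _root_.Pool.Agent.OT.H2 Finset in
/-- The vector symbol is not small on some closed cycle of every level. -/
theorem nd_PV {p n : ℕ} {V : ValuationSubring ℂ} {N : ℕ} {nu : ℤ → ℂ} {s : ℂ} {z₀ : ℤ}
    {t : ℤ → ℂ} {Q : ℕ → OnePoint ℚ → OnePoint ℚ → ℂ} {ξ : ℂ} {l : ℕ}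
    (H : HypT p n V N nu s z₀ t Q ξ l) (a : ℤ) (ha : (p : ℤ) ∣ a - 1) (ha2 : ¬ (p : ℤ) ^ 2 ∣ a - 1)
    (N' : ℕ) (hN' : N' ≠ 0) (hNN : N ∣ N') : ∃ c α β γ δ : ℤ, ¬ (p : ℤ) ∣ c ∧
      α * δ - β * γ = 1 ∧ (N' : ℤ) ∣ γ ∧ (N' : ℤ) ∣ δ - 1 ∧
      V.valuation (p : ℂ) ≤ V.valuation (PV p n ξ a z₀ t Q c ∞ (mob α β γ δ ∞)) *
        V.valuation (1 - ξ) := by
  classical
  by_contra hcon
  push Not at hcon
  have hp := H.pp
  have hp5 := H.p5
  have hpi : Prime (p : ℤ) := Nat.prime_iff_prime_int.1 hp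
  obtain ⟨M, hMd⟩ : ∃ M, M = p ^ (n + 1) := ⟨_, rfl⟩
  have hM0 : M ≠ 0 := by rw [hMd]; exact pow_ne_zero _ hp.ne_zero
  have hMq : (M : ℚ) ≠ 0 := by exact_mod_cast hM0
  obtain ⟨α, β, γ, δ, c₀, hdet, hγ, hδ, hc₀, hv⟩ := H.nd (N' * M ^ 2)
    (mul_ne_zero hN' (pow_ne_zero _ hM0)) (hNN.mul_right _)
  have hγ0 : γ ≠ 0 := by
    rintro rfl
    rw [mob_inf_zero, Yh_inf (H.sym 0), map_zero, zero_mul] at hv
    exact absurd hv (not_lt.2 zero_le)
  obtain ⟨X, hXd⟩ : ∃ X, X = V.valuation (1 - ξ) := ⟨_, rfl⟩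
  have hX0 : 0 < X := by rw [hXd]; exact L.xi_pos hp H.xi
  have hX1 : X < 1 := by rw [hXd]; exact L.xi_lt hp H.vp H.xi
  rw [← hXd] at hv
  obtain ⟨r₀, hr₀, hr₁⟩ := exists_r0 hp hp5 ha ha2
  -- the index `c`
  have hap : IsCoprime a (p : ℤ) := by
    obtain ⟨m, hm⟩ := ha
    exact ⟨1, -m, by linear_combination hm⟩
  obtain ⟨c, hc, hcc⟩ : ∃ c : ℤ, ¬ (p : ℤ) ∣ c ∧ (M : ℤ) ∣ c * a ^ (2 * r₀) - c₀ := by
    have h1 : IsCoprime (a ^ (2 * r₀)) (M : ℤ) := by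
      rw [hMd]
      push_cast
      exact (hap.pow_left).pow_right
    obtain ⟨u, v, huv⟩ := h1
    refine ⟨c₀ * u, ?_, ⟨-(c₀ * v), by linear_combination c₀ * huv⟩⟩
    intro h
    have h2 : (p : ℤ) ∣ (M : ℤ) := by
      rw [hMd]
      push_cast
      exact dvd_pow_self _ (by omega)
    have h3 : (p : ℤ) ∣ c₀ := by
      have e : c₀ = c₀ * u * a ^ (2 * r₀) + M * (c₀ * v) := by linear_combination -c₀ * huv
      rw [e]
      exact dvd_add (h.mul_right _) (h2.mul_right _)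
    exact hc₀ h3
  have hξM : ξ ^ M = 1 := by rw [hMd]; exact H.xi.pow_eq_one
  have hξ0 : ξ ≠ 0 := H.xi.ne_zero (pow_ne_zero _ hp.ne_zero)
  have hnode : ξ ^ nE p a z₀ c (0, 0, r₀) = ξ ^ c₀ := by
    obtain ⟨w, hw⟩ := hcc
    have e : nE p a z₀ c (0, 0, r₀) = c₀ + M * w := by
      unfold nE
      simp only [pow_zero, mul_one]
      linear_combination hw
    rw [e, zpow_add₀ hξ0, zpow_mul, zpow_natCast, hξM, one_zpow, mul_one]
  -- the translates of the closed cycle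
  obtain ⟨x, hxd⟩ : ∃ x : ℚ, x = (α : ℚ) / γ := ⟨_, rfl⟩
  have hcyc : mob α β γ δ ∞ = (x : OnePoint ℚ) := by
    rw [mob_inf_ne _ _ _ _ hγ0, hxd]
  rw [hcyc, ← hMd] at hv
  have hsmall : ∀ b : ℕ, V.valuation (PV p n ξ a z₀ t Q c ∞
      ((x - (b : ℚ) / M : ℚ) : OnePoint ℚ)) * X < V.valuation (p : ℂ) := by
    intro b
    obtain ⟨g, hg⟩ := hγ
    obtain ⟨d, hd⟩ := hδ
    have hγM : γ = M * (M * (N' * g)) := by rw [hg]; push_cast; ring
    have hα : α - 1 = M * (N' * (M * (β * g - α * d))) := by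
      have e : α * (δ - 1) - β * γ = 1 - α := by linear_combination hdet
      rw [hd, hg] at e
      push_cast at e
      linear_combination e
    have hδM : δ - 1 = M * (M * (N' * d)) := by rw [hd]; push_cast; ring
    have h1 := hcon c (α - b * (M * (N' * g)))
      (β - b * (M * (N' * d) - N' * (M * (β * g - α * d))) - b ^ 2 * (N' * g)) γ
      (δ + b * (M * (N' * g))) hc (by
        have e1 : δ - 1 - (α - 1) = δ - α := by ring
        rw [hα, hδM] at e1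
        have e2 : (M : ℤ) * (M * (N' * d) - N' * (M * (β * g - α * d))) = δ - α := by
          linear_combination e1
        have hMz : (M : ℤ) ≠ 0 := by exact_mod_cast hM0
        obtain ⟨D, hD⟩ : ∃ D : ℤ, D = M * (N' * d) - N' * (M * (β * g - α * d)) := ⟨_, rfl⟩
        rw [← hD] at e2 ⊢
        obtain ⟨E, hE⟩ : ∃ E : ℤ, E = N' * g := ⟨_, rfl⟩
        rw [← hE] at hγM ⊢
        rw [hγM] at hdet ⊢
        linear_combination hdet + (b : ℤ) * M * E * e2) (by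
        rw [hγM]
        exact ⟨M * (M * g), by ring⟩) (by
        have e : δ + b * (M * (N' * g)) - 1 = N' * (M * (M * d) + b * (M * g)) := by
          linear_combination hδM
        rw [e]
        exact Dvd.intro _ rfl)
    have h2 : mob (α - b * (M * (N' * g)))
        (β - b * (M * (N' * d) - N' * (M * (β * g - α * d))) - b ^ 2 * (N' * g)) γ
        (δ + b * (M * (N' * g))) ∞ = ((x - (b : ℚ) / M : ℚ) : OnePoint ℚ) := by
      rw [mob_inf_ne _ _ _ _ hγ0, hxd]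
      congr 1
      have hγq : (γ : ℚ) ≠ 0 := by exact_mod_cast hγ0
      have e : (γ : ℚ) = M * (M * (N' * g)) := by exact_mod_cast hγM
      push_cast
      rw [sub_div]
      congr 1
      rw [div_eq_div_iff hγq hMq]
      rw [e]
      ring
    rw [h2, ← hXd] at h1
    exact h1
  -- Lagrange
  obtain ⟨S, hSd⟩ : ∃ S : Finset (ℕ × ℕ × ℕ), S = range (p - 1) ×ˢ range 2 ×ˢ range 2 := ⟨_, rfl⟩
  have hk0 : ((0, 0, r₀) : ℕ × ℕ × ℕ) ∈ S := by
    rw [hSd]
    simp only [Finset.mem_product, Finset.mem_range]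
    exact ⟨by omega, by norm_num, hr₀⟩
  have hone : ∀ y : ℕ × ℕ × ℕ, (ξ ^ nE p a z₀ c y) ^ M = 1 := by
    intro y
    rw [← zpow_natCast, ← zpow_mul, mul_comm, zpow_mul, zpow_natCast, hξM, one_zpow]
  have hlag := L.lag V S (fun y => (1 - ξ) * nW p n ξ a z₀ t Q c (x : OnePoint ℚ) y)
    (fun y => ξ ^ nE p a z₀ c y) (0, 0, r₀) hk0 (V.valuation (p : ℂ)) (L.pos_p hp).ne'
    (fun y _ => (L.val_xi_zpow hp H.xi _).le) (fun b => by
      have h1 := hsmall b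
      rw [PV_nodes, ← hSd, mul_comm, hXd, ← map_mul, Finset.mul_sum] at h1
      convert h1 using 2
      refine Finset.sum_congr rfl fun y _ => ?_
      unfold nW
      rw [← hMd, Yh_shift (H.sym y.1) H.nu1 M hM0 _ (hone y) x b]
      ring)
  -- the product of the differences
  have hprod : X ^ (7 * p - 8) = ∏ k ∈ S.erase (0, 0, r₀),
      V.valuation (ξ ^ nE p a z₀ c (0, 0, r₀) - ξ ^ nE p a z₀ c k) := by
    have h1 : ∀ k ∈ S.erase (0, 0, r₀),
        V.valuation (ξ ^ nE p a z₀ c (0, 0, r₀) - ξ ^ nE p a z₀ c k) =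
          X ^ (if k.1 = 0 then p else 1) := by
      rintro ⟨k, j, r⟩ hk
      obtain ⟨hk1, hk2⟩ := Finset.mem_erase.1 hk
      rw [hSd] at hk2
      simp only [Finset.mem_product, Finset.mem_range] at hk2
      obtain ⟨hkp, hj, hr⟩ := hk2
      by_cases h : k = 0
      · subst h
        have h2 := hr₁ c z₀ hc j hj r hr (by
          intro h3
          apply hk1
          rw [h3])
        have h3 := L.val_d (V := V) hp H.xi 1 (by have := H.n5; omega) _ _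
          (by rw [pow_one]; exact h2.1) h2.2
        rw [h3, hXd]
        simp
      · have h2 := nE_ne hp H.z0 ha hc r₀ (k, j, r) hkp h
        have h3 := L.val_d (V := V) hp H.xi 0 (by omega) _ _ (by simp) (by
          rw [zero_add, pow_one]; exact h2)
        rw [h3, hXd]
        simp [h]
    rw [Finset.prod_congr rfl h1, Finset.prod_pow_eq_pow_sum]
    congr 1
    have h2 := Finset.add_sum_erase S (fun k : ℕ × ℕ × ℕ => if k.1 = 0 then p else 1) hk0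
    rw [hSd, sum_exp p hp.two_le] at h2
    simp only [if_true] at h2
    rw [← hSd] at h2
    omega
  rw [← hprod, map_mul, ← hXd] at hlag
  have hw : V.valuation (nW p n ξ a z₀ t Q c (x : OnePoint ℚ) (0, 0, r₀)) =
      V.valuation (Yh M (ξ ^ c₀) (Q 0) ∞ (x : OnePoint ℚ)) := by
    unfold nW
    obtain ⟨q, -, ht⟩ := H.tw
    have hva : V.valuation (a : ℂ) = 1 := by
      obtain ⟨m, hm⟩ := ha
      have e : (a : ℂ) = 1 + p * m := by
        have : a = 1 + p * m := by linear_combination hm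
        rw [this]
        push_cast
        ring
      have h1 : V.valuation ((p : ℂ) * m) < 1 := by
        rw [map_mul]
        exact lt_of_le_of_lt (mul_le_of_le_one_right' (Pool.Agent.MUXH.Hz.val_int V m)) H.vp
      rw [e, Valuation.map_add_eq_of_lt_left _ (by rw [map_one]; exact h1), map_one]
    have hco : V.valuation (coT a 0 r₀) = 1 := by
      unfold coT
      split_ifs
      · rw [Valuation.map_neg, map_mul, map_pow, map_pow, Valuation.map_neg, map_one, hva]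
        simp
      · rw [map_mul, map_pow, Valuation.map_neg, map_one, hva]
        simp
    simp only [pow_zero]
    rw [hnode, ht.one, one_mul, map_mul, hco, one_mul, ← hMd]
  rw [hw] at hlag
  -- the end
  have h7 : 7 * p - 7 ≤ p ^ (n - 2) := by
    have h1 : p ^ 3 ≤ p ^ (n - 2) := Nat.pow_le_pow_right hp.pos (by have := H.n5; omega)
    have h2 : 25 * p ≤ p ^ 3 :=
      calc 25 * p = 5 * 5 * p := by ring
        _ ≤ p * p * p := Nat.mul_le_mul_right p (Nat.mul_le_mul hp5 hp5)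
        _ = p ^ 3 := by ring
    omega
  have h8 : X ^ p ^ (n - 2) ≤ X ^ (7 * p - 7) :=
    pow_le_pow_right_of_le_one' hX1.le h7
  have h9 : V.valuation (Yh M (ξ ^ c₀) (Q 0) ∞ (x : OnePoint ℚ)) * X ^ p ^ (n - 2) <
      V.valuation (p : ℂ) := by
    refine lt_of_le_of_lt (mul_le_mul_right h8 _) ?_
    have e : V.valuation (Yh M (ξ ^ c₀) (Q 0) ∞ (x : OnePoint ℚ)) * X ^ (7 * p - 7) =
        X * V.valuation (Yh M (ξ ^ c₀) (Q 0) ∞ (x : OnePoint ℚ)) * X ^ (7 * p - 8) := by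
      have : 7 * p - 7 = 7 * p - 8 + 1 := by omega
      rw [this, pow_succ, mul_comm (X ^ (7 * p - 8)) X, ← mul_assoc, mul_comm _ X]
    rw [e]
    exact hlag
  exact absurd hv (not_lt.2 h9.le)

end

end Pool.Agent.OT


end

section

/-!
# TWV: the rigidity theorem for vectors of symbols (adapted from `TWR/TW4.lean`)

The ring is the group ring `V[G]`, the module the vectors `G → ℂ / {v < 1}`: the statements `S_FUL4`
and `S_MOD` hold for all commutative rings and all modules.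
-/

set_option autoImplicit false

namespace Pool.Agent.TWV

open Finset OnePoint Pool.Agent.TWR Pool.Agent.TWR.Q4 Pool.Agent.TWR.TWRAux

section Module

variable (V : ValuationSubring ℂ) (G : Type) [CommGroup G]

/-- vectors of classes modulo the maximal ideal -/
def VM : Type := G → (ℂ ⧸ small V)

noncomputable instance : AddCommGroup (VM V G) := inferInstanceAs (AddCommGroup (G → (ℂ ⧸ small V)))

noncomputable instance : Module V (VM V G) := inferInstanceAs (Module V (G → (ℂ ⧸ small V)))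

/-- the permutation of the components -/
noncomputable def actHom : G →* Module.End V (VM V G) where
  toFun g := { toFun := fun f e => f (e * g), map_add' := fun _ _ => rfl, map_smul' := fun _ _ => rfl }
  map_one' := by
    apply LinearMap.ext
    intro f
    funext e
    show f (e * 1) = f e
    rw [mul_one]
  map_mul' g g' := by
    apply LinearMap.ext
    intro f
    funext e
    show f (e * (g * g')) = f (e * g * g')
    rw [mul_assoc]

noncomputable instance instMod : Module (MonoidAlgebra V G) (VM V G) :=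
  Module.compHom (VM V G) (MonoidAlgebra.lift V (Module.End V (VM V G)) G (actHom V G)).toRingHom

theorem single_smul (g : G) (r : V) (f : VM V G) (e : G) :
    ((MonoidAlgebra.single g r : MonoidAlgebra V G) • f) e = r • f (e * g) := by
  have h1 : (MonoidAlgebra.single g r : MonoidAlgebra V G) • f =
      (MonoidAlgebra.lift V (Module.End V (VM V G)) G (actHom V G) (MonoidAlgebra.single g r)) f := rfl
  rw [h1, MonoidAlgebra.lift_single]
  rfl

theorem alg_smul (r : V) (f : VM V G) (e : G) :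
    ((algebraMap V (MonoidAlgebra V G) r) • f) e = r • f e := by
  have h1 : (algebraMap V (MonoidAlgebra V G) r) • f =
      (MonoidAlgebra.lift V (Module.End V (VM V G)) G (actHom V G)
        (algebraMap V (MonoidAlgebra V G) r)) f := rfl
  rw [h1, AlgHom.commutes]
  rfl

theorem sum_apply' {J : Type} (t : Finset J) (F : J → VM V G) (e : G) :
    (∑ j ∈ t, F j) e = ∑ j ∈ t, F j e := by
  classical
  induction t using Finset.induction_on with
  | empty => rfl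
  | insert a t ha ih =>
    rw [Finset.sum_insert ha, Finset.sum_insert ha, ← ih]
    rfl

end Module

theorem m_TWV (hFUL : S_FUL4) (hMOD : S_MOD) (hFRB : S_FRB) (hVST : S_VST) (hZCH : S_ZCH)
    (hVNF : S_VNF) : S_TWV := by
  intro l g h hG V p hp hp5 hvp I _ G _ _ N hN s hs1 hs2 nu hnu1 hnu2 hnu3 hnu4 P hsym
    hPa hPe hPd hND
  choose K' hK1 hK2 using fun i => hVNF G N hN s (nu i) (hnu3 i) (hnu4 i) hs2 (P i) (hsym i) (hPa i)
  obtain ⟨K, hKdef⟩ : ∃ K : IntermediateField ℚ ℂ, K = ⨆ i, K' i := ⟨_, rfl⟩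
  have hK : FiniteDimensional ℚ K := by
    rw [hKdef]
    have := hK1
    exact IntermediateField.finiteDimensional_iSup_of_finite
  have hPK : ∀ i (e : G) (x : ℚ), P i e ∞ (x : OnePoint ℚ) ∈ K := by
    intro i e x
    rw [hKdef]
    exact (le_iSup K' i) (hK2 i e x)
  classical
  by_contra hcon
  push Not at hcon
  have hl : l.Prime := by rcases hG with ⟨rfl, _, _⟩ | ⟨rfl, _, _⟩ <;> norm_num
  have hl24 : l ∣ 24 := by rcases hG with ⟨rfl, _, _⟩ | ⟨rfl, _, _⟩ <;> norm_num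
  have hlp : l < p := by rcases hG with ⟨rfl, _, _⟩ | ⟨rfl, _, _⟩ <;> omega
  have hcop : ∀ n : ℕ, 0 < n → n < p → V.valuation (n : ℂ) = 1 := by
    intro n h0 h1
    refine val_cop V p hvp n ?_
    rw [Nat.isCoprime_iff_coprime]
    exact Nat.Coprime.symm ((Nat.Prime.coprime_iff_not_dvd hp).2 (fun hd => by
      have := Nat.le_of_dvd h0 hd
      omega))
  have hvl : V.valuation (l : ℂ) = 1 := hcop l hl.pos hlp
  have hv2 : V.valuation (2 : ℂ) = 1 := by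
    have := hcop 2 (by norm_num) (by omega)
    simpa using this
  obtain ⟨q, hq1, hq24, hfr⟩ := hFRB V p hp hp5 hvp K hK
  have hq0 : q - 1 ≠ 0 := by omega
  have hlu0 : IsUnit (l : V) := by
    have h1 : V.valuation ((l : V) : ℂ) = 1 := by
      have h2 : ((l : V) : ℂ) = (l : ℂ) := by push_cast; rfl
      rw [h2, hvl]
    exact (V.valuation_eq_one_iff _).2 h1
  have hlu : IsUnit (l : MonoidAlgebra V G) := by
    have h1 := hlu0.map (algebraMap V (MonoidAlgebra V G))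
    rw [map_natCast] at h1
    exact h1
  -- the exponent
  obtain ⟨m, hm1, hm2⟩ : ∃ m, l ^ m ∣ q - 1 ∧ ¬ l ^ (m + 1) ∣ q - 1 := by
    have : Fact l.Prime := ⟨hl⟩
    exact ⟨padicValNat l (q - 1), pow_padicValNat_dvd, pow_succ_padicValNat_not_dvd hq0⟩
  have hmpos : 1 ≤ m := by
    by_contra hc
    have : m = 0 := by omega
    subst this
    exact hm2 (by simpa using hl24.trans hq24)
  have hm22 : l = 2 → 2 ≤ m := by
    intro h2
    subst h2
    by_contra hc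
    have : m = 1 := by omega
    subst this
    exact hm2 (Dvd.dvd.trans (by norm_num) hq24)
  obtain ⟨z0, hz0, hzexp⟩ := hZCH V l m hl hvl
  obtain ⟨z, hzdef⟩ : ∃ z : ℤ → MonoidAlgebra V G, z = fun j => algebraMap V (MonoidAlgebra V G) (z0 j) :=
    ⟨_, rfl⟩
  have hz : Chr (l ^ m) z := by
    rw [hzdef]
    refine ⟨fun a b => ?_, ?_, fun j hj => ?_⟩
    · show algebraMap V (MonoidAlgebra V G) (z0 (a + b)) = _
      rw [hz0.add, map_mul]
    · show algebraMap V (MonoidAlgebra V G) (z0 _) = 1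
      rw [hz0.per, map_one]
    · have h1 := (hz0.un j hj).map (algebraMap V (MonoidAlgebra V G))
      rw [map_sub, map_one] at h1
      exact h1
  -- symbols
  have hsymE : ∀ (i : I) (e : G) (a b c d : ℤ), a * d - b * c = 1 → (N : ℤ) ∣ c → c ≠ 0 → ∀ x : ℚ,
      (c : ℚ) * x + d ≠ 0 → P i e ∞ (((a * x + b) / (c * x + d) : ℚ) : OnePoint ℚ) =
        P i e ∞ (((a : ℚ) / c : ℚ) : OnePoint ℚ) + nu i d * P i (e * s d) ∞ (x : OnePoint ℚ) := by
    intro i e a b c d hdet hc hc0 x hx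
    have h1 := (hsym i).equiv e a b c d hdet hc ∞ (x : OnePoint ℚ)
    have h2 : Pool.Agent.MuSym.mob a b c d ∞ = (((a : ℚ) / c : ℚ) : OnePoint ℚ) := by
      simp [Pool.Agent.MuSym.mob, hc0]
    have h3 : Pool.Agent.MuSym.mob a b c d (x : OnePoint ℚ) =
        (((a * x + b) / (c * x + d) : ℚ) : OnePoint ℚ) := by
      simp [Pool.Agent.MuSym.mob, hx]
    rw [h2, h3] at h1
    rw [← h1, (hsym i).add]
  have hper : ∀ (i : I) (e : G) (x : ℚ),
      P i e ∞ ((x + 1 : ℚ) : OnePoint ℚ) = P i e ∞ (x : OnePoint ℚ) := by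
    intro i e x
    have h1 := (hsym i).equiv e 1 1 0 1 (by norm_num) (by simp) ∞ (x : OnePoint ℚ)
    have h2 : Pool.Agent.MuSym.mob 1 1 0 1 ∞ = ∞ := by
      simp [Pool.Agent.MuSym.mob]
    have h3 : Pool.Agent.MuSym.mob 1 1 0 1 (x : OnePoint ℚ) = ((x + 1 : ℚ) : OnePoint ℚ) := by
      simp [Pool.Agent.MuSym.mob]
    rw [h2, h3, hnu2, one_mul, hs1, mul_one] at h1
    exact h1
  have hinf : ∀ (i : I) (e : G), P i e ∞ ∞ = 0 := by
    intro i e
    have h1 := (hsym i).add e ∞ ∞ ∞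
    simpa using h1
  let W : I → ℚ → VM V G := fun i x e => (small V).mkQ (P i e ∞ (x : OnePoint ℚ))
  have hsmul : ∀ (r : V) (x : ℂ), r • (small V).mkQ x = (small V).mkQ ((r : ℂ) * x) := by
    intro r x
    rw [← _root_.map_smul]
    rfl
  let chi : I → ℤ → MonoidAlgebra V G := fun i d =>
    MonoidAlgebra.single (s d) ⟨nu i d, (V.valuation_le_one_iff _).1 (hnu1 i d)⟩
  obtain ⟨v, N0, hN0, hNeq⟩ : ∃ v N0 : ℕ, ¬ l ∣ N0 ∧ N = l ^ v * N0 :=
    Nat.exists_eq_pow_mul_and_not_dvd hN l hl.ne_one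
  have hN00 : N0 ≠ 0 := by rintro rfl; exact hN0 (dvd_zero _)
  have hN0c : IsCoprime (N0 : ℤ) (l : ℤ) := by
    rw [Nat.isCoprime_iff_coprime]
    exact ((Nat.Prime.coprime_iff_not_dvd hl).2 hN0).symm
  have hQM : ∀ i : I, QM (l ^ v * N0) (chi i) (W i) := by
    intro i
    refine ⟨?_, ?_, ?_, ?_⟩
    · intro x
      funext e
      change (small V).mkQ _ = (small V).mkQ _
      rw [hper]
    · have h1 : (⟨nu i 1, (V.valuation_le_one_iff _).1 (hnu1 i 1)⟩ : V) = 1 := Subtype.ext (hnu2 i)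
      show MonoidAlgebra.single (s 1) (⟨nu i 1, _⟩ : V) = 1
      rw [h1, hs1]
      rfl
    · intro d d' hd
      have hd' : (N : ℤ) ∣ d - d' := by rw [hNeq]; exact hd
      have h1 : (⟨nu i d, (V.valuation_le_one_iff _).1 (hnu1 i d)⟩ : V) =
        ⟨nu i d', (V.valuation_le_one_iff _).1 (hnu1 i d')⟩ := Subtype.ext (hnu3 i d d' hd')
      show MonoidAlgebra.single (s d) (⟨nu i d, _⟩ : V) = MonoidAlgebra.single (s d') (⟨nu i d', _⟩ : V)
      rw [h1, hs2 d d' hd']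
    · intro a b c d hdet hc hc0 x hx
      funext e
      have h1 : (W i ((a : ℚ) / c) + chi i d • W i x) e = W i ((a : ℚ) / c) e + (chi i d • W i x) e := rfl
      rw [h1, single_smul]
      change (small V).mkQ _ = (small V).mkQ _ + (_ : V) • (small V).mkQ _
      rw [hsmul, ← map_add, hsymE i e a b c d hdet (by rw [hNeq]; exact hc) hc0 x hx]
  have hdep : ∀ (i : I) (x : ℚ), ∑ k ∈ range l, W i (x + (k : ℚ) / l) = 0 := by
    intro i x
    funext e
    rw [sum_apply']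
    change ∑ k ∈ range l, (small V).mkQ _ = 0
    rw [← map_sum, hPd, map_zero]
  obtain ⟨t, ht1, ht⟩ := hFUL l m N0 hl hmpos hN00 hN0c
  -- the relations
  have hStar : ∀ n0, ∃ n, n0 ≤ n ∧ ∃ (i : I) (u : Fin (l ^ m)),
      (IsCoprime ((u : ℕ) : ℤ) (l : ℤ) ∧ StarAt l m z (W i) n ((u : ℕ) : ℤ)) := by
    intro n0
    obtain ⟨n, hn, i, ψ, hψ1, hψ2, hψ3⟩ := hcon (n0 + 2 * m + h + 1)
    refine ⟨n, by omega, i, ?_⟩
    obtain ⟨r, hr⟩ : ∃ r, n = m + r + h := ⟨n - m - h, by omega⟩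
    have hr1 : 1 ≤ r := by omega
    have hrm : m ≤ r + h := by omega
    revert ψ
    rw [hr]
    intro ψ hψ1 hψ2 hψ3
    obtain ⟨u, hu1, hu2, hu3, hu4⟩ := hVST V l g h m r q hG hmpos hm22 hr1 hrm hm1 hm2 (by omega)
      hvl hv2 K (by
        intro ξ hξ x hx
        have hnp : ¬ p ∣ l ^ (m + r) := by
          intro hd
          have := (Nat.prime_dvd_prime_iff_eq hp hl).1 (hp.dvd_of_dvd_pow hd)
          omega
        exact hfr (l ^ (m + r)) (pow_ne_zero _ hl.ne_zero) hnp ξ hξ x hx)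
      ψ hψ1 hψ2
    obtain ⟨w, rfl⟩ := Int.eq_ofNat_of_zero_le hu2
    have hw : w < l ^ m := by exact_mod_cast hu3
    refine ⟨⟨w, hw⟩, hu1, ?_⟩
    intro c e hce
    funext e'
    have h1 := hu4 (fun x => P i e' ∞ (x : OnePoint ℚ)) (hper i e') (hPe i e') (hPK i e') (hψ3 e') c e hce
    show (∑ j ∈ range (l ^ m), z (e * j) • W i _) e' = 0
    rw [sum_apply']
    simp only [hzdef, alg_smul]
    change ∑ j ∈ range (l ^ m), z0 (e * j) • (small V).mkQ _ = 0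
    simp only [hsmul]
    rw [← map_sum, ← LinearMap.mem_ker, Submodule.ker_mkQ, mem_small]
    simp only [hzexp]
    exact h1
  -- one symbol, one label and one residue class
  obtain ⟨i, u, hu, hiu⟩ : ∃ (i : I) (u : ℤ), IsCoprime u (l : ℤ) ∧ ∀ n0, ∃ n o, n0 ≤ n ∧ 1 ≤ o ∧
      t ∣ o ∧ StarAt l m z (W i) n u ∧ StarAt l m z (W i) (n + o) u := by
    by_contra hno
    push Not at hno
    have h1 : ∀ x : I × Fin (l ^ m) × Fin t, ∀ᶠ n in Filter.atTop,
        ¬ ((IsCoprime ((x.2.1 : ℕ) : ℤ) (l : ℤ) ∧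
          StarAt l m z (W x.1) n ((x.2.1 : ℕ) : ℤ)) ∧ n % t = x.2.2) := by
      intro x
      by_cases hx : IsCoprime ((x.2.1 : ℕ) : ℤ) (l : ℤ)
      · obtain ⟨n0, hn0⟩ := hno x.1 _ hx
        by_contra hnev
        rw [Filter.not_eventually] at hnev
        obtain ⟨n, hn, hn'⟩ := Filter.frequently_atTop.1 hnev n0
        obtain ⟨n2, hn2, hn2'⟩ := Filter.frequently_atTop.1 hnev (n + 1)
        rw [not_not] at hn' hn2'
        obtain ⟨o, ho⟩ : ∃ o, n2 = n + o := ⟨n2 - n, by omega⟩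
        refine hn0 n o hn (by omega) ?_ hn'.1.2 (by rw [← ho]; exact hn2'.1.2)
        have h3 : n + 0 ≡ n + o [MOD t] := by
          show (n + 0) % t = (n + o) % t
          rw [add_zero, ← ho, hn'.2, hn2'.2]
        exact (Nat.modEq_zero_iff_dvd).1 (Nat.ModEq.add_left_cancel' n h3).symm
      · exact Filter.Eventually.of_forall fun n hn => hx hn.1.1
    have h2 := Filter.eventually_all.2 h1
    obtain ⟨n0, hn0⟩ := Filter.eventually_atTop.1 h2
    obtain ⟨n, hn, i, u, hu⟩ := hStar n0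
    exact hn0 n hn ⟨i, u, ⟨n % t, Nat.mod_lt _ (by omega)⟩⟩ ⟨hu, rfl⟩
  -- all levels are fully bad
  have hfull : ∀ E, v + 2 * m ≤ E → Full l m z (W i) E := by
    intro E hE
    obtain ⟨n, o, hn, ho1, hto, hs, hso⟩ := hiu (E + 5 * m + 2 * t + 2)
    refine descent (Full l m z (W i)) v m t n hmpos (by omega) ?_ ?_ E hE (by omega)
    · intro E' hE' h1 h2
      obtain ⟨d, hd⟩ : ∃ d, n = E' + d := ⟨n - E', by omega⟩
      rw [hd] at hs hso
      exact ht (MonoidAlgebra V G) (VM V G) z hz v (chi i) (W i) (hQM i) u hu E' d o hE' (by omega) (by omega)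
        ho1 hto hs hso
    · intro E' hE' h1 h2
      exact ht (MonoidAlgebra V G) (VM V G) z hz v (chi i) (W i) (hQM i) u hu E' m t hE' le_rfl (by omega)
        ht1 dvd_rfl (h1.star hmpos u hu) (h2.star hmpos u hu)
  obtain ⟨E, hE⟩ : ∃ E, E = v + 2 * m := ⟨_, rfl⟩
  have hfin := hMOD (MonoidAlgebra V G) (VM V G) l m hl hmpos hlu z hz N0 v hN00 hN0c (chi i) (W i) (hQM i)
    (hdep i) E m 1 1 hE.ge le_rfl (by omega) isCoprime_one_left isCoprime_one_left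
    ((hfull E hE.ge).star hmpos 1 isCoprime_one_left)
    ((hfull (E + m) (by omega)).star hmpos 1 isCoprime_one_left) (fun t' ht' =>
      ⟨t', ht', dvd_rfl, (hfull (E + m + t') (by omega)).star hmpos 1 isCoprime_one_left⟩)
  obtain ⟨a1, b1, c1, d1, e1, hdet, hc1, hd1, hval⟩ := hND i (l ^ (E + m) * (l ^ v * N0))
    (by
      have := pow_ne_zero (E + m) hl.ne_zero
      have := pow_ne_zero v hl.ne_zero
      positivity) (by rw [hNeq]; exact Dvd.intro_left _ rfl)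
  rcases eq_or_ne c1 0 with h0 | h0
  · have h2 : Pool.Agent.MuSym.mob a1 b1 c1 d1 ∞ = ∞ := by
      simp [Pool.Agent.MuSym.mob, h0]
    rw [h2, hinf, map_zero] at hval
    simp at hval
  · have h2 : Pool.Agent.MuSym.mob a1 b1 c1 d1 ∞ = (((a1 : ℚ) / c1 : ℚ) : OnePoint ℚ) := by
      simp [Pool.Agent.MuSym.mob, h0]
    rw [h2] at hval
    have h3 := hfin a1 b1 c1 d1 hdet hc1 hd1 h0
    have h4 := congrFun h3 e1
    change (small V).mkQ _ = 0 at h4
    rw [← LinearMap.mem_ker, Submodule.ker_mkQ, mem_small] at h4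
    exact absurd h4 (not_lt.2 hval)



theorem a_TWV : S_TWV :=
  have hE : S_EQV := t_EQV t_TWPb
  have hK : S_KEY := t_KEY t_TWPb (t_EDG hE) t_CRT t_CST
  have hC : S_CLO := t_CLO t_TWPb hE hK
  have hM : S_MOD := t_MOD t_TWPb hC (t_SUM t_TWPb)
  m_TWV a_FUL4 hM t_FRB (t_VST t_GPW (t_TRS t_TRI)) t_ZCH t_VNF

end Pool.Agent.TWV


end

section

/-!
# OT (Theorem T), block I, the final theorem (helper79); model: `OB/I_I31.lean`
-/

set_option autoImplicit false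

namespace Pool.Agent.OTI

open _root_.MU3 Pool.Agent.MU3 Pool.Agent.MU3A Pool.Agent.MU3B Pool.Agent.RI Pool.Agent.RID
  Pool.Agent.MUX Pool.Agent.MUXK Pool.Agent.MUXI Pool.Agent.NS Pool.Agent.NSI Pool.Agent.OB
  Pool.Agent.OBI Pool.Agent.OT
open Pool.Agent.MU3I (zt)
open Pool.Agent.TWR (Gen)

noncomputable section

namespace I31T

lemma lprime {l g h : ℕ} (hg : Gen l g h) : l.Prime ∧ l ≤ 3 := by
  rcases hg with ⟨h1, -, -⟩ | ⟨h1, -, -⟩
  · subst h1
    exact ⟨Nat.prime_three, le_rfl⟩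
  · subst h1
    exact ⟨Nat.prime_two, by norm_num⟩

/-- one member of the family -/
theorem member (hEPS : Oi_EPS) (hH : O_HETA) (hBAS : Pool.Agent.OBT.So_BAS) {p er : ℕ}
    (hpp : p.Prime)
    {A B : ℤ} {P : Ideal (OO A B)} {V : ValuationSubring ℂ} {f : ℕ} (hS : SetO p er A B P V f)
    (hTor : TorX A B) {ι : Type} [Fintype ι] (R : Reps A B (p * f) ι) (u el lam : ℂ)
    (hG : GoodL V (R.L R.i0) u el lam) (w : OO A B → ℂ) (hw : IsTeiP p er P V w)
    {l g h : ℕ} (hgen : Gen l g h) (hl : l ∣ f) (z₀ : ℤ) (hz₀ : IsZ0 p 5 z₀)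
    (e0 : OO A B → ℂ) (kp : ι → ℂ) (r : ℕ) (hr : ¬ p ∣ r)
    (h01 : e0 1 = 1) (h0m : e0 (-1) = 1) (h0mul : ∀ x y, e0 (x * y) = e0 x * e0 y)
    (h0per : ∀ x y, x - y ∈ idl (A := A) (B := B) (lvX p f 0) → e0 x = e0 y)
    (h0supp : ∀ x, e0 x ≠ 0 ↔ IsCoprime x ((lvX p f 0 : ℕ) : OO A B))
    (h0pow : ∀ x, e0 x ≠ 0 → e0 x ^ r = 1) (hkp : ∀ i, kp i ^ r = 1) :
    ∃ (r₀ : ℕ) (e : OO A B → ℂ) (t : ℤ → ℂ), IsEI (idl (A := A) (B := B) (p * f)) e ∧
      IsTw p (nI P - 1) t ∧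
      (∀ x, IsCoprime x ((lvX p f 0 : ℕ) : OO A B) → e0 x * w x = e x * t (nm x)) ∧
      ∀ rr, r₀ ≤ rr → ∀ ψ : DirichletCharacter ℂ (l ^ rr), ψ (-1) = 1 →
      ψ (1 + (l : ZMod (l ^ rr)) ^ (rr - 1)) ≠ 1 → ∃ k' : ℕ,
        V.valuation (p : ℂ) < V.valuation ((∑ j ∈ Finset.range 2, (-1) ^ (1 - j) *
          SG p (RL R l rr hl) (lvX p (f * l ^ rr) 5) (p ^ (5 + 1)) (aX p (f * l ^ rr))
            (fun x => e x * ψ (nm x))
            (fun i => kkT R kp (fun i => muX R i) t i * ψ ((nI (R.b i) : ℕ))) t z₀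
            ((1 + (p : ℤ)) ^ (k' + j))) / u) := by
  obtain ⟨e, s, i, t, hei, hs, hi4, hi7, hty, hepow, ht1, ht2, ht3, ht4, ht5, hes⟩ :=
    hEPS p er A B P V f hS w hw e0 r hr h01 h0m h0mul h0per h0supp h0pow
  have hkk := I31.kkT_pow hpp R kp r (nI P - 1) hkp t ht5
  obtain ⟨-, -, -, -, -, -, -, hq1, -⟩ := hBAS p er A B P V hS.toCaseO
  have h8 : ¬ p ∣ (nI P - 1) * r := by
    intro h
    rcases (Nat.Prime.dvd_mul hpp).1 h with h | h
    · exact hq1 h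
    · exact hr h
  have htw : IsTw p (nI P - 1) t := ⟨ht3, ht1, ht2, ht5⟩
  obtain ⟨r₀, hr₀⟩ := hH p er A B P V f hS hTor ι R u el lam hG w hw e hei ((nI P - 1) * r)
    h8 hepow i hi4 hi7 hty t htw (kkT R kp (fun i => muX R i) t) hkk l g h hgen hl 5 le_rfl z₀ hz₀
  exact ⟨r₀, e, t, hei, htw, hes, hr₀⟩

/-- one level `n`, one character `χ` with its lift `X` -/
theorem level (hARF : Si_ARF) (hXXF : Si_XXF) (hSUB : Oi_SUB) (hGAM : Oi_GAM) (hNCR : Oi_NCR)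
    (hXMF : Ti_XMF) (hTHF : Ti_THF) (hPOW : Ti_POW) (hGEN : Si_GEN) (hGAL : S_GALX)
    (hRSX : S_RSX) {p er : ℕ} [Fact p.Prime] {A B : ℤ} {P : Ideal (OO A B)}
    {V : ValuationSubring ℂ} {f : ℕ} (hS : SetO p er A B P V f) (hTor : TorX A B)
    {ι : Type} [Fintype ι] (R : Reps A B (p * f) ι) (u : ℂ)
    (K : IntermediateField ℚ ℂ) (Bn : ℕ → IntermediateField ℚ ℂ)
    [FiniteDimensional ℚ K] [∀ n, FiniteDimensional ℚ ↥(K ⊔ Bn n)]
    (hB : BasX p (kk A B) K Bn)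
    (hcop : ¬ p ∣ Module.finrank (kk A B) (IntermediateField.extendScalars hB.hk))
    (hmu : ∃ ω ∈ K, IsPrimitiveRoot ω p)
    (hKT : ∀ y ∈ K, y ∈ RF (idl (A := A) (B := B) (lvX p f 0))) (n : ℕ) (hn : 1 ≤ n)
    (hk : kk A B ≤ K ⊔ Bn n) (hkK : kk A B ≤ K)
    (C : (letI := algC hk; ↥(K ⊔ Bn n) ≃ₐ[kk A B] ↥(K ⊔ Bn n)) → ℂ)
    (hE : EInpO p er P V f R u n hk C) (c₀ : ℂ) (mem : c₀ ∈ K ⊔ Bn n)
    (hc₀ : c₀ = C (letI := algC hk; 1))
    (χ : (letI := algC hkK; (↥K ≃ₐ[kk A B] ↥K) →* (IsLocalRing.ResidueField V)ˣ))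
    (X : (letI := algC hkK; (↥K ≃ₐ[kk A B] ↥K) →* ℂˣ))
    (hXθ : letI := algC hkK; ∀ (Δ' : Type) [Group Δ'] [Fintype Δ'] (j : Δ' →* (↥K ≃ₐ[kk A B] ↥K)),
      Function.Injective j → ∃ θ : IsLocalRing.ResidueField V →+ ZMod p,
        (∑ δ : Δ', ((θ ((χ (j δ))⁻¹ : (IsLocalRing.ResidueField V)ˣ)).val : ℂ) *
          (X (j δ) : ℂ)) ∉ V.nonunits)
    (w : OO A B → ℂ) (hw : IsTeiP p er P V w) (e0 e : OO A B → ℂ) (kp : ι → ℂ) (t : ℤ → ℂ)
    (q : ℕ) (hq : q ≠ 0) (htw : IsTw p q t) (hei : IsEI (idl (A := A) (B := B) (p * f)) e)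
    (hes : ∀ x, IsCoprime x ((lvX p f 0 : ℕ) : OO A B) → e0 x * w x = e x * t (nm x))
    (hval : letI := algC hkK; ∀ (τ : ↥K ≃ₐ[kk A B] ↥K) (i : ι) (x : OO A B),
      IsCoprime x ((lvX p f 0 : ℕ) : OO A B) →
      AR hkK (idl (lvX p f 0)) τ (sp x * cjI (R.b i)) → (((X τ)⁻¹ : ℂˣ) : ℂ) = kp i * e0 x)
    (z₀ : ℤ) (hz₀ : IsZ0 p n z₀) (k' : ℕ)
    (hbig : V.valuation (p : ℂ) < V.valuation ((∑ j ∈ Finset.range 2, (-1) ^ (1 - j) *
      SG p R (lvX p f n) (p ^ (n + 1)) (aX p f) e (kkT R kp (fun i => muX R i) t) t z₀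
        ((1 + (p : ℤ)) ^ (k' + j))) / u)) :
    I3At (IsLocalRing.ResidueField V) p (kk A B) K Bn hkK χ 1 n hk c₀ mem := by
  classical
  let aK : Algebra (kk A B) K := algC hkK
  have hpp : p.Prime := Fact.out
  have p5 := hS.p5
  have p2 : p ≠ 2 := by omega
  have hCQ : CQ A B := hS.cq
  have hL : SetQ p A B f := setQ_O hS
  let akL : Algebra (kk A B) ↥(K ⊔ Bn n) := algC hk
  obtain ⟨ρ, hρ⟩ := Pool.Agent.MUXK.I3X19.restr hRSX p (kk A B) K Bn hB hcop hkK n hk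
  obtain ⟨gal, comm⟩ := hGAL p (kk A B) K Bn hB n hk
  have hNL : ∃ (b : Ideal (OO A B)) (L : PeriodPair) (om : ℂ), IsNL b L om :=
    ⟨_, _, _, R.nl R.i0⟩
  have hsub := (hSUB p er A B P V f hS hTor hNL K hKT n (Bn n) hn (hB.lay n)).1
  obtain ⟨γ₀, hγ₀, hγ₀z⟩ := hGAM p p2 (kk A B) K Bn hB hmu n hk
  obtain ⟨hBR, hRD, -⟩ := hNCR p p2 (kk A B) K n (Bn n) (hB.lay n) hmu hk
  have hXX := hXMF p A B f hL hTor ι R (K ⊔ Bn n) n hk (Bn n) (hB.lay n) hBR hRD hsub gal γ₀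
    hγ₀z z₀ hz₀
  have fdk : FiniteDimensional (kk A B) ↥(K ⊔ Bn n) :=
    Module.Finite.of_restrictScalars_finite ℚ (kk A B) ↥(K ⊔ Bn n)
  have iG : Finite (↥(K ⊔ Bn n) ≃ₐ[kk A B] ↥(K ⊔ Bn n)) := inferInstance
  have iN : Fintype (NC hk (Bn n)) := Fintype.ofFinite _
  obtain ⟨θ, hXθ1⟩ := hXθ (NC hk (Bn n)) ρ.toMonoidHom ρ.injective
  let X' : NC hk (Bn n) →* ℂˣ := X.comp ρ.toMonoidHom
  have hX'θ : (∑ δ : NC hk (Bn n),
      (((θ ((χ (ρ δ))⁻¹ : (IsLocalRing.ResidueField V)ˣ)).val : ℕ) : ℂ) * (X' δ : ℂ)) ∉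
        V.nonunits := hXθ1
  have hKD : K ≤ K ⊔ Bn n := le_sup_left
  have hCc : ∀ i, (nI (R.b i)).Coprime (lvX p f n) := by
    intro i
    have h1 := R.cop i
    have h2 : lvX p f n ∣ (p * f) ^ (n + 1) := by
      have h4 : f ∣ f ^ (n + 1) := dvd_pow_self f (by omega)
      have h5 : lvX p f n = p ^ (n + 1) * f := by
        rw [lvX_odd p2]
        ring
      rw [h5, mul_pow]
      exact mul_dvd_mul (dvd_refl _) h4
    exact Nat.Coprime.coprime_dvd_right h2 (Nat.Coprime.pow_right _ h1)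
  have hm2 : 2 ≤ lvX p f n := by
    have h2 : 1 ≤ p ^ n := Nat.one_le_pow _ _ hpp.pos
    have h3 : 1 ≤ f := Nat.one_le_iff_ne_zero.2 hS.f0
    rw [lvX_odd p2, pow_succ]
    nlinarith [Nat.mul_le_mul h3 h2]
  have hm0 : (idl (A := A) (B := B) (lvX p f n)) ≠ ⊥ := by
    intro h
    have h1 : ((lvX p f n : ℕ) : OO A B) = 0 := Ideal.span_singleton_eq_bot.1 h
    have h2 := congrArg emb h1
    rw [I31.emb_nat] at h2
    have h3 : emb (0 : OO A B) = 0 := by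
      unfold emb
      simp
    rw [h3] at h2
    have h4 : lvX p f n = 0 := by exact_mod_cast h2
    omega
  have hlv : lvX p f 0 ∣ lvX p f n := by
    unfold lvX
    rw [pow_zero, mul_one]
    exact dvd_mul_right _ _
  have hle : idl (A := A) (B := B) (lvX p f n) ≤ idl (lvX p f 0) := by
    refine Ideal.span_singleton_le_span_singleton.2 ?_
    exact_mod_cast Nat.cast_dvd_cast hlv
  have hchi : ∀ (δ : NC hk (Bn n)) (j : ℕ),
      ∀ q ∈ XX R (lvX p f n) hk (γ₀ ^ j * (δ : ↥(K ⊔ Bn n) ≃ₐ[kk A B] ↥(K ⊔ Bn n))),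
      (((X' δ)⁻¹ : ℂˣ) : ℂ) = kp q.1 * e0 (Quotient.out q.2) := by
    intro δ j q hq
    have hqc : IsCoprime (Quotient.out q.2 : OO A B) ((lvX p f n : ℕ) : OO A B) := hq.1
    have h1 := hXXF A B hCQ hTor (p * f) ι R (lvX p f n) hm2 hCc (K ⊔ Bn n) hk hsub gal
    have hq2 : (q.1, Ideal.Quotient.mk (idl (A := A) (B := B) (lvX p f n))
        (Quotient.out q.2)) = q := Prod.ext rfl (Quotient.out_eq' q.2)
    have h2 := (h1.1 (γ₀ ^ j * (δ : ↥(K ⊔ Bn n) ≃ₐ[kk A B] ↥(K ⊔ Bn n))) q.1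
      (Quotient.out q.2) hqc).1 (by rw [hq2]; exact hq)
    obtain ⟨-, -, -, -, -, h3, -⟩ := hARF A B hCQ hTor hNL (idl (lvX p f n)) hm0 (K ⊔ Bn n)
      hk hsub gal
    have hγj : ∀ (i : ℕ) (z : ↥(K ⊔ Bn n)), (z : ℂ) ∈ K → (γ₀ ^ i) z = z := by
      intro i z hz
      induction i with
      | zero => rfl
      | succ i ih =>
        rw [pow_succ, AlgEquiv.mul_apply, (hγ₀ z).2 hz, ih]
    have h4 := h3 K hkK (idl (lvX p f 0)) hle hKD
      (γ₀ ^ j * (δ : ↥(K ⊔ Bn n) ≃ₐ[kk A B] ↥(K ⊔ Bn n))) (ρ δ)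
      (sp (Quotient.out q.2) * cjI (R.b q.1)) (by
        intro x x' hx
        rw [AlgEquiv.mul_apply]
        have h5 := hρ δ x x' hx
        have h6 : (((δ : ↥(K ⊔ Bn n) ≃ₐ[kk A B] ↥(K ⊔ Bn n)) x' : ↥(K ⊔ Bn n)) : ℂ) ∈ K := by
          have h7 : (((δ : ↥(K ⊔ Bn n) ≃ₐ[kk A B] ↥(K ⊔ Bn n)) x' : ↥(K ⊔ Bn n)) : ℂ) =
            (ρ δ x : ↥K) := h5
          rw [h7]
          exact (ρ δ x).2
        rw [hγj j _ h6]
        exact h5) h2
    have hco : IsCoprime (Quotient.out q.2 : OO A B) ((lvX p f 0 : ℕ) : OO A B) := by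
      have h7 : ((lvX p f 0 : ℕ) : OO A B) ∣ ((lvX p f n : ℕ) : OO A B) := by
        exact_mod_cast Nat.cast_dvd_cast hlv
      exact hqc.of_isCoprime_of_dvd_right h7
    exact hval (ρ δ) q.1 (Quotient.out q.2) hco h4
  -- the ideal `(p f)`
  have hg1 : idl (A := A) (B := B) (lvX p f 0) ≤ idl (p * f) := by
    refine Ideal.span_singleton_le_span_singleton.2 ?_
    have h1 : p * f ∣ lvX p f 0 := by
      rw [lvX_odd p2, zero_add, pow_one, mul_comm]
    exact_mod_cast Nat.cast_dvd_cast h1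
  have hg2 : idl (A := A) (B := B) (p * f) ≤ idl f := by
    refine Ideal.span_singleton_le_span_singleton.2 ?_
    have h1 : f ∣ p * f := dvd_mul_left f p
    exact_mod_cast Nat.cast_dvd_cast h1
  have hTHi := hTHF p A B f hL (idl (p * f)) hg1 hg2 ι R n z₀ hz₀ _ γ₀ (NC hk (Bn n))
    (fun τ => XX R (lvX p f n) hk τ) hXX X' e0 kp (fun i => muX R i) w e t q hq htw hei hes hchi
  have hcne : c₀ ≠ 0 := by
    rw [hc₀]
    exact hE.ne
  have key : ∀ y : ↥(K ⊔ Bn n), y ^ p ≠ ∏ δ : NC hk (Bn n),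
      ((δ : ↥(K ⊔ Bn n) ≃ₐ[kk A B] ↥(K ⊔ Bn n)) ((Tg γ₀)^[1] ⟨c₀, mem⟩)) ^
        (θ ((χ (ρ δ))⁻¹ : (IsLocalRing.ResidueField V)ˣ)).val := by
    intro y hy
    have hHf := hPOW p er A B P V f ι R u n (K ⊔ Bn n) hk C hE w
      hw comm c₀ mem hc₀ γ₀ (NC hk (Bn n)) 1 k'
      (fun δ => (θ ((χ (ρ δ))⁻¹ : (IsLocalRing.ResidueField V)ˣ)).val) X' hX'θ y hy
    refine absurd hHf (not_le_of_gt ?_)
    have hS1 : ∑ j ∈ Finset.range (1 + 1),
        (((-1 : ℤ) ^ (1 - j) * (Nat.choose 1 j : ℤ) : ℤ) : ℂ) *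
        ∑ δ : NC hk (Bn n), (((X' δ)⁻¹ : ℂˣ) : ℂ) * TTN R w (lvX p f n)
          (aX p f) hk (γ₀ ^ (k' + j) * (δ : ↥(K ⊔ Bn n) ≃ₐ[kk A B] ↥(K ⊔ Bn n))) =
        ∑ j ∈ Finset.range 2, (-1) ^ (1 - j) *
          SG p R (lvX p f n) (p ^ (n + 1)) (aX p f) e (kkT R kp (fun i => muX R i) t) t z₀
            ((1 + (p : ℤ)) ^ (k' + j)) := by
      refine Finset.sum_congr rfl fun j hj => ?_
      have hj1 : j ≤ 1 := by
        have := Finset.mem_range.1 hj
        omega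
      have hch : Nat.choose 1 j = 1 := by
        interval_cases j <;> rfl
      have h9 := hTHi (k' + j)
      have h10 : ∑ δ : NC hk (Bn n), (((X' δ)⁻¹ : ℂˣ) : ℂ) * TTN R w (lvX p f n)
          (aX p f) hk (γ₀ ^ (k' + j) * (δ : ↥(K ⊔ Bn n) ≃ₐ[kk A B] ↥(K ⊔ Bn n))) = _ := h9
      rw [h10, hch]
      push_cast
      ring
    rw [hS1]
    exact hbig
  intro γ hγ iN' r hr
  obtain rfl : iN' = iN := Subsingleton.elim _ _
  have hrρ : ∀ δ, r δ = ρ δ := by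
    intro δ
    refine AlgEquiv.ext fun x => Subtype.ext ?_
    have hx1 : (x : ℂ) ∈ K ⊔ Bn n := hKD x.2
    rw [← hr δ x ⟨x, hx1⟩ rfl, ← hρ δ x ⟨x, hx1⟩ rfl]
  have key2 := hGEN p (kk A B) K Bn hB n hk c₀ mem hcne 1 γ₀ hγ₀
    (fun δ => (θ ((χ (ρ δ))⁻¹ : (IsLocalRing.ResidueField V)ˣ)).val) key γ hγ
  refine ⟨θ, fun y hy => key2 y (hy.trans ?_)⟩
  refine Finset.prod_congr rfl fun δ _ => ?_
  rw [hrρ δ]

end I31T

/-- THE RESULT of block I -/
theorem ti_IT (hRES : Pool.Agent.MUXJ.Sj_RES) (hCHI : Oi_CHI) (hCHK : Ti_CHK) (hE0L : S_E0L)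
    (hEPS : Oi_EPS) (hTEI : Oi_TEI) (hLVT : S_LVT) (hARF : Si_ARF) (hXXF : Si_XXF) (hSUB : Oi_SUB)
    (hGAM : Oi_GAM) (hNCR : Oi_NCR) (hZ0 : Ti_Z0) (hXMF : Ti_XMF) (hTHF : Ti_THF) (hPOW : Ti_POW)
    (hEIX : Ti_EIX) (hGEN : Si_GEN) (hH : O_HETA) (hGAL : S_GALX) (hRSX : S_RSX)
    (hBAS : Pool.Agent.OBT.So_BAS) : O_IT := by
  classical
  intro l g h hgen p er iP A B P V f hS hlf hl hTor ι iι R u el lam hG K₀ iK₀ hkK₀ hmu₀ hK₀T Bl
    hlay hmono
  have hpp : p.Prime := iP.out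
  have p5 := hS.p5
  have p2 : p ≠ 2 := by omega
  have hCQ : CQ A B := hS.cq
  obtain ⟨hlp, hl3⟩ := I31T.lprime hgen
  obtain ⟨J, iJ, r, e0, kp, hpr, hfam, hnew⟩ := hE0L l g h hgen p er A B P V f hS hlf hTor ι R K₀
    hkK₀ hK₀T Bl hlay hmono
  obtain ⟨w, hw⟩ := hTEI p er A B P V hS.toCaseO
  obtain ⟨z₀, hz₀⟩ := hZ0 p hpp p2 5
  have hmem := fun j : J => I31T.member hEPS hH hBAS hpp hS hTor R u el lam hG w hw hgen hl z₀ hz₀
    (e0 j) (kp j) r hpr (hfam j).1 (hfam j).2.1 (hfam j).2.2.1 (hfam j).2.2.2.1 (hfam j).2.2.2.2.1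
    (hfam j).2.2.2.2.2.1 (hfam j).2.2.2.2.2.2
  choose rj e t hei htw hes hbig using hmem
  obtain ⟨M, hM⟩ := (Set.finite_range rj).bddAbove
  refine ⟨M, ?_⟩
  intro m hm Bn iK iKB hB hcop hk hkK C hE c₀ mem hc₀ χ hχ
  have hNL : ∃ (b : Ideal (OO A B)) (L : PeriodPair) (om : ℂ), IsNL b L om :=
    ⟨_, _, _, R.nl R.i0⟩
  -- the level `f'`
  obtain ⟨rr, hrr⟩ : ∃ rr, rr = m + 1 + h := ⟨_, rfl⟩
  have hKT' := hLVT l g h hgen p er A B P V f hS hTor hNL K₀ hK₀T (m + 1) (Bl (m + 1))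
    (hlay (m + 1))
  have hnewm := hnew m hkK
  rw [← hrr] at hE hKT' hnewm
  have hlr : l ^ rr ≠ 0 := pow_ne_zero _ hlp.ne_zero
  have hplr : ¬ p ∣ l ^ rr := by
    intro h1
    have h2 := hpp.dvd_of_dvd_pow h1
    have h3 := Nat.le_of_dvd hlp.pos h2
    omega
  have hS' : SetO p er A B P V (f * l ^ rr) := setO_up hS (l ^ rr) hlr hplr
  have hL : SetQ p A B f := setQ_O hS
  have hmu : ∃ ω ∈ K₀ ⊔ Bl (m + 1), IsPrimitiveRoot ω p := by
    obtain ⟨ω, h1, h2⟩ := hmu₀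
    exact ⟨ω, (le_sup_left : K₀ ≤ K₀ ⊔ Bl (m + 1)) h1, h2⟩
  -- the lift of `χ`
  let aK : Algebra (kk A B) ↥(K₀ ⊔ Bl (m + 1)) := algC hkK
  have hpV : ((p : ℕ) : ℂ) ∈ V.nonunits := by
    have h1 := (hS.hV ((p : ℕ) : OO A B)).2 hS.mem
    rwa [I31.emb_nat] at h1
  obtain ⟨iF1, iF2⟩ := hRES p V hpV
  have galK : IsGalois (kk A B) ↥(K₀ ⊔ Bl (m + 1)) := (isGalois_algC hkK).2 hB.gal
  have fdkK : FiniteDimensional (kk A B) ↥(K₀ ⊔ Bl (m + 1)) :=
    Module.Finite.of_restrictScalars_finite ℚ (kk A B) ↥(K₀ ⊔ Bl (m + 1))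
  have commK : ∀ a b : ↥(K₀ ⊔ Bl (m + 1)) ≃ₐ[kk A B] ↥(K₀ ⊔ Bl (m + 1)), a * b = b * a := by
    intro a b
    have h1 := hB.ab ((extEquiv hkK).symm.autCongr a) ((extEquiv hkK).symm.autCongr b)
    rw [← map_mul, ← map_mul] at h1
    exact (extEquiv hkK).symm.autCongr.injective h1
  have hcard : Nat.card (↥(K₀ ⊔ Bl (m + 1)) ≃ₐ[kk A B] ↥(K₀ ⊔ Bl (m + 1))) =
      Module.finrank (kk A B) (IntermediateField.extendScalars hB.hk) := by
    rw [IsGalois.card_aut_eq_finrank]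
    exact (extEquiv hkK).toLinearEquiv.finrank_eq
  have hc3 : ¬ p ∣ Nat.card (↥(K₀ ⊔ Bl (m + 1)) ≃ₐ[kk A B] ↥(K₀ ⊔ Bl (m + 1))) := by
    rw [hcard]
    exact hcop
  obtain ⟨X, hXr, hXθ⟩ := hCHI p V hpV iF1 iF2
    (↥(K₀ ⊔ Bl (m + 1)) ≃ₐ[kk A B] ↥(K₀ ⊔ Bl (m + 1))) commK hc3 χ
  let H : Subgroup (↥(K₀ ⊔ Bl (m + 1)) ≃ₐ[kk A B] ↥(K₀ ⊔ Bl (m + 1))) :=
    { carrier := {s | ∀ x : ↥(K₀ ⊔ Bl (m + 1)), (x : ℂ) ∈ K₀ ⊔ Bl m → s x = x}
      one_mem' := fun x _ => rfl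
      mul_mem' := by
        intro a b ha hb x hx
        rw [AlgEquiv.mul_apply, hb x hx, ha x hx]
      inv_mem' := by
        intro a ha x hx
        have h1 := ha x hx
        calc a⁻¹ x = a⁻¹ (a x) := by rw [h1]
          _ = x := by rw [← AlgEquiv.mul_apply, inv_mul_cancel]; rfl }
  obtain ⟨s, hsH, hsX⟩ := hCHK p V hpV _ χ X hXθ H (by
    obtain ⟨s, h1, h2⟩ := hχ
    exact ⟨s, h1, h2⟩)
  obtain ⟨j, ψ, hψ1, hψ2, hval⟩ := hnewm X _ hc3 hXr ⟨s, hsH, hsX⟩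
  obtain ⟨k', hk'⟩ := hbig j rr (by
    have h1 : rj j ≤ M := hM ⟨j, rfl⟩
    omega) ψ hψ1 hψ2
  obtain ⟨-, -, -, -, -, -, -, hq1, -⟩ := hBAS p er A B P V hS.toCaseO
  have hq0 : nI P - 1 ≠ 0 := by
    intro h1
    rw [h1] at hq1
    exact hq1 (dvd_zero p)
  have hlv : lvX p f 0 ∣ lvX p (f * l ^ rr) 0 := by
    rw [lvX_odd p2, lvX_odd p2]
    exact mul_dvd_mul (dvd_mul_right _ _) (dvd_refl _)
  refine I31T.level hARF hXXF hSUB hGAM hNCR hXMF hTHF hPOW hGEN hGAL hRSX hS' hTor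
    (RL R l rr hl) u (K₀ ⊔ Bl (m + 1)) Bn hB hcop hmu hKT' 5 (by norm_num) hk hkK C hE c₀ mem hc₀
    χ X hXθ w hw (fun x => e0 j x * ψ (nm x)) (fun x => e j x * ψ (nm x))
    (fun i => kp j i * ψ ((nI (R.b i) : ℕ))) (t j) (nI P - 1) hq0 (htw j)
    (hEIX p A B f hL l rr hlp hl (e j) (hei j) ψ) ?_ ?_ z₀ hz₀ k' ?_
  · intro x hx
    have h1 : IsCoprime x ((lvX p f 0 : ℕ) : OO A B) := by
      refine hx.of_isCoprime_of_dvd_right ?_
      exact_mod_cast Nat.cast_dvd_cast hlv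
    have h2 := hes j x h1
    linear_combination ψ (nm x) * h2
  · intro τ i x hx hAR
    exact hval τ i x hx hAR
  · have h1 : (kkT (RL R l rr hl) (fun i => kp j i * ψ ((nI (R.b i) : ℕ)))
        (fun i => muX (RL R l rr hl) i) (t j)) =
        fun i => kkT R (kp j) (fun i => muX R i) (t j) i * ψ ((nI (R.b i) : ℕ)) := by
      funext i
      show kp j i * ψ ((nI (R.b i) : ℕ)) * muX R i / muX R i * (t j (nI (R.b i)))⁻¹ =
        kp j i * muX R i / muX R i * (t j (nI (R.b i)))⁻¹ * ψ ((nI (R.b i) : ℕ))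
      ring
    rw [h1]
    exact hk'

end

end Pool.Agent.OTI


end

section

/-!
# OT, block HB, module BIR (helper14): Birch's formula for the symbols of theta series
-/

set_option autoImplicit false

namespace Pool.Agent.OT

open _root_.MU3 _root_.Pool.Agent.MU3A _root_.Pool.Agent.MU3B _root_.Pool.Agent.MU3F OnePoint
open scoped ComplexConjugate

noncomputable section

namespace BIR

open _root_.Pool.Agent.MUXF

/-- Birch's formula for the theta series -/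
lemma theta (A B : ℤ) (hc : _root_.Pool.Agent.MUXF.CQ A B) (b g : Ideal (OO A B))
    (e : OO A B → ℂ) (hb : b ≠ ⊥) (hg : g ≠ ⊥) (he : _root_.Pool.Agent.MUXF.IsEI g e) (N : ℕ)
    [NeZero N] (ψ : DirichletCharacter ℂ N) (hψ : ψ.IsPrimitive) (z : ℂ) (hz : 0 < z.im) :
    gaussSum ψ⁻¹ ZMod.stdAddChar *
        _root_.Pool.Agent.MUXF.thetaI b (fun x => e x * ψ (nm x)) z =
      ψ ((nI b : ℕ)) * ∑ c ∈ Finset.range N, ψ⁻¹ (c : ZMod N) *
        _root_.Pool.Agent.MUXF.thetaI b e (z + (c : ℂ) / N) := by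
  obtain ⟨-, -, -, hfin, -⟩ := xf_ALG A B hc
  obtain ⟨hQ1, -, -⟩ := xf_QB A B hc b hb
  obtain ⟨-, C, -, hC⟩ := xf_BDD A B hc g e hg he
  have hS := xf_TSM A B hc b hb e C hC
  have hnb : nI b ≠ 0 := by
    have := hfin b hb
    exact (Nat.card_pos (α := OO A B ⧸ b)).ne'
  have hnb0 : (nI b : ℂ) ≠ 0 := Nat.cast_ne_zero.2 hnb
  have hN0 : (N : ℂ) ≠ 0 := Nat.cast_ne_zero.2 (NeZero.ne N)
  have him : ∀ j : ℕ, 0 < (z + (j : ℂ) / N).im := by
    intro j
    have : ((j : ℂ) / N).im = 0 := by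
      rw [show ((j : ℂ) / N) = (((j : ℝ) / N : ℝ) : ℂ) by push_cast; rfl]
      exact Complex.ofReal_im _
    rw [Complex.add_im, this, add_zero]
    exact hz
  have hnm : ∀ x : b, ((nm (x : OO A B) : ℂ) / nI b) = ((qb b (x : OO A B) : ℤ) : ℂ) := by
    intro x
    rw [(hQ1 x x.2).1]
    push_cast
    field_simp
  have hpsi : ∀ x : b, ψ ((nm (x : OO A B) : ℤ) : ZMod N) =
      ψ ((nI b : ℕ) : ZMod N) * ψ ((qb b (x : OO A B) : ℤ) : ZMod N) := by
    intro x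
    rw [(hQ1 x x.2).1, ← map_mul]
    push_cast
    rfl
  have hterm : ∀ x : b, gaussSum ψ⁻¹ ZMod.stdAddChar * ((e x * ψ ((nm (x : OO A B) : ℤ) : ZMod N)) *
      conj (emb (x : OO A B)) *
      Complex.exp (2 * Real.pi * Complex.I * ((nm (x : OO A B) : ℂ) / nI b) * z)) =
      ∑ c ∈ Finset.range N, ψ ((nI b : ℕ) : ZMod N) * ψ⁻¹ (c : ZMod N) *
        (e x * conj (emb (x : OO A B)) *
        Complex.exp (2 * Real.pi * Complex.I * ((nm (x : OO A B) : ℂ) / nI b) *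
          (z + (c : ℂ) / N))) := by
    intro x
    rw [hpsi x]
    have h1 := TWG.Gau.shift ψ⁻¹ (TWG.Gau.prim_inv hψ) (qb b (x : OO A B))
    rw [inv_inv] at h1
    have h2 : ∀ c ∈ Finset.range N, ψ ((nI b : ℕ) : ZMod N) * ψ⁻¹ (c : ZMod N) *
        (e x * conj (emb (x : OO A B)) *
        Complex.exp (2 * Real.pi * Complex.I * ((nm (x : OO A B) : ℂ) / nI b) *
          (z + (c : ℂ) / N))) =
        (ψ ((nI b : ℕ) : ZMod N) * (e x * conj (emb (x : OO A B)) *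
        Complex.exp (2 * Real.pi * Complex.I * ((nm (x : OO A B) : ℂ) / nI b) * z))) *
        (ψ⁻¹ (c : ZMod N) * ex (((c * qb b (x : OO A B) : ℤ) : ℚ) / N)) := by
      intro c _
      have h3 : Complex.exp (2 * Real.pi * Complex.I * ((nm (x : OO A B) : ℂ) / nI b) *
          (z + (c : ℂ) / N)) =
          Complex.exp (2 * Real.pi * Complex.I * ((nm (x : OO A B) : ℂ) / nI b) * z) *
          ex (((c * qb b (x : OO A B) : ℤ) : ℚ) / N) := by
        unfold ex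
        rw [← Complex.exp_add, hnm x]
        congr 1
        push_cast
        field_simp
      rw [h3]
      ring
    rw [Finset.sum_congr rfl h2, ← Finset.mul_sum, h1]
    ring
  unfold _root_.Pool.Agent.MUXF.thetaI
  have h4 : ∀ c ∈ Finset.range N, ψ⁻¹ (c : ZMod N) * (1 / 2 * ∑' x : b, e x *
      (starRingEnd ℂ) (emb (x : OO A B)) *
      Complex.exp (2 * Real.pi * Complex.I * ((nm (x : OO A B) : ℂ) / nI b) *
        (z + (c : ℂ) / N))) =
      1 / 2 * (ψ⁻¹ (c : ZMod N) * ∑' x : b, e x *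
      (starRingEnd ℂ) (emb (x : OO A B)) *
      Complex.exp (2 * Real.pi * Complex.I * ((nm (x : OO A B) : ℂ) / nI b) *
        (z + (c : ℂ) / N))) := fun c _ => by ring
  rw [Finset.sum_congr rfl h4, ← Finset.mul_sum]
  have h5 : ∑' x : b, gaussSum ψ⁻¹ ZMod.stdAddChar * ((e x * ψ ((nm (x : OO A B) : ℤ) : ZMod N)) *
      conj (emb (x : OO A B)) *
      Complex.exp (2 * Real.pi * Complex.I * ((nm (x : OO A B) : ℂ) / nI b) * z)) =
      ∑ c ∈ Finset.range N, ψ ((nI b : ℕ) : ZMod N) * ψ⁻¹ (c : ZMod N) * ∑' x : b,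
        (e x * conj (emb (x : OO A B)) *
        Complex.exp (2 * Real.pi * Complex.I * ((nm (x : OO A B) : ℂ) / nI b) *
          (z + (c : ℂ) / N))) := by
    rw [tsum_congr hterm, Summable.tsum_finsetSum (fun c _ => (hS _ (him c)).mul_left _)]
    exact Finset.sum_congr rfl fun c _ => tsum_mul_left
  rw [tsum_mul_left] at h5
  have h6 : ∀ (g t : ℂ), g * (1 / 2 * t) = 1 / 2 * (g * t) := fun g t => by ring
  rw [h6, h5, h6, Finset.mul_sum, Finset.mul_sum, Finset.mul_sum]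
  refine Finset.sum_congr rfl fun c _ => ?_
  ring

/-- Birch's formula for the integrals -/
lemma iv (A B : ℤ) (hc : _root_.Pool.Agent.MUXF.CQ A B) (b g : Ideal (OO A B))
    (e : OO A B → ℂ) (hb : b ≠ ⊥) (hg : g ≠ ⊥) (he : _root_.Pool.Agent.MUXF.IsEI g e) (N : ℕ)
    [NeZero N] (ψ : DirichletCharacter ℂ N) (hψ : ψ.IsPrimitive) (r : ℚ) :
    gaussSum ψ⁻¹ ZMod.stdAddChar *
        _root_.Pool.Agent.MUXF.IvI b (fun x => e x * ψ (nm x)) r =
      ψ ((nI b : ℕ)) * ∑ c ∈ Finset.range N, ψ⁻¹ (c : ZMod N) *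
        _root_.Pool.Agent.MUXF.IvI b e (r + (c : ℚ) / N) := by
  have h1 : ∀ j ∈ Finset.range N, MeasureTheory.IntegrableOn
      (fun t : ℝ => (ψ ((nI b : ℕ) : ZMod N) * ψ⁻¹ (j : ZMod N)) *
        thetaI b e (((r + (j : ℚ) / N : ℚ) : ℂ) + t * Complex.I)) (Set.Ioi 0) :=
    fun j _ => (xf_ITG A B hc b g e hb hg he _).const_mul _
  have h2 : ∫ t in Set.Ioi (0 : ℝ), ∑ j ∈ Finset.range N,
      (ψ ((nI b : ℕ) : ZMod N) * ψ⁻¹ (j : ZMod N)) *
      thetaI b e (((r + (j : ℚ) / N : ℚ) : ℂ) + t * Complex.I) =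
      ∫ t in Set.Ioi (0 : ℝ), gaussSum ψ⁻¹ ZMod.stdAddChar *
        thetaI b (fun x => e x * ψ (nm x)) ((r : ℂ) + t * Complex.I) := by
    refine MeasureTheory.setIntegral_congr_fun measurableSet_Ioi fun t ht => ?_
    have ht0 : (0 : ℝ) < t := ht
    have hz : 0 < ((r : ℂ) + t * Complex.I).im := by
      simpa using ht0
    have h3 := theta A B hc b g e hb hg he N ψ hψ _ hz
    show ∑ j ∈ Finset.range N, (ψ ((nI b : ℕ) : ZMod N) * ψ⁻¹ (j : ZMod N)) *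
      thetaI b e (((r + (j : ℚ) / N : ℚ) : ℂ) + t * Complex.I) = _
    refine Eq.trans ?_ h3.symm
    rw [Finset.mul_sum]
    refine Finset.sum_congr rfl fun j _ => ?_
    rw [mul_assoc]
    congr 3
    push_cast
    ring
  rw [MeasureTheory.integral_finsetSum _ h1, MeasureTheory.integral_const_mul] at h2
  unfold _root_.Pool.Agent.MUXF.IvI
  have h4 : ∀ (g t : ℂ), g * (-(2 * Real.pi) * t) = -(2 * Real.pi) * (g * t) := fun g t => by ring
  rw [h4, ← h2, Finset.mul_sum, Finset.mul_sum]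
  refine Finset.sum_congr rfl fun c _ => ?_
  rw [MeasureTheory.integral_const_mul]
  ring

end BIR

/-- **BIR.** -/
theorem ob_BIR : Ob_BIR := by
  intro A B hc b g g' e hb hg _ he N _ ψ hψ _ x
  have h1 := BIR.iv A B (_root_.Pool.Agent.MUXHY.toCQ hc) b g e hb hg
    (_root_.Pool.Agent.MUXHY.toEI he) N ψ hψ x
  have h2 : ∀ (e₀ : OO A B → ℂ) (q : ℚ), _root_.Pool.Agent.MUX.PhiI b e₀ ∞ (q : OnePoint ℚ) =
      - _root_.Pool.Agent.MUXF.IvI b e₀ q := by
    intro e₀ q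
    change _root_.Pool.Agent.MUX.IcI b e₀ ∞ - _root_.Pool.Agent.MUX.IcI b e₀ (q : OnePoint ℚ) = _
    change (0 : ℂ) - _root_.Pool.Agent.MUXF.IvI b e₀ q = _
    rw [zero_sub]
  simp only [h2]
  simp only [mul_neg, Finset.sum_neg_distrib]
  rw [neg_inj]
  exact h1

end

end Pool.Agent.OT


end

section

/-!
# OT, block HB, module GEN: the Fourier coefficients at the exponents of the wrong genus vanish
-/

set_option autoImplicit false

namespace Pool.Agent.OT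

open _root_.MU3 _root_.Pool.Agent.MU3A _root_.Pool.Agent.MU3B _root_.Pool.Agent.MU3F OnePoint
open _root_.Pool.Agent.OB _root_.Pool.Agent.OBH
open scoped ComplexConjugate

noncomputable section

namespace GEN

open _root_.Pool.Agent.MUXF

lemma geo {M : ℕ} (hM : M ≠ 0) (k : ℤ) (h : ¬ (M : ℤ) ∣ k) :
    ∑ j ∈ Finset.range M, ex ((k : ℚ) / M) ^ j = 0 := by
  have hM0 : (M : ℂ) ≠ 0 := Nat.cast_ne_zero.2 hM
  have h1 : ex ((k : ℚ) / M) ^ M = 1 := by
    unfold ex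
    rw [← Complex.exp_nat_mul, Complex.exp_eq_one_iff]
    refine ⟨k, ?_⟩
    push_cast
    field_simp
  have h2 : ex ((k : ℚ) / M) ≠ 1 := by
    intro h3
    unfold ex at h3
    rw [Complex.exp_eq_one_iff] at h3
    obtain ⟨n, hn⟩ := h3
    have hpi : (2 * Real.pi * Complex.I : ℂ) ≠ 0 := Complex.two_pi_I_ne_zero
    have h4 : (k : ℂ) = (M : ℂ) * n := by
      push_cast at hn
      rw [mul_comm (n : ℂ)] at hn
      have h5 := mul_left_cancel₀ hpi hn
      field_simp at h5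
      rw [h5]
    exact h ⟨n, by exact_mod_cast h4⟩
  have h3 := mul_neg_geom_sum (ex ((k : ℚ) / M)) M
  rw [h1, sub_self] at h3
  rcases mul_eq_zero.1 h3 with h4 | h4
  · exact absurd (sub_eq_zero.1 h4).symm h2
  · exact h4

lemma ex_z (M : ℕ) (m : ℤ) : ex (-1 / (M : ℚ)) ^ m = ex (((-m : ℤ) : ℚ) / M) := by
  unfold ex
  rw [← Complex.exp_int_mul]
  congr 1
  push_cast
  ring

/-- the theta series -/
lemma theta (A B : ℤ) (hc : _root_.Pool.Agent.MUXF.CQ A B) (b g : Ideal (OO A B))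
    (e : OO A B → ℂ) (hb : b ≠ ⊥) (hg : g ≠ ⊥) (he : _root_.Pool.Agent.MUXF.IsEI g e) (M : ℕ)
    (hM : M ≠ 0) (m : ℤ) (hq : ∀ x ∈ b, e x ≠ 0 → ¬ (M : ℤ) ∣ qb b x - m) (z : ℂ)
    (hz : 0 < z.im) :
    ∑ j ∈ Finset.range M, (ex (-1 / (M : ℚ)) ^ m) ^ j *
        _root_.Pool.Agent.MUXF.thetaI b e (z + (j : ℂ) / M) = 0 := by
  obtain ⟨-, -, -, hfin, -⟩ := xf_ALG A B hc
  obtain ⟨hQ1, -, -⟩ := xf_QB A B hc b hb
  obtain ⟨-, C, -, hC⟩ := xf_BDD A B hc g e hg he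
  have hS := xf_TSM A B hc b hb e C hC
  have hnb : nI b ≠ 0 := by
    have := hfin b hb
    exact (Nat.card_pos (α := OO A B ⧸ b)).ne'
  have hnb0 : (nI b : ℂ) ≠ 0 := Nat.cast_ne_zero.2 hnb
  have hM0 : (M : ℂ) ≠ 0 := Nat.cast_ne_zero.2 hM
  have him : ∀ j : ℕ, 0 < (z + (j : ℂ) / M).im := by
    intro j
    have : ((j : ℂ) / M).im = 0 := by
      rw [show ((j : ℂ) / M) = (((j : ℝ) / M : ℝ) : ℂ) by push_cast; rfl]
      exact Complex.ofReal_im _
    rw [Complex.add_im, this, add_zero]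
    exact hz
  have hnm : ∀ x : b, ((nm (x : OO A B) : ℂ) / nI b) = ((qb b (x : OO A B) : ℤ) : ℂ) := by
    intro x
    rw [(hQ1 x x.2).1]
    push_cast
    field_simp
  have hterm : ∀ x : b, ∑ j ∈ Finset.range M, (ex (-1 / (M : ℚ)) ^ m) ^ j *
      (e x * conj (emb (x : OO A B)) *
        Complex.exp (2 * Real.pi * Complex.I * ((nm (x : OO A B) : ℂ) / nI b) *
          (z + (j : ℂ) / M))) = 0 := by
    intro x
    by_cases hx : e x = 0
    · refine Finset.sum_eq_zero fun j _ => ?_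
      rw [hx]
      ring
    have h2 : ∀ j ∈ Finset.range M, (ex (-1 / (M : ℚ)) ^ m) ^ j *
      (e x * conj (emb (x : OO A B)) *
        Complex.exp (2 * Real.pi * Complex.I * ((nm (x : OO A B) : ℂ) / nI b) *
          (z + (j : ℂ) / M))) =
        (e x * conj (emb (x : OO A B)) *
        Complex.exp (2 * Real.pi * Complex.I * ((nm (x : OO A B) : ℂ) / nI b) * z)) *
        ex (((qb b (x : OO A B) - m : ℤ) : ℚ) / M) ^ j := by
      intro j _
      have h3 : Complex.exp (2 * Real.pi * Complex.I * ((nm (x : OO A B) : ℂ) / nI b) *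
          (z + (j : ℂ) / M)) =
          Complex.exp (2 * Real.pi * Complex.I * ((nm (x : OO A B) : ℂ) / nI b) * z) *
          ex (((qb b (x : OO A B) : ℤ) : ℚ) / M) ^ j := by
        unfold ex
        rw [← Complex.exp_nat_mul, ← Complex.exp_add, hnm x]
        congr 1
        push_cast
        field_simp
      have h4 : ex (((qb b (x : OO A B) - m : ℤ) : ℚ) / M) =
          ex (-1 / (M : ℚ)) ^ m * ex (((qb b (x : OO A B) : ℤ) : ℚ) / M) := by
        rw [ex_z]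
        unfold ex
        rw [← Complex.exp_add]
        congr 1
        push_cast
        ring
      rw [h3, h4, mul_pow]
      ring
    rw [Finset.sum_congr rfl h2, ← Finset.mul_sum, geo hM _ (hq x x.2 hx), mul_zero]
  unfold _root_.Pool.Agent.MUXF.thetaI
  have h4 : ∀ c ∈ Finset.range M, (ex (-1 / (M : ℚ)) ^ m) ^ c * (1 / 2 * ∑' x : b, e x *
      (starRingEnd ℂ) (emb (x : OO A B)) *
      Complex.exp (2 * Real.pi * Complex.I * ((nm (x : OO A B) : ℂ) / nI b) *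
        (z + (c : ℂ) / M))) =
      1 / 2 * ∑' x : b, (ex (-1 / (M : ℚ)) ^ m) ^ c * (e x *
      (starRingEnd ℂ) (emb (x : OO A B)) *
      Complex.exp (2 * Real.pi * Complex.I * ((nm (x : OO A B) : ℂ) / nI b) *
        (z + (c : ℂ) / M))) := fun c _ => by rw [tsum_mul_left]; ring
  rw [Finset.sum_congr rfl h4, ← Finset.mul_sum,
    ← Summable.tsum_finsetSum (fun c _ => (hS _ (him c)).mul_left _), tsum_congr hterm, tsum_zero,
    mul_zero]

/-- the integrals -/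
lemma iv (A B : ℤ) (hc : _root_.Pool.Agent.MUXF.CQ A B) (b g : Ideal (OO A B))
    (e : OO A B → ℂ) (hb : b ≠ ⊥) (hg : g ≠ ⊥) (he : _root_.Pool.Agent.MUXF.IsEI g e) (M : ℕ)
    (hM : M ≠ 0) (m : ℤ) (hq : ∀ x ∈ b, e x ≠ 0 → ¬ (M : ℤ) ∣ qb b x - m) (r : ℚ) :
    ∑ j ∈ Finset.range M, (ex (-1 / (M : ℚ)) ^ m) ^ j *
        _root_.Pool.Agent.MUXF.IvI b e (r + (j : ℚ) / M) = 0 := by
  have h1 : ∀ j ∈ Finset.range M, MeasureTheory.IntegrableOn
      (fun t : ℝ => (ex (-1 / (M : ℚ)) ^ m) ^ j *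
        thetaI b e (((r + (j : ℚ) / M : ℚ) : ℂ) + t * Complex.I)) (Set.Ioi 0) :=
    fun j _ => (xf_ITG A B hc b g e hb hg he _).const_mul _
  have h2 : ∫ t in Set.Ioi (0 : ℝ), ∑ j ∈ Finset.range M,
      (ex (-1 / (M : ℚ)) ^ m) ^ j *
      thetaI b e (((r + (j : ℚ) / M : ℚ) : ℂ) + t * Complex.I) =
      ∫ t in Set.Ioi (0 : ℝ), (0 : ℂ) := by
    refine MeasureTheory.setIntegral_congr_fun measurableSet_Ioi fun t ht => ?_
    have ht0 : (0 : ℝ) < t := ht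
    have hz : 0 < ((r : ℂ) + t * Complex.I).im := by
      simpa using ht0
    have h3 := theta A B hc b g e hb hg he M hM m hq _ hz
    refine Eq.trans ?_ h3
    refine Finset.sum_congr rfl fun j _ => ?_
    congr 2
    push_cast
    ring
  rw [MeasureTheory.integral_finsetSum _ h1, MeasureTheory.integral_zero] at h2
  unfold _root_.Pool.Agent.MUXF.IvI
  have h4 : ∀ (g t : ℂ), g * (-(2 * Real.pi) * t) = -(2 * Real.pi) * (g * t) := fun g t => by ring
  have h5 : ∀ j ∈ Finset.range M, (ex (-1 / (M : ℚ)) ^ m) ^ j * (-(2 * Real.pi) *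
      ∫ t in Set.Ioi (0 : ℝ), thetaI b e (((r + (j : ℚ) / M : ℚ) : ℂ) + t * Complex.I)) =
      -(2 * Real.pi) * ∫ t in Set.Ioi (0 : ℝ), (ex (-1 / (M : ℚ)) ^ m) ^ j *
        thetaI b e (((r + (j : ℚ) / M : ℚ) : ℂ) + t * Complex.I) := by
    intro j _
    rw [h4, MeasureTheory.integral_const_mul]
  rw [Finset.sum_congr rfl h5, ← Finset.mul_sum, h2, mul_zero]

end GEN

/-- **GEN.** -/
theorem ob_GEN (hQ : So_QBO) : Ob_GEN := by
  intro p A B P V f hS e he b hb n m hm hJ x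
  have hp := hS.pp
  have hM : p ^ (n + 1) ≠ 0 := pow_ne_zero _ hp.ne_zero
  have hcq := _root_.Pool.Agent.MUXHY.toCQ hS.cq
  have hg : MUX.idl (A := A) (B := B) (p * f) ≠ ⊥ := by
    have h1 : ((p * f : ℕ) : OO A B) ∈ MUX.idl (A := A) (B := B) (p * f) :=
      Ideal.mem_span_singleton_self _
    intro h2
    rw [h2, Ideal.mem_bot] at h1
    have h3 := congrArg QuadraticAlgebra.re h1
    rw [QuadraticAlgebra.re_natCast, QuadraticAlgebra.re_zero] at h3
    exact mul_ne_zero hp.ne_zero hS.f0 (by exact_mod_cast h3)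
  have hgcd : ∀ k : ℤ, ¬ (p : ℤ) ∣ k → jacobiSym k p ≠ 0 := by
    intro k hk h0
    have h1 := (jacobiSym.eq_zero_iff.1 h0).2
    apply h1
    rw [Int.gcd_comm, Int.gcd_eq_natAbs, Int.natAbs_natCast]
    exact (Nat.Prime.coprime_iff_not_dvd hp).2 fun h2 => hk (Int.natCast_dvd.2 h2)
  have hq : ∀ y ∈ b, e y ≠ 0 → ¬ ((p ^ (n + 1) : ℕ) : ℤ) ∣ MUXF.qb b y - m := by
    intro y hy hey hd
    obtain ⟨-, h1, h2⟩ := hQ p 2 A B P V f hS e he b hb y hy hey
    obtain ⟨-, h3⟩ := h2 rfl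
    have h4 : (p : ℤ) ∣ MUXF.qb b y - m := by
      refine dvd_trans ?_ hd
      push_cast
      exact dvd_pow_self _ (Nat.succ_ne_zero n)
    have h5 : jacobiSym (MUXF.qb b y) p = jacobiSym m p := by
      rw [jacobiSym.mod_left (MUXF.qb b y) p, jacobiSym.mod_left m p,
        Int.emod_eq_emod_iff_emod_sub_eq_zero.2 (Int.emod_eq_zero_of_dvd h4)]
    apply hJ
    rw [jacobiSym.mul_left, ← h3, h5, ← jacobiSym.mul_left, ← sq]
    rw [jacobiSym.pow_left]
    have h6 := jacobiSym.trichotomy m p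
    rcases h6 with h6 | h6 | h6
    · exact absurd h6 (hgcd m hm)
    · rw [h6]; norm_num
    · rw [h6]; norm_num
  have h1 := GEN.iv A B hcq b (MUX.idl (A := A) (B := B) (p * f)) e hb hg
    (_root_.Pool.Agent.MUXHY.toEI he) (p ^ (n + 1)) hM m hq x
  rw [H2.Yh_coe _ hM]
  have h2 : ∀ q : ℚ, _root_.Pool.Agent.MUX.PhiI b e ∞ (q : OnePoint ℚ) =
      - _root_.Pool.Agent.MUXF.IvI b e q := by
    intro q
    change _root_.Pool.Agent.MUX.IcI b e ∞ - _root_.Pool.Agent.MUX.IcI b e (q : OnePoint ℚ) = _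
    change (0 : ℂ) - _root_.Pool.Agent.MUXF.IvI b e q = _
    rw [zero_sub]
  simp only [h2, mul_neg, Finset.sum_neg_distrib]
  rw [neg_eq_zero]
  exact h1

end

end Pool.Agent.OT


end

section

/-!
# OT, block HB: module HETA (helper59), the assembly `O_HETA`
-/

set_option autoImplicit false

namespace Pool.Agent.OT

open _root_.MU3 _root_.Pool.Agent.MU3A _root_.Pool.Agent.MU3B _root_.Pool.Agent.MU3F
  _root_.Pool.Agent.MUX _root_.Pool.Agent.MuSym _root_.Pool.Agent.OB _root_.Pool.Agent.OBH OnePoint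
  _root_.Pool.Agent.MUXHY
open _root_.Pool.Agent.TWR (Gen)
open Finset

noncomputable section

namespace Heta

/-- the coefficients of the values `Q ∞ (x + b/M)` in `PV` -/
def Wb (p : ℕ) (ξ : ℂ) (a z₀ : ℤ) (t : ℤ → ℂ) (c : ℤ) (b : ℕ) : ℂ :=
  ∑ k ∈ range (p - 1), ∑ j ∈ range 2, ∑ r ∈ range 2, t (z₀ ^ k) *
    (coT a j r * (ξ ^ (c * a ^ (2 * r) * (1 + (p : ℤ)) ^ j * z₀ ^ k)) ^ b)

theorem PV_coe (p n : ℕ) (hp : p ≠ 0) (ξ : ℂ) (a z₀ : ℤ) (t : ℤ → ℂ)
    (Q : OnePoint ℚ → OnePoint ℚ → ℂ) (c : ℤ) (x : ℚ) :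
    PV p n ξ a z₀ t (fun _ => Q) c ∞ (x : OnePoint ℚ) = ∑ b ∈ range (p ^ (n + 1)),
      Wb p ξ a z₀ t c b * Q ∞ ((x + (b : ℚ) / ((p ^ (n + 1) : ℕ) : ℚ) : ℚ) : OnePoint ℚ) := by
  unfold PV Wb
  simp only [H2.Yh_coe (p ^ (n + 1)) (pow_ne_zero _ hp), Finset.mul_sum, Finset.sum_mul]
  simp only [Finset.sum_comm (s := range 2) (t := range (p ^ (n + 1))),
    Finset.sum_comm (s := range (p - 1)) (t := range (p ^ (n + 1)))]
  refine Finset.sum_congr rfl fun b _ => ?_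
  refine Finset.sum_congr rfl fun k _ => ?_
  refine Finset.sum_congr rfl fun j _ => ?_
  refine Finset.sum_congr rfl fun r _ => ?_
  ring

theorem phi_per {A B : ℤ} (hC : CQ A B) {m : ℕ} {ι : Type} [Fintype ι] (R : Reps A B m ι)
    (e : OO A B → ℂ) (kk : ι → ℂ) (x : ℚ) (k : ℤ) :
    PhiK R e kk ∞ ((x + k : ℚ) : OnePoint ℚ) = PhiK R e kk ∞ (x : OnePoint ℚ) := by
  unfold PhiK
  refine Finset.sum_congr rfl fun i _ => ?_
  rw [Qsx.PhiI_per MUXF.xf_PRD hC (R.nl i).b_ne]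

end Heta

open _root_.Pool.Agent.OT.Heta in
theorem ob_HETA (hH : Ot_H) (hHT : Ob_HT) (hSGP : Ob_SGP) (hBIR : Ob_BIR) (hEPS : Ob_EPS)
    (hSYE : Ob_SYE) (hZC : Ob_ZC) (hSGE : Ob_SGE) (hVAL : So_VAL) (hRAM : So_RAM) : O_HETA := by
  intro p er A B P V f hS hTor ι _ R u el lam hG w hw e he r₁ hr₁ her i hi1 hi2 hew t ht kk hkk
    l g h hGen hl n hn z₀ hz₀
  obtain ⟨vp, -, v1, vr, -, -, gne, -, hpf, -, -, -, -, -⟩ := hVAL p er A B P V f hS
  obtain ⟨hnI, -, -⟩ := hRAM p er A B P V hS.toCaseO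
  have hcq : CQ A B := hS.cq
  have hp : p.Prime := hS.pp
  have hp5 : 5 ≤ p := hS.p5
  have hp2 : p ≠ 2 := by omega
  have hpz : Prime (p : ℤ) := Nat.prime_iff_prime_int.mp hp
  have hf0 : f ≠ 0 := hS.f0
  have hlp : l.Prime := by
    rcases hGen with ⟨h, -, -⟩ | ⟨h, -, -⟩ <;> rw [h]
    · exact Nat.prime_three
    · exact Nat.prime_two
  have hpl : ¬ p ∣ l := fun h1 => hS.fp (h1.trans hl)
  -- the weights
  have heN : ∀ c, e ((nI (R.b c) : ℕ) : OO A B) ≠ 0 := Brg.e_nI R he hpf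
  have hκ : ∀ c, kk0 R e kk c ^ r₁ = 1 := by
    intro c
    unfold kk0
    rw [div_pow, hkk, her _ (heN c), div_one]
  -- the root of unity
  set M : ℕ := p ^ (n + 1) with hM
  have hM0 : M ≠ 0 := pow_ne_zero _ hp.ne_zero
  have hξ : IsPrimitiveRoot (ex (-1 / ((p ^ (n + 1) : ℕ) : ℚ))) (p ^ (n + 1)) := by
    have h1 := Hfx.prim p (n + 1) hp (-1) (by
      intro h
      exact hpz.not_isUnit (isUnit_of_dvd_one ((dvd_neg).1 h)))
    push_cast at h1 ⊢
    exact h1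
  have hT := hHT p er A B P V f hS hTor ι R u el lam hG w hw e he r₁ hr₁ her i hi1 hi2 hew t ht
    (kk0 R e kk) hκ l hlp hl n hn z₀ hz₀ _ hξ
  obtain ⟨r₀, hr₀⟩ := hH l g h hGen p n V _ _ _ z₀ t _ _ hT
  refine ⟨max r₀ 2, fun r hr ψ hψ1 hψ2 => ?_⟩
  have hr2 : 2 ≤ r := (le_max_right _ _).trans hr
  have hNZ : NeZero (l ^ r) := ⟨pow_ne_zero _ hlp.ne_zero⟩
  have hψp : ψ.IsPrimitive := TWG.Gau.prim hlp hr2 ψ hψ2
  have hi1' : ψ⁻¹ (-1) = 1 := by rw [MulChar.inv_apply_eq_inv', hψ1, inv_one]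
  have hi2' : ψ⁻¹ (1 + (l : ZMod (l ^ r)) ^ (r - 1)) ≠ 1 := by
    rw [MulChar.inv_apply_eq_inv']
    intro h
    exact hψ2 (inv_eq_one.1 h)
  -- the number `a`
  set f' : ℕ := f * l ^ r with hf'
  have hf'0 : f' ≠ 0 := mul_ne_zero hf0 (pow_ne_zero _ hlp.ne_zero)
  have hpf' : ¬ p ∣ f' := by
    intro h
    rcases (Nat.Prime.dvd_mul hp).1 h with h | h
    · exact hS.fp h
    · exact hpl (hp.dvd_of_dvd_pow h)
  have hq0 : q0 p = p := by
    unfold q0
    rw [if_neg hp2]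
  have haz : ((aX p f' : ℕ) : ℤ) - 1 = p * (2 * f') := by
    unfold aX
    rw [hq0]
    push_cast
    ring
  have hap : (p : ℤ) ∣ ((aX p f' : ℕ) : ℤ) - 1 := by rw [haz]; exact Dvd.intro _ rfl
  have hap2 : ¬ (p : ℤ) ^ 2 ∣ ((aX p f' : ℕ) : ℤ) - 1 := by
    rw [haz, sq]
    intro h
    have h1 : (p : ℤ) ∣ 2 * (f' : ℤ) :=
      (mul_dvd_mul_iff_left (by exact_mod_cast hp.ne_zero)).1 h
    rcases hpz.dvd_or_dvd h1 with h2 | h2
    · have := Int.le_of_dvd (by norm_num) h2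
      omega
    · exact hpf' (by exact_mod_cast h2)
  obtain ⟨c, hc, hcv⟩ := hr₀ r ((le_max_left _ _).trans hr) ψ⁻¹ hi1' hi2' ((aX p f' : ℕ) : ℤ)
    hap hap2
  have hsye := fun x : ℚ => hSYE p er A B P V f hS ι R e he (kk0 R e kk) u t (nI P - 1) n ht z₀
    hz₀ ((aX p f' : ℕ) : ℤ) hap c hc x
  -- the right genus
  have hgen : er = 1 ∨ jacobiSym c p = 1 := by
    by_contra hne
    push Not at hne
    have her2 : er = 2 := by
      rcases hS.ram with h | h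
      · exact absurd h.1 hne.1
      · exact h.1
    have h0 : ∀ x : ℚ, PV p n (ex (-1 / ((p ^ (n + 1) : ℕ) : ℚ))) ((aX p f' : ℕ) : ℤ) z₀ t
        (QT er p R e (kk0 R e kk) (t (-1)) u z₀) c ∞ ((x : ℚ) : OnePoint ℚ) = 0 :=
      fun x => (hsye x).2 her2 hne.2
    rw [Finset.sum_eq_zero (fun e' _ => by rw [h0, mul_zero]), map_zero] at hcv
    exact not_lt_zero hcv
  -- the functions
  set G : ℚ → ℂ := fun x => PV p n (ex (-1 / ((p ^ (n + 1) : ℕ) : ℚ))) ((aX p f' : ℕ) : ℤ) z₀ t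
    (fun _ => PhiK R e (kk0 R e kk)) c ∞ ((x : ℚ) : OnePoint ℚ) with hGdef
  have hGc : ∀ x : ℚ, G x = ∑ b ∈ range (p ^ (n + 1)),
      Wb p (ex (-1 / ((p ^ (n + 1) : ℕ) : ℚ))) ((aX p f' : ℕ) : ℤ) z₀ t c b *
        PhiK R e (kk0 R e kk) ∞
          ((x + (b : ℚ) / ((p ^ (n + 1) : ℕ) : ℚ) : ℚ) : OnePoint ℚ) := fun x =>
    PV_coe p n hp.ne_zero _ _ z₀ t _ c x
  have hGper : ∀ (x : ℚ) (k : ℤ), G (x + k) = G x := by
    intro x k
    rw [hGc, hGc]
    refine Finset.sum_congr rfl fun b _ => ?_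
    have h1 : x + (k : ℚ) + (b : ℚ) / ((p ^ (n + 1) : ℕ) : ℚ) =
        (x + (b : ℚ) / ((p ^ (n + 1) : ℕ) : ℚ)) + (k : ℤ) := by ring
    rw [h1, phi_per hcq]
  have hq1 : ((l ^ r : ℕ) : ℚ) ≠ 0 := by exact_mod_cast hNZ.out
  -- the even part
  have hev : ∑ e' ∈ range (l ^ r), ψ⁻¹ (e' : ZMod (l ^ r)) * G (-((e' : ℚ) / (l : ℚ) ^ r)) =
      ∑ e' ∈ range (l ^ r), ψ⁻¹ (e' : ZMod (l ^ r)) * G ((e' : ℚ) / (l : ℚ) ^ r) := by
    have h1 := MU3H.Qs.sum_mul (q := l ^ r)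
      (G := fun b : ℤ => ψ⁻¹ (b : ZMod (l ^ r)) * G ((b : ℚ) / (l : ℚ) ^ r)) (fun b k => by
        have e1 : (((b + ((l ^ r : ℕ) : ℤ) * k : ℤ)) : ZMod (l ^ r)) = (b : ZMod (l ^ r)) := by
          push_cast
          have := ZMod.natCast_self (l ^ r)
          push_cast at this
          rw [this, zero_mul, add_zero]
        have e2 : (((b + ((l ^ r : ℕ) : ℤ) * k : ℤ)) : ℚ) / (l : ℚ) ^ r =
            (b : ℚ) / (l : ℚ) ^ r + (k : ℤ) := by
          have : (l : ℚ) ^ r ≠ 0 := by exact_mod_cast hNZ.out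
          push_cast
          field_simp
        show ψ⁻¹ (((b + ((l ^ r : ℕ) : ℤ) * k : ℤ)) : ZMod (l ^ r)) *
          G ((((b + ((l ^ r : ℕ) : ℤ) * k : ℤ)) : ℚ) / (l : ℚ) ^ r) = _
        rw [e1, e2, hGper]) (u := -1) (isCoprime_one_left).neg_left
    refine Eq.trans (Finset.sum_congr rfl fun e' _ => ?_) (h1.trans
      (Finset.sum_congr rfl fun e' _ => ?_))
    · show ψ⁻¹ (e' : ZMod (l ^ r)) * G (-((e' : ℚ) / (l : ℚ) ^ r)) =
        ψ⁻¹ ((-1 * (e' : ℤ) : ℤ) : ZMod (l ^ r)) *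
          G (((-1 * (e' : ℤ) : ℤ) : ℚ) / (l : ℚ) ^ r)
      have e1 : ((-1 * (e' : ℤ) : ℤ) : ZMod (l ^ r)) = (-1) * (e' : ZMod (l ^ r)) := by
        push_cast
        ring
      have e2 : (((-1 * (e' : ℤ) : ℤ) : ℚ) / (l : ℚ) ^ r) = -((e' : ℚ) / (l : ℚ) ^ r) := by
        push_cast
        ring
      rw [e1, e2, map_mul, hi1', one_mul]
    · show ψ⁻¹ (((e' : ℤ)) : ZMod (l ^ r)) * G ((((e' : ℤ)) : ℚ) / (l : ℚ) ^ r) = _
      push_cast
      rfl
  have hS1 : ∑ e' ∈ range (l ^ r), ψ⁻¹ (e' : ZMod (l ^ r)) *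
      PV p n (ex (-1 / ((p ^ (n + 1) : ℕ) : ℚ))) ((aX p f' : ℕ) : ℤ) z₀ t
        (QT er p R e (kk0 R e kk) (t (-1)) u z₀) c ∞
          (((e' : ℚ) / (l : ℚ) ^ r : ℚ) : OnePoint ℚ) =
      2 / (u * R.om R.i0) * ∑ e' ∈ range (l ^ r), ψ⁻¹ (e' : ZMod (l ^ r)) *
        G ((e' : ℚ) / (l : ℚ) ^ r) := by
    have h1 : ∀ e' ∈ range (l ^ r), ψ⁻¹ (e' : ZMod (l ^ r)) *
      PV p n (ex (-1 / ((p ^ (n + 1) : ℕ) : ℚ))) ((aX p f' : ℕ) : ℤ) z₀ t
        (QT er p R e (kk0 R e kk) (t (-1)) u z₀) c ∞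
          (((e' : ℚ) / (l : ℚ) ^ r : ℚ) : OnePoint ℚ) =
        1 / (u * R.om R.i0) * (ψ⁻¹ (e' : ZMod (l ^ r)) * G ((e' : ℚ) / (l : ℚ) ^ r)) +
          1 / (u * R.om R.i0) * (ψ⁻¹ (e' : ZMod (l ^ r)) * G (-((e' : ℚ) / (l : ℚ) ^ r))) := by
      intro e' _
      rw [(hsye _).1 hgen]
      show ψ⁻¹ (e' : ZMod (l ^ r)) * ((G ((e' : ℚ) / (l : ℚ) ^ r) +
        G (-((e' : ℚ) / (l : ℚ) ^ r))) / (u * R.om R.i0)) = _
      ring
    rw [Finset.sum_congr rfl h1, Finset.sum_add_distrib, ← Finset.mul_sum, ← Finset.mul_sum, hev]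
    ring
  -- the level `f'`
  set R' : Reps A B (p * f') ι := RL R l r hl with hR'
  set e' : OO A B → ℂ := fun x => e x * ψ (nm x) with he'
  have hE' : IsEI (idl (A := A) (B := B) (p * f')) e' :=
    hEPS A B hcq p f l r hp hf0 hlp hl e he ψ
  set kk' : ι → ℂ := fun i => kk i * ψ ((nI (R.b i) : ℕ)) with hkk'
  have hgne' : idl (A := A) (B := B) (p * f') ≠ ⊥ := by
    have h1 : ((p * f' : ℕ) : OO A B) ∈ idl (A := A) (B := B) (p * f') :=
      Ideal.mem_span_singleton_self _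
    intro h2
    rw [h2, Ideal.mem_bot] at h1
    have h3 := congrArg QuadraticAlgebra.re h1
    rw [QuadraticAlgebra.re_natCast, QuadraticAlgebra.re_zero] at h3
    exact mul_ne_zero hp.ne_zero hf'0 (by exact_mod_cast h3)
  have hψu : ∀ i, ψ ((nI (R.b i) : ℕ)) ≠ 0 := by
    intro i
    have h1 := (RL R l r hl).cop i
    have h2 : (nI (R.b i)).Coprime (l ^ r) :=
      Nat.Coprime.coprime_mul_left_right (Nat.Coprime.coprime_mul_left_right h1)
    have h3 : IsUnit ((nI (R.b i) : ℕ) : ZMod (l ^ r)) := (ZMod.isUnit_iff_coprime _ _).2 h2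
    exact (h3.map ψ).ne_zero
  have hk1 : ∀ i, kk0 R' e' kk' i * ψ ((nI (R.b i) : ℕ)) = kk0 R e kk i := by
    intro i
    have h1 : e' ((nI (R.b i) : ℕ) : OO A B) =
        e ((nI (R.b i) : ℕ) : OO A B) * ψ ((nI (R.b i) : ℕ)) ^ 2 := by
      have hnm : nm (((nI (R.b i) : ℕ) : OO A B)) = (nI (R.b i) : ℤ) ^ 2 := by
        show (((nI (R.b i) : ℕ) : OO A B)).re ^ 2 + B * (((nI (R.b i) : ℕ) : OO A B)).re *
          (((nI (R.b i) : ℕ) : OO A B)).im - A * (((nI (R.b i) : ℕ) : OO A B)).im ^ 2 = _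
        rw [QuadraticAlgebra.re_natCast, QuadraticAlgebra.im_natCast]
        ring
      show e ((nI (R.b i) : ℕ) : OO A B) * ψ (nm ((nI (R.b i) : ℕ) : OO A B)) = _
      rw [hnm]
      push_cast
      rw [map_pow]
    show kk i * ψ ((nI (R.b i) : ℕ)) / e' ((nI (R.b i) : ℕ) : OO A B) *
      ψ ((nI (R.b i) : ℕ)) = kk i / e ((nI (R.b i) : ℕ) : OO A B)
    rw [h1]
    have := heN i
    have := hψu i
    field_simp
  set τ : ℂ := gaussSum ψ⁻¹ (ZMod.stdAddChar (N := l ^ r)) with hτ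
  have hB1 : ∀ x : ℚ, τ * PhiK R' e' (kk0 R' e' kk') ∞ (x : OnePoint ℚ) =
      ∑ c ∈ range (l ^ r), ψ⁻¹ (c : ZMod (l ^ r)) *
        PhiK R e (kk0 R e kk) ∞ ((x + (c : ℚ) / ((l ^ r : ℕ) : ℚ) : ℚ) : OnePoint ℚ) := by
    intro x
    unfold PhiK
    simp only [Finset.mul_sum]
    rw [Finset.sum_comm]
    refine Finset.sum_congr rfl fun i _ => ?_
    have h1 := hBIR A B hcq (R.b i) (idl (A := A) (B := B) (p * f))
      (idl (A := A) (B := B) (p * f')) e (R.nl i).b_ne gne hgne' he (l ^ r) ψ hψp hE' x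
    have h2 : τ * (kk0 R' e' kk' i * PhiI (R'.b i) e' ∞ (x : OnePoint ℚ)) =
        kk0 R' e' kk' i * (τ * PhiI (R.b i) e' ∞ (x : OnePoint ℚ)) := by
      show τ * (kk0 R' e' kk' i * PhiI (R.b i) e' ∞ (x : OnePoint ℚ)) = _
      ring
    rw [h2, h1, ← mul_assoc, hk1 i, Finset.mul_sum]
    refine Finset.sum_congr rfl fun c _ => ?_
    ring
  have hB2 : τ * PV p n (ex (-1 / ((p ^ (n + 1) : ℕ) : ℚ))) ((aX p f' : ℕ) : ℤ) z₀ t
      (fun _ => PhiK R' e' (kk0 R' e' kk')) c ∞ ((0 : ℚ) : OnePoint ℚ) =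
      ∑ e' ∈ range (l ^ r), ψ⁻¹ (e' : ZMod (l ^ r)) * G ((e' : ℚ) / (l : ℚ) ^ r) := by
    rw [PV_coe p n hp.ne_zero, Finset.mul_sum]
    simp only [hGc, Finset.mul_sum]
    rw [Finset.sum_comm]
    refine Finset.sum_congr rfl fun b _ => ?_
    have h1 := hB1 (0 + (b : ℚ) / ((p ^ (n + 1) : ℕ) : ℚ))
    rw [mul_left_comm, h1, Finset.mul_sum]
    refine Finset.sum_congr rfl fun c' _ => ?_
    have h2 : 0 + (b : ℚ) / ((p ^ (n + 1) : ℕ) : ℚ) + (c' : ℚ) / ((l ^ r : ℕ) : ℚ) =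
        (c' : ℚ) / (l : ℚ) ^ r + (b : ℚ) / ((p ^ (n + 1) : ℕ) : ℚ) := by
      push_cast
      ring
    rw [h2]
    ring
  have hP := hSGP p hp hp2 A B hcq f' hf'0 ι R' e' hE' kk' t z₀ n c
  set PVV : ℂ := PV p n (ex (-1 / ((p ^ (n + 1) : ℕ) : ℚ))) ((aX p f' : ℕ) : ℤ) z₀ t
      (fun _ => PhiK R' e' (kk0 R' e' kk')) c ∞ ((0 : ℚ) : OnePoint ℚ) with hPVV
  set SS : ℂ := ∑ j ∈ Finset.range 2, (-1 : ℂ) ^ (1 - j) *
        SG p R' (lvX p f' n) (p ^ (n + 1)) (aX p f') e' kk' t z₀ (c * (1 + (p : ℤ)) ^ j) with hSS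
  have hu0 : u ≠ 0 := hG.u0
  have hom : R.om R.i0 ≠ 0 := (R.nl R.i0).om_ne
  have hfc : (f' : ℂ) ≠ 0 := Nat.cast_ne_zero.2 hf'0
  have hfin : ∑ e' ∈ range (l ^ r), ψ⁻¹ (e' : ZMod (l ^ r)) *
      PV p n (ex (-1 / ((p ^ (n + 1) : ℕ) : ℚ))) ((aX p f' : ℕ) : ℤ) z₀ t
        (QT er p R e (kk0 R e kk) (t (-1)) u z₀) c ∞
          (((e' : ℚ) / (l : ℚ) ^ r : ℚ) : OnePoint ℚ) = τ / f' * (SS / u) := by
    rw [hS1, ← hB2, hP]
    show 2 / (u * R.om R.i0) * (τ * PVV) = τ / f' * (2 * f' / R.om R.i0 * PVV / u)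
    field_simp
  rw [hfin, map_mul, map_div₀] at hcv
  -- valuations
  have hvl : V.valuation ((l : ℕ) : ℂ) = 1 := by
    have := v1 l (fun h => hpl (by exact_mod_cast h))
    exact_mod_cast this
  have hvτ : V.valuation τ = 1 := by
    refine TWG.Gau.gone V ψ⁻¹ (TWG.Gau.prim_inv hψp) ?_
    push_cast
    rw [map_pow, hvl, one_pow]
  have hvf : V.valuation (f' : ℂ) = 1 := by
    have := v1 f' (fun h => hpf' (by exact_mod_cast h))
    exact_mod_cast this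
  rw [hvτ, hvf, div_one, one_mul] at hcv
  -- the index `c`
  obtain ⟨-, -, hzc⟩ := hZC p n z₀ hp hp2 hz₀
  obtain ⟨m, k', hmk⟩ := hzc c hc
  have hnP : nI P - 1 ≠ 0 ∧ ¬ p ∣ nI P - 1 := by
    rcases hnI with h | h
    · rw [h]
      refine ⟨by omega, fun h1 => ?_⟩
      have := Nat.le_of_dvd (by omega) h1
      omega
    · rw [h]
      have h4 : p ≤ p ^ 2 := by nlinarith
      refine ⟨by omega, fun h1 => ?_⟩
      have h2 : p ∣ p ^ 2 := dvd_pow_self _ two_ne_zero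
      have h3 := (Nat.dvd_sub_iff_right (by omega : 1 ≤ p ^ 2) h2).1 h1
      exact hp.one_lt.ne' (Nat.dvd_one.1 h3)
  obtain ⟨hs1, hs2, hs3⟩ := hSGE p n z₀ t (nI P - 1) A B (p * f') ι R' (lvX p f' n) (aX p f') e'
    kk' hp hz₀ ht hnP.2
  have hvt : V.valuation (t z₀) = 1 := TWG.Gau.root_one V hnP.1 hs2
  have hSG : t z₀ ^ m * SS = ∑ j ∈ Finset.range 2, (-1 : ℂ) ^ (1 - j) *
      SG p R' (lvX p f' n) (p ^ (n + 1)) (aX p f') e' kk' t z₀ ((1 + (p : ℤ)) ^ (k' + j)) := by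
    rw [hSS, Finset.mul_sum]
    refine Finset.sum_congr rfl fun j _ => ?_
    have h1 := hs1 (c * (1 + (p : ℤ)) ^ j) (z₀ ^ m * (1 + (p : ℤ)) ^ (k' + j)) (by
      have : c * (1 + (p : ℤ)) ^ j - z₀ ^ m * (1 + (p : ℤ)) ^ (k' + j) =
          (c - z₀ ^ m * (1 + (p : ℤ)) ^ k') * (1 + (p : ℤ)) ^ j := by ring
      rw [this]
      exact Dvd.dvd.mul_right hmk _)
    rw [h1, mul_left_comm, hs3]
  refine ⟨k', ?_⟩
  have h5 : V.valuation (SS / u) = V.valuation ((t z₀ ^ m * SS) / u) := by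
    rw [mul_div_assoc, map_mul, map_pow, hvt, one_pow, one_mul]
  rw [h5, hSG] at hcv
  exact hcv

end

end Pool.Agent.OT


end
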