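import Mathlib.NumberTheory.Multiplicity
import Pool.Agent.MVF.C076
import Pool.Agent.MVF.C109
import Pool.Agent.OBM.C11
import Pool.Agent.OBM.C12
import Pool.Agent.OBM.C13
import Pool.Agent.OBM.C17
import Pool.Agent.OTM.C02
import Pool.Agent.OTM.C03
import Pool.Agent.OTM.C06
import Pool.Agent.OTM.C10

/-! Parts: OT.H2Y, OT.H_LAG, OT.H_VSY, OT.I_EIX, OT.I_THF, OT.I_Z0, OT.I_ZAR, OT.HB_EPS, OT.HB_HT, OT.HB_HT2, OT.HB_HT3, OT.HB_SGP, OT.HB_SYE, OT.HB_ZC, OT.H_NDN, OT.I_XMF, OT.HBAll, OT.IAll -/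

section

/-!
# OT, block H2 (helper3): the field `nd` of `HypT` from Theorem G and the divisibility theorems

`nd_un` (`p` unramified, DVN), `nd_ra` (`p` ramified, DVR): on some closed cycle of every level `Σ_b ζ^b Q(x + b/M)` (`ζ = ξ^c`) is larger than
`v p / v(1 - ξ)^(p^(n-2))`. PROOF. `y(b) = Q_t(∞, x + b/M)`, `Q_t = Q - Q(· + 1/p³)`; Theorem G for `Q_t` gives `v(y 0) ≥ 1`, and
`Σ ζ^b y(b) = (1 - ζ^(-p^(n-2))) Σ ζ^b Q(∞, x + b/M)`.
-/

set_option autoImplicit false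

namespace Pool.Agent.OT

open _root_.MU3 _root_.Pool.Agent.MU3A _root_.Pool.Agent.MU3B _root_.Pool.Agent.MUX
  _root_.Pool.Agent.MuSym _root_.Pool.Agent.OB _root_.Pool.Agent.OBH OnePoint

noncomputable section

namespace H2

open Finset

/-- `y(b) = Q(∞, x + b/M) - Q(∞, x + b/M + 1/p³)` -/
def yQ (p n : ℕ) (Q : OnePoint ℚ → OnePoint ℚ → ℂ) (x : ℚ) (b : ℤ) : ℂ :=
  Q ∞ ((x + (b : ℚ) / (p : ℚ) ^ (n + 1) : ℚ) : OnePoint ℚ) -
    Q ∞ ((x + (b : ℚ) / (p : ℚ) ^ (n + 1) + 1 / (p : ℚ) ^ 3 : ℚ) : OnePoint ℚ)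

variable {p n : ℕ} {V : ValuationSubring ℂ} {N : ℕ} {nu : ℤ → ℂ}
  {Q : OnePoint ℚ → OnePoint ℚ → ℂ} {ξ : ℂ}

theorem sym_perz (h : IsSym N nu Q) (h1 : nu 1 = 1) (x : ℚ) (t : ℤ) :
    Q ∞ ((x + t : ℚ) : OnePoint ℚ) = Q ∞ (x : OnePoint ℚ) := by
  have e := h.equiv 1 t 0 1 (by ring) (dvd_zero _) ∞ (x : OnePoint ℚ)
  have h2 : mob 1 t 0 1 (x : OnePoint ℚ) = ((x + t : ℚ) : OnePoint ℚ) := by
    unfold mob
    rw [OnePoint.elim_some]
    simp
  rw [mob_inf_zero, h2, h1, one_mul] at e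
  exact e

theorem yQ_per (hp : p.Prime) (h : IsSym N nu Q) (h1 : nu 1 = 1) (x : ℚ) (b c : ℤ)
    (hbc : (p : ℤ) ^ (n + 1) ∣ b - c) : yQ p n Q x b = yQ p n Q x c := by
  obtain ⟨t, ht⟩ := hbc
  have hq : ((p : ℚ) ^ (n + 1)) ≠ 0 := pow_ne_zero _ (by exact_mod_cast hp.ne_zero)
  have e : (b : ℚ) / (p : ℚ) ^ (n + 1) = (c : ℚ) / (p : ℚ) ^ (n + 1) + t := by
    have : (b : ℚ) = c + (p : ℚ) ^ (n + 1) * t := by
      have : (b : ℤ) = c + (p : ℤ) ^ (n + 1) * t := by linear_combination ht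
      exact_mod_cast this
    rw [this, add_div, mul_div_cancel_left₀ _ hq]
  unfold yQ
  rw [e]
  have e1 : x + ((c : ℚ) / (p : ℚ) ^ (n + 1) + t) = x + (c : ℚ) / (p : ℚ) ^ (n + 1) + t := by ring
  have e2 : x + ((c : ℚ) / (p : ℚ) ^ (n + 1) + t) + 1 / (p : ℚ) ^ 3 =
      x + (c : ℚ) / (p : ℚ) ^ (n + 1) + 1 / (p : ℚ) ^ 3 + t := by ring
  rw [e2, e1, sym_perz h h1, sym_perz h h1]

/-- `x + (b + j p^n)/p^(n+1) = x + b/p^(n+1) + j/p` -/
theorem add_step (hp : p.Prime) (x : ℚ) (b : ℤ) (j : ℤ) :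
    x + ((b + j * (p : ℤ) ^ n : ℤ) : ℚ) / (p : ℚ) ^ (n + 1) =
      x + (b : ℚ) / (p : ℚ) ^ (n + 1) + (j : ℚ) / p := by
  have hp0 : (p : ℚ) ≠ 0 := by exact_mod_cast hp.ne_zero
  have h3 : ((p : ℚ) ^ n) ≠ 0 := pow_ne_zero _ hp0
  push_cast
  rw [pow_succ, add_div, add_assoc, mul_comm ((p : ℚ) ^ n) (p : ℚ), mul_div_mul_right _ _ h3]

/-- the sum of `y` -/
theorem yQ_sum (hp : p.Prime) (hn : 2 ≤ n) (h : IsSym N nu Q) (h1 : nu 1 = 1)
    (x : ℚ) (ζ : ℂ) (hζ : ζ ^ p ^ (n + 1) = 1) :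
    ζ ^ p ^ (n - 2) * ∑ b ∈ range (p ^ (n + 1)), ζ ^ b * yQ p n Q x b =
      (ζ ^ p ^ (n - 2) - 1) * Yh (p ^ (n + 1)) ζ Q ∞ (x : OnePoint ℚ) := by
  have hM : p ^ (n + 1) ≠ 0 := pow_ne_zero _ hp.ne_zero
  have hp0 : (p : ℚ) ≠ 0 := by exact_mod_cast hp.ne_zero
  have e1 := Yh_shift h h1 (p ^ (n + 1)) hM ζ hζ (x + 1 / (p : ℚ) ^ 3) (p ^ (n - 2))
  have e2 : x + 1 / (p : ℚ) ^ 3 - ((p ^ (n - 2) : ℕ) : ℚ) / ((p ^ (n + 1) : ℕ) : ℚ) = x := by
    obtain ⟨m, rfl⟩ : ∃ m, n = m + 2 := ⟨n - 2, by omega⟩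
    have : m + 2 - 2 = m := by omega
    rw [this]
    push_cast
    have h4 : (p : ℚ) ^ (m + 2 + 1) = (p : ℚ) ^ m * (p : ℚ) ^ 3 := by ring
    have h5 : (p : ℚ) ^ m ≠ 0 := pow_ne_zero _ hp0
    rw [h4, div_mul_eq_div_div, div_self h5]
    ring
  rw [e2] at e1
  have e3 : ∑ b ∈ range (p ^ (n + 1)), ζ ^ b * yQ p n Q x b =
      Yh (p ^ (n + 1)) ζ Q ∞ (x : OnePoint ℚ) -
        Yh (p ^ (n + 1)) ζ Q ∞ ((x + 1 / (p : ℚ) ^ 3 : ℚ) : OnePoint ℚ) := by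
    rw [Yh_coe _ hM, Yh_coe _ hM, ← Finset.sum_sub_distrib]
    refine Finset.sum_congr rfl fun b _ => ?_
    unfold yQ
    rw [mul_sub]
    push_cast
    congr 4
    ring
  rw [e3, mul_sub, ← e1]
  ring

/-- closed cycles from Theorem G -/
theorem closed_G {N₀ s₀ : ℕ} {pi : ℂ} {KI : Subfield ℂ} (H : HypQ p V N₀ s₀ nu Q pi KI)
    (N' : ℕ) (hN' : N' ≠ 0) (hNN : p ^ (s₀ + 1) * N₀ ∣ N') : ∃ (α β γ δ : ℤ) (x : ℚ),
      α * δ - β * γ = 1 ∧ (N' : ℤ) ∣ γ ∧ (N' : ℤ) ∣ δ - 1 ∧ mob α β γ δ ∞ = (x : OnePoint ℚ) ∧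
      1 ≤ V.valuation (yQ p n Q x 0) := by
  have hp0 : (p : ℚ) ≠ 0 := by exact_mod_cast H.pp.ne_zero
  obtain ⟨α, β, γ, δ, hdet, hγ, hδ, hv⟩ := H.G N' hN' hNN
  have hinf : mob ((p : ℤ) ^ 3) 1 0 ((p : ℤ) ^ 3) ∞ = ∞ := mob_inf_zero _ _ _
  have hpow : (p - 1) * p ^ 2 ≠ 0 := by
    have := H.pp.two_le
    exact (Nat.mul_pos (by omega) (pow_pos H.pp.pos _)).ne'
  have hγ0 : γ ≠ 0 := by
    rintro rfl
    rw [mob_inf_zero] at hv
    unfold PT at hv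
    rw [hinf, sub_self, map_zero, zero_pow hpow] at hv
    exact absurd hv (not_le.2 (L.pos_p H.pp))
  refine ⟨α, β, γ, δ, (α : ℚ) / γ, hdet, hγ, hδ, mob_inf_ne _ _ _ _ hγ0, ?_⟩
  rw [mob_inf_ne _ _ _ _ hγ0] at hv
  obtain ⟨x, hx⟩ : ∃ x : ℚ, x = (α : ℚ) / γ := ⟨_, rfl⟩
  rw [← hx] at hv ⊢
  have e : PT p Q ∞ (x : OnePoint ℚ) = yQ p n Q x 0 := by
    unfold PT yQ
    rw [hinf]
    have e1 : mob ((p : ℤ) ^ 3) 1 0 ((p : ℤ) ^ 3) (x : OnePoint ℚ) =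
        ((x + 1 / (p : ℚ) ^ 3 : ℚ) : OnePoint ℚ) := by
      have h3 : (p : ℚ) ^ 3 ≠ 0 := pow_ne_zero _ hp0
      unfold mob
      rw [OnePoint.elim_some, if_neg (by push_cast; simpa using H.pp.ne_zero)]
      congr 1
      push_cast
      rw [zero_mul, zero_add, add_div, mul_div_cancel_left₀ _ h3]
    rw [e1]
    simp
  rw [e] at hv
  obtain ⟨w, hw, ew⟩ : ∃ w ∈ KI, yQ p n Q x 0 = pi * w := by
    obtain ⟨w1, hw1, e1⟩ := H.typ ∞ ((x + ((0 : ℤ) : ℚ) / (p : ℚ) ^ (n + 1) : ℚ) : OnePoint ℚ)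
    obtain ⟨w2, hw2, e2⟩ := H.typ ∞
      ((x + ((0 : ℤ) : ℚ) / (p : ℚ) ^ (n + 1) + 1 / (p : ℚ) ^ 3 : ℚ) : OnePoint ℚ)
    refine ⟨w1 - w2, sub_mem hw1 hw2, ?_⟩
    unfold yQ
    rw [e1, e2]
    ring
  rw [ew] at hv ⊢
  exact H.gap w hw hv

theorem yQ_typ {N₀ s₀ : ℕ} {pi : ℂ} {KI : Subfield ℂ} (H : HypQ p V N₀ s₀ nu Q pi KI) (x : ℚ)
    (b : ℤ) : ∃ w ∈ KI, yQ p n Q x b = pi * w := by
  obtain ⟨w1, hw1, e1⟩ := H.typ ∞ ((x + (b : ℚ) / (p : ℚ) ^ (n + 1) : ℚ) : OnePoint ℚ)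
  obtain ⟨w2, hw2, e2⟩ := H.typ ∞
    ((x + (b : ℚ) / (p : ℚ) ^ (n + 1) + 1 / (p : ℚ) ^ 3 : ℚ) : OnePoint ℚ)
  refine ⟨w1 - w2, sub_mem hw1 hw2, ?_⟩
  unfold yQ
  rw [e1, e2]
  ring

theorem yQ_div {N₀ s₀ : ℕ} {pi : ℂ} {KI : Subfield ℂ} (H : HypQ p V N₀ s₀ nu Q pi KI) (x : ℚ)
    (b b' : ℤ) : yQ p n Q x b / yQ p n Q x b' ∈ KI := by
  obtain ⟨w, hw, e⟩ := yQ_typ (n := n) H x b
  obtain ⟨w', hw', e'⟩ := yQ_typ (n := n) H x b'
  rw [e, e', mul_div_mul_left _ _ H.pi0]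
  exact div_mem hw hw'

/-- from the sum of `y` to `Yh` -/
theorem final_step (hp : p.Prime) (hn : 2 ≤ n) (h : IsSym N nu Q) (h1 : nu 1 = 1)
    (hξ : IsPrimitiveRoot ξ (p ^ (n + 1))) (x : ℚ) (c : ℤ) (hc : ¬ (p : ℤ) ∣ c)
    (hv : V.valuation (p : ℂ) < V.valuation (∑ b ∈ range (p ^ (n + 1)), (ξ ^ c) ^ b *
      yQ p n Q x b)) :
    V.valuation (p : ℂ) < V.valuation (Yh (p ^ (n + 1)) (ξ ^ c) Q ∞ (x : OnePoint ℚ)) *
      V.valuation (1 - ξ) ^ p ^ (n - 2) := by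
  have hζ : (ξ ^ c) ^ p ^ (n + 1) = 1 := by
    rw [← zpow_natCast, ← zpow_mul, mul_comm, zpow_mul, zpow_natCast, hξ.pow_eq_one, one_zpow]
  have e := yQ_sum hp hn h h1 x (ξ ^ c) hζ
  have e2 : V.valuation ((ξ ^ c) ^ p ^ (n - 2) - 1) = V.valuation (1 - ξ) ^ p ^ (n - 2) := by
    rw [← neg_sub, Valuation.map_neg, ← L.val_one_sub hp hξ (n - 2) (by omega) c hc]
    congr 2
    rw [← zpow_natCast, ← zpow_mul]
    push_cast
    rfl
  have e3 := congrArg V.valuation e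
  rw [map_mul, map_mul, e2, map_pow, L.val_xi_zpow hp hξ, one_pow, one_mul, mul_comm] at e3
  rw [← e3]
  exact hv

end H2

open _root_.Pool.Agent.OT.H2 in
/-- `p` unramified -/
theorem nd_un (p : ℕ) (V : ValuationSubring ℂ) (N₀ s₀ q' i : ℕ) (nu : ℤ → ℂ)
    (Q : OnePoint ℚ → OnePoint ℚ → ℂ) (pi : ℂ) (KI : Subfield ℂ)
    (H : HypQ p V N₀ s₀ nu Q pi KI)
    (hQd : ∀ x : ℚ, ∑ j ∈ Finset.range p, Q ∞ (((x + j) / p : ℚ) : OnePoint ℚ) = 0)
    (hunr : ∀ w ∈ KI, V.valuation w < 1 → V.valuation w ≤ V.valuation (p : ℂ))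
    (hq1 : q' ≤ i * (p - 1)) (hq2 : i < q') (hq3 : q' < (p - 1) * p ^ 2)
    (hvpi : V.valuation pi ^ q' * V.valuation (p : ℂ) ^ i = 1)
    (n : ℕ) (hn : 2 ≤ n) (ξ : ℂ) (hξ : IsPrimitiveRoot ξ (p ^ (n + 1)))
    (N' : ℕ) (hN' : N' ≠ 0) (hNN : p ^ (s₀ + 1) * N₀ ∣ N') : ∃ α β γ δ c : ℤ,
      α * δ - β * γ = 1 ∧ (N' : ℤ) ∣ γ ∧ (N' : ℤ) ∣ δ - 1 ∧ ¬ (p : ℤ) ∣ c ∧
      V.valuation (p : ℂ) < V.valuation (Yh (p ^ (n + 1)) (ξ ^ c) Q ∞ (mob α β γ δ ∞)) *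
        V.valuation (1 - ξ) ^ p ^ (n - 2) := by
  have hp := H.pp
  have hp0 : (p : ℚ) ≠ 0 := by exact_mod_cast hp.ne_zero
  obtain ⟨α, β, γ, δ, x, hdet, hγ, hδ, hx, hy⟩ := closed_G (n := n) H N' hN' hNN
  have h1c : ¬ (p : ℤ) ∣ 1 := fun h => by
    have := Int.le_of_dvd (by norm_num) h
    have := hp.two_le
    omega
  refine ⟨α, β, γ, δ, 1, hdet, hγ, hδ, h1c, ?_⟩
  rw [hx]
  refine final_step hp hn H.sym H.nu1 hξ x 1 h1c ?_
  rw [zpow_one]
  refine to_DVN p hp H.p2 V H.vp KI hunr n (fun b => yQ p n Q x b)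
    (fun b c hbc => yQ_per hp H.sym H.nu1 x b c hbc) ?_ (fun b b' _ => yQ_div H x b b') 0 ?_ ξ hξ
  · intro b
    have hz : ∀ x' : ℚ, ∑ j ∈ Finset.range p,
        Q ∞ ((x' + (j : ℚ) / p : ℚ) : OnePoint ℚ) = 0 := by
      intro x'
      rw [← hQd (p * x')]
      refine Finset.sum_congr rfl fun j _ => ?_
      congr 2
      rw [add_div, mul_div_cancel_left₀ _ hp0]
    simp only [yQ]
    rw [Finset.sum_sub_distrib]
    have e1 := hz (x + (b : ℚ) / (p : ℚ) ^ (n + 1))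
    have e2 := hz (x + (b : ℚ) / (p : ℚ) ^ (n + 1) + 1 / (p : ℚ) ^ 3)
    have e3 : ∀ j : ℕ, x + ((b + j * (p : ℤ) ^ n : ℤ) : ℚ) / (p : ℚ) ^ (n + 1) =
        x + (b : ℚ) / (p : ℚ) ^ (n + 1) + (j : ℚ) / p := by
      intro j
      have := add_step (n := n) hp x b j
      rw [this]
      push_cast
      rfl
    have e4 : ∀ j : ℕ, x + (b : ℚ) / (p : ℚ) ^ (n + 1) + (j : ℚ) / p + 1 / (p : ℚ) ^ 3 =
        x + (b : ℚ) / (p : ℚ) ^ (n + 1) + 1 / (p : ℚ) ^ 3 + (j : ℚ) / p := fun j => by ring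
    simp_rw [e3, e4]
    rw [e1, e2, sub_zero]
  · obtain ⟨w, hw, e⟩ := yQ_typ (n := n) H x 0
    rw [e] at hy ⊢
    exact (to_TYP p hp V H.vp KI 1 q' i le_rfl hq2 (by rwa [one_mul]) (by rwa [one_mul])
      (fun w hw hw1 => by rw [pow_one]; exact hunr w hw hw1) pi (by rwa [one_mul]) w hw).2 hy

open _root_.Pool.Agent.OT.H2 in
/-- `p` ramified -/
theorem nd_ra (p : ℕ) (V : ValuationSubring ℂ) (N₀ s₀ i : ℕ) (nu : ℤ → ℂ)
    (Q : OnePoint ℚ → OnePoint ℚ → ℂ) (pi : ℂ) (KI : Subfield ℂ) (om : ℂ)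
    (H : HypQ p V N₀ s₀ nu Q pi KI) (hom : IsPrimitiveRoot om p)
    (hrel : ∀ x : ℚ, ∑ j ∈ Finset.range p, (jacobiSym (j : ℤ) p : ℂ) *
      Q ∞ ((x + (j : ℚ) / p : ℚ) : OnePoint ℚ) =
      (∑ j ∈ Finset.range p, (jacobiSym (j : ℤ) p : ℂ) * om ^ j) * Q ∞ (x : OnePoint ℚ))
    (hunr : ∀ w ∈ KI, V.valuation w < 1 → V.valuation w ^ 2 ≤ V.valuation (p : ℂ))
    (hi1 : 2 ≤ i) (hi2 : i < p - 1)
    (hvpi : V.valuation pi ^ (2 * (p - 1)) * V.valuation (p : ℂ) ^ i = 1)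
    (n : ℕ) (hn : 2 ≤ n) (ξ : ℂ) (hξ : IsPrimitiveRoot ξ (p ^ (n + 1)))
    (N' : ℕ) (hN' : N' ≠ 0) (hNN : p ^ (s₀ + 1) * N₀ ∣ N') : ∃ α β γ δ c : ℤ,
      α * δ - β * γ = 1 ∧ (N' : ℤ) ∣ γ ∧ (N' : ℤ) ∣ δ - 1 ∧ ¬ (p : ℤ) ∣ c ∧
      V.valuation (p : ℂ) < V.valuation (Yh (p ^ (n + 1)) (ξ ^ c) Q ∞ (mob α β γ δ ∞)) *
        V.valuation (1 - ξ) ^ p ^ (n - 2) := by
  have hp := H.pp
  have hp0 : (p : ℚ) ≠ 0 := by exact_mod_cast hp.ne_zero
  have hp3 : 3 ≤ p := by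
    have := hp.two_le
    have := H.p2
    omega
  obtain ⟨α, β, γ, δ, x, hdet, hγ, hδ, hx, hy⟩ := closed_G (n := n) H N' hN' hNN
  -- the Gauss sum
  obtain ⟨G, hG⟩ : ∃ G : ℂ, G = ∑ j ∈ Finset.range p, (jacobiSym (j : ℤ) p : ℂ) * om ^ j :=
    ⟨_, rfl⟩
  rw [← hG] at hrel
  have hGK : G ∈ KI := by
    obtain ⟨x', hx'⟩ : ∃ x : ℚ, Q ∞ (x : OnePoint ℚ) ≠ 0 := by
      by_contra hcon
      push Not at hcon
      have e : yQ p n Q x 0 = 0 := by
        unfold yQ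
        rw [hcon, hcon, sub_zero]
      rw [e, map_zero] at hy
      exact absurd hy (not_le.2 zero_lt_one)
    have ht := hrel x'
    obtain ⟨w, hw, ew⟩ := H.typ ∞ (x' : OnePoint ℚ)
    have hw' : ∀ j : ℕ, ∃ w ∈ KI, Q ∞ ((x' + (j : ℚ) / p : ℚ) : OnePoint ℚ) = pi * w :=
      fun j => H.typ _ _
    choose w' hwK ew' using hw'
    have e2 : ∑ j ∈ Finset.range p, (jacobiSym (j : ℤ) p : ℂ) *
        Q ∞ ((x' + (j : ℚ) / p : ℚ) : OnePoint ℚ) =
        pi * ∑ j ∈ Finset.range p, (jacobiSym (j : ℤ) p : ℂ) * w' j := by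
      rw [Finset.mul_sum]
      refine Finset.sum_congr rfl fun j _ => ?_
      rw [ew']
      ring
    rw [e2, ew] at ht
    have hw0 : w ≠ 0 := by
      rintro rfl
      rw [ew, mul_zero] at hx'
      exact hx' rfl
    have e3 : G = (∑ j ∈ Finset.range p, (jacobiSym (j : ℤ) p : ℂ) * w' j) / w := by
      rw [eq_div_iff hw0]
      refine mul_left_cancel₀ H.pi0 ?_
      linear_combination -ht
    rw [e3]
    exact div_mem (sum_mem fun j _ => mul_mem (intCast_mem KI _) (hwK j)) hw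
  obtain ⟨F, Hh, hF, hH, hFK, hHK, hdeg, hFH, hFe, hFf⟩ := to_FAC p hp H.p2 om hom KI (hG ▸ hGK)
  -- the index `c`
  obtain ⟨c, hc, hco⟩ : ∃ c : ℤ, ¬ (p : ℤ) ∣ c ∧ (ξ ^ c) ^ p ^ n = om⁻¹ := by
    have h1 : IsPrimitiveRoot (ξ ^ p ^ n) p := by
      refine hξ.pow (pow_pos hp.pos _) ?_
      rw [pow_succ]
    have h2 : IsPrimitiveRoot (om⁻¹) p := hom.inv
    have : NeZero p := ⟨hp.ne_zero⟩
    obtain ⟨i, _, hi2, hi⟩ := (h1.isPrimitiveRoot_iff).1 h2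
    refine ⟨i, ?_, ?_⟩
    · intro h
      have h3 : p ∣ i := by exact_mod_cast h
      have h4 : p ∣ Nat.gcd i p := Nat.dvd_gcd h3 dvd_rfl
      rw [hi2] at h4
      exact hp.one_lt.ne' (Nat.dvd_one.1 h4)
    · rw [zpow_natCast, ← pow_mul, mul_comm, pow_mul]
      exact hi
  have hξc : IsPrimitiveRoot (ξ ^ c) (p ^ (n + 1)) := by
    refine hξ.zpow_of_gcd_eq_one c ?_
    have h3 : IsCoprime c ((p ^ (n + 1) : ℕ) : ℤ) := by
      push_cast
      refine IsCoprime.pow_right ?_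
      exact ((Prime.coprime_iff_not_dvd (Nat.prime_iff_prime_int.1 hp)).2 hc).symm
    exact Int.isCoprime_iff_gcd_eq_one.1 h3
  refine ⟨α, β, γ, δ, c, hdet, hγ, hδ, hc, ?_⟩
  rw [hx]
  refine final_step hp hn H.sym H.nu1 hξ x c hc ?_
  have hYrel : ∀ b : ℤ, ∑ j ∈ Finset.range p, (jacobiSym (j : ℤ) p : ℂ) *
      yQ p n Q x (b + j * (p : ℤ) ^ n) = G * yQ p n Q x b := by
    intro b
    have e1 := hrel (x + (b : ℚ) / (p : ℚ) ^ (n + 1))
    have e2 := hrel (x + (b : ℚ) / (p : ℚ) ^ (n + 1) + 1 / (p : ℚ) ^ 3)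
    have e3 : ∀ j : ℕ, x + ((b + j * (p : ℤ) ^ n : ℤ) : ℚ) / (p : ℚ) ^ (n + 1) =
        x + (b : ℚ) / (p : ℚ) ^ (n + 1) + (j : ℚ) / p := by
      intro j
      have := add_step (n := n) hp x b j
      rw [this]
      push_cast
      rfl
    have e4 : ∀ j : ℕ, x + (b : ℚ) / (p : ℚ) ^ (n + 1) + (j : ℚ) / p + 1 / (p : ℚ) ^ 3 =
        x + (b : ℚ) / (p : ℚ) ^ (n + 1) + 1 / (p : ℚ) ^ 3 + (j : ℚ) / p := fun j => by ring
    simp only [yQ]
    simp_rw [e3, e4, mul_sub]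
    rw [Finset.sum_sub_distrib, e1, e2]
  have hYF : ∀ b : ℤ, ∑ l ∈ Finset.range p, F.coeff l *
      yQ p n Q x (b - l * (p : ℤ) ^ n) = 0 := by
    intro b
    have h5 := hFf (fun l => yQ p n Q x (b + l * (p : ℤ) ^ n)) (by
      rintro l l' ⟨t, ht⟩
      apply yQ_per hp H.sym H.nu1
      refine ⟨t, ?_⟩
      have : l = l' + p * t := by linear_combination ht
      rw [this]
      ring) (by
      intro b'
      have h6 := hYrel (b + b' * (p : ℤ) ^ n)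
      rw [← hG, ← h6]
      refine Finset.sum_congr rfl fun j _ => ?_
      have e : b + (b' + (j : ℤ)) * (p : ℤ) ^ n = b + b' * (p : ℤ) ^ n + j * (p : ℤ) ^ n := by ring
      rw [e]) 0
    rw [← h5]
    refine Finset.sum_congr rfl fun l _ => ?_
    have e : b + (0 - (l : ℤ)) * (p : ℤ) ^ n = b - l * (p : ℤ) ^ n := by ring
    rw [e]
  have hpp : 0 < p - 1 := by omega
  have hb : 1 ≤ V.valuation (yQ p n Q x 0) ^ (p - 1) * V.valuation (p : ℂ) := by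
    obtain ⟨w, hw, ew⟩ := yQ_typ (n := n) H x 0
    have h5 := to_TYP p hp V H.vp KI 2 (p - 1) i (by norm_num) hi2
      (Nat.mul_le_mul_right _ hi1) (by
        rw [mul_comm]
        exact Nat.mul_lt_mul_of_pos_left (by nlinarith) hpp) hunr pi hvpi w hw
    rw [← ew] at h5
    exact h5.2 hy
  refine to_DVR p hp H.p2 V H.vp KI hunr n (fun b => yQ p n Q x b)
    (fun b c hbc => yQ_per hp H.sym H.nu1 x b c hbc) F Hh hF hH hFK hHK hdeg hFH hYF
    (fun b b' _ => yQ_div H x b b') 0 hb (ξ ^ c) hξc ?_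
  rw [hco]
  exact hFe

end

end Pool.Agent.OT


end

section

/-!
# OT, block H, module LAG (helper3)
-/

set_option autoImplicit false

namespace Pool.Agent.OTH

open Pool.Agent.OT

theorem h_LAG : S_LAG := by
  intro p n V N nu s z₀ t Q ξ l H a ha ha2 N' hN' hNN
  obtain ⟨c, α, β, γ, δ, h1, h2, h3, h4, h5⟩ := nd_PV H a ha ha2 N' hN' hNN
  exact ⟨α, β, γ, δ, c, h1, h2, h3, h4, h5⟩

end Pool.Agent.OTH


end

section

/-!
# OT, block H, module VSY (helper34): the vector `PE` is a vector of symbols (hypotheses of `TWV.S_TWV`)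

`VSY.Yh_law`: `Yh M ξ Q (γ x) (γ y) = nu d * Yh M (ξ^f) Q x y` for `γ` in `Γ₀(N M²)`, `f d² ≡ 1` modulo `M`.
`VSY.PV_per`, `PV_law`, `PV_add`, `PV_even`, `PV_dep`, `PV_alg`: the same for `PV`.
-/

set_option autoImplicit false

namespace Pool.Agent.OTH

open _root_.MU3 Pool.Agent.MuSym OnePoint Finset Pool.Agent.OT
open Pool.Agent.TWV (IsVSym)

noncomputable section

namespace VSY

theorem mob_infty (a b c d : ℤ) :
    mob a b c d ∞ = if c = 0 then ∞ else ((a / c : ℚ) : OnePoint ℚ) := rfl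

theorem mob_coe (a b c d : ℤ) (r : ℚ) :
    mob a b c d (r : OnePoint ℚ) = if (c : ℚ) * r + d = 0 then ∞ else
      (((a * r + b) / (c * r + d) : ℚ) : OnePoint ℚ) := rfl

theorem mob_mob (A B C D a b c d : ℤ) (h1 : A * D - B * C ≠ 0) (h2 : a * d - b * c ≠ 0)
    (x : OnePoint ℚ) : mob A B C D (mob a b c d x) =
      mob (A * a + B * c) (A * b + B * d) (C * a + D * c) (C * b + D * d) x := by
  have H1 : (A : ℚ) * D - B * C ≠ 0 := by exact_mod_cast h1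
  have H2 : (a : ℚ) * d - b * c ≠ 0 := by exact_mod_cast h2
  -- a general point `(u : v)`
  have key : ∀ u v : ℚ, (u ≠ 0 ∨ v ≠ 0) →
      (if v = 0 then mob A B C D ∞ else mob A B C D ((u / v : ℚ) : OnePoint ℚ)) =
        if (C : ℚ) * u + D * v = 0 then ∞ else
          (((A * u + B * v) / (C * u + D * v) : ℚ) : OnePoint ℚ) := by
    intro u v huv
    by_cases hv : v = 0
    · subst hv
      have hu : u ≠ 0 := by simpa using huv
      rw [if_pos rfl, mob_infty]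
      by_cases hC : C = 0
      · subst hC; simp
      · have hC' : (C : ℚ) ≠ 0 := by exact_mod_cast hC
        rw [if_neg hC, if_neg (by simpa using ⟨hC, hu⟩)]
        congr 1
        simp only [mul_zero, add_zero]
        field_simp
    · rw [if_neg hv, mob_coe]
      have e1 : (C : ℚ) * (u / v) + D = (C * u + D * v) / v := by field_simp
      rw [e1]
      by_cases h0 : (C : ℚ) * u + D * v = 0
      · rw [h0, if_pos (by simp), if_pos rfl]
      · rw [if_neg (by rw [div_eq_zero_iff]; tauto), if_neg h0]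
        congr 1
        field_simp
  induction x using OnePoint.rec with
  | infty =>
    have h := key a c (by
      by_contra hcon
      push Not at hcon
      rw [hcon.1, hcon.2] at H2
      simp at H2)
    rw [mob_infty, mob_infty]
    by_cases hc : c = 0
    · subst hc
      rw [if_pos rfl]
      rw [if_pos (by simp)] at h
      rw [h]
      push_cast
      by_cases h5 : C * a + D * 0 = 0
      · rw [if_pos h5, if_pos (by exact_mod_cast h5)]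
      · rw [if_neg h5, if_neg (by exact_mod_cast h5)]
    · rw [if_neg hc]
      rw [if_neg (by exact_mod_cast hc)] at h
      rw [h]
      push_cast
      by_cases h5 : C * a + D * c = 0
      · rw [if_pos h5, if_pos (by exact_mod_cast h5)]
      · rw [if_neg h5, if_neg (by exact_mod_cast h5)]
  | coe r =>
    have h := key (a * r + b) (c * r + d) (by
      by_contra hcon
      push Not at hcon
      apply H2
      have e1 : (a : ℚ) * d - b * c = a * (c * r + d) - c * (a * r + b) := by ring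
      rw [e1, hcon.1, hcon.2]; ring)
    rw [mob_coe, mob_coe]
    have e3 : ((C * a + D * c : ℤ) : ℚ) * r + ((C * b + D * d : ℤ) : ℚ) =
        C * (a * r + b) + D * (c * r + d) := by push_cast; ring
    have e4 : ((A * a + B * c : ℤ) : ℚ) * r + ((A * b + B * d : ℤ) : ℚ) =
        A * (a * r + b) + B * (c * r + d) := by push_cast; ring
    rw [e3, e4, ← h]
    by_cases hc : (c : ℚ) * r + d = 0
    · rw [if_pos hc, if_pos hc]
    · rw [if_neg hc, if_neg hc]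

/-- scaling a matrix by `M ≠ 0` does not change the action -/
theorem mob_scale (M : ℤ) (hM : M ≠ 0) (a b c d : ℤ) (x : OnePoint ℚ) :
    mob (M * a) (M * b) (M * c) (M * d) x = mob a b c d x := by
  have hM' : (M : ℚ) ≠ 0 := by exact_mod_cast hM
  induction x using OnePoint.rec with
  | infty =>
    rw [mob_infty, mob_infty]
    by_cases hc : c = 0
    · rw [if_pos hc, if_pos (by rw [hc, mul_zero])]
    · rw [if_neg hc, if_neg (mul_ne_zero hM hc)]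
      congr 1
      have : (c : ℚ) ≠ 0 := by exact_mod_cast hc
      push_cast
      field_simp
  | coe r =>
    rw [mob_coe, mob_coe]
    have e1 : ((M * c : ℤ) : ℚ) * r + ((M * d : ℤ) : ℚ) = M * (c * r + d) := by push_cast; ring
    have e2 : ((M * a : ℤ) : ℚ) * r + ((M * b : ℤ) : ℚ) = M * (a * r + b) := by push_cast; ring
    rw [e1, e2]
    by_cases hc : (c : ℚ) * r + d = 0
    · rw [if_pos hc, if_pos (by rw [hc, mul_zero])]
    · rw [if_neg hc, if_neg (mul_ne_zero hM' hc)]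
      congr 1
      field_simp

theorem tM_coe (M : ℕ) (hM : M ≠ 0) (b : ℤ) (x : ℚ) :
    tM M b (x : OnePoint ℚ) = ((x + (b : ℚ) / M : ℚ) : OnePoint ℚ) := by
  have hM' : (M : ℚ) ≠ 0 := by exact_mod_cast hM
  rw [tM, mob_coe, if_neg (by push_cast; simpa using hM)]
  congr 1
  push_cast
  rw [zero_mul, zero_add, add_div, mul_comm (M : ℚ) x, mul_div_cancel_right₀ _ hM']

theorem tM_infty (M : ℕ) (b : ℤ) : tM M b ∞ = ∞ := by
  rw [tM, mob_infty, if_pos rfl]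

/-- the translation of a translated point -/
theorem tM_add (M : ℕ) (hM : M ≠ 0) (b b' : ℤ) (x : OnePoint ℚ) :
    tM M b (tM M b' x) = tM M (b + b') x := by
  induction x using OnePoint.rec with
  | infty => rw [tM_infty, tM_infty, tM_infty]
  | coe r =>
    rw [tM_coe M hM, tM_coe M hM, tM_coe M hM]
    congr 1
    push_cast
    ring

theorem tM_self (M : ℕ) (hM : M ≠ 0) (x : OnePoint ℚ) : tM M M x = mob 1 1 0 1 x := by
  have := mob_scale (M : ℤ) (by exact_mod_cast hM) 1 1 0 1 x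
  rw [tM, ← this]
  congr 1 <;> ring

/-- the translates of a symbol are periodic -/
theorem tM_per {N : ℕ} {nu : ℤ → ℂ} {Q : OnePoint ℚ → OnePoint ℚ → ℂ} (hQ : IsSym N nu Q)
    (nu1 : nu 1 = 1) (M : ℕ) (hM : M ≠ 0) (b : ℤ) (x y : OnePoint ℚ) :
    Q (tM M (b + M) x) (tM M (b + M) y) = Q (tM M b x) (tM M b y) := by
  rw [add_comm b, ← tM_add M hM, ← tM_add M hM, tM_self M hM, tM_self M hM,
    hQ.equiv 1 1 0 1 (by norm_num) (by simp), nu1, one_mul]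

/-- the commutation of a translation with a matrix of `Γ₀(N M²)` -/
theorem tM_mob {N : ℕ} {nu : ℤ → ℂ} {Q : OnePoint ℚ → OnePoint ℚ → ℂ} (hQ : IsSym N nu Q)
    (nuper : ∀ d d' : ℤ, (N : ℤ) ∣ d - d' → nu d = nu d') (M : ℕ) (hM : M ≠ 0)
    (a b c d : ℤ) (hdet : a * d - b * c = 1) (hc : ((N * M ^ 2 : ℕ) : ℤ) ∣ c) (j : ℤ)
    (x y : OnePoint ℚ) :
    Q (tM M j (mob a b c d x)) (tM M j (mob a b c d y)) =
      nu d * Q (tM M (j * d ^ 2) x) (tM M (j * d ^ 2) y) := by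
  obtain ⟨k, hk⟩ := hc
  have hMz : (M : ℤ) ≠ 0 := by exact_mod_cast hM
  push_cast at hk
  -- the matrix
  set a' : ℤ := a + j * (N * M * k) with ha'
  set d' : ℤ := d - (N * M * k) * j * d ^ 2 with hd'
  set b' : ℤ := b - j * d * b * (N * M * k) - j ^ 2 * (N * k) * d ^ 2 with hb'
  have hdet' : a' * d' - b' * c = 1 := by
    rw [ha', hd', hb', hk]
    have hdet2 : a * d = 1 + b * (N * M ^ 2 * k) := by rw [← hk]; linear_combination hdet
    linear_combination (1 - j * d * (N * M * k)) * hdet2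
  have key : ∀ z : OnePoint ℚ, tM M j (mob a b c d z) = mob a' b' c d' (tM M (j * d ^ 2) z) := by
    intro z
    rw [tM, tM, mob_mob _ _ _ _ _ _ _ _ (by simpa using hM) (by rw [hdet]; exact one_ne_zero),
      mob_mob _ _ _ _ _ _ _ _ (by rw [hdet']; exact one_ne_zero) (by simpa using hM)]
    have hdet2 : a * d = 1 + b * (N * M ^ 2 * k) := by rw [← hk]; linear_combination hdet
    congr 1
    · rw [ha', hk]; ring
    · rw [ha', hb']
      linear_combination (-(j * d)) * hdet2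
    · ring
    · rw [hd', hk]; ring
  rw [key, key, hQ.equiv a' b' c d' hdet' ⟨M ^ 2 * k, by rw [hk]; ring⟩]
  congr 1
  apply nuper
  exact ⟨-(M * k * j * d ^ 2), by rw [hd']; ring⟩

/-- the vector symbol law for the functional `Yh` -/
theorem Yh_law {N : ℕ} {nu : ℤ → ℂ} {Q : OnePoint ℚ → OnePoint ℚ → ℂ} (hQ : IsSym N nu Q)
    (nu1 : nu 1 = 1) (nuper : ∀ d d' : ℤ, (N : ℤ) ∣ d - d' → nu d = nu d') (M : ℕ) (hM : M ≠ 0)
    (ξ : ℂ) (hξ : ξ ^ M = 1)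
    (a b c d : ℤ) (hdet : a * d - b * c = 1) (hc : ((N * M ^ 2 : ℕ) : ℤ) ∣ c) (f : ℤ)
    (hf : (M : ℤ) ∣ f * d ^ 2 - 1) (x y : OnePoint ℚ) :
    Yh M ξ Q (mob a b c d x) (mob a b c d y) = nu d * Yh M (ξ ^ f) Q x y := by
  have hξ0 : ξ ≠ 0 := by
    rintro rfl
    rw [zero_pow hM] at hξ
    exact zero_ne_one hξ
  have hξz : ∀ k : ℤ, ξ ^ ((M : ℤ) * k) = 1 := by
    intro k
    rw [zpow_mul, zpow_natCast, hξ, one_zpow]
  set H : ℤ → ℂ := fun j => (ξ ^ f) ^ j * Q (tM M j x) (tM M j y) with hH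
  have hHper : ∀ j, H (j + M) = H j := by
    intro j
    simp only [hH]
    rw [tM_per hQ nu1 M hM, zpow_add₀ (zpow_ne_zero _ hξ0), ← zpow_mul ξ f (M : ℤ), mul_comm f, hξz,
      mul_one]
  have hcop : IsCoprime (d ^ 2) (M : ℤ) := by
    obtain ⟨k, hk⟩ := hf
    exact ⟨f, -k, by linear_combination hk⟩
  have h1 := Pool.Agent.TWR.STAAux.sum_perm M hM H hHper (d ^ 2) hcop
  have h2 : Yh M (ξ ^ f) Q x y = ∑ j ∈ range M, H j := by
    rw [Yh]
    refine Finset.sum_congr rfl fun j _ => ?_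
    simp only [hH]
    rw [zpow_natCast]
  rw [h2, ← h1, Yh, Finset.mul_sum]
  refine Finset.sum_congr rfl fun j _ => ?_
  simp only [hH]
  rw [tM_mob hQ nuper M hM a b c d hdet hc j x y]
  have h3 : (ξ ^ f) ^ (d ^ 2 * (j : ℤ)) = ξ ^ j := by
    obtain ⟨k, hk⟩ := hf
    rw [← zpow_mul]
    have h4 : f * (d ^ 2 * (j : ℤ)) = (j : ℤ) + M * (k * j) := by linear_combination (j : ℤ) * hk
    rw [h4, zpow_add₀ hξ0, hξz, mul_one, zpow_natCast]
  rw [h3, mul_comm (d ^ 2) (j : ℤ)]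
  ring

/-- additivity -/
theorem Yh_add {N : ℕ} {nu : ℤ → ℂ} {Q : OnePoint ℚ → OnePoint ℚ → ℂ} (hQ : IsSym N nu Q)
    (M : ℕ) (ξ : ℂ) (x y z : OnePoint ℚ) : Yh M ξ Q x y + Yh M ξ Q y z = Yh M ξ Q x z := by
  rw [Yh, Yh, Yh, ← Finset.sum_add_distrib]
  refine Finset.sum_congr rfl fun j _ => ?_
  rw [← mul_add, hQ.add]

/-- the reflection -/
theorem Yh_neg {N : ℕ} {nu : ℤ → ℂ} {Q Q' : OnePoint ℚ → OnePoint ℚ → ℂ} (s : ℂ)
    (hQ : IsSym N nu Q') (nu1 : nu 1 = 1)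
    (hneg : ∀ x : ℚ, Q ∞ ((-x : ℚ) : OnePoint ℚ) = s * Q' ∞ (x : OnePoint ℚ)) (M : ℕ) (hM : M ≠ 0)
    (ξ : ℂ) (hξ : ξ ^ M = 1) (x : ℚ) :
    Yh M ξ Q ∞ ((-x : ℚ) : OnePoint ℚ) = s * Yh M (ξ ^ (-1 : ℤ)) Q' ∞ (x : OnePoint ℚ) := by
  have hξ0 : ξ ≠ 0 := by
    rintro rfl
    rw [zero_pow hM] at hξ
    exact zero_ne_one hξ
  have hξz : ∀ k : ℤ, ξ ^ ((M : ℤ) * k) = 1 := by
    intro k
    rw [zpow_mul, zpow_natCast, hξ, one_zpow]
  set H : ℤ → ℂ := fun j => (ξ ^ (-1 : ℤ)) ^ j * Q' (tM M j ∞) (tM M j (x : OnePoint ℚ)) with hH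
  have hHper : ∀ j, H (j + M) = H j := by
    intro j
    simp only [hH]
    rw [tM_per hQ nu1 M hM, zpow_add₀ (zpow_ne_zero _ hξ0), ← zpow_mul ξ (-1) (M : ℤ),
      mul_comm (-1 : ℤ), hξz, mul_one]
  have h1 := Pool.Agent.TWR.STAAux.sum_perm M hM H hHper (-1) isCoprime_one_left.neg_left
  have h2 : Yh M (ξ ^ (-1 : ℤ)) Q' ∞ (x : OnePoint ℚ) = ∑ j ∈ range M, H j := by
    rw [Yh]
    refine Finset.sum_congr rfl fun j _ => ?_
    simp only [hH]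
    rw [zpow_natCast]
  rw [h2, ← h1, Yh, Finset.mul_sum]
  refine Finset.sum_congr rfl fun j _ => ?_
  simp only [hH]
  have h3 : (ξ ^ (-1 : ℤ)) ^ (-1 * (j : ℤ)) = ξ ^ j := by
    rw [← zpow_mul]
    have h4 : (-1 : ℤ) * (-1 * (j : ℤ)) = j := by ring
    rw [h4, zpow_natCast]
  have h5 : Q (tM M j ∞) (tM M j ((-x : ℚ) : OnePoint ℚ)) =
      s * Q' (tM M (-1 * (j : ℤ)) ∞) (tM M (-1 * (j : ℤ)) (x : OnePoint ℚ)) := by
    rw [tM_infty, tM_infty, tM_coe M hM, tM_coe M hM]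
    have h6 : (-x + (j : ℚ) / M : ℚ) = -(x + ((-1 * (j : ℤ) : ℤ) : ℚ) / M) := by
      push_cast
      ring
    rw [Int.cast_natCast, h6, hneg]
  rw [h3, h5]
  ring

/-- the depletion in the direction of `l` -/
theorem Yh_dep {Q : OnePoint ℚ → OnePoint ℚ → ℂ} (l : ℕ)
    (hd : ∀ x : ℚ, ∑ k ∈ range l, Q ∞ ((x + (k : ℚ) / l : ℚ) : OnePoint ℚ) = 0) (M : ℕ) (hM : M ≠ 0)
    (ξ : ℂ) (x : ℚ) : ∑ k ∈ range l, Yh M ξ Q ∞ ((x + (k : ℚ) / l : ℚ) : OnePoint ℚ) = 0 := by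
  simp only [Yh]
  rw [Finset.sum_comm]
  refine Finset.sum_eq_zero fun j _ => ?_
  rw [← Finset.mul_sum]
  have h1 : ∀ k ∈ range l, Q (tM M j ∞) (tM M j ((x + (k : ℚ) / l : ℚ) : OnePoint ℚ)) =
      Q ∞ (((x + (j : ℚ) / M) + (k : ℚ) / l : ℚ) : OnePoint ℚ) := by
    intro k _
    rw [tM_infty, tM_coe M hM]
    congr 2
    push_cast
    ring
  rw [Finset.sum_congr rfl h1, hd, mul_zero]

theorem Yh_alg {Q : OnePoint ℚ → OnePoint ℚ → ℂ} (ha : ∀ x y, IsAlgebraic ℚ (Q x y)) (M : ℕ)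
    (ξ : ℂ) (hξ : IsAlgebraic ℚ ξ) (x y : OnePoint ℚ) : IsAlgebraic ℚ (Yh M ξ Q x y) := by
  rw [Yh]
  refine Finset.sum_induction _ (fun x => IsAlgebraic ℚ x) (fun _ _ h h' => h.add h')
    isAlgebraic_zero fun j _ => ?_
  exact (hξ.pow _).mul (ha _ _)

/-! ### The number `z₀` -/

/-- `z₀^((p-1)/2) ≡ -1` modulo `p^(n+1)` -/
theorem z0_half {p n : ℕ} (hp : p.Prime) (h5 : 5 ≤ p) {z₀ : ℤ} (hz : IsZ0 p n z₀) :
    ((p ^ (n + 1) : ℕ) : ℤ) ∣ z₀ ^ ((p - 1) / 2) + 1 := by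
  have : Fact p.Prime := ⟨hp⟩
  have hodd : p % 2 = 1 := by
    rcases hp.eq_two_or_odd with h | h
    · omega
    · exact h
  have h2 : (p - 1) / 2 * 2 = p - 1 := by omega
  -- the powers are different modulo `p`
  have hne : ¬ (p : ℤ) ∣ z₀ ^ ((p - 1) / 2) - 1 := by
    intro hd
    have hz1 : (z₀ : ZMod p) ^ (p - 1) = 1 := by
      have h3 : (p : ℤ) ∣ z₀ ^ (p - 1) - 1 :=
        Dvd.dvd.trans (by push_cast; exact dvd_pow_self _ (by omega)) hz.one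
      have h4 := (ZMod.intCast_zmod_eq_zero_iff_dvd _ p).2 h3
      push_cast at h4
      exact sub_eq_zero.1 h4
    have hzu : IsUnit (z₀ : ZMod p) := IsUnit.of_pow_eq_one hz1 (by omega)
    let F : Fin (p - 1) → (ZMod p)ˣ := fun k => hzu.unit ^ (k : ℕ)
    have hsur : Function.Surjective F := by
      intro u
      have hu : ¬ (p : ℤ) ∣ (((u : ZMod p).val : ℕ) : ℤ) := by
        rw [← ZMod.intCast_zmod_eq_zero_iff_dvd]
        push_cast
        rw [ZMod.natCast_zmod_val]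
        exact u.ne_zero
      obtain ⟨k, hk, hk'⟩ := hz.gen _ hu
      refine ⟨⟨k, hk⟩, ?_⟩
      apply Units.ext
      rw [← ZMod.intCast_zmod_eq_zero_iff_dvd] at hk'
      push_cast at hk'
      rw [ZMod.natCast_zmod_val] at hk'
      show ((hzu.unit ^ k : (ZMod p)ˣ) : ZMod p) = _
      rw [Units.val_pow_eq_pow_val, IsUnit.unit_spec]
      exact (sub_eq_zero.1 hk').symm
    have hbij : Function.Bijective F := by
      rw [Fintype.bijective_iff_surjective_and_card]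
      exact ⟨hsur, by rw [Fintype.card_fin, ZMod.card_units p]⟩
    have h6 : F ⟨(p - 1) / 2, by omega⟩ = F ⟨0, by omega⟩ := by
      apply Units.ext
      show ((hzu.unit ^ ((p - 1) / 2) : (ZMod p)ˣ) : ZMod p) = ((hzu.unit ^ 0 : (ZMod p)ˣ) : ZMod p)
      rw [Units.val_pow_eq_pow_val, IsUnit.unit_spec, pow_zero]
      have h7 := (ZMod.intCast_zmod_eq_zero_iff_dvd _ p).2 hd
      push_cast at h7
      exact sub_eq_zero.1 h7
    have h8 := hbij.1 h6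
    rw [Fin.mk.injEq] at h8
    omega
  have hcop : IsCoprime (z₀ ^ ((p - 1) / 2) - 1) (((p ^ (n + 1) : ℕ) : ℤ)) := by
    push_cast
    apply IsCoprime.pow_right
    exact ((Nat.prime_iff_prime_int.1 hp).coprime_iff_not_dvd.2 hne).symm
  have hprod : ((p ^ (n + 1) : ℕ) : ℤ) ∣ (z₀ ^ ((p - 1) / 2) - 1) * (z₀ ^ ((p - 1) / 2) + 1) := by
    have h9 : (z₀ ^ ((p - 1) / 2) - 1) * (z₀ ^ ((p - 1) / 2) + 1) = z₀ ^ (p - 1) - 1 := by
      have : z₀ ^ (p - 1) = z₀ ^ ((p - 1) / 2) * z₀ ^ ((p - 1) / 2) := by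
        rw [← pow_add]
        congr 1
        omega
      rw [this]
      ring
    rw [h9]
    exact hz.one
  exact hcop.symm.dvd_of_dvd_mul_left hprod

/-- a periodic sum over a period, shifted by half of it -/
theorem sum_shift (h : ℕ) (G : ℕ → ℂ) (hG : ∀ k, G (k + 2 * h) = G k) :
    ∑ k ∈ range (2 * h), G (k + h) = ∑ k ∈ range (2 * h), G k := by
  rw [two_mul, Finset.sum_range_add, Finset.sum_range_add, add_comm]
  congr 1
  · refine Finset.sum_congr rfl fun k _ => ?_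
    rw [← hG k]
    congr 1
    ring
  · refine Finset.sum_congr rfl fun k _ => ?_
    rw [add_comm]

/-! ### The vector -/

theorem zpow_per {M : ℕ} (hM : M ≠ 0) {ξ : ℂ} (hξ : ξ ^ M = 1) {c c' : ℤ} (h : (M : ℤ) ∣ c - c') :
    ξ ^ c = ξ ^ c' := by
  have hξ0 : ξ ≠ 0 := by
    rintro rfl
    rw [zero_pow hM] at hξ
    exact zero_ne_one hξ
  obtain ⟨k, hk⟩ := h
  have : c = c' + M * k := by linear_combination hk
  rw [this, zpow_add₀ hξ0, zpow_mul, zpow_natCast, hξ, one_zpow, mul_one]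

/-- the vector depends on the index modulo `p^(n+1)` -/
theorem PV_per {p n : ℕ} (hp : p ≠ 0) {ξ : ℂ} (hξ : ξ ^ (p ^ (n + 1)) = 1) (a z₀ : ℤ)
    (t : ℤ → ℂ) (Q : ℕ → OnePoint ℚ → OnePoint ℚ → ℂ) {c c' : ℤ}
    (h : ((p ^ (n + 1) : ℕ) : ℤ) ∣ c - c') (x y : OnePoint ℚ) :
    PV p n ξ a z₀ t Q c x y = PV p n ξ a z₀ t Q c' x y := by
  rw [PV, PV]
  refine Finset.sum_congr rfl fun k _ => ?_
  congr 1
  refine Finset.sum_congr rfl fun j _ => Finset.sum_congr rfl fun r _ => ?_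
  have h1 : ξ ^ (c * a ^ (2 * r) * (1 + (p : ℤ)) ^ j * z₀ ^ k) =
      ξ ^ (c' * a ^ (2 * r) * (1 + (p : ℤ)) ^ j * z₀ ^ k) := by
    apply zpow_per (pow_ne_zero _ hp) hξ
    obtain ⟨m, hm⟩ := h
    refine ⟨m * (a ^ (2 * r) * (1 + (p : ℤ)) ^ j * z₀ ^ k), ?_⟩
    linear_combination (a ^ (2 * r) * (1 + (p : ℤ)) ^ j * z₀ ^ k) * hm
  rw [h1]

theorem root_pow {M : ℕ} {ξ : ℂ} (hξ : ξ ^ M = 1) (c : ℤ) : (ξ ^ c) ^ M = 1 := by
  rw [← zpow_natCast, ← zpow_mul, mul_comm, zpow_mul, zpow_natCast, hξ, one_zpow]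

/-- the vector symbol law for `PV` -/
theorem PV_law {p n : ℕ} (hp : p ≠ 0) {N : ℕ} {nu : ℤ → ℂ} (nu1 : nu 1 = 1)
    (nuper : ∀ d d' : ℤ, (N : ℤ) ∣ d - d' → nu d = nu d') {ξ : ℂ} (hξ : ξ ^ (p ^ (n + 1)) = 1)
    (a z₀ : ℤ) (t : ℤ → ℂ) {Q : ℕ → OnePoint ℚ → OnePoint ℚ → ℂ} (hQ : ∀ k, IsSym N nu (Q k))
    (c α β γ δ : ℤ) (hdet : α * δ - β * γ = 1) (hγ : ((N * (p ^ (n + 1)) ^ 2 : ℕ) : ℤ) ∣ γ) (f : ℤ)
    (hf : ((p ^ (n + 1) : ℕ) : ℤ) ∣ f * δ ^ 2 - 1) (x y : OnePoint ℚ) :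
    PV p n ξ a z₀ t Q c (mob α β γ δ x) (mob α β γ δ y) =
      nu δ * PV p n ξ a z₀ t Q (c * f) x y := by
  rw [PV, PV, Finset.mul_sum]
  refine Finset.sum_congr rfl fun k _ => ?_
  rw [mul_left_comm]
  congr 1
  rw [Finset.mul_sum]
  refine Finset.sum_congr rfl fun j _ => ?_
  rw [Finset.mul_sum]
  refine Finset.sum_congr rfl fun r _ => ?_
  rw [Yh_law (hQ k) nu1 nuper _ (pow_ne_zero _ hp) _ (root_pow hξ _) α β γ δ hdet hγ f hf,
    ← zpow_mul]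
  rw [mul_left_comm]
  congr 4
  ring

theorem PV_add {p n : ℕ} {N : ℕ} {nu : ℤ → ℂ} {ξ : ℂ}
    (a z₀ : ℤ) (t : ℤ → ℂ) {Q : ℕ → OnePoint ℚ → OnePoint ℚ → ℂ} (hQ : ∀ k, IsSym N nu (Q k))
    (c : ℤ) (x y z : OnePoint ℚ) :
    PV p n ξ a z₀ t Q c x y + PV p n ξ a z₀ t Q c y z = PV p n ξ a z₀ t Q c x z := by
  rw [PV, PV, PV, ← Finset.sum_add_distrib]
  refine Finset.sum_congr rfl fun k _ => ?_
  rw [← mul_add]
  congr 1
  rw [← Finset.sum_add_distrib]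
  refine Finset.sum_congr rfl fun j _ => ?_
  rw [← Finset.sum_add_distrib]
  refine Finset.sum_congr rfl fun r _ => ?_
  rw [← mul_add, Yh_add (hQ k)]

/-- the sum over `z₀^k` makes every component even -/
theorem PV_even {p n : ℕ} {V : ValuationSubring ℂ} {N : ℕ} {nu : ℤ → ℂ} {s : ℂ} {z₀ : ℤ}
    {t : ℤ → ℂ} {Q : ℕ → OnePoint ℚ → OnePoint ℚ → ℂ} {ξ : ℂ} {l : ℕ}
    (H : HypT p n V N nu s z₀ t Q ξ l) (a c : ℤ) (x : ℚ) :
    PV p n ξ a z₀ t Q c ∞ ((-x : ℚ) : OnePoint ℚ) = PV p n ξ a z₀ t Q c ∞ (x : OnePoint ℚ) := by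
  have hp0 : p ≠ 0 := H.pp.ne_zero
  have hM : p ^ (n + 1) ≠ 0 := pow_ne_zero _ hp0
  have hξ := H.xi.pow_eq_one
  have h5 := H.p5
  have hodd : p % 2 = 1 := by
    rcases H.pp.eq_two_or_odd with h | h
    · omega
    · exact h
  obtain ⟨q, -, ht⟩ := H.tw
  obtain ⟨h, hh⟩ : ∃ h, h = (p - 1) / 2 := ⟨_, rfl⟩
  have h2 : p - 1 = 2 * h := by omega
  have hz := z0_half H.pp H.p5 H.z0
  rw [← hh] at hz
  have hpM : (p : ℤ) ∣ ((p ^ (n + 1) : ℕ) : ℤ) := by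
    push_cast
    exact dvd_pow_self _ (by omega)
  have htz : t (z₀ ^ h) = s := by
    rw [← H.ts]
    apply ht.per
    rw [sub_neg_eq_add]
    exact hpM.trans hz
  -- the summand
  set G : ℕ → ℂ := fun k => t (z₀ ^ k) * ∑ j ∈ range 2, ∑ r ∈ range 2,
    coT a j r * Yh (p ^ (n + 1)) (ξ ^ (c * a ^ (2 * r) * (1 + (p : ℤ)) ^ j * z₀ ^ k)) (Q k) ∞
      (x : OnePoint ℚ) with hG
  have hper : ∀ k, G (k + 2 * h) = G k := by
    intro k
    simp only [hG]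
    rw [← h2, H.perk k]
    have h3 : t (z₀ ^ (k + (p - 1))) = t (z₀ ^ k) := by
      apply ht.per
      have h4 : z₀ ^ (k + (p - 1)) - z₀ ^ k = z₀ ^ k * (z₀ ^ (p - 1) - 1) := by
        rw [pow_add]
        ring
      rw [h4]
      exact (hpM.trans H.z0.one).mul_left _
    rw [h3]
    congr 1
    refine Finset.sum_congr rfl fun j _ => Finset.sum_congr rfl fun r _ => ?_
    have h5 : ξ ^ (c * a ^ (2 * r) * (1 + (p : ℤ)) ^ j * z₀ ^ (k + (p - 1))) =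
        ξ ^ (c * a ^ (2 * r) * (1 + (p : ℤ)) ^ j * z₀ ^ k) := by
      apply zpow_per hM hξ
      have h6 : c * a ^ (2 * r) * (1 + (p : ℤ)) ^ j * z₀ ^ (k + (p - 1)) -
          c * a ^ (2 * r) * (1 + (p : ℤ)) ^ j * z₀ ^ k =
          c * a ^ (2 * r) * (1 + (p : ℤ)) ^ j * z₀ ^ k * (z₀ ^ (p - 1) - 1) := by
        rw [pow_add]
        ring
      rw [h6]
      exact H.z0.one.mul_left _
    rw [h5]
  have hR : PV p n ξ a z₀ t Q c ∞ (x : OnePoint ℚ) = ∑ k ∈ range (2 * h), G k := by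
    rw [PV, h2]
  rw [hR, ← sum_shift h G hper, PV, h2]
  refine Finset.sum_congr rfl fun k _ => ?_
  simp only [hG]
  have h7 : t (z₀ ^ (k + h)) = t (z₀ ^ k) * s := by
    rw [pow_add, ht.mul, htz]
  rw [h7, mul_assoc]
  congr 1
  rw [Finset.mul_sum]
  refine Finset.sum_congr rfl fun j _ => ?_
  rw [Finset.mul_sum]
  refine Finset.sum_congr rfl fun r _ => ?_
  have hneg : ∀ x : ℚ, Q k ∞ ((-x : ℚ) : OnePoint ℚ) = s * Q (k + h) ∞ (x : OnePoint ℚ) := by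
    intro x
    have h8 := H.neg k ∞ (x : OnePoint ℚ)
    rw [← hh] at h8
    rw [← h8]
    congr 1
    rw [mob_coe, if_neg (by simp)]
    congr 1
    push_cast
    ring
  rw [Yh_neg s (H.sym (k + h)) H.nu1 hneg _ hM _ (root_pow hξ _), ← zpow_mul]
  have h9 : ξ ^ (c * a ^ (2 * r) * (1 + (p : ℤ)) ^ j * z₀ ^ k * (-1)) =
      ξ ^ (c * a ^ (2 * r) * (1 + (p : ℤ)) ^ j * z₀ ^ (k + h)) := by
    apply zpow_per hM hξ
    have h6 : c * a ^ (2 * r) * (1 + (p : ℤ)) ^ j * z₀ ^ k * (-1) -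
        c * a ^ (2 * r) * (1 + (p : ℤ)) ^ j * z₀ ^ (k + h) =
        -(c * a ^ (2 * r) * (1 + (p : ℤ)) ^ j * z₀ ^ k) * (z₀ ^ h + 1) := by
      rw [pow_add]
      ring
    rw [h6]
    exact hz.mul_left _
  rw [h9]
  ring

theorem PV_dep {p n : ℕ} (hp : p ≠ 0) {ξ : ℂ} (a z₀ : ℤ) (t : ℤ → ℂ)
    {Q : ℕ → OnePoint ℚ → OnePoint ℚ → ℂ} (l : ℕ)
    (hd : ∀ k (x : ℚ), ∑ j ∈ range l, Q k ∞ ((x + (j : ℚ) / l : ℚ) : OnePoint ℚ) = 0)
    (c : ℤ) (x : ℚ) :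
    ∑ i ∈ range l, PV p n ξ a z₀ t Q c ∞ ((x + (i : ℚ) / l : ℚ) : OnePoint ℚ) = 0 := by
  simp only [PV]
  rw [Finset.sum_comm]
  refine Finset.sum_eq_zero fun k _ => ?_
  rw [← Finset.mul_sum, Finset.sum_comm]
  refine mul_eq_zero_of_right _ (Finset.sum_eq_zero fun j _ => ?_)
  rw [Finset.sum_comm]
  refine Finset.sum_eq_zero fun r _ => ?_
  rw [← Finset.mul_sum, Yh_dep l (hd k) _ (pow_ne_zero _ hp), mul_zero]

/-- a root of unity is algebraic -/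
theorem root_alg {M : ℕ} (hM : M ≠ 0) {ξ : ℂ} (hξ : ξ ^ M = 1) : IsAlgebraic ℚ ξ := by
  have h1 : IsIntegral ℚ ξ := by
    apply IsIntegral.of_pow (Nat.pos_of_ne_zero hM)
    rw [hξ]
    exact isIntegral_one
  exact h1.isAlgebraic

theorem PV_alg {p n : ℕ} {V : ValuationSubring ℂ} {N : ℕ} {nu : ℤ → ℂ} {s : ℂ} {z₀ : ℤ}
    {t : ℤ → ℂ} {Q : ℕ → OnePoint ℚ → OnePoint ℚ → ℂ} {ξ : ℂ} {l : ℕ}
    (H : HypT p n V N nu s z₀ t Q ξ l) (a c : ℤ) (x y : OnePoint ℚ) :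
    IsAlgebraic ℚ (PV p n ξ a z₀ t Q c x y) := by
  have hp0 : p ≠ 0 := H.pp.ne_zero
  have hM : p ^ (n + 1) ≠ 0 := pow_ne_zero _ hp0
  obtain ⟨q, hq, ht⟩ := H.tw
  have hq0 : q ≠ 0 := by
    rintro rfl
    exact hq (dvd_zero _)
  rw [PV]
  have hadd : ∀ u v : ℂ, IsAlgebraic ℚ u → IsAlgebraic ℚ v → IsAlgebraic ℚ (u + v) :=
    fun u v hu hv => hu.add hv
  refine Finset.sum_induction _ (fun x => IsAlgebraic ℚ x) hadd isAlgebraic_zero fun k _ => ?_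
  have hzk : ¬ (p : ℤ) ∣ z₀ ^ k := by
    intro hd
    have h1 := (Nat.prime_iff_prime_int.1 H.pp).dvd_of_dvd_pow hd
    have h2 : (p : ℤ) ∣ z₀ ^ (p - 1) - 1 :=
      Dvd.dvd.trans (by push_cast; exact dvd_pow_self _ (by omega)) H.z0.one
    have h5 := H.p5
    have h3 : (p : ℤ) ∣ z₀ ^ (p - 1) := dvd_pow h1 (by omega)
    have h4 : (p : ℤ) ∣ 1 := by
      have := dvd_sub h3 h2
      rwa [sub_sub_cancel] at this
    have := Int.le_of_dvd one_pos h4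
    omega
  refine IsAlgebraic.mul (root_alg hq0 (ht.pow _ hzk)) ?_
  refine Finset.sum_induction _ (fun x => IsAlgebraic ℚ x) hadd isAlgebraic_zero fun j _ => ?_
  refine Finset.sum_induction _ (fun x => IsAlgebraic ℚ x) hadd isAlgebraic_zero fun r _ => ?_
  refine IsAlgebraic.mul ?_ (Yh_alg (H.alg k) _ _ (root_alg hM (root_pow H.xi.pow_eq_one _)) x y)
  have h1 : coT a j r = ((if r = 0 then -((-1) ^ (1 - j) * a ^ 2) else (-1) ^ (1 - j) * a : ℤ) : ℂ) := by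
    rw [coT]
    split_ifs <;> push_cast <;> rfl
  rw [h1]
  exact isAlgebraic_intCast _

theorem sE_one (M : ℕ) : sE M 1 = 1 := by
  have h : IsUnit ((1 : ℤ) : ZMod M) := by
    rw [Int.cast_one]
    exact isUnit_one
  have h2 : h.unit = 1 := Units.ext (by rw [IsUnit.unit_spec, Int.cast_one, Units.val_one])
  unfold sE
  rw [dif_pos h, h2, one_pow, inv_one]

theorem sE_per (M : ℕ) (d d' : ℤ) (h : (M : ℤ) ∣ d - d') : sE M d = sE M d' := by
  have h1 : (d : ZMod M) = (d' : ZMod M) := by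
    have := (ZMod.intCast_zmod_eq_zero_iff_dvd _ M).2 h
    push_cast at this
    exact sub_eq_zero.1 this
  by_cases hu : IsUnit (d : ZMod M)
  · have hu' : IsUnit (d' : ZMod M) := h1 ▸ hu
    have h2 : hu.unit = hu'.unit := Units.ext (by rw [IsUnit.unit_spec, IsUnit.unit_spec, h1])
    unfold sE
    rw [dif_pos hu, dif_pos hu', h2]
  · have hu' : ¬ IsUnit (d' : ZMod M) := h1 ▸ hu
    unfold sE
    rw [dif_neg hu, dif_neg hu']

/-- the index after the action -/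
theorem sE_index {M : ℕ} (hM : M ≠ 0) (e : (ZMod M)ˣ) {d : ℤ} {f : ℤ}
    (hf : (M : ℤ) ∣ f * d ^ 2 - 1) :
    (M : ℤ) ∣ ((e : ZMod M).val : ℤ) * f - (((e * sE M d : (ZMod M)ˣ) : ZMod M).val : ℤ) := by
  have : NeZero M := ⟨hM⟩
  have h1 := (ZMod.intCast_zmod_eq_zero_iff_dvd _ M).2 hf
  push_cast at h1
  have hu : IsUnit (d : ZMod M) := by
    refine IsUnit.of_mul_eq_one ((f : ZMod M) * d) ?_
    linear_combination h1
  obtain ⟨w, hw⟩ : ∃ w, w = hu.unit := ⟨_, rfl⟩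
  have h2 : (w : ZMod M) = d := by rw [hw]; exact hu.unit_spec
  have h5 : sE M d = (w ^ 2)⁻¹ := by
    unfold sE
    rw [dif_pos hu, hw]
  rw [← ZMod.intCast_zmod_eq_zero_iff_dvd]
  push_cast
  rw [ZMod.natCast_zmod_val, ZMod.natCast_zmod_val, h5]
  have h3 : (((w ^ 2)⁻¹ : (ZMod M)ˣ) : ZMod M) * (w : ZMod M) ^ 2 = 1 := by
    rw [← Units.val_pow_eq_pow_val, Units.inv_mul]
  rw [h2] at h3
  have h4 : (f : ZMod M) = (((w ^ 2)⁻¹ : (ZMod M)ˣ) : ZMod M) := by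
    linear_combination (((w ^ 2)⁻¹ : (ZMod M)ˣ) : ZMod M) * h1 - f * h3
  rw [h4]
  ring

end VSY

open _root_.Pool.Agent.OTH.VSY

theorem h_VSY : S_VSY := by
  intro p n V N nu s z₀ t Q ξ l H a
  have hp0 : p ≠ 0 := H.pp.ne_zero
  have hM : p ^ (n + 1) ≠ 0 := pow_ne_zero _ hp0
  have hξ := H.xi.pow_eq_one
  have hlev : N * p ^ (2 * (n + 1)) = N * (p ^ (n + 1)) ^ 2 := by
    rw [← pow_mul, mul_comm 2]
  have : NeZero (p ^ (n + 1)) := ⟨hM⟩
  have hρ : IsAlgebraic ℚ ((1 - ξ) / p) := by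
    rw [div_eq_mul_inv]
    refine IsAlgebraic.mul ?_ ?_
    · rw [sub_eq_add_neg]
      exact isAlgebraic_one.add (root_alg hM hξ).neg
    · exact (isAlgebraic_natCast p).inv
  refine ⟨⟨?_, ?_⟩, ?_, ?_, ?_, sE_one _, ?_, ?_, ?_⟩
  · intro e x y z
    rw [PE, PE, PE, ← mul_add, PV_add a z₀ t H.sym]
  · intro e α β γ δ hdet hγ x y
    rw [hlev] at hγ
    -- the inverse of `δ²`
    obtain ⟨f, hf⟩ : ∃ f : ℤ, ((p ^ (n + 1) : ℕ) : ℤ) ∣ f * δ ^ 2 - 1 := by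
      obtain ⟨k, hk⟩ := hγ
      refine ⟨α ^ 2, β * (N * (p ^ (n + 1) : ℕ) * k) * (α * δ + 1), ?_⟩
      have h1 : α * δ - 1 = β * γ := by linear_combination hdet
      push_cast at hk ⊢
      linear_combination (α * δ + 1) * h1 + (α * δ + 1) * β * hk
    rw [PE, PE, PV_law hp0 H.nu1 H.nuper hξ a z₀ t H.sym _ α β γ δ hdet hγ f hf,
      PV_per hp0 hξ a z₀ t Q (sE_index hM e hf)]
    ring
  · intro e x y
    rw [PE]
    exact hρ.mul (PV_alg H a _ _ _)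
  · intro e x
    rw [PE, PE, PV_even H]
  · intro e x
    simp only [PE]
    rw [← Finset.mul_sum, PV_dep hp0 a z₀ t l H.dep, mul_zero]
  · intro d d' hd
    rw [hlev] at hd
    refine sE_per _ d d' (Dvd.dvd.trans ?_ hd)
    push_cast
    exact (dvd_pow_self _ two_ne_zero).mul_left _
  · intro c hc
    have hcop : IsCoprime c ((p ^ (n + 1) : ℕ) : ℤ) := by
      push_cast
      apply IsCoprime.pow_right
      exact ((Nat.prime_iff_prime_int.1 H.pp).coprime_iff_not_dvd.2 hc).symm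
    have hu : IsUnit (c : ZMod (p ^ (n + 1))) := by
      obtain ⟨u, v, huv⟩ := hcop
      refine IsUnit.of_mul_eq_one (u : ZMod (p ^ (n + 1))) ?_
      have h1 := congrArg (Int.cast : ℤ → ZMod (p ^ (n + 1))) huv
      push_cast at h1
      have h2 : ((p : ZMod (p ^ (n + 1)))) ^ (n + 1) = 0 := by
        have := ZMod.natCast_self (p ^ (n + 1))
        push_cast at this
        exact this
      rw [h2, mul_zero, add_zero] at h1
      rw [mul_comm]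
      exact h1
    refine ⟨hu.unit, fun x y => ?_⟩
    rw [PE, IsUnit.unit_spec]
    congr 1
    apply PV_per hp0 hξ
    rw [← ZMod.intCast_zmod_eq_zero_iff_dvd]
    rw [Int.cast_sub, Int.cast_natCast, ZMod.natCast_zmod_val, sub_self]
  · intro e hd
    have h1 : (p : ℤ) ∣ ((p ^ (n + 1) : ℕ) : ℤ) := by
      push_cast
      exact dvd_pow_self _ (by omega)
    have h2 : (e : ZMod (p ^ (n + 1))) ^ (n + 1) = 0 := by
      obtain ⟨k, hk⟩ := hd
      have h3 : ((e : ZMod (p ^ (n + 1))).val : ℤ) ^ (n + 1) = ((p ^ (n + 1) : ℕ) : ℤ) * k ^ (n + 1) := by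
        rw [hk]
        push_cast
        ring
      have h4 := congrArg (Int.cast : ℤ → ZMod (p ^ (n + 1))) h3
      rw [Int.cast_mul, Int.cast_natCast, ZMod.natCast_self, zero_mul, Int.cast_pow, Int.cast_natCast,
        ZMod.natCast_zmod_val] at h4
      exact h4
    have h5 : IsUnit ((e : ZMod (p ^ (n + 1))) ^ (n + 1)) := e.isUnit.pow _
    rw [h2, isUnit_zero_iff] at h5
    have h6 : 1 < p ^ (n + 1) := Nat.one_lt_pow (by omega) H.pp.one_lt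
    have : Fact (1 < p ^ (n + 1)) := ⟨h6⟩
    exact zero_ne_one h5

end

end Pool.Agent.OTH


end

section

/-!
# OT, block I: module EIX, the character `e ψ(N x)` (helper85)
-/

set_option autoImplicit false

namespace Pool.Agent.OTI

open _root_.MU3 Pool.Agent.MU3 Pool.Agent.MU3A Pool.Agent.MU3B Pool.Agent.RI Pool.Agent.RID
  Pool.Agent.MUX Pool.Agent.MUXK Pool.Agent.MUXI Pool.Agent.NS Pool.Agent.NSI Pool.Agent.OB
  Pool.Agent.OBI Pool.Agent.OT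
open Pool.Agent.MU3I (zt)

noncomputable section

namespace EIXx

variable {A B : ℤ}

/-- coprimality with a natural number passes to the norm -/
lemma nm_cop (hc : CQ A B) {x : OO A B} {m : ℕ} (h : IsCoprime x ((m : ℕ) : OO A B)) :
    IsCoprime (nm x) ((m : ℕ) : ℤ) := by
  obtain ⟨u, v, huv⟩ := h
  have h1 : u * x - 1 ∈ idl (A := A) (B := B) m := by
    rw [EPSx.mem_idl]
    refine ⟨-v, ?_⟩
    linear_combination huv
  obtain ⟨k, hk⟩ := EPSx.nm_congr h1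
  rw [MUX.nm_mul hc, EPSx.nm_one] at hk
  refine ⟨nm u, -k, ?_⟩
  linear_combination hk

lemma ex_iff {x : OO A B} {m : ℕ} :
    IsCoprime (sp x) (idl (A := A) (B := B) m) ↔ IsCoprime x ((m : ℕ) : OO A B) :=
  Ideal.isCoprime_span_singleton_iff _ _

end EIXx

/-- EIX -/
theorem ti_EIX : Ti_EIX := by
  intro p A B f hS l r hl hlf e he ψ
  have hc : CQ A B := hS.cq
  have hle : ∀ x : OO A B, x ∈ idl (A := A) (B := B) (p * (f * l ^ r)) →
      x ∈ idl (A := A) (B := B) (p * f) := by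
    intro x hx
    rw [EPSx.mem_idl] at hx ⊢
    refine dvd_trans ⟨((l ^ r : ℕ) : OO A B), ?_⟩ hx
    push_cast
    ring
  have hle2 : ∀ x : OO A B, x ∈ idl (A := A) (B := B) (p * (f * l ^ r)) →
      x ∈ idl (A := A) (B := B) (l ^ r) := by
    intro x hx
    rw [EPSx.mem_idl] at hx ⊢
    refine dvd_trans ⟨((p * f : ℕ) : OO A B), ?_⟩ hx
    push_cast
    ring
  refine ⟨?_, ?_, ?_, ?_, ?_⟩
  · show e 1 * ψ ((nm (1 : OO A B) : ℤ) : ZMod (l ^ r)) = 1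
    rw [he.one, EPSx.nm_one, Int.cast_one, map_one, one_mul]
  · intro x y
    show e (x * y) * ψ ((nm (x * y) : ℤ) : ZMod (l ^ r)) =
      e x * ψ ((nm x : ℤ) : ZMod (l ^ r)) * (e y * ψ ((nm y : ℤ) : ZMod (l ^ r)))
    rw [he.mul, MUX.nm_mul hc, Int.cast_mul, map_mul]
    ring
  · intro x y hxy
    show e x * ψ ((nm x : ℤ) : ZMod (l ^ r)) = e y * ψ ((nm y : ℤ) : ZMod (l ^ r))
    have h1 : ((nm x : ℤ) : ZMod (l ^ r)) = ((nm y : ℤ) : ZMod (l ^ r)) := by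
      have h2 := EPSx.nm_congr (hle2 _ hxy)
      rw [← sub_eq_zero, ← Int.cast_sub]
      exact (ZMod.intCast_zmod_eq_zero_iff_dvd _ _).2 h2
    rw [he.per x y (hle _ hxy), h1]
  · intro x
    show e x * ψ ((nm x : ℤ) : ZMod (l ^ r)) ≠ 0 ↔ _
    rw [EIXx.ex_iff]
    constructor
    · intro h
      have h1 := EIXx.ex_iff.1 ((he.supp x).1 (left_ne_zero_of_mul h))
      have h2 : IsCoprime x ((l : ℕ) : OO A B) := by
        refine IsCoprime.of_isCoprime_of_dvd_right h1 ?_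
        obtain ⟨c, rfl⟩ := hlf
        refine ⟨((p * c : ℕ) : OO A B), ?_⟩
        push_cast
        ring
      have h3 := h1.mul_right (h2.pow_right (n := r))
      refine IsCoprime.of_isCoprime_of_dvd_right h3 ?_
      refine ⟨1, ?_⟩
      push_cast
      ring
    · intro h
      have h1 : IsCoprime x ((p * f : ℕ) : OO A B) := by
        refine IsCoprime.of_isCoprime_of_dvd_right h ?_
        refine ⟨((l ^ r : ℕ) : OO A B), ?_⟩
        push_cast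
        ring
      have h2 : IsCoprime x ((l ^ r : ℕ) : OO A B) := by
        refine IsCoprime.of_isCoprime_of_dvd_right h ?_
        refine ⟨((p * f : ℕ) : OO A B), ?_⟩
        push_cast
        ring
      have h3 := EIXx.nm_cop hc h2
      refine mul_ne_zero ((he.supp x).2 (EIXx.ex_iff.2 h1)) ?_
      have h4 : IsUnit ((nm x : ℤ) : ZMod (l ^ r)) := by
        obtain ⟨a, b, hab⟩ := h3
        refine IsUnit.of_mul_eq_one ((a : ℤ) : ZMod (l ^ r)) ?_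
        have h5 := congrArg (Int.cast : ℤ → ZMod (l ^ r)) hab
        have h6 : ((l : ℕ) : ZMod (l ^ r)) ^ r = 0 := by
          rw [← Nat.cast_pow]
          exact ZMod.natCast_self _
        push_cast at h5
        rw [h6, mul_zero, add_zero] at h5
        rw [mul_comm]
        exact h5
      exact (h4.map ψ).ne_zero
  · show e (-1) * ψ ((nm (-1 : OO A B) : ℤ) : ZMod (l ^ r)) = -1
    rw [he.neg, EPSx.nm_neg_one, Int.cast_one, map_one, mul_one]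

end

end Pool.Agent.OTI


end

section

/-!
# OT, block I, module THF: the sums over `Δ` are the sums `SG` (after `Pool/Agent/OB/I_TH.lean`)
-/

set_option autoImplicit false

open NumberField

namespace Pool.Agent.OTI

open _root_.MU3 Pool.Agent.MU3 Pool.Agent.MU3A Pool.Agent.MU3B Pool.Agent.RI Pool.Agent.RID
  Pool.Agent.MUX Pool.Agent.MUXK Pool.Agent.MUXI Pool.Agent.NS Pool.Agent.NSI Pool.Agent.OB
  Pool.Agent.OBI Pool.Agent.OT

noncomputable section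

namespace THFx

/-! ### The sets -/

section

variable {A B : ℤ} {p f n : ℕ} {ι : Type} {R : Reps A B (p * f) ι} {z₀ : ℤ} {G : Type} [Group G]
  {γ : G} {Δ : Subgroup G} {X : G → Set (ι × (OO A B ⧸ idl (A := A) (B := B) (lvX p f n)))}

lemma mem_iff (hM : XMF R p f n z₀ γ Δ X)
    (q : ι × (OO A B ⧸ idl (A := A) (B := B) (lvX p f n))) (j : ℕ) :
    (∃ δ : Δ, q ∈ X (γ ^ j * (δ : G))) ↔
      IsCoprime (Quotient.out q.2 : OO A B) ((lvX p f n : ℕ) : OO A B) ∧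
      ∃ k < p - 1, ((p ^ (n + 1) : ℕ) : ℤ) ∣
        nm (Quotient.out q.2) * nI (R.b q.1) - z₀ ^ k * (1 + (p : ℤ)) ^ j := by
  constructor
  · rintro ⟨δ, hδ⟩
    refine ⟨hM.cop _ _ hδ, (hM.nrm q _ hδ j).1 ?_⟩
    rw [hM.comm (γ ^ j) δ, mul_inv_cancel_right]
    exact δ.2
  · rintro ⟨hc, hC⟩
    obtain ⟨τ, hτ⟩ := hM.ex q hc
    have h1 := (hM.nrm q τ hτ j).2 hC
    refine ⟨⟨_, h1⟩, ?_⟩
    have h2 : γ ^ j * (τ * (γ ^ j)⁻¹) = τ := by
      rw [hM.comm (γ ^ j), inv_mul_cancel_right]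
    rw [h2]
    exact hτ

end

/-- a linear combination of sums -/
lemma comb_sumk {Q : Type} [Finite Q] (m : ℕ) (k : ℂ) (u : ℕ → ℂ) (F : ℕ → Q → ℂ) (G : Q → ℂ)
    (h : ∀ x, G x = k * ∑ i ∈ Finset.range m, u i * F i x) :
    ∑ᶠ x : Q, G x = k * ∑ i ∈ Finset.range m, u i * ∑ᶠ x : Q, F i x := by
  have : Fintype Q := Fintype.ofFinite Q
  rw [finsum_eq_sum_of_fintype, Finset.sum_congr rfl fun x _ => h x, ← Finset.mul_sum,
    Finset.sum_comm]
  congr 1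
  refine Finset.sum_congr rfl fun i _ => ?_
  rw [finsum_eq_sum_of_fintype, Finset.mul_sum]

/-! ### One summand -/

open Classical in
lemma term {p : ℕ} {A B : ℤ} {f : ℕ}
    (hS : SetQ p A B f) (n : ℕ) {z₀ : ℤ} (h2 : Ti_ZAR) (hz : IsZ0 p n z₀)
    {e0 e w : OO A B → ℂ} {t : ℤ → ℂ} {q₁ : ℕ}
    {g : Ideal (OO A B)} (hg : g ≤ idl f)
    (hE : IsEI g e) (hq₁ : q₁ ≠ 0) (ht : IsTw p q₁ t)
    (hes : ∀ x, IsCoprime x ((lvX p f 0 : ℕ) : OO A B) → e0 x * w x = e x * t (nm x))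
    (N : ℕ) (j : ℕ) (kp d c : ℂ) (x : OO A B) :
    (if IsCoprime x ((lvX p f n : ℕ) : OO A B) ∧
      (∃ k < p - 1, ((p ^ (n + 1) : ℕ) : ℤ) ∣ nm x * N - z₀ ^ k * (1 + (p : ℤ)) ^ j) then
      (kp * e0 x) * (w x * c * d) else 0) =
    (kp * c * (t N)⁻¹) * ∑ k ∈ Finset.range (p - 1), t (z₀ ^ k) *
      (if ((p ^ (n + 1) : ℕ) : ℤ) ∣ nm x * N - z₀ ^ k * (1 + (p : ℤ)) ^ j then
        e x * d else 0) := by
  obtain ⟨hz1, hz2, -⟩ := h2 p n hS.pp hS.p2 z₀ hz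
  set T : ℤ := (1 + (p : ℤ)) ^ j with hT
  have hT1 : (p : ℤ) ∣ T - 1 := MUXI.TH.pow_mod _ _
  have hpp : Prime (p : ℤ) := Nat.prime_iff_prime_int.1 hS.pp
  have hM : (p : ℤ) ∣ ((p ^ (n + 1) : ℕ) : ℤ) := ⟨(p : ℤ) ^ n, by push_cast; ring⟩
  have hzk : ∀ k : ℕ, ¬ (p : ℤ) ∣ z₀ ^ k := fun k h1 => hz1 (hpp.dvd_of_dvd_pow h1)
  have hzT : ∀ k : ℕ, (p : ℤ) ∣ z₀ ^ k * T - z₀ ^ k := by
    intro k
    rw [show z₀ ^ k * T - z₀ ^ k = z₀ ^ k * (T - 1) by ring]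
    exact hT1.mul_left _
  have hnt : ∀ k : ℕ, ¬ (p : ℤ) ∣ z₀ ^ k * T := by
    intro k h1
    apply hzk k
    have h3 := dvd_sub h1 (hzT k)
    rwa [sub_sub_cancel] at h3
  -- not prime to the level, then `e x = 0`
  have hzero : ∀ u : ℤ, (p : ℤ) ∣ nm x * N - u → ¬ (p : ℤ) ∣ u →
      ¬ IsCoprime x ((lvX p f n : ℕ) : OO A B) → e x = 0 := by
    intro u hu hnu hnc
    by_contra h0
    apply hnc
    refine OBI.THx.cop_lv hS.pp hS.p2 n x ?_ (OBI.THx.cop_f hg ((hE.supp x).1 h0))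
    intro h1
    apply hnu
    have h2 : (p : ℤ) ∣ nm x * N := h1.mul_right _
    have h4 := dvd_sub h2 hu
    rwa [sub_sub_cancel] at h4
  have hlv : IsCoprime x ((lvX p f n : ℕ) : OO A B) →
      IsCoprime x ((lvX p f 0 : ℕ) : OO A B) := by
    intro h1
    refine h1.of_isCoprime_of_dvd_right ⟨((p ^ n : ℕ) : OO A B), ?_⟩
    unfold lvX
    push_cast
    ring
  by_cases hex : ∃ k < p - 1, ((p ^ (n + 1) : ℕ) : ℤ) ∣ nm x * N - z₀ ^ k * T
  · obtain ⟨k, hk, hkd⟩ := hex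
    have huniq : ∀ i ∈ Finset.range (p - 1), i ≠ k →
        t (z₀ ^ i) * (if ((p ^ (n + 1) : ℕ) : ℤ) ∣ nm x * N - z₀ ^ i * T then
          e x * d else 0) = 0 := by
      intro i hi hik
      rw [if_neg, mul_zero]
      intro hid
      apply hik
      refine hz2 i k (Finset.mem_range.1 hi) hk ?_
      have h3 := hM.trans (dvd_sub hkd hid)
      have h4 := dvd_sub h3 (dvd_sub (hzT i) (hzT k))
      rwa [show nm x * N - z₀ ^ k * T - (nm x * N - z₀ ^ i * T) -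
        (z₀ ^ i * T - z₀ ^ i - (z₀ ^ k * T - z₀ ^ k)) = z₀ ^ i - z₀ ^ k by ring] at h4
    rw [Finset.sum_eq_single_of_mem k (Finset.mem_range.2 hk) huniq, if_pos hkd]
    by_cases hc : IsCoprime x ((lvX p f n : ℕ) : OO A B)
    · rw [if_pos ⟨hc, k, hk, hkd⟩]
      have h3 := hes x (hlv hc)
      have h4 : t (nm x) * t N = t (z₀ ^ k) := by
        rw [← ht.mul]
        apply ht.per
        have h7 := dvd_add (hM.trans hkd) (hzT k)
        rwa [sub_add_sub_cancel] at h7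
      have hN0 : t N ≠ 0 := by
        intro h0
        rw [h0, mul_zero] at h4
        have h5 := ht.pow _ (hzk k)
        rw [← h4, zero_pow hq₁] at h5
        exact zero_ne_one h5
      have h5 : t (nm x) = t (z₀ ^ k) * (t N)⁻¹ := by
        rw [← h4, mul_assoc, mul_inv_cancel₀ hN0, mul_one]
      rw [h5] at h3
      linear_combination (kp * c * d) * h3
    · rw [if_neg (fun h3 => hc h3.1), hzero _ (hM.trans hkd) (hnt k) hc, zero_mul, mul_zero,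
        mul_zero]
  · rw [if_neg (fun h3 => hex h3.2), Finset.sum_eq_zero, mul_zero]
    intro i hi
    rw [if_neg, mul_zero]
    intro hid
    exact hex ⟨i, Finset.mem_range.1 hi, hid⟩

end THFx

/-- (THF) the sums over `Δ` are the sums `SG` -/
theorem ti_THF (h1 : Oi_TSH) (h2 : Ti_ZAR) : Ti_THF := by
  classical
  intro p A B f hS g hlv hg ι _ R n z₀ hz G _ _ γ Δ _ X hM χ e0 kp c w e t q₁ hq₁ ht hE
    hes hχ j
  have hfin : Finite (OO A B ⧸ idl (A := A) (B := B) (lvX p f n)) :=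
    MUXI.TH.finR _ (OBI.THx.lvX_ne hS n)
  rw [MUXI.TH.sum_disj (fun δ : Δ => X (γ ^ j * (δ : G)))
    (fun q δ δ' h2 h4 => Subtype.ext (mul_left_cancel (hM.uniq q _ _ h2 h4)))
    (fun δ => (((χ δ)⁻¹ : ℂˣ) : ℂ)) _ (fun q => kp q.1 * e0 (Quotient.out q.2))
    (fun δ q hq => hχ δ j q hq)]
  have hind : ∀ q : ι × (OO A B ⧸ idl (A := A) (B := B) (lvX p f n)),
      (if ∃ δ : Δ, q ∈ X (γ ^ j * (δ : G)) then
        kp q.1 * e0 (Quotient.out q.2) * (w (Quotient.out q.2) *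
        c q.1 * dlX (R.L q.1) (aX p f) (pt R (lvX p f n) q.1 (Quotient.out q.2))) else 0) =
      kp q.1 * c q.1 * (t (nI (R.b q.1)))⁻¹ * ∑ k ∈ Finset.range (p - 1), t (z₀ ^ k) *
      (if ((p ^ (n + 1) : ℕ) : ℤ) ∣ nm (Quotient.out q.2) * nI (R.b q.1) -
          z₀ ^ k * (1 + (p : ℤ)) ^ j then
        e (Quotient.out q.2) * dlX (R.L q.1) (aX p f)
          (pt R (lvX p f n) q.1 (Quotient.out q.2)) else 0) := by
    intro q
    rw [if_congr (THFx.mem_iff hM q j) rfl rfl]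
    exact THFx.term hS n h2 hz hg hE hq₁ ht hes _ j _ _ _ _
  rw [finsum_congr hind, MUXI.TH.sum_pairs]
  have hsum : ∀ i : ι, ∑ᶠ x : OO A B ⧸ idl (A := A) (B := B) (lvX p f n),
      kp i * c i * (t (nI (R.b i)))⁻¹ * ∑ k ∈ Finset.range (p - 1), t (z₀ ^ k) *
      (if ((p ^ (n + 1) : ℕ) : ℤ) ∣ nm (Quotient.out x) * nI (R.b i) -
          z₀ ^ k * (1 + (p : ℤ)) ^ j then
        e (Quotient.out x) * dlX (R.L i) (aX p f)
          (pt R (lvX p f n) i (Quotient.out x)) else 0) =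
      ∑ k ∈ Finset.range (p - 1), t (z₀ ^ k) * (kkT R kp c t i *
        ((aX p f : ℂ) * SnX R (lvX p f n) (p ^ (n + 1)) e i
          ((aX p f : ℤ) ^ 2 * (z₀ ^ k * (1 + (p : ℤ)) ^ j)) -
        (aX p f : ℂ) ^ 2 * SnX R (lvX p f n) (p ^ (n + 1)) e i
          (z₀ ^ k * (1 + (p : ℤ)) ^ j))) := by
    intro i
    rw [THFx.comb_sumk (Q := OO A B ⧸ idl (A := A) (B := B) (lvX p f n)) (p - 1) _ _ _ _
      (fun x => rfl), Finset.mul_sum]
    refine Finset.sum_congr rfl fun k _ => ?_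
    have hT := h1 p A B f hS g hlv ι R n e hE i (z₀ ^ k * (1 + (p : ℤ)) ^ j)
    rw [← hT]
    have hmu := OBI.THx.muX_ne hS R i
    unfold kkT sumMod
    field_simp
  rw [Finset.sum_congr rfl fun i _ => hsum i]
  unfold SG STX
  simp_rw [Finset.mul_sum]
  rw [Finset.sum_comm]

end

end Pool.Agent.OTI


end

section

/-!
# OT, block I: module Z0, existence of `z₀`

`z₀ = g^(p^n)` for a generator `g` of `(ZMod p)ˣ`.
-/

set_option autoImplicit false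

namespace Pool.Agent.OTI

open Pool.Agent.OT

theorem ti_Z0 : Ti_Z0 := by
  intro p hp _ n
  have : Fact p.Prime := ⟨hp⟩
  obtain ⟨g, hg⟩ := IsCyclic.exists_generator (α := (ZMod p)ˣ)
  set z : ℤ := (((g : ZMod p)).val : ℤ) with hz
  have hzc : ((z : ℤ) : ZMod p) = (g : ZMod p) := by
    rw [hz]; simp
  have hpow : ∀ m : ℕ, (((z ^ (p ^ m) : ℤ)) : ZMod p) = (g : ZMod p) := by
    intro m
    rw [Int.cast_pow, hzc]
    exact ZMod.pow_card_pow _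
  have hcard : Fintype.card (ZMod p)ˣ = p - 1 := ZMod.card_units p
  have h1 : (p : ℤ) ∣ z ^ (p - 1) - 1 := by
    rw [← ZMod.intCast_zmod_eq_zero_iff_dvd, Int.cast_sub, Int.cast_pow, hzc, Int.cast_one,
      ZMod.pow_card_sub_one_eq_one (Units.ne_zero g), sub_self]
  refine ⟨z ^ (p ^ n), ⟨?_, ?_⟩⟩
  · have h2 := dvd_sub_pow_of_dvd_sub (R := ℤ) (p := p) h1 n
    rw [← pow_mul, mul_comm, pow_mul]
    simpa using h2
  · intro a ha
    have ha0 : ((a : ℤ) : ZMod p) ≠ 0 := by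
      rw [Ne, ZMod.intCast_zmod_eq_zero_iff_dvd]; exact ha
    obtain ⟨u, hu⟩ : ∃ u : (ZMod p)ˣ, (u : ZMod p) = (a : ZMod p) := ⟨Units.mk0 _ ha0, rfl⟩
    have hmem := hg u
    rw [mem_zpowers_iff_mem_range_orderOf] at hmem
    simp only [Finset.mem_image, Finset.mem_range] at hmem
    obtain ⟨k, hk, hku⟩ := hmem
    rw [orderOf_eq_card_of_forall_mem_zpowers hg, Nat.card_eq_fintype_card, hcard] at hk
    refine ⟨k, hk, ?_⟩
    rw [← ZMod.intCast_zmod_eq_zero_iff_dvd, Int.cast_sub, Int.cast_pow, hpow n, ← hu, ← hku,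
      Units.val_pow_eq_pow_val, sub_self]

end Pool.Agent.OTI


end

section

/-!
# OT, block I: the module ZAR (arithmetic of `z₀`)
-/

set_option autoImplicit false

namespace Pool.Agent.OTI

open Pool.Agent.OT

namespace ZARx

theorem not_dvd {p n : ℕ} (hp : p.Prime) {z₀ : ℤ} (h : IsZ0 p n z₀) : ¬ (p : ℤ) ∣ z₀ := by
  intro hd
  have h1 : (p : ℤ) ∣ z₀ ^ (p - 1) := dvd_pow hd (by have := hp.two_le; omega)
  have h2 : (p : ℤ) ∣ z₀ ^ (p - 1) - 1 :=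
    (by exact_mod_cast dvd_pow_self (p : ℤ) (Nat.succ_ne_zero n) :
      (p : ℤ) ∣ ((p ^ (n + 1) : ℕ) : ℤ)).trans h.one
  have h3 : (p : ℤ) ∣ 1 := by
    have := dvd_sub h1 h2
    simpa using this
  exact (Nat.prime_iff_prime_int.1 hp).not_dvd_one h3

theorem inj {p n : ℕ} (hp : p.Prime) {z₀ : ℤ} (h : IsZ0 p n z₀) (k k' : ℕ) (hk : k < p - 1)
    (hk' : k' < p - 1) (hd : (p : ℤ) ∣ z₀ ^ k - z₀ ^ k') : k = k' := by
  haveI : Fact p.Prime := ⟨hp⟩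
  have hz : ((z₀ : ℤ) : ZMod p) ≠ 0 := by
    rw [Ne, ZMod.intCast_zmod_eq_zero_iff_dvd]
    exact not_dvd hp h
  obtain ⟨u, hu⟩ : ∃ u : (ZMod p)ˣ, (u : ZMod p) = ((z₀ : ℤ) : ZMod p) := ⟨Units.mk0 _ hz, rfl⟩
  have hsur : Function.Surjective (fun i : Fin (p - 1) => u ^ (i : ℕ)) := by
    intro v
    have hv : ¬ (p : ℤ) ∣ (((v : ZMod p).val : ℕ) : ℤ) := by
      rw [← ZMod.intCast_zmod_eq_zero_iff_dvd]
      have h1 : ((((v : ZMod p).val : ℕ) : ℤ) : ZMod p) = v := by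
        rw [Int.cast_natCast, ZMod.natCast_zmod_val]
      rw [h1]
      exact v.ne_zero
    obtain ⟨i, hi, hdi⟩ := h.gen _ hv
    refine ⟨⟨i, hi⟩, ?_⟩
    apply Units.ext
    show ((u ^ i : (ZMod p)ˣ) : ZMod p) = v
    rw [Units.val_pow_eq_pow_val, hu]
    have h2 := (ZMod.intCast_zmod_eq_zero_iff_dvd _ p).2 hdi
    rw [Int.cast_sub, Int.cast_natCast, ZMod.natCast_zmod_val, Int.cast_pow] at h2
    exact (sub_eq_zero.1 h2).symm
  have hbij : Function.Bijective (fun i : Fin (p - 1) => u ^ (i : ℕ)) := by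
    rw [Fintype.bijective_iff_surjective_and_card]
    exact ⟨hsur, by rw [Fintype.card_fin, ZMod.card_units]⟩
  have h3 : (fun i : Fin (p - 1) => u ^ (i : ℕ)) ⟨k, hk⟩ =
      (fun i : Fin (p - 1) => u ^ (i : ℕ)) ⟨k', hk'⟩ := by
    apply Units.ext
    show ((u ^ k : (ZMod p)ˣ) : ZMod p) = ((u ^ k' : (ZMod p)ˣ) : ZMod p)
    rw [Units.val_pow_eq_pow_val, Units.val_pow_eq_pow_val, hu]
    have h4 := (ZMod.intCast_zmod_eq_zero_iff_dvd _ p).2 hd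
    rw [Int.cast_sub, Int.cast_pow, Int.cast_pow] at h4
    exact sub_eq_zero.1 h4
  exact congrArg Fin.val (hbij.1 h3)

theorem main {p n : ℕ} (hp : p.Prime) {z₀ : ℤ} (h : IsZ0 p n z₀) (N : ℤ) (j : ℕ)
    (hN : ¬ (p : ℤ) ∣ N) :
    (((p ^ (n + 1) : ℕ) : ℤ) ∣ N ^ (p - 1) - ((1 + (p : ℤ)) ^ j) ^ (p - 1) ↔
      ∃ k < p - 1, ((p ^ (n + 1) : ℕ) : ℤ) ∣ N - z₀ ^ k * (1 + (p : ℤ)) ^ j) := by
  have hp' : Prime (p : ℤ) := Nat.prime_iff_prime_int.1 hp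
  have hone : z₀ ^ (p - 1) ≡ 1 [ZMOD ((p ^ (n + 1) : ℕ) : ℤ)] :=
    (Int.modEq_iff_dvd.2 h.one).symm
  have hy : ∀ k : ℕ, (z₀ ^ k * (1 + (p : ℤ)) ^ j) ^ (p - 1) ≡ ((1 + (p : ℤ)) ^ j) ^ (p - 1)
      [ZMOD ((p ^ (n + 1) : ℕ) : ℤ)] := by
    intro k
    have h1 : (z₀ ^ k * (1 + (p : ℤ)) ^ j) ^ (p - 1) =
        (z₀ ^ (p - 1)) ^ k * ((1 + (p : ℤ)) ^ j) ^ (p - 1) := by
      rw [mul_pow, ← pow_mul z₀, mul_comm k, pow_mul z₀]
    rw [h1]
    have h2 := (hone.pow k).mul_right (((1 + (p : ℤ)) ^ j) ^ (p - 1))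
    rwa [one_pow, one_mul] at h2
  constructor
  · intro hd
    obtain ⟨k, hk, hdk⟩ := h.gen N hN
    refine ⟨k, hk, ?_⟩
    have hT : (p : ℤ) ∣ (1 + (p : ℤ)) ^ j - 1 := by
      have h1 : (1 + (p : ℤ)) - 1 ∣ (1 + (p : ℤ)) ^ j - 1 ^ j := sub_dvd_pow_sub_pow _ _ j
      rw [one_pow] at h1
      have h2 : (1 + (p : ℤ)) - 1 = p := by ring
      rwa [h2] at h1
    have hxy : (p : ℤ) ∣ N - z₀ ^ k * (1 + (p : ℤ)) ^ j := by
      have h1 := dvd_sub hdk (hT.mul_left (z₀ ^ k))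
      have h2 : N - z₀ ^ k - z₀ ^ k * ((1 + (p : ℤ)) ^ j - 1) =
          N - z₀ ^ k * (1 + (p : ℤ)) ^ j := by ring
      rwa [h2] at h1
    have hpn : ¬ (p : ℤ) ∣ ((p - 1 : ℕ) : ℤ) := by
      intro h1
      have h2 := Int.natCast_dvd_natCast.1 h1
      have h3 := hp.two_le
      exact absurd (Nat.le_of_dvd (by omega) h2) (by omega)
    have hmul := emultiplicity_pow_sub_pow_of_prime hp' hxy hN hpn
    have hd2 : ((p ^ (n + 1) : ℕ) : ℤ) ∣ N ^ (p - 1) - (z₀ ^ k * (1 + (p : ℤ)) ^ j) ^ (p - 1) := by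
      have h1 := (hy k)
      have h2 := dvd_add hd h1.dvd
      have h3 : N ^ (p - 1) - ((1 + (p : ℤ)) ^ j) ^ (p - 1) +
          (((1 + (p : ℤ)) ^ j) ^ (p - 1) - (z₀ ^ k * (1 + (p : ℤ)) ^ j) ^ (p - 1)) =
          N ^ (p - 1) - (z₀ ^ k * (1 + (p : ℤ)) ^ j) ^ (p - 1) := by ring
      rwa [h3] at h2
    rw [Nat.cast_pow] at hd2 ⊢
    rw [pow_dvd_iff_le_emultiplicity] at hd2 ⊢
    rwa [hmul] at hd2
  · rintro ⟨k, -, hd⟩
    have h1 : z₀ ^ k * (1 + (p : ℤ)) ^ j ≡ N [ZMOD ((p ^ (n + 1) : ℕ) : ℤ)] :=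
      Int.modEq_iff_dvd.2 hd
    have h2 := (h1.pow (p - 1)).symm.trans (hy k)
    exact (Int.modEq_iff_dvd.1 h2.symm)

end ZARx

theorem ti_ZAR : Ti_ZAR := fun _ _ hp _ _ h =>
  ⟨ZARx.not_dvd hp h, fun k k' hk hk' hd => ZARx.inj hp h k k' hk hk' hd,
    fun N j hN => ZARx.main hp h N j hN⟩

end Pool.Agent.OTI


end

section

/-!
# OT, block HB (helper31): `Ob_EPS`, the twist of `e` by a character of the norm
-/

set_option autoImplicit false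

namespace Pool.Agent.OT

open _root_.MU3 _root_.Pool.Agent.MU3A _root_.Pool.Agent.MU3B _root_.Pool.Agent.MU3F
  _root_.Pool.Agent.MUX _root_.Pool.Agent.MuSym _root_.Pool.Agent.OB _root_.Pool.Agent.OBH OnePoint

namespace EPS

variable {A B : ℤ}

lemma nm_congr (m : ℕ) (x y : OO A B) (h : ((m : ℕ) : OO A B) ∣ x - y) :
    (m : ℤ) ∣ nm x - nm y := by
  obtain ⟨z, hz⟩ := h
  have hx : x = y + ((m : ℕ) : OO A B) * z := by rw [← hz]; ring
  have hre : x.re = y.re + (m : ℤ) * z.re := by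
    rw [hx]
    simp only [QuadraticAlgebra.re_add, QuadraticAlgebra.re_mul, QuadraticAlgebra.re_natCast,
      QuadraticAlgebra.im_natCast]
    ring
  have him : x.im = y.im + (m : ℤ) * z.im := by
    rw [hx]
    simp only [QuadraticAlgebra.im_add, QuadraticAlgebra.im_mul, QuadraticAlgebra.re_natCast,
      QuadraticAlgebra.im_natCast]
    ring
  refine ⟨z.re * (2 * y.re + m * z.re) + B * (y.re * z.im + z.re * y.im + m * z.re * z.im) -
    A * (z.im * (2 * y.im + m * z.im)), ?_⟩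
  unfold nm
  rw [hre, him]
  ring

lemma psi_congr {q : ℕ} (ψ : DirichletCharacter ℂ q) (x y : OO A B)
    (h : ((q : ℕ) : OO A B) ∣ x - y) : ψ (nm x) = ψ (nm y) := by
  have h1 : ((nm x : ℤ) : ZMod q) = ((nm y : ℤ) : ZMod q) := by
    rw [← sub_eq_zero, ← Int.cast_sub, ZMod.intCast_zmod_eq_zero_iff_dvd]
    exact nm_congr q x y h
  rw [h1]

lemma nm_one' : nm (1 : OO A B) = 1 := by
  unfold nm
  rw [QuadraticAlgebra.re_one, QuadraticAlgebra.im_one]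
  ring

lemma nm_neg_one : nm (-1 : OO A B) = 1 := by
  unfold nm
  rw [QuadraticAlgebra.re_neg, QuadraticAlgebra.im_neg, QuadraticAlgebra.re_one,
    QuadraticAlgebra.im_one]
  ring

lemma idl_mul (a b : ℕ) : idl (A := A) (B := B) (a * b) = idl a * idl b := by
  unfold idl
  rw [Ideal.span_singleton_mul_span_singleton, Nat.cast_mul]

lemma idl_pow (a r : ℕ) : idl (A := A) (B := B) (a ^ r) = idl a ^ r := by
  unfold idl
  rw [Ideal.span_singleton_pow, Nat.cast_pow]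

lemma cop_iff (p l f' r : ℕ) (x : OO A B) :
    IsCoprime (sp x) (idl (A := A) (B := B) (p * (l * f'))) ↔
      IsCoprime (sp x) (idl (A := A) (B := B) (p * (l * f' * l ^ r))) := by
  have e1 : p * (l * f' * l ^ r) = p * (l * f') * l ^ r := by ring
  have e2 : p * (l * f') = l * (p * f') := by ring
  rw [e1, idl_mul (p * (l * f')), idl_pow, IsCoprime.mul_right_iff]
  constructor
  · intro h
    refine ⟨h, IsCoprime.pow_right ?_⟩
    rw [e2, idl_mul, IsCoprime.mul_right_iff] at h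
    exact h.1
  · intro h
    exact h.1

lemma psi_ne {q r l : ℕ} (hl : l.Prime) (hq : q = l ^ r) (ψ : DirichletCharacter ℂ q) (a : ℤ)
    (h : ¬ (l : ℤ) ∣ a) : ψ a ≠ 0 := by
  subst hq
  have h2 : IsUnit ((a : ℤ) : ZMod (l ^ r)) := by
    rw [ZMod.coe_int_isUnit_iff_isCoprime]
    have h3 : IsCoprime (l : ℤ) a :=
      (Prime.coprime_iff_not_dvd (Nat.prime_iff_prime_int.1 hl)).2 h
    rw [Nat.cast_pow]
    exact h3.pow_left
  exact (h2.map ψ).ne_zero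

end EPS

open _root_.Pool.Agent.OT.EPS in
/-- (EPS) the twist of `e` by a character of the norm -/
theorem ob_EPS : Ob_EPS := by
  intro A B hAB p f l r hp hf hl hlf e he ψ
  obtain ⟨f', rfl⟩ := hlf
  have hnm1 : nm (1 : OO A B) = 1 := nm_one'
  have hnmn : nm (-1 : OO A B) = 1 := nm_neg_one
  refine ⟨?_, ?_, ?_, ?_, ?_⟩
  · show e 1 * ψ (nm (1 : OO A B)) = 1
    rw [he.one, hnm1, Int.cast_one, map_one, mul_one]
  · intro x y
    show e (x * y) * ψ (nm (x * y)) = e x * ψ (nm x) * (e y * ψ (nm y))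
    rw [he.mul, QBO.nm_mul', Int.cast_mul, map_mul]
    ring
  · intro x y hxy
    rw [Ideal.mem_span_singleton] at hxy
    show e x * ψ (nm x) = e y * ψ (nm y)
    have h1 : e x = e y := by
      apply he.per
      rw [Ideal.mem_span_singleton]
      refine dvd_trans ⟨((l ^ r : ℕ) : OO A B), ?_⟩ hxy
      push_cast
      ring
    have h2 : ψ (nm x) = ψ (nm y) := by
      apply psi_congr
      refine dvd_trans ⟨((p * (l * f') : ℕ) : OO A B), ?_⟩ hxy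
      push_cast
      ring
    rw [h1, h2]
  · intro x
    rw [← cop_iff]
    constructor
    · intro h
      exact (he.supp x).1 (left_ne_zero_of_mul h)
    · intro h
      have hex := (he.supp x).2 h
      refine mul_ne_zero hex ?_
      have he' : IsEI (idl (A := A) (B := B) (l * (p * f'))) e := by
        have h0 : l * (p * f') = p * (l * f') := by ring
        rw [h0]
        exact he
      exact psi_ne hl rfl ψ _ (QBO.not_dvd hl he' hex)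
  · show e (-1) * ψ (nm (-1 : OO A B)) = -1
    rw [he.neg, hnmn, Int.cast_one, map_one, mul_one]

end Pool.Agent.OT


end

section

/-!
# OT, block HB: the hypotheses of the abstract theorem (module HT, helper52)
-/

set_option autoImplicit false

namespace Pool.Agent.OT

open _root_.MU3 _root_.Pool.Agent.MU3A _root_.Pool.Agent.MU3B _root_.Pool.Agent.MU3F
  _root_.Pool.Agent.MUX _root_.Pool.Agent.MuSym _root_.Pool.Agent.OB _root_.Pool.Agent.OBH OnePoint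

noncomputable section

namespace HT

lemma sq_m1 {p q : ℕ} {t : ℤ → ℂ} (ht : IsTw p q t) : t (-1) = 1 ∨ t (-1) = -1 := by
  have h : t (-1) * t (-1) = 1 := by
    rw [← ht.mul, neg_mul_neg, one_mul, ht.one]
  exact mul_self_eq_one_iff.1 h

lemma alg_root {r : ℕ} (hr : r ≠ 0) {z : ℂ} (hz : z = 0 ∨ z ^ r = 1) : IsAlgebraic ℚ z := by
  rcases hz with rfl | hz
  · exact isAlgebraic_zero
  · exact (IsIntegral.of_pow (Nat.pos_of_ne_zero hr) (by rw [hz]; exact isIntegral_one)).isAlgebraic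

end HT

open _root_.Pool.Agent.OT.HT in
/-- (HT) the hypotheses of the abstract theorem -/
theorem ob_HT (h1 : Ob_ND) (h2 : Ob_HT1) (h3 : Ob_HT2) (h4 : Ob_HT3) (h5 : So_RAM) (h6 : So_VAL)
    (h7 : So_CHR) (h8 : So_UAL) : Ob_HT := by
  intro p er A B P V f hS hT ι _ R u el lam hg w hw e he r hrp her i hi1 hi2 hty t ht kk hkk l hl
    hlf n hn z₀ hz ξ hξ
  have hr0 : r ≠ 0 := by
    rintro rfl
    exact hrp (dvd_zero p)
  have pp : p.Prime := hS.pp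
  have p5 : 5 ≤ p := hS.p5
  have p2 : p ≠ 2 := by omega
  obtain ⟨vp, -, -, -, -, -, -, -, -, -, hN0, -, -, -⟩ := h6 p er A B P V f hS
  obtain ⟨hnu1, -, hnuper, hnuv⟩ := h7 p er A B P V f hS e he r hr0 her
  obtain ⟨r1, -, -⟩ := h5 p er A B P V hS.toCaseO
  have hs := sq_m1 ht
  have hua : IsAlgebraic ℚ u := h8 A B hS.cq hT (p * f) ι R V u el lam hg
  obtain ⟨hsym, halg, hbdd⟩ := h2 p er A B P V f hS hT ι R e he r hr0 her kk hkk u hg.u0 hua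
    (t (-1)) hs z₀
  obtain ⟨hneg, hperk⟩ := h3 p er n z₀ pp p2 hz A B (p * f) ι R e kk (t (-1)) u hs
  refine
    { pp := pp
      p5 := p5
      vp := vp
      n5 := hn
      N0 := mul_ne_zero (pow_ne_zero _ pp.ne_zero) hN0
      nu1 := hnu1
      nuv := hnuv
      nua := ?_
      nuper := ?_
      s1 := hs
      z0 := hz
      tw := ⟨nI P - 1, ?_, ht⟩
      ts := rfl
      xi := hξ
      sym := hsym
      alg := halg
      bdd := hbdd
      neg := hneg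
      perk := hperk
      dep := fun k x => h4 A B hS.cq p er f l pp.ne_zero hS.f0 hl hlf ι R e he kk (t (-1)) u z₀ k x
      nd := h1 p er A B P V f hS hT ι R u el lam hg w hw e he r hrp her i hi1 hi2 hty (t (-1)) hs kk
        hkk z₀ n (by omega) ξ hξ }
  · intro d
    unfold nuX
    refine IsAlgebraic.mul ?_ (alg_root hr0 ?_)
    · exact isAlgebraic_intCast _
    · by_cases h : e (d : OO A B) = 0
      · exact Or.inl h
      · exact Or.inr (her _ h)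
  · intro d d' h
    refine hnuper d d' (dvd_trans ?_ h)
    rw [Int.natCast_dvd_natCast]
    exact Nat.mul_dvd_mul_right (dvd_pow_self p (by omega)) (N0O p er A B f)
  · intro h
    have h9 : p ∣ nI P := by
      rcases r1 with h' | h'
      · rw [h']
      · rw [h']
        exact dvd_pow_self p two_ne_zero
    have h10 : 1 ≤ nI P := by
      rcases r1 with h' | h'
      · rw [h']
        exact pp.one_lt.le
      · rw [h']
        exact Nat.one_le_pow _ _ pp.pos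
    have h11 := (Nat.dvd_sub_iff_right h10 h9).1 h
    exact pp.one_lt.ne' (Nat.dvd_one.1 h11)

end

end Pool.Agent.OT


end

section

/-!
# OT, block HB, module HT2 (helper22): `ι^*` and the period in `k`
-/

set_option autoImplicit false

namespace Pool.Agent.OT

open _root_.MU3 _root_.Pool.Agent.MU3A _root_.Pool.Agent.MU3B _root_.Pool.Agent.MU3F
  _root_.Pool.Agent.MUX _root_.Pool.Agent.MuSym _root_.Pool.Agent.OB _root_.Pool.Agent.OBH OnePoint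

noncomputable section

namespace HT2

/-- the involution -/
theorem mob_mob (x : OnePoint ℚ) : mob (-1) 0 0 1 (mob (-1) 0 0 1 x) = x := by
  induction x using OnePoint.rec with
  | infty =>
    have h : mob (-1) 0 0 1 (∞ : OnePoint ℚ) = ∞ := by
      unfold mob
      rw [OnePoint.elim_infty]
      simp
    rw [h, h]
  | coe r =>
    have h : ∀ y : ℚ, mob (-1) 0 0 1 (y : OnePoint ℚ) = ((-y : ℚ) : OnePoint ℚ) := by
      intro y
      unfold mob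
      rw [OnePoint.elim_some]
      simp
    rw [h, h, neg_neg]

/-- the weights depend only on `d` modulo `p` -/
theorem kkE_congr {A B : ℤ} {n : ℕ} {ι : Type} (er p : ℕ) (R : Reps A B n ι) (kk : ι → ℂ)
    {d d' : ℤ} (h : (p : ℤ) ∣ d - d') : kkE er p R kk d = kkE er p R kk d' := by
  unfold kkE
  split_ifs with h1
  · rfl
  · funext i
    unfold kkJ
    have h2 : (d * (nI (R.b i) : ℤ)) % (p : ℤ) = (d' * (nI (R.b i) : ℤ)) % (p : ℤ) := by
      apply Int.ModEq.mul_right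
      exact (Int.modEq_iff_dvd.2 (by
        obtain ⟨c, hc⟩ := h
        exact ⟨-c, by linear_combination -hc⟩))
    have h3 : jacobiSym (d * (nI (R.b i) : ℤ)) p = jacobiSym (d' * (nI (R.b i) : ℤ)) p :=
      jacobiSym.mod_left' h2
    rw [h3]

end HT2

open _root_.Pool.Agent.OT.HT2 in
/-- (HT2) `ι^*` and the period in `k` -/
theorem ob_HT2 (hZC : Ob_ZC) : Ob_HT2 := by
  intro p er n z₀ hp hp2 hz A B n' ι _ R e kk s u hs
  obtain ⟨-, h2, -⟩ := hZC p n z₀ hp hp2 hz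
  have hpM : (p : ℤ) ∣ ((p ^ (n + 1) : ℕ) : ℤ) := by
    rw [Nat.cast_pow]
    exact dvd_pow_self _ (Nat.succ_ne_zero n)
  have h3 : (p : ℤ) ∣ z₀ ^ ((p - 1) / 2) + 1 := hpM.trans h2
  have h4 : (p : ℤ) ∣ z₀ ^ (p - 1) - 1 := hpM.trans hz.one
  have hs2 : s * s = 1 := by rcases hs with rfl | rfl <;> norm_num
  refine ⟨fun k x y => ?_, fun k => ?_⟩
  · have e1 : kkE er p R kk (z₀ ^ (k + (p - 1) / 2)) = kkE er p R kk (-z₀ ^ k) :=
      kkE_congr er p R kk (by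
        rw [pow_add]
        exact (h3.mul_left (z₀ ^ k)).trans (dvd_of_eq (by ring)))
    have e2 : kkE er p R kk (-z₀ ^ (k + (p - 1) / 2)) = kkE er p R kk (z₀ ^ k) :=
      kkE_congr er p R kk (by
        rw [pow_add]
        exact (h3.mul_left (-z₀ ^ k)).trans (dvd_of_eq (by ring)))
    unfold QT
    rw [e1, e2, mob_mob, mob_mob]
    linear_combination (-(PhiK R e (kkE er p R kk (z₀ ^ k)) (mob (-1) 0 0 1 x)
      (mob (-1) 0 0 1 y) / (u * R.om R.i0))) * hs2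
  · have e1 : kkE er p R kk (z₀ ^ (k + (p - 1))) = kkE er p R kk (z₀ ^ k) :=
      kkE_congr er p R kk (by
        rw [pow_add]
        exact (h4.mul_left (z₀ ^ k)).trans (dvd_of_eq (by ring)))
    have e2 : kkE er p R kk (-z₀ ^ (k + (p - 1))) = kkE er p R kk (-z₀ ^ k) :=
      kkE_congr er p R kk (by
        rw [pow_add]
        exact (h4.mul_left (-z₀ ^ k)).trans (dvd_of_eq (by ring)))
    funext x y
    unfold QT
    rw [e1, e2]

end

end Pool.Agent.OT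


end

section

/-!
# OT, block HB, module HT3 (helper22): depletion at `l`
-/

set_option autoImplicit false

namespace Pool.Agent.OT

open _root_.MU3 _root_.Pool.Agent.MU3A _root_.Pool.Agent.MU3B _root_.Pool.Agent.MU3F
  _root_.Pool.Agent.MUX _root_.Pool.Agent.MuSym _root_.Pool.Agent.OB _root_.Pool.Agent.OBH OnePoint

noncomputable section

namespace HT3

theorem mob_neg (y : ℚ) : mob (-1) 0 0 1 (y : OnePoint ℚ) = ((-y : ℚ) : OnePoint ℚ) := by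
  unfold mob
  rw [OnePoint.elim_some]
  simp

theorem mob_inf : mob (-1) 0 0 1 (∞ : OnePoint ℚ) = ∞ := by
  unfold mob
  rw [OnePoint.elim_infty]
  simp

/-- depletion for `PhiK` -/
theorem dep {A B : ℤ} (hc : CQ A B) {n : ℕ} (hn : n ≠ 0) {ι : Type} [Fintype ι]
    (R : Reps A B n ι) (e : OO A B → ℂ) (he : IsEI (idl (A := A) (B := B) n) e) (wt : ι → ℂ)
    (l : ℕ) (hl : l.Prime) (hln : l ∣ n) (x : ℚ) :
    ∑ j ∈ Finset.range l, PhiK R e wt ∞ ((x + (j : ℚ) / l : ℚ) : OnePoint ℚ) = 0 := by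
  have hb : idl (A := A) (B := B) n ≠ ⊥ := by
    rw [Ne, Ideal.span_singleton_eq_bot]
    intro h
    have h1 := congrArg QuadraticAlgebra.re h
    rw [QuadraticAlgebra.re_natCast] at h1
    exact hn (by exact_mod_cast h1)
  have hgl : idl n ≤ Ideal.span {((l : ℕ) : OO A B)} := by
    rw [Ideal.span_singleton_le_span_singleton]
    obtain ⟨k, hk⟩ := hln
    refine ⟨(k : OO A B), ?_⟩
    rw [hk]
    push_cast
    rfl
  unfold PhiK
  rw [Finset.sum_comm]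
  refine Finset.sum_eq_zero fun i _ => ?_
  rw [← Finset.mul_sum, Pool.Agent.TWB.t_DPL A B hc _ _ e l (R.nl i).b_ne hb he hl hgl x, mul_zero]

end HT3

open _root_.Pool.Agent.OT.HT3 in
/-- (HT3) depletion at `l` -/
theorem ob_HT3 : Ob_HT3 := by
  intro A B hc p er f l hp hf hl hlf ι _ R e he kk s u z₀ k x
  have hn : p * f ≠ 0 := mul_ne_zero hp hf
  have hln : l ∣ p * f := hlf.mul_left p
  have hl0 : (l : ℚ) ≠ 0 := by exact_mod_cast hl.ne_zero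
  have h1 := dep hc hn R e he (kkE er p R kk (z₀ ^ k)) l hl hln x
  have h2 : ∑ j ∈ Finset.range l, PhiK R e (kkE er p R kk (-z₀ ^ k)) (mob (-1) 0 0 1 ∞)
      (mob (-1) 0 0 1 ((x + (j : ℚ) / l : ℚ) : OnePoint ℚ)) = 0 := by
    have h3 := dep hc hn R e he (kkE er p R kk (-z₀ ^ k)) l hl hln (-x - (l - 1) / l)
    rw [← Finset.sum_range_reflect] at h3
    rw [← h3]
    refine Finset.sum_congr rfl fun j hj => ?_
    have hj' : j < l := Finset.mem_range.1 hj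
    have hc : ((l - 1 - j : ℕ) : ℚ) = (l : ℚ) - 1 - j := by
      rw [Nat.sub_sub, Nat.cast_sub (by omega)]
      push_cast
      ring
    rw [mob_inf, mob_neg, hc]
    congr 2
    field_simp
    ring
  unfold QT
  rw [← Finset.sum_div, Finset.sum_add_distrib, ← Finset.mul_sum, h1, h2, mul_zero, add_zero,
    zero_div]

end

end Pool.Agent.OT


end

section

/-!
# OT, block HB, module SGP (helper88): the sums of the final statement as values of `PV`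
-/

set_option autoImplicit false

namespace Pool.Agent.OT

open _root_.MU3 _root_.Pool.Agent.MU3A _root_.Pool.Agent.MU3B _root_.Pool.Agent.MU3F
  _root_.Pool.Agent.MUX _root_.Pool.Agent.MuSym _root_.Pool.Agent.OB _root_.Pool.Agent.OBH OnePoint
open _root_.Pool.Agent.TWR (Gen)

noncomputable section

namespace SGP

theorem tM_inf (M : ℕ) (b : ℤ) : tM M b ∞ = ∞ := by
  show (if (0 : ℤ) = 0 then ∞ else (((M : ℤ) / (0 : ℤ) : ℚ) : OnePoint ℚ)) = ∞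
  rw [if_pos rfl]

theorem tM_zero (M : ℕ) (hM : M ≠ 0) (b : ℤ) :
    tM M b ((0 : ℚ) : OnePoint ℚ) = ((b / (M : ℚ) : ℚ) : OnePoint ℚ) := by
  show (if ((0 : ℤ) : ℚ) * 0 + ((M : ℤ) : ℚ) = 0 then ∞ else
    (((((M : ℤ) : ℚ) * 0 + (b : ℚ)) / (((0 : ℤ) : ℚ) * 0 + ((M : ℤ) : ℚ)) : ℚ) :
      OnePoint ℚ)) = _
  have h : (((M : ℤ) : ℚ) * 0 + (b : ℚ)) / (((0 : ℤ) : ℚ) * 0 + ((M : ℤ) : ℚ)) =
      b / (M : ℚ) := by
    push_cast
    rw [mul_zero, mul_zero, zero_add, zero_add]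
  rw [if_neg (by simpa using hM), h]

theorem ex_zpow (r : ℚ) (k : ℤ) : ex r ^ k = ex (k * r) := by
  unfold ex
  rw [← Complex.exp_int_mul]
  congr 1
  push_cast
  ring

/-- the function `Yh` of the full symbol at `c` -/
theorem Yh_eq {A B : ℤ} {n' : ℕ} {ι : Type} [Fintype ι] (R : Reps A B n' ι) (e : OO A B → ℂ)
    (kk : ι → ℂ) (M : ℕ) (hM : M ≠ 0) (c : ℤ) :
    Yh M (ex (-1 / (M : ℚ)) ^ c) (PhiK R e kk) ∞ ((0 : ℚ) : OnePoint ℚ) =
      ∑ i, kk i * ∑ β ∈ Finset.range M, ex (-(β * c) / (M : ℚ)) *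
        PhiI (R.b i) e ∞ (((β / (M : ℚ) : ℚ) : ℚ) : OnePoint ℚ) := by
  unfold Yh
  have h1 : ∀ β ∈ Finset.range M, (ex (-1 / (M : ℚ)) ^ c) ^ β *
      PhiK R e kk (tM M β ∞) (tM M β ((0 : ℚ) : OnePoint ℚ)) =
      ∑ i, kk i * (ex (-(β * c) / (M : ℚ)) *
        PhiI (R.b i) e ∞ (((β / (M : ℚ) : ℚ) : ℚ) : OnePoint ℚ)) := by
    intro β _
    have h2 : (ex (-1 / (M : ℚ)) ^ c) ^ β = ex (-(β * c) / (M : ℚ)) := by
      rw [← zpow_natCast, ← zpow_mul, ex_zpow]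
      congr 1
      push_cast
      ring
    rw [h2, tM_inf, tM_zero M hM]
    unfold PhiK
    rw [Finset.mul_sum]
    refine Finset.sum_congr rfl fun i _ => ?_
    push_cast
    ring
  rw [Finset.sum_congr rfl h1, Finset.sum_comm]
  refine Finset.sum_congr rfl fun i _ => ?_
  rw [Finset.mul_sum]

end SGP

open _root_.Pool.Agent.OT.SGP

/-- Module SGP. -/
theorem ob_SGP : Ob_SGP := by
  intro p hp hp2 A B hC f hf ι _ R e he kk t z₀ n c
  have hq0 : q0 p * p ^ n = p ^ (n + 1) := by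
    unfold q0
    rw [if_neg hp2, pow_succ, mul_comm]
  have hM : p ^ (n + 1) ≠ 0 := pow_ne_zero _ hp.ne_zero
  set a : ℕ := aX p f with ha
  set D : ℂ := 2 * f / R.om R.i0 with hD
  set Y : ℤ → ℂ := fun m => Yh (p ^ (n + 1)) (ex (-1 / ((p ^ (n + 1) : ℕ) : ℚ)) ^ m)
    (PhiK R e (kk0 R e kk)) ∞ ((0 : ℚ) : OnePoint ℚ) with hY
  -- the sums `SnX`
  have hS : ∀ m : ℤ, ∑ i, kk i * SnX R (lvX p f n) (p ^ (n + 1)) e i m = D * Y m := by
    intro m
    rw [hY]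
    show _ = D * Yh (p ^ (n + 1)) (ex (-1 / ((p ^ (n + 1) : ℕ) : ℚ)) ^ m)
      (PhiK R e (kk0 R e kk)) ∞ ((0 : ℚ) : OnePoint ℚ)
    rw [Yh_eq R e (kk0 R e kk) _ hM m, Finset.mul_sum]
    refine Finset.sum_congr rfl fun i _ => ?_
    have h1 := MUXHY.Qsx.SnX_eq MUXF.xf_F5 hC hp hf R he (Ideal.mem_span_singleton_self _) n i m
    rw [hq0] at h1
    rw [h1]
    unfold kk0
    ring
  -- the sums `STX`
  have hT : ∀ m : ℤ, STX R (lvX p f n) (p ^ (n + 1)) a e kk m =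
      D * ((a : ℂ) * Y ((a : ℤ) ^ 2 * m) - (a : ℂ) ^ 2 * Y m) := by
    intro m
    unfold STX
    have h1 : ∀ i, kk i * ((a : ℂ) * SnX R (lvX p f n) (p ^ (n + 1)) e i ((a : ℤ) ^ 2 * m) -
        (a : ℂ) ^ 2 * SnX R (lvX p f n) (p ^ (n + 1)) e i m) =
        (a : ℂ) * (kk i * SnX R (lvX p f n) (p ^ (n + 1)) e i ((a : ℤ) ^ 2 * m)) -
        (a : ℂ) ^ 2 * (kk i * SnX R (lvX p f n) (p ^ (n + 1)) e i m) := fun i => by ring
    rw [Finset.sum_congr rfl fun i _ => h1 i, Finset.sum_sub_distrib, ← Finset.mul_sum,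
      ← Finset.mul_sum, hS, hS]
    ring
  unfold PV SG
  rw [Finset.mul_sum]
  have hL : ∀ j ∈ Finset.range 2, (-1 : ℂ) ^ (1 - j) * ∑ k ∈ Finset.range (p - 1), t (z₀ ^ k) *
      STX R (lvX p f n) (p ^ (n + 1)) a e kk (z₀ ^ k * (c * (1 + (p : ℤ)) ^ j)) =
      ∑ k ∈ Finset.range (p - 1), (-1 : ℂ) ^ (1 - j) * (t (z₀ ^ k) *
      (D * ((a : ℂ) * Y ((a : ℤ) ^ 2 * (z₀ ^ k * (c * (1 + (p : ℤ)) ^ j))) -
        (a : ℂ) ^ 2 * Y (z₀ ^ k * (c * (1 + (p : ℤ)) ^ j))))) := by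
    intro j _
    rw [Finset.mul_sum]
    exact Finset.sum_congr rfl fun k _ => by rw [hT]
  rw [Finset.sum_congr rfl hL, Finset.sum_comm]
  refine Finset.sum_congr rfl fun k _ => ?_
  have hR : ∀ j r : ℕ, Yh (p ^ (n + 1)) (ex (-1 / ((p ^ (n + 1) : ℕ) : ℚ)) ^
      (c * (a : ℤ) ^ (2 * r) * (1 + (p : ℤ)) ^ j * z₀ ^ k)) (PhiK R e (kk0 R e kk)) ∞
      ((0 : ℚ) : OnePoint ℚ) = Y (c * (a : ℤ) ^ (2 * r) * (1 + (p : ℤ)) ^ j * z₀ ^ k) :=
    fun j r => rfl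
  simp only [hR]
  rw [Finset.mul_sum, Finset.mul_sum]
  refine Finset.sum_congr rfl fun j hj => ?_
  rw [Finset.sum_range_succ, Finset.sum_range_one]
  have e0 : c * (a : ℤ) ^ (2 * 0) * (1 + (p : ℤ)) ^ j * z₀ ^ k =
      z₀ ^ k * (c * (1 + (p : ℤ)) ^ j) := by ring
  have e1 : c * (a : ℤ) ^ (2 * 1) * (1 + (p : ℤ)) ^ j * z₀ ^ k =
      (a : ℤ) ^ 2 * (z₀ ^ k * (c * (1 + (p : ℤ)) ^ j)) := by ring
  rw [e0, e1]
  unfold coT
  rw [if_pos rfl, if_neg one_ne_zero]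
  push_cast
  ring

end

end Pool.Agent.OT


end

section

/-!
# OT, block HB: module SYE (helper11)
-/

set_option autoImplicit false

namespace Pool.Agent.OT

open _root_.MU3 _root_.Pool.Agent.MU3A _root_.Pool.Agent.MU3B _root_.Pool.Agent.MU3F
  _root_.Pool.Agent.MUX _root_.Pool.Agent.MuSym _root_.Pool.Agent.OB _root_.Pool.Agent.OBH OnePoint

noncomputable section

namespace SYE

lemma mob_inf (a b d : ℤ) : mob a b 0 d (∞ : OnePoint ℚ) = ∞ := by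
  unfold mob
  rw [OnePoint.elim_infty]
  simp

lemma mob_coe (M b : ℤ) (hM : M ≠ 0) (x : ℚ) :
    mob M b 0 M (x : OnePoint ℚ) = ((x + (b : ℚ) / (M : ℚ) : ℚ) : OnePoint ℚ) := by
  have hM' : (M : ℚ) ≠ 0 := by exact_mod_cast hM
  unfold mob
  rw [OnePoint.elim_some]
  have h1 : ¬ (((0 : ℤ) : ℚ) * x + (M : ℚ) = 0) := by simpa using hM'
  rw [if_neg h1]
  congr 1
  rw [show ((0 : ℤ) : ℚ) * x + (M : ℚ) = M by simp, add_div, mul_div_cancel_left₀ _ hM']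

lemma mob_neg (x : ℚ) : mob (-1) 0 0 1 (x : OnePoint ℚ) = ((-x : ℚ) : OnePoint ℚ) := by
  unfold mob
  rw [OnePoint.elim_some]
  have h1 : ¬ (((0 : ℤ) : ℚ) * x + ((1 : ℤ) : ℚ) = 0) := by simp
  rw [if_neg h1]
  congr 1
  push_cast
  ring

/-- `Yh` at `∞` and a rational number -/
lemma Yh_inf {M : ℕ} (hM : M ≠ 0) (ζ : ℂ) (Q : OnePoint ℚ → OnePoint ℚ → ℂ) (x : ℚ) :
    Yh M ζ Q ∞ (x : OnePoint ℚ) =
      ∑ b ∈ Finset.range M, ζ ^ b * Q ∞ ((x + (b : ℚ) / (M : ℚ) : ℚ) : OnePoint ℚ) := by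
  unfold Yh tM
  refine Finset.sum_congr rfl fun b _ => ?_
  rw [mob_inf, mob_coe _ _ (by exact_mod_cast hM)]
  push_cast
  rfl

lemma Yh_PhiK {A B : ℤ} {n : ℕ} {ι : Type} [Fintype ι] {M : ℕ} (ζ : ℂ) (R : Reps A B n ι)
    (e : OO A B → ℂ) (K : ι → ℂ) (x y : OnePoint ℚ) :
    Yh M ζ (PhiK R e K) x y = ∑ i, K i * Yh M ζ (PhiI (R.b i) e) x y := by
  unfold Yh PhiK
  simp only [Finset.mul_sum]
  rw [Finset.sum_comm]
  refine Finset.sum_congr rfl fun i _ => Finset.sum_congr rfl fun b _ => ?_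
  ring

/-- the reflected symbol -/
lemma Yh_flip {M : ℕ} (hM : M ≠ 0) {ζ : ℂ} (hζ : ζ ^ M = 1) (Q : OnePoint ℚ → OnePoint ℚ → ℂ)
    (hQ : ∀ (x : ℚ) (k : ℤ), Q ∞ ((x + k : ℚ) : OnePoint ℚ) = Q ∞ (x : OnePoint ℚ)) (x : ℚ) :
    Yh M ζ (fun x y => Q (mob (-1) 0 0 1 x) (mob (-1) 0 0 1 y)) ∞ (x : OnePoint ℚ) =
      Yh M ζ⁻¹ Q ∞ ((-x : ℚ) : OnePoint ℚ) := by
  have hMq : (M : ℚ) ≠ 0 := by exact_mod_cast hM
  have hζ0 : ζ ≠ 0 := by
    rintro rfl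
    rw [zero_pow hM] at hζ
    exact zero_ne_one hζ
  rw [Yh_inf hM, Yh_inf hM]
  have hper : ∀ j : ℤ, (fun b : ℤ => ζ⁻¹ ^ b * Q ∞ ((-x + (b : ℚ) / (M : ℚ) : ℚ) : OnePoint ℚ))
      (j + M) = (fun b : ℤ => ζ⁻¹ ^ b * Q ∞ ((-x + (b : ℚ) / (M : ℚ) : ℚ) : OnePoint ℚ)) j := by
    intro j
    show ζ⁻¹ ^ (j + (M : ℤ)) * Q ∞ ((-x + ((j + (M : ℤ) : ℤ) : ℚ) / (M : ℚ) : ℚ) : OnePoint ℚ) =
      ζ⁻¹ ^ j * Q ∞ ((-x + (j : ℚ) / (M : ℚ) : ℚ) : OnePoint ℚ)
    have e1 : (-x + ((j + (M : ℤ) : ℤ) : ℚ) / (M : ℚ) : ℚ) = -x + (j : ℚ) / (M : ℚ) + (1 : ℤ) := by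
      push_cast
      rw [add_div, div_self hMq]
      ring
    rw [e1, hQ, zpow_add₀ (inv_ne_zero hζ0), zpow_natCast, inv_pow, hζ, inv_one, mul_one]
  have h1 := Pool.Agent.TWR.STAAux.sum_perm M hM
    (fun b : ℤ => ζ⁻¹ ^ b * Q ∞ ((-x + (b : ℚ) / (M : ℚ) : ℚ) : OnePoint ℚ)) hper (-1)
    (isCoprime_one_left.neg_left)
  have h2 : ∑ b ∈ Finset.range M, ζ⁻¹ ^ b * Q ∞ ((-x + (b : ℚ) / (M : ℚ) : ℚ) : OnePoint ℚ) =
      ∑ b ∈ Finset.range M,
        (fun b : ℤ => ζ⁻¹ ^ b * Q ∞ ((-x + (b : ℚ) / (M : ℚ) : ℚ) : OnePoint ℚ)) (b : ℤ) := by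
    refine Finset.sum_congr rfl fun b _ => ?_
    show _ = ζ⁻¹ ^ ((b : ℕ) : ℤ) * Q ∞ ((-x + (((b : ℕ) : ℤ) : ℚ) / (M : ℚ) : ℚ) : OnePoint ℚ)
    rw [zpow_natCast, Int.cast_natCast]
  rw [h2, ← h1]
  refine Finset.sum_congr rfl fun b _ => ?_
  show ζ ^ b * Q (mob (-1) 0 0 1 ∞) (mob (-1) 0 0 1 _) =
    ζ⁻¹ ^ (-1 * ((b : ℕ) : ℤ)) *
      Q ∞ ((-x + ((-1 * ((b : ℕ) : ℤ) : ℤ) : ℚ) / (M : ℚ) : ℚ) : OnePoint ℚ)
  rw [mob_inf, mob_neg]
  congr 1
  · rw [neg_one_mul, zpow_neg, inv_zpow, inv_inv, zpow_natCast]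
  · congr 2
    push_cast
    ring

/-- shift of a sum over a period -/
lemma shiftN (m : ℕ) (F : ℕ → ℂ) (h : ∀ b, F (b + m) = F b) (k : ℕ) :
    ∑ b ∈ Finset.range m, F (b + k) = ∑ b ∈ Finset.range m, F b := by
  induction k with
  | zero => simp
  | succ k ih =>
    rw [← ih]
    have h1 := Finset.sum_range_succ (fun b : ℕ => F (b + k)) m
    have h2 := Finset.sum_range_succ' (fun b : ℕ => F (b + k)) m
    rw [h1] at h2
    have h3 : F (m + k) = F (0 + k) := by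
      rw [add_comm m, h, zero_add]
    rw [h3] at h2
    have h4 := add_right_cancel h2
    rw [h4]
    refine Finset.sum_congr rfl fun b _ => ?_
    congr 1
    omega

lemma jac_mod {p : ℕ} {a b : ℤ} (h : (p : ℤ) ∣ a - b) : jacobiSym a p = jacobiSym b p := by
  apply jacobiSym.mod_left'
  exact Int.emod_eq_emod_iff_emod_sub_eq_zero.2 (Int.emod_eq_zero_of_dvd h)

lemma kkE_mod {A B : ℤ} {n : ℕ} {ι : Type} (er p : ℕ) (R : Reps A B n ι) (kk : ι → ℂ) {d d' : ℤ}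
    (h : (p : ℤ) ∣ d - d') : kkE er p R kk d = kkE er p R kk d' := by
  unfold kkE
  split_ifs
  · rfl
  · funext i
    unfold kkJ
    rw [jac_mod (a := d * (nI (R.b i) : ℤ)) (b := d' * (nI (R.b i) : ℤ)) (by
      rw [← sub_mul]; exact h.mul_right _)]

lemma ex_pow (M : ℕ) (hM : M ≠ 0) : ex (-1 / (M : ℚ)) ^ M = 1 := by
  unfold ex
  rw [← Complex.exp_nat_mul]
  have hMC : (M : ℂ) ≠ 0 := by exact_mod_cast hM
  have e : (M : ℂ) * (2 * Real.pi * Complex.I * ((-1 / (M : ℚ) : ℚ) : ℂ)) =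
      -(2 * Real.pi * Complex.I) := by
    push_cast
    field_simp
  rw [e, Complex.exp_neg, Complex.exp_two_pi_mul_I, inv_one]

end SYE

open _root_.Pool.Agent.OT.SYE in
/-- (SYE) -/
theorem ob_SYE (h0 : MUXF.Sx_PRD) (h1 : Ob_ZC) (h2 : Ob_GEN) : Ob_SYE := by
  intro p er A B P V f hS ι _ R e he kk u t q n ht z₀ hz a ha c hc x
  have hp := hS.pp
  have hpp : Prime (p : ℤ) := Nat.prime_iff_prime_int.1 hp
  have hp2 : p ≠ 2 := by have := hS.p5; omega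
  have hM0 : p ^ (n + 1) ≠ 0 := pow_ne_zero _ hp.ne_zero
  have hpM : (p : ℤ) ∣ ((p ^ (n + 1) : ℕ) : ℤ) := by
    push_cast
    exact dvd_pow_self _ (Nat.succ_ne_zero n)
  obtain ⟨hz1, hz2, -⟩ := h1 p n z₀ hp hp2 hz
  obtain ⟨ξ, hξ⟩ : ∃ ξ : ℂ, ξ = ex (-1 / ((p ^ (n + 1) : ℕ) : ℚ)) := ⟨_, rfl⟩
  have hξM : ξ ^ (p ^ (n + 1)) = 1 := by rw [hξ]; exact ex_pow _ hM0
  have hξ0 : ξ ≠ 0 := by
    intro h
    rw [h, zero_pow hM0] at hξM
    exact zero_ne_one hξM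
  have hξz : ∀ m m' : ℤ, ((p ^ (n + 1) : ℕ) : ℤ) ∣ m - m' → ξ ^ m = ξ ^ m' := by
    rintro m m' ⟨k, hk⟩
    have : m = m' + ((p ^ (n + 1) : ℕ) : ℤ) * k := by linear_combination hk
    rw [this, zpow_add₀ hξ0, zpow_mul, zpow_natCast, hξM, one_zpow, mul_one]
  rw [← hξ]
  -- the period
  have hper : ∀ (K : ι → ℂ) (x : ℚ) (k : ℤ),
      PhiK R e K ∞ ((x + k : ℚ) : OnePoint ℚ) = PhiK R e K ∞ (x : OnePoint ℚ) := by
    intro K x k
    unfold PhiK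
    refine Finset.sum_congr rfl fun i _ => ?_
    rw [MUXHY.Qsx.PhiI_per h0 hS.cq (R.nl i).b_ne]
  -- the exponents
  obtain ⟨m, hm⟩ : ∃ m : ℕ → ℕ → ℕ → ℤ,
      m = fun k j r => c * a ^ (2 * r) * (1 + (p : ℤ)) ^ j * z₀ ^ k := ⟨_, rfl⟩
  -- the terms
  obtain ⟨S, hSd⟩ : ∃ S : ℕ → ℚ → ℂ, S = fun k y => t (z₀ ^ k) * ∑ j ∈ Finset.range 2,
      ∑ r ∈ Finset.range 2, coT a j r *
        Yh (p ^ (n + 1)) (ξ ^ m k j r) (PhiK R e (kkE er p R kk (z₀ ^ k))) ∞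
          ((y : ℚ) : OnePoint ℚ) := ⟨_, rfl⟩
  have hSper : ∀ (k : ℕ) (y : ℚ), S (k + (p - 1)) y = S k y := by
    intro k y
    have hd : ((p ^ (n + 1) : ℕ) : ℤ) ∣ z₀ ^ (k + (p - 1)) - z₀ ^ k := by
      have : z₀ ^ (k + (p - 1)) - z₀ ^ k = z₀ ^ k * (z₀ ^ (p - 1) - 1) := by ring
      rw [this]
      exact hz.one.mul_left _
    rw [hSd]
    simp only
    rw [ht.per _ _ (hpM.trans hd), kkE_mod er p R kk (hpM.trans hd)]
    congr 1
    refine Finset.sum_congr rfl fun j _ => Finset.sum_congr rfl fun r _ => ?_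
    rw [hξz (m (k + (p - 1)) j r) (m k j r) (by
      rw [hm]
      simp only
      rw [← mul_sub]
      exact hd.mul_left _)]
  have hflip : ∀ (k : ℕ) (y : ℚ), t (z₀ ^ k) * ∑ j ∈ Finset.range 2, ∑ r ∈ Finset.range 2,
      coT a j r * Yh (p ^ (n + 1)) (ξ ^ m k j r) (QT er p R e kk (t (-1)) u z₀ k) ∞
        ((y : ℚ) : OnePoint ℚ) = (S k y + S (k + (p - 1) / 2) (-y)) / (u * R.om R.i0) := by
    intro k y
    have hd : ((p ^ (n + 1) : ℕ) : ℤ) ∣ -z₀ ^ k - z₀ ^ (k + (p - 1) / 2) := by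
      have : -z₀ ^ k - z₀ ^ (k + (p - 1) / 2) = -(z₀ ^ k * (z₀ ^ ((p - 1) / 2) + 1)) := by ring
      rw [this, dvd_neg]
      exact hz2.mul_left _
    have ht1 : t (z₀ ^ k) * t (-1) = t (z₀ ^ (k + (p - 1) / 2)) := by
      rw [← ht.mul]
      apply ht.per
      have : z₀ ^ k * -1 = -z₀ ^ k := by ring
      rw [this]
      exact hpM.trans hd
    have hY : ∀ j r : ℕ, Yh (p ^ (n + 1)) (ξ ^ m k j r) (QT er p R e kk (t (-1)) u z₀ k) ∞
        ((y : ℚ) : OnePoint ℚ) = (Yh (p ^ (n + 1)) (ξ ^ m k j r)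
          (PhiK R e (kkE er p R kk (z₀ ^ k))) ∞ ((y : ℚ) : OnePoint ℚ) + t (-1) *
          Yh (p ^ (n + 1)) (ξ ^ m (k + (p - 1) / 2) j r)
            (PhiK R e (kkE er p R kk (z₀ ^ (k + (p - 1) / 2)))) ∞
              ((-y : ℚ) : OnePoint ℚ)) / (u * R.om R.i0) := by
      intro j r
      have e1 := Yh_flip hM0 (ζ := ξ ^ m k j r) (by
        rw [← zpow_natCast, ← zpow_mul, mul_comm, zpow_mul, zpow_natCast, hξM, one_zpow])
        (PhiK R e (kkE er p R kk (-z₀ ^ k))) (hper _) y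
      have e2 : (ξ ^ m k j r)⁻¹ = ξ ^ m (k + (p - 1) / 2) j r := by
        rw [← zpow_neg]
        apply hξz
        rw [hm]
        simp only
        have : -(c * a ^ (2 * r) * (1 + (p : ℤ)) ^ j * z₀ ^ k) -
            c * a ^ (2 * r) * (1 + (p : ℤ)) ^ j * z₀ ^ (k + (p - 1) / 2) =
            c * a ^ (2 * r) * (1 + (p : ℤ)) ^ j * (-z₀ ^ k - z₀ ^ (k + (p - 1) / 2)) := by ring
        rw [this]
        exact hd.mul_left _
      rw [e2, kkE_mod er p R kk (hpM.trans hd)] at e1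
      rw [← e1]
      unfold Yh QT
      rw [Finset.mul_sum, ← Finset.sum_add_distrib, Finset.sum_div]
      refine Finset.sum_congr rfl fun b _ => ?_
      rw [kkE_mod er p R kk (hpM.trans hd)]
      ring
    simp only [hY]
    rw [hSd]
    simp only
    rw [← ht1]
    simp only [Finset.mul_sum, Finset.sum_div, add_div]
    rw [← Finset.sum_add_distrib]
    refine Finset.sum_congr rfl fun j _ => ?_
    rw [← Finset.sum_add_distrib]
    refine Finset.sum_congr rfl fun r _ => ?_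
    ring
  have hPV : ∀ y : ℚ, PV p n ξ a z₀ t (QT er p R e kk (t (-1)) u z₀) c ∞
      ((y : ℚ) : OnePoint ℚ) = (∑ k ∈ Finset.range (p - 1), S k y +
        ∑ k ∈ Finset.range (p - 1), S k (-y)) / (u * R.om R.i0) := by
    intro y
    rw [← shiftN (p - 1) (fun k => S k (-y)) (fun k => hSper k (-y)) ((p - 1) / 2),
      ← Finset.sum_add_distrib, Finset.sum_div]
    unfold PV
    refine Finset.sum_congr rfl fun k _ => ?_
    rw [← hflip k y, hm]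
  -- the genus
  have hmp : ∀ k j r : ℕ, ¬ (p : ℤ) ∣ m k j r := by
    intro k j r hd
    rw [hm] at hd
    simp only at hd
    rcases hpp.dvd_or_dvd hd with hd | hd
    · rcases hpp.dvd_or_dvd hd with hd | hd
      · rcases hpp.dvd_or_dvd hd with hd | hd
        · exact hc hd
        · have h5 := hpp.dvd_of_dvd_pow hd
          have h6 : (p : ℤ) ∣ 1 := by
            have := dvd_sub h5 ha
            simpa using this
          exact hpp.not_isUnit (isUnit_of_dvd_one h6)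
      · have h5 := hpp.dvd_of_dvd_pow hd
        have h6 : (p : ℤ) ∣ 1 := by
          have := dvd_sub h5 (dvd_refl (p : ℤ))
          simpa using this
        exact hpp.not_isUnit (isUnit_of_dvd_one h6)
    · exact hz1 (hpp.dvd_of_dvd_pow hd)
  have hJ : ∀ (k j r : ℕ) (N : ℤ), jacobiSym (m k j r * N) p =
      jacobiSym c p * jacobiSym (z₀ ^ k * N) p := by
    intro k j r N
    rw [← jacobiSym.mul_left]
    apply jac_mod
    rw [hm]
    simp only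
    have h5 : (p : ℤ) ∣ a ^ (2 * r) * (1 + (p : ℤ)) ^ j - 1 := by
      have e1 : (p : ℤ) ∣ a ^ (2 * r) - 1 := by
        have := sub_dvd_pow_sub_pow a 1 (2 * r)
        rw [one_pow] at this
        exact ha.trans this
      have e2 : (p : ℤ) ∣ (1 + (p : ℤ)) ^ j - 1 := by
        have := sub_dvd_pow_sub_pow (1 + (p : ℤ)) 1 j
        rw [one_pow] at this
        refine Dvd.dvd.trans ?_ this
        simp
      have e3 : a ^ (2 * r) * (1 + (p : ℤ)) ^ j - 1 =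
          (a ^ (2 * r) - 1) * (1 + (p : ℤ)) ^ j + ((1 + (p : ℤ)) ^ j - 1) := by ring
      rw [e3]
      exact dvd_add (e1.mul_right _) e2
    have h6 : c * a ^ (2 * r) * (1 + (p : ℤ)) ^ j * z₀ ^ k * N - c * (z₀ ^ k * N) =
        c * (z₀ ^ k * N) * (a ^ (2 * r) * (1 + (p : ℤ)) ^ j - 1) := by ring
    rw [h6]
    exact h5.mul_left _
  constructor
  · intro hcase
    have hSk : ∀ (k j r : ℕ) (y : ℚ), Yh (p ^ (n + 1)) (ξ ^ m k j r)
        (PhiK R e (kkE er p R kk (z₀ ^ k))) ∞ ((y : ℚ) : OnePoint ℚ) =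
        Yh (p ^ (n + 1)) (ξ ^ m k j r) (PhiK R e kk) ∞ ((y : ℚ) : OnePoint ℚ) := by
      intro k j r y
      by_cases her : er = 1
      · unfold kkE
        rw [if_pos her]
      · have hcJ : jacobiSym c p = 1 := hcase.resolve_left her
        have her2 : er = 2 := by
          rcases hS.ram with h | h
          · exact absurd h.1 her
          · exact h.1
        subst her2
        rw [Yh_PhiK, Yh_PhiK]
        refine Finset.sum_congr rfl fun i _ => ?_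
        unfold kkE kkJ
        rw [if_neg her]
        by_cases hi : jacobiSym (z₀ ^ k * (nI (R.b i) : ℤ)) p = 1
        · rw [if_pos hi]
        · rw [if_neg hi, zero_mul]
          have h5 := h2 p A B P V f hS e he (R.b i) (R.nl i).b_ne n (m k j r) (hmp k j r) (by
            rw [hJ, hcJ, one_mul]
            exact hi) y
          rw [← hξ] at h5
          rw [h5, mul_zero]
    have hSP : ∀ y : ℚ, ∑ k ∈ Finset.range (p - 1), S k y =
        PV p n ξ a z₀ t (fun _ => PhiK R e kk) c ∞ ((y : ℚ) : OnePoint ℚ) := by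
      intro y
      unfold PV
      refine Finset.sum_congr rfl fun k _ => ?_
      rw [hSd]
      simp only [hSk]
      rw [hm]
    rw [hPV, hSP, hSP]
  · intro her hcJ
    subst her
    have hcJ' : jacobiSym c p = -1 := by
      have hg : c.gcd p = 1 := by
        rw [← Int.isCoprime_iff_gcd_eq_one]
        exact ((Prime.coprime_iff_not_dvd hpp).2 hc).symm
      exact (jacobiSym.eq_one_or_neg_one hg).resolve_left hcJ
    have hSk : ∀ (k j r : ℕ) (y : ℚ), Yh (p ^ (n + 1)) (ξ ^ m k j r)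
        (PhiK R e (kkE 2 p R kk (z₀ ^ k))) ∞ ((y : ℚ) : OnePoint ℚ) = 0 := by
      intro k j r y
      rw [Yh_PhiK]
      refine Finset.sum_eq_zero fun i _ => ?_
      unfold kkE kkJ
      rw [if_neg (by norm_num : ¬ (2 = 1))]
      by_cases hi : jacobiSym (z₀ ^ k * (nI (R.b i) : ℤ)) p = 1
      · have h5 := h2 p A B P V f hS e he (R.b i) (R.nl i).b_ne n (m k j r) (hmp k j r) (by
          rw [hJ, hcJ', hi]
          norm_num) y
        rw [← hξ] at h5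
        rw [h5, mul_zero]
      · rw [if_neg hi, zero_mul]
    rw [hPV]
    have hS0 : ∀ (k : ℕ) (y : ℚ), S k y = 0 := by
      intro k y
      rw [hSd]
      simp only [hSk, mul_zero, Finset.sum_const_zero]
    simp only [hS0, Finset.sum_const_zero, add_zero, zero_div]

end

end Pool.Agent.OT


end

section

/-!
# OT, block HB, module ZC (helper21): the integer `z₀`
-/

set_option autoImplicit false

namespace Pool.Agent.OT

namespace ZC

/-- third order expansion of a power -/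
theorem exp3 (y : ℤ) (m : ℕ) :
    ∃ q : ℤ, (1 + y) ^ m = 1 + m * y + (m.choose 2 : ℕ) * y ^ 2 + y ^ 3 * q := by
  induction m with
  | zero => exact ⟨0, by simp⟩
  | succ m ih =>
    obtain ⟨q, hq⟩ := ih
    refine ⟨(m.choose 2 : ℕ) + q + y * q, ?_⟩
    have h1 : (m + 1).choose 2 = m + m.choose 2 := by
      rw [Nat.choose_succ_succ' m 1, Nat.choose_one_right]
    rw [pow_succ, hq, h1]
    push_cast
    ring

theorem pw (p : ℕ) (hp : p.Prime) (h2 : p ≠ 2) (k : ℕ) :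
    ∃ w : ℤ, (1 + (p : ℤ)) ^ (p ^ k) = 1 + (p : ℤ) ^ (k + 1) * (1 + p * w) := by
  induction k with
  | zero => exact ⟨0, by simp⟩
  | succ k ih =>
    obtain ⟨w, hw⟩ := ih
    have hp3 : 2 < p := lt_of_le_of_ne hp.two_le (Ne.symm h2)
    obtain ⟨h, hh⟩ := hp.dvd_choose_self (k := 2) (by norm_num) hp3
    obtain ⟨q, hq⟩ := exp3 ((p : ℤ) ^ (k + 1) * (1 + p * w)) p
    refine ⟨w + h * p ^ k * (1 + p * w) ^ 2 + p ^ (2 * k) * (1 + p * w) ^ 3 * q, ?_⟩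
    rw [pow_succ p k, pow_mul, hw, hq, hh]
    push_cast
    ring

theorem exp2 (y : ℤ) (m : ℕ) : ∃ q : ℤ, (1 + y) ^ m = 1 + m * y + y ^ 2 * q := by
  obtain ⟨q, hq⟩ := exp3 y m
  exact ⟨(m.choose 2 : ℕ) + y * q, by rw [hq]; ring⟩

theorem ex (p : ℕ) (hp : p.Prime) (h2 : p ≠ 2) (u : ℤ) (hu : (p : ℤ) ∣ u - 1) (n : ℕ) :
    ∃ k : ℕ, (p : ℤ) ^ (n + 1) ∣ u - (1 + (p : ℤ)) ^ k := by
  induction n with
  | zero => exact ⟨0, by simpa using hu⟩
  | succ n ih =>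
    obtain ⟨k, w, hw⟩ := ih
    obtain ⟨a, ha⟩ := pw p hp h2 n
    have hp0 : (p : ℤ) ≠ 0 := by exact_mod_cast hp.ne_zero
    have h1 : u = (1 + (p : ℤ)) ^ k + (p : ℤ) ^ (n + 1) * w := by linarith
    -- `(1+p)^k ≡ 1` modulo `p`, so `j ≡ w` is enough
    obtain ⟨j, hj⟩ : ∃ j : ℕ, (p : ℤ) ∣ w - j := by
      refine ⟨(w % p).toNat, ?_⟩
      have h3 : 0 ≤ w % (p : ℤ) := Int.emod_nonneg _ hp0
      rw [Int.toNat_of_nonneg h3]
      exact Int.dvd_self_sub_emod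
    obtain ⟨b, hb⟩ := hj
    obtain ⟨q, hq⟩ := exp2 ((p : ℤ) ^ (n + 1) * (1 + p * a)) j
    obtain ⟨q', hq'⟩ := exp2 (p : ℤ) k
    refine ⟨k + p ^ n * j, ?_⟩
    have e1 : (1 + (p : ℤ)) ^ (k + p ^ n * j) = (1 + (p : ℤ)) ^ k * ((1 + (p : ℤ)) ^ p ^ n) ^ j := by
      rw [pow_add, pow_mul]
    rw [e1, ha, hq, h1]
    have hw' : w = j + p * b := by linarith
    have hE : (1 + (p : ℤ)) ^ k = 1 + p * (k + p * q') := by rw [hq']; ring
    rw [hE, hw']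
    refine ⟨b - j * a - (k + p * q') * j * (1 + p * a)
      - (1 + p * (k + p * q')) * p ^ n * (1 + p * a) ^ 2 * q, ?_⟩
    ring

end ZC

theorem ob_ZC : Ob_ZC := by
  intro p n z₀ hp h2 hz
  have iF : Fact p.Prime := ⟨hp⟩
  have hp0 : (p : ℤ) ≠ 0 := by exact_mod_cast hp.ne_zero
  have hpM : (p : ℤ) ∣ ((p ^ (n + 1) : ℕ) : ℤ) := by
    push_cast
    exact dvd_pow_self _ (Nat.succ_ne_zero n)
  have h1p : 1 < p := hp.one_lt
  have hone := hz.one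
  have hz0 : ¬ (p : ℤ) ∣ z₀ := by
    intro h
    have h3 : (p : ℤ) ∣ z₀ ^ (p - 1) := dvd_pow h (by omega)
    have h4 : (p : ℤ) ∣ 1 := by
      have h5 := dvd_sub h3 (hpM.trans hone)
      simpa using h5
    exact hp.one_lt.ne' (Nat.dvd_one.1 (by exact_mod_cast h4))
  have hodd : 2 * ((p - 1) / 2) = p - 1 := by
    have h3 : p % 2 = 1 := (hp.eq_two_or_odd).resolve_left h2
    omega
  refine ⟨hz0, ?_, ?_⟩
  · -- the generator
    have hzu : IsUnit (z₀ : ZMod p) := by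
      rw [isUnit_iff_ne_zero]
      intro h
      exact hz0 ((ZMod.intCast_zmod_eq_zero_iff_dvd z₀ p).1 h)
    obtain ⟨g, hg⟩ := hzu
    have hgen : ∀ x : (ZMod p)ˣ, x ∈ Subgroup.zpowers g := by
      intro x
      have h3 : ¬ (p : ℤ) ∣ (((x : ZMod p).val : ℕ) : ℤ) := by
        intro h
        have h4 := (ZMod.intCast_zmod_eq_zero_iff_dvd _ p).2 h
        push_cast at h4
        rw [ZMod.natCast_zmod_val] at h4
        exact x.ne_zero h4
      obtain ⟨k, -, hk⟩ := hz.gen _ h3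
      refine Subgroup.mem_zpowers_iff.2 ⟨k, ?_⟩
      ext
      have h4 := (ZMod.intCast_zmod_eq_zero_iff_dvd _ p).2 hk
      push_cast at h4
      rw [ZMod.natCast_zmod_val] at h4
      push_cast
      rw [zpow_natCast, hg]
      exact (sub_eq_zero.1 h4).symm
    have hord : orderOf g = p - 1 := by
      rw [orderOf_eq_card_of_forall_mem_zpowers hgen, Nat.card_eq_fintype_card, ZMod.card_units]
    have hne : ¬ (p : ℤ) ∣ z₀ ^ ((p - 1) / 2) - 1 := by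
      intro h
      have h4 := (ZMod.intCast_zmod_eq_zero_iff_dvd _ p).2 h
      push_cast at h4
      have h5 : g ^ ((p - 1) / 2) = 1 := by
        ext
        push_cast
        rw [hg]
        exact sub_eq_zero.1 h4
      have h6 := orderOf_dvd_of_pow_eq_one h5
      rw [hord] at h6
      have h7 := Nat.le_of_dvd (by omega) h6
      omega
    have hcop : IsCoprime ((p ^ (n + 1) : ℕ) : ℤ) (z₀ ^ ((p - 1) / 2) - 1) := by
      push_cast
      refine IsCoprime.pow_left ?_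
      exact (Prime.coprime_iff_not_dvd (Nat.prime_iff_prime_int.1 hp)).2 hne
    refine IsCoprime.dvd_of_dvd_mul_left hcop ?_
    have h8 : (z₀ ^ ((p - 1) / 2) - 1) * (z₀ ^ ((p - 1) / 2) + 1) = z₀ ^ (p - 1) - 1 := by
      have h9 : z₀ ^ (p - 1) = z₀ ^ ((p - 1) / 2) * z₀ ^ ((p - 1) / 2) := by
        rw [← pow_add]
        congr 1
        omega
      rw [h9]
      ring
    rw [h8]
    exact hone
  · intro c hc
    obtain ⟨m, hm, hk⟩ := hz.gen c hc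
    have hu : (p : ℤ) ∣ c * z₀ ^ (p - 1 - m) - 1 := by
      have h3 : c * z₀ ^ (p - 1 - m) - 1 =
          (c - z₀ ^ m) * z₀ ^ (p - 1 - m) + (z₀ ^ (p - 1) - 1) := by
        have h4 : z₀ ^ (p - 1) = z₀ ^ m * z₀ ^ (p - 1 - m) := by
          rw [← pow_add]
          congr 1
          omega
        rw [h4]
        ring
      rw [h3]
      exact dvd_add (hk.mul_right _) (hpM.trans hone)
    obtain ⟨k', hk'⟩ := ZC.ex p hp h2 _ hu n
    refine ⟨m, k', ?_⟩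
    have h3 : c - z₀ ^ m * (1 + (p : ℤ)) ^ k' =
        z₀ ^ m * (c * z₀ ^ (p - 1 - m) - (1 + (p : ℤ)) ^ k') - c * (z₀ ^ (p - 1) - 1) := by
      have h4 : z₀ ^ (p - 1) = z₀ ^ m * z₀ ^ (p - 1 - m) := by
        rw [← pow_add]
        congr 1
        omega
      rw [h4]
      ring
    rw [h3]
    refine dvd_sub (Dvd.dvd.mul_left ?_ _) (hone.mul_left _)
    push_cast
    exact hk'

end Pool.Agent.OT


end

section

/-!
# OT, block H, module NDN (helper3); `b_NDR` is the same for `p` ramified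
-/

set_option autoImplicit false

namespace Pool.Agent.OTH

open Pool.Agent.OT

theorem h_NDN : S_NDN := by
  intro p V N₀ s₀ q' i nu Q pi KI H hQd hunr hq1 hq2 hq3 hvpi n hn ξ hξ N' hN' hNN
  exact nd_un p V N₀ s₀ q' i nu Q pi KI H hQd hunr hq1 hq2 hq3 hvpi n hn ξ hξ N' hN' hNN

theorem b_NDR : S_NDR := by
  intro p V N₀ s₀ i nu Q pi KI om H hom hrel hunr hi1 hi2 hvpi n hn ξ hξ N' hN' hNN
  exact nd_ra p V N₀ s₀ i nu Q pi KI om H hom hrel hunr hi1 hi2 hvpi n hn ξ hξ N' hN' hNN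

end Pool.Agent.OTH


end

section

/-!
# OT, block I, module XMF: the sets `XX` for the group `NC h Bn` (after `Pool/Agent/OB/I_XMX.lean`)
-/

set_option autoImplicit false

namespace Pool.Agent.OTI

open _root_.MU3 Pool.Agent.MU3 Pool.Agent.MU3A Pool.Agent.MU3B Pool.Agent.RI Pool.Agent.RID
  Pool.Agent.MUX Pool.Agent.MUXK Pool.Agent.MUXI Pool.Agent.NS Pool.Agent.NSI Pool.Agent.OB
  Pool.Agent.OBI Pool.Agent.OT
open Pool.Agent.MU3I (zt)

noncomputable section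

open XMXx in
theorem ti_XMF (h1 : Si_XXF) (h2 : Si_ARF) (h3 : Ti_NCB) (h4 : Ti_ZAR) : Ti_XMF := by
  intro p hpF A B f hS hT ι R D n h Bn hLay hBR hRB hD
  let aD : Algebra (kk A B) ↥D := algC h
  intro hG γ hγ z₀ hz₀
  have hQ := hS.cq
  have hp0 : 0 < p := hS.pp.pos
  have hq3 : 3 ≤ p := by
    have h4 := hS.pp.two_le
    have h5 := hS.p2
    omega
  have hf1 : 1 ≤ f := Nat.one_le_iff_ne_zero.2 hS.f0
  have hpn : 1 ≤ p ^ n := Nat.one_le_pow _ _ hp0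
  set m : ℕ := lvX p f n with hm
  set M : ℕ := p ^ (n + 1) with hM
  have hmM : m = f * M := by rw [hm, hM, lvX_odd hS.p2]
  have hM3 : 3 ≤ M := by
    rw [hM]
    calc 3 = 1 * 3 := rfl
      _ ≤ p ^ n * p := Nat.mul_le_mul hpn hq3
      _ = p ^ (n + 1) := (pow_succ p n).symm
  have hm3 : 3 ≤ m := by
    rw [hmM]
    calc 3 = 1 * 3 := rfl
      _ ≤ f * M := Nat.mul_le_mul hf1 hM3
  have hm2 : 2 ≤ m := by omega
  have hM0 : M ≠ 0 := by omega
  have hm0 : idl (A := A) (B := B) m ≠ ⊥ := by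
    rw [Ne, Ideal.span_singleton_eq_bot]
    exact natCast_ne_zero' hQ (by omega)
  have hcop : ∀ i, (nI (R.b i)).Coprime m := by
    intro i
    have h4 := R.cop i
    have h5 : (nI (R.b i)).Coprime p := h4.coprime_mul_right_right
    have h6 : (nI (R.b i)).Coprime f := h4.coprime_mul_left_right
    rw [hmM, hM]
    exact h6.mul_right (h5.pow_right (n + 1))
  have hNL : ∃ (b : Ideal (OO A B)) (L : PeriodPair) (om : ℂ), IsNL b L om :=
    ⟨_, _, _, R.nl R.i0⟩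
  obtain ⟨a1, -, a3, a4, a5, -, a7⟩ := h2 A B hQ hT hNL (idl m) hm0 D h hD hG
  obtain ⟨x1, x2⟩ := h1 A B hQ hT (p * f) ι R m hm2 hcop D h hD hG
  have hcomm : ∀ σ τ : ↥D ≃ₐ[kk A B] ↥D, σ * τ = τ * σ := by
    intro σ τ
    obtain ⟨a, -, ha⟩ := a3 σ
    obtain ⟨b, -, hb⟩ := a3 τ
    have h5 := a5 σ τ a b ha hb
    have h6 := a5 τ σ b a hb ha
    refine a4 _ _ _ _ h5 h6 ⟨1, 1, ?_, ?_, ?_, ?_, ?_⟩
    · have := natCast_ne_zero' hQ (n := 1) one_ne_zero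
      rwa [Nat.cast_one] at this
    · have := natCast_ne_zero' hQ (n := 1) one_ne_zero
      rwa [Nat.cast_one] at this
    · rw [sp, Ideal.span_singleton_one, ← Ideal.one_eq_top]
      exact isCoprime_one_left
    · rw [sub_self]
      exact Ideal.zero_mem _
    · rw [mul_comm a b]
  have hcopr : ∀ τ, ∀ q ∈ XX R m h τ,
      IsCoprime (Quotient.out q.2 : OO A B) ((m : ℕ) : OO A B) := fun τ q hq => hq.1
  refine ⟨hcomm, hcopr, fun q hq => (x2 q hq).1,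
    fun q τ τ' hq hq' => (x2 q (hcopr τ q hq)).2 τ τ' hq hq', ?_⟩
  intro q τ hq j
  set ζ : ℂ := zt M with hζd
  have hζ : IsPrimitiveRoot ζ M := Complex.isPrimitiveRoot_exp M hM0
  have hζM : ζ ^ M = 1 := hζ.pow_eq_one
  have htB : ζ + ζ⁻¹ ∈ RB p n := IntermediateField.mem_adjoin_simple_self ℚ _
  have htD : ζ + ζ⁻¹ ∈ D := hRB htB
  set y : ↥D := ⟨ζ + ζ⁻¹, htD⟩ with hy
  have hle : idl (A := A) (B := B) m ≤ idl M := by
    rw [Ideal.span_singleton_le_span_singleton, hmM]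
    push_cast
    exact dvd_mul_left _ _
  -- the ideal of `τ`
  set x : OO A B := Quotient.out q.2 with hx
  have hxc : IsCoprime x ((m : ℕ) : OO A B) := hcopr τ q hq
  have hqe : (q.1, Ideal.Quotient.mk (idl (A := A) (B := B) m) x) = q := by
    have h5 : Ideal.Quotient.mk (idl (A := A) (B := B) m) x = q.2 := Quotient.out_eq q.2
    rw [h5]
  have hAR : AR h (idl m) τ (sp x * cjI (R.b q.1)) := by
    refine (x1 τ q.1 x hxc).1 ?_
    rw [hqe]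
    exact hq
  have hx0 : x ≠ 0 := by
    intro h0
    rw [h0, isCoprime_zero_left] at hxc
    obtain ⟨z, hz⟩ := hxc.exists_right_inv
    exact natCast_not_unit hm2 z hz
  have hb0 : R.b q.1 ≠ ⊥ := (R.nl q.1).b_ne
  have hspx : sp x ≠ ⊥ := by
    rwa [Ne, Ideal.span_singleton_eq_bot]
  have hN : ((nI (sp x * cjI (R.b q.1)) : ℕ) : ℤ) = nm x * nI (R.b q.1) := by
    rw [nI_mul hQ hspx (cjI_ne_bot hQ hb0), nI_sp hQ hx0, nI_cjI hQ hb0]
    push_cast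
    rw [abs_of_nonneg (nm_nonneg hQ x)]
  have e1 := a7 M τ _ ζ y hM0 hle hAR hζM rfl
  -- the ideal of `γ`
  obtain ⟨c, hcc, hc⟩ := a3 γ
  have hc0 : c ≠ ⊥ := by
    rintro rfl
    have h5 : IsUnit (idl (A := A) (B := B) m) := isCoprime_zero_left.1 hcc
    rw [Ideal.isUnit_iff, Ideal.eq_top_iff_one] at h5
    obtain ⟨z, hz⟩ := Ideal.mem_span_singleton.1 h5
    exact natCast_not_unit hm2 z hz.symm
  have hARj : ∀ j : ℕ, AR h (idl m) (γ ^ j) (c ^ j) := by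
    intro j
    induction j with
    | zero =>
      rw [pow_zero, pow_zero, Ideal.one_eq_top]
      exact a1
    | succ j ih =>
      rw [pow_succ, pow_succ]
      exact a5 _ _ _ _ ih hc
  have e2 := a7 M (γ ^ j) _ ζ y hM0 hle (hARj j) hζM rfl
  rw [(nI_pow hQ hc0 j).2] at e2
  have e3 := a7 M γ _ ζ y hM0 hle hc hζM rfl
  have e4 := hγ y rfl
  rw [e3] at e4
  have e5 := (pm hM0 hζ _ _).1 e4
  have e6 := pw (M : ℤ) (nI c : ℤ) ((1 + p : ℕ) : ℤ) e5 j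
  -- the condition on `τ`
  let φ : ↥D →+* ℂ := (algebraMap ↥D ℂ).comp (τ : ↥D →+* ↥D)
  let ψ : ↥D →+* ℂ := (algebraMap ↥D ℂ).comp ((γ ^ j : ↥D ≃ₐ[kk A B] ↥D) : ↥D →+* ↥D)
  have key : τ * (γ ^ j)⁻¹ ∈ NC h Bn ↔ ∀ z : ↥D, (z : ℂ) ∈ Bn → φ z = ψ z := by
    rw [hcomm τ (γ ^ j)⁻¹]
    constructor
    · intro hmem z hz
      have h5 : ((γ ^ j)⁻¹ * τ) z = z := hmem z hz
      have h6 : τ z = (γ ^ j) z := by
        have h7 : (γ ^ j) (((γ ^ j)⁻¹ * τ) z) = (γ ^ j) z := by rw [h5]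
        rwa [← AlgEquiv.mul_apply, mul_inv_cancel_left] at h7
      show ((τ z : ↥D) : ℂ) = (((γ ^ j) z : ↥D) : ℂ)
      rw [h6]
    · intro he z hz
      have h6 : τ z = (γ ^ j) z := Subtype.ext (he z hz)
      show (γ ^ j)⁻¹ (τ z) = z
      rw [h6, ← AlgEquiv.mul_apply, inv_mul_cancel]
      rfl
  -- the norms are prime to `p`
  have hpp : Prime (p : ℤ) := Nat.prime_iff_prime_int.1 hS.pp
  have hpm : p ∣ m := by
    rw [hmM, hM, pow_succ]
    exact (dvd_mul_left p (p ^ n)).mul_left f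
  have hpM : (p : ℤ) ∣ (M : ℤ) := by
    rw [hM, pow_succ]
    push_cast
    exact dvd_mul_left _ _
  have hpa : ¬ p ∣ nI (sp x * cjI (R.b q.1)) := by
    intro h5
    have h6 : (p : ℤ) ∣ nm x * nI (R.b q.1) := by
      rw [← hN]
      exact_mod_cast h5
    rcases hpp.dvd_or_dvd h6 with h7 | h7
    · have h8 : IsCoprime (nm x) ((m : ℕ) : ℤ) := EIXx.nm_cop hQ hxc
      have h9 : (p : ℤ) ∣ ((m : ℕ) : ℤ) := by exact_mod_cast hpm
      exact hpp.not_isUnit (h8.isUnit_of_dvd' h7 h9)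
    · have h8 : p ∣ nI (R.b q.1) := by exact_mod_cast h7
      have h9 := Nat.dvd_gcd h8 hpm
      rw [hcop q.1] at h9
      exact hS.pp.one_lt.ne' (Nat.dvd_one.1 h9)
  have hpb : ¬ p ∣ nI c ^ j := by
    intro h5
    have h6 : (p : ℤ) ∣ (nI c : ℤ) := by exact_mod_cast hS.pp.dvd_of_dvd_pow h5
    have h7 : (p : ℤ) ∣ ((1 + p : ℕ) : ℤ) := by
      rcases e5 with h8 | h8
      · have h9 := dvd_sub h6 (hpM.trans h8)
        rwa [sub_sub_cancel] at h9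
      · have h9 := dvd_sub (hpM.trans h8) h6
        rwa [add_sub_cancel_left] at h9
    have h8 : p ∣ 1 + p := by exact_mod_cast h7
    have h9 : p ∣ 1 := (Nat.dvd_add_left (dvd_refl p)).1 h8
    exact hS.pp.one_lt.ne' (Nat.dvd_one.1 h9)
  have e7 := h3 p hS.p2 n Bn hLay hBR D hRB φ ψ _ _ hpa hpb y rfl e1 e2
  have hMp : (M : ℤ) ∣ ((nI c ^ j : ℕ) : ℤ) ^ (p - 1) - ((1 + (p : ℤ)) ^ j) ^ (p - 1) := by
    have h5 : Even (p - 1) := by
      obtain ⟨k, hk⟩ := hS.pp.odd_of_ne_two hS.p2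
      exact ⟨k, by omega⟩
    have h6 : ((nI c ^ j : ℕ) : ℤ) = (nI c : ℤ) ^ j := by push_cast; rfl
    have h7 : ((1 + p : ℕ) : ℤ) ^ j = (1 + (p : ℤ)) ^ j := by push_cast; rfl
    rw [h6, ← h7]
    rcases e6 with h8 | h8
    · exact h8.trans (sub_dvd_pow_sub_pow _ _ _)
    · have h9 : (M : ℤ) ∣ (nI c : ℤ) ^ j - -(((1 + p : ℕ) : ℤ) ^ j) := by
        rwa [sub_neg_eq_add]
      have h10 := h9.trans (sub_dvd_pow_sub_pow _ _ (p - 1))
      rwa [h5.neg_pow] at h10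
  have e8 := (h4 p n hS.pp hS.p2 z₀ hz₀).2.2 ((nI (sp x * cjI (R.b q.1)) : ℕ) : ℤ) j
    (by exact_mod_cast hpa)
  rw [key, e7, ← hN, ← e8]
  constructor
  · intro h5
    have h6 := dvd_add h5 hMp
    rwa [sub_add_sub_cancel] at h6
  · intro h5
    have h6 := dvd_sub h5 hMp
    rwa [sub_sub_sub_cancel_right] at h6

end

end Pool.Agent.OTI


end

section

/-!
# OT, blocks H and HB put together (helper59): `O_HETA` from TYPE and Theorem G
-/

set_option autoImplicit false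

namespace Pool.Agent.OT

open Pool.Agent.OB Pool.Agent.OBH

/-- the abstract theorem -/
theorem ot_H : Ot_H := OTH.h_HT OTH.h_LAG OTH.h_VSY OTH.h_CNG TWV.a_TWV

theorem ot_HETA (hT : O_TYF) (hG : O_GPT) : O_HETA :=
  ob_HETA ot_H
    (ob_HT
      (ob_ND OTH.h_NDN OTH.b_NDR
        (to_HQ1 hT hG o_RAM o_VAL o_CHR o_DEP o_PJ1 o_SAF o_UAL o_BDN o_HKN o_TYP o_PRT)
        (to_HQ2 hT hG o_RAM o_VAL o_CHR o_PJ2 o_SAF o_UAL o_BDN o_TYP o_PRT) o_REL o_RAM)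
      ob_HT1 (ob_HT2 ob_ZC) ob_HT3 o_RAM o_VAL o_CHR o_UAL)
    ob_SGP ob_BIR ob_EPS (ob_SYE MUXF.xf_PRD ob_ZC (ob_GEN o_QBO)) ob_ZC ob_SGE o_VAL o_RAM

end Pool.Agent.OT


end

section

/-!
# OT (Theorem T), block I: the result from `O_HETA` (helper79)
-/

set_option autoImplicit false

namespace Pool.Agent.OTI

open Pool.Agent.MUXF Pool.Agent.MUXU Pool.Agent.MUXY Pool.Agent.MUXK Pool.Agent.MUXI
  Pool.Agent.NSI Pool.Agent.OB Pool.Agent.OBT Pool.Agent.RI Pool.Agent.RID Pool.Agent.OT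

/-- THE RESULT of block I -/
theorem oti_IT (hH : O_HETA) : O_IT :=
  ti_IT Pool.Agent.MUXJ.j_RES Pool.Agent.OBI.o_CHI ti_CHK
    (t_E0L i_ARF i_IAF i_LAY xf_NIM Pool.Agent.MUXJ.j_GAL) Pool.Agent.OBI.o_EPS
    Pool.Agent.OBI.o_TEI (t_LVT i_LAY i_IAF) i_ARF i_XXF Pool.Agent.OBI.o_SUB
    Pool.Agent.OBI.o_GAM Pool.Agent.OBI.o_NCR ti_Z0 (ti_XMF i_XXF i_ARF ti_NCB ti_ZAR)
    (ti_THF Pool.Agent.OBI.o_TSH ti_ZAR) (ti_POW n_FOU Pool.Agent.MU3I.t_ITG) ti_EIX i_GEN hH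
    k_GALX k_RSX Pool.Agent.OBT.o_BAS

end Pool.Agent.OTI


end
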