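import Pool.Agent.MVF.C105
import Pool.Agent.OBM.C17
import Pool.Agent.OBM.C19
import Pool.Agent.OBM.C22
import Pool.Agent.OTM.C02
import Pool.Agent.OTM.C04
import Pool.Agent.OTM.C05
import Pool.Agent.OTM.C06
import Pool.Agent.OTM.C08
import Pool.Agent.OTM.C11

/-! Parts: OT.L_IFR, OT.F_T2, OT.F_ROOT0, OT.F_ROOT -/

section

/-!
# OT, module IFR (helper84): reverse inflation

`f ↦ f ∘ ext` maps the `χ'`-eigenfunctionals of `K B_n` injectively to the `χ`-eigenfunctionals of `L B_n` (`χ'` = the inflation of `χ`), because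
`f (ext (N b)) = [K B_n : L B_n] f (b)`.
-/

set_option autoImplicit false

open NumberField IsDedekindDomain Finset
open scoped nonZeroDivisors Pointwise

namespace Pool.Agent.OT

open _root_.Pool.Agent.RI _root_.Pool.Agent.RID _root_.Pool.Agent.MU3 _root_.Pool.Agent.MUXK
  _root_.Pool.Agent.MUXZ _root_.Pool.Agent.NSI _root_.Pool.Agent.OB _root_.Pool.Agent.OBF

/-- restriction to a normal subfield -/
theorem res_ex {k L K : IntermediateField ℚ ℂ} (hL : k ≤ L) (hK : k ≤ K) (h : L ≤ K)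
    [hG : (letI := algC hL; Normal k L)] : letI := algC hL; letI := algC hK;
    ∀ σ : ↥K ≃ₐ[k] ↥K, ∃ s : ↥L ≃ₐ[k] ↥L, ∀ (x : ↥L) (x' : ↥K), (x' : ℂ) = x →
      ((σ x' : ↥K) : ℂ) = (s x : ↥L) := by
  let _ := algC hL
  let _ := algC hK
  let _ := algC h
  have : IsScalarTower k L K := towerC hL h
  intro σ
  refine ⟨AlgEquiv.restrictNormalHom ↥L σ, fun x x' hx => ?_⟩
  have h2 := AlgEquiv.restrictNormal_commutes σ ↥L x
  have h3 : x' = algebraMap ↥L ↥K x := Subtype.ext hx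
  rw [h3]
  exact (congrArg Subtype.val h2).symm

lemma map_prod' {G F ι : Type} [CommGroup G] [AddCommGroup F] (g : G → F)
    (h : ∀ x y, g (x * y) = g x + g y) (s : Finset ι) (f : ι → G) :
    g (∏ i ∈ s, f i) = ∑ i ∈ s, g (f i) := by
  classical
  have h1 : g 1 = 0 := by
    have := h 1 1
    rw [mul_one] at this
    exact left_eq_add.1 this
  induction s using Finset.induction_on with
  | empty => rw [Finset.prod_empty, Finset.sum_empty, h1]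
  | insert a s ha ih => rw [Finset.prod_insert ha, Finset.sum_insert ha, h, ih]

open INFx in
/-- The eigenfunctionals. -/
theorem inf_rev (p n : ℕ) [Fact p.Prime] (F : Type) [Field F] [CharP F p]
    (k L K : IntermediateField ℚ ℂ) (B : ℕ → IntermediateField ℚ ℂ) [FiniteDimensional ℚ K]
    [FiniteDimensional ℚ L] [∀ n, FiniteDimensional ℚ ↥(K ⊔ B n)]
    [∀ n, FiniteDimensional ℚ ↥(L ⊔ B n)] (hBK : BasX p k K B) (hBL : BasX p k L B) (hLK : L ≤ K)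
    (hk : k ≤ K ⊔ B n) (hk' : k ≤ L ⊔ B n) (hkK : k ≤ K) (hkL : k ≤ L)
    (hp : ¬ p ∣ Module.finrank ℚ K)
    (χ : (letI := algC hkL; (↥L ≃ₐ[k] ↥L) →* Fˣ)) (χ' : (letI := algC hkK; (↥K ≃ₐ[k] ↥K) →* Fˣ))
    (hχ : letI := algC hkL; letI := algC hkK;
      ∀ (s : ↥L ≃ₐ[k] ↥L) (s' : ↥K ≃ₐ[k] ↥K),
        (∀ (x : ↥L) (x' : ↥K), (x' : ℂ) = x → ((s' x' : ↥K) : ℂ) = (s x : ↥L)) → χ' s' = χ s)
    (hfin : Module.Finite F (EigS F k L B n hk' hkL χ)) :
    Module.Finite F (EigS F k K B n hk hkK χ') ∧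
      Module.finrank F (EigS F k K B n hk hkK χ') ≤
        Module.finrank F (EigS F k L B n hk' hkL χ) := by
  have hp0 : p ≠ 0 := (Fact.out : p.Prime).ne_zero
  have hle : L ⊔ B n ≤ K ⊔ B n := sup_le_sup_right hLK (B n)
  have : FiniteDimensional ℚ k :=
    FiniteDimensional.of_injective (IntermediateField.inclusion hkK).toLinearMap
      (IntermediateField.inclusion hkK).injective
  let akK := algC hkK
  let akL := algC hkL
  let aLK := algC hLK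
  let akKn := algC hk
  let akLn := algC hk'
  let aLnKn := algC hle
  have tkLK : IsScalarTower k L K := towerC hkL hLK
  have tkLKn : IsScalarTower k ↥(L ⊔ B n) ↥(K ⊔ B n) := towerC hk' hle
  obtain ⟨galK, abK⟩ := t_GALX p k K B hBK n hk
  obtain ⟨galL, -⟩ := t_GALX p k L B hBL n hk'
  have fdK : FiniteDimensional k ↥(K ⊔ B n) := Module.Finite.of_restrictScalars_finite ℚ k _
  have galLK : IsGalois ↥(L ⊔ B n) ↥(K ⊔ B n) := IsGalois.tower_top_of_isGalois k _ _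
  have galL0 : IsGalois k L := (isGalois_algC hkL).mpr hBL.gal
  have galK0 : IsGalois k K := (isGalois_algC hkK).mpr hBK.gal
  -- the degree
  set d : ℕ := Module.finrank ↥(L ⊔ B n) ↥(K ⊔ B n) with hd
  have hdeg : Module.finrank ℚ L * d = Module.finrank ℚ K :=
    deg_eq hp0 hle (hBL.deg n) (hBK.deg n)
  have hdF : (d : F) ≠ 0 := by
    intro h0
    rw [CharP.cast_eq_zero_iff F p] at h0
    exact hp (hdeg ▸ h0.mul_left _)
  -- restrictions
  have hres : ∀ (σ : ↥(K ⊔ B n) ≃ₐ[k] ↥(K ⊔ B n)) (x : ↥(L ⊔ B n)),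
      ((AlgEquiv.restrictNormalHom ↥(L ⊔ B n) σ x : ↥(L ⊔ B n)) : ℂ) =
        (σ ⟨x, hle x.2⟩ : ↥(K ⊔ B n)) := by
    intro σ x
    have h2 := AlgEquiv.restrictNormal_commutes σ ↥(L ⊔ B n) x
    exact congrArg Subtype.val h2
  have hresK : ∀ σ : ↥(K ⊔ B n) ≃ₐ[k] ↥(K ⊔ B n), ∃ s : ↥K ≃ₐ[k] ↥K,
      ∀ (x : ↥K) (x' : ↥(K ⊔ B n)), (x' : ℂ) = x → ((σ x' : ↥(K ⊔ B n)) : ℂ) = (s x : ↥K) :=
    fun σ => res_ex hkK hk le_sup_left σ
  have hresL : ∀ s : ↥K ≃ₐ[k] ↥K, ∃ s₀ : ↥L ≃ₐ[k] ↥L,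
      ∀ (x : ↥L) (x' : ↥K), (x' : ℂ) = x → ((s x' : ↥K) : ℂ) = (s₀ x : ↥L) :=
    fun s => res_ex hkL hkK hLK s
  have hsur : ∀ δ : ↥(L ⊔ B n) ≃ₐ[k] ↥(L ⊔ B n), ∃ σ : ↥(K ⊔ B n) ≃ₐ[k] ↥(K ⊔ B n),
      AlgEquiv.restrictNormalHom ↥(L ⊔ B n) σ = δ :=
    AlgEquiv.restrictNormalHom_surjective _
  have key : ∀ g : J ↥(K ⊔ B n) → F, EigF F k K B n hk hkK χ' g →
      EigF F k L B n hk' hkL χ (fun b => g (ext ↥(L ⊔ B n) ↥(K ⊔ B n) b)) := by
    rintro g ⟨g1, g2, g3⟩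
    refine ⟨fun x y => ?_, ?_, fun δ s hs x => ?_⟩
    · show g (ext ↥(L ⊔ B n) ↥(K ⊔ B n) (x * y)) = _
      rw [map_mul, g1]
    · rintro _ ⟨x, rfl⟩
      show g (ext ↥(L ⊔ B n) ↥(K ⊔ B n) (prin x)) = 0
      rw [ext_prin]
      exact g2 _ ⟨_, rfl⟩
    · obtain ⟨σ, hσ⟩ := hsur (δ : ↥(L ⊔ B n) ≃ₐ[k] ↥(L ⊔ B n))
      have hσL : ∀ (y : ↥(L ⊔ B n)) (y' : ↥(K ⊔ B n)), (y' : ℂ) = y →
          ((σ y' : ↥(K ⊔ B n)) : ℂ) = ((δ : ↥(L ⊔ B n) ≃ₐ[k] ↥(L ⊔ B n)) y : ↥(L ⊔ B n)) := by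
        intro y y' hy
        have h1 := hres σ y
        rw [hσ] at h1
        rw [h1]
        congr 2
        exact Subtype.ext hy
      obtain ⟨s', hs'⟩ := hresK σ
      let δ' : NC hk (B n) := ⟨σ, by
          intro y hy
          apply Subtype.ext
          have h3 : (δ : ↥(L ⊔ B n) ≃ₐ[k] ↥(L ⊔ B n))
              ⟨(y : ℂ), (le_sup_right : B n ≤ L ⊔ B n) hy⟩ =
              ⟨(y : ℂ), (le_sup_right : B n ≤ L ⊔ B n) hy⟩ := δ.2 _ hy
          rw [hσL ⟨(y : ℂ), (le_sup_right : B n ≤ L ⊔ B n) hy⟩ y rfl, h3]⟩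
      have hs1 : χ' s' = χ s := by
        apply hχ
        intro y y' hy
        have h1 := hs' y' ⟨(y' : ℂ), (le_sup_left : K ≤ K ⊔ B n) y'.2⟩ rfl
        have h2 := hσL ⟨(y : ℂ), (le_sup_left : L ≤ L ⊔ B n) y.2⟩
          ⟨(y' : ℂ), (le_sup_left : K ≤ K ⊔ B n) y'.2⟩ hy
        have h3 := hs y ⟨(y : ℂ), (le_sup_left : L ≤ L ⊔ B n) y.2⟩ rfl
        rw [← h1, h2, h3]
      show g (ext ↥(L ⊔ B n) ↥(K ⊔ B n) ((δ : ↥(L ⊔ B n) ≃ₐ[k] ↥(L ⊔ B n)) • x)) =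
        (χ s : F) * g (ext ↥(L ⊔ B n) ↥(K ⊔ B n) x)
      rw [← hs1, ← g3 δ' s' (fun y y' hy => hs' y y' hy)]
      congr 1
      show _ = σ • ext ↥(L ⊔ B n) ↥(K ⊔ B n) x
      rw [← hσ]
      refine EXTACT_thm k ↥(L ⊔ B n) k ↥(K ⊔ B n) σ
        (AlgEquiv.restrictNormalHom ↥(L ⊔ B n) σ) ?_ x
      intro y
      exact Subtype.ext (hres _ y)
  let Φ : EigS F k K B n hk hkK χ' →ₗ[F] EigS F k L B n hk' hkL χ :=
    { toFun := fun g => ⟨fun b => g.1 (ext ↥(L ⊔ B n) ↥(K ⊔ B n) b), key g.1 g.2⟩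
      map_add' := fun g g' => rfl
      map_smul' := fun a g => rfl }
  have hinj : Function.Injective Φ := by
    rw [injective_iff_map_eq_zero]
    intro g hg
    apply Subtype.ext
    funext b
    obtain ⟨g1, g2, g3⟩ := g.2
    have h1 : g.1 (ext ↥(L ⊔ B n) ↥(K ⊔ B n) (NN ↥(L ⊔ B n) ↥(K ⊔ B n) b)) = 0 :=
      congrFun (congrArg Subtype.val hg) (NN ↥(L ⊔ B n) ↥(K ⊔ B n) b)
    rw [ext_NN, CL.nm_apply, map_prod' g.1 g1] at h1
    have h2 : ∀ σ : ↥(K ⊔ B n) ≃ₐ[↥(L ⊔ B n)] ↥(K ⊔ B n), g.1 (σ • b) = g.1 b := by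
      intro σ
      obtain ⟨s', hs'⟩ := hresK (σ.restrictScalars k)
      let δ' : NC hk (B n) := ⟨σ.restrictScalars k, by
        intro y hy
        have h3 := σ.commutes ⟨(y : ℂ), (le_sup_right : B n ≤ L ⊔ B n) hy⟩
        exact h3⟩
      have h3 := g3 δ' s' (fun y y' hy => hs' y y' hy) b
      have h4 : χ' s' = 1 := by
        rw [← map_one χ]
        apply hχ
        intro y y' hy
        have h5 := hs' y' ⟨(y' : ℂ), (le_sup_left : K ≤ K ⊔ B n) y'.2⟩ rfl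
        have h6 := σ.commutes ⟨(y : ℂ), (le_sup_left : L ≤ L ⊔ B n) y.2⟩
        have h7 : (⟨(y' : ℂ), (le_sup_left : K ≤ K ⊔ B n) y'.2⟩ : ↥(K ⊔ B n)) =
            algebraMap ↥(L ⊔ B n) ↥(K ⊔ B n)
              ⟨(y : ℂ), (le_sup_left : L ≤ L ⊔ B n) y.2⟩ := Subtype.ext hy
        rw [← h5, h7]
        show ((σ (algebraMap ↥(L ⊔ B n) ↥(K ⊔ B n)
          ⟨(y : ℂ), (le_sup_left : L ≤ L ⊔ B n) y.2⟩) : ↥(K ⊔ B n)) : ℂ) = _
        rw [h6]
        rfl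
      rw [h4, Units.val_one, one_mul] at h3
      rw [← smul_res (k := k) σ]
      exact h3
    rw [Finset.sum_congr rfl fun σ _ => h2 σ, Finset.sum_const, Finset.card_univ,
      ← Nat.card_eq_fintype_card, IsGalois.card_aut_eq_finrank, nsmul_eq_mul] at h1
    exact (mul_eq_zero.1 h1).resolve_left hdF
  exact ⟨Module.Finite.of_injective Φ hinj, LinearMap.finrank_le_finrank_of_injective hinj⟩

/-- IFR -/
theorem t_IFR (hLAY : Sf_LAY) (hBAX : Sq_BAX) : S_IFR := by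
  intro p _ hp2 k L K hL hK hLK hf hG hc hd χ χ' hχ hm
  have hpp : p.Prime := Fact.out
  obtain ⟨B, hlay, hmono, hu⟩ := hLAY p hp2
  have hfL : FiniteDimensional ℚ L :=
    FiniteDimensional.of_injective (IntermediateField.inclusion hLK).toLinearMap
      (IntermediateField.inclusion hLK).injective
  have hfB : ∀ n, FiniteDimensional ℚ (B n) := fun n =>
    Module.finite_of_finrank_pos (by rw [(hlay n).1]; exact pow_pos hpp.pos n)
  have hfKn : ∀ n, FiniteDimensional ℚ ↥(K ⊔ B n) := fun n =>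
    IntermediateField.finiteDimensional_sup K (B n)
  have hfLn : ∀ n, FiniteDimensional ℚ ↥(L ⊔ B n) := fun n =>
    IntermediateField.finiteDimensional_sup L (B n)
  have hd' : ¬ p ∣ Module.finrank ℚ L := by
    intro h0
    apply hd
    let _ := algC hLK
    have : IsScalarTower ℚ L K := IsScalarTower.of_algebraMap_eq fun _ => rfl
    have e1 : Module.finrank ℚ L * Module.finrank L K = Module.finrank ℚ K :=
      Module.finrank_mul_finrank ℚ L K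
    rw [← e1]
    exact h0.mul_right _
  obtain ⟨hG', hc'⟩ := sub_ab hL hLK hK hG hc
  have hB : BasX p k K B := hBAX p k K B hK hG hc hd hlay hmono
  have hB' : BasX p k L B := hBAX p k L B hL hG' hc' hd' hlay hmono
  obtain ⟨C, hC⟩ := hm
  refine ⟨C, fun n Q hQ => ?_⟩
  obtain rfl : Q = B n := hu n Q hQ
  obtain ⟨e1, e2⟩ := eig_chi p k L hL B n (hL.trans le_sup_left) χ
  obtain ⟨e3, e4⟩ := inf_rev p n (AlgebraicClosure (ZMod p)) k L K B hB hB' hLK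
    (hK.trans le_sup_left) (hL.trans le_sup_left) hK hL hd (CHIx.toC hL χ) (CHIx.toC hK χ') (by
      let _ := algC hL
      let _ := algC hK
      intro s s' hs
      have h1 : CHIx.toC hL χ s = χ ((AlgEquiv.autCongr (extEquiv hL)).symm s) := rfl
      have h2 : CHIx.toC hK χ' s' = χ' ((AlgEquiv.autCongr (extEquiv hK)).symm s') := rfl
      rw [h1, h2]
      apply hχ
      intro x x' hx
      exact hs ⟨(x : ℂ), x.2⟩ ⟨(x' : ℂ), x'.2⟩ hx) e1
  exact ((chi_eig p k K hK B n (hK.trans le_sup_left) χ' e3).trans e4).trans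
    (e2.trans (hC n (B n) (hlay n)))

end Pool.Agent.OT


end

section

/-!
# OT, FINAL (helper60): `FinalT` from `S_NEWK`
-/

set_option autoImplicit false

open NumberField

namespace Pool.Agent.OTF

open _root_.Pool.Agent.MuCyc Pool.Agent.OBF

/-- (1) the characters -/
theorem chars (hNEW : S_NEWK) (hIFR : OT.S_IFR) (hLAY : MUXJ.Sj_LAY) (p : ℕ) [Fact p.Prime]
    (hp : 5 ≤ p) (k K : IntermediateField ℚ ℂ) (h : k ≤ K) (hk : ImQuad k) (hK : Abelian p h)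
    (l : ℕ) (hl : l = 2 ∨ l = 3) :
    ∃ (r₀ : ℕ) (B₀ : IntermediateField ℚ ℂ), IsLayer l r₀ B₀ ∧
      ∀ (r : ℕ) (B : IntermediateField ℚ ℂ), IsLayer l r B →
        ∀ (hB : k ≤ K ⊔ B) (χ : Chr p hB),
        (∃ s : Gal hB, (∀ x : IntermediateField.extendScalars hB, (x : ℂ) ∈ K ⊔ B₀ → s x = x) ∧
          χ s ≠ 1) → MuZeroC p hB χ := by
  classical
  obtain ⟨Bl, hlay, hmono, hu⟩ := hLAY l hl
  obtain ⟨r₀, hr₀⟩ := hNEW p hp k K h hk hK l hl
  refine ⟨r₀, Bl r₀, hlay r₀, ?_⟩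
  intro r B hB hB' χ hχ
  obtain rfl : B = Bl r := hu r B hB
  have hAb : ∀ (j : ℕ) (hj : k ≤ K ⊔ Bl j), Abelian p hj := fun j hj =>
    ab_sup p hp h hK hl (hlay j) hj
  have hkj : ∀ j, k ≤ K ⊔ Bl j := fun j => h.trans le_sup_left
  have hA := hAb r hB'
  have := hA.fin
  obtain ⟨s₀, hs₀, hχs⟩ := hχ
  let P : ℕ → Prop := fun j => ∀ s : Gal hB',
    (∀ x : IntermediateField.extendScalars hB', (x : ℂ) ∈ K ⊔ Bl j → s x = x) → χ s = 1
  have hPr : P r := by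
    intro s hs
    have : s = 1 := by
      apply AlgEquiv.ext
      intro x
      exact hs x x.2
    rw [this, map_one]
  have hPmono : ∀ i j, i ≤ j → P i → P j := by
    intro i j hij hi s hs
    exact hi s fun x hx => hs x ((sup_le_sup_left (hmono hij) K) hx)
  have hex : ∃ j, P j := ⟨r, hPr⟩
  have hP0 : ¬ P r₀ := fun h0 => hχs (h0 s₀ hs₀)
  have hlt : r₀ < Nat.find hex := by
    by_contra h0
    exact hP0 (hPmono _ _ (not_lt.1 h0) (Nat.find_spec hex))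
  obtain ⟨j, hj⟩ : ∃ j, Nat.find hex = j + 1 := ⟨Nat.find hex - 1, by omega⟩
  have hPj : ¬ P j := Nat.find_min hex (by omega)
  have hPj1 : P (j + 1) := by
    rw [← hj]
    exact Nat.find_spec hex
  have hjr : j + 1 ≤ r := by
    rw [← hj]
    exact Nat.find_min' hex hPr
  -- the character of the smaller field
  have hle : K ⊔ Bl (j + 1) ≤ K ⊔ Bl r := sup_le_sup_left (hmono hjr) K
  have hA1 := hAb (j + 1) (hkj (j + 1))
  obtain ⟨χ₁, hχ₁⟩ := factor p (hkj (j + 1)) hle hB' hA1.gal hA.gal χ hPj1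
  obtain ⟨res, -, hres⟩ := exists_res (hkj (j + 1)) hle hB' hA1.gal hA.gal
  have hm : MuZeroC p (hkj (j + 1)) χ₁ := by
    refine hr₀ j (by omega) (Bl j) (Bl (j + 1)) (hlay j) (hlay (j + 1)) (hkj (j + 1)) χ₁ ?_
    by_contra h0
    push Not at h0
    apply hPj
    intro s hs
    rw [hχ₁ (res s) s (fun x x' hx => hres s x x' hx)]
    apply h0
    intro x hx
    apply Subtype.ext
    rw [← hres s x ⟨x, hle x.2⟩ rfl, hs ⟨x, hle x.2⟩ hx]
  exact hIFR p (by omega) k (K ⊔ Bl (j + 1)) (K ⊔ Bl r) (hkj (j + 1)) hB' hle hA.fin hA.gal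
    hA.comm (deg_Q p hp hB' hk hA) χ₁ χ (fun s s' hss => hχ₁ s s' hss) hm

/-- (2) class numbers -/
theorem fields (hIFM : Sf_IFM) (hREL : Sf_REL) (p : ℕ) [Fact p.Prime]
    (hp : 5 ≤ p) (k K : IntermediateField ℚ ℂ) (h : k ≤ K) (hk : ImQuad k) (hK : Abelian p h)
    (l : ℕ) (hl : l = 2 ∨ l = 3) (B₀ : IntermediateField ℚ ℂ)
    (r : ℕ) (B : IntermediateField ℚ ℂ) (hB : IsLayer l r B)
    (hχ : ∀ (hB : k ≤ K ⊔ B) (χ : Chr p hB),
        (∃ s : Gal hB, (∀ x : IntermediateField.extendScalars hB, (x : ℂ) ∈ K ⊔ B₀ → s x = x) ∧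
          χ s ≠ 1) → MuZeroC p hB χ)
    (L : IntermediateField ℚ ℂ) (hkL : k ≤ L) (hL : L ≤ K ⊔ B) : MuLE p L (L ⊓ (K ⊔ B₀)) := by
  have hkB : k ≤ K ⊔ B := h.trans le_sup_left
  have hA := ab_sup p hp h hK hl hB hkB
  have := hA.fin
  have hfL : FiniteDimensional ℚ L :=
    FiniteDimensional.of_injective (IntermediateField.inclusion hL).toLinearMap
      (IntermediateField.inclusion hL).injective
  obtain ⟨hGL, hcL⟩ := sub_ab hkL hL hkB hA.gal hA.comm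
  have hdM : ¬ p ∣ Module.finrank ℚ ↥(K ⊔ B) := deg_Q p hp hkB hk hA
  have hdL : ¬ p ∣ Module.finrank ℚ L := fun h0 => hdM ((mul_deg hL) ▸ h0.mul_right _)
  have hk' : k ≤ L ⊓ (K ⊔ B₀) := le_inf hkL (h.trans le_sup_left)
  refine hREL p (by omega) k (L ⊓ (K ⊔ B₀)) L hk' inf_le_left hkL hfL hGL hcL hdL ?_
  rintro χ ⟨s, hs, hχs⟩
  obtain ⟨res, hsur, hres⟩ := exists_res hkL hL hkB hGL hA.gal
  have hss : ∀ (s : Gal hkL) (s' : Gal hkB), (∀ (x : IntermediateField.extendScalars hkL)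
      (x' : IntermediateField.extendScalars hkB), (x' : ℂ) = x →
        ((s' x' : IntermediateField.extendScalars hkB) : ℂ) =
          (s x : IntermediateField.extendScalars hkL)) → (χ.comp res) s' = χ s := by
    intro s s' h1
    show χ (res s') = χ s
    rw [res_unique hL hres s s' h1]
  refine hIFM p (by omega) k L (K ⊔ B) hkL hkB hL hA.fin hA.gal hA.comm hdM χ (χ.comp res) hss ?_
  apply hχ
  by_contra h0
  push Not at h0
  -- `χ ∘ res` is trivial on `Gal(M/K B₀)` and on `Gal(M/L)`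
  have h1 : ∀ s : Gal hkB, (∀ x : IntermediateField.extendScalars hkB, (x : ℂ) ∈ L → s x = x) →
      (χ.comp res) s = 1 := by
    intro s hs
    show χ (res s) = 1
    have h2 : res s = 1 := by
      apply AlgEquiv.ext
      intro x
      apply Subtype.ext
      rw [← hres s x ⟨x, hL x.2⟩ rfl, hs ⟨x, hL x.2⟩ x.2]
      rfl
    rw [h2, map_one]
  have h3 : ∀ s : Gal hkB, (∀ x : IntermediateField.extendScalars hkB,
      (x : ℂ) ∈ (K ⊔ B₀) ⊓ (K ⊔ B) → s x = x) → (χ.comp res) s = 1 :=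
    fun s hs => h0 s fun x hx => hs x ⟨hx, x.2⟩
  obtain ⟨s', rfl⟩ := hsur s
  apply hχs
  refine two_fields hkL (le_inf (h.trans le_sup_left) hkB) hL inf_le_right hkB hA.gal
    (χ.comp res) h1 h3 s' ?_
  intro x hx
  have hxL : (x : ℂ) ∈ L := hx.1
  have h4 := hs ⟨x, hxL⟩ ⟨hxL, hx.2.1⟩
  apply Subtype.ext
  rw [hres s' ⟨x, hxL⟩ x rfl, h4]

/-- The final statement from `S_NEWK`. -/
theorem final_T (hNEW : S_NEWK) (hIFR : OT.S_IFR) (hIFM : Sf_IFM) (hREL : Sf_REL)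
    (hLAY : MUXJ.Sj_LAY) : FinalT := by
  intro p _ hp k K h hk hK l hl
  obtain ⟨r₀, B₀, h0, h1⟩ := chars hNEW hIFR hLAY p hp k K h hk hK l hl
  refine ⟨r₀, B₀, h0, fun r B hB => ⟨h1 r B hB, fun L hkL hL => ?_⟩⟩
  exact fields hIFM hREL p hp k K h hk hK l hl B₀ r B hB (h1 r B hB) L hkL hL

end Pool.Agent.OTF


end

section

/-!
# OT, FINAL (helper60): the root, up to the result `O_IT` of block I
-/

set_option autoImplicit false

open NumberField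

namespace Pool.Agent.OTF

open _root_.Pool.Agent.MuCyc Pool.Agent.OBF

theorem r_LAY : Sf_LAY := tf_LAY
theorem r_RRK : Sf_RRK := tf_RRK tf_RAG
theorem r_REL : Sf_REL := tf_REL r_LAY _root_.Pool.Agent.OB.q_BAX r_RRK
theorem r_IFM : Sf_IFM := tf_IFM r_LAY _root_.Pool.Agent.OB.q_BAX tf_INF
theorem r_IFR : OT.S_IFR := OT.t_IFR r_LAY _root_.Pool.Agent.OB.q_BAX

theorem r_TJ (h : _root_.Pool.Agent.OTI.O_IT) : _root_.Pool.Agent.OTJ.O_TJ :=
  OTJ.o_TJ OBR.o_RFIN (OBE.o_EFIN OBR.o_RFIN) (OTJ.t_IT h)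

theorem r_NEW (h : _root_.Pool.Agent.OTI.O_IT) : S_NEW := t_NEW MUXJ.t_LAY (r_TJ h)

theorem r_NEWK (h : _root_.Pool.Agent.OTI.O_IT) : S_NEWK := t_NEWK MUXJ.t_LAY r_IFM (r_NEW h)

/-- The final statement, from the result of block I -/
theorem r_T (h : _root_.Pool.Agent.OTI.O_IT) : FinalT :=
  final_T (r_NEWK h) r_IFR r_IFM r_REL MUXJ.t_LAY

end Pool.Agent.OTF


end

section

/-!
# OT, FINAL (helper60): THE ROOT of Theorem T (hand-in TwistsEveryPrime)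
-/

set_option autoImplicit false

open NumberField

namespace Pool.Agent.OTF

open _root_.Pool.Agent.MuCyc

/-- THEOREM T: the final statement, no hypotheses. -/
theorem final : FinalT :=
  r_T (OTI.oti_IT (OT.ot_HETA (OBT.x_TYF OBR.o_RFIN) OBG.x_GPT))

/-- THEOREM T, written out. -/
theorem twists_every_prime (p : ℕ) [Fact p.Prime] (hp : 5 ≤ p) (k K : IntermediateField ℚ ℂ)
    (h : k ≤ K) (hk : ImQuad k) (hK : Abelian p h) (l : ℕ) (hl : l = 2 ∨ l = 3) :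
    ∃ (r₀ : ℕ) (B₀ : IntermediateField ℚ ℂ), IsLayer l r₀ B₀ ∧
      ∀ (r : ℕ) (B : IntermediateField ℚ ℂ), IsLayer l r B →
        (∀ (hB : k ≤ K ⊔ B) (χ : Chr p hB),
          (∃ s : Gal hB,
            (∀ x : IntermediateField.extendScalars hB, (x : ℂ) ∈ K ⊔ B₀ → s x = x) ∧
              χ s ≠ 1) → MuZeroC p hB χ) ∧
        ∀ L : IntermediateField ℚ ℂ, k ≤ L → L ≤ K ⊔ B → MuLE p L (L ⊓ (K ⊔ B₀)) :=
  final p hp k K h hk hK l hl

end Pool.Agent.OTF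


end
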