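import Pool.Agent.OBM.Defs

/-!
# Definition for the theorem on the towers `K B_r` (all branches)

All fields are subfields of `ℂ`. The other definitions are in `Pool/Agent/OBM/Defs.lean` and
`Pool/Agent/VB/HDefs.lean`.
-/

set_option autoImplicit false

open NumberField

namespace Pool.Agent.MuCyc

/-- `v_p (h (K ℚ_n)) ≤ v_p (h (K' ℚ_n)) + C (n + 1) ^ 2` for all `n`, with a constant `C`; `h` is the
class number, `ℚ_n` the `n`-th layer of the cyclotomic `ℤ_p`-extension of `ℚ`. (So `μ = 0` for `K` if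
`μ = 0` for `K'`.) -/
def MuLE (p : ℕ) (K K' : IntermediateField ℚ ℂ) : Prop :=
  ∃ C : ℕ, ∀ (n : ℕ) (Q : IntermediateField ℚ ℂ), IsLayer p n Q →
    padicValNat p (classNo (K ⊔ Q)) ≤ padicValNat p (classNo (K' ⊔ Q)) + C * (n + 1) ^ 2

end Pool.Agent.MuCyc
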