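import Pool.Agent.OTM.C09
import Pool.Agent.OTM.Stmt
import Pool.Agent.OBM.Br

/-!
# The theorem of the hand-in TwistsEveryPrime, with the definitions of the statement
-/

set_option autoImplicit false

open NumberField IntermediateField

namespace Pool.Agent.MuBr

theorem br_le {p : ℕ} {K K' : IntermediateField ℚ ℂ} (H : MuCyc.MuLE p K K') : MuLE p K K' :=
  ⟨H⟩

theorem twists_every_prime (p : ℕ) [Fact p.Prime] (hp : 5 ≤ p) (k K : IntermediateField ℚ ℂ)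
    (h : k ≤ K) (hk : ImQuad k) (hK : Abelian p h) (l : ℕ) (hl : l = 2 ∨ l = 3) :
    ∃ (r₀ : ℕ) (B₀ : IntermediateField ℚ ℂ), MuCyc.IsLayer l r₀ B₀ ∧
      ∀ (r : ℕ) (B : IntermediateField ℚ ℂ), MuCyc.IsLayer l r B →
        (∀ (hB : k ≤ K ⊔ B)
          (χ : ((extendScalars hB) ≃ₐ[k] (extendScalars hB)) →* (AlgebraicClosure (ZMod p))ˣ),
          (∃ s, (∀ x : extendScalars hB, (x : ℂ) ∈ K ⊔ B₀ → s x = x) ∧ χ s ≠ 1) →
            MuZeroC p hB χ) ∧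
        ∀ L : IntermediateField ℚ ℂ, k ≤ L → L ≤ K ⊔ B → MuLE p L (L ⊓ (K ⊔ B₀)) := by
  obtain ⟨r₀, B₀, h0, H⟩ :=
    Pool.Agent.OTF.twists_every_prime p hp k K h hk.old hK.old l hl
  refine ⟨r₀, B₀, h0, fun r B hB => ?_⟩
  obtain ⟨h1, h2⟩ := H r B hB
  exact ⟨fun h' χ hχ => br_mu.2 (h1 h' χ hχ), fun L hL hL' => br_le (h2 L hL hL')⟩

end Pool.Agent.MuBr
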